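import Pool.Agent.Work.MP_3615d2_al.Mo.Defs
import Pool.Agent.Work.MP_3615d2_al.RhoB
import Mathlib.MeasureTheory.Group.FundamentalDomain

/-!
MP_3615d2_al, multiplicity one (note 6725): the fundamental domain `Gfin` of `z^ℤ` in `GL_m(E)`
and integrals of functions which are invariant under the centre.
-/

open MeasureTheory Filter Topology
open scoped Pointwise

namespace SpW.Mo

set_option linter.unusedSectionVars false

variable {E : Type} [NontriviallyNormedField E] [IsUltrametricDist E] [ProperSpace E]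
  [MeasurableSpace E] [BorelSpace E] {m : ℕ}

/-- the scalar matrix `z` -/
abbrev scl (m : ℕ) (z : Eˣ) : GL (Fin m) E := Matrix.GeneralLinearGroup.scalar (R := E) (Fin m) z

theorem ad_lc : IsLocallyConstant (ad : GL (Fin m) E → ℝ) := by
  rw [IsLocallyConstant.iff_eventually_eq]
  intro g
  have h1 : Tendsto (fun x : GL (Fin m) E => g⁻¹ * x) (𝓝 g) (𝓝 1) := by
    have h2 : Continuous fun x : GL (Fin m) E => g⁻¹ * x := continuous_const.mul continuous_id
    have h3 := h2.tendsto g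
    simpa using h3
  filter_upwards [h1.eventually ad_eventually] with x hx
  have h4 : ad x = ad g * ad (g⁻¹ * x) := by
    rw [← ad_mul, mul_inv_cancel_left]
  rw [h4, hx, mul_one]

theorem continuous_ad : Continuous (ad : GL (Fin m) E → ℝ) := ad_lc.continuous

theorem ad_inv (g : GL (Fin m) E) : ad g⁻¹ = (ad g)⁻¹ := by
  apply eq_inv_of_mul_eq_one_left
  rw [← ad_mul, inv_mul_cancel, ad_one]

theorem ad_zpow (g : GL (Fin m) E) (n : ℤ) : ad (g ^ n) = ad g ^ n := by
  have h1 : ∀ k : ℕ, ad (g ^ k) = ad g ^ k := by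
    intro k
    induction k with
    | zero => rw [pow_zero, pow_zero, ad_one]
    | succ k ih => rw [pow_succ, pow_succ, ad_mul, ih]
  cases n with
  | ofNat k =>
    rw [Int.ofNat_eq_natCast, zpow_natCast, zpow_natCast, h1]
  | negSucc k =>
    rw [zpow_negSucc, zpow_negSucc, ad_inv, h1]

theorem isClopen_Gfin (z : Eˣ) : IsClopen (Gfin (E := E) m z) := by
  have h1 : Gfin (E := E) m z = (ad : GL (Fin m) E → ℝ) ⁻¹' {r | ad (scl m z) < r ∧ r ≤ 1} := rfl
  rw [h1]
  refine ⟨⟨?_⟩, ad_lc _⟩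
  rw [← Set.preimage_compl]
  exact ad_lc _

theorem scl_comm (z : Eˣ) (g : GL (Fin m) E) : scl m z * g = g * scl m z :=
  scalZ_central _ ⟨z, rfl⟩ g

theorem mem_Gfin_of_ad {z : Eˣ} {g h : GL (Fin m) E} (hgh : ad g = ad h) :
    g ∈ Gfin m z ↔ h ∈ Gfin m z := by
  change _ ∧ _ ↔ _ ∧ _
  rw [hgh]

section fund

variable [MeasurableSpace (GL (Fin m) E)] [BorelSpace (GL (Fin m) E)]

theorem zpow_unique {c a : ℝ} (hc0 : 0 < c) (hc : c < 1) (ha : 0 < a) :
    ∃! n : ℤ, c < c ^ n * a ∧ c ^ n * a ≤ 1 := by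
  have hc1 : 1 < c⁻¹ := (one_lt_inv₀ hc0).2 hc
  obtain ⟨n, hn1, hn2⟩ := exists_mem_Ioc_zpow ha hc1
  refine ⟨n + 1, ⟨?_, ?_⟩, ?_⟩
  · rw [inv_zpow] at hn1
    have h1 : 0 < c ^ n := zpow_pos hc0 n
    have h2 : 1 < c ^ n * a := by
      have h3 := mul_lt_mul_of_pos_left hn1 h1
      rwa [mul_inv_cancel₀ h1.ne'] at h3
    rw [zpow_add₀ hc0.ne', zpow_one]
    nlinarith
  · rw [inv_zpow] at hn2
    have h1 : 0 < c ^ (n + 1) := zpow_pos hc0 _
    have h3 := mul_le_mul_of_nonneg_left hn2 h1.le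
    rwa [mul_inv_cancel₀ h1.ne'] at h3
  · rintro k ⟨hk1, hk2⟩
    have g1 : c < c ^ (n + 1) * a := by
      rw [inv_zpow] at hn1
      have h1 : 0 < c ^ n := zpow_pos hc0 n
      have h2 : 1 < c ^ n * a := by
        have h3 := mul_lt_mul_of_pos_left hn1 h1
        rwa [mul_inv_cancel₀ h1.ne'] at h3
      rw [zpow_add₀ hc0.ne', zpow_one]
      nlinarith
    have g2 : c ^ (n + 1) * a ≤ 1 := by
      rw [inv_zpow] at hn2
      have h1 : 0 < c ^ (n + 1) := zpow_pos hc0 _
      have h3 := mul_le_mul_of_nonneg_left hn2 h1.le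
      rwa [mul_inv_cancel₀ h1.ne'] at h3
    have key : ∀ i j : ℤ, c < c ^ i * a → c ^ j * a ≤ 1 → i ≤ j := by
      intro i j hi hj
      by_contra hij
      push Not at hij
      have h1 : c ^ i ≤ c ^ (j + 1) := zpow_le_zpow_right_of_le_one₀ hc0 hc.le (by omega)
      have h2 : c ^ i * a ≤ c ^ (j + 1) * a := mul_le_mul_of_nonneg_right h1 ha.le
      rw [zpow_add₀ hc0.ne', zpow_one] at h2
      have h3 : c * (c ^ j * a) ≤ c * 1 := mul_le_mul_of_nonneg_left hj hc0.le
      nlinarith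
    exact le_antisymm (key _ _ hk1 g2) (key _ _ g1 hk2)

theorem isFund {z : Eˣ} (hz : ad (scl m z) < 1) (μ : Measure (GL (Fin m) E)) :
    IsFundamentalDomain (Subgroup.zpowers (scl m z)) (Gfin m z) μ := by
  refine IsFundamentalDomain.mk' (isClopen_Gfin z).isOpen.measurableSet.nullMeasurableSet ?_
  intro x
  obtain ⟨n, hn, hu⟩ := zpow_unique (ad_pos (scl m z)) hz (ad_pos x)
  refine ⟨⟨scl m z ^ n, n, rfl⟩, ?_, ?_⟩
  · change ad (scl m z) < ad (scl m z ^ n * x) ∧ ad (scl m z ^ n * x) ≤ 1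
    rw [ad_mul, ad_zpow]
    exact hn
  · rintro ⟨_, k, rfl⟩ hk
    have h1 : ad (scl m z) < ad (scl m z ^ k * x) ∧ ad (scl m z ^ k * x) ≤ 1 := hk
    rw [ad_mul, ad_zpow] at h1
    have h2 := hu k h1
    subst h2
    rfl

theorem inv_zpowers {z : Eˣ} {F : GL (Fin m) E → ℂ} (hF : ∀ g, F (scl m z * g) = F g)
    (γ : Subgroup.zpowers (scl m z)) (x : GL (Fin m) E) : F (γ • x) = F x := by
  obtain ⟨_, n, rfl⟩ := γ
  change F (scl m z ^ n * x) = F x
  have h1 : ∀ (j : ℕ) (y : GL (Fin m) E), F (scl m z ^ j * y) = F y := by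
    intro j
    induction j with
    | zero =>
      intro y
      rw [pow_zero, one_mul]
    | succ j ih =>
      intro y
      rw [pow_succ, mul_assoc, ih, hF]
  cases n with
  | ofNat j =>
    rw [Int.ofNat_eq_natCast, zpow_natCast, h1]
  | negSucc j =>
    rw [zpow_negSucc, ← h1 (j + 1) ((scl m z ^ (j + 1))⁻¹ * x), mul_inv_cancel_left]

/-- invariance of the integral over `G/Z` under right translations -/
theorem setInt_mul_right {z : Eˣ} (hz : ad (scl m z) < 1) (μ : Measure (GL (Fin m) E))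
    [μ.IsMulLeftInvariant] [μ.IsMulRightInvariant] {F : GL (Fin m) E → ℂ}
    (hF : ∀ g, F (scl m z * g) = F g) (k : GL (Fin m) E) :
    ∫ g in Gfin m z, F (g * k) ∂μ = ∫ g in Gfin m z, F g ∂μ := by
  have hF' := inv_zpowers hF
  have h2 : IsFundamentalDomain (Subgroup.zpowers (scl m z))
      ((fun g => g * k⁻¹) ⁻¹' Gfin m z) μ := by
    refine (isFund hz μ).preimage_of_equiv
      (measurePreserving_mul_right μ k⁻¹).quasiMeasurePreserving (Function.bijective_id) ?_
    intro γ x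
    change ((γ : GL (Fin m) E) * x) * k⁻¹ = (γ : GL (Fin m) E) * (x * k⁻¹)
    rw [mul_assoc]
  rw [← (h2.setIntegral_eq (isFund hz μ) hF')]
  have h3 := (measurePreserving_mul_right μ k).setIntegral_preimage_emb
    (MeasurableEquiv.mulRight k).measurableEmbedding F ((fun g => g * k⁻¹) ⁻¹' Gfin m z)
  rw [← h3]
  congr 2
  ext g
  simp

/-- invariance of the integral over `G/Z` under left translations -/
theorem setInt_mul_left {z : Eˣ} (hz : ad (scl m z) < 1) (μ : Measure (GL (Fin m) E))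
    [μ.IsMulLeftInvariant] [μ.IsMulRightInvariant] {F : GL (Fin m) E → ℂ}
    (hF : ∀ g, F (scl m z * g) = F g) (k : GL (Fin m) E) :
    ∫ g in Gfin m z, F (k * g) ∂μ = ∫ g in Gfin m z, F g ∂μ := by
  have hF' := inv_zpowers hF
  have h2 : IsFundamentalDomain (Subgroup.zpowers (scl m z))
      ((fun g => k⁻¹ * g) ⁻¹' Gfin m z) μ := by
    refine (isFund hz μ).preimage_of_equiv
      (measurePreserving_mul_left μ k⁻¹).quasiMeasurePreserving (Function.bijective_id) ?_
    rintro ⟨_, n, rfl⟩ x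
    change k⁻¹ * (scl m z ^ n * x) = scl m z ^ n * (k⁻¹ * x)
    have h5 : scl m z ^ n = scl m (z ^ n) := (map_zpow _ _ _).symm
    rw [h5, ← mul_assoc, ← scl_comm, mul_assoc]
  rw [← (h2.setIntegral_eq (isFund hz μ) hF')]
  have h3 := (measurePreserving_mul_left μ k).setIntegral_preimage_emb
    (MeasurableEquiv.mulLeft k).measurableEmbedding F ((fun g => k⁻¹ * g) ⁻¹' Gfin m z)
  rw [← h3]
  congr 2
  ext g
  simp

end fund

/-! ## Compactness -/

theorem ad_scl (z : Eˣ) : ad (scl m z) = (md (z : E) : ℝ) ^ m := by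
  rw [ad_eq_md]
  have h1 : ((scl m z : GL (Fin m) E) : Matrix (Fin m) (Fin m) E).det = (z : E) ^ m := by
    show (Matrix.scalar (Fin m) (z : E)).det = (z : E) ^ m
    rw [Matrix.scalar_apply, Matrix.det_diagonal, Finset.prod_const, Finset.card_univ,
      Fintype.card_fin]
  rw [h1, md_pow]
  push_cast
  rfl

theorem exists_scl_bound (hm : 0 < m) (B : ℝ) :
    ∃ R : ℝ, ∀ z : Eˣ, ad (scl m z) ≤ B → ‖(z : E)‖ ≤ R := by
  obtain ⟨t, ht⟩ := NormedField.exists_one_lt_norm E
  have h1 : 1 < (md t : ℝ) := by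
    have h2 : md (1 : E) < md t := md_lt (by rw [norm_one]; exact ht)
    rw [md_one] at h2
    exact_mod_cast h2
  obtain ⟨n, hn⟩ := pow_unbounded_of_one_lt (max B 1) h1
  refine ⟨‖t ^ n‖, fun z hz => ?_⟩
  rw [ad_scl] at hz
  by_contra h
  push Not at h
  have h2 : md (t ^ n) < md (z : E) := md_lt h
  have h3 : (md t : ℝ) ^ n < md (z : E) := by
    rw [md_pow] at h2
    exact_mod_cast h2
  have h4 : max B 1 < (md (z : E) : ℝ) := hn.trans h3
  have h5 : 1 < (md (z : E) : ℝ) := (le_max_right _ _).trans_lt h4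
  have h6 : (md (z : E) : ℝ) ≤ (md (z : E) : ℝ) ^ m := le_self_pow₀ h5.le hm.ne'
  exact absurd ((le_max_left B 1).trans_lt h4) (not_lt.2 (h6.trans hz))

/-- a function with compact support modulo the centre has compact support on `Gfin` -/
theorem fin_compact (hm : 0 < m) (z : Eˣ) {W : Type} [Zero W] {F : GL (Fin m) E → W}
    (hF : CptMod (scalZ m E) F) :
    ∃ C : Set (GL (Fin m) E), IsCompact C ∧ ∀ g ∈ Gfin m z, F g ≠ 0 → g ∈ C := by
  obtain ⟨C, hC, h1⟩ := hF
  obtain ⟨M, hM⟩ := hC.bddAbove_image (f := (ad : GL (Fin m) E → ℝ)) continuous_ad.continuousOn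
  obtain ⟨M', hM'⟩ := hC.bddAbove_image (f := fun g : GL (Fin m) E => (ad g)⁻¹)
    (continuous_ad.inv₀ fun g => (ad_pos g).ne').continuousOn
  obtain ⟨R, hR⟩ := exists_scl_bound (E := E) hm M'
  obtain ⟨R', hR'⟩ := exists_scl_bound (E := E) hm (M * (ad (scl m z))⁻¹)
  refine ⟨C * {g : GL (Fin m) E | ∀ i j, ‖(g : Matrix (Fin m) (Fin m) E) i j‖ ≤ max R R' ∧
    ‖((g⁻¹ : GL (Fin m) E) : Matrix (Fin m) (Fin m) E) i j‖ ≤ max R R'}, ?_, ?_⟩
  · exact hC.mul (isCompact_gl_bdd _)
  · intro g hg hg0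
    obtain ⟨c, hc, _, ⟨y, rfl⟩, rfl⟩ := h1 g hg0
    refine Set.mul_mem_mul hc ?_
    have h2 : ad (scl m z) < ad c * ad (scl m y) ∧ ad c * ad (scl m y) ≤ 1 := by
      rw [← ad_mul]
      exact hg
    have h3 : ad (scl m y) ≤ M' := by
      have h4 : (ad c)⁻¹ ≤ M' := hM' ⟨c, hc, rfl⟩
      refine le_trans ?_ h4
      rw [le_inv_comm₀ (ad_pos _) (ad_pos _), inv_eq_one_div, le_div_iff₀ (ad_pos _)]
      exact h2.2
    have h5 : ad (scl m y⁻¹) ≤ M * (ad (scl m z))⁻¹ := by
      have h4 : ad c ≤ M := hM ⟨c, hc, rfl⟩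
      have h6 : scl m y⁻¹ = (scl m y)⁻¹ := map_inv _ _
      rw [h6, ad_inv, ← div_eq_mul_inv, le_div_iff₀ (ad_pos _), mul_comm, ← div_eq_mul_inv,
        div_le_iff₀ (ad_pos _)]
      exact h2.1.le.trans (mul_le_mul_of_nonneg_right h4 (ad_pos _).le)
    have h7 := hR y h3
    have h8 := hR' y⁻¹ h5
    have key : ∀ (w : Eˣ) (r : ℝ), ‖(w : E)‖ ≤ r → ∀ i j,
        ‖((scl m w : GL (Fin m) E) : Matrix (Fin m) (Fin m) E) i j‖ ≤ r := by
      intro w r hw i j
      show ‖(Matrix.scalar (Fin m) (w : E)) i j‖ ≤ r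
      rw [Matrix.scalar_apply, Matrix.diagonal_apply]
      split_ifs
      · exact hw
      · rw [norm_zero]
        exact (norm_nonneg _).trans hw
    intro i j
    refine ⟨key y _ (h7.trans (le_max_left _ _)) i j, ?_⟩
    have h9 : (scl m y)⁻¹ = scl m y⁻¹ := (map_inv _ _).symm
    change ‖(((scl m y)⁻¹ : GL (Fin m) E) : Matrix (Fin m) (Fin m) E) i j‖ ≤ max R R'
    rw [h9]
    exact key y⁻¹ _ (h8.trans (le_max_right _ _)) i j

theorem indicator_lc {X W : Type} [TopologicalSpace X] [Zero W] {S : Set X} (hS : IsClopen S)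
    {F : X → W} (hF : IsLocallyConstant F) : IsLocallyConstant (S.indicator F) := by
  classical
  rw [IsLocallyConstant.iff_eventually_eq] at hF ⊢
  intro x
  by_cases hx : x ∈ S
  · filter_upwards [hF x, hS.isOpen.mem_nhds hx] with y hy1 hy2
    rw [Set.indicator_of_mem hy2, Set.indicator_of_mem hx, hy1]
  · filter_upwards [hS.isClosed.isOpen_compl.mem_nhds hx] with y hy
    rw [Set.indicator_of_notMem hy, Set.indicator_of_notMem hx]

/-- the restriction to `Gfin` of a locally constant function with compact support modulo the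
centre -/
noncomputable def finSch (hm : 0 < m) (z : Eˣ) {S : Type} [AddCommGroup S] [Module ℂ S]
    {F : GL (Fin m) E → S} (hlc : IsLocallyConstant F) (hF : CptMod (scalZ m E) F) :
    Sch (GL (Fin m) E) S :=
  ⟨(Gfin m z).indicator F, indicator_lc (isClopen_Gfin z) hlc,
    (fin_compact hm z hF).choose, (fin_compact hm z hF).choose_spec.1, fun x hx => by
      by_contra h
      have h1 : x ∈ Gfin m z := by
        by_contra h2
        exact h (Set.indicator_of_notMem h2 _)
      rw [Set.indicator_of_mem h1] at h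
      exact hx ((fin_compact hm z hF).choose_spec.2 x h1 h)⟩

theorem finSch_apply (hm : 0 < m) (z : Eˣ) {S : Type} [AddCommGroup S] [Module ℂ S]
    {F : GL (Fin m) E → S} (hlc : IsLocallyConstant F) (hF : CptMod (scalZ m E) F)
    (x : GL (Fin m) E) : (finSch hm z hlc hF).1 x = (Gfin m z).indicator F x := rfl

section int

variable [MeasurableSpace (GL (Fin m) E)] [BorelSpace (GL (Fin m) E)]

theorem finSch_int (hm : 0 < m) (z : Eˣ) {S : Type} [AddCommGroup S] [Module ℂ S]
    {F : GL (Fin m) E → S} (hlc : IsLocallyConstant F) (hF : CptMod (scalZ m E) F)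
    (μ : Measure (GL (Fin m) E)) [IsFiniteMeasureOnCompacts μ] (ξ : S →ₗ[ℂ] ℂ) :
    ξ (schI μ (finSch hm z hlc hF)) = ∫ g in Gfin m z, ξ (F g) ∂μ := by
  rw [schI_dual, ← integral_indicator (isClopen_Gfin z).isOpen.measurableSet]
  refine integral_congr_ae (Eventually.of_forall fun g => ?_)
  change ξ ((Gfin m z).indicator F g) = (Gfin m z).indicator (fun g => ξ (F g)) g
  by_cases hg : g ∈ Gfin m z
  · rw [Set.indicator_of_mem hg, Set.indicator_of_mem hg]
  · rw [Set.indicator_of_notMem hg, Set.indicator_of_notMem hg, map_zero]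

/-- the integral of a locally constant function with compact support modulo the centre
converges -/
theorem fin_integrableOn (hm : 0 < m) (z : Eˣ) {F : GL (Fin m) E → ℂ} (hlc : IsLocallyConstant F)
    (hF : CptMod (scalZ m E) F) (μ : Measure (GL (Fin m) E)) [IsFiniteMeasureOnCompacts μ] :
    IntegrableOn F (Gfin m z) μ := by
  have h1 := sch_integrable μ (finSch hm z hlc hF) LinearMap.id
  rw [← integrable_indicator_iff (isClopen_Gfin z).isOpen.measurableSet]
  exact h1

end int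

end SpW.Mo
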