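import Pool.Agent.Work.MP_3615d2_al.Cartan
import Pool.Agent.Work.MP_3615d2_al.Integ1

/-!
MP_3615d2_al, multiplicity one, counting block 1: congruence subgroups act transitively on small
balls of skew-Hermitian matrices (square roots of matrices near `1`).
-/

open Filter Topology

set_option linter.unusedSectionVars false

namespace SpW

section fix

variable {E : Type} [NontriviallyNormedField E] [IsUltrametricDist E] [ProperSpace E]
  {n : Type} [Fintype n] [DecidableEq n]

attribute [local instance] Matrix.normedAddCommGroup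

theorem mnorm_mul_le (A B : Matrix n n E) : ‖A * B‖ ≤ ‖A‖ * ‖B‖ := by
  rw [Matrix.norm_le_iff (mul_nonneg (norm_nonneg _) (norm_nonneg _))]
  intro i j
  exact mul_entry_le A B (norm_nonneg _) (norm_nonneg _) (fun i j => Matrix.norm_entry_le_entrywise_sup_norm A)
    (fun i j => Matrix.norm_entry_le_entrywise_sup_norm B) i j

theorem mnorm_add_le (A B : Matrix n n E) : ‖A + B‖ ≤ max ‖A‖ ‖B‖ := by
  rw [Matrix.norm_le_iff (le_max_of_le_left (norm_nonneg _))]
  intro i j
  rw [Matrix.add_apply]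
  exact (IsUltrametricDist.norm_add_le_max _ _).trans
    (max_le_max (Matrix.norm_entry_le_entrywise_sup_norm A) (Matrix.norm_entry_le_entrywise_sup_norm B))

theorem mnorm_sub_le (A B : Matrix n n E) : ‖A - B‖ ≤ max ‖A‖ ‖B‖ := by
  rw [sub_eq_add_neg]
  refine (mnorm_add_le A (-B)).trans ?_
  rw [norm_neg]

theorem mnorm_smul (c : E) (A : Matrix n n E) : ‖c • A‖ = ‖c‖ * ‖A‖ := by
  let _ := Matrix.normedSpace (R := E) (m := n) (n := n) (α := E)
  exact norm_smul c A

/-- Fixed points in the ultrametric space of matrices. -/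
theorem exists_fix (S : Set (Matrix n n E)) (hS : IsClosed S) (h0 : S.Nonempty)
    (T : Matrix n n E → Matrix n n E) (hT : ∀ y ∈ S, T y ∈ S)
    (hc : ∀ y ∈ S, ∀ y' ∈ S, ‖T y - T y'‖ ≤ (1 / 2) * ‖y - y'‖) : ∃ y ∈ S, T y = y := by
  obtain ⟨x, hx⟩ := h0
  have h1 : ContractingWith (1 / 2 : NNReal) ((Set.mapsTo_iff_image_subset.2
      (Set.image_subset_iff.2 hT) : Set.MapsTo T S S).restrict T S S) := by
    refine ⟨by
      rw [← NNReal.coe_lt_coe]
      norm_num, LipschitzWith.of_dist_le_mul fun a b => ?_⟩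
    rw [Subtype.dist_eq, Subtype.dist_eq, dist_eq_norm, dist_eq_norm]
    have := hc a.1 a.2 b.1 b.2
    simpa using this
  obtain ⟨y, hy, hyf, -⟩ := ContractingWith.exists_fixedPoint' hS.isComplete _ h1 hx (edist_ne_top _ _)
  exact ⟨y, hy, hyf⟩

/-- A matrix near `1` is in a congruence subgroup. -/
theorem exists_glK_of_near {ρ : ℝ} (h0 : 0 ≤ ρ) (h1 : ρ ≤ 1) (h2 : ρ ≤ 1 / 2)
    (y : Matrix n n E) (hy : ‖y‖ ≤ ρ) : ∃ k ∈ glK n E ρ h0 h1, (k : Matrix n n E) = 1 + y := by
  obtain ⟨u, hu, hfu⟩ := exists_fix {u : Matrix n n E | ‖u‖ ≤ ρ}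
    (isClosed_le continuous_norm continuous_const) ⟨0, by simpa using h0⟩ (fun u => -y - y * u)
    (by
      intro u hu
      refine (mnorm_sub_le _ _).trans (max_le (by rwa [norm_neg]) ((mnorm_mul_le _ _).trans ?_))
      calc ‖y‖ * ‖u‖ ≤ ρ * 1 := mul_le_mul hy ((show ‖u‖ ≤ ρ from hu).trans h1) (norm_nonneg _) h0
        _ = ρ := mul_one _)
    (by
      intro u _ u' _
      have h3 : (-y - y * u) - (-y - y * u') = -(y * (u - u')) := by noncomm_ring
      rw [h3, norm_neg]
      exact (mnorm_mul_le _ _).trans (mul_le_mul_of_nonneg_right (hy.trans h2) (norm_nonneg _)))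
  have h4 : (1 + y) * (1 + u) = 1 := by
    have h5 : (1 + y) * (1 + u) = 1 + y + (u + y * u) := by noncomm_ring
    rw [h5]
    nth_rewrite 1 [← hfu]
    noncomm_ring
  refine ⟨⟨1 + y, 1 + u, h4, mul_eq_one_comm.1 h4⟩, ⟨fun i j => ?_, fun i j => ?_⟩, rfl⟩
  · show ‖((1 + y) - 1) i j‖ ≤ ρ
    rw [add_sub_cancel_left]
    exact (Matrix.norm_entry_le_entrywise_sup_norm y).trans hy
  · show ‖((1 + u) - 1) i j‖ ≤ ρ
    rw [add_sub_cancel_left]
    exact (Matrix.norm_entry_le_entrywise_sup_norm u).trans hu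

/-- Square roots of matrices near `1`, with a closed side condition. -/
theorem exists_sqrt (h2 : (2 : E) ≠ 0) {ρ : ℝ} (h0 : 0 ≤ ρ) (hρ : ρ ≤ ‖(2 : E)‖ / 2)
    (w : Matrix n n E) (hw : ‖w‖ ≤ ‖(2 : E)‖ * ρ) (P : Matrix n n E → Prop)
    (hP : IsClosed {y | P y}) (hP0 : P 0) (hPw : ∀ y, P y → P ((2 : E)⁻¹ • (w - y * y))) :
    ∃ y, ‖y‖ ≤ ρ ∧ P y ∧ (1 + y) * (1 + y) = 1 + w := by
  have h20 : 0 < ‖(2 : E)‖ := norm_pos_iff.2 h2
  obtain ⟨y, ⟨hy, hPy⟩, hfy⟩ := exists_fix {y : Matrix n n E | ‖y‖ ≤ ρ ∧ P y}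
    ((isClosed_le continuous_norm continuous_const).inter hP) ⟨0, by simpa using h0, hP0⟩
    (fun y => (2 : E)⁻¹ • (w - y * y))
    (by
      rintro y ⟨hy, hPy⟩
      refine ⟨?_, hPw y hPy⟩
      rw [mnorm_smul, norm_inv, inv_mul_le_iff₀ h20]
      refine (mnorm_sub_le _ _).trans (max_le hw ((mnorm_mul_le _ _).trans ?_))
      calc ‖y‖ * ‖y‖ ≤ ρ * ρ := mul_le_mul hy hy (norm_nonneg _) h0
        _ ≤ ‖(2 : E)‖ * ρ := mul_le_mul_of_nonneg_right (by linarith) h0)
    (by
      rintro y ⟨hy, -⟩ y' ⟨hy', -⟩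
      have h3 : (2 : E)⁻¹ • (w - y * y) - (2 : E)⁻¹ • (w - y' * y') =
          (2 : E)⁻¹ • (-(y * (y - y') + (y - y') * y')) := by
        rw [← smul_sub]
        congr 1
        noncomm_ring
      rw [h3, mnorm_smul, norm_neg, norm_inv, inv_mul_le_iff₀ h20]
      refine (mnorm_add_le _ _).trans (max_le ((mnorm_mul_le _ _).trans ?_)
        ((mnorm_mul_le _ _).trans ?_))
      · calc ‖y‖ * ‖y - y'‖ ≤ (‖(2 : E)‖ / 2) * ‖y - y'‖ :=
              mul_le_mul_of_nonneg_right (hy.trans hρ) (norm_nonneg _)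
          _ = ‖(2 : E)‖ * (1 / 2 * ‖y - y'‖) := by ring
      · calc ‖y - y'‖ * ‖y'‖ ≤ ‖y - y'‖ * (‖(2 : E)‖ / 2) :=
              mul_le_mul_of_nonneg_left (hy'.trans hρ) (norm_nonneg _)
          _ = ‖(2 : E)‖ * (1 / 2 * ‖y - y'‖) := by ring)
  refine ⟨y, hy, hPy, ?_⟩
  have h4 : w - y * y = (2 : E) • y := by
    have h5 := congrArg (fun u => (2 : E) • u) hfy
    simp only [smul_smul] at h5
    rwa [mul_inv_cancel₀ h2, one_smul] at h5
  have h6 : (2 : E) • y = y + y := by rw [two_smul]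
  have h7 : (1 + y) * (1 + y) = 1 + (y + y) + y * y := by noncomm_ring
  rw [h7, ← h6, ← h4]
  noncomm_ring

end fix

section cst

variable {E : Type} [Field E] {n : Type} [Fintype n] [DecidableEq n]

/-- The conjugate transpose for `σ`. -/
def cst (σ : E → E) (M : Matrix n n E) : Matrix n n E := fun i j => σ (M j i)

variable {F : Type} [Field F] [Algebra F E] (σ : E ≃ₐ[F] E)

theorem cst_mul (A B : Matrix n n E) : cst σ (A * B) = cst σ B * cst σ A := by
  ext i j
  simp only [cst, Matrix.mul_apply, map_sum, map_mul]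
  exact Finset.sum_congr rfl fun k _ => mul_comm _ _

theorem cst_add (A B : Matrix n n E) : cst σ (A + B) = cst σ A + cst σ B := by
  ext i j
  simp [cst]

theorem cst_sub (A B : Matrix n n E) : cst σ (A - B) = cst σ A - cst σ B := by
  ext i j
  simp [cst]

theorem cst_neg (A : Matrix n n E) : cst σ (-A) = -cst σ A := by
  ext i j
  simp [cst]

theorem cst_one : cst σ (1 : Matrix n n E) = 1 := by
  ext i j
  by_cases h : i = j
  · subst h
    simp [cst]
  · rw [Matrix.one_apply_ne h]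
    show σ ((1 : Matrix n n E) j i) = 0
    rw [Matrix.one_apply_ne (Ne.symm h), map_zero]

theorem cst_smul (c : E) (A : Matrix n n E) : cst σ (c • A) = σ c • cst σ A := by
  ext i j
  simp [cst]

end cst

section hensel

variable {F E : Type} [NontriviallyNormedField F] [IsUltrametricDist F] [ProperSpace F]
  [NontriviallyNormedField E] [NormedAlgebra F E] [IsUltrametricDist E] [ProperSpace E]
  {σ : E ≃ₐ[F] E} {δ : E} {d : F} {n : Type} [Fintype n] [DecidableEq n]

theorem cst_cst (hq : QuadDatum σ δ d) (A : Matrix n n E) : cst σ (cst σ A) = A := by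
  ext i j
  exact sig_sig hq _

/-- The Gram matrix of the form `H` in the basis `x`: `x^t H σ(x)`. -/
def gram (σ : E → E) (H x : Matrix n n E) : Matrix n n E :=
  x.transpose * H * x.map σ

theorem gram_eq (hq : QuadDatum σ δ d) (H x : Matrix n n E) :
    gram σ H x = cst σ (x.map σ) * H * x.map σ := by
  have h1 : cst σ (x.map σ) = x.transpose := by
    ext i j
    exact sig_sig hq _
  rw [gram, h1]

theorem gram_mul (H x y : Matrix n n E) : gram σ H (x * y) = gram σ (gram σ H x) y := by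
  have h1 : (x * y).map σ = x.map σ * y.map σ :=
    Matrix.map_mul (f := (σ : E →+* E)) (L := x) (M := y)
  rw [gram, gram, gram, h1, Matrix.transpose_mul]
  simp only [Matrix.mul_assoc]

attribute [local instance] Matrix.normedAddCommGroup in
/-- **Transitivity on small balls**: `s + z = k^t s σ(k)` with `k` near `1`. -/
theorem hensel (hq : QuadDatum σ δ d) {M ρ : ℝ} (hM : 0 < M) (h0 : 0 ≤ ρ) (h1 : ρ ≤ 1)
    (h2 : ρ ≤ 1 / 2) (h3 : ρ ≤ ‖(2 : E)‖ / 2) (s t z : Matrix n n E)
    (hs : cst σ s = -s) (hst : s * t = 1) (ht : ∀ i j, ‖t i j‖ ≤ M) (hz : cst σ z = -z)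
    (hzn : ∀ i j, ‖z i j‖ ≤ ‖(2 : E)‖ / M * ρ) :
    ∃ k ∈ glK n E ρ h0 h1, gram σ s (k : Matrix n n E) = s + z := by
  have h20 : (2 : E) ≠ 0 := hq.two_E
  have hts : t * s = 1 := mul_eq_one_comm.1 hst
  have hct : cst σ t * s = -1 := by
    have h4 : cst σ (s * t) = 1 := by rw [hst, cst_one]
    rw [cst_mul, hs, mul_neg] at h4
    rw [← h4, neg_neg]
  set w := t * z with hw
  have hwn : ‖w‖ ≤ ‖(2 : E)‖ * ρ := by
    have h4 : ‖t‖ ≤ M := (Matrix.norm_le_iff hM.le).2 ht
    have h5 : ‖z‖ ≤ ‖(2 : E)‖ / M * ρ := (Matrix.norm_le_iff (by positivity)).2 hzn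
    calc ‖w‖ ≤ ‖t‖ * ‖z‖ := mnorm_mul_le _ _
      _ ≤ M * (‖(2 : E)‖ / M * ρ) := mul_le_mul h4 h5 (norm_nonneg _) hM.le
      _ = ‖(2 : E)‖ * ρ := by field_simp
  have hws : cst σ w * s = z := by
    rw [hw, cst_mul, hz, mul_assoc, hct]
    simp
  have hsw : s * w = z := by rw [hw, ← mul_assoc, hst, one_mul]
  obtain ⟨y, hy, hyP, hyy⟩ := exists_sqrt h20 h0 h3 w hwn (fun y => cst σ y * s = s * y)
    (by
      have h4 : Continuous fun y : Matrix n n E => cst σ y := by
        refine continuous_matrix fun i j => ?_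
        have h5 : Continuous (σ : E → E) := by
          have hfin := hq.finite
          exact σ.toLinearMap.continuous_of_finiteDimensional
        exact h5.comp (continuous_id.matrix_elem j i)
      exact isClosed_eq (h4.matrix_mul continuous_const) (continuous_const.matrix_mul continuous_id))
    (by
      show cst σ 0 * s = s * 0
      have : cst σ (0 : Matrix n n E) = 0 := by
        ext i j
        simp [cst]
      rw [this, zero_mul, mul_zero])
    (by
      intro y hy
      have hyy : cst σ (y * y) * s = s * (y * y) := by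
        rw [cst_mul, mul_assoc, hy, ← mul_assoc, hy, mul_assoc]
      rw [cst_smul, map_inv₀, map_ofNat, Matrix.smul_mul, Matrix.mul_smul, cst_sub, sub_mul,
        mul_sub, hws, hsw, hyy])
  obtain ⟨K, hK, hKy⟩ := exists_glK_of_near h0 h1 h2 (y.map σ) (by
    rw [Matrix.norm_le_iff h0]
    intro i j
    rw [Matrix.map_apply, sg_norm hq]
    exact (Matrix.norm_entry_le_entrywise_sup_norm y).trans hy)
  refine ⟨K, hK, ?_⟩
  have h5 : (K : Matrix n n E).map σ = 1 + y := by
    rw [hKy]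
    ext i j
    rw [Matrix.map_apply, Matrix.add_apply, Matrix.add_apply, map_add, Matrix.map_apply, sig_sig hq]
    congr 1
    by_cases h : i = j
    · subst h
      simp
    · simp [Matrix.one_apply_ne h]
  rw [gram_eq hq, h5, cst_add, cst_one, add_mul, hyP, one_mul]
  have h6 : (s + s * y) * (1 + y) = s * ((1 + y) * (1 + y)) := by noncomm_ring
  rw [h6, hyy, mul_add, mul_one, hsw]

end hensel

end SpW
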