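import Pool.Agent.Work.MP_3615d2_al.GKPair
import Pool.Agent.Work.MP_3615d2_al.Mo.Hens
import Pool.Agent.Work.MP_3615d2_al.HermClass

/-!
MP_3615d2_al, multiplicity one (note 6725): definitions.

`H = diag(t)` with `σ(t_i) = - t_i`, `U(H) = {u | uᵀ H σ(u) = H}`, `θ(g) = H⁻¹ gᵀ H` (an
anti-automorphism of `GL_m(E)`, `θ(u) = σ(u)⁻¹` on `U(H)`). `gram σ H x = xᵀ H σ(x)` (Hens).
All integrals are over `GL_m(E)` with a Haar measure `μ`; `Gfin ϖ` is a fundamental domain of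
`ϖ^ℤ` in `GL_m(E)`.
-/

open MeasureTheory Filter Topology Matrix

set_option linter.unusedSectionVars false

namespace SpW.Mo

section alg

variable {F E : Type} [Field F] [Field E] [Algebra F E] {m : ℕ}

/-- The diagonal Gram matrix. -/
def Dg (t : Fin m → Eˣ) : Matrix (Fin m) (Fin m) E := Matrix.diagonal fun i => (t i : E)

theorem dgl_Dg (t : Fin m → Eˣ) : ((dgl t : GL (Fin m) E) : Matrix (Fin m) (Fin m) E) = Dg t := rfl

/-- All entries of `t` are skew. -/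
def SkT (σ : E ≃ₐ[F] E) (t : Fin m → Eˣ) : Prop := ∀ i, σ (t i : E) = -(t i : E)

theorem SkT.isSkew {σ : E ≃ₐ[F] E} {t : Fin m → Eˣ} (ht : SkT σ t) : IsSkew σ (Dg t) where
  skew i j := by
    unfold Dg
    by_cases h : i = j
    · subst h
      rw [Matrix.diagonal_apply_eq, ht i, neg_neg]
    · rw [Matrix.diagonal_apply_ne _ h, Matrix.diagonal_apply_ne _ (Ne.symm h), map_zero, neg_zero]
  det_ne := by
    rw [← dgl_Dg]
    exact ((Matrix.isUnit_iff_isUnit_det _).1 (Units.isUnit (dgl t))).ne_zero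

end alg

section top

variable {F E : Type} [NontriviallyNormedField F] [NontriviallyNormedField E] [NormedAlgebra F E]
  {m : ℕ}

/-- `θ(g) = H⁻¹ gᵀ H`, `H = diag(t)`. -/
def th (t : Fin m → Eˣ) (g : GL (Fin m) E) : GL (Fin m) E := (dgl t)⁻¹ * trGL g * dgl t

theorem th_mul (t : Fin m → Eˣ) (g h : GL (Fin m) E) : th t (g * h) = th t h * th t g := by
  unfold th
  rw [trGL_mul]
  group

theorem th_one (t : Fin m → Eˣ) : th t (1 : GL (Fin m) E) = 1 := by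
  unfold th
  rw [trGL_one]
  group

theorem th_inv (t : Fin m → Eˣ) (g : GL (Fin m) E) : th t g⁻¹ = (th t g)⁻¹ := by
  unfold th
  rw [trGL_inv]
  group

theorem trGL_dgl (t : Fin m → Eˣ) : trGL (dgl t : GL (Fin m) E) = dgl t := by
  apply Units.ext
  show ((dgl t : GL (Fin m) E) : Matrix (Fin m) (Fin m) E).transpose = _
  rw [dgl_val, Matrix.diagonal_transpose]

theorem th_th (t : Fin m → Eˣ) (g : GL (Fin m) E) : th t (th t g) = g := by
  unfold th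
  rw [trGL_mul, trGL_mul, trGL_trGL, trGL_inv, trGL_dgl]
  group

theorem continuous_th (t : Fin m → Eˣ) : Continuous (th t : GL (Fin m) E → GL (Fin m) E) := by
  unfold th
  exact (continuous_const.mul continuous_trGL).mul continuous_const

/-- `uᵀ H σ(u) = H` for `u` in `U(H)`. -/
theorem unitary_gram {σ : E ≃ₐ[F] E} {H : Matrix (Fin m) (Fin m) E} {g : GL (Fin m) E} :
    g ∈ unitary σ H ↔ (g : Matrix (Fin m) (Fin m) E).transpose * H *
      (g : Matrix (Fin m) (Fin m) E).map σ = H := by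
  constructor
  · intro hg
    apply HermC.ext_sk (σ := σ)
    intro x y
    rw [← HermC.sk_gram]
    exact hg x y
  · intro hg x y
    rw [HermC.sk_gram, hg]

theorem th_mem {σ : E ≃ₐ[F] E} (hσσ : ∀ x, σ (σ x) = x) {t : Fin m → Eˣ} (ht : SkT σ t)
    {u : GL (Fin m) E} (hu : u ∈ unitary σ (Dg t)) : th t u ∈ unitary σ (Dg t) := by
  rw [unitary_gram] at hu ⊢
  -- `σ(θ(u)) = u⁻¹`
  have h1 : ((th t u : GL (Fin m) E) : Matrix (Fin m) (Fin m) E) =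
      (((dgl t)⁻¹ : GL (Fin m) E) : Matrix (Fin m) (Fin m) E) *
        (u : Matrix (Fin m) (Fin m) E).transpose * Dg t := rfl
  have hD : (((dgl t)⁻¹ : GL (Fin m) E) : Matrix (Fin m) (Fin m) E) * Dg t = 1 := by
    rw [← dgl_Dg, Units.inv_mul]
  have hD' : Dg t * (((dgl t)⁻¹ : GL (Fin m) E) : Matrix (Fin m) (Fin m) E) = 1 := by
    rw [← dgl_Dg, Units.mul_inv]
  have h2 : ((th t u : GL (Fin m) E) : Matrix (Fin m) (Fin m) E) *
      (u : Matrix (Fin m) (Fin m) E).map σ = 1 := by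
    rw [h1, Matrix.mul_assoc, Matrix.mul_assoc, ← Matrix.mul_assoc _ (Dg t), hu, hD]
  have h3 : (u : Matrix (Fin m) (Fin m) E).map σ *
      ((th t u : GL (Fin m) E) : Matrix (Fin m) (Fin m) E) = 1 := mul_eq_one_comm.1 h2
  have h4 : (u : Matrix (Fin m) (Fin m) E) *
      ((th t u : GL (Fin m) E) : Matrix (Fin m) (Fin m) E).map σ = 1 := by
    have h5 := congrArg (fun M : Matrix (Fin m) (Fin m) E => M.map σ) h3
    simp only [Matrix.map_mul] at h5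
    rw [Matrix.map_map, Matrix.map_one σ (map_zero σ) (map_one σ)] at h5
    have h6 : (u : Matrix (Fin m) (Fin m) E).map (σ ∘ σ) = (u : Matrix (Fin m) (Fin m) E) := by
      ext i j
      simp [hσσ]
    rwa [h6] at h5
  have hDt : (Dg t).transpose = Dg t := Matrix.diagonal_transpose _
  have h7 : ((th t u : GL (Fin m) E) : Matrix (Fin m) (Fin m) E).transpose * Dg t =
      Dg t * (u : Matrix (Fin m) (Fin m) E) := by
    have hDi : (((dgl t)⁻¹ : GL (Fin m) E) : Matrix (Fin m) (Fin m) E).transpose =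
        (((dgl t)⁻¹ : GL (Fin m) E) : Matrix (Fin m) (Fin m) E) := by
      rw [dgl_inv_val, Matrix.diagonal_transpose]
    rw [h1, Matrix.transpose_mul, Matrix.transpose_mul, Matrix.transpose_transpose, hDt, hDi,
      Matrix.mul_assoc, Matrix.mul_assoc, hD, Matrix.mul_one]
  rw [h7, Matrix.mul_assoc, h4, Matrix.mul_one]

/-- `θ` on `U(H)`. -/
def thU {σ : E ≃ₐ[F] E} (hσσ : ∀ x, σ (σ x) = x) {t : Fin m → Eˣ} (ht : SkT σ t)
    (u : unitary σ (Dg t)) : unitary σ (Dg t) := ⟨th t u.1, th_mem hσσ ht u.2⟩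

end top

section defs

variable {F E : Type} [NontriviallyNormedField F] [NontriviallyNormedField E] [NormedAlgebra F E]
  [ProperSpace E] [MeasurableSpace E] [BorelSpace E]
  {m : ℕ} {S S₁ S₂ : Type} [AddCommGroup S] [Module ℂ S] [AddCommGroup S₁] [Module ℂ S₁]
  [AddCommGroup S₂] [Module ℂ S₂]

/-- Fundamental domain of `ϖ^ℤ` in `GL_m(E)` (for `absE ϖ < 1`). -/
def Gfin (m : ℕ) (ϖ : Eˣ) : Set (GL (Fin m) E) :=
  {g | ad (Matrix.GeneralLinearGroup.scalar (Fin m) ϖ) < ad g ∧ ad g ≤ 1}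

/-- The invariant forms on the Weil representation of `U(diag t)`: `β` is bilinear and
nondegenerate, `β(ρ(w)a, b) = β(a, ρ(σ(w))b)`, `β(ω(u)a, b) = β(a, ω(θ(u))b)`. -/
structure IsBeta (σ : E ≃ₐ[F] E) (t : Fin m → Eˣ) (ρ : (Fin m → E) → Module.End ℂ S)
    (ω : unitary σ (Dg t) →* Module.End ℂ S) (β : S →ₗ[ℂ] S →ₗ[ℂ] ℂ) : Prop where
  nondeg : ∀ a, (∀ b, β a b = 0) → a = 0
  symm : ∀ a b, β a b = β b a
  rho : ∀ w a b, β (ρ w a) b = β a (ρ (fun i => σ (w i)) b)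
  om : ∀ (u u' : unitary σ (Dg t)), u'.1 = th t u.1 → ∀ a b, β (ω u a) b = β a (ω u' b)

/-- `p(g) = λ(π(g) w)`, `λ` a tame equivariant functional with values in `S`: left equivariant
under `U(H)`, right smooth, with unitary central character `χ`, and supported in `U Ω Z`, `Ω`
compact. -/
structure IsP (σ : E ≃ₐ[F] E) (t : Fin m → Eˣ) (ω : unitary σ (Dg t) →* Module.End ℂ S)
    (χ : Eˣ → ℂ) (p : GL (Fin m) E → S) : Prop where
  left : ∀ (u : unitary σ (Dg t)) g, p (u.1 * g) = ω u (p g)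
  right : ∀ᶠ k in 𝓝 (1 : GL (Fin m) E), ∀ g, p (g * k) = p g
  unit : ∀ z, ‖χ z‖ = 1
  cent : ∀ z g, p (Matrix.GeneralLinearGroup.scalar (Fin m) z * g) = χ z • p g
  tame : ∃ Ω : Set (GL (Fin m) E), IsCompact Ω ∧ ∀ g, p g ≠ 0 →
    ∃ u : unitary σ (Dg t), ∃ o ∈ Ω, ∃ z : Eˣ,
      g = u.1 * o * Matrix.GeneralLinearGroup.scalar (Fin m) z

/-- The linear map `lam : V → S` is tame: `lam(π(g)w) ≠ 0` only on `U Ω Z`, `Ω` compact. -/
def IsTame {V : Type} [AddCommGroup V] [Module ℂ V] (σ : E ≃ₐ[F] E) (t : Fin m → Eˣ)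
    (π : GL (Fin m) E →* Module.End ℂ V) (lam : V →ₗ[ℂ] S) : Prop :=
  ∀ w, ∃ Ω : Set (GL (Fin m) E), IsCompact Ω ∧ ∀ g, lam (π g w) ≠ 0 →
    ∃ u : unitary σ (Dg t), ∃ o ∈ Ω, ∃ z : Eˣ,
      g = u.1 * o * Matrix.GeneralLinearGroup.scalar (Fin m) z

variable [MeasurableSpace (GL (Fin m) E)]

/-- The kernel `D(g)(c',b) = ∫_{Gfin} β₁(p(h⁻¹), b) β₂(r(θ₂(hg)), c') dh`. -/
noncomputable def Dker (μ : Measure (GL (Fin m) E)) (ϖ : Eˣ) (t₂ : Fin m → Eˣ)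
    (β₁ : S₁ →ₗ[ℂ] S₁ →ₗ[ℂ] ℂ) (β₂ : S₂ →ₗ[ℂ] S₂ →ₗ[ℂ] ℂ) (p : GL (Fin m) E → S₁)
    (r : GL (Fin m) E → S₂) (g : GL (Fin m) E) (c' : S₂) (b : S₁) : ℂ :=
  ∫ h in Gfin m ϖ, β₁ (p h⁻¹) b * β₂ (r (th t₂ (h * g))) c' ∂μ

/-- The region of integration of the dominating function. -/
def MRset (σ : E ≃ₐ[F] E) (t₁ t₂ : Fin m → Eˣ) (R : ℝ) (g : GL (Fin m) E) :
    Set (GL (Fin m) E) :=
  {h | R⁻¹ ≤ ad h ∧ ad h ≤ R ∧
    (∀ i j, ‖gram σ (Dg t₁) ((h⁻¹ : GL (Fin m) E) : Matrix (Fin m) (Fin m) E) i j‖ ≤ R) ∧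
    ∀ i j, ‖gram σ (Dg fun i => (t₂ i)⁻¹)
      ((h * g : GL (Fin m) E) : Matrix (Fin m) (Fin m) E).transpose i j‖ ≤ R}

/-- `ν(k)`: the volume of `O^m ∩ k O^m`. -/
noncomputable def nuV (k : GL (Fin m) E) :
    ENNReal :=
  (Measure.addHaar : Measure (Fin m → E)) (Metric.closedBall 0 1 ∩
    (fun x => (k : Matrix (Fin m) (Fin m) E).mulVec x) '' Metric.closedBall 0 1)

omit [MeasurableSpace (GL (Fin m) E)] in
/-- The bound of the matrix coefficients of the Weil representation. -/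
def BetaBd (σ : E ≃ₐ[F] E) (t : Fin m → Eˣ) (ω : unitary σ (Dg t) →* Module.End ℂ S)
    (β : S →ₗ[ℂ] S →ₗ[ℂ] ℂ) : Prop :=
  ∀ a b, ∃ C : ENNReal, C ≠ ⊤ ∧ ∀ u : unitary σ (Dg t),
    ENNReal.ofReal ‖β (ω u a) b‖ ≤ C * nuV u.1 ^ (1 / 2 : ℝ)

/-- The dominating function `M_R(g)`. -/
noncomputable def MR
    (μ : Measure (GL (Fin m) E)) (σ : E ≃ₐ[F] E) (t₁ t₂ : Fin m → Eˣ) (R : ℝ)
    (g : GL (Fin m) E) : ENNReal :=
  ∫⁻ h in MRset σ t₁ t₂ R g, nuV (h * g) ^ (1 / 2 : ℝ) ∂μ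

/-- The good set: `M_R(g) < ∞` for all `R`. -/
def GoodG
    (μ : Measure (GL (Fin m) E)) (σ : E ≃ₐ[F] E) (t₁ t₂ : Fin m → Eˣ) :
    Set (GL (Fin m) E) := {g | ∀ R : ℝ, MR μ σ t₁ t₂ R g < ⊤}

end defs

end SpW.Mo
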