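import Pool.Agent.Work.MP_3615d2_al.Mo.DensA
import Pool.Agent.Work.MP_3615d2_al.Mo.Hens
import Pool.Agent.Work.MP_3615d2_al.Unimod
import Pool.Agent.Work.MP_3615d2_al.ModDet

/-!
MP_3615d2_al, multiplicity one, counting block 3: the image of Haar measure of `GL_n(E) × GL_n(E)`
under `(x, y) ↦ x^t H σ(x) + δ y^t H' σ(y)` has bounded density on compact sets.
-/

open MeasureTheory Measure Filter Topology
open scoped ENNReal

set_option linter.unusedSectionVars false

namespace SpW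

section inst

variable {E : Type} [NontriviallyNormedField E] [ProperSpace E] {n : Type} [Fintype n]
  [DecidableEq n]

instance sc_mat : SecondCountableTopology (Matrix n n E) :=
  (inferInstance : SecondCountableTopology (n → n → E))

instance sc_gl : SecondCountableTopology (GL n E) := by
  have h : SecondCountableTopology ((Matrix n n E) × (Matrix n n E)ᵐᵒᵖ) := by
    have h1 : SecondCountableTopology (Matrix n n E)ᵐᵒᵖ :=
      MulOpposite.opHomeomorph.symm.isEmbedding.secondCountableTopology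
    infer_instance
  exact Units.isEmbedding_embedProduct.secondCountableTopology

end inst

section boxes

variable {E : Type} [NontriviallyNormedField E] [IsUltrametricDist E] {n : Type} [Fintype n]
  [DecidableEq n]

/-- The box `‖M i j‖ ≤ c i j`. -/
def bx (c : n → n → ℝ) (hc : ∀ i j, 0 ≤ c i j) : AddSubgroup (n → n → E) where
  carrier := {M | ∀ i j, ‖M i j‖ ≤ c i j}
  zero_mem' := fun i j => by simpa using hc i j
  add_mem' := fun {a b} ha hb i j => by
    rw [Pi.add_apply, Pi.add_apply]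
    exact (IsUltrametricDist.norm_add_le_max _ _).trans (max_le (ha i j) (hb i j))
  neg_mem' := fun {a} ha i j => by
    rw [Pi.neg_apply, Pi.neg_apply, norm_neg]
    exact ha i j

variable (E) in
/-- The box as a set. -/
def bxS (c : n → n → ℝ) : Set (n → n → E) := {M | ∀ i j, ‖M i j‖ ≤ c i j}

theorem mem_bx {c : n → n → ℝ} {hc : ∀ i j, 0 ≤ c i j} {M : n → n → E} :
    M ∈ bx c hc ↔ ∀ i j, ‖M i j‖ ≤ c i j := Iff.rfl

/-- The stabiliser of the matrix `s` under `k ↦ k^t s σ(k)`. -/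
def gramSt {F : Type} [Field F] [Algebra F E] (σ : E ≃ₐ[F] E) (s : Matrix n n E) :
    Subgroup (GL n E) where
  carrier := {u | gram σ s (u : Matrix n n E) = s}
  one_mem' := by
    show gram σ s ((1 : GL n E) : Matrix n n E) = s
    have h1 : ((1 : GL n E) : Matrix n n E).map σ = 1 := by
      rw [Units.val_one]
      exact Matrix.map_one σ (map_zero σ) (map_one σ)
    rw [gram, h1, Units.val_one, Matrix.transpose_one, one_mul, mul_one]
  mul_mem' := by
    intro a b ha hb
    show gram σ s ((a * b : GL n E) : Matrix n n E) = s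
    have ha' : gram σ s (a : Matrix n n E) = s := ha
    have hb' : gram σ s (b : Matrix n n E) = s := hb
    have h2 : ∀ x y : Matrix n n E, gram σ s (x * y) = gram σ (gram σ s x) y := by
      intro x y
      have h1 : (x * y).map σ = x.map σ * y.map σ :=
        Matrix.map_mul (f := (σ : E →+* E)) (L := x) (M := y)
      rw [gram, gram, gram, h1, Matrix.transpose_mul]
      simp only [Matrix.mul_assoc]
    rw [Units.val_mul, h2, ha', hb']
  inv_mem' := by
    intro a ha
    show gram σ s ((a⁻¹ : GL n E) : Matrix n n E) = s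
    have ha' : gram σ s (a : Matrix n n E) = s := ha
    have h2 : ∀ x y : Matrix n n E, gram σ s (x * y) = gram σ (gram σ s x) y := by
      intro x y
      have h1 : (x * y).map σ = x.map σ * y.map σ :=
        Matrix.map_mul (f := (σ : E →+* E)) (L := x) (M := y)
      rw [gram, gram, gram, h1, Matrix.transpose_mul]
      simp only [Matrix.mul_assoc]
    nth_rewrite 1 [← ha']
    rw [← h2, Units.mul_inv]
    have h1 : (1 : Matrix n n E).map σ = 1 := Matrix.map_one σ (map_zero σ) (map_one σ)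
    rw [gram, h1, Matrix.transpose_one, one_mul, mul_one]

end boxes

section loc

variable {F E : Type} [NontriviallyNormedField F] [IsUltrametricDist F] [ProperSpace F]
  [NontriviallyNormedField E] [NormedAlgebra F E] [IsUltrametricDist E] [ProperSpace E]
  {σ : E ≃ₐ[F] E} {δ : E} {d : F} {n : Type} [Fintype n] [DecidableEq n]

theorem continuous_sigD (hq : QuadDatum σ δ d) : Continuous (σ : E → E) := by
  have hfin := hq.finite
  exact σ.toLinearMap.continuous_of_finiteDimensional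

theorem continuous_gram (hq : QuadDatum σ δ d) (s : Matrix n n E) :
    Continuous fun x : Matrix n n E => gram σ s x := by
  have h1 : Continuous fun x : Matrix n n E => x.map σ :=
    continuous_matrix fun i j => (continuous_sigD hq).comp (continuous_id.matrix_elem i j)
  exact (continuous_id.matrix_transpose.matrix_mul continuous_const).matrix_mul h1

theorem cst_gram (hq : QuadDatum σ δ d) {s : Matrix n n E} (hs : cst σ s = -s)
    (x : Matrix n n E) : cst σ (gram σ s x) = -gram σ s x := by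
  rw [gram_eq hq, cst_mul, cst_mul, cst_cst hq, hs]
  simp only [neg_mul, mul_neg, mul_assoc]

/-- entries of `k^t s σ(k)`, `k` integral -/
theorem gram_entry_le (hq : QuadDatum σ δ d) {s : Matrix n n E} {M : ℝ} (hM : 0 ≤ M)
    (hs : ∀ i j, ‖s i j‖ ≤ M) {x : Matrix n n E} (hx : ∀ i j, ‖x i j‖ ≤ 1) (i j : n) :
    ‖gram σ s x i j‖ ≤ M := by
  have h1 : ∀ i j, ‖(x.transpose * s) i j‖ ≤ 1 * M :=
    fun i j => mul_entry_le _ _ zero_le_one hM (fun i j => hx j i) hs i j
  have h2 := mul_entry_le (x.transpose * s) (x.map σ) (a := 1 * M) (b := 1) (by linarith)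
    zero_le_one h1 (fun i j => by
      rw [Matrix.map_apply, sg_norm hq]
      exact hx i j) i j
  rw [one_mul, mul_one] at h2
  exact h2

/-- `k^t s σ(k) - s` for `k` near `1`. -/
theorem gram_sub_entry_le (hq : QuadDatum σ δ d) {s : Matrix n n E} {M ρ : ℝ} (hM : 0 ≤ M)
    (h0 : 0 ≤ ρ) (h1 : ρ ≤ 1) (hs : ∀ i j, ‖s i j‖ ≤ M) {y : GL n E} (hy : y ∈ glK n E ρ h0 h1)
    (i j : n) : ‖(gram σ s (y : Matrix n n E) - s) i j‖ ≤ M * ρ := by
  have h2 : gram σ s (y : Matrix n n E) - s =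
      ((y : Matrix n n E) - 1).transpose * (s * (y : Matrix n n E).map σ) +
        s * ((y : Matrix n n E).map σ - 1) := by
    rw [gram, Matrix.transpose_sub, Matrix.transpose_one]
    noncomm_ring
  have h3 : ∀ i j, ‖((y : Matrix n n E).map σ - 1) i j‖ ≤ ρ := by
    intro i j
    have h4 : ((y : Matrix n n E).map σ - 1) i j = σ (((y : Matrix n n E) - 1) i j) := by
      rw [Matrix.sub_apply, Matrix.sub_apply, map_sub, Matrix.map_apply]
      congr 1
      by_cases h : i = j
      · subst h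
        simp
      · simp [Matrix.one_apply_ne h]
    rw [h4, sg_norm hq]
    exact hy.1 i j
  have h5 : ∀ i j, ‖(s * (y : Matrix n n E).map σ) i j‖ ≤ M := by
    intro i j
    have := mul_entry_le s ((y : Matrix n n E).map σ) hM zero_le_one hs (fun i j => by
      rw [Matrix.map_apply, sg_norm hq]
      exact glK_entry hy i j) i j
    rwa [mul_one] at this
  rw [h2, Matrix.add_apply]
  refine (IsUltrametricDist.norm_add_le_max _ _).trans (max_le ?_ ?_)
  · have := mul_entry_le _ _ h0 hM (fun i j => hy.1 j i) h5 i j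
    rwa [mul_comm] at this
  · exact mul_entry_le _ _ hM h0 hs h3 i j

/-- The two components of `z + δ z'`. -/
theorem split_entry (hq : QuadDatum σ δ d) {z z' : Matrix n n E} (hz : cst σ z = -z)
    (hz' : cst σ z' = -z') {ε : ℝ} (h : ∀ i j, ‖(z + δ • z') i j‖ ≤ ε) (i j : n) :
    ‖z i j‖ ≤ ε / ‖(2 : E)‖ ∧ ‖z' i j‖ ≤ ε / (‖(2 : E)‖ * ‖δ‖) := by
  have h2 : 0 < ‖(2 : E)‖ := norm_pos_iff.2 hq.two_E
  have hδ : 0 < ‖δ‖ := norm_pos_iff.2 hq.ne
  have h3 : ∀ i j, z i j = -σ (z j i) := by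
    intro i j
    have := congrFun (congrFun hz i) j
    simp only [cst, Matrix.neg_apply] at this
    rw [this, neg_neg]
  have h4 : ∀ i j, z' i j = -σ (z' j i) := by
    intro i j
    have := congrFun (congrFun hz' i) j
    simp only [cst, Matrix.neg_apply] at this
    rw [this, neg_neg]
  have h5 : ∀ i j, (z + δ • z') i j = z i j + δ * z' i j := fun i j => rfl
  have h6 : σ ((z + δ • z') j i) = -z i j + δ * z' i j := by
    rw [h5, map_add, map_mul, hq.sig, h3 i j, h4 i j]
    ring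
  have h7 : ‖σ ((z + δ • z') j i)‖ ≤ ε := by
    rw [sg_norm hq]
    exact h j i
  constructor
  · rw [le_div_iff₀ h2, ← norm_mul]
    have h8 : z i j * 2 = (z + δ • z') i j - σ ((z + δ • z') j i) := by
      rw [h6, h5]
      ring
    rw [h8, sub_eq_add_neg]
    refine (IsUltrametricDist.norm_add_le_max _ _).trans (max_le (h i j) ?_)
    rwa [norm_neg]
  · rw [le_div_iff₀ (mul_pos h2 hδ), ← norm_mul, ← norm_mul]
    have h8 : z' i j * (2 * δ) = (z + δ • z') i j + σ ((z + δ • z') j i) := by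
      rw [h6, h5]
      ring
    rw [h8]
    exact (IsUltrametricDist.norm_add_le_max _ _).trans (max_le (h i j) h7)

theorem glK_conj {ρ : ℝ} (h0 : 0 ≤ ρ) (h1 : ρ ≤ 1) {k y : GL n E}
    (hk : k ∈ glK n E 1 zero_le_one le_rfl) (hy : y ∈ glK n E ρ h0 h1) :
    k * y * k⁻¹ ∈ glK n E ρ h0 h1 := by
  have key : ∀ y : GL n E, (∀ i j, ‖((y : Matrix n n E) - 1) i j‖ ≤ ρ) →
      ∀ i j, ‖(((k * y * k⁻¹ : GL n E) : Matrix n n E) - 1) i j‖ ≤ ρ := by
    intro y hy i j
    have h2 : ((k * y * k⁻¹ : GL n E) : Matrix n n E) - 1 =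
        (k : Matrix n n E) * (((y : Matrix n n E) - 1) * ((k⁻¹ : GL n E) : Matrix n n E)) := by
      have h3 : (k : Matrix n n E) * ((k⁻¹ : GL n E) : Matrix n n E) = 1 := by
        rw [← Units.val_mul, mul_inv_cancel, Units.val_one]
      rw [sub_mul, one_mul, mul_sub, h3, Units.val_mul, Units.val_mul, mul_assoc]
    have h4 := mul_entry_le ((y : Matrix n n E) - 1) ((k⁻¹ : GL n E) : Matrix n n E) h0 zero_le_one
      hy (glK_entry_inv hk)
    have h5 := mul_entry_le (k : Matrix n n E) _ zero_le_one (mul_nonneg h0 zero_le_one)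
      (glK_entry hk) h4 i j
    rw [h2]
    rwa [one_mul, mul_one] at h5
  refine ⟨key y hy.1, ?_⟩
  have h3 : (k * y * k⁻¹)⁻¹ = k * y⁻¹ * k⁻¹ := by group
  rw [h3]
  exact key y⁻¹ hy.2

theorem glK_le {ρ : ℝ} (h0 : 0 ≤ ρ) (h1 : ρ ≤ 1) : glK n E ρ h0 h1 ≤ glK n E 1 zero_le_one le_rfl :=
  fun _ hy => ⟨fun i j => (hy.1 i j).trans h1, fun i j => (hy.2 i j).trans h1⟩

theorem exists_entry_bound (s : Matrix n n E) : ∃ M : ℝ, 1 ≤ M ∧ ∀ i j, ‖s i j‖ ≤ M := by
  refine ⟨1 + ∑ i, ∑ j, ‖s i j‖, ?_, fun i j => ?_⟩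
  · have : 0 ≤ ∑ i, ∑ j, ‖s i j‖ :=
      Finset.sum_nonneg fun i _ => Finset.sum_nonneg fun j _ => norm_nonneg _
    linarith
  · have h1 : ‖s i j‖ ≤ ∑ j, ‖s i j‖ :=
      Finset.single_le_sum (f := fun j => ‖s i j‖) (fun j _ => norm_nonneg _) (Finset.mem_univ j)
    have h2 : ∑ j, ‖s i j‖ ≤ ∑ i, ∑ j, ‖s i j‖ :=
      Finset.single_le_sum (f := fun i => ∑ j, ‖s i j‖)
        (fun i _ => Finset.sum_nonneg fun j _ => norm_nonneg _) (Finset.mem_univ i)
    linarith

theorem gram_one (s : Matrix n n E) : gram σ s 1 = s := by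
  have h1 : (1 : Matrix n n E).map σ = 1 := Matrix.map_one σ (map_zero σ) (map_one σ)
  rw [gram, h1, Matrix.transpose_one, one_mul, mul_one]

theorem hensel_K (hq : QuadDatum σ δ d) {M ρ : ℝ} (hM : 0 < M) (h0 : 0 ≤ ρ) (h1 : ρ ≤ 1)
    (h2 : ρ ≤ 1 / 2) (h3 : ρ ≤ ‖(2 : E)‖ / 2) (s t z : Matrix n n E)
    (hs : cst σ s = -s) (hst : s * t = 1) (ht : ∀ i j, ‖t i j‖ ≤ M) (hz : cst σ z = -z)
    (hzn : ∀ i j, ‖z i j‖ ≤ ‖(2 : E)‖ / M * ρ) {k : GL n E}
    (hk : k ∈ glK n E 1 zero_le_one le_rfl) :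
    ∃ y ∈ glK n E ρ h0 h1, gram σ s ((k * y : GL n E) : Matrix n n E) =
      gram σ s (k : Matrix n n E) + z := by
  have hkk : (k : Matrix n n E) * ((k⁻¹ : GL n E) : Matrix n n E) = 1 := by
    rw [← Units.val_mul, mul_inv_cancel, Units.val_one]
  have hkk' : ((k⁻¹ : GL n E) : Matrix n n E) * (k : Matrix n n E) = 1 := by
    rw [← Units.val_mul, inv_mul_cancel, Units.val_one]
  set t' : Matrix n n E := ((k⁻¹ : GL n E) : Matrix n n E).map σ *
    (t * ((k⁻¹ : GL n E) : Matrix n n E).transpose) with ht'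
  have h4 : gram σ s (k : Matrix n n E) * t' = 1 := by
    have h5 : (k : Matrix n n E).map σ * ((k⁻¹ : GL n E) : Matrix n n E).map σ = 1 := by
      have := Matrix.map_mul (f := (σ : E →+* E)) (L := (k : Matrix n n E))
        (M := ((k⁻¹ : GL n E) : Matrix n n E))
      rw [hkk] at this
      exact this.symm.trans (Matrix.map_one σ (map_zero σ) (map_one σ))
    have h6 : (k : Matrix n n E).transpose * ((k⁻¹ : GL n E) : Matrix n n E).transpose = 1 := by
      rw [← Matrix.transpose_mul, hkk', Matrix.transpose_one]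
    rw [gram, ht']
    calc (k : Matrix n n E).transpose * s * (k : Matrix n n E).map σ *
          (((k⁻¹ : GL n E) : Matrix n n E).map σ * (t * ((k⁻¹ : GL n E) : Matrix n n E).transpose))
        = (k : Matrix n n E).transpose * s * ((k : Matrix n n E).map σ *
          ((k⁻¹ : GL n E) : Matrix n n E).map σ) * (t * ((k⁻¹ : GL n E) : Matrix n n E).transpose) := by
          simp only [mul_assoc]
      _ = (k : Matrix n n E).transpose * (s * t) * ((k⁻¹ : GL n E) : Matrix n n E).transpose := by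
          rw [h5, mul_one]
          simp only [mul_assoc]
      _ = 1 := by rw [hst, mul_one, h6]
  have h7 : ∀ i j, ‖t' i j‖ ≤ M := by
    intro i j
    have h8 := mul_entry_le t ((k⁻¹ : GL n E) : Matrix n n E).transpose hM.le zero_le_one ht
      (fun i j => glK_entry_inv hk j i)
    have h9 := mul_entry_le (((k⁻¹ : GL n E) : Matrix n n E).map σ) _ zero_le_one
      (mul_nonneg hM.le zero_le_one) (fun i j => by
        rw [Matrix.map_apply, sg_norm hq]
        exact glK_entry_inv hk i j) h8 i j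
    rw [one_mul, mul_one] at h9
    exact h9
  obtain ⟨y, hy, hyz⟩ := hensel hq hM h0 h1 h2 h3 (gram σ s (k : Matrix n n E)) t' z
    (cst_gram hq hs _) h4 h7 hz hzn
  refine ⟨y, hy, ?_⟩
  rw [Units.val_mul, gram_mul, hyz]

theorem fibre_K (hq : QuadDatum σ δ d) {M ρ : ℝ} (hM : 0 < M) (h0 : 0 ≤ ρ) (h1 : ρ ≤ 1)
    (h2 : ρ ≤ 1 / 2) (h3 : ρ ≤ ‖(2 : E)‖ / 2) (s t : Matrix n n E)
    (hs : cst σ s = -s) (hst : s * t = 1) (ht : ∀ i j, ‖t i j‖ ≤ M) {k k' : GL n E}
    (hk : k ∈ glK n E 1 zero_le_one le_rfl) (hk' : k' ∈ glK n E 1 zero_le_one le_rfl)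
    (hzn : ∀ i j, ‖(gram σ s (k' : Matrix n n E) - gram σ s (k : Matrix n n E)) i j‖ ≤
      ‖(2 : E)‖ / M * ρ) :
    ∃ u ∈ gramSt σ s ⊓ glK n E 1 zero_le_one le_rfl, ∃ y ∈ glK n E ρ h0 h1, k' = u * k * y := by
  have hz : cst σ (gram σ s (k' : Matrix n n E) - gram σ s (k : Matrix n n E)) =
      -(gram σ s (k' : Matrix n n E) - gram σ s (k : Matrix n n E)) := by
    rw [cst_sub, cst_gram hq hs, cst_gram hq hs]
    abel
  obtain ⟨y, hy, hyz⟩ := hensel_K hq hM h0 h1 h2 h3 s t
    (gram σ s (k' : Matrix n n E) - gram σ s (k : Matrix n n E)) hs hst ht hz hzn hk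
  rw [add_sub_cancel] at hyz
  have hy1 := glK_le h0 h1 hy
  refine ⟨k' * (k * y)⁻¹, ⟨?_, ?_⟩, y, hy, ?_⟩
  · show gram σ s ((k' * (k * y)⁻¹ : GL n E) : Matrix n n E) = s
    rw [Units.val_mul, gram_mul, ← hyz, ← gram_mul, ← Units.val_mul, mul_inv_cancel, Units.val_one,
      gram_one]
  · exact Subgroup.mul_mem _ hk' (Subgroup.inv_mem _ (Subgroup.mul_mem _ hk hy1))
  · group

theorem det_smul_ne (c : E) (hc : c ≠ 0) :
    ∃ T : (n → n → E) ≃ₗ[E] (n → n → E), ∀ v, T v = c • v :=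
  ⟨LinearEquiv.smulOfNeZero E _ c hc, fun _ => rfl⟩

variable [MeasurableSpace E] [BorelSpace E] [MeasurableSpace (GL n E)] [BorelSpace (GL n E)]

/-- boxes of proportional sizes have comparable volumes -/
theorem bx_scale (ν : Measure (n → n → E)) [ν.IsAddHaarMeasure] (κ : ℝ) :
    ∃ C : ℝ≥0∞, C ≠ ∞ ∧ ∀ r : ℝ, 0 ≤ r →
      ν (bxS E fun _ _ => κ * r) ≤ C * ν (bxS E fun _ _ => r) := by
  obtain ⟨c, hc⟩ := NormedField.exists_lt_norm E (max κ 0)
  have hc0 : 0 < ‖c‖ := (le_max_right _ _).trans_lt hc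
  obtain ⟨T, hT⟩ := det_smul_ne (n := n) c (norm_pos_iff.1 hc0)
  refine ⟨md (LinearMap.det (T : (n → n → E) →ₗ[E] (n → n → E))), ENNReal.coe_ne_top,
    fun r hr => ?_⟩
  rw [← image_linearEquiv ν T]
  refine measure_mono fun M hM => ⟨c⁻¹ • M, fun i j => ?_, ?_⟩
  · show ‖c⁻¹ * M i j‖ ≤ r
    rw [norm_mul, norm_inv, inv_mul_le_iff₀ hc0]
    exact (hM i j).trans (mul_le_mul_of_nonneg_right ((le_max_left _ _).trans hc.le) hr)
  · rw [hT, smul_smul, mul_inv_cancel₀ (norm_pos_iff.1 hc0), one_smul]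

theorem isOpen_bxS {c : n → n → ℝ} (hc : ∀ i j, 0 < c i j) : IsOpen (bxS E c) := by
  have h1 : bxS E c =
      ⋂ i, ⋂ j, {M : n → n → E | M i j ∈ Metric.closedBall (0 : E) (c i j)} := by
    ext M
    simp only [Set.mem_iInter]
    constructor
    · intro h i j
      show M i j ∈ Metric.closedBall (0 : E) (c i j)
      rw [mem_closedBall_zero_iff]
      exact h i j
    · intro h i j
      have := h i j
      rwa [Set.mem_ofPred_eq, mem_closedBall_zero_iff] at this
  rw [h1]
  refine isOpen_iInter_of_finite fun i => isOpen_iInter_of_finite fun j => ?_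
  exact (IsUltrametricDist.isOpen_closedBall _ (hc i j).ne').preimage
    ((continuous_apply j).comp (continuous_apply i))

theorem isCompact_bxS (c : n → n → ℝ) : IsCompact (bxS E c) := by
  have h1 : bxS E c =
      Set.pi Set.univ fun i => Set.pi Set.univ fun j => Metric.closedBall (0 : E) (c i j) := by
    ext M
    constructor
    · intro h i _ j _
      rw [mem_closedBall_zero_iff]
      exact h i j
    · intro h i j
      have := h i trivial j trivial
      rwa [mem_closedBall_zero_iff] at this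
  rw [h1]
  exact isCompact_univ_pi fun i => isCompact_univ_pi fun j => isCompact_closedBall _ _

/-- The map `(x, y) ↦ x^t s σ(x) + δ y^t s' σ(y)`. -/
def gram2 (σ : E → E) (δ : E) (s s' : Matrix n n E) (p : GL n E × GL n E) : n → n → E :=
  gram σ s (p.1 : Matrix n n E) + δ • gram σ s' (p.2 : Matrix n n E)

theorem continuous_gram2 (hq : QuadDatum σ δ d) (s s' : Matrix n n E) :
    Continuous (gram2 σ δ s s' : GL n E × GL n E → n → n → E) := by
  have h1 : Continuous fun p : GL n E × GL n E => gram σ s (p.1 : Matrix n n E) :=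
    (continuous_gram hq s).comp (Units.continuous_val.comp continuous_fst)
  have h2 : Continuous fun p : GL n E × GL n E => gram σ s' (p.2 : Matrix n n E) :=
    (continuous_gram hq s').comp (Units.continuous_val.comp continuous_snd)
  exact h1.add (h2.const_smul δ)

theorem dens_local (hq : QuadDatum σ δ d) (μ : Measure (GL n E)) [μ.IsHaarMeasure]
    [μ.IsMulRightInvariant] (ν : Measure (n → n → E)) [ν.IsAddHaarMeasure]
    (s t s' t' : Matrix n n E) (hs : cst σ s = -s) (hst : s * t = 1) (hs' : cst σ s' = -s')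
    (hst' : s' * t' = 1) :
    ∃ C : ℝ≥0∞, C ≠ ∞ ∧ ∀ c : n → n → ℝ, (∀ i j, 0 < c i j) →
      (μ.prod μ) {p | p ∈ (glK n E 1 zero_le_one le_rfl).prod (glK n E 1 zero_le_one le_rfl) ∧
        gram2 σ δ s s' p ∈ bxS E c} ≤ C * ν (bxS E c) := by
  obtain ⟨M₁, hM₁, hsM⟩ := exists_entry_bound s
  obtain ⟨M₂, hM₂, htM⟩ := exists_entry_bound t
  obtain ⟨M₃, hM₃, hsM'⟩ := exists_entry_bound s'
  obtain ⟨M₄, hM₄, htM'⟩ := exists_entry_bound t'
  set M := max (max M₁ M₂) (max M₃ M₄) with hMdef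
  have e1 : M₁ ≤ M := (le_max_left _ _).trans (le_max_left _ _)
  have e2 : M₂ ≤ M := (le_max_right _ _).trans (le_max_left _ _)
  have e3 : M₃ ≤ M := (le_max_left _ _).trans (le_max_right _ _)
  have e4 : M₄ ≤ M := (le_max_right _ _).trans (le_max_right _ _)
  have hM : 0 < M := by linarith
  set a := ‖(2 : E)‖ with ha
  have ha0 : 0 < a := norm_pos_iff.2 hq.two_E
  have ha1 : a ≤ 1 := by
    have : (2 : E) = 1 + 1 := by norm_num
    rw [ha, this]
    exact (IsUltrametricDist.norm_add_le_max _ _).trans (by simp)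
  set D := ‖δ‖ with hD
  have hD0 : 0 < D := norm_pos_iff.2 hq.ne
  set c₀ := a ^ 2 / M * min 1 D with hc₀
  have hc₀0 : 0 < c₀ := by positivity
  set κ := M * max 1 D with hκ
  have hκ0 : 0 < κ := by positivity
  have hcv1 : c₀ / a ≤ a / M := by
    rw [hc₀, div_le_iff₀ ha0]
    calc a ^ 2 / M * min 1 D ≤ a ^ 2 / M * 1 :=
          mul_le_mul_of_nonneg_left (min_le_left _ _) (by positivity)
      _ = a / M * a := by ring
  have hcv2 : c₀ / (a * D) ≤ a / M := by
    rw [hc₀, div_le_iff₀ (mul_pos ha0 hD0)]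
    calc a ^ 2 / M * min 1 D ≤ a ^ 2 / M * D :=
          mul_le_mul_of_nonneg_left (min_le_right _ _) (by positivity)
      _ = a / M * (a * D) := by ring
  set ρ₁ := a / 2 with hρ₁
  have hρ₁0 : 0 < ρ₁ := by positivity
  set K := glK n E 1 zero_le_one le_rfl with hK
  -- splitting
  have hsplit : ∀ (ρ : ℝ) (z z' : Matrix n n E), 0 ≤ ρ → cst σ z = -z → cst σ z' = -z' →
      (∀ i j, ‖(z + δ • z') i j‖ ≤ c₀ * ρ) →
      (∀ i j, ‖z i j‖ ≤ a / M * ρ) ∧ ∀ i j, ‖z' i j‖ ≤ a / M * ρ := by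
    intro ρ z z' hρ hz hz' h
    refine ⟨fun i j => ?_, fun i j => ?_⟩
    · refine (split_entry hq hz hz' h i j).1.trans ?_
      calc c₀ * ρ / a = c₀ / a * ρ := by ring
        _ ≤ a / M * ρ := mul_le_mul_of_nonneg_right hcv1 hρ
    · refine (split_entry hq hz hz' h i j).2.trans ?_
      calc c₀ * ρ / (a * D) = c₀ / (a * D) * ρ := by ring
        _ ≤ a / M * ρ := mul_le_mul_of_nonneg_right hcv2 hρ
  obtain ⟨C₁, hC₁, hC₁'⟩ := bx_scale ν (κ / c₀)
  have hKm : MeasurableSet (K.prod K : Set (GL n E × GL n E)) := by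
    rw [Subgroup.coe_prod]
    exact (glK_isOpen one_pos le_rfl).measurableSet.prod (glK_isOpen one_pos le_rfl).measurableSet
  have hKt : (μ.prod μ) (K.prod K : Set (GL n E × GL n E)) ≠ ∞ := by
    rw [Subgroup.coe_prod, Measure.prod_prod]
    exact ENNReal.mul_ne_top (glK_isCompact one_pos le_rfl).measure_lt_top.ne
      (glK_isCompact one_pos le_rfl).measure_lt_top.ne
  have hN0 : ∀ r : ℝ, 0 < r → ν (bxS E fun _ _ : n => r) ≠ 0 := fun r hr =>
    ((isOpen_bxS fun _ _ => hr).measure_pos ν ⟨0, fun i j => by simpa using hr.le⟩).ne'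
  have hNt : ∀ r : ℝ, ν (bxS E fun _ _ : n => r) ≠ ∞ := fun r =>
    (isCompact_bxS _).measure_lt_top.ne
  refine ⟨(ν (bxS E fun _ _ : n => c₀ * ρ₁))⁻¹ * ((μ.prod μ) (K.prod K : Set (GL n E × GL n E)) * C₁),
    ENNReal.mul_ne_top (ENNReal.inv_ne_top.2 (hN0 _ (by positivity))) (ENNReal.mul_ne_top hKt hC₁),
    fun c hc => ?_⟩
  obtain ⟨ρ, hρ0, hρ1, hρc⟩ : ∃ ρ : ℝ, 0 < ρ ∧ ρ ≤ ρ₁ ∧ ∀ i j, c₀ * ρ ≤ c i j := by
    have h1 : ∀ᶠ ρ : ℝ in 𝓝[>] 0, 0 < ρ := eventually_mem_nhdsWithin
    have h2 : ∀ᶠ ρ : ℝ in 𝓝[>] 0, ρ ≤ ρ₁ :=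
      eventually_nhdsWithin_of_eventually_nhds (eventually_le_nhds hρ₁0)
    have h3 : ∀ᶠ ρ : ℝ in 𝓝[>] 0, ∀ i j, c₀ * ρ ≤ c i j := by
      refine Filter.eventually_all.2 fun i => Filter.eventually_all.2 fun j => ?_
      refine eventually_nhdsWithin_of_eventually_nhds ?_
      have h4 : Tendsto (fun ρ : ℝ => c₀ * ρ) (𝓝 0) (𝓝 (c₀ * 0)) := tendsto_id.const_mul c₀
      rw [mul_zero] at h4
      exact h4.eventually_le_const (hc i j)
    obtain ⟨ρ, h⟩ := (h1.and (h2.and h3)).exists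
    exact ⟨ρ, h.1, h.2.1, h.2.2⟩
  have hρ2 : ρ ≤ 1 / 2 := by linarith
  have hρ3 : ρ ≤ 1 := by linarith
  have hcst : ∀ (s : Matrix n n E), cst σ s = -s → ∀ k k' : GL n E,
      cst σ (gram σ s (k' : Matrix n n E) - gram σ s (k : Matrix n n E)) =
        -(gram σ s (k' : Matrix n n E) - gram σ s (k : Matrix n n E)) := by
    intro s hs k k'
    rw [cst_sub, cst_gram hq hs, cst_gram hq hs]
    abel
  have hri : (μ.prod μ).IsMulRightInvariant := Measure.prod.instIsMulRightInvariant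
  have key := density_abs (μ.prod μ) ν (K.prod K) ((glK n E ρ hρ0.le hρ3).prod (glK n E ρ hρ0.le hρ3))
    ((gramSt σ s ⊓ K).prod (gramSt σ s' ⊓ K)) (Subgroup.prod_mono (glK_le _ _) (glK_le _ _))
    (Subgroup.prod_mono inf_le_right inf_le_right) hKm
    (by
      rintro ⟨k, l⟩ hk ⟨y, y'⟩ hy
      exact ⟨glK_conj _ _ hk.1 hy.1, glK_conj _ _ hk.2 hy.2⟩)
    (gram2 σ δ s s') (continuous_gram2 hq s s').measurable
    (bx (fun _ _ => c₀ * ρ) (fun _ _ => by positivity)) (bx (fun _ _ => κ * ρ) (fun _ _ => by positivity))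
    (isOpen_bxS fun _ _ => by positivity).measurableSet
    (isOpen_bxS fun _ _ => by positivity).measurableSet
    (bxS E fun _ _ => c₀ * ρ₁) (bxS E c) (isOpen_bxS fun _ _ => by positivity).measurableSet
    (isOpen_bxS hc).measurableSet
    (by
      rintro ⟨k, l⟩ hk ⟨y, y'⟩ hy i j
      have h1 := gram_sub_entry_le hq hM.le hρ0.le hρ3
        (fun i j => gram_entry_le hq hM.le (fun i j => (hsM i j).trans e1) (glK_entry hk.1) i j) hy.1 i j
      have h2 := gram_sub_entry_le hq hM.le hρ0.le hρ3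
        (fun i j => gram_entry_le hq hM.le (fun i j => (hsM' i j).trans e3) (glK_entry hk.2) i j)
        hy.2 i j
      rw [← gram_mul, ← Units.val_mul] at h1 h2
      have h3 : (gram2 σ δ s s' ((k, l) * (y, y')) - gram2 σ δ s s' (k, l)) i j =
          (gram σ s ((k * y : GL n E) : Matrix n n E) - gram σ s (k : Matrix n n E)) i j +
          δ * (gram σ s' ((l * y' : GL n E) : Matrix n n E) - gram σ s' (l : Matrix n n E)) i j := by
        show (gram σ s ((k * y : GL n E) : Matrix n n E) i j + δ *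
          gram σ s' ((l * y' : GL n E) : Matrix n n E) i j) - (gram σ s (k : Matrix n n E) i j + δ *
          gram σ s' (l : Matrix n n E) i j) = (gram σ s ((k * y : GL n E) : Matrix n n E) i j -
          gram σ s (k : Matrix n n E) i j) + δ * (gram σ s' ((l * y' : GL n E) : Matrix n n E) i j -
          gram σ s' (l : Matrix n n E) i j)
        ring
      rw [h3]
      refine (IsUltrametricDist.norm_add_le_max _ _).trans (max_le ?_ ?_)
      · refine h1.trans ?_
        calc M * ρ = M * 1 * ρ := by ring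
          _ ≤ M * max 1 D * ρ := by gcongr; exact le_max_left _ _
      · rw [norm_mul]
        calc ‖δ‖ * _ ≤ D * (M * ρ) := mul_le_mul_of_nonneg_left h2 hD0.le
          _ = M * D * ρ := by ring
          _ ≤ M * max 1 D * ρ := by gcongr; exact le_max_right _ _)
    (by
      rintro ⟨k, l⟩ hk ⟨k', l'⟩ hk' h
      obtain ⟨h1, h2⟩ := hsplit ρ _ _ hρ0.le (hcst s hs k k') (hcst s' hs' l l') (by
        intro i j
        have h3 := h i j
        have h4 : (gram2 σ δ s s' (k', l') - gram2 σ δ s s' (k, l)) i j =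
          (gram σ s (k' : Matrix n n E) - gram σ s (k : Matrix n n E) +
            δ • (gram σ s' (l' : Matrix n n E) - gram σ s' (l : Matrix n n E))) i j := by
          show (gram σ s (k' : Matrix n n E) i j + δ * gram σ s' (l' : Matrix n n E) i j) -
            (gram σ s (k : Matrix n n E) i j + δ * gram σ s' (l : Matrix n n E) i j) =
            (gram σ s (k' : Matrix n n E) i j - gram σ s (k : Matrix n n E) i j) +
            δ * (gram σ s' (l' : Matrix n n E) i j - gram σ s' (l : Matrix n n E) i j)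
          ring
        rwa [h4] at h3)
      obtain ⟨u, hu, y, hy, e⟩ := fibre_K hq hM hρ0.le hρ3 hρ2 hρ1 s t hs hst
        (fun i j => (htM i j).trans e2) hk.1 hk'.1 h1
      obtain ⟨u', hu', y', hy', e'⟩ := fibre_K hq hM hρ0.le hρ3 hρ2 hρ1 s' t' hs' hst'
        (fun i j => (htM' i j).trans e4) hk.2 hk'.2 h2
      exact ⟨(u, u'), ⟨hu, hu'⟩, (y, y'), ⟨hy, hy'⟩, Prod.ext e e'⟩)
    (by
      rintro ⟨u, u'⟩ hu ⟨g, g'⟩
      show gram σ s ((u * g : GL n E) : Matrix n n E) + δ • gram σ s' ((u' * g' : GL n E) : Matrix n n E) = _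
      have h1 : gram σ s (u : Matrix n n E) = s := hu.1.1
      have h2 : gram σ s' (u' : Matrix n n E) = s' := hu.2.1
      rw [Units.val_mul, Units.val_mul, gram_mul, gram_mul, h1, h2]
      rfl)
    (by
      intro z hz
      have h2E : (2 : E) ≠ 0 := hq.two_E
      have hδ0 : δ ≠ 0 := hq.ne
      set z₁ : Matrix n n E := fun i j => (z i j - σ (z j i)) / 2 with hz₁
      set z₂ : Matrix n n E := fun i j => (z i j + σ (z j i)) / (2 * δ) with hz₂
      have h1 : cst σ z₁ = -z₁ := by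
        ext i j
        show σ ((z j i - σ (z i j)) / 2) = -((z i j - σ (z j i)) / 2)
        rw [map_div₀, map_sub, sig_sig hq, map_ofNat]
        ring
      have h2 : cst σ z₂ = -z₂ := by
        ext i j
        show σ ((z j i + σ (z i j)) / (2 * δ)) = -((z i j + σ (z j i)) / (2 * δ))
        rw [map_div₀, map_add, sig_sig hq, map_mul, map_ofNat, hq.sig, mul_neg, div_neg, add_comm]
      have h3 : ∀ i j, (z₁ + δ • z₂) i j = z i j := by
        intro i j
        show (z i j - σ (z j i)) / 2 + δ * ((z i j + σ (z j i)) / (2 * δ)) = z i j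
        field_simp
        ring
      obtain ⟨h4, h5⟩ := hsplit ρ₁ z₁ z₂ hρ₁0.le h1 h2 (by
        intro i j
        rw [h3]
        exact hz i j)
      have hρ₁1 : ρ₁ ≤ 1 := by linarith
      have hρ₁2 : ρ₁ ≤ 1 / 2 := by linarith
      obtain ⟨y, hy, hyz⟩ := hensel_K hq hM hρ₁0.le hρ₁1 hρ₁2 le_rfl s t z₁ hs hst
        (fun i j => (htM i j).trans e2) h1 h4 (Subgroup.one_mem K)
      obtain ⟨y', hy', hyz'⟩ := hensel_K hq hM hρ₁0.le hρ₁1 hρ₁2 le_rfl s' t' z₂ hs' hst'
        (fun i j => (htM' i j).trans e4) h2 h5 (Subgroup.one_mem K)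
      refine ⟨(1 * y, 1 * y'), ⟨K.mul_mem K.one_mem (glK_le _ _ hy),
        K.mul_mem K.one_mem (glK_le _ _ hy')⟩, ?_⟩
      funext i j
      show gram σ s ((1 * y : GL n E) : Matrix n n E) i j + δ *
        gram σ s' ((1 * y' : GL n E) : Matrix n n E) i j = gram σ s ((1 : GL n E) : Matrix n n E) i j +
        δ * gram σ s' ((1 : GL n E) : Matrix n n E) i j + z i j
      rw [hyz, hyz', ← h3 i j]
      show gram σ s ((1 : GL n E) : Matrix n n E) i j + z₁ i j + δ *
        (gram σ s' ((1 : GL n E) : Matrix n n E) i j + z₂ i j) =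
        gram σ s ((1 : GL n E) : Matrix n n E) i j +
        δ * gram σ s' ((1 : GL n E) : Matrix n n E) i j + (z₁ i j + δ * z₂ i j)
      ring)
    (by
      intro x hx b hb i j
      show ‖x i j - b i j‖ ≤ c i j
      rw [sub_eq_add_neg]
      refine (IsUltrametricDist.norm_add_le_max _ _).trans (max_le (hx i j) ?_)
      rw [norm_neg]
      exact (hb i j).trans (hρc i j))
  set X := (μ.prod μ) {p | p ∈ K.prod K ∧ gram2 σ δ s s' p ∈ bxS E c} with hX
  have hsc : ν (bxS E fun _ _ : n => κ * ρ) ≤ C₁ * ν (bxS E fun _ _ : n => c₀ * ρ) := by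
    have h1 := hC₁' (c₀ * ρ) (by positivity)
    have h2 : κ / c₀ * (c₀ * ρ) = κ * ρ := by field_simp
    rwa [h2] at h1
  have h1 : X * ν (bxS E fun _ _ : n => c₀ * ρ) * ν (bxS E fun _ _ : n => c₀ * ρ₁) ≤
      ν (bxS E c) * ((μ.prod μ) (K.prod K : Set (GL n E × GL n E)) *
        (C₁ * ν (bxS E fun _ _ : n => c₀ * ρ))) :=
    (show X * ν (bxS E fun _ _ : n => c₀ * ρ) * ν (bxS E fun _ _ : n => c₀ * ρ₁) ≤
      ν (bxS E c) * ((μ.prod μ) (K.prod K : Set (GL n E × GL n E)) *
        ν (bxS E fun _ _ : n => κ * ρ)) from key).trans (by gcongr)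
  set N := ν (bxS E fun _ _ : n => c₀ * ρ) with hN
  set N₁ := ν (bxS E fun _ _ : n => c₀ * ρ₁) with hN₁
  have n0 : N ≠ 0 := hN0 _ (by positivity)
  have nt : N ≠ ∞ := hNt _
  have n10 : N₁ ≠ 0 := hN0 _ (by positivity)
  have n1t : N₁ ≠ ∞ := hNt _
  have h2 : X * N₁ ≤ ν (bxS E c) * ((μ.prod μ) (K.prod K : Set (GL n E × GL n E)) * C₁) := by
    refine (ENNReal.mul_le_mul_iff_left n0 nt).1 ?_
    calc X * N₁ * N = X * N * N₁ := by ring
      _ ≤ _ := h1
      _ = ν (bxS E c) * ((μ.prod μ) (K.prod K : Set (GL n E × GL n E)) * C₁) * N := by ring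
  calc X = N₁⁻¹ * (X * N₁) := by
        rw [mul_comm X, ← mul_assoc, ENNReal.inv_mul_cancel n10 n1t, one_mul]
    _ ≤ N₁⁻¹ * (ν (bxS E c) * ((μ.prod μ) (K.prod K : Set (GL n E × GL n E)) * C₁)) := by gcongr
    _ = N₁⁻¹ * ((μ.prod μ) (K.prod K : Set (GL n E × GL n E)) * C₁) * ν (bxS E c) := by ring

end loc

end SpW
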