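import Pool.Agent.Work.MP_3615d2_al.Unimod
import Pool.Agent.Work.MP_3615d2_al.Mo.Defs
import Pool.Agent.Work.MP_3615d2_al.Mo.DensB

/-!
MP_3615d2_al, multiplicity one (note 6725): transposition, inversion and `θ` preserve the Haar
measure of `GL_n(K)`.
-/

open MeasureTheory MeasureTheory.Measure Filter Topology
open scoped NNReal

namespace SpW.Mo

section

variable {K : Type} [NontriviallyNormedField K] [IsUltrametricDist K] [ProperSpace K]
  {n : Type} [Fintype n] [DecidableEq n] [MeasurableSpace (GL n K)] [BorelSpace (GL n K)]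

omit [MeasurableSpace (GL n K)] [BorelSpace (GL n K)] in
theorem locallyCompact_gl : LocallyCompactSpace (GL n K) := by
  infer_instance

instance regular_gl (μ : Measure (GL n K)) [μ.IsHaarMeasure] : μ.Regular := by
  have h1 : SecondCountableTopology (GL n K) := sc_gl
  have h2 : SigmaCompactSpace (GL n K) := sigmaCompactSpace_of_locallyCompact_secondCountable
  have h3 : TopologicalSpace.PseudoMetrizableSpace (GL n K) := by
    infer_instance
  infer_instance

end

section

variable {K : Type} [NontriviallyNormedField K] [IsUltrametricDist K] [ProperSpace K]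
  {n : Type} [Fintype n] [DecidableEq n] [MeasurableSpace (GL n K)] [BorelSpace (GL n K)]
  (μ : Measure (GL n K)) [μ.IsHaarMeasure]

theorem map_eq_self_of (e : GL n K ≃ₜ GL n K) (hinv : (map e μ).IsMulLeftInvariant)
    (hK : ∀ g, g ∈ intGL K n → e g ∈ intGL K n) (he : ∀ g, e (e g) = g) : map e μ = μ := by
  have h1 : Regular (map e μ) := Regular.map e
  have h0 : IsFiniteMeasureOnCompacts (map e μ) := IsFiniteMeasureOnCompacts.map μ e
  have h2 := isMulLeftInvariant_eq_smul_of_regular (map e μ) μ
  set K₀ : Set (GL n K) := (intGL K n : Set (GL n K)) with hK₀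
  have hKo : IsOpen K₀ := intGL_isOpen
  have hKc : IsCompact K₀ := intGL_isCompact
  have hpos : μ K₀ ≠ 0 := (hKo.measure_pos μ ⟨1, one_mem (intGL K n)⟩).ne'
  have hfin : μ K₀ ≠ ⊤ := hKc.measure_lt_top.ne
  have h3 : e ⁻¹' K₀ = K₀ := by
    ext g
    constructor
    · intro h
      have h4 := hK _ h
      rw [he] at h4
      exact h4
    · intro h
      exact hK _ h
  have h4 : (map e μ) K₀ = μ K₀ := by
    rw [Measure.map_apply e.continuous.measurable hKo.measurableSet, h3]
  rw [h2, Measure.smul_apply] at h4
  have h5 : ((haarScalarFactor (map e μ) μ : ℝ≥0) : ENNReal) = 1 := by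
    have h6 : ((haarScalarFactor (map e μ) μ : ℝ≥0) : ENNReal) * μ K₀ = 1 * μ K₀ := by
      rw [one_mul]
      exact h4
    exact (ENNReal.mul_left_inj hpos hfin).1 h6
  have h6 : haarScalarFactor (map e μ) μ = 1 := by exact_mod_cast h5
  rw [h2, h6, one_smul]

/-- transposition as a homeomorphism -/
def trHom : GL n K ≃ₜ GL n K where
  toFun := trGL
  invFun := trGL
  left_inv := trGL_trGL
  right_inv := trGL_trGL
  continuous_toFun := continuous_trGL
  continuous_invFun := continuous_trGL

theorem map_trGL : map (trGL : GL n K → GL n K) μ = μ := by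
  have hr : μ.IsMulRightInvariant := Hk.haar_right μ
  refine map_eq_self_of μ trHom ⟨fun g => ?_⟩ (fun g hg => ?_) trGL_trGL
  · change map (g * ·) (map trGL μ) = map trGL μ
    have h1 : (fun x : GL n K => g * x) ∘ trGL = trGL ∘ (fun x => x * trGL g) := by
      funext x
      change g * trGL x = trGL (x * trGL g)
      rw [trGL_mul, trGL_trGL]
    have m1 : Measurable fun x : GL n K => g * x := (continuous_const_mul g).measurable
    have m2 : Measurable fun x : GL n K => x * trGL g := (continuous_mul_const _).measurable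
    have m3 : Measurable (trGL : GL n K → GL n K) := continuous_trGL.measurable
    have h2 : map (fun x => x * trGL g) μ = μ := hr.map_mul_right_eq_self _
    calc map (g * ·) (map trGL μ) = map ((fun x : GL n K => g * x) ∘ trGL) μ :=
          Measure.map_map m1 m3
      _ = map (trGL ∘ (fun x => x * trGL g)) μ := by rw [h1]
      _ = map trGL (map (fun x => x * trGL g) μ) := (Measure.map_map m3 m2).symm
      _ = map trGL μ := by rw [h2]
  · exact ⟨fun i j => hg.1 j i, fun i j => hg.2 j i⟩

theorem map_inv : map (fun g : GL n K => g⁻¹) μ = μ := by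
  have hr : μ.IsMulRightInvariant := Hk.haar_right μ
  refine map_eq_self_of μ (Homeomorph.inv (GL n K)) ⟨fun g => ?_⟩ (fun g hg => inv_mem hg)
    inv_inv
  change map (g * ·) (map (fun g : GL n K => g⁻¹) μ) = map (fun g : GL n K => g⁻¹) μ
  have h1 : (fun x : GL n K => g * x) ∘ (fun g : GL n K => g⁻¹) =
      (fun g : GL n K => g⁻¹) ∘ (fun x => x * g⁻¹) := by
    funext x
    change g * x⁻¹ = (x * g⁻¹)⁻¹
    rw [mul_inv_rev, inv_inv]
  have m1 : Measurable fun x : GL n K => g * x := (continuous_const_mul g).measurable
  have m2 : Measurable fun x : GL n K => x * g⁻¹ := (continuous_mul_const _).measurable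
  have m3 : Measurable (fun g : GL n K => g⁻¹) := continuous_inv.measurable
  have h2 : map (fun x => x * g⁻¹) μ = μ := hr.map_mul_right_eq_self _
  calc map (g * ·) (map (fun g : GL n K => g⁻¹) μ) =
        map ((fun x : GL n K => g * x) ∘ fun g : GL n K => g⁻¹) μ := Measure.map_map m1 m3
    _ = map ((fun g : GL n K => g⁻¹) ∘ (fun x => x * g⁻¹)) μ := by rw [h1]
    _ = map (fun g : GL n K => g⁻¹) (map (fun x => x * g⁻¹) μ) := (Measure.map_map m3 m2).symm
    _ = map (fun g : GL n K => g⁻¹) μ := by rw [h2]

theorem measurePreserving_trGL : MeasurePreserving (trGL : GL n K → GL n K) μ μ :=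
  ⟨continuous_trGL.measurable, map_trGL μ⟩

theorem measurePreserving_inv : MeasurePreserving (fun g : GL n K => g⁻¹) μ μ :=
  ⟨continuous_inv.measurable, map_inv μ⟩

end

section

variable {E : Type} [NontriviallyNormedField E] [IsUltrametricDist E] [ProperSpace E]
  {m : ℕ} [MeasurableSpace (GL (Fin m) E)] [BorelSpace (GL (Fin m) E)]
  (μ : Measure (GL (Fin m) E)) [μ.IsHaarMeasure]

/-- Haar measure of `GL_m(E)` is right invariant. -/
theorem haar_right' : μ.IsMulRightInvariant := Hk.haar_right μ

/-- The anti-automorphism `θ` preserves Haar measure. -/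
theorem th_measurePreserving (t : Fin m → Eˣ) : MeasurePreserving (th t) μ μ := by
  have hr : μ.IsMulRightInvariant := Hk.haar_right μ
  have h1 := (measurePreserving_mul_right μ (dgl t)).comp
    ((measurePreserving_mul_left μ (dgl t)⁻¹).comp (measurePreserving_trGL μ))
  exact h1

end

end SpW.Mo
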