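import Pool.Agent.Work.MP_3615d2_al.Mo.ConvB
import Pool.Agent.Work.MP_3615d2_al.Mo.Fin
import Pool.Agent.Work.MP_3615d2_al.Mo.TrHaar

/-!
MP_3615d2_al, multiplicity one (note 6725 G4c): the dominating function `M_R(g)` is integrable
over compact sets.
-/

open MeasureTheory Measure Filter Topology Matrix
open scoped NNReal ENNReal Pointwise

set_option linter.unusedSectionVars false

namespace SpW.Mo.Cv

section nu

variable {E : Type} [NontriviallyNormedField E] [IsUltrametricDist E] [ProperSpace E]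
  [MeasurableSpace E] [BorelSpace E] {m : ℕ}

theorem nuV_eq (k : GL (Fin m) E) : nuV k = nuK (addHaar : Measure (Fin m → E)) k := by
  unfold nuV nuK
  congr 1
  ext w
  constructor
  · rintro ⟨hw, v, hv, rfl⟩
    refine ⟨mem_closedBall_zero_iff.1 hw, ?_⟩
    have h1 : vecL k⁻¹ ((k : Matrix (Fin m) (Fin m) E).mulVec v) = v := by
      rw [← vecL_apply, ← vecL_mul, inv_mul_cancel, vecL_apply, Units.val_one,
        Matrix.one_mulVec]
    show ‖vecL k⁻¹ ((k : Matrix (Fin m) (Fin m) E).mulVec v)‖ ≤ 1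
    rw [h1]
    exact mem_closedBall_zero_iff.1 hv
  · rintro ⟨h1, h2⟩
    refine ⟨mem_closedBall_zero_iff.2 h1, vecL k⁻¹ w, mem_closedBall_zero_iff.2 h2, ?_⟩
    show (k : Matrix (Fin m) (Fin m) E) *ᵥ vecL k⁻¹ w = w
    rw [← vecL_apply, ← vecL_mul, mul_inv_cancel, vecL_apply, Units.val_one, Matrix.one_mulVec]

theorem continuous_nuV : Continuous (nuV : GL (Fin m) E → ℝ≥0∞) := by
  refine IsLocallyConstant.continuous ((IsLocallyConstant.iff_exists_open _).2 fun k => ?_)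
  refine ⟨(fun x => k * x) '' (glK (Fin m) E 1 zero_le_one le_rfl : Set (GL (Fin m) E)),
    (isOpenMap_mul_left k) _ (glK_isOpen one_pos le_rfl), ⟨1, one_mem _, mul_one k⟩, ?_⟩
  rintro _ ⟨l, hl, rfl⟩
  rw [nuV_eq, nuV_eq]
  exact nuK_mul_right _ k hl

theorem ad_glK {l : GL (Fin m) E} (hl : l ∈ glK (Fin m) E 1 zero_le_one le_rfl) : ad l = 1 := by
  rw [ad_eq_md, md_eq_of_norm_eq (y := (1 : E)) (by rw [norm_det_of_glK hl, norm_one]), md_one,
    NNReal.coe_one]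

theorem md_zpowU (π : Eˣ) (k : ℤ) : md (((π ^ k : Eˣ)) : E) = md (π : E) ^ k := by
  rw [md_units, md_units, map_zpow]

theorem ad_cell {π : Eˣ} {a : Fin m → ℤ} {k : GL (Fin m) E}
    (hk : k ∈ cell 1 zero_le_one le_rfl (fun i => π ^ a i)) :
    ad k = ((md (π : E) : ℝ≥0) : ℝ) ^ ∑ i, a i := by
  obtain ⟨k₁, hk₁, k₂, hk₂, rfl⟩ := hk
  rw [ad_mul, ad_mul, ad_glK hk₁, ad_glK hk₂, one_mul, mul_one, ad_eq_md, dgl_val,
    Matrix.det_diagonal, mdp, NNReal.coe_prod]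
  have h0 : ((md (π : E) : ℝ≥0) : ℝ) ≠ 0 := (NNReal.coe_pos.2 (md_pos π.ne_zero)).ne'
  rw [← prod_zpow h0]
  refine Finset.prod_congr rfl fun i _ => ?_
  rw [md_zpowU, NNReal.coe_zpow]

theorem exists_ad_bound {Ω : Set (GL (Fin m) E)} (hΩ : IsCompact Ω) :
    ∃ R : ℝ, 1 ≤ R ∧ ∀ g ∈ Ω, R⁻¹ ≤ ad g ∧ ad g ≤ R := by
  obtain ⟨R₁, h1⟩ := (hΩ.image (continuous_ad (E := E) (m := m))).isBounded.exists_norm_le
  obtain ⟨R₂, h2⟩ := (hΩ.image ((continuous_ad (E := E) (m := m)).inv₀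
    fun g => (ad_pos g).ne')).isBounded.exists_norm_le
  refine ⟨max 1 (max R₁ R₂), le_max_left _ _, fun g hg => ⟨?_, ?_⟩⟩
  · have h3 : ‖(ad g)⁻¹‖ ≤ R₂ := h2 _ ⟨g, hg, rfl⟩
    rw [Real.norm_of_nonneg (inv_nonneg.2 (ad_pos g).le)] at h3
    rw [inv_le_comm₀ (lt_of_lt_of_le one_pos (le_max_left _ _)) (ad_pos g)]
    exact h3.trans ((le_max_right _ _).trans (le_max_right _ _))
  · have h3 := h1 _ ⟨g, hg, rfl⟩
    rw [Real.norm_of_nonneg (ad_pos g).le] at h3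
    exact h3.trans ((le_max_left _ _).trans (le_max_right _ _))

/-- bounded determinant: bounded sum of the exponents -/
theorem sum_le_of_pow {q R : ℝ} {N : ℕ} (hq : 1 < q) (hR : 0 < R) (hN : R < q ^ N) {s : ℤ}
    (h1 : R⁻¹ ≤ q ^ s) (h2 : q ^ s ≤ R) : |s| ≤ N := by
  have hq0 : 0 < q := one_pos.trans hq
  rw [abs_le]
  constructor
  · by_contra h
    have h3 : s < -(N : ℤ) := not_le.1 h
    have h4 : q ^ s < q ^ (-(N : ℤ)) := zpow_lt_zpow_right₀ hq h3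
    rw [_root_.zpow_neg, zpow_natCast] at h4
    have h5 : (q ^ N)⁻¹ < R⁻¹ := inv_strictAnti₀ hR hN
    linarith
  · by_contra h
    have h3 : (N : ℤ) < s := not_le.1 h
    have h4 : q ^ (N : ℤ) < q ^ s := zpow_lt_zpow_right₀ hq h3
    rw [zpow_natCast] at h4
    linarith

theorem min_mul_min {q : ℝ} (hq : 1 ≤ q) (s : ℤ) : min 1 (q ^ s) * min 1 (q ^ (-s)) =
    q ^ (-|s|) := by
  rcases le_total 0 s with h | h
  · rw [abs_of_nonneg h, min_eq_left (one_le_zpow₀ hq h), min_eq_right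
      (zpow_le_one_of_nonpos₀ hq (by omega)), one_mul]
  · rw [abs_of_nonpos h, min_eq_right (zpow_le_one_of_nonpos₀ hq h),
      min_eq_left (one_le_zpow₀ hq (by omega)), mul_one, neg_neg]

/-- The product of the three factors. -/
theorem three_fac {π : Eˣ} (hπ : 1 ≤ ((md (π : E) : ℝ≥0) : ℝ)) (a : Fin m → ℤ) :
    ((∏ i, min 1 (md (((π ^ a i : Eˣ)) : E)) : ℝ≥0) : ℝ≥0∞) ^ (1 / 2 : ℝ) *
      ((∏ i, ∏ j, min 1 (md ((((π ^ a i : Eˣ)) : E) * ((π ^ a j : Eˣ) : E))) : ℝ≥0) : ℝ≥0∞) ^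
        (1 / 2 : ℝ) *
      ((∏ i, ∏ j, min 1 (md (((π ^ a i * π ^ a j)⁻¹ : Eˣ) : E)) : ℝ≥0) : ℝ≥0∞) ^ (1 / 2 : ℝ) =
      ENNReal.ofReal (((∏ i, ∏ j, ((md (π : E) : ℝ≥0) : ℝ) ^ (-|a i + a j|)) *
        ∏ i, min 1 (((md (π : E) : ℝ≥0) : ℝ) ^ (a i))) ^ (1 / 2 : ℝ)) := by
  have h12 : (0 : ℝ) ≤ 1 / 2 := by norm_num
  rw [← ENNReal.mul_rpow_of_nonneg _ _ h12, ← ENNReal.mul_rpow_of_nonneg _ _ h12,
    ← ENNReal.coe_mul, ← ENNReal.coe_mul, ← ENNReal.coe_rpow_of_nonneg _ h12,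
    ← ENNReal.ofReal_coe_nnreal, NNReal.coe_rpow]
  congr 2
  rw [NNReal.coe_mul, NNReal.coe_mul, mul_assoc, mul_comm]
  have h1 : ((∏ i, ∏ j, min 1 (md ((((π ^ a i : Eˣ)) : E) * ((π ^ a j : Eˣ) : E))) : ℝ≥0) : ℝ) *
      ((∏ i, ∏ j, min 1 (md (((π ^ a i * π ^ a j)⁻¹ : Eˣ) : E)) : ℝ≥0) : ℝ) =
      ∏ i, ∏ j, ((md (π : E) : ℝ≥0) : ℝ) ^ (-|a i + a j|) := by
    have key : ∀ i j, ((min 1 (md ((((π ^ a i : Eˣ)) : E) * ((π ^ a j : Eˣ) : E))) : ℝ≥0) : ℝ) *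
        ((min 1 (md (((π ^ a i * π ^ a j)⁻¹ : Eˣ) : E)) : ℝ≥0) : ℝ) =
        ((md (π : E) : ℝ≥0) : ℝ) ^ (-|a i + a j|) := by
      intro i j
      rw [← min_mul_min hπ, ← Units.val_mul, ← _root_.zpow_add, ← _root_.zpow_neg, md_zpowU,
        md_zpowU, NNReal.coe_min, NNReal.coe_min, NNReal.coe_zpow, NNReal.coe_zpow, NNReal.coe_one]
    rw [NNReal.coe_prod, NNReal.coe_prod, ← Finset.prod_mul_distrib]
    refine Finset.prod_congr rfl fun i _ => ?_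
    rw [NNReal.coe_prod, NNReal.coe_prod, ← Finset.prod_mul_distrib]
    exact Finset.prod_congr rfl fun j _ => key i j
  have h2 : ((∏ i, min 1 (md (((π ^ a i : Eˣ)) : E)) : ℝ≥0) : ℝ) =
      ∏ i, min 1 (((md (π : E) : ℝ≥0) : ℝ) ^ (a i)) := by
    rw [NNReal.coe_prod]
    refine Finset.prod_congr rfl fun i _ => ?_
    rw [md_zpowU, NNReal.coe_min, NNReal.coe_zpow, NNReal.coe_one]
  rw [h1, h2]

end nu

section main

variable {F E : Type} [NontriviallyNormedField F] [IsUltrametricDist F] [ProperSpace F]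
  [NontriviallyNormedField E] [NormedAlgebra F E] [IsUltrametricDist E] [ProperSpace E]
  {σ : E ≃ₐ[F] E} {δ : E} {d : F} {m : ℕ}

theorem skT_cst {t : Fin m → Eˣ} (ht : SkT σ t) : SpW.cst σ (Dg t) = -Dg t := by
  ext i j
  show σ (Dg t j i) = -(Dg t i j)
  unfold Dg
  by_cases h : i = j
  · subst h
    rw [Matrix.diagonal_apply_eq, ht i]
  · rw [Matrix.diagonal_apply_ne _ h, Matrix.diagonal_apply_ne _ (Ne.symm h), map_zero, neg_zero]

theorem skT_inv {t : Fin m → Eˣ} (ht : SkT σ t) : SkT σ fun i => (t i)⁻¹ := by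
  intro i
  show σ (((t i)⁻¹ : Eˣ) : E) = _
  rw [Units.val_inv_eq_inv_val, map_inv₀, ht i, inv_neg]

theorem Dg_isUnit (t : Fin m → Eˣ) : IsUnit (Dg t) := by
  rw [← dgl_Dg]
  exact Units.isUnit _

variable [MeasurableSpace E] [BorelSpace E]

/-- The closed set of the pairs `(g, h)`, `h ∈ MRset g`. -/
theorem isClosed_MRset_pair (hq : QuadDatum σ δ d) (t₁ t₂ : Fin m → Eˣ) (R : ℝ) :
    IsClosed {p : GL (Fin m) E × GL (Fin m) E | p.2 ∈ MRset σ t₁ t₂ R p.1} := by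
  refine (isClosed_le continuous_const (continuous_ad.comp continuous_snd)).inter
    ((isClosed_le (continuous_ad.comp continuous_snd) continuous_const).inter
    ((isClosed_gramLe hq (Dg t₁) R (f := fun p : GL (Fin m) E × GL (Fin m) E =>
      ((p.2⁻¹ : GL (Fin m) E) : Matrix (Fin m) (Fin m) E)) ?_).inter
    (isClosed_gramLe hq (Dg fun i => (t₂ i)⁻¹) R (f := fun p : GL (Fin m) E × GL (Fin m) E =>
      ((p.2 * p.1 : GL (Fin m) E) : Matrix (Fin m) (Fin m) E).transpose) ?_)))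
  · exact Units.continuous_val.comp (continuous_inv.comp continuous_snd)
  · exact (Units.continuous_val.comp (continuous_snd.mul continuous_fst)).matrix_transpose

theorem isClosed_MRset (hq : QuadDatum σ δ d) (t₁ t₂ : Fin m → Eˣ) (R : ℝ) (g : GL (Fin m) E) :
    IsClosed (MRset σ t₁ t₂ R g) :=
  (isClosed_MRset_pair hq t₁ t₂ R).preimage
    (by fun_prop : Continuous fun h : GL (Fin m) E => (g, h))

variable [MeasurableSpace (GL (Fin m) E)] [BorelSpace (GL (Fin m) E)]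

theorem MRset_mono {t₁ t₂ : Fin m → Eˣ} {R R' : ℝ} (h : R ≤ R') (g : GL (Fin m) E) :
    MRset σ t₁ t₂ R g ⊆ MRset σ t₁ t₂ R' g := by
  rintro k ⟨h1, h2, h3, h4⟩
  have hR : 0 < R := (ad_pos k).trans_le h2
  exact ⟨(inv_anti₀ hR h).trans h1, h2.trans h, fun i j => (h3 i j).trans h,
    fun i j => (h4 i j).trans h⟩

theorem MR_mono (μ : Measure (GL (Fin m) E)) {t₁ t₂ : Fin m → Eˣ} {R R' : ℝ} (h : R ≤ R')
    (g : GL (Fin m) E) : MR μ σ t₁ t₂ R g ≤ MR μ σ t₁ t₂ R' g :=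
  lintegral_mono' (Measure.restrict_mono (MRset_mono h g) le_rfl) le_rfl

/-- **The dominating function is integrable over compact sets.** -/
theorem lintegral_MR_lt_top (hq : QuadDatum σ δ d) (μ : Measure (GL (Fin m) E))
    [μ.IsHaarMeasure] [μ.IsMulRightInvariant] {t₁ t₂ : Fin m → Eˣ} (ht₁ : SkT σ t₁)
    (ht₂ : SkT σ t₂) (R : ℝ) {Ω : Set (GL (Fin m) E)} (hΩ : IsCompact Ω) :
    ∫⁻ g in Ω, MR μ σ t₁ t₂ R g ∂μ < ∞ := by
  wlog hR : 1 ≤ R generalizing R with H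
  · exact (lintegral_mono fun g => MR_mono μ (le_max_right 1 R) g).trans_lt
      (H (max 1 R) (le_max_left _ _))
  have hR0 : 0 < R := one_pos.trans_le hR
  obtain ⟨R₁, hR₁, hΩR⟩ := exists_ad_bound hΩ
  have hR₁0 : 0 < R₁ := one_pos.trans_le hR₁
  obtain ⟨p, hp1, hp⟩ := Pool.Agent.LocNorm.exists_unif E
  have hp0 : p ≠ 0 := norm_pos_iff.1 (one_pos.trans hp1)
  set π : Eˣ := Units.mk0 p hp0 with hπd
  have hπ : ∀ x : E, x ≠ 0 → ∃ k : ℤ, ‖x‖ = ‖(π : E)‖ ^ k := hp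
  have hq1 : 1 < ((md (π : E) : ℝ≥0) : ℝ) := by
    have h1 : md (1 : E) < md (π : E) := md_lt (by rw [norm_one]; exact hp1)
    rw [md_one] at h1
    exact_mod_cast h1
  obtain ⟨N, hN⟩ := pow_unbounded_of_one_lt (R * R₁) hq1
  obtain ⟨C₁, hC₁, hf1⟩ := fac_one hq μ (Dg t₁) (skT_cst ht₁) (Dg_isUnit t₁) hR0 hΩ
  obtain ⟨C₂, hC₂, hf2⟩ := fac_two hq μ (Dg fun i => (t₂ i)⁻¹) (skT_cst (skT_inv ht₂)) (Dg_isUnit _) hR0
  obtain ⟨C₃, hC₃, hf3⟩ := measure_cell_le (E := E) (n := m) one_pos le_rfl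
  set B : Set (GL (Fin m) E) := {k | ∀ i j, ‖gram σ (Dg fun i => (t₂ i)⁻¹)
    ((k : GL (Fin m) E) : Matrix (Fin m) (Fin m) E).transpose i j‖ ≤ R} with hB
  have hBm : MeasurableSet B :=
    (isClosed_gramLe hq _ R (Units.continuous_val.matrix_transpose)).measurableSet
  set A : Set (GL (Fin m) E) := {k | (R * R₁)⁻¹ ≤ ad k ∧ ad k ≤ R * R₁} with hA
  have hAm : MeasurableSet A := ((isClosed_le continuous_const continuous_ad).inter
    (isClosed_le continuous_ad continuous_const)).measurableSet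
  set T : Set (GL (Fin m) E × GL (Fin m) E) := {p | ∀ i j, ‖gram σ (Dg t₁)
    ((p.1 * p.2⁻¹ : GL (Fin m) E) : Matrix (Fin m) (Fin m) E) i j‖ ≤ R} with hT
  have hTm : MeasurableSet T := (isClosed_gramLe hq _ R (Units.continuous_val.comp
    (continuous_fst.mul (continuous_inv.comp continuous_snd)))).measurableSet
  set V : GL (Fin m) E → ℝ≥0∞ := (B ∩ A).indicator fun k => nuV k ^ (1 / 2 : ℝ) with hV
  have hVm : Measurable V :=
    (continuous_nuV.measurable.pow_const _).indicator (hBm.inter hAm)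
  set Φ : GL (Fin m) E → GL (Fin m) E → ℝ≥0∞ :=
    fun g k => T.indicator (fun _ => 1) (g, k) * V k with hΦ
  have hΦm : Measurable (Function.uncurry Φ) :=
    ((measurable_const.indicator hTm).mul (hVm.comp measurable_snd))
  -- change of variables
  have s1 : ∀ g ∈ Ω, MR μ σ t₁ t₂ R g ≤ ∫⁻ k, Φ g k ∂μ := by
    intro g hg
    rw [← lintegral_mul_right_eq_self (Φ g) g]
    unfold MR
    rw [← lintegral_indicator (isClosed_MRset hq t₁ t₂ R g).measurableSet]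
    refine lintegral_mono fun h => ?_
    by_cases hh : h ∈ MRset σ t₁ t₂ R g
    · rw [Set.indicator_of_mem hh]
      obtain ⟨h1, h2, h3, h4⟩ := hh
      have m1 : (g, h * g) ∈ T := by
        have h5 : g * (h * g)⁻¹ = h⁻¹ := by group
        show ∀ i j, ‖gram σ (Dg t₁) ((g * (h * g)⁻¹ : GL (Fin m) E) :
          Matrix (Fin m) (Fin m) E) i j‖ ≤ R
        rw [h5]
        exact h3
      have m2 : h * g ∈ B ∩ A := by
        refine ⟨h4, ?_, ?_⟩
        · rw [ad_mul, _root_.mul_inv]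
          exact mul_le_mul h1 (hΩR g hg).1 (inv_nonneg.2 hR₁0.le) (ad_pos h).le
        · rw [ad_mul]
          exact mul_le_mul h2 (hΩR g hg).2 (ad_pos g).le hR0.le
      show _ ≤ T.indicator (fun _ => 1) (g, h * g) * (B ∩ A).indicator _ (h * g)
      rw [Set.indicator_of_mem m1, Set.indicator_of_mem m2, one_mul]
    · rw [Set.indicator_of_notMem hh]
      exact zero_le
  have s2 : ∫⁻ g in Ω, MR μ σ t₁ t₂ R g ∂μ ≤ ∫⁻ g in Ω, ∫⁻ k, Φ g k ∂μ ∂μ :=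
    setLIntegral_mono' hΩ.measurableSet s1
  -- Tonelli
  have s3 : ∫⁻ g in Ω, ∫⁻ k, Φ g k ∂μ ∂μ = ∫⁻ k, ∫⁻ g in Ω, Φ g k ∂μ ∂μ :=
    lintegral_lintegral_swap hΦm.aemeasurable
  have s4 : ∀ k, ∫⁻ g in Ω, Φ g k ∂μ = μ {g | g ∈ Ω ∧ ∀ i j, ‖gram σ (Dg t₁)
      ((g * k⁻¹ : GL (Fin m) E) : Matrix (Fin m) (Fin m) E) i j‖ ≤ R} * V k := by
    intro k
    have hTk : MeasurableSet ((fun g => (g, k)) ⁻¹' T : Set (GL (Fin m) E)) :=
      (measurable_id.prodMk measurable_const) hTm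
    have h1 : ∀ g, T.indicator (fun _ => (1 : ℝ≥0∞)) (g, k) =
        ((fun g => (g, k)) ⁻¹' T).indicator (fun _ => 1) g := fun g => rfl
    show ∫⁻ g in Ω, T.indicator (fun _ => 1) (g, k) * V k ∂μ = _
    simp_rw [h1]
    rw [lintegral_mul_const _ (measurable_const.indicator hTk),
      lintegral_indicator_const hTk, one_mul, Measure.restrict_apply hTk]
    congr 2
    ext g
    exact and_comm
  -- the cells
  set c₀ : ℝ≥0∞ := (addHaar : Measure (Fin m → E)) (Metric.closedBall 0 1) with hc₀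
  have hc₀t : c₀ ≠ ∞ := (isCompact_closedBall (0 : Fin m → E) 1).measure_lt_top.ne
  set X : (Fin m → ℤ) → ℝ≥0∞ := fun a =>
    ((∏ i, min 1 (md (((π ^ a i : Eˣ)) : E)) : ℝ≥0) : ℝ≥0∞) with hX
  set Y : (Fin m → ℤ) → ℝ≥0∞ := fun a =>
    ((∏ i, ∏ j, min 1 (md ((((π ^ a i : Eˣ)) : E) * ((π ^ a j : Eˣ) : E))) : ℝ≥0) : ℝ≥0∞) with hY
  set Z : (Fin m → ℤ) → ℝ≥0∞ := fun a =>
    ((∏ i, ∏ j, min 1 (md (((π ^ a i * π ^ a j)⁻¹ : Eˣ) : E)) : ℝ≥0) : ℝ≥0∞) with hZ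
  set P : (Fin m → ℤ) → ℝ := fun a =>
    ∏ i, ∏ j, max 1 (((md (π : E) : ℝ≥0) : ℝ) ^ (a j - a i)) with hP
  have hPa : ∀ a : Fin m → ℤ, μ (cell 1 zero_le_one le_rfl (fun i => π ^ a i)) ≤
      ENNReal.ofReal (C₃ * P a) * μ (glK (Fin m) E 1 zero_le_one le_rfl : Set (GL (Fin m) E)) := by
    intro a
    have h1 := hf3 μ (fun i => π ^ a i)
    have h2 : ∀ i j : Fin m, ((md (((π ^ a j : Eˣ) : E) / ((π ^ a i : Eˣ) : E)) : ℝ≥0) : ℝ) =
        ((md (π : E) : ℝ≥0) : ℝ) ^ (a j - a i) := by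
      intro i j
      rw [← Units.val_div_eq_div_val, div_eq_mul_inv, ← _root_.zpow_sub, md_zpowU,
        NNReal.coe_zpow]
    simp only [h2] at h1
    exact h1
  have s5 : ∀ a : Fin m → ℤ, ∫⁻ k in cell 1 zero_le_one le_rfl (fun i => π ^ a i),
      ∫⁻ g in Ω, Φ g k ∂μ ∂μ ≤
      (c₀ ^ (1 / 2 : ℝ) * C₁ * C₂ * ENNReal.ofReal C₃ *
        μ (glK (Fin m) E 1 zero_le_one le_rfl : Set (GL (Fin m) E))) *
      (if |∑ i, a i| ≤ (N : ℤ) then ENNReal.ofReal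
        (P a * ((∏ i, ∏ j, ((md (π : E) : ℝ≥0) : ℝ) ^ (-|a i + a j|)) *
          ∏ i, min 1 (((md (π : E) : ℝ≥0) : ℝ) ^ (a i))) ^ (1 / 2 : ℝ)) else 0) := by
    intro a
    set t : Fin m → Eˣ := fun i => π ^ a i with ht
    have hcm : MeasurableSet (cell 1 zero_le_one le_rfl t : Set (GL (Fin m) E)) :=
      (isOpen_cell one_pos le_rfl t).measurableSet
    have h1 : ∀ k ∈ cell 1 zero_le_one le_rfl t, ∫⁻ g in Ω, Φ g k ∂μ ≤ B.indicator
        (fun _ => if |∑ i, a i| ≤ (N : ℤ) then C₁ * Y a ^ (1 / 2 : ℝ) *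
          (X a * c₀) ^ (1 / 2 : ℝ) else 0) k := by
      intro k hk
      rw [s4 k]
      by_cases hkB : k ∈ B
      · rw [Set.indicator_of_mem hkB]
        by_cases hkA : k ∈ A
        · have h2 : |∑ i, a i| ≤ (N : ℤ) := by
            have h3 := ad_cell hk
            refine sum_le_of_pow hq1 (mul_pos hR0 hR₁0) hN ?_ ?_
            · rw [← h3]
              exact hkA.1
            · rw [← h3]
              exact hkA.2
          rw [if_pos h2]
          have h3 : V k = (X a * c₀) ^ (1 / 2 : ℝ) := by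
            rw [hV, Set.indicator_of_mem (show k ∈ B ∩ A from ⟨hkB, hkA⟩), nuV_eq, nuK_cell _ t hk]
          rw [h3]
          exact mul_le_mul_left (hf1 t k hk) _
        · rw [hV, Set.indicator_of_notMem fun h => hkA h.2, mul_zero]
          exact zero_le
      · rw [hV, Set.indicator_of_notMem fun h => hkB h.1, mul_zero]
        exact zero_le
    refine (setLIntegral_mono' hcm h1).trans ?_
    rw [lintegral_indicator_const hBm, Measure.restrict_apply hBm, Set.inter_comm]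
    split_ifs with h2
    · have h3 := (hf2 t).trans (mul_le_mul_right (hPa a) _)
      refine (mul_le_mul_right h3 _).trans (le_of_eq ?_)
      have h4 := three_fac (π := π) (m := m) hq1.le a
      have hP0 : 0 ≤ P a := Finset.prod_nonneg fun i _ =>
        Finset.prod_nonneg fun j _ => zero_le_one.trans (le_max_left _ _)
      rw [ENNReal.ofReal_mul hP0, ← h4, ENNReal.ofReal_mul hC₃.le,
        ENNReal.mul_rpow_of_nonneg _ _ (by norm_num : (0 : ℝ) ≤ 1 / 2)]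
      show C₁ * Y a ^ (1 / 2 : ℝ) * (X a ^ (1 / 2 : ℝ) * c₀ ^ (1 / 2 : ℝ)) *
        (C₂ * Z a ^ (1 / 2 : ℝ) * (ENNReal.ofReal C₃ * ENNReal.ofReal (P a) *
          μ (glK (Fin m) E 1 zero_le_one le_rfl : Set (GL (Fin m) E)))) =
        (c₀ ^ (1 / 2 : ℝ) * C₁ * C₂ * ENNReal.ofReal C₃ *
        μ (glK (Fin m) E 1 zero_le_one le_rfl : Set (GL (Fin m) E))) *
        (ENNReal.ofReal (P a) * (X a ^ (1 / 2 : ℝ) * Y a ^ (1 / 2 : ℝ) * Z a ^ (1 / 2 : ℝ)))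
      ring
    · rw [zero_mul]
      exact zero_le
  have s6 : ∀ f : GL (Fin m) E → ℝ≥0∞, ∫⁻ k, f k ∂μ ≤
      ∑' a : Fin m → ℤ, ∫⁻ k in cell 1 zero_le_one le_rfl (fun i => π ^ a i), f k ∂μ := by
    intro f
    calc ∫⁻ k, f k ∂μ = ∫⁻ k in ⋃ a : Fin m → ℤ,
            cell (E := E) 1 zero_le_one le_rfl (fun i => π ^ a i), f k ∂μ := by
          rw [iUnion_cell hπ, Measure.restrict_univ]
      _ ≤ _ := lintegral_iUnion_le _ _
  refine (s2.trans (s3.trans_le ((s6 _).trans (ENNReal.tsum_le_tsum s5)))).trans_lt ?_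
  rw [ENNReal.tsum_mul_left]
  refine ENNReal.mul_lt_top ?_ (tsum_cellN_lt_top' hq1 N)
  refine lt_top_iff_ne_top.2 ?_
  refine ENNReal.mul_ne_top (ENNReal.mul_ne_top (ENNReal.mul_ne_top (ENNReal.mul_ne_top ?_ hC₁)
    hC₂) ENNReal.ofReal_ne_top) (glK_isCompact one_pos le_rfl).measure_lt_top.ne
  exact ENNReal.rpow_ne_top_of_nonneg (by norm_num) hc₀t

end main

end SpW.Mo.Cv

namespace SpW.Mo

section main

variable {F E : Type} [NontriviallyNormedField F] [IsUltrametricDist F] [ProperSpace F]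
  [NontriviallyNormedField E] [NormedAlgebra F E] [IsUltrametricDist E] [ProperSpace E]
  {σ : E ≃ₐ[F] E} {δ : E} {d : F} {m : ℕ} [MeasurableSpace E] [BorelSpace E]
  [MeasurableSpace (GL (Fin m) E)] [BorelSpace (GL (Fin m) E)]

/-- The statement of Mo/Tasks. -/
theorem MR_loc (μ : Measure (GL (Fin m) E)) [μ.IsHaarMeasure] {t₁ t₂ : Fin m → Eˣ}
    (_hm : 0 < m) (hq : QuadDatum σ δ d) (ht₁ : SkT σ t₁) (ht₂ : SkT σ t₂) (R : ℝ)
    (Ω : Set (GL (Fin m) E)) (hΩ : IsCompact Ω) : ∫⁻ g in Ω, MR μ σ t₁ t₂ R g ∂μ < ⊤ := by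
  have hr : μ.IsMulRightInvariant := Hk.haar_right μ
  exact Cv.lintegral_MR_lt_top hq μ ht₁ ht₂ R hΩ

end main

end SpW.Mo
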