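import Pool.Agent.Work.MP_3615d2_al.Mo.Dom
import Pool.Agent.Work.MP_3615d2_al.Mo.TrHaar

/-!
# The kernel integral converges absolutely almost everywhere

MP_3615d2_al, multiplicity one (note 6725, G3b). `kf R` are majorants on `G × G`; the points `g` at
which all the integrals `∫ kf R (g, h) dh` are finite are the good points. Functions that are
dominated by a majorant have absolutely convergent integrals at the good points, and the integrals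
can be exchanged.
-/

open MeasureTheory Filter Topology Matrix
open scoped ENNReal NNReal

set_option linter.unusedSectionVars false

namespace SpW.Mo

namespace FubAbs

section

variable {G : Type} [MeasurableSpace G] (μ : Measure G) (kf : ℕ → G × G → ℝ≥0∞)

/-- the integral of the majorant -/
noncomputable def MR (R : ℕ) (g : G) : ℝ≥0∞ := ∫⁻ h, kf R (g, h) ∂μ

/-- the good points -/
def Good : Set G := {g | ∀ R, MR μ kf R g < ⊤}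

variable {μ kf}

theorem measurable_MR [SFinite μ] (hk : ∀ R, Measurable (kf R)) (R : ℕ) :
    Measurable (MR μ kf R) := (hk R).lintegral_prod_right'

theorem measurableSet_good [SFinite μ] (hk : ∀ R, Measurable (kf R)) :
    MeasurableSet (Good μ kf) := by
  have h : Good μ kf = ⋂ R, MR μ kf R ⁻¹' Set.Iio ⊤ := by
    ext g
    rw [Set.mem_iInter]
    rfl
  rw [h]
  exact MeasurableSet.iInter fun R => measurable_MR hk R measurableSet_Iio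

/-- Almost all points are good if the integrals of the `MR R` over the compact sets are finite. -/
theorem ae_good [TopologicalSpace G] [SigmaCompactSpace G] [SFinite μ]
    (hk : ∀ R, Measurable (kf R))
    (hfin : ∀ R, ∀ Ω : Set G, IsCompact Ω → ∫⁻ g in Ω, MR μ kf R g ∂μ < ⊤) :
    ∀ᵐ g ∂μ, g ∈ Good μ kf := by
  have h1 : ∀ R, ∀ᵐ g ∂μ, MR μ kf R g < ⊤ := by
    intro R
    have h2 : ∀ n, ∀ᵐ g ∂(μ.restrict (compactCovering G n)), MR μ kf R g < ⊤ := fun n =>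
      ae_lt_top (measurable_MR hk R) (hfin R _ (isCompact_compactCovering G n)).ne
    have h3 : ∀ᵐ g ∂(μ.restrict (⋃ n, compactCovering G n)), MR μ kf R g < ⊤ := by
      rw [ae_restrict_iUnion_iff]
      exact h2
    rwa [iUnion_compactCovering, Measure.restrict_univ] at h3
  exact ae_all_iff.2 h1

/-- Dominated functions are integrable in the second variable at the good points. -/
theorem integrable_of_good {g : G} (hg : g ∈ Good μ kf) {Gf : Set G} (hGf : MeasurableSet Gf)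
    {F : G → ℂ} (hF : AEStronglyMeasurable F (μ.restrict Gf)) {R : ℕ} {C : ℝ≥0}
    (hb : ∀ h ∈ Gf, ‖F h‖ₑ ≤ C * kf R (g, h)) : Integrable F (μ.restrict Gf) := by
  refine ⟨hF, ?_⟩
  rw [hasFiniteIntegral_iff_enorm]
  calc ∫⁻ h in Gf, ‖F h‖ₑ ∂μ ≤ ∫⁻ h in Gf, C * kf R (g, h) ∂μ :=
        setLIntegral_mono' hGf hb
    _ ≤ ∫⁻ h, C * kf R (g, h) ∂μ := setLIntegral_le_lintegral _ _
    _ = C * MR μ kf R g := by
        rw [lintegral_const_mul' _ _ ENNReal.coe_ne_top]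
        rfl
    _ < ⊤ := ENNReal.mul_lt_top ENNReal.coe_lt_top (hg R)

/-- Dominated functions times functions with compact support are integrable on the product. -/
theorem integrable_prod_of_dom [TopologicalSpace G] [SFinite μ]
    (hfin : ∀ R, ∀ Ω : Set G, IsCompact Ω → ∫⁻ g in Ω, MR μ kf R g ∂μ < ⊤)
    {Gf : Set G} (hGf : MeasurableSet Gf) {F : G × G → ℂ} (hF : Measurable F) {R : ℕ} {C : ℝ≥0}
    {f : G → ℂ} (hf : Measurable f)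
    {Ω : Set G} (hΩ : IsCompact Ω)
    (hb : ∀ g ∈ Ω, ∀ h ∈ Gf, ‖F (g, h)‖ₑ ≤ C * kf R (g, h)) (hfΩ : ∀ g, g ∉ Ω → f g = 0) {A : ℝ≥0}
    (hA : ∀ g, ‖f g‖ₑ ≤ A) :
    Integrable (fun q : G × G => f q.1 * F q) (μ.prod (μ.restrict Gf)) := by
  have hm : Measurable fun q : G × G => f q.1 * F q := (hf.comp measurable_fst).mul hF
  refine ⟨hm.aestronglyMeasurable, ?_⟩
  rw [hasFiniteIntegral_iff_enorm, lintegral_prod _ hm.enorm.aemeasurable]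
  have h1 : ∀ g, ∫⁻ h in Gf, ‖f g * F (g, h)‖ₑ ∂μ ≤ Ω.indicator (fun g => A * C * MR μ kf R g) g := by
    intro g
    by_cases hg : g ∈ Ω
    · rw [Set.indicator_of_mem hg]
      calc ∫⁻ h in Gf, ‖f g * F (g, h)‖ₑ ∂μ ≤ ∫⁻ h in Gf, (A * C : ℝ≥0∞) * kf R (g, h) ∂μ := by
            refine setLIntegral_mono' hGf fun h hh => ?_
            rw [enorm_mul, mul_assoc]
            exact mul_le_mul' (hA g) (hb g hg h hh)
        _ ≤ ∫⁻ h, (A * C : ℝ≥0∞) * kf R (g, h) ∂μ := setLIntegral_le_lintegral _ _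
        _ = A * C * MR μ kf R g := by
            rw [lintegral_const_mul' _ _ (ENNReal.mul_ne_top ENNReal.coe_ne_top
              ENNReal.coe_ne_top)]
            rfl
    · rw [Set.indicator_of_notMem hg, hfΩ g hg]
      simp
  calc ∫⁻ g, ∫⁻ h in Gf, ‖f g * F (g, h)‖ₑ ∂μ ∂μ ≤
        ∫⁻ g, Ω.indicator (fun g => A * C * MR μ kf R g) g ∂μ := lintegral_mono h1
    _ ≤ ∫⁻ g in Ω, A * C * MR μ kf R g ∂μ := lintegral_indicator_le _ _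
    _ = A * C * ∫⁻ g in Ω, MR μ kf R g ∂μ := by
        rw [lintegral_const_mul' _ _ (ENNReal.mul_ne_top ENNReal.coe_ne_top ENNReal.coe_ne_top)]
    _ < ⊤ := ENNReal.mul_lt_top (ENNReal.mul_lt_top ENNReal.coe_lt_top ENNReal.coe_lt_top)
        (hfin R Ω hΩ)

end

end FubAbs

open Dm

section conc

variable {F E : Type} [NontriviallyNormedField F] [IsUltrametricDist F] [ProperSpace F]
  [NontriviallyNormedField E] [NormedAlgebra F E] [IsUltrametricDist E] [ProperSpace E]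
  [MeasurableSpace E] [BorelSpace E] {σ : E ≃ₐ[F] E} {δ : E} {d : F} {m : ℕ}

namespace Dm

theorem continuous_sigma (σ : E ≃ₐ[F] E) : Continuous (σ : E → E) := by
  have h : FiniteDimensional F E := FiniteDimensional.of_locallyCompactSpace F
  exact σ.toLinearMap.continuous_of_finiteDimensional

theorem continuous_gram_of (hσ : Continuous (σ : E → E)) (s : Matrix (Fin m) (Fin m) E) :
    Continuous fun x : Matrix (Fin m) (Fin m) E => gram σ s x := by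
  have h1 : Continuous fun x : Matrix (Fin m) (Fin m) E => x.map σ :=
    continuous_matrix fun i j => hσ.comp (continuous_id.matrix_elem i j)
  exact (continuous_id.matrix_transpose.matrix_mul continuous_const).matrix_mul h1

theorem isClosed_MRset (σ : E ≃ₐ[F] E) (t₁ t₂ : Fin m → Eˣ) (R : ℝ) :
    IsClosed {q : GL (Fin m) E × GL (Fin m) E | q.2 ∈ MRset σ t₁ t₂ R q.1} := by
  have hg := fun s => continuous_gram_of (m := m) (continuous_sigma σ) s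
  have h1 : Continuous fun q : GL (Fin m) E × GL (Fin m) E => ad q.2 :=
    continuous_ad.comp continuous_snd
  have h2 : Continuous fun q : GL (Fin m) E × GL (Fin m) E =>
      gram σ (Dg t₁) ((q.2⁻¹ : GL (Fin m) E) : Matrix (Fin m) (Fin m) E) :=
    (hg _).comp (Units.continuous_val.comp continuous_snd.inv)
  have h3 : Continuous fun q : GL (Fin m) E × GL (Fin m) E =>
      gram σ (Dg fun i => (t₂ i)⁻¹)
        ((q.2 * q.1 : GL (Fin m) E) : Matrix (Fin m) (Fin m) E).transpose :=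
    (hg _).comp (Units.continuous_val.comp (continuous_snd.mul continuous_fst)).matrix_transpose
  refine (isClosed_le continuous_const h1).inter ((isClosed_le h1 continuous_const).inter
    (IsClosed.inter ?_ ?_))
  · have h4 : ∀ i j, IsClosed {q : GL (Fin m) E × GL (Fin m) E |
        ‖gram σ (Dg t₁) ((q.2⁻¹ : GL (Fin m) E) : Matrix (Fin m) (Fin m) E) i j‖ ≤ R} :=
      fun i j => isClosed_le (h2.matrix_elem i j).norm continuous_const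
    have h5 := isClosed_iInter fun i => isClosed_iInter fun j => h4 i j
    have h6 : {q : GL (Fin m) E × GL (Fin m) E | ∀ i j,
        ‖gram σ (Dg t₁) ((q.2⁻¹ : GL (Fin m) E) : Matrix (Fin m) (Fin m) E) i j‖ ≤ R} =
        ⋂ i, ⋂ j, {q : GL (Fin m) E × GL (Fin m) E |
        ‖gram σ (Dg t₁) ((q.2⁻¹ : GL (Fin m) E) : Matrix (Fin m) (Fin m) E) i j‖ ≤ R} := by
      ext q
      simp only [Set.mem_iInter]
      rfl
    rw [← h6] at h5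
    exact h5
  · have h4 : ∀ i j, IsClosed {q : GL (Fin m) E × GL (Fin m) E |
        ‖gram σ (Dg fun i => (t₂ i)⁻¹)
          ((q.2 * q.1 : GL (Fin m) E) : Matrix (Fin m) (Fin m) E).transpose i j‖ ≤ R} :=
      fun i j => isClosed_le (h3.matrix_elem i j).norm continuous_const
    have h5 := isClosed_iInter fun i => isClosed_iInter fun j => h4 i j
    have h6 : {q : GL (Fin m) E × GL (Fin m) E | ∀ i j,
        ‖gram σ (Dg fun i => (t₂ i)⁻¹)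
          ((q.2 * q.1 : GL (Fin m) E) : Matrix (Fin m) (Fin m) E).transpose i j‖ ≤ R} =
        ⋂ i, ⋂ j, {q : GL (Fin m) E × GL (Fin m) E |
        ‖gram σ (Dg fun i => (t₂ i)⁻¹)
          ((q.2 * q.1 : GL (Fin m) E) : Matrix (Fin m) (Fin m) E).transpose i j‖ ≤ R} := by
      ext q
      simp only [Set.mem_iInter]
      rfl
    rw [← h6] at h5
    exact h5

theorem isClosed_MRset_left (σ : E ≃ₐ[F] E) (t₁ t₂ : Fin m → Eˣ) (R : ℝ) (g : GL (Fin m) E) :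
    IsClosed (MRset σ t₁ t₂ R g) :=
  (isClosed_MRset σ t₁ t₂ R).preimage (Continuous.prodMk_right g)

theorem MRset_mono (σ : E ≃ₐ[F] E) (t₁ t₂ : Fin m → Eˣ) {R S : ℝ} (h : R ≤ S)
    (g : GL (Fin m) E) : MRset σ t₁ t₂ R g ⊆ MRset σ t₁ t₂ S g := by
  rintro x ⟨h1, h2, h3, h4⟩
  have hR : 0 < R := (ad_pos x).trans_le h2
  exact ⟨(inv_anti₀ hR h).trans h1, h2.trans h, fun i j => (h3 i j).trans h,
    fun i j => (h4 i j).trans h⟩

section meas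

variable [MeasurableSpace (GL (Fin m) E)] [BorelSpace (GL (Fin m) E)]

theorem measurable_kf (σ : E ≃ₐ[F] E) (t₁ t₂ : Fin m → Eˣ) (R : ℕ) :
    Measurable (kf σ t₁ t₂ R) := by
  have h1 : kf σ t₁ t₂ R = {q : GL (Fin m) E × GL (Fin m) E | q.2 ∈ MRset σ t₁ t₂ R q.1}.indicator
      fun q => nuV (q.2 * q.1) ^ (1 / 2 : ℝ) := by
    funext q
    rfl
  rw [h1]
  refine Measurable.indicator ?_ (isClosed_MRset σ t₁ t₂ R).measurableSet
  have h2 : Continuous fun q : GL (Fin m) E × GL (Fin m) E => nuV (q.2 * q.1) :=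
    isLocallyConstant_nuV.continuous.comp (continuous_snd.mul continuous_fst)
  exact h2.measurable.pow_const _

variable (μ : Measure (GL (Fin m) E))

theorem MR_eq (σ : E ≃ₐ[F] E) (t₁ t₂ : Fin m → Eˣ) (R : ℕ) (g : GL (Fin m) E) :
    MR μ σ t₁ t₂ R g = FubAbs.MR μ (kf σ t₁ t₂) R g := by
  unfold MR FubAbs.MR
  rw [← lintegral_indicator (isClosed_MRset_left σ t₁ t₂ R g).measurableSet]
  rfl

theorem mem_GoodG_iff (σ : E ≃ₐ[F] E) (t₁ t₂ : Fin m → Eˣ) (g : GL (Fin m) E) :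
    g ∈ GoodG μ σ t₁ t₂ ↔ g ∈ FubAbs.Good μ (kf σ t₁ t₂) := by
  constructor
  · intro h R
    rw [← MR_eq]
    exact h R
  · intro h R
    obtain ⟨n, hn⟩ := exists_nat_ge R
    have h1 := h n
    rw [← MR_eq] at h1
    exact (lintegral_mono_set (MRset_mono σ t₁ t₂ hn g)).trans_lt h1

end meas

end Dm

section ae

variable [MeasurableSpace (GL (Fin m) E)] [BorelSpace (GL (Fin m) E)]
  (μ : Measure (GL (Fin m) E)) [μ.IsHaarMeasure]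

theorem Dm.sigmaCompact_gl : SigmaCompactSpace (GL (Fin m) E) :=
  sigmaCompactSpace_of_locallyCompact_secondCountable

theorem Dm.sfinite_gl : SFinite μ := by
  have h := sigmaCompact_gl (E := E) (m := m)
  infer_instance

/-- Almost all points are good. -/
theorem goodG_ae (σ : E ≃ₐ[F] E) (t₁ t₂ : Fin m → Eˣ)
    (hloc : ∀ (R : ℝ) (Ω : Set (GL (Fin m) E)), IsCompact Ω →
      ∫⁻ g in Ω, MR μ σ t₁ t₂ R g ∂μ < ⊤) : ∀ᵐ g ∂μ, g ∈ GoodG μ σ t₁ t₂ := by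
  have h1 := sigmaCompact_gl (E := E) (m := m)
  have h2 := sfinite_gl μ
  have h3 := FubAbs.ae_good (μ := μ) (kf := kf σ t₁ t₂) (measurable_kf σ t₁ t₂) (fun R Ω hΩ => by
    have h4 := hloc R Ω hΩ
    simp only [MR_eq] at h4
    exact h4)
  filter_upwards [h3] with g hg
  exact (mem_GoodG_iff μ σ t₁ t₂ g).2 hg

/-! ### Invariance of the good set -/

theorem MR_left {t₁ t₂ : Fin m → Eˣ} (ht₁ : SkT σ t₁) {u : GL (Fin m) E}
    (hu : u ∈ unitary σ (Dg t₁)) (R : ℝ) (g : GL (Fin m) E) :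
    MR μ σ t₁ t₂ R (u * g) = MR μ σ t₁ t₂ R g := by
  have hr : μ.IsMulRightInvariant := Hk.haar_right μ
  have had := ad_of_unitary (continuous_sigma σ) ht₁.isSkew.det_ne hu
  unfold MR
  rw [← lintegral_indicator (isClosed_MRset_left σ t₁ t₂ R (u * g)).measurableSet,
    ← lintegral_indicator (isClosed_MRset_left σ t₁ t₂ R g).measurableSet,
    ← lintegral_mul_right_eq_self (fun h => (MRset σ t₁ t₂ R g).indicator
      (fun h => nuV (h * g) ^ (1 / 2 : ℝ)) h) u]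
  refine lintegral_congr fun h => ?_
  have h1 : h ∈ MRset σ t₁ t₂ R (u * g) ↔ h * u ∈ MRset σ t₁ t₂ R g := by
    have h2 : ad (h * u) = ad h := by rw [ad_mul, had, mul_one]
    have h3 : (((h * u)⁻¹ : GL (Fin m) E) : Matrix (Fin m) (Fin m) E) =
        ((u⁻¹ : GL (Fin m) E) : Matrix (Fin m) (Fin m) E) *
          ((h⁻¹ : GL (Fin m) E) : Matrix (Fin m) (Fin m) E) := by
      rw [_root_.mul_inv_rev, Units.val_mul]
    change (_ ∧ _ ∧ _ ∧ _) ↔ (_ ∧ _ ∧ _ ∧ _)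
    rw [h2, h3, gram_unit (inv_mem hu), mul_assoc]
  have h4 : h * (u * g) = h * u * g := (mul_assoc _ _ _).symm
  by_cases h5 : h * u ∈ MRset σ t₁ t₂ R g
  · rw [Set.indicator_of_mem h5, Set.indicator_of_mem (h1.2 h5), h4]
  · rw [Set.indicator_of_notMem h5, Set.indicator_of_notMem fun h => h5 (h1.1 h)]

theorem goodG_left {t₁ t₂ : Fin m → Eˣ} (ht₁ : SkT σ t₁) (u : unitary σ (Dg t₁))
    {g : GL (Fin m) E} (hg : g ∈ GoodG μ σ t₁ t₂) : u.1 * g ∈ GoodG μ σ t₁ t₂ := by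
  intro R
  rw [MR_left μ ht₁ u.2]
  exact hg R

theorem goodG_right (hσσ : ∀ x, σ (σ x) = x) {t₁ t₂ : Fin m → Eˣ} (ht₂ : SkT σ t₂)
    (u : unitary σ (Dg t₂)) {g : GL (Fin m) E} (hg : g ∈ GoodG μ σ t₁ t₂) :
    g * u.1 ∈ GoodG μ σ t₁ t₂ := by
  obtain ⟨C, hC⟩ := exists_nuV_bound (isCompact_singleton (x := (1 : GL (Fin m) E)))
    (isCompact_singleton (x := (u.1 : GL (Fin m) E)))
  have hu : gram σ (Dg fun i => (t₂ i)⁻¹) (u.1 : Matrix (Fin m) (Fin m) E).transpose =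
      Dg fun i => (t₂ i)⁻¹ := by
    ext i j
    have h1 : gram σ (Dg t₂) ((th t₂ u.1 : GL (Fin m) E) : Matrix (Fin m) (Fin m) E) = Dg t₂ :=
      unitary_gram.1 (th_mem hσσ ht₂ u.2)
    rw [gram_th ht₂, h1]
    unfold Dg
    by_cases h : i = j
    · subst h
      have h2 : σ (((t₂ i)⁻¹ : Eˣ) : E) = -(((t₂ i)⁻¹ : Eˣ) : E) := by
        rw [Units.val_inv_eq_inv_val, map_inv₀, ht₂ i, inv_neg]
      rw [Matrix.diagonal_apply_eq, Matrix.diagonal_apply_eq, h2, ← Units.val_mul, inv_mul_cancel,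
        Units.val_one, one_mul, neg_neg]
    · rw [Matrix.diagonal_apply_ne _ h, Matrix.diagonal_apply_ne _ h]
      simp
  have hset : ∀ R, MRset σ t₁ t₂ R (g * u.1) = MRset σ t₁ t₂ R g := by
    intro R
    ext h
    have h1 : ((h * (g * u.1) : GL (Fin m) E) : Matrix (Fin m) (Fin m) E).transpose =
        (u.1 : Matrix (Fin m) (Fin m) E).transpose *
          ((h * g : GL (Fin m) E) : Matrix (Fin m) (Fin m) E).transpose := by
      rw [← mul_assoc, Units.val_mul, Matrix.transpose_mul]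
    have h2 : gram σ (Dg fun i => (t₂ i)⁻¹)
        ((h * (g * u.1) : GL (Fin m) E) : Matrix (Fin m) (Fin m) E).transpose =
        gram σ (Dg fun i => (t₂ i)⁻¹)
          ((h * g : GL (Fin m) E) : Matrix (Fin m) (Fin m) E).transpose := by
      rw [h1, gram_mul, hu]
    change (_ ∧ _ ∧ _ ∧ _) ↔ (_ ∧ _ ∧ _ ∧ _)
    rw [h2]
  intro R
  unfold MR
  rw [hset]
  calc ∫⁻ h in MRset σ t₁ t₂ R g, nuV (h * (g * u.1)) ^ (1 / 2 : ℝ) ∂μ ≤
        ∫⁻ h in MRset σ t₁ t₂ R g, (C : ℝ≥0∞) ^ (1 / 2 : ℝ) * nuV (h * g) ^ (1 / 2 : ℝ) ∂μ := by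
        refine lintegral_mono fun h => ?_
        rw [← ENNReal.mul_rpow_of_nonneg _ _ (by norm_num : (0 : ℝ) ≤ 1 / 2)]
        refine ENNReal.rpow_le_rpow ?_ (by norm_num)
        have h1 := hC 1 rfl u.1 rfl (h * g)
        rwa [one_mul, mul_assoc] at h1
    _ = (C : ℝ≥0∞) ^ (1 / 2 : ℝ) * MR μ σ t₁ t₂ R g := by
        rw [lintegral_const_mul' _ _ (ENNReal.rpow_ne_top_of_nonneg (by norm_num)
          ENNReal.coe_ne_top)]
        rfl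
    _ < ⊤ := ENNReal.mul_lt_top (ENNReal.rpow_lt_top_of_nonneg (by norm_num)
        ENNReal.coe_ne_top) (hg R)

end ae

section ker

variable [MeasurableSpace (GL (Fin m) E)] [BorelSpace (GL (Fin m) E)]
  (μ : Measure (GL (Fin m) E)) [μ.IsHaarMeasure]
  {S₁ S₂ : Type} [AddCommGroup S₁] [Module ℂ S₁] [AddCommGroup S₂] [Module ℂ S₂]
  {t₁ t₂ : Fin m → Eˣ}
  {ω₁ : unitary σ (Dg t₁) →* Module.End ℂ S₁} {ω₂ : unitary σ (Dg t₂) →* Module.End ℂ S₂}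
  {χ₁ χ₂ : Eˣ → ℂ} {p : GL (Fin m) E → S₁} {r : GL (Fin m) E → S₂} {ϖ : Eˣ}

/-- The integrand is locally constant on `G × G`. -/
theorem lc_integrand (hp : IsP σ t₁ ω₁ χ₁ p) (hr : IsP σ t₂ ω₂ χ₂ r) {W : Type}
    (Q : S₁ → S₂ → W) : IsLocallyConstant fun q : GL (Fin m) E × GL (Fin m) E =>
      Q (p q.2⁻¹) (r (th t₂ (q.2 * q.1))) := by
  rw [IsLocallyConstant.iff_eventually_eq]
  intro q
  have h1 : Tendsto (fun q : GL (Fin m) E × GL (Fin m) E => q.2⁻¹) (𝓝 q) (𝓝 q.2⁻¹) :=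
    continuous_snd.inv.tendsto q
  have h2 : Tendsto (fun q : GL (Fin m) E × GL (Fin m) E => th t₂ (q.2 * q.1)) (𝓝 q)
      (𝓝 (th t₂ (q.2 * q.1))) :=
    ((continuous_th t₂).comp (continuous_snd.mul continuous_fst)).tendsto q
  filter_upwards [h1.eventually (hp.lc.eventually_eq _), h2.eventually (hr.lc.eventually_eq _)]
    with x hx1 hx2
  rw [hx1, hx2]

theorem Dm.Qsm (Q : S₁ →ₗ[ℂ] S₂ →ₗ[ℂ] ℂ) (c c' : ℂ) (a : S₁) (b : S₂) (hc : ‖c‖ = 1)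
    (hc' : ‖c'‖ = 1) : ‖Q (c • a) (c' • b)‖ₑ = ‖Q a b‖ₑ := by
  rw [LinearMap.map_smul₂, map_smul, smul_eq_mul, smul_eq_mul, enorm_mul, enorm_mul,
    enorm_eq_nnnorm c, enorm_eq_nnnorm c']
  have h1 : ‖c‖₊ = 1 := by
    apply NNReal.coe_injective
    exact hc
  have h2 : ‖c'‖₊ = 1 := by
    apply NNReal.coe_injective
    exact hc'
  rw [h1, h2, ENNReal.coe_one, one_mul, one_mul]

/-- Domination for bilinear forms. -/
theorem exists_dom_bilin (hq : QuadDatum σ δ d) (ht₁ : SkT σ t₁) (ht₂ : SkT σ t₂)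
    (hp : IsP σ t₁ ω₁ χ₁ p) (hr : IsP σ t₂ ω₂ χ₂ r) (ϖ : Eˣ) {Ω : Set (GL (Fin m) E)}
    (hΩ : IsCompact Ω) {ι : Type*} (Q : ι → S₁ →ₗ[ℂ] S₂ →ₗ[ℂ] ℂ) (N : ι → ℝ≥0∞)
    (hQ : ∀ a b, ∃ C : ℝ≥0, ∀ i (u : unitary σ (Dg t₁)) (u' : unitary σ (Dg t₂)),
      ‖Q i (ω₁ u a) (ω₂ u' b)‖ₑ ≤ C * N i * nuV u'.1 ^ (1 / 2 : ℝ)) :
    ∃ (R : ℕ) (C : ℝ≥0), ∀ i, ∀ g ∈ Ω, ∀ h ∈ Gfin m ϖ,
      ‖Q i (p h⁻¹) (r (th t₂ (h * g)))‖ₑ ≤ C * N i * kf σ t₁ t₂ R (g, h) :=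
  exists_dom hq ht₁ ht₂ hp hr ϖ hΩ (fun i a b => ‖Q i a b‖ₑ) N hQ
    (fun i c c' a b hc hc' => Qsm (Q i) c c' a b hc hc')
    (fun i b => by
      rw [map_zero, LinearMap.zero_apply, enorm_zero])
    (fun i a => by
      rw [map_zero, enorm_zero])

/-- The integrals over `Gfin` of the coefficients `Q_i(p(h⁻¹), r(θ₂(hg)))` converge absolutely for
good `g`, with a bound which is uniform in the family. -/
theorem exists_int_bound (hq : QuadDatum σ δ d) (ht₁ : SkT σ t₁) (ht₂ : SkT σ t₂)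
    (hp : IsP σ t₁ ω₁ χ₁ p) (hr : IsP σ t₂ ω₂ χ₂ r) (ϖ : Eˣ) {ι : Type*}
    (Q : ι → S₁ →ₗ[ℂ] S₂ →ₗ[ℂ] ℂ) (N : ι → ℝ≥0)
    (hQ : ∀ a b, ∃ C : ℝ≥0, ∀ i (u : unitary σ (Dg t₁)) (u' : unitary σ (Dg t₂)),
      ‖Q i (ω₁ u a) (ω₂ u' b)‖ₑ ≤ C * N i * nuV u'.1 ^ (1 / 2 : ℝ))
    {g : GL (Fin m) E} (hg : g ∈ GoodG μ σ t₁ t₂) :
    (∀ i, IntegrableOn (fun h => Q i (p h⁻¹) (r (th t₂ (h * g)))) (Gfin m ϖ) μ) ∧
      ∃ C : ℝ, 0 ≤ C ∧ ∀ i, ‖∫ h in Gfin m ϖ, Q i (p h⁻¹) (r (th t₂ (h * g))) ∂μ‖ ≤ C * N i := by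
  obtain ⟨R, C, hC⟩ := exists_dom_bilin hq ht₁ ht₂ hp hr ϖ (isCompact_singleton (x := g)) Q
    (fun i => (N i : ℝ≥0∞)) hQ
  have hgood := (mem_GoodG_iff μ σ t₁ t₂ g).1 hg
  have hGf : MeasurableSet (Gfin m ϖ : Set (GL (Fin m) E)) :=
    (isClopen_Gfin ϖ).isOpen.measurableSet
  have hb : ∀ i, ∀ h ∈ Gfin m ϖ, ‖Q i (p h⁻¹) (r (th t₂ (h * g)))‖ₑ ≤
      ((C * N i : ℝ≥0) : ℝ≥0∞) * kf σ t₁ t₂ R (g, h) := by
    intro i h hh
    rw [ENNReal.coe_mul]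
    exact hC i g rfl h hh
  constructor
  · intro i
    refine FubAbs.integrable_of_good hgood hGf ?_ (hb i)
    have h1 := (lc_integrand hp hr fun a b => Q i a b).continuous.comp (Continuous.prodMk_right g)
    exact h1.aestronglyMeasurable
  · refine ⟨(C * FubAbs.MR μ (kf σ t₁ t₂) R g).toReal, ENNReal.toReal_nonneg, fun i => ?_⟩
    have h1 : ‖∫ h in Gfin m ϖ, Q i (p h⁻¹) (r (th t₂ (h * g))) ∂μ‖ₑ ≤
        (C * N i : ℝ≥0) * FubAbs.MR μ (kf σ t₁ t₂) R g := by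
      calc ‖∫ h in Gfin m ϖ, Q i (p h⁻¹) (r (th t₂ (h * g))) ∂μ‖ₑ ≤
            ∫⁻ h in Gfin m ϖ, ‖Q i (p h⁻¹) (r (th t₂ (h * g)))‖ₑ ∂μ :=
            enorm_integral_le_lintegral_enorm _
        _ ≤ ∫⁻ h in Gfin m ϖ, ((C * N i : ℝ≥0) : ℝ≥0∞) * kf σ t₁ t₂ R (g, h) ∂μ :=
            setLIntegral_mono' hGf (hb i)
        _ ≤ ∫⁻ h, ((C * N i : ℝ≥0) : ℝ≥0∞) * kf σ t₁ t₂ R (g, h) ∂μ :=
            setLIntegral_le_lintegral _ _
        _ = _ := by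
            rw [lintegral_const_mul' _ _ ENNReal.coe_ne_top]
            rfl
    have h2 : (C * FubAbs.MR μ (kf σ t₁ t₂) R g) ≠ ⊤ :=
      ENNReal.mul_ne_top ENNReal.coe_ne_top (hgood R).ne
    have h3 : (C * N i : ℝ≥0) * FubAbs.MR μ (kf σ t₁ t₂) R g =
        (C * FubAbs.MR μ (kf σ t₁ t₂) R g) * N i := by
      rw [ENNReal.coe_mul]
      ring
    rw [h3] at h1
    have h4 := ENNReal.toReal_mono (ENNReal.mul_ne_top h2 ENNReal.coe_ne_top) h1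
    rw [ENNReal.toReal_mul, toReal_enorm, ENNReal.coe_toReal] at h4
    exact h4

/-- the integrand of the kernel as a bilinear form -/
noncomputable def kerQ (β₁ : S₁ →ₗ[ℂ] S₁ →ₗ[ℂ] ℂ) (β₂ : S₂ →ₗ[ℂ] S₂ →ₗ[ℂ] ℂ) (c' : S₂) (b : S₁) :
    S₁ →ₗ[ℂ] S₂ →ₗ[ℂ] ℂ :=
  LinearMap.mk₂ ℂ (fun x y => β₁ x b * β₂ y c')
    (fun x x' y => by rw [LinearMap.map_add₂, add_mul])
    (fun c x y => by rw [LinearMap.map_smul₂, smul_mul_assoc])
    (fun x y y' => by rw [LinearMap.map_add₂, mul_add])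
    (fun c x y => by rw [LinearMap.map_smul₂, mul_smul_comm])

theorem kerQ_apply (β₁ : S₁ →ₗ[ℂ] S₁ →ₗ[ℂ] ℂ) (β₂ : S₂ →ₗ[ℂ] S₂ →ₗ[ℂ] ℂ) (c' : S₂) (b : S₁)
    (x : S₁) (y : S₂) : kerQ β₁ β₂ c' b x y = β₁ x b * β₂ y c' := rfl

theorem Dm.exists_nnreal {C : ℝ≥0∞} (hC : C ≠ ⊤) : ∃ c : ℝ≥0, (c : ℝ≥0∞) = C :=
  ⟨C.toNNReal, ENNReal.coe_toNNReal hC⟩

theorem kerQ_bound {β₁ : S₁ →ₗ[ℂ] S₁ →ₗ[ℂ] ℂ} {β₂ : S₂ →ₗ[ℂ] S₂ →ₗ[ℂ] ℂ}
    (hbd₁ : BetaBd σ t₁ ω₁ β₁) (hbd₂ : BetaBd σ t₂ ω₂ β₂) (c' : S₂) (b : S₁) (x : S₁) (y : S₂) :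
    ∃ C : ℝ≥0, ∀ (_ : Unit) (u : unitary σ (Dg t₁)) (u' : unitary σ (Dg t₂)),
      ‖kerQ β₁ β₂ c' b (ω₁ u x) (ω₂ u' y)‖ₑ ≤ C * (1 : ℝ≥0) * nuV u'.1 ^ (1 / 2 : ℝ) := by
  obtain ⟨C₁, h1, h2⟩ := hbd₁ x b
  obtain ⟨C₂, h3, h4⟩ := hbd₂ y c'
  set V : ℝ≥0∞ := (Measure.addHaar : Measure (Fin m → E)) (Metric.closedBall 0 1) with hV
  have hV' : V ≠ ⊤ := (isCompact_closedBall (0 : Fin m → E) 1).measure_lt_top.ne
  obtain ⟨C, hC⟩ := exists_nnreal (ENNReal.mul_ne_top (ENNReal.mul_ne_top h1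
    (ENNReal.rpow_ne_top_of_nonneg (by norm_num : (0 : ℝ) ≤ 1 / 2) hV')) h3)
  refine ⟨C, fun _ u u' => ?_⟩
  rw [kerQ_apply, enorm_mul, hC, ENNReal.coe_one, mul_one]
  have h5 := h2 u
  have h6 := h4 u'
  rw [ofReal_norm] at h5 h6
  calc ‖β₁ (ω₁ u x) b‖ₑ * ‖β₂ (ω₂ u' y) c'‖ₑ ≤
        (C₁ * nuV u.1 ^ (1 / 2 : ℝ)) * (C₂ * nuV u'.1 ^ (1 / 2 : ℝ)) := mul_le_mul' h5 h6
    _ ≤ (C₁ * V ^ (1 / 2 : ℝ)) * (C₂ * nuV u'.1 ^ (1 / 2 : ℝ)) :=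
        mul_le_mul' (mul_le_mul' le_rfl (ENNReal.rpow_le_rpow (nuV_le u.1) (by norm_num))) le_rfl
    _ = _ := by ring

/-- G3b. Domination, uniform for `g` in a compact set. -/
theorem ker_dom (hq : QuadDatum σ δ d) (ht₁ : SkT σ t₁) (ht₂ : SkT σ t₂)
    (hp : IsP σ t₁ ω₁ χ₁ p) (hr : IsP σ t₂ ω₂ χ₂ r)
    {β₁ : S₁ →ₗ[ℂ] S₁ →ₗ[ℂ] ℂ} {β₂ : S₂ →ₗ[ℂ] S₂ →ₗ[ℂ] ℂ}
    (hbd₁ : BetaBd σ t₁ ω₁ β₁) (hbd₂ : BetaBd σ t₂ ω₂ β₂)
    (Ω : Set (GL (Fin m) E)) (hΩ : IsCompact Ω) (c' : S₂) (b : S₁) :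
    ∃ (C : ENNReal) (R : ℝ), C ≠ ⊤ ∧ ∀ g ∈ Ω, ∀ h ∈ Gfin m ϖ,
      ENNReal.ofReal ‖β₁ (p h⁻¹) b * β₂ (r (th t₂ (h * g))) c'‖ ≤
        C * (MRset σ t₁ t₂ R g).indicator (fun h => nuV (h * g) ^ (1 / 2 : ℝ)) h := by
  obtain ⟨R, C, hC⟩ := exists_dom_bilin hq ht₁ ht₂ hp hr ϖ hΩ (fun _ : Unit => kerQ β₁ β₂ c' b)
    (fun _ => ((1 : ℝ≥0) : ℝ≥0∞)) (kerQ_bound hbd₁ hbd₂ c' b)
  refine ⟨C, R, ENNReal.coe_ne_top, fun g hg h hh => ?_⟩
  have h1 := hC () g hg h hh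
  rw [ENNReal.coe_one, mul_one, kerQ_apply] at h1
  rw [ofReal_norm]
  exact h1

/-- G3b. The kernel integral converges absolutely for good `g`. -/
theorem ker_integrable (hq : QuadDatum σ δ d) (ht₁ : SkT σ t₁) (ht₂ : SkT σ t₂)
    (hp : IsP σ t₁ ω₁ χ₁ p) (hr : IsP σ t₂ ω₂ χ₂ r)
    {β₁ : S₁ →ₗ[ℂ] S₁ →ₗ[ℂ] ℂ} {β₂ : S₂ →ₗ[ℂ] S₂ →ₗ[ℂ] ℂ}
    (hbd₁ : BetaBd σ t₁ ω₁ β₁) (hbd₂ : BetaBd σ t₂ ω₂ β₂)
    {g : GL (Fin m) E} (hg : g ∈ GoodG μ σ t₁ t₂) (c' : S₂) (b : S₁) :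
    IntegrableOn (fun h => β₁ (p h⁻¹) b * β₂ (r (th t₂ (h * g))) c') (Gfin m ϖ) μ :=
  (exists_int_bound μ hq ht₁ ht₂ hp hr ϖ (fun _ : Unit => kerQ β₁ β₂ c' b) (fun _ => 1)
    (kerQ_bound hbd₁ hbd₂ c' b) hg).1 ()

/-- Exchange of the integrations, general form. -/
theorem fubini_bilin (hq : QuadDatum σ δ d) (ht₁ : SkT σ t₁) (ht₂ : SkT σ t₂)
    (hp : IsP σ t₁ ω₁ χ₁ p) (hr : IsP σ t₂ ω₂ χ₂ r)
    (hloc : ∀ (R : ℝ) (Ω : Set (GL (Fin m) E)), IsCompact Ω →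
      ∫⁻ g in Ω, MR μ σ t₁ t₂ R g ∂μ < ⊤)
    (Q : S₁ →ₗ[ℂ] S₂ →ₗ[ℂ] ℂ)
    (hQ : ∀ a b, ∃ C : ℝ≥0, ∀ (_ : Unit) (u : unitary σ (Dg t₁)) (u' : unitary σ (Dg t₂)),
      ‖Q (ω₁ u a) (ω₂ u' b)‖ₑ ≤ C * (1 : ℝ≥0) * nuV u'.1 ^ (1 / 2 : ℝ))
    (f : Sch (GL (Fin m) E) ℂ) :
    ∫ g, ∫ h in Gfin m ϖ, f.1 g * Q (p h⁻¹) (r (th t₂ (h * g))) ∂μ ∂μ =
      ∫ h in Gfin m ϖ, ∫ g, f.1 g * Q (p h⁻¹) (r (th t₂ (h * g))) ∂μ ∂μ := by
  have hsf := sfinite_gl μ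
  obtain ⟨hflc, Ω, hΩ, hf0⟩ := f.2
  obtain ⟨R, C, hC⟩ := exists_dom_bilin hq ht₁ ht₂ hp hr ϖ hΩ (fun _ : Unit => Q)
    (fun _ => ((1 : ℝ≥0) : ℝ≥0∞)) hQ
  obtain ⟨A, hA⟩ := hΩ.exists_bound_of_continuousOn hflc.continuous.continuousOn
  have hA' : ∀ g, ‖f.1 g‖ₑ ≤ (A.toNNReal : ℝ≥0) := by
    intro g
    rw [enorm_eq_nnnorm]
    refine ENNReal.coe_le_coe.2 ?_
    by_cases hg : g ∈ Ω
    · rw [← NNReal.coe_le_coe, coe_nnnorm]
      exact (hA g hg).trans (Real.le_coe_toNNReal A)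
    · rw [hf0 g hg, nnnorm_zero]
      exact zero_le
  have hGf : MeasurableSet (Gfin m ϖ : Set (GL (Fin m) E)) :=
    (isClopen_Gfin ϖ).isOpen.measurableSet
  refine integral_integral_swap (f := fun g h => f.1 g * Q (p h⁻¹) (r (th t₂ (h * g)))) ?_
  exact FubAbs.integrable_prod_of_dom (μ := μ) (kf := kf σ t₁ t₂) (R := R) (C := C)
    (fun R Ω hΩ => by
      have h4 := hloc R Ω hΩ
      simp only [MR_eq] at h4
      exact h4) hGf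
    (F := fun q => Q (p q.2⁻¹) (r (th t₂ (q.2 * q.1))))
    (lc_integrand hp hr fun a b => Q a b).continuous.measurable hflc.continuous.measurable hΩ
    (fun g hg h hh => by
      have h1 := hC () g hg h hh
      rw [ENNReal.coe_one, mul_one] at h1
      exact h1) hf0 hA'

/-- G3b. Exchange of the integrations in the kernel identity. -/
theorem ker_fubini (hq : QuadDatum σ δ d) (ht₁ : SkT σ t₁) (ht₂ : SkT σ t₂)
    (hp : IsP σ t₁ ω₁ χ₁ p) (hr : IsP σ t₂ ω₂ χ₂ r)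
    {β₁ : S₁ →ₗ[ℂ] S₁ →ₗ[ℂ] ℂ} {β₂ : S₂ →ₗ[ℂ] S₂ →ₗ[ℂ] ℂ}
    (hbd₁ : BetaBd σ t₁ ω₁ β₁) (hbd₂ : BetaBd σ t₂ ω₂ β₂)
    (hloc : ∀ (R : ℝ) (Ω : Set (GL (Fin m) E)), IsCompact Ω →
      ∫⁻ g in Ω, MR μ σ t₁ t₂ R g ∂μ < ⊤)
    (f : Sch (GL (Fin m) E) ℂ) (c' : S₂) (b : S₁) :
    ∫ g, f.1 g * Dker μ ϖ t₂ β₁ β₂ p r g c' b ∂μ =
      ∫ h in Gfin m ϖ, β₁ (p h⁻¹) b * ∫ g, f.1 g * β₂ (r (th t₂ (h * g))) c' ∂μ ∂μ := by
  have h1 := fubini_bilin μ (ϖ := ϖ) hq ht₁ ht₂ hp hr hloc (kerQ β₁ β₂ c' b)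
    (kerQ_bound hbd₁ hbd₂ c' b) f
  simp only [kerQ_apply] at h1
  calc ∫ g, f.1 g * Dker μ ϖ t₂ β₁ β₂ p r g c' b ∂μ =
        ∫ g, ∫ h in Gfin m ϖ, f.1 g * (β₁ (p h⁻¹) b * β₂ (r (th t₂ (h * g))) c') ∂μ ∂μ := by
        refine integral_congr_ae (Eventually.of_forall fun g => ?_)
        exact (integral_const_mul _ _).symm
    _ = ∫ h in Gfin m ϖ, ∫ g, f.1 g * (β₁ (p h⁻¹) b * β₂ (r (th t₂ (h * g))) c') ∂μ ∂μ := h1
    _ = _ := by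
        refine integral_congr_ae (Eventually.of_forall fun h => ?_)
        change ∫ g, f.1 g * (β₁ (p h⁻¹) b * β₂ (r (th t₂ (h * g))) c') ∂μ =
          β₁ (p h⁻¹) b * ∫ g, f.1 g * β₂ (r (th t₂ (h * g))) c' ∂μ
        rw [← integral_const_mul]
        refine integral_congr_ae (Eventually.of_forall fun g => ?_)
        change f.1 g * (β₁ (p h⁻¹) b * β₂ (r (th t₂ (h * g))) c') =
          β₁ (p h⁻¹) b * (f.1 g * β₂ (r (th t₂ (h * g))) c')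
        ring

end ker

end conc

end SpW.Mo
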