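import Pool.Agent.Work.MP_3615d2_al.Mo.Tame
import Pool.Agent.Work.MP_3615d2_al.Mo.TrHaar
import Pool.Agent.Work.MP_3615d2_al.Mo.Fub
import Pool.Agent.Work.MP_3615d2_al.DualNorm

/-!
MP_3615d2_al, multiplicity one (note 6725, G3): the kernel identity and the two rules.
-/

open MeasureTheory Filter Topology Matrix

set_option linter.unusedSectionVars false

namespace SpW.Mo

variable {F E : Type} [NontriviallyNormedField F] [IsUltrametricDist F] [ProperSpace F]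
  [NontriviallyNormedField E] [NormedAlgebra F E] [IsUltrametricDist E] [ProperSpace E]
  [MeasurableSpace E] [BorelSpace E]
  {m : ℕ} {V S S₁ S₂ : Type} [AddCommGroup V] [Module ℂ V] [AddCommGroup S] [Module ℂ S]
  [AddCommGroup S₁] [Module ℂ S₁] [AddCommGroup S₂] [Module ℂ S₂]
  {σ : E ≃ₐ[F] E} {δ : E} {d : F} {t t₁ t₂ : Fin m → Eˣ}

section int

variable [MeasurableSpace (GL (Fin m) E)] [BorelSpace (GL (Fin m) E)]
  (μ : Measure (GL (Fin m) E)) [μ.IsHaarMeasure]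
  {ρ₁ : (Fin m → E) → Module.End ℂ S₁} {ω₁ : unitary σ (Dg t₁) →* Module.End ℂ S₁}
  {ρ₂ : (Fin m → E) → Module.End ℂ S₂} {ω₂ : unitary σ (Dg t₂) →* Module.End ℂ S₂}
  {β₁ : S₁ →ₗ[ℂ] S₁ →ₗ[ℂ] ℂ} {β₂ : S₂ →ₗ[ℂ] S₂ →ₗ[ℂ] ℂ} {χ : Eˣ → ℂ}
  {p : GL (Fin m) E → S₁} {r : GL (Fin m) E → S₂} {ϖ : Eˣ}

/-- right translation by an element with `|det| = 1` preserves integrals over `Gfin` -/
theorem setInt_right_of_ad {k : GL (Fin m) E} (hk : ad k = 1) (F : GL (Fin m) E → ℂ) :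
    ∫ g in Gfin m ϖ, F (g * k) ∂μ = ∫ g in Gfin m ϖ, F g ∂μ := by
  have hr : μ.IsMulRightInvariant := haar_right' μ
  have h3 := (measurePreserving_mul_right μ k).setIntegral_preimage_emb
    (MeasurableEquiv.mulRight k).measurableEmbedding F (Gfin m ϖ)
  rw [← h3]
  congr 2
  ext g
  refine mem_Gfin_of_ad ?_
  change ad g = ad (g * k)
  rw [ad_mul, hk, mul_one]

theorem Dker_left (hq : QuadDatum σ δ d) (ht₁ : SkT σ t₁) (hβ₁ : IsBeta σ t₁ ρ₁ ω₁ β₁)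
    (hp : IsP σ t₁ ω₁ χ p) (u u' : unitary σ (Dg t₁)) (hu : u'.1 = th t₁ u.1)
    (g : GL (Fin m) E) (c' : S₂) (b : S₁) :
    Dker μ ϖ t₂ β₁ β₂ p r (u.1 * g) c' b = Dker μ ϖ t₂ β₁ β₂ p r g c' (ω₁ u' b) := by
  unfold Dker
  rw [← setInt_right_of_ad μ (k := u.1⁻¹) (by
    rw [ad_inv, ad_unitary hq ht₁.isSkew.det_ne u.2, inv_one])]
  refine integral_congr_ae (Eventually.of_forall fun h => ?_)
  change β₁ (p (h * u.1⁻¹)⁻¹) b * β₂ (r (th t₂ (h * u.1⁻¹ * (u.1 * g)))) c' =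
    β₁ (p h⁻¹) (ω₁ u' b) * β₂ (r (th t₂ (h * g))) c'
  have h1 : (h * u.1⁻¹)⁻¹ = u.1 * h⁻¹ := by group
  have h2 : h * u.1⁻¹ * (u.1 * g) = h * g := by group
  rw [h1, h2, hp.left, hβ₁.om u u' hu]

theorem Dker_right (hq : QuadDatum σ δ d) (ht₂ : SkT σ t₂) (hβ₂ : IsBeta σ t₂ ρ₂ ω₂ β₂)
    (hr : IsP σ t₂ ω₂ χ r) (u : unitary σ (Dg t₂))
    (g : GL (Fin m) E) (c' : S₂) (b : S₁) :
    Dker μ ϖ t₂ β₁ β₂ p r (g * u.1) c' b = Dker μ ϖ t₂ β₁ β₂ p r g (ω₂ u c') b := by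
  unfold Dker
  refine integral_congr_ae (Eventually.of_forall fun h => ?_)
  have hσσ : ∀ x, σ (σ x) = x := sig_sig hq
  have h2 : th t₂ (h * (g * u.1)) = (thU hσσ ht₂ u).1 * th t₂ (h * g) := by
    rw [← mul_assoc, th_mul]
    rfl
  change β₁ (p h⁻¹) b * β₂ (r (th t₂ (h * (g * u.1)))) c' =
    β₁ (p h⁻¹) b * β₂ (r (th t₂ (h * g))) (ω₂ u c')
  rw [h2, hr.left, hβ₂.om (thU hσσ ht₂ u) u (th_th t₂ u.1).symm]

/-! ### The operator form of the kernel (one form) -/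

/-- `D(g)(A) = ∫_{Gfin} β(A p(h⁻¹), r(θ(hg))) dh` for an operator `A` -/
noncomputable def Dop (μ : Measure (GL (Fin m) E)) (ϖ : Eˣ) (t : Fin m → Eˣ)
    (β : S →ₗ[ℂ] S →ₗ[ℂ] ℂ) (p r : GL (Fin m) E → S) (g : GL (Fin m) E)
    (A : Module.End ℂ S) : ℂ :=
  ∫ h in Gfin m ϖ, β (A (p h⁻¹)) (r (th t (h * g))) ∂μ

theorem Dop_rank_one {β : S →ₗ[ℂ] S →ₗ[ℂ] ℂ} (hs : ∀ a b, β a b = β b a)
    {p r : GL (Fin m) E → S} (g : GL (Fin m) E) (c' b : S) :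
    Dop μ ϖ t β p r g ((β.flip b).smulRight c') = Dker μ ϖ t β β p r g c' b := by
  unfold Dop Dker
  refine integral_congr_ae (Eventually.of_forall fun h => ?_)
  change β (β (p h⁻¹) b • c') (r (th t (h * g))) = β (p h⁻¹) b * β (r (th t (h * g))) c'
  rw [map_smul, LinearMap.smul_apply, smul_eq_mul, hs c']

theorem Dop_left (hq : QuadDatum σ δ d) (ht : SkT σ t) {ω : unitary σ (Dg t) →* Module.End ℂ S}
    {β : S →ₗ[ℂ] S →ₗ[ℂ] ℂ} {p r : GL (Fin m) E → S} (hp : IsP σ t ω χ p)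
    (u : unitary σ (Dg t)) (g : GL (Fin m) E) (A : Module.End ℂ S) :
    Dop μ ϖ t β p r (u.1 * g) A = Dop μ ϖ t β p r g (A * ω u) := by
  unfold Dop
  rw [← setInt_right_of_ad μ (k := u.1⁻¹) (by
    rw [ad_inv, ad_unitary hq ht.isSkew.det_ne u.2, inv_one])]
  refine integral_congr_ae (Eventually.of_forall fun h => ?_)
  change β (A (p (h * u.1⁻¹)⁻¹)) (r (th t (h * u.1⁻¹ * (u.1 * g)))) =
    β (A (ω u (p h⁻¹))) (r (th t (h * g)))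
  have h1 : (h * u.1⁻¹)⁻¹ = u.1 * h⁻¹ := by group
  have h2 : h * u.1⁻¹ * (u.1 * g) = h * g := by group
  rw [h1, h2, hp.left]

theorem Dop_right (hq : QuadDatum σ δ d) (ht : SkT σ t)
    {ρ : (Fin m → E) → Module.End ℂ S} {ω : unitary σ (Dg t) →* Module.End ℂ S}
    {β : S →ₗ[ℂ] S →ₗ[ℂ] ℂ} (hβ : IsBeta σ t ρ ω β) {p r : GL (Fin m) E → S}
    (hr : IsP σ t ω χ r) (u : unitary σ (Dg t)) (g : GL (Fin m) E) (A : Module.End ℂ S) :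
    Dop μ ϖ t β p r (g * u.1) A = Dop μ ϖ t β p r g (ω u * A) := by
  unfold Dop
  refine integral_congr_ae (Eventually.of_forall fun h => ?_)
  have hσσ : ∀ x, σ (σ x) = x := sig_sig hq
  have h2 : th t (h * (g * u.1)) = (thU hσσ ht u).1 * th t (h * g) := by
    rw [← mul_assoc, th_mul]
    rfl
  change β (A (p h⁻¹)) (r (th t (h * (g * u.1)))) = β (ω u (A (p h⁻¹))) (r (th t (h * g)))
  rw [h2, hr.left, hβ.om u (thU hσσ ht u) rfl]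

/-! ### The kernel identity -/

/-- the adjoint of `π(f)`, `π(f) = B(·, v₂) w₁` -/
theorem adj_identity {π : GL (Fin m) E →* Module.End ℂ V} (hπ : IsSmoothRep π)
    (B : V →ₗ[ℂ] V →ₗ[ℂ] ℂ) (hB1 : ∀ b, (∀ a, B a b = 0) → b = 0)
    (hB : ∀ g a b, B (π g a) b = B a (π (th t g) b))
    (w₁ v₂ : V) (f : Sch (GL (Fin m) E) ℂ) (hf : ∀ w, Hk.hk μ hπ f w = B w v₂ • w₁)
    (y : V) (ξ : V →ₗ[ℂ] ℂ) :
    ∫ g, f.1 g * ξ (π (th t g) y) ∂μ = B w₁ y * ξ v₂ := by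
  have hlc : IsLocallyConstant fun g : GL (Fin m) E => π (th t g) y :=
    (Hk.orbit_lc hπ y).comp_continuous (continuous_th t)
  let Φ : Sch (GL (Fin m) E) V := ⟨fun g => f.1 g • π (th t g) y, by
    obtain ⟨h1, K, hK, h2⟩ := f.2
    refine ⟨?_, K, hK, fun x hx => ?_⟩
    · rw [IsLocallyConstant.iff_eventually_eq] at h1 hlc ⊢
      intro x
      filter_upwards [h1 x, hlc x] with y hy1 hy2
      rw [hy1, hy2]
    · change f.1 x • π (th t x) y = 0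
      rw [h2 x hx, zero_smul]⟩
  have h1 : schI μ Φ = B w₁ y • v₂ := by
    rw [← sub_eq_zero]
    refine hB1 _ fun a => ?_
    rw [map_sub, map_smul, smul_eq_mul, schI_dual, sub_eq_zero]
    have h2 := schI_dual μ (Hk.hkf hπ f a) (B.flip y)
    rw [← Hk.hk_apply, hf, map_smul, smul_eq_mul, LinearMap.flip_apply] at h2
    rw [mul_comm, h2]
    refine integral_congr_ae (Eventually.of_forall fun g => ?_)
    change B a (f.1 g • π (th t g) y) = B (f.1 g • π g a) y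
    rw [map_smul, map_smul, LinearMap.smul_apply, hB]
  have h3 := schI_dual μ Φ ξ
  rw [h1, map_smul, smul_eq_mul] at h3
  rw [h3]
  refine integral_congr_ae (Eventually.of_forall fun g => ?_)
  change f.1 g * ξ (π (th t g) y) = ξ (f.1 g • π (th t g) y)
  rw [map_smul, smul_eq_mul]

/-- G3. The kernel identity, given Fubini. -/
theorem ker_identity_aux
    {π : GL (Fin m) E →* Module.End ℂ V} (hπ : IsSmoothRep π)
    (B : V →ₗ[ℂ] V →ₗ[ℂ] ℂ) (hB1 : ∀ b, (∀ a, B a b = 0) → b = 0)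
    (hB : ∀ g a b, B (π g a) b = B a (π (th t₂ g) b))
    {w' v₁ : V} (hS : ∀ w (ξ : V →ₗ[ℂ] ℂ),
      ∫ h in Gfin m ϖ, B (π h w) v₁ * ξ (π h⁻¹ w') ∂μ = ξ w)
    (lam₁ : V →ₗ[ℂ] S₁) (lam₂ : V →ₗ[ℂ] S₂)
    (w₁ v₂ : V) (f : Sch (GL (Fin m) E) ℂ) (hf : ∀ w, Hk.hk μ hπ f w = B w v₂ • w₁)
    (c' : S₂) (b : S₁)
    (hfub : ∫ g, f.1 g * Dker μ ϖ t₂ β₁ β₂ (fun g => lam₁ (π g w')) (fun g => lam₂ (π g v₁))
        g c' b ∂μ =
      ∫ h in Gfin m ϖ, β₁ (lam₁ (π h⁻¹ w')) b *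
        ∫ g, f.1 g * β₂ (lam₂ (π (th t₂ (h * g)) v₁)) c' ∂μ ∂μ) :
    ∫ g, f.1 g * Dker μ ϖ t₂ β₁ β₂ (fun g => lam₁ (π g w')) (fun g => lam₂ (π g v₁)) g c' b ∂μ =
      β₁ (lam₁ w₁) b * β₂ (lam₂ v₂) c' := by
  rw [hfub]
  have h1 : ∀ h, ∫ g, f.1 g * β₂ (lam₂ (π (th t₂ (h * g)) v₁)) c' ∂μ =
      B (π h w₁) v₁ * β₂ (lam₂ v₂) c' := by
    intro h
    have h2 := adj_identity μ hπ B hB1 hB w₁ v₂ f hf (π (th t₂ h) v₁)
      ((β₂.flip c').comp lam₂)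
    rw [hB, ← show ((β₂.flip c').comp lam₂) v₂ = β₂ (lam₂ v₂) c' from rfl, ← h2]
    refine integral_congr_ae (Eventually.of_forall fun g => ?_)
    change f.1 g * β₂ (lam₂ (π (th t₂ (h * g)) v₁)) c' =
      f.1 g * β₂ (lam₂ (π (th t₂ g) (π (th t₂ h) v₁))) c'
    rw [th_mul, map_mul, Module.End.mul_apply]
  simp_rw [h1]
  have h3 := hS w₁ ((β₁.flip b).comp lam₁)
  change _ = β₁ (lam₁ w₁) b at h3
  rw [← h3, ← integral_mul_const]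
  refine integral_congr_ae (Eventually.of_forall fun h => ?_)
  change β₁ (lam₁ (π h⁻¹ w')) b * (B (π h w₁) v₁ * β₂ (lam₂ v₂) c') =
    B (π h w₁) v₁ * β₁ (lam₁ (π h⁻¹ w')) b * β₂ (lam₂ v₂) c'
  ring

/-- G3. The kernel identity. -/
theorem ker_identity (hq : QuadDatum σ δ d) (ht₁ : SkT σ t₁) (ht₂ : SkT σ t₂)
    {π : GL (Fin m) E →* Module.End ℂ V} (hπ : IsSmoothRep π)
    (B : V →ₗ[ℂ] V →ₗ[ℂ] ℂ) (hB1 : ∀ b, (∀ a, B a b = 0) → b = 0)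
    (hB : ∀ g a b, B (π g a) b = B a (π (th t₂ g) b))
    {w' v₁ : V} (hS : ∀ w (ξ : V →ₗ[ℂ] ℂ),
      ∫ h in Gfin m ϖ, B (π h w) v₁ * ξ (π h⁻¹ w') ∂μ = ξ w)
    (lam₁ : V →ₗ[ℂ] S₁) (lam₂ : V →ₗ[ℂ] S₂)
    (hp : IsP σ t₁ ω₁ χ (fun g => lam₁ (π g w'))) (hr : IsP σ t₂ ω₂ χ (fun g => lam₂ (π g v₁)))
    (hbd₁ : BetaBd σ t₁ ω₁ β₁) (hbd₂ : BetaBd σ t₂ ω₂ β₂)
    (hloc : ∀ (R : ℝ) (Ω : Set (GL (Fin m) E)), IsCompact Ω →
      ∫⁻ g in Ω, MR μ σ t₁ t₂ R g ∂μ < ⊤)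
    (w₁ v₂ : V) (f : Sch (GL (Fin m) E) ℂ) (hf : ∀ w, Hk.hk μ hπ f w = B w v₂ • w₁)
    (c' : S₂) (b : S₁) :
    ∫ g, f.1 g * Dker μ ϖ t₂ β₁ β₂ (fun g => lam₁ (π g w')) (fun g => lam₂ (π g v₁)) g c' b ∂μ =
      β₁ (lam₁ w₁) b * β₂ (lam₂ v₂) c' :=
  ker_identity_aux μ hπ B hB1 hB hS lam₁ lam₂ w₁ v₂ f hf c' b
    (ker_fubini μ hq ht₁ ht₂ hp hr hbd₁ hbd₂ hloc f c' b)

end int

end SpW.Mo
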