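import Pool.Agent.Work.MP_3615d2_al.Mo.Fin
import Pool.Agent.Work.MP_3615d2_al.Mo.TrHaar
import Pool.Agent.Work.MP_3615d2_al.HkDens

/-!
MP_3615d2_al, multiplicity one (note 6725, G1): Schur orthogonality for cuspidal representations
of `GL_m(E)` with unitary central character.
-/

open MeasureTheory Filter Topology
open scoped ComplexConjugate

namespace SpW.Mo

set_option linter.unusedSectionVars false

variable {E : Type} [NontriviallyNormedField E] [IsUltrametricDist E] [ProperSpace E]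
  [MeasurableSpace E] [BorelSpace E] {m : ℕ} {V : Type} [AddCommGroup V] [Module ℂ V]
  {π : GL (Fin m) E →* Module.End ℂ V} {l : V →ₗ[ℂ] V →ₗ[ℂ] ℂ}

/-- matrix coefficients are given by smooth functionals -/
theorem flip_mem (hπ : IsSmoothRep π)
    (hlG : ∀ g v w, l (π g v) (π (trGL g⁻¹) w) = l v w) (v : V) : l.flip v ∈ gDual π := by
  have h1 : Tendsto (trGL : GL (Fin m) E → GL (Fin m) E) (𝓝 1) (𝓝 1) := by
    have h2 := continuous_trGL (n := Fin m) (K := E)
    have h3 := h2.tendsto 1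
    rwa [trGL_one] at h3
  have h4 : ∀ᶠ g in 𝓝 (1 : GL (Fin m) E), ∀ w, l.flip v (π g w) = l.flip v w := by
    filter_upwards [h1.eventually (hπ v)] with g hg w
    rw [LinearMap.flip_apply, LinearMap.flip_apply, gk_pairing_mul hlG, hg]
  exact h4

theorem inv_lc (hπ : IsSmoothRep π) (v : V) : IsLocallyConstant (fun g => π g⁻¹ v) :=
  (Hk.orbit_lc hπ v).comp_continuous continuous_inv

theorem tr_lc (hπ : IsSmoothRep π) (v : V) : IsLocallyConstant (fun g => π (trGL g) v) :=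
  (Hk.orbit_lc hπ v).comp_continuous continuous_trGL

theorem lc_smul {X S : Type} [TopologicalSpace X] [AddCommGroup S] [Module ℂ S] {a : X → ℂ}
    {b : X → S} (ha : IsLocallyConstant a) (hb : IsLocallyConstant b) :
    IsLocallyConstant fun x => a x • b x := by
  rw [IsLocallyConstant.iff_eventually_eq] at ha hb ⊢
  intro x
  filter_upwards [ha x, hb x] with y h1 h2
  rw [h1, h2]

theorem cptMod_of {G : Type} [Group G] [TopologicalSpace G] {Z : Subgroup G} {W W' : Type}
    [Zero W] [Zero W'] {F : G → W} {F' : G → W'} (hF : CptMod Z F) (h : ∀ g, F g = 0 → F' g = 0) :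
    CptMod Z F' := by
  obtain ⟨C, hC, h1⟩ := hF
  exact ⟨C, hC, fun g hg => h1 g fun h0 => hg (h g h0)⟩

/-- the matrix coefficients of a cuspidal representation -/
theorem coef_cpt (hπ : IsSmoothRep π) (hc : IsCusp π)
    (hlG : ∀ g v w, l (π g v) (π (trGL g⁻¹) w) = l v w) (w v : V) :
    CptMod (scalZ m E) (fun g => l (π g w) v) :=
  hc.hasHC hπ w _ (flip_mem hπ hlG v)

theorem coef_lc (hπ : IsSmoothRep π) (w v : V) : IsLocallyConstant (fun g => l (π g w) v) :=
  (Hk.orbit_lc hπ w).comp fun x => l x v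

section int

variable [MeasurableSpace (GL (Fin m) E)] [BorelSpace (GL (Fin m) E)]
  (μ : Measure (GL (Fin m) E)) [IsFiniteMeasureOnCompacts μ]

/-- the operator `w ↦ ∫_{G/Z} l(π(h) w, v) π(h⁻¹) w' dh` -/
noncomputable def orthOp (hm : 0 < m) (z : Eˣ) (hπ : IsSmoothRep π) (hc : IsCusp π)
    (hlG : ∀ g v w, l (π g v) (π (trGL g⁻¹) w) = l v w) (v w' : V) : V →ₗ[ℂ] V where
  toFun w := schI μ (finSch hm z (lc_smul (coef_lc (l := l) hπ w v) (inv_lc hπ w'))
    (cptMod_of (coef_cpt hπ hc hlG w v) fun g hg => by rw [hg, zero_smul]))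
  map_add' a b := by
    refine dual_ext fun ξ => ?_
    rw [map_add, finSch_int, finSch_int, finSch_int, ← integral_add]
    · refine integral_congr_ae (Eventually.of_forall fun g => ?_)
      simp only [map_add, LinearMap.add_apply, add_smul]
    · exact fin_integrableOn hm z ((lc_smul (coef_lc (l := l) hπ a v) (inv_lc hπ w')).comp ξ)
        (cptMod_of (coef_cpt hπ hc hlG a v) fun g hg => by
          simp only [Function.comp_apply, hg, zero_smul, map_zero]) μ
    · exact fin_integrableOn hm z ((lc_smul (coef_lc (l := l) hπ b v) (inv_lc hπ w')).comp ξ)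
        (cptMod_of (coef_cpt hπ hc hlG b v) fun g hg => by
          simp only [Function.comp_apply, hg, zero_smul, map_zero]) μ
  map_smul' c a := by
    refine dual_ext fun ξ => ?_
    rw [RingHom.id_apply, map_smul, finSch_int, finSch_int, smul_eq_mul, ← integral_const_mul]
    refine integral_congr_ae (Eventually.of_forall fun g => ?_)
    simp only [map_smul, LinearMap.smul_apply, smul_eq_mul]
    ring

theorem orthOp_dual (hm : 0 < m) (z : Eˣ) (hπ : IsSmoothRep π) (hc : IsCusp π)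
    (hlG : ∀ g v w, l (π g v) (π (trGL g⁻¹) w) = l v w) (v w' w : V) (ξ : V →ₗ[ℂ] ℂ) :
    ξ (orthOp μ hm z hπ hc hlG v w' w) =
      ∫ h in Gfin m z, l (π h w) v * ξ (π h⁻¹ w') ∂μ := by
  change ξ (schI μ (finSch hm z _ _)) = _
  rw [finSch_int]
  refine integral_congr_ae (Eventually.of_forall fun g => ?_)
  simp only [map_smul, smul_eq_mul]

theorem scl_inv_smul {χ : Eˣ → ℂ} (h1 : ∀ z, ‖χ z‖ = 1)
    (h2 : ∀ z v, π (Matrix.GeneralLinearGroup.scalar (Fin m) z) v = χ z • v) (z : Eˣ) (v : V) :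
    π (scl m z)⁻¹ v = (χ z)⁻¹ • v := by
  have h0 : χ z ≠ 0 := by
    rw [← norm_pos_iff, h1]
    exact one_pos
  rw [eq_inv_smul_iff₀ h0, ← h2, ← Module.End.mul_apply, ← map_mul, mul_inv_cancel, map_one,
    Module.End.one_apply]

theorem orthOp_comm [μ.IsMulLeftInvariant] [μ.IsMulRightInvariant] (hm : 0 < m) {z : Eˣ}
    (hz : ad (scl m z) < 1) (hπ : IsSmoothRep π) (hc : IsCusp π) (hu : UnitCentral π)
    (hlG : ∀ g v w, l (π g v) (π (trGL g⁻¹) w) = l v w) (v w' : V) (k : GL (Fin m) E) (w : V) :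
    orthOp μ hm z hπ hc hlG v w' (π k w) = π k (orthOp μ hm z hπ hc hlG v w' w) := by
  obtain ⟨χ, h1, h2⟩ := hu
  refine dual_ext fun ξ => ?_
  rw [orthOp_dual]
  change _ = (ξ.comp (π k)) (orthOp μ hm z hπ hc hlG v w' w)
  rw [orthOp_dual]
  have hF : ∀ g, l (π (scl m z * g) w) v * (ξ.comp (π k)) (π (scl m z * g)⁻¹ w') =
      l (π g w) v * (ξ.comp (π k)) (π g⁻¹ w') := by
    intro g
    have h0 : χ z ≠ 0 := by
      rw [← norm_pos_iff, h1]
      exact one_pos
    rw [map_mul, Module.End.mul_apply, h2, map_smul, LinearMap.smul_apply, mul_inv_rev, map_mul,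
      Module.End.mul_apply, scl_inv_smul h1 h2, map_smul, map_smul, smul_eq_mul, smul_eq_mul]
    field_simp
  rw [← setInt_mul_right hz μ (F := fun g => l (π g w) v * (ξ.comp (π k)) (π g⁻¹ w')) hF k]
  refine integral_congr_ae (Eventually.of_forall fun g => ?_)
  change l (π g (π k w)) v * ξ (π g⁻¹ w') = l (π (g * k) w) v * ξ (π k (π (g * k)⁻¹ w'))
  rw [mul_inv_rev, map_mul, map_mul, Module.End.mul_apply, Module.End.mul_apply,
    ← Module.End.mul_apply (π k) (π k⁻¹), ← map_mul, mul_inv_cancel, map_one,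
    Module.End.one_apply]

theorem one_mem_Gfin {z : Eˣ} (hz : ad (scl m z) < 1) : (1 : GL (Fin m) E) ∈ Gfin m z := by
  change ad (scl m z) < ad (1 : GL (Fin m) E) ∧ ad (1 : GL (Fin m) E) ≤ 1
  rw [ad_one]
  exact ⟨hz, le_refl _⟩

theorem sq_ne [μ.IsOpenPosMeasure] (hm : 0 < m) {z : Eˣ} (hz : ad (scl m z) < 1)
    {f : GL (Fin m) E → ℂ} (hlc : IsLocallyConstant f) (hf : CptMod (scalZ m E) f)
    (h1 : f 1 ≠ 0) : ∫ h in Gfin m z, conj (f h) * f h ∂μ ≠ 0 := by
  have h2 : ∀ h, conj (f h) * f h = ((Complex.normSq (f h) : ℝ) : ℂ) := by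
    intro h
    rw [mul_comm, Complex.mul_conj]
  simp_rw [h2]
  rw [integral_complex_ofReal]
  intro h3
  have h4 : ∫ h in Gfin m z, Complex.normSq (f h) ∂μ = 0 := by exact_mod_cast h3
  have hlc2 : IsLocallyConstant fun h => Complex.normSq (f h) := hlc.comp Complex.normSq
  have h5 : IntegrableOn (fun h => Complex.normSq (f h)) (Gfin m z) μ := by
    have h6 := fin_integrableOn hm z (hlc.comp fun x => ((Complex.normSq x : ℝ) : ℂ))
      (cptMod_of hf fun g hg => by simp [hg]) μ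
    have h7 := h6.re
    exact h7
  rw [setIntegral_eq_zero_iff_of_nonneg_ae
    (Eventually.of_forall fun h => Complex.normSq_nonneg _) h5] at h4
  have h6 : μ ({h | Complex.normSq (f h) ≠ 0} ∩ Gfin m z) = 0 := by
    have h7 := ae_restrict_iff' (μ := μ) (isClopen_Gfin (E := E) (m := m) z).isOpen.measurableSet
      (p := fun h => Complex.normSq (f h) = 0)
    have h8 := h7.1 h4
    rw [ae_iff] at h8
    refine measure_mono_null ?_ h8
    rintro h ⟨ha, hb⟩ hh
    exact ha (hh hb)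
  have h7 : IsOpen ({h | Complex.normSq (f h) ≠ 0} ∩ Gfin m z) :=
    (hlc2 {r | r ≠ 0}).inter (isClopen_Gfin z).isOpen
  have h8 := h7.measure_pos μ ⟨1, by
    refine ⟨?_, one_mem_Gfin hz⟩
    change Complex.normSq (f 1) ≠ 0
    rw [Ne, Complex.normSq_eq_zero]
    exact h1⟩
  exact h8.ne' h6

/-- **Schur orthogonality** (G1). -/
theorem exists_schur_l [μ.IsMulLeftInvariant] [μ.IsMulRightInvariant] [μ.IsOpenPosMeasure]
    (hm : 0 < m) {z : Eˣ} (hz : ad (scl m z) < 1) (hπ : IsSmoothRep π) (hirr : IsIrrRep π)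
    (hc : IsCusp π) (hu : UnitCentral π) (hl : l ≠ 0)
    (hlG : ∀ g v w, l (π g v) (π (trGL g⁻¹) w) = l v w) :
    ∃ w' v₀ : V, ∀ (w : V) (ξ : V →ₗ[ℂ] ℂ),
      ∫ h in Gfin m z, l (π h w) v₀ * ξ (π h⁻¹ w') ∂μ = ξ w := by
  obtain ⟨w, v, hwv⟩ : ∃ w v, l w v ≠ 0 := by
    by_contra h
    push Not at h
    exact hl (LinearMap.ext fun w => LinearMap.ext fun v => h w v)
  obtain ⟨χ, hχ1, hχ2⟩ := hu
  have hχ0 : χ z ≠ 0 := by
    rw [← norm_pos_iff, hχ1]
    exact one_pos
  set f : GL (Fin m) E → ℂ := fun g => l (π g w) v with hf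
  have hfz : ∀ g, f (scl m z * g) = χ z * f g := by
    intro g
    simp only [hf]
    rw [map_mul, Module.End.mul_apply, hχ2, map_smul, LinearMap.smul_apply, smul_eq_mul]
  have hflc : IsLocallyConstant f := coef_lc hπ w v
  have hfc : CptMod (scalZ m E) f := coef_cpt hπ hc hlG w v
  set vt : V := schI μ (finSch hm z (lc_smul (hflc.comp conj) (tr_lc hπ v))
    (cptMod_of hfc fun g hg => by simp [hg])) with hvt
  have hp : ∀ (ξ : V →ₗ[ℂ] ℂ), ξ vt = ∫ h in Gfin m z, conj (f h) * ξ (π (trGL h) v) ∂μ := by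
    intro ξ
    rw [hvt, finSch_int]
    refine integral_congr_ae (Eventually.of_forall fun g => ?_)
    simp only [map_smul, smul_eq_mul, Function.comp_apply]
  have hp1 : ∀ g, l (π g w) vt = ∫ h in Gfin m z, conj (f h) * f (h * g) ∂μ := by
    intro g
    rw [hp (l (π g w))]
    refine integral_congr_ae (Eventually.of_forall fun h => ?_)
    change conj (f h) * l (π g w) (π (trGL h) v) = conj (f h) * l (π (h * g) w) v
    rw [← gk_pairing_mul hlG, map_mul, Module.End.mul_apply]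
  have hp2 : ∀ g, l (π g⁻¹ w) vt = conj (l (π g w) vt) := by
    intro g
    rw [hp1, hp1, ← integral_conj]
    rw [← setInt_mul_right hz μ (F := fun h => conj (f h) * f (h * g⁻¹)) (fun h => by
      change conj (f (scl m z * h)) * f (scl m z * h * g⁻¹) = conj (f h) * f (h * g⁻¹)
      rw [mul_assoc, hfz, hfz, map_mul]
      have h1 : conj (χ z) * χ z = 1 := by
        rw [mul_comm, Complex.mul_conj, Complex.normSq_eq_norm_sq, hχ1]
        simp
      calc conj (χ z) * conj (f h) * (χ z * f (h * g⁻¹))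
          = (conj (χ z) * χ z) * (conj (f h) * f (h * g⁻¹)) := by ring
        _ = _ := by rw [h1, one_mul]) g]
    refine integral_congr_ae (Eventually.of_forall fun h => ?_)
    change conj (f (h * g)) * f (h * g * g⁻¹) = conj (conj (f h) * f (h * g))
    rw [mul_inv_cancel_right, map_mul, Complex.conj_conj]
    ring
  have hp3 : l w vt ≠ 0 := by
    have h1 := hp1 1
    rw [map_one, Module.End.one_apply] at h1
    rw [h1]
    simp_rw [mul_one]
    refine sq_ne μ hm hz hflc hfc ?_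
    simp only [hf]
    rw [map_one, Module.End.one_apply]
    exact hwv
  obtain ⟨c, hcc⟩ := cusp_schur hπ hirr hc ⟨χ, hχ1, hχ2⟩ (orthOp μ hm z hπ hc hlG vt w)
    (orthOp_comm μ hm hz hπ hc ⟨χ, hχ1, hχ2⟩ hlG vt w)
  have hc0 : c ≠ 0 := by
    intro h0
    have h1 := orthOp_dual μ hm z hπ hc hlG vt w w (l.flip vt)
    rw [hcc, h0, zero_smul, map_zero] at h1
    refine sq_ne μ hm hz (coef_lc (l := l) hπ w vt) (coef_cpt hπ hc hlG w vt) (by
      rw [map_one, Module.End.one_apply]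
      exact hp3) ?_
    rw [h1]
    refine integral_congr_ae (Eventually.of_forall fun h => ?_)
    change conj (l (π h w) vt) * l (π h w) vt = l (π h w) vt * l (π h⁻¹ w) vt
    rw [hp2, mul_comm]
  refine ⟨c⁻¹ • w, vt, fun x ξ => ?_⟩
  have h1 := orthOp_dual μ hm z hπ hc hlG vt w x ξ
  rw [hcc, map_smul, smul_eq_mul] at h1
  have h2 : ξ x = c⁻¹ * (c * ξ x) := by
    rw [inv_mul_cancel_left₀ hc0]
  rw [h2, h1, ← integral_const_mul]
  refine integral_congr_ae (Eventually.of_forall fun h => ?_)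
  simp only [map_smul, smul_eq_mul]
  ring

end int

/-! ## The form `B(a, b) = l(a, π(H) b)` -/

theorem pairing_nondeg (hirr : IsIrrRep π) (hl : l ≠ 0)
    (hlG : ∀ g v w, l (π g v) (π (trGL g⁻¹) w) = l v w) (b : V) (h : ∀ a, l a b = 0) : b = 0 := by
  let T : Submodule ℂ V :=
    { carrier := {b | ∀ a, l a b = 0}
      add_mem' := by
        intro x y hx hy a
        rw [map_add, hx a, hy a, add_zero]
      zero_mem' := fun a => map_zero _
      smul_mem' := by
        intro c x hx a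
        rw [map_smul, hx a, smul_zero] }
  have hT : ∀ g, ∀ v ∈ T, π g v ∈ T := by
    intro g v hv a
    have h1 := gk_pairing_mul hlG (trGL g) a v
    rw [trGL_trGL] at h1
    rw [← h1]
    exact hv _
  rcases hirr.irr T hT with h1 | h1
  · have h2 : b ∈ T := h
    rw [h1] at h2
    exact (Submodule.mem_bot ℂ).1 h2
  · exfalso
    refine hl (LinearMap.ext fun a => LinearMap.ext fun c => ?_)
    have h2 : c ∈ T := by
      rw [h1]
      trivial
    exact h2 a

/-- an invariant pairing is symmetric up to a scalar -/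
theorem pairing_symm (hπ : IsSmoothRep π) (hirr : IsIrrRep π) (hc : IsCusp π) (hu : UnitCentral π)
    (hl : l ≠ 0) (hlG : ∀ g v w, l (π g v) (π (trGL g⁻¹) w) = l v w) :
    ∃ ε : ℂ, ∀ a b, l b a = ε * l a b := by
  have hflip : ∀ g v w, l.flip (π g v) (π (trGL g⁻¹) w) = l.flip v w := by
    intro g v w
    rw [LinearMap.flip_apply, LinearMap.flip_apply]
    have h1 := hlG (trGL g⁻¹) w v
    have h2 : trGL (trGL g⁻¹)⁻¹ = g := by
      rw [← trGL_inv, trGL_trGL, inv_inv]
    rw [h2] at h1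
    exact h1
  have h1 : ∀ w, ∃ w', l.flip.flip w = l.flip w' := fun w =>
    gk_pairing_surj hπ hirr hc hu l hl hlG _ (flip_mem hπ hflip w)
  choose T hT using h1
  have hT' : ∀ a w, l w a = l a (T w) := fun a w => LinearMap.congr_fun (hT w) a
  have hnd := pairing_nondeg hirr hl hlG
  have hinj : ∀ x y, (∀ a, l a x = l a y) → x = y := by
    intro x y h
    rw [← sub_eq_zero]
    refine hnd _ fun a => ?_
    rw [map_sub, h, sub_self]
  let TL : Module.End ℂ V :=
    { toFun := T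
      map_add' := by
        intro x y
        refine hinj _ _ fun a => ?_
        rw [map_add, ← hT', ← hT', ← hT', map_add, LinearMap.add_apply]
      map_smul' := by
        intro c x
        refine hinj _ _ fun a => ?_
        rw [RingHom.id_apply, map_smul, ← hT', ← hT', map_smul, LinearMap.smul_apply] }
  obtain ⟨c, hcT⟩ := cusp_schur hπ hirr hc hu TL (by
    intro g v
    refine hinj _ _ fun a => ?_
    change l a (T (π g v)) = l a (π g (T v))
    have h2 := gk_pairing_mul hlG (trGL g) a (T v)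
    rw [trGL_trGL] at h2
    rw [← hT', ← h2, ← hT', gk_pairing_mul hlG])
  refine ⟨c, fun a b => ?_⟩
  have h3 : T b = c • b := hcT b
  rw [hT', h3, map_smul, smul_eq_mul]

/-- The form `B(a,b) = l(a, π(H) b)`. -/
theorem exists_form (t : Fin m → Eˣ) {π : GL (Fin m) E →* Module.End ℂ V}
    (hπ : IsSmoothRep π) (hirr : IsIrrRep π) (hc : IsCusp π) (hu : UnitCentral π) :
    ∃ (B : V →ₗ[ℂ] V →ₗ[ℂ] ℂ) (ε : ℂ), B ≠ 0 ∧ (∀ a b, B a b = ε * B b a) ∧
      (∀ b, (∀ a, B a b = 0) → b = 0) ∧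
      ∀ g a b, B (π g a) b = B a (π (th t g) b) := by
  obtain ⟨l, hl, hlG⟩ := exists_gk_pairing hπ hirr hc hu
  obtain ⟨ε, hε⟩ := pairing_symm hπ hirr hc hu hl hlG
  have hmul := gk_pairing_mul hlG
  have hinv : ∀ (g : GL (Fin m) E) v, π g (π g⁻¹ v) = v := by
    intro g v
    rw [← Module.End.mul_apply, ← map_mul, mul_inv_cancel, map_one, Module.End.one_apply]
  have hinv' : ∀ (g : GL (Fin m) E) v, π g⁻¹ (π g v) = v := by
    intro g v
    rw [← Module.End.mul_apply, ← map_mul, inv_mul_cancel, map_one, Module.End.one_apply]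
  refine ⟨l.compl₂ (π (dgl t)), ε, ?_, ?_, ?_, ?_⟩
  · intro h
    refine hl (LinearMap.ext fun a => LinearMap.ext fun b => ?_)
    have h1 := LinearMap.congr_fun (LinearMap.congr_fun h a) (π (dgl t)⁻¹ b)
    rw [LinearMap.compl₂_apply, hinv] at h1
    exact h1
  · intro a b
    rw [LinearMap.compl₂_apply, LinearMap.compl₂_apply]
    have h1 := hmul (dgl t) a b
    rw [trGL_dgl] at h1
    rw [← h1, hε]
  · intro b hb
    have h1 := pairing_nondeg hirr hl hlG (π (dgl t) b) hb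
    have h2 := hinv' (dgl t) b
    rw [h1, map_zero] at h2
    exact h2.symm
  · intro g a b
    rw [LinearMap.compl₂_apply, LinearMap.compl₂_apply, hmul]
    congr 1
    rw [← Module.End.mul_apply, ← Module.End.mul_apply, ← map_mul, ← map_mul]
    congr 2
    unfold th
    group

section int2

variable [MeasurableSpace (GL (Fin m) E)] [BorelSpace (GL (Fin m) E)]
  (μ : Measure (GL (Fin m) E)) [μ.IsHaarMeasure]

theorem ad_scl_lt (hm : 0 < m) {ϖ : Eˣ} (hϖ : absE ϖ < 1) : ad (scl m ϖ) < 1 := by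
  rw [ad_scl]
  refine pow_lt_one₀ (NNReal.coe_nonneg _) ?_ hm.ne'
  rw [md_units]
  exact hϖ

/-- Schur orthogonality. -/
theorem exists_schur {t : Fin m → Eˣ} (hm : 0 < m) {π : GL (Fin m) E →* Module.End ℂ V}
    (hπ : IsSmoothRep π) (hirr : IsIrrRep π) (hc : IsCusp π) (hu : UnitCentral π)
    (B : V →ₗ[ℂ] V →ₗ[ℂ] ℂ) (hB0 : B ≠ 0) (hB : ∀ g a b, B (π g a) b = B a (π (th t g) b))
    (ϖ : Eˣ) (hϖ : absE ϖ < 1) :
    ∃ (w' v₁ : V), ∀ w (ξ : V →ₗ[ℂ] ℂ),
      ∫ h in Gfin m ϖ, B (π h w) v₁ * ξ (π h⁻¹ w') ∂μ = ξ w := by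
  have hr : μ.IsMulRightInvariant := haar_right' μ
  have hinv : ∀ (g : GL (Fin m) E) v, π g (π g⁻¹ v) = v := by
    intro g v
    rw [← Module.End.mul_apply, ← map_mul, mul_inv_cancel, map_one, Module.End.one_apply]
  have hinv' : ∀ (g : GL (Fin m) E) v, π g⁻¹ (π g v) = v := by
    intro g v
    rw [← Module.End.mul_apply, ← map_mul, inv_mul_cancel, map_one, Module.End.one_apply]
  let l : V →ₗ[ℂ] V →ₗ[ℂ] ℂ := B.compl₂ (π (dgl t)⁻¹)
  have hl : l ≠ 0 := by
    intro h
    refine hB0 (LinearMap.ext fun a => LinearMap.ext fun b => ?_)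
    have h1 : B a (π (dgl t)⁻¹ (π (dgl t) b)) = 0 :=
      LinearMap.congr_fun (LinearMap.congr_fun h a) (π (dgl t) b)
    rw [hinv'] at h1
    exact h1
  have hlG : ∀ g v w, l (π g v) (π (trGL g⁻¹) w) = l v w := by
    intro g v w
    change B (π g v) (π (dgl t)⁻¹ (π (trGL g⁻¹) w)) = B v (π (dgl t)⁻¹ w)
    rw [hB, ← Module.End.mul_apply, ← Module.End.mul_apply, ← map_mul, ← map_mul]
    congr 3
    unfold th
    rw [trGL_inv]
    group
  obtain ⟨w', v₀, h⟩ := exists_schur_l μ hm (ad_scl_lt hm hϖ) hπ hirr hc hu hl hlG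
  exact ⟨w', π (dgl t)⁻¹ v₀, h⟩

/-- `π(f) = B(·, v₂) w₁`. -/
theorem exists_rank_one {t : Fin m → Eˣ} {π : GL (Fin m) E →* Module.End ℂ V}
    (hπ : IsSmoothRep π) (hirr : IsIrrRep π) (hc : IsCusp π) (hu : UnitCentral π)
    (B : V →ₗ[ℂ] V →ₗ[ℂ] ℂ) (hB : ∀ g a b, B (π g a) b = B a (π (th t g) b)) (w₁ v₂ : V) :
    ∃ f : Sch (GL (Fin m) E) ℂ, ∀ w, Hk.hk μ hπ f w = B w v₂ • w₁ := by
  have h1 : Tendsto (th t : GL (Fin m) E → GL (Fin m) E) (𝓝 1) (𝓝 1) := by
    have h3 := (continuous_th t).tendsto 1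
    rwa [th_one] at h3
  obtain ⟨K, hK1, hK2, hK3⟩ := gl_basis _ (h1.eventually (hπ v₂))
  let A : Module.End ℂ V := (B.flip v₂).smulRight w₁
  obtain ⟨f, hf⟩ := Hk.exists_hk_eq μ hπ hirr.nontrivial hirr.irr (cusp_schur hπ hirr hc hu)
    hK1 hK2 (cusp_adm hπ hirr hc hu K hK1) A
  refine ⟨f, fun w => ?_⟩
  rw [hf, Module.End.mul_apply]
  have h2 : ∀ k ∈ K, ∀ v, A (π k v) = A v := by
    intro k hk v
    have h3 : π (th t k) v₂ = v₂ := hK3 hk
    change B (π k v) v₂ • w₁ = B v v₂ • w₁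
    rw [hB, h3]
  rw [Hk.inv_eK μ hπ hK1 hK2 A h2]
  rfl

end int2

end SpW.Mo
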