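import Pool.Agent.Work.MP_3615d2_al.DualNorm
import Pool.Agent.Work.MP_3615d2_al.Mo.Schur

/-!
MP_3615d2_al, even split case, module G2 (note 6725, G2): density of the tame equivariant maps.
-/

open MeasureTheory Filter Topology
open scoped Pointwise

namespace SpW.Mo

section abstract_tame

variable {G V S : Type} [Group G] [TopologicalSpace G] [AddCommGroup V] [Module ℂ V]
  [AddCommGroup S] [Module ℂ S]

/-- `lam : V → S` is tame (for the subgroups `U` and `Z` of `G`): for every `w`, the support of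
`g ↦ lam (π g w)` is contained in `U Ω Z` for a compact set `Ω`. -/
def Tame (U Z : Subgroup G) (π : G →* Module.End ℂ V) (lam : V →ₗ[ℂ] S) : Prop :=
  ∀ w : V, ∃ Om : Set G, IsCompact Om ∧
    ∀ g, lam (π g w) ≠ 0 → ∃ u ∈ U, ∃ o ∈ Om, ∃ z ∈ Z, g = u * o * z

variable [IsTopologicalGroup G]

/-- a set which is left invariant under an open subgroup is open and closed -/
theorem isClopen_of_left {K : Subgroup G} (hK : IsOpen (K : Set G)) {Y : Set G}
    (hY : ∀ k ∈ K, ∀ y ∈ Y, k * y ∈ Y) : IsClopen Y := by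
  have key : ∀ Y : Set G, (∀ k ∈ K, ∀ y ∈ Y, k * y ∈ Y) → IsOpen Y := by
    intro Y hY
    rw [isOpen_iff_mem_nhds]
    intro y hy
    have h1 : Tendsto (fun x : G => x * y⁻¹) (𝓝 y) (𝓝 1) := by
      have : Continuous (fun x : G => x * y⁻¹) := by fun_prop
      simpa using this.tendsto y
    filter_upwards [h1 (hK.mem_nhds K.one_mem)] with x hx
    have h2 := hY _ hx y hy
    rwa [inv_mul_cancel_right] at h2
  refine ⟨⟨key _ ?_⟩, key Y hY⟩
  intro k hk y hy hky
  apply hy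
  have h2 := hY k⁻¹ (K.inv_mem hk) _ hky
  rwa [inv_mul_cancel_left] at h2

theorem lc_orbit {π : G →* Module.End ℂ V} (hπ : IsSmoothRep π) (v : V) :
    IsLocallyConstant (fun g : G => π g v) := by
  rw [IsLocallyConstant.iff_eventually_eq]
  intro k
  have h1 : ∀ᶠ g in 𝓝 (1 : G), π g v = v := hπ v
  have h3 : Tendsto (fun j : G => k⁻¹ * j) (𝓝 k) (𝓝 1) := by
    have : Continuous (fun j : G => k⁻¹ * j) := by fun_prop
    simpa using this.tendsto k
  filter_upwards [h3.eventually h1] with j hj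
  have h4 : π j v = π k (π (k⁻¹ * j) v) := by
    rw [← Module.End.mul_apply, ← map_mul, mul_inv_cancel_left]
  rw [h4, hj]

/-- The integrand. -/
theorem tame_sch {π : G →* Module.End ℂ V} (hπ : IsSmoothRep π) {Z : Subgroup G}
    {Gf Y : Set G} (hGo : IsClopen Gf)
    (hGc : ∀ C : Set G, IsCompact C → ∃ C' : Set G, IsCompact C' ∧
      ∀ c ∈ C, ∀ z ∈ Z, c * z ∈ Gf → c * z ∈ C')
    (hY : IsClopen Y) {La : V →ₗ[ℂ] ℂ} (lam : V →ₗ[ℂ] S) (w' w : V)
    (hLa : CptMod Z fun g => La (π g w)) :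
    (fun g : G => (Gf ∩ Y).indicator (fun g => La (π g w) • lam (π g⁻¹ w')) g) ∈ Sch G S := by
  have h1 : IsLocallyConstant (fun g : G => La (π g w) • lam (π g⁻¹ w')) := by
    have h2 : IsLocallyConstant (fun g : G => (π g w, π g⁻¹ w')) :=
      (lc_orbit hπ w).prodMk ((lc_orbit hπ w').comp_continuous continuous_inv)
    exact h2.comp (fun p : V × V => La p.1 • lam p.2)
  have hGY : IsClopen (Gf ∩ Y) := hGo.inter hY
  obtain ⟨C, hC, hC2⟩ := hLa
  obtain ⟨C', hC', hC3⟩ := hGc C hC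
  refine ⟨?_, C', hC', fun g hg => ?_⟩
  · classical
    have h2 : IsLocallyConstant (fun g : G => (decide (g ∈ Gf ∩ Y) : Bool)) := by
      rw [IsLocallyConstant.iff_eventually_eq]
      intro x
      by_cases hx : x ∈ Gf ∩ Y
      · filter_upwards [hGY.2.mem_nhds hx] with y hy
        simp [hx, hy]
      · filter_upwards [hGY.compl.2.mem_nhds hx] with y hy
        have hy' : y ∉ Gf ∩ Y := hy
        simp only [hx, hy']
    have h3 := (h1.prodMk h2).comp (fun p : S × Bool => if p.2 = true then p.1 else 0)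
    convert h3 using 1
    funext g
    by_cases hg : g ∈ Gf ∩ Y
    · rw [Set.indicator_of_mem hg]
      simp only [Function.comp, hg, decide_true, if_true]
    · rw [Set.indicator_of_notMem hg]
      simp only [Function.comp, hg, decide_false, Bool.false_eq_true, if_false]
  · by_contra hne
    have h2 : g ∈ Gf ∩ Y := by
      by_contra h
      exact hne (Set.indicator_of_notMem h _)
    beta_reduce at hne
    rw [Set.indicator_of_mem h2] at hne
    have h3 : La (π g w) ≠ 0 := by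
      intro h
      exact hne (by rw [h, zero_smul])
    obtain ⟨c, hc, z, hz, rfl⟩ := hC2 g h3
    exact hg (hC3 c hc z hz h2.1)

variable [MeasurableSpace G] [BorelSpace G]

/-- **G2**, the abstract form. -/
theorem exists_tame_aux (μ : Measure G) [IsFiniteMeasureOnCompacts μ] [μ.IsMulRightInvariant]
    {π : G →* Module.End ℂ V} (hπ : IsSmoothRep π) {U Z : Subgroup G}
    (hZ : ∀ z ∈ Z, ∀ g, z * g = g * z) {Gf : Set G} (hGo : IsClopen Gf)
    (hGU : ∀ u ∈ U, ∀ g ∈ Gf, g * u ∈ Gf)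
    (hGc : ∀ C : Set G, IsCompact C → ∃ C' : Set G, IsCompact C' ∧
      ∀ c ∈ C, ∀ z ∈ Z, c * z ∈ Gf → c * z ∈ C')
    {K : Subgroup G} (hKo : IsOpen (K : Set G)) (hKc : IsCompact (K : Set G))
    {La : V →ₗ[ℂ] ℂ} (hLa : ∀ w, CptMod Z fun g => La (π g w)) (w' : V)
    (hs : ∀ (w : V) (ξ : V →ₗ[ℂ] ℂ), ∫ g in Gf, La (π g w) * ξ (π g⁻¹ w') ∂μ = ξ w)
    (om : U →* Module.End ℂ S) (lam : V →ₗ[ℂ] S)
    (hlam : ∀ (u : U) (w : V), lam (π (u : G) w) = om u (lam w))
    {T : Set V} (hT : T.Finite) :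
    ∃ lam' : V →ₗ[ℂ] S, (∀ (u : U) (w : V), lam' (π (u : G) w) = om u (lam' w)) ∧
      Tame U Z π lam' ∧ ∀ w ∈ T, lam' w = lam w := by
  classical
  -- the compact set
  obtain ⟨C, hC, hCT⟩ : ∃ C : Set G, IsCompact C ∧ ∀ w ∈ T, ∀ g, La (π g w) ≠ 0 →
      ∃ c ∈ C, ∃ z ∈ Z, g = c * z := by
    choose D hD hD2 using hLa
    refine ⟨⋃ w ∈ T, D w, hT.isCompact_biUnion fun w _ => hD w, fun w hw g hg => ?_⟩
    obtain ⟨c, hc, z, hz, h⟩ := hD2 w g hg
    exact ⟨c, Set.mem_biUnion hw hc, z, hz, h⟩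
  let Y : Set G := {y | ∃ k ∈ K, ∃ c ∈ C, ∃ u ∈ U, ∃ z ∈ Z, y = k * c * u * z}
  have hY : IsClopen Y := by
    refine isClopen_of_left hKo ?_
    rintro k hk _ ⟨k', hk', c, hc, u, hu, z, hz, rfl⟩
    exact ⟨k * k', K.mul_mem hk hk', c, hc, u, hu, z, hz, by simp only [mul_assoc]⟩
  have hYU : ∀ u ∈ U, ∀ y ∈ Y, y * u ∈ Y := by
    rintro u hu _ ⟨k', hk', c, hc, u', hu', z, hz, rfl⟩
    refine ⟨k', hk', c, hc, u' * u, U.mul_mem hu' hu, z, hz, ?_⟩
    rw [mul_assoc _ z u, hZ z hz u]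
    simp only [mul_assoc]
  let F : V → Sch G S := fun w => ⟨_, tame_sch hπ hGo hGc hY lam w' w (hLa w)⟩
  have hF : ∀ w g, (F w).1 g = (Gf ∩ Y).indicator (fun g => La (π g w) • lam (π g⁻¹ w')) g :=
    fun w g => rfl
  have hF1 : ∀ w g, g ∈ Gf ∩ Y → (F w).1 g = La (π g w) • lam (π g⁻¹ w') := fun w g hg => by
    rw [hF, Set.indicator_of_mem hg]
  have hF0 : ∀ w g, g ∉ Gf ∩ Y → (F w).1 g = 0 := fun w g hg => by
    rw [hF, Set.indicator_of_notMem hg]
  let FL : V →ₗ[ℂ] Sch G S :=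
    { toFun := F
      map_add' := fun a b => Subtype.ext (funext fun g => by
        change (F (a + b)).1 g = (F a).1 g + (F b).1 g
        by_cases hg : g ∈ Gf ∩ Y
        · rw [hF1 _ _ hg, hF1 _ _ hg, hF1 _ _ hg, map_add, map_add, add_smul]
        · rw [hF0 _ _ hg, hF0 _ _ hg, hF0 _ _ hg, add_zero])
      map_smul' := fun c a => Subtype.ext (funext fun g => by
        change (F (c • a)).1 g = c • (F a).1 g
        by_cases hg : g ∈ Gf ∩ Y
        · rw [hF1 _ _ hg, hF1 _ _ hg, map_smul, map_smul, smul_assoc]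
        · rw [hF0 _ _ hg, hF0 _ _ hg, smul_zero]) }
  refine ⟨(schIL G S μ).comp FL, ?_, ?_, ?_⟩
  · -- equivariance
    rintro ⟨u, hu⟩ w
    change schI μ (F (π u w)) = om ⟨u, hu⟩ (schI μ (F w))
    rw [schI_map]
    have hmem : ∀ g, g * u ∈ Gf ∩ Y ↔ g ∈ Gf ∩ Y := by
      intro g
      constructor
      · rintro ⟨h1, h2⟩
        have h3 := hGU u⁻¹ (U.inv_mem hu) _ h1
        have h4 := hYU u⁻¹ (U.inv_mem hu) _ h2
        rw [mul_inv_cancel_right] at h3 h4
        exact ⟨h3, h4⟩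
      · rintro ⟨h1, h2⟩
        exact ⟨hGU u hu _ h1, hYU u hu _ h2⟩
    refine schI_congr_map μ _ _ (fun g => g * u) (measurePreserving_mul_right μ u) fun g => ?_
    rw [schMap_apply]
    by_cases hg : g ∈ Gf ∩ Y
    · rw [hF1 _ _ hg, hF1 _ _ ((hmem g).2 hg), map_smul, ← hlam ⟨u, hu⟩, ← Module.End.mul_apply,
        ← map_mul, ← Module.End.mul_apply (π u), ← map_mul, _root_.mul_inv_rev, mul_inv_cancel_left]
    · rw [hF0 _ _ hg, hF0 _ _ (fun h => hg ((hmem g).1 h)), map_zero]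
  · -- tameness
    intro w
    obtain ⟨D, hD, hD2⟩ := hLa w
    refine ⟨(fun p : (G × G) × G => (p.1.1 * p.1.2)⁻¹ * p.2) '' (((K : Set G) ×ˢ C) ×ˢ D),
      ((hKc.prod hC).prod hD).image (by fun_prop), fun g hg => ?_⟩
    have h1 : ∃ h, (F (π g w)).1 h ≠ 0 := by
      by_contra hne
      push Not at hne
      apply hg
      have h2 : F (π g w) = 0 := Subtype.ext (funext hne)
      change (schIL G S μ) (F (π g w)) = 0
      rw [h2, map_zero]
    obtain ⟨h, hh⟩ := h1
    have h2 : h ∈ Gf ∩ Y := by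
      by_contra h3
      exact hh (hF0 _ _ h3)
    rw [hF1 _ _ h2] at hh
    have h3 : La (π (h * g) w) ≠ 0 := by
      intro h4
      apply hh
      rw [map_mul, Module.End.mul_apply] at h4
      rw [h4, zero_smul]
    obtain ⟨d, hd, z, hz, h4⟩ := hD2 _ h3
    obtain ⟨k, hk, c, hc, u, hu, z', hz', h5⟩ := h2.2
    refine ⟨u⁻¹, U.inv_mem hu, (k * c)⁻¹ * d, ⟨((k, c), d), ⟨⟨hk, hc⟩, hd⟩, rfl⟩,
      z * z'⁻¹, Z.mul_mem hz (Z.inv_mem hz'), ?_⟩
    have h6 : g = h⁻¹ * (d * z) := by rw [← h4, inv_mul_cancel_left]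
    have h7 : z'⁻¹ * (u⁻¹ * (k * c)⁻¹ * (d * z)) = (u⁻¹ * (k * c)⁻¹ * (d * z)) * z'⁻¹ :=
      hZ _ (Z.inv_mem hz') _
    rw [h6, h5, _root_.mul_inv_rev, _root_.mul_inv_rev (k * c) u, mul_assoc (z'⁻¹), h7]
    simp only [mul_assoc]
  · -- the values
    intro w hw
    change schI μ (F w) = lam w
    refine dual_ext fun η => ?_
    rw [schI_dual, ← LinearMap.comp_apply, ← hs w (η ∘ₗ lam),
      ← integral_indicator hGo.2.measurableSet]
    refine integral_congr_ae (Filter.Eventually.of_forall fun g => ?_)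
    change η ((F w).1 g) = Gf.indicator (fun g => La (π g w) * (η ∘ₗ lam) (π g⁻¹ w')) g
    by_cases hg : g ∈ Gf
    · rw [Set.indicator_of_mem hg, LinearMap.comp_apply]
      by_cases h0 : La (π g w) = 0
      · rw [h0, zero_mul]
        by_cases hgY : g ∈ Gf ∩ Y
        · rw [hF1 _ _ hgY, h0, zero_smul, map_zero]
        · rw [hF0 _ _ hgY, map_zero]
      · obtain ⟨c, hc, z, hz, rfl⟩ := hCT w hw g h0
        have hgY : c * z ∈ Gf ∩ Y :=
          ⟨hg, 1, K.one_mem, c, hc, 1, U.one_mem, z, hz, by rw [one_mul, mul_one]⟩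
        rw [hF1 _ _ hgY, map_smul, smul_eq_mul]
    · rw [Set.indicator_of_notMem hg, hF0 _ _ (fun h => hg h.1), map_zero]

end abstract_tame

section unitary

variable {F E : Type} [NontriviallyNormedField F] [ProperSpace F]
  [NontriviallyNormedField E] [NormedAlgebra F E] [IsUltrametricDist E]
  [ProperSpace E] [MeasurableSpace E] [BorelSpace E]
  {σ : E ≃ₐ[F] E} {δ : E} {d : F} {m : ℕ}

omit [IsUltrametricDist E] in
/-- `|det u| = 1` for unitary `u` -/
theorem ad_unitary (hq : QuadDatum σ δ d) {H : Matrix (Fin m) (Fin m) E} (hH : H.det ≠ 0)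
    {u : GL (Fin m) E} (hu : u ∈ unitary σ H) : ad u = 1 := by
  rw [unitary_gram] at hu
  have h1 : (Matrix.GeneralLinearGroup.det u : E) * H.det *
      σ (Matrix.GeneralLinearGroup.det u : E) = H.det := by
    have h2 := congrArg Matrix.det hu
    rw [Matrix.det_mul, Matrix.det_mul, Matrix.det_transpose] at h2
    have h3 : ((u : Matrix (Fin m) (Fin m) E).map σ).det =
        σ ((u : Matrix (Fin m) (Fin m) E).det) := (AlgEquiv.map_det σ _).symm
    rw [h3] at h2
    exact h2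
  have h2 : (Matrix.GeneralLinearGroup.det u : E) *
      σ (Matrix.GeneralLinearGroup.det u : E) = 1 := by
    have h3 : H.det * ((Matrix.GeneralLinearGroup.det u : E) *
        σ (Matrix.GeneralLinearGroup.det u : E)) = H.det * 1 := by
      rw [mul_one]
      conv_rhs => rw [← h1]
      ring
    exact mul_left_cancel₀ hH h3
  let d' : Eˣ := Units.mk0 (σ (Matrix.GeneralLinearGroup.det u : E))
    (fun h => by rw [h, mul_zero] at h2; exact zero_ne_one h2)
  have h3 : absE d' = ad u := absE_sig hq _ d' rfl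
  have h4 : Matrix.GeneralLinearGroup.det u * d' = 1 := Units.ext h2
  have h5 : ad u * ad u = 1 := by
    conv_lhs =>
      rhs
      rw [← h3]
    unfold ad
    rw [← absE_mul, h4, absE_one]
  nlinarith [ad_pos u]

theorem exists_ad_lt (hm : 0 < m) : ∃ z : Eˣ, ad (scl m z) < 1 := by
  obtain ⟨x, hx0, hx1⟩ := NormedField.exists_norm_lt_one E
  refine ⟨Units.mk0 x (norm_pos_iff.1 hx0), ?_⟩
  rw [ad_scl]
  refine pow_lt_one₀ (by positivity) ?_ hm.ne'
  have h1 := md_lt_one (F := E) (x := x) hx1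
  exact_mod_cast h1

/-- **G2.** Density of the tame equivariant maps. -/
theorem exists_tame {t : Fin m → Eˣ} (hq : QuadDatum σ δ d) (_ht : SkT σ t) {V S : Type}
    [AddCommGroup V] [Module ℂ V] [AddCommGroup S] [Module ℂ S]
    {π : GL (Fin m) E →* Module.End ℂ V} (hπ : IsSmoothRep π) (hirr : IsIrrRep π)
    (hc : IsCusp π) (hu : UnitCentral π) (ω : unitary σ (Dg t) →* Module.End ℂ S)
    (_hω : ∀ v, ∀ᶠ g in 𝓝 (1 : unitary σ (Dg t)), ω g v = v) (lam : V →ₗ[ℂ] S)
    (hlam : ∀ (u : unitary σ (Dg t)) w, lam (π u.1 w) = ω u (lam w)) (s : Finset V) :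
    ∃ lam' : V →ₗ[ℂ] S, (∀ (u : unitary σ (Dg t)) w, lam' (π u.1 w) = ω u (lam' w)) ∧
      IsTame σ t π lam' ∧ ∀ w ∈ s, lam' w = lam w := by
  rcases Nat.eq_zero_or_pos m with hm | hm
  · subst hm
    refine ⟨lam, hlam, fun w => ⟨{1}, isCompact_singleton, fun g _ => ⟨1, 1, rfl, 1, ?_⟩⟩,
      fun w _ => rfl⟩
    apply Units.ext
    exact Subsingleton.elim _ _
  borelize (GL (Fin m) E)
  let μ : Measure (GL (Fin m) E) := Measure.haar
  have hμ : μ.IsMulRightInvariant := Hk.haar_right μ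
  obtain ⟨z, hz⟩ := exists_ad_lt (E := E) hm
  obtain ⟨l, hl0, hlG⟩ := exists_gk_pairing hπ hirr hc hu
  obtain ⟨w', v₀, hs⟩ := exists_schur_l (μ := μ) hm hz hπ hirr hc hu hl0 hlG
  obtain ⟨K, hKo, hKc, -⟩ := gl_basis (E := E) (ι := Fin m) Set.univ univ_mem
  have hDg : (Dg t).det ≠ 0 := by
    rw [← dgl_Dg]
    exact ((Matrix.isUnit_iff_isUnit_det _).1 (Units.isUnit (dgl t))).ne_zero
  obtain ⟨lam', h1, h2, h3⟩ := exists_tame_aux μ hπ (U := unitary σ (Dg t)) (Z := scalZ m E)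
    (fun z hz g => scalZ_central z hz g) (isClopen_Gfin z)
    (fun u hu g hg => (mem_Gfin_of_ad (by rw [ad_mul, ad_unitary hq hDg hu, mul_one])).2 hg)
    (fun C hC => by
      obtain ⟨C', hC', h⟩ := fin_compact (E := E) hm z
        (F := Set.indicator (C * (scalZ m E : Set (GL (Fin m) E)))
          (1 : GL (Fin m) E → ℂ)) ⟨C, hC, fun g hg => by
          by_contra hne
          push Not at hne
          refine hg (Set.indicator_of_notMem ?_ _)
          rintro ⟨c, hc, y, hy, rfl⟩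
          exact hne c hc y hy rfl⟩
      refine ⟨C', hC', fun c hc y hy hcy => h _ hcy ?_⟩
      rw [Set.indicator_of_mem (Set.mul_mem_mul hc hy)]
      exact one_ne_zero)
    hKo hKc (La := l.flip v₀) (fun w => hc.hasHC hπ w _ (flip_mem hπ hlG v₀)) w' hs ω lam hlam
    (T := (s : Set V)) s.finite_toSet
  refine ⟨lam', h1, fun w => ?_, h3⟩
  obtain ⟨Om, hOm, h⟩ := h2 w
  refine ⟨Om, hOm, fun g hg => ?_⟩
  obtain ⟨u, hu, o, ho, _, ⟨y, rfl⟩, h4⟩ := h g hg
  exact ⟨⟨u, hu⟩, o, ho, y, h4⟩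

omit [ProperSpace F] [IsUltrametricDist E] [ProperSpace E] [MeasurableSpace E] [BorelSpace E] in
/-- A tame functional gives `IsP` functions. -/
theorem IsTame.isP {t : Fin m → Eˣ} {V S : Type}
    [AddCommGroup V] [Module ℂ V] [AddCommGroup S] [Module ℂ S]
    {π : GL (Fin m) E →* Module.End ℂ V}
    (hπ : IsSmoothRep π) {χ : Eˣ → ℂ} (hχ : ∀ z, ‖χ z‖ = 1)
    (hχc : ∀ z v, π (Matrix.GeneralLinearGroup.scalar (Fin m) z) v = χ z • v)
    (ω : unitary σ (Dg t) →* Module.End ℂ S)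
    (lam : V →ₗ[ℂ] S) (hlam : ∀ (u : unitary σ (Dg t)) w, lam (π u.1 w) = ω u (lam w))
    (hT : IsTame σ t π lam) (w : V) : IsP σ t ω χ (fun g => lam (π g w)) where
  left u g := by
    rw [map_mul, Module.End.mul_apply, hlam]
  right := by
    filter_upwards [hπ w] with k hk g
    rw [map_mul, Module.End.mul_apply, hk]
  unit := hχ
  cent z g := by
    rw [map_mul, Module.End.mul_apply, hχc, map_smul]
  tame := hT w

end unitary

end SpW.Mo
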