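import Pool.Agent.Work.MP_3615d2_al.WeT
import Pool.Agent.Work.MP_3615d2_al.HermClass

/-!
MP_3615d2_al, multiplicity one, G0b: change of basis in the skew-Hermitian space.

`H' = Pᵀ H σ(P)`, `ρ'(w) = ρ(P w)`, `ω'(u) = ω(P u P⁻¹)`.
-/

open MeasureTheory Metric Set Matrix
open scoped NNReal ENNReal

namespace SpW.Mo

section stab

variable {F : Type} [NontriviallyNormedField F] [ProperSpace F] [IsUltrametricDist F]
    {Wp : Type} [NormedAddCommGroup Wp] [NormedSpace F Wp] [FiniteDimensional F Wp]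
    [IsUltrametricDist Wp] [MeasurableSpace Wp] [BorelSpace Wp] (ν : Measure Wp)
    [ν.IsAddHaarMeasure] {S : Type} [AddCommGroup S] [Module ℂ S] {ψ : AddChar F Circle}
    {B : Wp →ₗ[F] Wp →ₗ[F] F} {ρ : Wp → Module.End ℂ S} {c : Wp →ₗ[F] Wp} {v : S}

/-- The integral in the definition of `T_c v` over any large set which is stable under small
translations. -/
theorem stab_set (hψ : Continuous ψ) (hψ1 : ψ ≠ 1) (h2 : (2 : F) ≠ 0)
    (hnd : ∀ w, (∀ x, B w x = 0) → w = 0)
    (hρ : ∀ w w', ρ w * ρ w' = ((ψ ((2 : F)⁻¹ * B w w') : Circle) : ℂ) • ρ (w + w'))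
    (hc : ∀ w w', B (c w) w' = B (c w') w)
    (hc₁ : ∀ w, c w = w → w = 0) (hv : ∀ᶠ w in nhds (0 : Wp), ρ w v = v) :
    ∃ ε R₁ : ℝ, 0 < ε ∧ ε ≤ R₁ ∧ ∀ A : Set Wp, MeasurableSet A → Bornology.IsBounded A →
      (∀ w x, ‖x‖ ≤ ε → (w + x ∈ A ↔ w ∈ A)) → closedBall 0 R₁ ⊆ A → ∀ ξ : S →ₗ[ℂ] ℂ,
      ∫ z in A, ((ψ ((4 : F)⁻¹ * B (c z) z) : Circle) : ℂ) * ξ (ρ z v) ∂ν =
      ∫ z in closedBall (0 : Wp) R₁,
        ((ψ ((4 : F)⁻¹ * B (c z) z) : Circle) : ℂ) * ξ (ρ z v) ∂ν := by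
  have : ProperSpace Wp := FiniteDimensional.proper F Wp
  have e1 : Continuous fun z : Wp => (4 : F)⁻¹ * B (c z) z := by
    have h3 : Continuous fun p : Wp × Wp => B p.1 p.2 := B.toContinuousBilinearMap.continuous₂
    exact continuous_const.mul (h3.comp ((c.continuous_of_finiteDimensional).prodMk continuous_id))
  have h5 := LemI.addChar_small hψ (e1.continuousAt (x := 0)) (by simp)
  obtain ⟨ε', hε', h⟩ := Metric.eventually_nhds_iff.1 (hv.and h5)
  set ε := ε' / 2 with hεd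
  have hε : 0 < ε := by positivity
  have hε1 : ∀ x : Wp, ‖x‖ ≤ ε → ρ x v = v ∧ ψ ((4 : F)⁻¹ * B (c x) x) = 1 := by
    intro x hx
    refine h ?_
    rw [dist_zero_right]
    linarith
  let θ : Wp →ₗ[F] Wp →ₗ[F] F := (2 : F)⁻¹ • (B.comp (c - LinearMap.id))
  have hθ : ∀ z x, θ z x = (2 : F)⁻¹ * B (c z - z) x := fun z x => rfl
  obtain ⟨R₀, hR₀⟩ := LemI.detect hψ hψ1 θ (fun w hw => hc₁ w (by
    rw [← sub_eq_zero]
    refine hnd _ fun x => ?_
    have h1 := hw x
    rw [hθ, mul_eq_zero] at h1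
    exact h1.resolve_left (inv_ne_zero h2))) hε
  refine ⟨ε, max R₀ ε, hε, le_max_right _ _, fun A hAm hAb hAs hA ξ => ?_⟩
  have hfχ : ∀ (z x : Wp), ‖x‖ ≤ ε →
      ((ψ ((4 : F)⁻¹ * B (c (z + x)) (z + x)) : Circle) : ℂ) * ξ (ρ (z + x) v) =
      ((ψ (θ z x) : Circle) : ℂ) *
        (((ψ ((4 : F)⁻¹ * B (c z) z) : Circle) : ℂ) * ξ (ρ z v)) := by
    intro z x hx
    have h3 := congrArg ξ (LemI.Tv_add h2 hρ hc (z := z) (hε1 x hx).1 (hε1 x hx).2)
    rw [hθ]
    simpa only [map_smul, smul_eq_mul] using h3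
  exact LemI.stab_eq ν hψ hε (LemI.cont_of_char hψ hε θ hfχ) θ hfχ (le_max_right _ _)
    (fun w hw => hR₀ w ((le_max_left _ _).trans_lt hw)) hAm hAb hAs hA

/-- The operators `T_c` under a change of coordinates. -/
theorem isT_equiv (L : Wp ≃L[F] Wp) (hψ : Continuous ψ) (hψ1 : ψ ≠ 1) (h2 : (2 : F) ≠ 0)
    (hnd : ∀ w, (∀ x, B w x = 0) → w = 0)
    (hρ : ∀ w w', ρ w * ρ w' = ((ψ ((2 : F)⁻¹ * B w w') : Circle) : ℂ) • ρ (w + w'))
    (hc : ∀ w w', B (c w) w' = B (c w') w)
    (hc₁ : ∀ w, c w = w → w = 0) (hv : ∀ᶠ w in nhds (0 : Wp), ρ w v = v) {w₀ : S}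
    (hT : ∃ R₁ : ℝ, ∀ (ξ : S →ₗ[ℂ] ℂ) (R : ℝ), R₁ ≤ R →
      ∫ z in closedBall (0 : Wp) R,
        ((ψ ((4 : F)⁻¹ * B (c z) z) : Circle) : ℂ) * ξ (ρ z v) ∂ν = ξ w₀) :
    ∃ R₁ : ℝ, ∀ (ξ : S →ₗ[ℂ] ℂ) (R : ℝ), R₁ ≤ R →
      ∫ z in closedBall (0 : Wp) R,
        ((ψ ((4 : F)⁻¹ * B (c (L z)) (L z)) : Circle) : ℂ) * ξ (ρ (L z) v) ∂ν =
        ((Measure.addHaarScalarFactor (ν.map L) ν : ℝ≥0) : ℂ) * ξ w₀ := by
  have : ProperSpace Wp := FiniteDimensional.proper F Wp
  obtain ⟨ε, R₁, hε, hεR, hst⟩ := stab_set ν hψ hψ1 h2 hnd hρ hc hc₁ hv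
  obtain ⟨R₂, hR₂⟩ := hT
  set C : ℝ := ‖(L.symm : Wp →L[F] Wp)‖ with hC
  have hCL : ∀ z, ‖L.symm z‖ ≤ C * ‖z‖ := fun z => (L.symm : Wp →L[F] Wp).le_opNorm z
  have hC0 : 0 ≤ C := norm_nonneg _
  have hR₁0 : 0 ≤ R₁ := hε.le.trans hεR
  refine ⟨C * R₁, fun ξ R hR => ?_⟩
  set f : Wp → ℂ := fun z => ((ψ ((4 : F)⁻¹ * B (c z) z) : Circle) : ℂ) * ξ (ρ z v) with hf
  have hme : MeasurableEmbedding L := L.toHomeomorph.measurableEmbedding
  have h3 : L ⁻¹' (L '' closedBall (0 : Wp) R) = closedBall 0 R :=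
    Set.preimage_image_eq _ L.injective
  have h4 := hme.setIntegral_map (μ := ν) f (L '' closedBall (0 : Wp) R)
  rw [h3] at h4
  have hHaar : (ν.map L).IsAddHaarMeasure := L.isAddHaarMeasure_map ν
  have h5 : ν.map L = Measure.addHaarScalarFactor (ν.map L) ν • ν :=
    Measure.isAddLeftInvariant_eq_smul _ _
  have h6 : ∫ z in L '' closedBall (0 : Wp) R, f z ∂(ν.map L) =
      ((Measure.addHaarScalarFactor (ν.map L) ν : ℝ≥0) : ℂ) *
        ∫ z in L '' closedBall (0 : Wp) R, f z ∂ν := by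
    conv_lhs => rw [h5]
    rw [Measure.restrict_smul, integral_smul_nnreal_measure]
    rfl
  have hcomp : IsCompact (L '' closedBall (0 : Wp) R) :=
    (isCompact_closedBall _ _).image L.continuous
  have h7 : ∀ R', R₁ ≤ R' → ∫ z in closedBall (0 : Wp) R', f z ∂ν =
      ∫ z in closedBall (0 : Wp) R₁, f z ∂ν := by
    intro R' hR'
    refine hst _ isClosed_closedBall.measurableSet isBounded_closedBall (fun w x hx => ?_)
      (closedBall_subset_closedBall hR') ξ
    rw [mem_closedBall_zero_iff, mem_closedBall_zero_iff]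
    exact LemI.ball_add_iff (hεR.trans hR') hx
  have h8 : ∫ z in L '' closedBall (0 : Wp) R, f z ∂ν = ∫ z in closedBall (0 : Wp) R₁, f z ∂ν := by
    refine hst _ hcomp.measurableSet hcomp.isBounded (fun w x hx => ?_) ?_ ξ
    · have hm : ∀ z, z ∈ L '' closedBall (0 : Wp) R ↔ ‖L.symm z‖ ≤ R := by
        intro z
        constructor
        · rintro ⟨y, hy, rfl⟩
          rw [L.symm_apply_apply]
          exact mem_closedBall_zero_iff.1 hy
        · intro hz
          exact ⟨L.symm z, mem_closedBall_zero_iff.2 hz, L.apply_symm_apply z⟩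
      rw [hm, hm, map_add]
      refine LemI.ball_add_iff (le_refl R) ?_
      refine (hCL x).trans (le_trans ?_ hR)
      gcongr
      exact hx.trans hεR
    · intro z hz
      refine ⟨L.symm z, ?_, L.apply_symm_apply z⟩
      rw [mem_closedBall_zero_iff] at hz ⊢
      exact (hCL z).trans ((mul_le_mul_of_nonneg_left hz hC0).trans hR)
  rw [← hR₂ ξ (max R₁ R₂) (le_max_right _ _), h7 _ (le_max_left _ _), ← h8, ← h6, h4]

end stab

section mat

variable {F E : Type} [Field F] [Field E] [Algebra F E] {σ : E ≃ₐ[F] E} {δ : E} {d : F} {N : ℕ}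

/-- The Gram matrix of the form in the coordinates `x ↦ P x`. -/
def congH (σ : E ≃ₐ[F] E) (P : GL (Fin N) E) (H : Matrix (Fin N) (Fin N) E) :
    Matrix (Fin N) (Fin N) E :=
  (P : Matrix (Fin N) (Fin N) E)ᵀ * H * (P : Matrix (Fin N) (Fin N) E).map σ

theorem sk_congH (P : GL (Fin N) E) (H : Matrix (Fin N) (Fin N) E) (x y : Fin N → E) :
    sk σ (congH σ P H) x y = sk σ H ((P : Matrix (Fin N) (Fin N) E).mulVec x)
      ((P : Matrix (Fin N) (Fin N) E).mulVec y) := (HermC.sk_gram H _ x y).symm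

theorem sympl_congH (P : GL (Fin N) E) (H : Matrix (Fin N) (Fin N) E) (x y : Fin N → E) :
    sympl F σ (congH σ P H) x y = sympl F σ H ((P : Matrix (Fin N) (Fin N) E).mulVec x)
      ((P : Matrix (Fin N) (Fin N) E).mulVec y) := by
  rw [sympl_eq, sk_congH, ← sympl_eq]

theorem isSkew_congH (hq : QuadDatum σ δ d) (P : GL (Fin N) E) {H : Matrix (Fin N) (Fin N) E}
    (hH : IsSkew σ H) : IsSkew σ (congH σ P H) where
  skew i j := HermC.isSkew_gram hq hH _ i j
  det_ne := by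
    have h1 : (P : Matrix (Fin N) (Fin N) E).det ≠ 0 :=
      ((Matrix.isUnit_iff_isUnit_det _).1 P.isUnit).ne_zero
    rw [congH, Matrix.det_mul, Matrix.det_mul, Matrix.det_transpose, HermC.det_map]
    exact mul_ne_zero (mul_ne_zero h1 hH.det_ne) (fun h => h1 ((map_eq_zero σ).1 h))

theorem isom_congH (P : GL (Fin N) E) (H : Matrix (Fin N) (Fin N) E) :
    Isom σ (congH σ P H) H := ⟨P, fun x y => (sk_congH P H x y).symm⟩

theorem inv_mulVec_mulVec (P : GL (Fin N) E) (x : Fin N → E) :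
    ((P⁻¹ : GL (Fin N) E) : Matrix (Fin N) (Fin N) E).mulVec
      ((P : Matrix (Fin N) (Fin N) E).mulVec x) = x := by
  rw [Matrix.mulVec_mulVec, ← Units.val_mul, inv_mul_cancel, Units.val_one, Matrix.one_mulVec]

theorem mulVec_inv_mulVec (P : GL (Fin N) E) (x : Fin N → E) :
    (P : Matrix (Fin N) (Fin N) E).mulVec
      (((P⁻¹ : GL (Fin N) E) : Matrix (Fin N) (Fin N) E).mulVec x) = x := by
  rw [Matrix.mulVec_mulVec, ← Units.val_mul, mul_inv_cancel, Units.val_one, Matrix.one_mulVec]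

/-- `U(H') ≃ U(H)`, `u ↦ P u P⁻¹`. -/
def congU (P : GL (Fin N) E) (H : Matrix (Fin N) (Fin N) E) :
    unitary σ (congH σ P H) ≃* unitary σ H where
  toFun u := ⟨P * (u : GL (Fin N) E) * P⁻¹, fun x y => by
    have h1 := u.2 (((P⁻¹ : GL (Fin N) E) : Matrix (Fin N) (Fin N) E).mulVec x)
      (((P⁻¹ : GL (Fin N) E) : Matrix (Fin N) (Fin N) E).mulVec y)
    rw [sk_congH, sk_congH, mulVec_inv_mulVec, mulVec_inv_mulVec] at h1
    rw [Units.val_mul, Units.val_mul, ← Matrix.mulVec_mulVec, ← Matrix.mulVec_mulVec,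
      ← Matrix.mulVec_mulVec, ← Matrix.mulVec_mulVec]
    exact h1⟩
  invFun u := ⟨P⁻¹ * (u : GL (Fin N) E) * P, fun x y => by
    have h1 := u.2 ((P : Matrix (Fin N) (Fin N) E).mulVec x)
      ((P : Matrix (Fin N) (Fin N) E).mulVec y)
    rw [Units.val_mul, Units.val_mul, ← Matrix.mulVec_mulVec, ← Matrix.mulVec_mulVec,
      ← Matrix.mulVec_mulVec, ← Matrix.mulVec_mulVec, sk_congH, sk_congH, mulVec_inv_mulVec,
      mulVec_inv_mulVec]
    exact h1⟩
  left_inv u := by
    apply Subtype.ext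
    show P⁻¹ * (P * (u : GL (Fin N) E) * P⁻¹) * P = u
    group
  right_inv u := by
    apply Subtype.ext
    show P * (P⁻¹ * (u : GL (Fin N) E) * P) * P⁻¹ = u
    group
  map_mul' u v := by
    apply Subtype.ext
    show P * ((u : GL (Fin N) E) * (v : GL (Fin N) E)) * P⁻¹ =
      P * (u : GL (Fin N) E) * P⁻¹ * (P * (v : GL (Fin N) E) * P⁻¹)
    group

theorem coe_congU (P : GL (Fin N) E) (H : Matrix (Fin N) (Fin N) E)
    (u : unitary σ (congH σ P H)) :
    ((congU P H u : unitary σ H) : GL (Fin N) E) = P * (u : GL (Fin N) E) * P⁻¹ := rfl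

theorem coe_congU_symm (P : GL (Fin N) E) (H : Matrix (Fin N) (Fin N) E) (u : unitary σ H) :
    (((congU P H).symm u : unitary σ (congH σ P H)) : GL (Fin N) E) =
      P⁻¹ * (u : GL (Fin N) E) * P := rfl

theorem umat_congU (P : GL (Fin N) E) (H : Matrix (Fin N) (Fin N) E)
    (u : unitary σ (congH σ P H)) :
    umat (congU P H u) = (P : Matrix (Fin N) (Fin N) E) * umat u *
      ((P⁻¹ : GL (Fin N) E) : Matrix (Fin N) (Fin N) E) := rfl

theorem umat_congU_mulVec (P : GL (Fin N) E) (H : Matrix (Fin N) (Fin N) E)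
    (u : unitary σ (congH σ P H)) (x : Fin N → E) :
    (umat (congU P H u)).mulVec ((P : Matrix (Fin N) (Fin N) E).mulVec x) =
      (P : Matrix (Fin N) (Fin N) E).mulVec ((umat u).mulVec x) := by
  rw [umat_congU, ← Matrix.mulVec_mulVec, ← Matrix.mulVec_mulVec, inv_mulVec_mulVec]

theorem umat_congU_sub_one (P : GL (Fin N) E) (H : Matrix (Fin N) (Fin N) E)
    (u : unitary σ (congH σ P H)) :
    umat (congU P H u) - 1 = (P : Matrix (Fin N) (Fin N) E) * (umat u - 1) *
      ((P⁻¹ : GL (Fin N) E) : Matrix (Fin N) (Fin N) E) := by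
  have h1 : (P : Matrix (Fin N) (Fin N) E) * ((P⁻¹ : GL (Fin N) E) : Matrix (Fin N) (Fin N) E) =
      1 := by rw [← Units.val_mul, mul_inv_cancel, Units.val_one]
  rw [umat_congU, Matrix.mul_sub, Matrix.sub_mul, Matrix.mul_one, h1]

theorem det_congU (P : GL (Fin N) E) (H : Matrix (Fin N) (Fin N) E)
    (u : unitary σ (congH σ P H)) : (umat (congU P H u) - 1).det = (umat u - 1).det := by
  rw [umat_congU_sub_one, Matrix.det_mul, Matrix.det_mul, mul_right_comm, ← Matrix.det_mul,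
    ← Units.val_mul, mul_inv_cancel, Units.val_one, Matrix.det_one, one_mul]

/-- Linear maps to the Weil representation. -/
theorem hom_congU {S V : Type} [AddCommGroup S] [Module ℂ S] [AddCommGroup V] [Module ℂ V]
    (P : GL (Fin N) E) (H : Matrix (Fin N) (Fin N) E) (ω : unitary σ H →* Module.End ℂ S)
    (π : GL (Fin N) E →* Module.End ℂ V) (T : V →ₗ[ℂ] S)
    (hT : ∀ (u : unitary σ H) w, T (π u w) = ω u (T w)) (u : unitary σ (congH σ P H)) (w : V) :
    T (π P (π u w)) = ω (congU P H u) (T (π P w)) := by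
  rw [← hT, coe_congU, map_mul, map_mul, Module.End.mul_apply, Module.End.mul_apply,
    ← Module.End.mul_apply (π P⁻¹), ← map_mul, inv_mul_cancel, map_one, Module.End.one_apply]

/-- Bilinear forms. -/
theorem bil_congU {S V : Type} [AddCommGroup S] [Module ℂ S] [AddCommGroup V] [Module ℂ V]
    (P : GL (Fin N) E) (H : Matrix (Fin N) (Fin N) E) (ω : unitary σ H →* Module.End ℂ S)
    (π : GL (Fin N) E →* Module.End ℂ V) (b : V →ₗ[ℂ] S →ₗ[ℂ] ℂ)
    (hb : ∀ (u : unitary σ H) w s, b (π u w) (ω u s) = b w s) (u : unitary σ (congH σ P H))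
    (w : V) (s : S) : b (π P (π u w)) (ω (congU P H u) s) = b (π P w) s := by
  rw [← hb (congU P H u) (π P w) s, coe_congU, map_mul, map_mul, Module.End.mul_apply,
    Module.End.mul_apply, ← Module.End.mul_apply (π P⁻¹), ← map_mul, inv_mul_cancel, map_one,
    Module.End.one_apply]

end mat

section top

variable {F E : Type} [NontriviallyNormedField F] [IsUltrametricDist F] [ProperSpace F]
  [NontriviallyNormedField E] [NormedAlgebra F E] [IsUltrametricDist E] [ProperSpace E]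
  [MeasurableSpace E] [BorelSpace E]
  {σ : E ≃ₐ[F] E} {δ : E} {d : F} {N : ℕ} {H : Matrix (Fin N) (Fin N) E}
  {ψ : AddChar F Circle} {μ : Eˣ →* ℂˣ} {S : Type} [AddCommGroup S] [Module ℂ S]
  {ρ : (Fin N → E) → Module.End ℂ S} {ω : unitary σ H →* Module.End ℂ S}

omit [IsUltrametricDist F] [ProperSpace F] [IsUltrametricDist E] [ProperSpace E]
  [MeasurableSpace E] [BorelSpace E] in
theorem continuous_congU (P : GL (Fin N) E) (H : Matrix (Fin N) (Fin N) E) :
    Continuous (congU P H : unitary σ (congH σ P H) → unitary σ H) := by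
  refine Continuous.subtype_mk ?_ _
  exact (continuous_const.mul continuous_subtype_val).mul continuous_const

omit [IsUltrametricDist F] [ProperSpace F] [IsUltrametricDist E] [ProperSpace E]
  [MeasurableSpace E] [BorelSpace E] in
theorem continuous_congU_symm (P : GL (Fin N) E) (H : Matrix (Fin N) (Fin N) E) :
    Continuous ((congU P H).symm : unitary σ H → unitary σ (congH σ P H)) := by
  refine Continuous.subtype_mk ?_ _
  exact (continuous_const.mul continuous_subtype_val).mul continuous_const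

omit [IsUltrametricDist F] [ProperSpace F] [IsUltrametricDist E] [ProperSpace E]
  [MeasurableSpace E] [BorelSpace E] in
theorem cayley_congU (P : GL (Fin N) E) (H : Matrix (Fin N) (Fin N) E)
    (u : unitary σ (congH σ P H)) {d' : Eˣ} (hd : (d' : E) = (umat u - 1).det) :
    cayley (umat (congU P H u)) = (P : Matrix (Fin N) (Fin N) E) * cayley (umat u) *
      ((P⁻¹ : GL (Fin N) E) : Matrix (Fin N) (Fin N) E) := by
  have h1 : (P : Matrix (Fin N) (Fin N) E) * ((P⁻¹ : GL (Fin N) E) : Matrix (Fin N) (Fin N) E) =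
      1 := by rw [← Units.val_mul, mul_inv_cancel, Units.val_one]
  have h2 : ((P⁻¹ : GL (Fin N) E) : Matrix (Fin N) (Fin N) E) * (P : Matrix (Fin N) (Fin N) E) =
      1 := by rw [← Units.val_mul, inv_mul_cancel, Units.val_one]
  have hdet : IsUnit (umat u - 1).det := by rw [← hd]; exact d'.isUnit
  have h3 : umat (congU P H u) + 1 = (P : Matrix (Fin N) (Fin N) E) * (umat u + 1) *
      ((P⁻¹ : GL (Fin N) E) : Matrix (Fin N) (Fin N) E) := by
    rw [umat_congU, Matrix.mul_add, Matrix.add_mul, Matrix.mul_one, h1]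
  have h4 : (umat (congU P H u) - 1)⁻¹ = (P : Matrix (Fin N) (Fin N) E) * (umat u - 1)⁻¹ *
      ((P⁻¹ : GL (Fin N) E) : Matrix (Fin N) (Fin N) E) := by
    apply Matrix.inv_eq_right_inv
    rw [umat_congU_sub_one]
    calc (P : Matrix (Fin N) (Fin N) E) * (umat u - 1) *
          ((P⁻¹ : GL (Fin N) E) : Matrix (Fin N) (Fin N) E) *
          ((P : Matrix (Fin N) (Fin N) E) * (umat u - 1)⁻¹ *
            ((P⁻¹ : GL (Fin N) E) : Matrix (Fin N) (Fin N) E)) =
        (P : Matrix (Fin N) (Fin N) E) * ((umat u - 1) *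
          (((P⁻¹ : GL (Fin N) E) : Matrix (Fin N) (Fin N) E) *
            (P : Matrix (Fin N) (Fin N) E)) * (umat u - 1)⁻¹) *
            ((P⁻¹ : GL (Fin N) E) : Matrix (Fin N) (Fin N) E) := by
          simp only [Matrix.mul_assoc]
      _ = 1 := by
          rw [h2, Matrix.mul_one, Matrix.mul_nonsing_inv _ hdet, Matrix.mul_one, h1]
  rw [cayley, cayley, h3, h4]
  calc (P : Matrix (Fin N) (Fin N) E) * (umat u + 1) *
        ((P⁻¹ : GL (Fin N) E) : Matrix (Fin N) (Fin N) E) *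
        ((P : Matrix (Fin N) (Fin N) E) * (umat u - 1)⁻¹ *
          ((P⁻¹ : GL (Fin N) E) : Matrix (Fin N) (Fin N) E)) =
      (P : Matrix (Fin N) (Fin N) E) * ((umat u + 1) *
        (((P⁻¹ : GL (Fin N) E) : Matrix (Fin N) (Fin N) E) *
          (P : Matrix (Fin N) (Fin N) E)) * (umat u - 1)⁻¹) *
          ((P⁻¹ : GL (Fin N) E) : Matrix (Fin N) (Fin N) E) := by
        simp only [Matrix.mul_assoc]
    _ = _ := by rw [h2, Matrix.mul_one]

/-- `x ↦ P x` as a continuous `F`-linear automorphism. -/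
noncomputable def mulE (F : Type) {E : Type} [NontriviallyNormedField F]
    [NontriviallyNormedField E] [NormedAlgebra F E] {N : ℕ} (P : GL (Fin N) E) :
    (Fin N → E) ≃L[F] (Fin N → E) where
  toFun x := (P : Matrix (Fin N) (Fin N) E).mulVec x
  invFun x := ((P⁻¹ : GL (Fin N) E) : Matrix (Fin N) (Fin N) E).mulVec x
  map_add' _ _ := Matrix.mulVec_add _ _ _
  map_smul' _ _ := mulVec_fsmul _ _ _
  left_inv x := inv_mulVec_mulVec P x
  right_inv x := mulVec_inv_mulVec P x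
  continuous_toFun := Continuous.matrix_mulVec continuous_const continuous_id
  continuous_invFun := Continuous.matrix_mulVec continuous_const continuous_id

omit [IsUltrametricDist F] [ProperSpace F] [IsUltrametricDist E] [ProperSpace E]
  [MeasurableSpace E] [BorelSpace E] in
theorem mulE_apply (P : GL (Fin N) E) (x : Fin N → E) :
    mulE F P x = (P : Matrix (Fin N) (Fin N) E).mulVec x := rfl

/-- Transport of the Weil representation. -/
theorem isWeil_congH (hq : QuadDatum σ δ d) (hH : IsSkew σ H) (hψ : Continuous ψ) (hψ1 : ψ ≠ 1)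
    (P : GL (Fin N) E) (hW : IsWeil σ H ψ μ ρ ω) :
    IsWeil σ (congH σ P H) ψ μ (fun w => ρ ((P : Matrix (Fin N) (Fin N) E).mulVec w))
      (ω.comp (congU P H).toMonoidHom) where
  nontrivial := hW.nontrivial
  rho_mul w w' := by
    rw [hW.rho_mul, sympl_congH, Matrix.mulVec_add]
  rho_smooth v := by
    have h1 : Filter.Tendsto (fun w : Fin N → E => (P : Matrix (Fin N) (Fin N) E).mulVec w)
        (nhds 0) (nhds 0) := by
      have h2 : Continuous fun w : Fin N → E => (P : Matrix (Fin N) (Fin N) E).mulVec w :=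
        Continuous.matrix_mulVec continuous_const continuous_id
      have h3 := h2.tendsto 0
      rwa [Matrix.mulVec_zero] at h3
    exact h1.eventually (hW.rho_smooth v)
  rho_irr T hT := by
    refine hW.rho_irr T fun w v hv => ?_
    have h1 := hT (((P⁻¹ : GL (Fin N) E) : Matrix (Fin N) (Fin N) E).mulVec w) v hv
    rwa [mulVec_inv_mulVec] at h1
  om_smooth v := by
    have h1 : Filter.Tendsto (congU P H : unitary σ (congH σ P H) → unitary σ H)
        (nhds 1) (nhds 1) := by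
      have h3 := (continuous_congU (σ := σ) P H).tendsto 1
      rwa [map_one] at h3
    exact h1.eventually (hW.om_smooth v)
  om_rho g w := by
    have h1 := hW.om_rho (congU P H g) ((P : Matrix (Fin N) (Fin N) E).mulVec w)
    rw [umat_congU_mulVec] at h1
    exact h1
  normalised := by
    have hfd := hq.finite
    obtain ⟨κ, hκ⟩ := hW.normalised
    have hHaar : ((Measure.addHaar : Measure (Fin N → E)).map (mulE F P)).IsAddHaarMeasure :=
      (mulE F P).isAddHaarMeasure_map _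
    set k : ℝ≥0 := Measure.addHaarScalarFactor
      ((Measure.addHaar : Measure (Fin N → E)).map (mulE F P)) Measure.addHaar with hk
    have hk0 : k ≠ 0 := (Measure.addHaarScalarFactor_pos_of_isAddHaarMeasure _ _).ne'
    have hk1 : ((k : ℝ≥0) : ℂ) ≠ 0 := by
      intro h
      exact hk0 (by exact_mod_cast h)
    refine ⟨κ * ((k : ℝ≥0) : ℂ)⁻¹, fun g d' hd v ξ => ?_⟩
    set g₀ := congU P H g with hg₀
    have hd₀ : (d' : E) = (umat g₀ - 1).det := by rw [hg₀, det_congU, hd]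
    have hu : IsUnit (umat g₀ - 1) := isUnit_sub_one hd₀
    obtain ⟨T, hT⟩ := exists_isT (S := S) hq hH hψ hψ1 hW.rho_mul hW.rho_smooth hu
    have h1 := isT_equiv (Measure.addHaar : Measure (Fin N → E)) (mulE F P) hψ hψ1 hq.two
      (B := symplB F σ H) (ρ := ρ) (c := mulL F (cayley (umat g₀))) (v := v)
      (fun w hw => sympl_nondeg hq hH hw) hW.rho_mul (cay_symm hq hH hu) (cay_one hq hu)
      (hW.rho_smooth v) (hT v)
    obtain ⟨R₁, hR₁⟩ := h1
    obtain ⟨R₂, hR₂⟩ := hT v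
    obtain ⟨r, h2, h3⟩ := ((hκ g₀ d' hd₀ v ξ).and (Filter.eventually_ge_atTop R₂)).exists
    have h4 : ξ (ω g₀ v) = κ * ((μ d' : ℂˣ) : ℂ) * (((absE d') ^ (-(1 / 2) : ℝ) : ℝ) : ℂ) *
        ξ (T v) := by
      rw [h2, ← hR₂ ξ r h3]
      rfl
    filter_upwards [Filter.eventually_ge_atTop R₁] with R hR
    have h5 := hR₁ ξ R hR
    have h6 : ∫ w in closedBall (0 : Fin N → E) R,
        ((ψ ((4 : F)⁻¹ * sympl F σ (congH σ P H) ((cayley (umat g)).mulVec w) w) : Circle) : ℂ)
          * ξ (ρ ((P : Matrix (Fin N) (Fin N) E).mulVec w) v) ∂(Measure.addHaar) =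
        ((k : ℝ≥0) : ℂ) * ξ (T v) := by
      rw [← h5]
      refine integral_congr_ae (Filter.Eventually.of_forall fun w => ?_)
      have h7 : (cayley (umat g₀)).mulVec ((P : Matrix (Fin N) (Fin N) E).mulVec w) =
          (P : Matrix (Fin N) (Fin N) E).mulVec ((cayley (umat g)).mulVec w) := by
        rw [hg₀, cayley_congU P H g hd, Matrix.mulVec_mulVec, Matrix.mulVec_mulVec, mul_assoc,
          mul_assoc, ← Units.val_mul, inv_mul_cancel, Units.val_one, mul_one]
      show ((ψ ((4 : F)⁻¹ * sympl F σ (congH σ P H) ((cayley (umat g)).mulVec w) w) : Circle) : ℂ)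
          * ξ (ρ ((P : Matrix (Fin N) (Fin N) E).mulVec w) v) = ((ψ ((4 : F)⁻¹ * sympl F σ H
        ((cayley (umat g₀)).mulVec ((P : Matrix (Fin N) (Fin N) E).mulVec w))
        ((P : Matrix (Fin N) (Fin N) E).mulVec w)) : Circle) : ℂ) *
          ξ (ρ ((P : Matrix (Fin N) (Fin N) E).mulVec w) v)
      rw [h7, sympl_congH]
    show ξ (ω g₀ v) = _
    rw [h6, h4]
    field_simp

omit [MeasurableSpace E] [BorelSpace E] in
/-- Every form is diagonal in suitable coordinates. -/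
theorem exists_diagH (hq : QuadDatum σ δ d) (hH : IsSkew σ H) :
    ∃ (P : GL (Fin N) E) (x : Fin N → E), congH σ P H = Matrix.diagonal x ∧ (∀ i, x i ≠ 0) ∧
      ∀ i, σ (x i) = -x i := by
  have key : ∃ (P : GL (Fin N) E) (x : Fin N → E), congH σ P H = Matrix.diagonal x := by
    rcases N with _ | n
    · exact ⟨1, fun i => i.elim0, by ext i; exact i.elim0⟩
    · obtain ⟨a, _, ha⟩ := HermC.exists_dg hq
        (fun a b c ha hb hc => HermC.exists_rep hq ha hb hc) hH
      rw [HermC.isom_iff] at ha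
      obtain ⟨g, hg⟩ := ha
      exact ⟨g, _, hg.symm⟩
  obtain ⟨P, x, hx⟩ := key
  have h1 := isSkew_congH hq P hH
  rw [hx] at h1
  refine ⟨P, x, hx, fun i hi => ?_, fun i => ?_⟩
  · apply h1.det_ne
    rw [Matrix.det_diagonal]
    exact Finset.prod_eq_zero (Finset.mem_univ i) hi
  · have h2 := h1.skew i i
    rw [Matrix.diagonal_apply_eq] at h2
    rw [← neg_eq_iff_eq_neg] at h2
    rw [← h2]

end top

end SpW.Mo
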