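import Pool.Agent.Work.MP_3615d2_al.ModDet
import Pool.Agent.Work.MP_3615d2_al.LemA

/-!
MP_3615d2_al, (MO), the vanishing case: the ball estimate.

`X` a vector space over the local field `F`, `Q : X → F^k` quadratic, anisotropic on a subspace of
dimension `> 2k` and zero on a complement.  If `W(t) λ = ∫_X ψ(t · Q(x)) Φ(x) dx` for all `t`,
with `W > 0` continuous and `Φ ∈ C_c(X)`, then `λ = 0`.
-/

open MeasureTheory Measure Metric Set Filter Topology
open scoped NNReal ENNReal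

namespace SpW.Mo

section vol

variable {F : Type} [NontriviallyNormedField F] [ProperSpace F]
  {X : Type} [NormedAddCommGroup X] [NormedSpace F X] [FiniteDimensional F X]

omit [ProperSpace F] in
/-- the automorphism `a P + (1 - P)`, its determinant -/
theorem det_proj (P : X →ₗ[F] X) (hP : P ∘ₗ P = P) {a : F} (ha : a ≠ 0) :
    ∃ T : X ≃ₗ[F] X, (∀ x, T x = a • P x + (x - P x)) ∧
      LinearMap.det (T : X →ₗ[F] X) = a ^ Module.finrank F (LinearMap.range P) := by
  have hPP : ∀ x, P (P x) = P x := fun x => LinearMap.congr_fun hP x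
  let f : X →ₗ[F] X := a • P + (LinearMap.id - P)
  let g : X →ₗ[F] X := a⁻¹ • P + (LinearMap.id - P)
  have hf : ∀ x, f x = a • P x + (x - P x) := fun x => rfl
  have hg : ∀ x, g x = a⁻¹ • P x + (x - P x) := fun x => rfl
  have hfg : ∀ x, f (g x) = x := by
    intro x
    have h1 : P (g x) = a⁻¹ • P x := by
      rw [hg, map_add, map_smul, map_sub, hPP, sub_self, add_zero]
    rw [hf, h1, smul_smul, mul_inv_cancel₀ ha, one_smul, hg]
    abel
  have hgf : ∀ x, g (f x) = x := by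
    intro x
    have h1 : P (f x) = a • P x := by
      rw [hf, map_add, map_smul, map_sub, hPP, sub_self, add_zero]
    rw [hg, h1, smul_smul, inv_mul_cancel₀ ha, one_smul, hf]
    abel
  let T : X ≃ₗ[F] X := LinearEquiv.ofLinearMap f g (LinearMap.ext hfg) (LinearMap.ext hgf)
  refine ⟨T, hf, ?_⟩
  have hc : IsCompl (LinearMap.range P) (LinearMap.ker P) := by
    refine ⟨?_, ?_⟩
    · rw [Submodule.disjoint_def]
      rintro _ ⟨x, rfl⟩ hx
      rw [LinearMap.mem_ker, hPP] at hx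
      exact hx
    · rw [codisjoint_iff, Submodule.eq_top_iff']
      intro x
      have h1 : x = P x + (x - P x) := by abel
      rw [h1]
      refine Submodule.add_mem_sup ⟨x, rfl⟩ ?_
      rw [LinearMap.mem_ker, map_sub, hPP, sub_self]
  let e := Submodule.prodEquivOfIsCompl _ _ hc
  have h1 : (T : X →ₗ[F] X) = (e : _ →ₗ[F] X) ∘ₗ
      ((a • LinearMap.id : LinearMap.range P →ₗ[F] LinearMap.range P).prodMap
        (LinearMap.id : LinearMap.ker P →ₗ[F] LinearMap.ker P)) ∘ₗ (e.symm : X →ₗ[F] _) := by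
    apply LinearMap.ext
    intro x
    obtain ⟨⟨u, v⟩, rfl⟩ := e.surjective x
    have hu : P (u : X) = u := by
      obtain ⟨y, hy⟩ := u.2
      rw [← hy, hPP]
    have hv : P (v : X) = 0 := v.2
    show T (e (u, v)) = e ((a • LinearMap.id : LinearMap.range P →ₗ[F] LinearMap.range P).prodMap
        (LinearMap.id : LinearMap.ker P →ₗ[F] LinearMap.ker P) (e.symm (e (u, v))))
    rw [e.symm_apply_apply]
    show f (e (u, v)) = _
    rw [hf]
    simp only [e, Submodule.coe_prodEquivOfIsCompl', LinearMap.prodMap_apply, LinearMap.smul_apply,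
      LinearMap.id_apply, Submodule.coe_smul, map_add, hu, hv]
    abel_nf
  rw [h1, LinearMap.det_conj, LinearMap.det_prodMap, LinearMap.det_smul, LinearMap.det_id,
    LinearMap.det_id, mul_one, mul_one]

variable [MeasurableSpace X] [BorelSpace X]

/-- volume of the set of bounded `x` with small projection -/
theorem vol_proj (μ : Measure X) [μ.IsAddHaarMeasure] (P : X →ₗ[F] X) (hP : P ∘ₗ P = P)
    (r s : ℝ) (hs : 0 ≤ s) :
    ∃ C : ℝ≥0, ∀ a : F, a ≠ 0 → ‖a‖ ≤ 1 →
      μ {x | ‖x‖ ≤ r ∧ ‖P x‖ ≤ s * ‖a‖} ≤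
        ((C * md a ^ Module.finrank F (LinearMap.range P) : ℝ≥0) : ℝ≥0∞) := by
  have i0 : ProperSpace X := FiniteDimensional.proper F X
  have hfin : μ (closedBall (0 : X) (2 * s + r)) ≠ ∞ := (isCompact_closedBall 0 _).measure_lt_top.ne
  refine ⟨(μ (closedBall (0 : X) (2 * s + r))).toNNReal, fun a ha ha1 => ?_⟩
  obtain ⟨T, hT, hdet⟩ := det_proj P hP ha
  have hPP : ∀ x, P (P x) = P x := fun x => LinearMap.congr_fun hP x
  have han : 0 < ‖a‖ := norm_pos_iff.2 ha
  have h1 : {x | ‖x‖ ≤ r ∧ ‖P x‖ ≤ s * ‖a‖} ⊆ T '' closedBall (0 : X) (2 * s + r) := by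
    rintro x ⟨hx1, hx2⟩
    refine ⟨a⁻¹ • P x + (x - P x), ?_, ?_⟩
    · rw [mem_closedBall_zero_iff]
      have h2 : ‖a⁻¹ • P x‖ ≤ s := by
        rw [norm_smul, norm_inv, inv_mul_le_iff₀ han, mul_comm]
        exact hx2
      have h3 : ‖P x‖ ≤ s := hx2.trans (mul_le_of_le_one_right hs ha1)
      calc ‖a⁻¹ • P x + (x - P x)‖ ≤ ‖a⁻¹ • P x‖ + ‖x - P x‖ := norm_add_le _ _
        _ ≤ s + (r + s) := add_le_add h2 ((norm_sub_le _ _).trans (add_le_add hx1 h3))
        _ = 2 * s + r := by ring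
    · rw [hT, map_add, map_smul, map_sub, hPP, sub_self, add_zero, smul_smul, mul_inv_cancel₀ ha,
        one_smul]
      abel
  refine (measure_mono h1).trans ?_
  rw [image_linearEquiv μ T, hdet, md_pow, mul_comm, ENNReal.coe_mul, ENNReal.coe_toNNReal hfin]

omit [MeasurableSpace X] [BorelSpace X] in
/-- a quadratic map which is anisotropic on the image of a projection -/
theorem quad_lower {Z : Type} [NormedAddCommGroup Z] [NormedSpace F Z] (Q : X → Z)
    (hQc : Continuous Q) (hQ2 : ∀ (a : F) x, Q (a • x) = (a ^ 2) • Q x) (P : X →ₗ[F] X)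
    (hQP : ∀ x, Q (P x) = Q x) (hQ0 : ∀ x, Q x = 0 → P x = 0) (hPP : ∀ x, P (P x) = P x) :
    ∃ c : ℝ, 0 < c ∧ ∀ x, c * ‖P x‖ ^ 2 ≤ ‖Q x‖ := by
  have i0 : ProperSpace X := FiniteDimensional.proper F X
  obtain ⟨ϖ, hϖ⟩ := NormedField.exists_one_lt_norm F
  have hϖ0 : 0 < ‖ϖ‖ := one_pos.trans hϖ
  have hPc : Continuous P := P.continuous_of_finiteDimensional
  let K : Set X := {x | P x = x ∧ 1 ≤ ‖x‖ ∧ ‖x‖ ≤ ‖ϖ‖}
  have hK : IsCompact K := by
    have h1 : K = closedBall 0 ‖ϖ‖ ∩ ({x | P x = x} ∩ {x | 1 ≤ ‖x‖}) := by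
      ext x
      simp only [K, mem_ofPred_eq, mem_inter_iff, mem_closedBall_zero_iff]
      tauto
    rw [h1]
    exact (isCompact_closedBall 0 _).inter_right
      ((isClosed_eq hPc continuous_id).inter (isClosed_le continuous_const continuous_norm))
  have hpos : ∀ x ∈ K, 0 < ‖Q x‖ := by
    rintro x ⟨h1, h2, _⟩
    rw [norm_pos_iff]
    intro h3
    have h4 := hQ0 x h3
    rw [h1] at h4
    rw [h4, norm_zero] at h2
    linarith
  obtain ⟨m, hm, hmK⟩ : ∃ m : ℝ, 0 < m ∧ ∀ x ∈ K, m ≤ ‖Q x‖ := by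
    by_cases hne : K.Nonempty
    · obtain ⟨x₀, hx₀, hmin⟩ := hK.exists_isMinOn hne (hQc.norm.continuousOn)
      exact ⟨‖Q x₀‖, hpos x₀ hx₀, fun x hx => hmin hx⟩
    · exact ⟨1, one_pos, fun x hx => absurd ⟨x, hx⟩ hne⟩
  refine ⟨m / ‖ϖ‖ ^ 2, by positivity, fun x => ?_⟩
  by_cases hx : P x = 0
  · rw [hx, norm_zero]
    simp
  have hxn : 0 < ‖P x‖ := norm_pos_iff.2 hx
  obtain ⟨n, hn1, hn2⟩ := exists_mem_Ico_zpow hxn hϖ
  have hϖne : ϖ ≠ 0 := norm_pos_iff.1 hϖ0
  set a : F := (ϖ ^ n)⁻¹ with ha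
  have han : ‖a‖ = (‖ϖ‖ ^ n)⁻¹ := by rw [ha, norm_inv, norm_zpow]
  have hzp : 0 < ‖ϖ‖ ^ n := zpow_pos hϖ0 n
  have h1 : a • P x ∈ K := by
    refine ⟨by rw [map_smul, hPP], ?_, ?_⟩
    · rw [norm_smul, han, le_inv_mul_iff₀ hzp, mul_one]
      exact hn1
    · rw [norm_smul, han, inv_mul_le_iff₀ hzp]
      rw [zpow_add₀ hϖ0.ne', zpow_one] at hn2
      exact hn2.le
  have h2 := hmK _ h1
  rw [hQ2, hQP, norm_smul, norm_pow, han, inv_pow, le_inv_mul_iff₀ (by positivity)] at h2
  have h3 : ‖P x‖ ^ 2 ≤ (‖ϖ‖ ^ n) ^ 2 * ‖ϖ‖ ^ 2 := by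
    rw [← mul_pow]
    rw [zpow_add₀ hϖ0.ne', zpow_one] at hn2
    exact pow_le_pow_left₀ hxn.le hn2.le 2
  calc m / ‖ϖ‖ ^ 2 * ‖P x‖ ^ 2 ≤ m / ‖ϖ‖ ^ 2 * ((‖ϖ‖ ^ n) ^ 2 * ‖ϖ‖ ^ 2) :=
        mul_le_mul_of_nonneg_left h3 (by positivity)
    _ = (‖ϖ‖ ^ n) ^ 2 * m := by field_simp
    _ ≤ _ := h2

end vol

section ball

variable {F : Type} [NontriviallyNormedField F] [IsUltrametricDist F] [ProperSpace F]

omit [ProperSpace F] in
/-- the integral of the characters `t ↦ ψ(t · q)` over a ball -/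
theorem int_char_ball {k : ℕ} {ψ : AddChar F Circle} {a₀ : F} (ha₀ : ψ a₀ ≠ 1)
    [MeasurableSpace (Fin k → F)] [BorelSpace (Fin k → F)] (ν : Measure (Fin k → F))
    [ν.IsAddHaarMeasure] (q : Fin k → F) (R : ℝ) (hR : 0 < R) (hq : ‖a₀‖ / R < ‖q‖) :
    ∫ t in closedBall (0 : Fin k → F) R, ((ψ (∑ i, t i * q i) : Circle) : ℂ) ∂ν = 0 := by
  obtain ⟨j, hj⟩ : ∃ j, ‖a₀‖ / R < ‖q j‖ := by
    by_contra h
    push Not at h
    have := (pi_norm_le_iff_of_nonneg (by positivity)).2 h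
    linarith
  have hqj : 0 < ‖q j‖ := lt_of_le_of_lt (by positivity) hj
  have hqj0 : q j ≠ 0 := norm_pos_iff.1 hqj
  refine LemI.char_int ν (fun t => ψ (∑ i, t i * q i)) (fun x y _ _ => ?_)
    (Pi.single j (a₀ / q j)) ?_ ?_
  · rw [← AddChar.map_add_eq_mul, ← Finset.sum_add_distrib]
    congr 1
    exact Finset.sum_congr rfl fun i _ => by rw [Pi.add_apply, add_mul]
  · rw [Pi.norm_single, norm_div, div_le_iff₀ hqj]
    rw [div_lt_iff₀ hR] at hj
    rw [mul_comm]
    exact hj.le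
  · have h1 : ∑ i, (Pi.single j (a₀ / q j) : Fin k → F) i * q i = a₀ := by
      rw [Finset.sum_eq_single j]
      · rw [Pi.single_eq_same, div_mul_cancel₀ _ hqj0]
      · intro i _ hi
        rw [Pi.single_eq_of_ne hi, zero_mul]
      · intro h
        exact absurd (Finset.mem_univ j) h
    rw [h1]
    exact ha₀

variable {X : Type} [NormedAddCommGroup X] [NormedSpace F X] [FiniteDimensional F X]
  [MeasurableSpace X] [BorelSpace X]

theorem ball_zero {k : ℕ} {ψ : AddChar F Circle} (hψ : Continuous ψ) (hψ1 : ψ ≠ 1)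
    (μ : Measure X) [μ.IsAddHaarMeasure] (Q : X → Fin k → F) (hQc : Continuous Q)
    (hQ2 : ∀ (a : F) x, Q (a • x) = (a ^ 2) • Q x) (P : X →ₗ[F] X) (hP : P ∘ₗ P = P)
    (hQP : ∀ x, Q (P x) = Q x) (hQ0 : ∀ x, Q x = 0 → P x = 0)
    (hrank : 2 * k < Module.finrank F (LinearMap.range P))
    (Φ : X → ℂ) (hΦc : Continuous Φ) (hΦs : HasCompactSupport Φ)
    (W : (Fin k → F) → ℝ) (hW : Continuous W) (hW0 : ∀ t, 0 < W t) (c₀ : ℂ)
    (h : ∀ t : Fin k → F, (W t : ℂ) * c₀ =
      ∫ x, ((ψ (∑ i, t i * Q x i) : Circle) : ℂ) * Φ x ∂μ) : c₀ = 0 := by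
  classical
  have i0 : ProperSpace X := FiniteDimensional.proper F X
  let _ : MeasurableSpace (Fin k → F) := borel _
  have i1 : BorelSpace (Fin k → F) := ⟨rfl⟩
  let ν : Measure (Fin k → F) := addHaar
  obtain ⟨a₀, ha₀⟩ : ∃ a, ψ a ≠ 1 := by
    by_contra h
    push Not at h
    exact hψ1 (DFunLike.ext _ _ h)
  have ha0 : 0 < ‖a₀‖ := by
    rw [norm_pos_iff]
    rintro rfl
    exact ha₀ (AddChar.map_zero_eq_one ψ)
  have hPP : ∀ x, P (P x) = P x := fun x => LinearMap.congr_fun hP x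
  obtain ⟨c, hc, hlow⟩ := quad_lower Q hQc hQ2 P hQP hQ0 hPP
  -- the support and the bound of `Φ`
  obtain ⟨r, hr⟩ := hΦs.isBounded.subset_closedBall (0 : X)
  obtain ⟨M, hM⟩ := hΦs.exists_bound_of_continuous hΦc
  have hM0 : 0 ≤ M := (norm_nonneg _).trans (hM 0)
  have hΦi : Integrable Φ μ := hΦc.integrable_of_hasCompactSupport hΦs
  set s : ℝ := Real.sqrt (‖a₀‖ / c) with hs
  have hs0 : 0 ≤ s := Real.sqrt_nonneg _
  obtain ⟨C, hC⟩ := vol_proj μ P hP r s hs0
  set n' := Module.finrank F (LinearMap.range P) with hn'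
  -- volume of the ball in `F^k`
  have hV0 : ν (closedBall (0 : Fin k → F) 1) ≠ ∞ := (isCompact_closedBall 0 _).measure_lt_top.ne
  have hball : ∀ a : F, a ≠ 0 → ν (closedBall (0 : Fin k → F) (‖a‖ ^ 2)⁻¹) =
      (((md a ^ (2 * k))⁻¹ * (ν (closedBall (0 : Fin k → F) 1)).toNNReal : ℝ≥0) : ℝ≥0∞) := by
    intro a ha
    have han : 0 < ‖a‖ := norm_pos_iff.2 ha
    have hb : (a ^ 2)⁻¹ ≠ 0 := inv_ne_zero (pow_ne_zero 2 ha)
    let T : (Fin k → F) ≃ₗ[F] (Fin k → F) := LinearEquiv.smulOfNeZero F _ _ hb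
    have h1 : T '' closedBall (0 : Fin k → F) 1 = closedBall (0 : Fin k → F) (‖a‖ ^ 2)⁻¹ := by
      ext x
      constructor
      · rintro ⟨y, hy, rfl⟩
        rw [mem_closedBall_zero_iff] at hy ⊢
        show ‖(a ^ 2)⁻¹ • y‖ ≤ _
        rw [norm_smul, norm_inv, norm_pow]
        exact mul_le_of_le_one_right (by positivity) hy
      · intro hx
        rw [mem_closedBall_zero_iff] at hx
        refine ⟨(a ^ 2) • x, ?_, ?_⟩
        · rw [mem_closedBall_zero_iff, norm_smul, norm_pow]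
          calc ‖a‖ ^ 2 * ‖x‖ ≤ ‖a‖ ^ 2 * (‖a‖ ^ 2)⁻¹ :=
                mul_le_mul_of_nonneg_left hx (by positivity)
            _ = 1 := mul_inv_cancel₀ (by positivity)
        · show (a ^ 2)⁻¹ • (a ^ 2) • x = x
          rw [smul_smul, inv_mul_cancel₀ (pow_ne_zero 2 ha), one_smul]
    have h2 : LinearMap.det (T : (Fin k → F) →ₗ[F] (Fin k → F)) = ((a ^ 2)⁻¹) ^ k := by
      have h3 : (T : (Fin k → F) →ₗ[F] (Fin k → F)) = (a ^ 2)⁻¹ • LinearMap.id := rfl
      rw [h3, LinearMap.det_smul, LinearMap.det_id, mul_one, Module.finrank_fin_fun]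
    rw [← h1, image_linearEquiv ν T, h2, md_pow, md_inv, md_pow, ENNReal.coe_mul,
      ENNReal.coe_toNNReal hV0, inv_pow, ← pow_mul]
  -- the identity integrated over a ball
  have hpsi : Continuous fun p : (Fin k → F) × X => ((ψ (∑ i, p.1 i * Q p.2 i) : Circle) : ℂ) := by
    refine continuous_subtype_val.comp (hψ.comp ?_)
    refine continuous_finsetSum _ fun i _ => ?_
    exact ((continuous_apply i).comp continuous_fst).mul
      ((continuous_apply i).comp (hQc.comp continuous_snd))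
  have hid : ∀ R : ℝ, 0 < R → ((∫ t in closedBall (0 : Fin k → F) R, W t ∂ν : ℝ) : ℂ) * c₀ =
      ∫ x, (∫ t in closedBall (0 : Fin k → F) R,
        ((ψ (∑ i, t i * Q x i) : Circle) : ℂ) ∂ν) * Φ x ∂μ := by
    intro R hR
    have hfinB : IsFiniteMeasure (ν.restrict (closedBall (0 : Fin k → F) R)) :=
      ⟨by rw [Measure.restrict_apply_univ]; exact (isCompact_closedBall _ R).measure_lt_top⟩
    have hint : Integrable (Function.uncurry fun (t : Fin k → F) (x : X) =>
        ((ψ (∑ i, t i * Q x i) : Circle) : ℂ) * Φ x)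
        ((ν.restrict (closedBall (0 : Fin k → F) R)).prod μ) := by
      have hg2 : Integrable (fun p : (Fin k → F) × X => Φ p.2)
          ((ν.restrict (closedBall (0 : Fin k → F) R)).prod μ) := by
        have := (integrable_const (μ := ν.restrict (closedBall (0 : Fin k → F) R))
          (1 : ℂ)).mul_prod hΦi
        simpa using this
      refine Integrable.mono hg2 ?_ ?_
      · exact hpsi.aestronglyMeasurable.mul hg2.aestronglyMeasurable
      · refine Filter.Eventually.of_forall fun p => ?_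
        simp only [Function.uncurry, norm_mul, Circle.norm_coe, one_mul]
        exact le_rfl
    have h3 := integral_integral_swap hint
    have h4 : ∀ x, ∫ t in closedBall (0 : Fin k → F) R,
        ((ψ (∑ i, t i * Q x i) : Circle) : ℂ) * Φ x ∂ν =
        (∫ t in closedBall (0 : Fin k → F) R,
          ((ψ (∑ i, t i * Q x i) : Circle) : ℂ) ∂ν) * Φ x := fun x => integral_mul_const _ _
    simp_rw [h4, ← h] at h3
    rw [← h3, integral_mul_const]
    congr 1
    exact (integral_ofReal (𝕜 := ℂ)).symm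
  -- the estimate
  have hest : ∀ a : F, a ≠ 0 → ‖a‖ ≤ 1 →
      (∫ t in closedBall (0 : Fin k → F) 1, W t ∂ν) * ‖c₀‖ ≤
        M * (ν (closedBall (0 : Fin k → F) 1)).toNNReal * C *
          ((md a ^ (2 * k))⁻¹ * md a ^ n' : ℝ≥0) := by
    intro a ha ha1
    have han : 0 < ‖a‖ := norm_pos_iff.2 ha
    set R : ℝ := (‖a‖ ^ 2)⁻¹ with hR
    have hR0 : 0 < R := by positivity
    have hR1 : 1 ≤ R := (one_le_inv₀ (by positivity)).2 (pow_le_one₀ han.le ha1)
    have h1 : (∫ t in closedBall (0 : Fin k → F) 1, W t ∂ν) ≤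
        ∫ t in closedBall (0 : Fin k → F) R, W t ∂ν := by
      refine setIntegral_mono_set (hW.continuousOn.integrableOn_compact (isCompact_closedBall _ R))
        (Filter.Eventually.of_forall fun t => (hW0 t).le) ?_
      exact (closedBall_subset_closedBall hR1).eventuallyLE
    have h2 : 0 ≤ ∫ t in closedBall (0 : Fin k → F) R, W t ∂ν :=
      setIntegral_nonneg isClosed_closedBall.measurableSet fun t _ => (hW0 t).le
    have h3 := hid R hR0
    have h4 : (∫ t in closedBall (0 : Fin k → F) R, W t ∂ν) * ‖c₀‖ =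
        ‖∫ x, (∫ t in closedBall (0 : Fin k → F) R,
          ((ψ (∑ i, t i * Q x i) : Circle) : ℂ) ∂ν) * Φ x ∂μ‖ := by
      rw [← h3, norm_mul, Complex.norm_real, Real.norm_of_nonneg h2]
    set A : Set X := {x | ‖x‖ ≤ r ∧ ‖P x‖ ≤ s * ‖a‖} with hA
    have hPc : Continuous P := P.continuous_of_finiteDimensional
    have hAm : MeasurableSet A := by
      have h5 : A = closedBall 0 r ∩ {x | ‖P x‖ ≤ s * ‖a‖} := by
        ext x
        simp only [hA, mem_ofPred_eq, mem_inter_iff, mem_closedBall_zero_iff]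
      rw [h5]
      exact isClosed_closedBall.measurableSet.inter
        (isClosed_le hPc.norm continuous_const).measurableSet
    have hAfin : μ A ≠ ∞ := by
      refine ne_top_of_le_ne_top ?_ (measure_mono (fun x hx => ?_ : A ⊆ closedBall 0 r))
      · exact (isCompact_closedBall 0 _).measure_lt_top.ne
      · rw [mem_closedBall_zero_iff]
        exact hx.1
    set B : ℝ := ν.real (closedBall (0 : Fin k → F) R) with hB
    have hB0 : 0 ≤ B := measureReal_nonneg
    have hbound : ∀ x, ‖(∫ t in closedBall (0 : Fin k → F) R,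
        ((ψ (∑ i, t i * Q x i) : Circle) : ℂ) ∂ν) * Φ x‖ ≤
        A.indicator (fun _ => B * M) x := by
      intro x
      by_cases hx : x ∈ A
      · rw [indicator_of_mem hx, norm_mul]
        refine mul_le_mul ?_ (hM x) (norm_nonneg _) hB0
        have h6 := norm_setIntegral_le_of_norm_le_const (μ := ν)
          (s := closedBall (0 : Fin k → F) R) (C := 1)
          (f := fun t => ((ψ (∑ i, t i * Q x i) : Circle) : ℂ))
          (isCompact_closedBall _ R).measure_lt_top (fun t _ => by rw [Circle.norm_coe])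
        rw [one_mul] at h6
        exact h6
      · rw [indicator_of_notMem hx]
        by_cases hx1 : ‖x‖ ≤ r
        · have hx2 : s * ‖a‖ < ‖P x‖ := by
            by_contra h7
            exact hx ⟨hx1, not_lt.1 h7⟩
          have h8 : ‖a₀‖ / R < ‖Q x‖ := by
            refine lt_of_lt_of_le ?_ (hlow x)
            have h9 : (s * ‖a‖) ^ 2 < ‖P x‖ ^ 2 :=
              pow_lt_pow_left₀ hx2 (by positivity) two_ne_zero
            rw [mul_pow, hs, Real.sq_sqrt (by positivity)] at h9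
            calc ‖a₀‖ / R = c * (‖a₀‖ / c * ‖a‖ ^ 2) := by
                  rw [hR]
                  field_simp
              _ < c * ‖P x‖ ^ 2 := mul_lt_mul_of_pos_left h9 hc
          rw [int_char_ball ha₀ ν (Q x) R hR0 h8, zero_mul, norm_zero]
        · have h7 : Φ x = 0 := by
            by_contra h8
            have := hr (subset_tsupport _ h8)
            rw [mem_closedBall_zero_iff] at this
            exact hx1 this
          rw [h7, mul_zero, norm_zero]
    have h5 : ‖∫ x, (∫ t in closedBall (0 : Fin k → F) R,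
          ((ψ (∑ i, t i * Q x i) : Circle) : ℂ) ∂ν) * Φ x ∂μ‖ ≤ μ.real A * (B * M) := by
      refine (norm_integral_le_of_norm_le ?_ (Filter.Eventually.of_forall hbound)).trans ?_
      · exact (integrable_indicator_iff hAm).2 (integrableOn_const hAfin)
      · rw [integral_indicator_const _ hAm, smul_eq_mul]
    have h6 : μ.real A ≤ (C * md a ^ n' : ℝ≥0) := by
      rw [Measure.real]
      exact ENNReal.toReal_le_coe_of_le_coe (hC a ha ha1)
    have h7 : B = ((md a ^ (2 * k))⁻¹ * (ν (closedBall (0 : Fin k → F) 1)).toNNReal : ℝ≥0) := by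
      rw [hB, Measure.real, hR, hball a ha, ENNReal.coe_toReal]
    calc (∫ t in closedBall (0 : Fin k → F) 1, W t ∂ν) * ‖c₀‖
        ≤ (∫ t in closedBall (0 : Fin k → F) R, W t ∂ν) * ‖c₀‖ :=
          mul_le_mul_of_nonneg_right h1 (norm_nonneg _)
      _ ≤ μ.real A * (B * M) := by rw [h4]; exact h5
      _ ≤ (C * md a ^ n' : ℝ≥0) * (B * M) :=
          mul_le_mul_of_nonneg_right h6 (mul_nonneg hB0 hM0)
      _ = _ := by
          rw [h7]
          push_cast
          ring
  -- the limit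
  obtain ⟨t₀, ht0, ht1⟩ := NormedField.exists_norm_lt_one F
  let _ : MeasurableSpace F := borel F
  have i2 : BorelSpace F := ⟨rfl⟩
  have hm : md t₀ < 1 := md_lt_one ht1
  have ht : t₀ ≠ 0 := norm_pos_iff.1 ht0
  have hmp : 0 < md t₀ := md_pos ht
  have hlim : Tendsto (fun n : ℕ => M * (ν (closedBall (0 : Fin k → F) 1)).toNNReal * C *
      ((md (t₀ ^ n) ^ (2 * k))⁻¹ * md (t₀ ^ n) ^ n' : ℝ≥0)) atTop (𝓝 0) := by
    have h1 : ∀ n : ℕ, ((md (t₀ ^ n) ^ (2 * k))⁻¹ * md (t₀ ^ n) ^ n' : ℝ≥0) =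
        (md t₀ ^ (n' - 2 * k)) ^ n := by
      intro n
      have h2 : n' = 2 * k + (n' - 2 * k) := by omega
      conv_lhs => rw [h2, pow_add, ← mul_assoc]
      rw [inv_mul_cancel₀ (pow_ne_zero _ (by rw [md_pow]; exact (pow_pos hmp n).ne')), one_mul,
        md_pow, ← pow_mul, ← pow_mul, mul_comm]
    simp_rw [h1]
    have h3 : Tendsto (fun n : ℕ => ((md t₀ ^ (n' - 2 * k)) ^ n : ℝ≥0)) atTop (𝓝 0) :=
      tendsto_pow_atTop_nhds_zero_of_lt_one zero_le
        (pow_lt_one₀ zero_le hm (by omega))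
    have h4 : Tendsto (fun n : ℕ => (((md t₀ ^ (n' - 2 * k)) ^ n : ℝ≥0) : ℝ)) atTop (𝓝 0) := by
      have h6 := (NNReal.continuous_coe.tendsto 0).comp h3
      rw [NNReal.coe_zero] at h6
      exact h6
    have h5 := h4.const_mul (M * (ν (closedBall (0 : Fin k → F) 1)).toNNReal * C)
    rw [mul_zero] at h5
    exact h5
  have hle : (∫ t in closedBall (0 : Fin k → F) 1, W t ∂ν) * ‖c₀‖ ≤ 0 := by
    refine ge_of_tendsto hlim (Filter.Eventually.of_forall fun n => ?_)
    exact hest (t₀ ^ n) (pow_ne_zero n ht) (by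
      rw [norm_pow]
      exact pow_le_one₀ ht0.le ht1.le)
  have hpos : 0 < ∫ t in closedBall (0 : Fin k → F) 1, W t ∂ν := by
    rw [setIntegral_pos_iff_support_of_nonneg_ae (Filter.Eventually.of_forall fun t => (hW0 t).le)
      (hW.continuousOn.integrableOn_compact (isCompact_closedBall _ 1))]
    have h1 : Function.support W = univ := by
      ext t
      simp [(hW0 t).ne']
    rw [h1, univ_inter]
    exact measure_closedBall_pos ν 0 one_pos
  by_contra hne
  have : 0 < ‖c₀‖ := norm_pos_iff.2 hne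
  have := mul_pos hpos this
  linarith

end ball

end SpW.Mo
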