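import Pool.Agent.Work.MP_3615d2_al.DualNorm
import Pool.Agent.Work.MP_3615d2_al.Mo.VanBall

/-!
MP_3615d2_al, (MO), the vanishing case: the elements `u(t)` of the torus of an anisotropic block,
with Cayley transform `A(t) = δ ∑ t_i ξ^i e`.
-/

open MeasureTheory Measure Metric Set Filter Topology
open scoped NNReal ENNReal

namespace SpW.Mo

section alg

variable {F E : Type} [Field F] [Field E] [Algebra F E] {σ : E ≃ₐ[F] E} {δ : E} {d : F} {N : ℕ}
  {H ξ e : Matrix (Fin N) (Fin N) E} {k : ℕ}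

/-- An anisotropic block of the selfadjoint matrix `ξ`. -/
structure VBlk (F : Type) {E : Type} [Field F] [Field E] [Algebra F E] (σ : E ≃ₐ[F] E) (δ : E)
    {N : ℕ} (H ξ e : Matrix (Fin N) (Fin N) E) (k : ℕ) : Prop where
  pos : 0 < k
  idem : e * e = e
  comm : ξ * e = e * ξ
  adjx : ∀ x y, sk σ H (ξ.mulVec x) y = sk σ H x (ξ.mulVec y)
  adj : ∀ x y, sk σ H (e.mulVec x) y = sk σ H x (e.mulVec y)
  rank : e.rank = k
  aniso : ∀ a b : Fin N → E, (∀ i < k, sympl F σ H (δ • (ξ ^ i * e).mulVec a) a =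
    sympl F σ H (δ • (ξ ^ (i + 1) * e).mulVec b) b) → e.mulVec a = 0 ∧ e.mulVec b = 0

/-- `A(t) = δ ∑ t_i ξ^i e`. -/
def AA (δ : E) (ξ e : Matrix (Fin N) (Fin N) E) (t : Fin k → F) : Matrix (Fin N) (Fin N) E :=
  ∑ i, (algebraMap F E (t i) * δ) • (ξ ^ (i : ℕ) * e)

theorem AA_comm {X : Matrix (Fin N) (Fin N) E} (h1 : ξ * X = X * ξ) (h2 : e * X = X * e)
    (t : Fin k → F) : AA δ ξ e t * X = X * AA δ ξ e t := by
  unfold AA
  rw [Finset.sum_mul, Finset.mul_sum]
  refine Finset.sum_congr rfl fun i _ => ?_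
  have h3 : ξ ^ (i : ℕ) * X = X * ξ ^ (i : ℕ) := (Commute.pow_left h1 (i : ℕ)).eq
  rw [Matrix.smul_mul, Matrix.mul_smul, Matrix.mul_assoc, h2, ← Matrix.mul_assoc, h3,
    Matrix.mul_assoc]

theorem AA_neg (t : Fin k → F) : AA δ ξ e (-t) = - AA δ ξ e t := by
  unfold AA
  rw [← Finset.sum_neg_distrib]
  refine Finset.sum_congr rfl fun i _ => ?_
  rw [Pi.neg_apply, map_neg, neg_mul, neg_smul]

theorem AA_e (he : e * e = e) (t : Fin k → F) : AA δ ξ e t * e = AA δ ξ e t := by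
  unfold AA
  rw [Finset.sum_mul]
  refine Finset.sum_congr rfl fun i _ => ?_
  rw [Matrix.smul_mul, Matrix.mul_assoc, he]

theorem VBlk.e_AA (hb : VBlk F σ δ H ξ e k) (t : Fin k → F) :
    e * AA δ ξ e t = AA δ ξ e t := by
  rw [← AA_comm hb.comm rfl t, AA_e hb.idem]

theorem VBlk.xi_AA (hb : VBlk F σ δ H ξ e k) (t : Fin k → F) :
    AA δ ξ e t * ξ = ξ * AA δ ξ e t := AA_comm rfl hb.comm.symm t

theorem VBlk.adj_pow (hb : VBlk F σ δ H ξ e k) (i : ℕ) (x y : Fin N → E) :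
    sk σ H ((ξ ^ i * e).mulVec x) y = sk σ H x ((ξ ^ i * e).mulVec y) := by
  have h1 : ∀ (i : ℕ) (x y : Fin N → E), sk σ H ((ξ ^ i).mulVec x) y =
      sk σ H x ((ξ ^ i).mulVec y) := by
    intro i
    induction i with
    | zero => intro x y; rw [pow_zero, Matrix.one_mulVec, Matrix.one_mulVec]
    | succ n ih =>
      intro x y
      rw [pow_succ, ← Matrix.mulVec_mulVec, ih, hb.adjx, Matrix.mulVec_mulVec, ← pow_succ',
        ← pow_succ]
  have h2 : ξ ^ i * e = e * ξ ^ i := (Commute.pow_left hb.comm i).eq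
  conv_rhs => rw [h2]
  rw [← Matrix.mulVec_mulVec, h1, hb.adj, Matrix.mulVec_mulVec]

theorem sk_sum_left {ι : Type*} (s : Finset ι) (f : ι → Fin N → E) (y : Fin N → E) :
    sk σ H (∑ i ∈ s, f i) y = ∑ i ∈ s, sk σ H (f i) y := by
  classical
  induction s using Finset.induction_on with
  | empty => simp [sk_zero_left]
  | insert a s ha ih => rw [Finset.sum_insert ha, Finset.sum_insert ha, sk_add_left, ih]

theorem sk_sum_right {ι : Type*} (s : Finset ι) (f : ι → Fin N → E) (y : Fin N → E) :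
    sk σ H y (∑ i ∈ s, f i) = ∑ i ∈ s, sk σ H y (f i) := by
  classical
  induction s using Finset.induction_on with
  | empty => simp [sk_zero_right]
  | insert a s ha ih => rw [Finset.sum_insert ha, Finset.sum_insert ha, sk_add_right, ih]

theorem AA_mulVec (t : Fin k → F) (x : Fin N → E) : (AA δ ξ e t).mulVec x =
    ∑ i, (algebraMap F E (t i) * δ) • (ξ ^ (i : ℕ) * e).mulVec x := by
  unfold AA
  rw [Matrix.sum_mulVec]
  exact Finset.sum_congr rfl fun i _ => by rw [Matrix.smul_mulVec]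

theorem VBlk.sk_AA (hb : VBlk F σ δ H ξ e k) (hq : QuadDatum σ δ d) (t : Fin k → F)
    (x y : Fin N → E) :
    sk σ H ((AA δ ξ e t).mulVec x) y = - sk σ H x ((AA δ ξ e t).mulVec y) := by
  rw [AA_mulVec, AA_mulVec, sk_sum_left, sk_sum_right, ← Finset.sum_neg_distrib]
  refine Finset.sum_congr rfl fun i _ => ?_
  rw [sk_smul_left, sk_smul_right, hb.adj_pow, map_mul, AlgEquiv.commutes, hq.sig]
  ring

theorem sympl_AA (t : Fin k → F) (x y : Fin N → E) :
    sympl F σ H ((AA δ ξ e t).mulVec x) y =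
      ∑ i, t i * sympl F σ H (δ • (ξ ^ (i : ℕ) * e).mulVec x) y := by
  rw [sympl_eq, AA_mulVec, sk_sum_left, _root_.map_sum]
  refine Finset.sum_congr rfl fun i _ => ?_
  rw [← smul_smul, sk_smul_left, ← Algebra.smul_def, map_smul, smul_eq_mul]
  rfl

/-- `A(t) v = ± v` has no solution -/
theorem VBlk.ker (hb : VBlk F σ δ H ξ e k) (hq : QuadDatum σ δ d) (t : Fin k → F) {c : E}
    (hc : c * c = 1) (hcs : σ c = c) {v : Fin N → E} (hv : (AA δ ξ e t).mulVec v = c • v) :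
    v = 0 := by
  have hev : e.mulVec v = v := by
    have h1 : v = c • (AA δ ξ e t).mulVec v := by
      rw [hv, smul_smul, hc, one_smul]
    conv_lhs => rw [h1]
    rw [Matrix.mulVec_smul, Matrix.mulVec_mulVec, hb.e_AA, ← h1]
  have h2 : ∀ i : ℕ, sk σ H (δ • (ξ ^ i * e).mulVec v) v = 0 := by
    intro i
    have hcomm : AA δ ξ e t * (ξ ^ i * e) = (ξ ^ i * e) * AA δ ξ e t := by
      refine AA_comm ?_ ?_ t
      · rw [← Matrix.mul_assoc, ← pow_succ', pow_succ, Matrix.mul_assoc, Matrix.mul_assoc, hb.comm]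
      · have h2 : ξ ^ i * e = e * ξ ^ i := (Commute.pow_left hb.comm i).eq
        rw [h2, Matrix.mul_assoc, ← h2]
    have h3 : sk σ H (δ • (ξ ^ i * e).mulVec v) ((AA δ ξ e t).mulVec v) =
        - sk σ H ((AA δ ξ e t).mulVec (δ • (ξ ^ i * e).mulVec v)) v := by
      rw [hb.sk_AA hq, neg_neg]
    have h3' : (AA δ ξ e t).mulVec (δ • (ξ ^ i * e).mulVec v) =
        c • (δ • (ξ ^ i * e).mulVec v) := by
      rw [Matrix.mulVec_smul, Matrix.mulVec_mulVec, hcomm, ← Matrix.mulVec_mulVec v (ξ ^ i * e), hv,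
        Matrix.mulVec_smul, smul_comm]
    rw [h3', hv, sk_smul_right, hcs, sk_smul_left c] at h3
    have h4 : c * (2 * sk σ H (δ • (ξ ^ i * e).mulVec v) v) = 0 := by
      linear_combination h3
    have hc0 : c ≠ 0 := by
      rintro rfl
      rw [mul_zero] at hc
      exact zero_ne_one hc
    rcases mul_eq_zero.1 h4 with h5 | h5
    · exact absurd h5 hc0
    · exact (mul_eq_zero.1 h5).resolve_left hq.two_E
  have h3 := (hb.aniso v 0 fun i _ => by
    rw [sympl_eq, sympl_eq, h2, Matrix.mulVec_zero, smul_zero, sk_zero_left]).1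
  rw [← hev, h3]

theorem isUnit_of_ker {M : Matrix (Fin N) (Fin N) E} (h : ∀ v, M.mulVec v = 0 → v = 0) :
    IsUnit M := by
  rw [← Matrix.mulVec_injective_iff_isUnit]
  intro x y hxy
  rw [← sub_eq_zero]
  apply h
  rw [Matrix.mulVec_sub, sub_eq_zero]
  exact hxy

theorem VBlk.isUnit_sub (hb : VBlk F σ δ H ξ e k) (hq : QuadDatum σ δ d) (t : Fin k → F) :
    IsUnit (AA δ ξ e t - 1) := by
  refine isUnit_of_ker fun v hv => hb.ker hq t (c := 1) (one_mul 1) (map_one σ) ?_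
  rw [Matrix.sub_mulVec, Matrix.one_mulVec, sub_eq_zero] at hv
  rw [hv, one_smul]

theorem VBlk.isUnit_add (hb : VBlk F σ δ H ξ e k) (hq : QuadDatum σ δ d) (t : Fin k → F) :
    IsUnit (AA δ ξ e t + 1) := by
  refine isUnit_of_ker fun v hv => hb.ker hq t (c := -1) (by ring) (by rw [map_neg, map_one]) ?_
  rw [Matrix.add_mulVec, Matrix.one_mulVec] at hv
  rw [neg_smul, one_smul]
  exact eq_neg_of_add_eq_zero_left hv

end alg

section cay

variable {F E : Type} [NontriviallyNormedField F] [NontriviallyNormedField E] [NormedAlgebra F E]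
  {σ : E ≃ₐ[F] E} {δ : E} {d : F} {N : ℕ} {H : Matrix (Fin N) (Fin N) E}

/-- the unitary element with Cayley transform `A` -/
theorem exists_cay {A : Matrix (Fin N) (Fin N) E}
    (hA : ∀ x y, sk σ H (A.mulVec x) y = - sk σ H x (A.mulVec y)) (h1 : IsUnit (A - 1))
    (h2 : IsUnit (A + 1)) : ∃ u : unitary σ H, umat u * (A - 1) = A + 1 := by
  obtain ⟨v, hv⟩ := h1
  obtain ⟨w, hw⟩ := h2
  let u : GL (Fin N) E := w * v⁻¹
  have hu : (u : Matrix (Fin N) (Fin N) E) * (A - 1) = A + 1 := by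
    show (w : Matrix (Fin N) (Fin N) E) * ((v⁻¹ : GL (Fin N) E) : Matrix (Fin N) (Fin N) E) *
      (A - 1) = A + 1
    rw [Matrix.mul_assoc, ← hv, Units.inv_mul, Matrix.mul_one, hw]
  refine ⟨⟨u, fun x y => ?_⟩, hu⟩
  have hs : ∀ z : Fin N → E, ∃ z', z = (A - 1).mulVec z' := by
    intro z
    refine ⟨((v⁻¹ : GL (Fin N) E) : Matrix (Fin N) (Fin N) E).mulVec z, ?_⟩
    rw [← hv, Matrix.mulVec_mulVec, Units.mul_inv, Matrix.one_mulVec]
  obtain ⟨x', rfl⟩ := hs x
  obtain ⟨y', rfl⟩ := hs y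
  rw [Matrix.mulVec_mulVec, Matrix.mulVec_mulVec, hu]
  simp only [Matrix.add_mulVec, Matrix.sub_mulVec, Matrix.one_mulVec, sk_add_left, sk_add_right,
    sk_sub_left, sk_sub_right]
  rw [hA x' y']
  ring

theorem sub_one_mul {A : Matrix (Fin N) (Fin N) E} {u : unitary σ H}
    (hu : umat u * (A - 1) = A + 1) : (umat u - 1) * (A - 1) = (2 : E) • 1 := by
  rw [Matrix.sub_mul, hu, Matrix.one_mul, two_smul]
  abel

theorem det_cay {A : Matrix (Fin N) (Fin N) E} {u : unitary σ H}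
    (hu : umat u * (A - 1) = A + 1) : (umat u - 1).det * (A - 1).det = (2 : E) ^ N := by
  rw [← Matrix.det_mul, sub_one_mul hu, Matrix.det_smul, Matrix.det_one, mul_one,
    Fintype.card_fin]

theorem cayley_eq (h2 : (2 : E) ≠ 0) {A : Matrix (Fin N) (Fin N) E} {u : unitary σ H}
    (hu : umat u * (A - 1) = A + 1) : cayley (umat u) = A := by
  have h3 := det_cay hu
  have h4 : (umat u - 1).det ≠ 0 := by
    intro h0
    rw [h0, zero_mul] at h3
    exact pow_ne_zero N h2 h3.symm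
  have h5 : IsUnit (umat u - 1) :=
    (Matrix.isUnit_iff_isUnit_det _).2 (isUnit_iff_ne_zero.2 h4)
  have h6 := cayley_mul h5
  have h7 : cayley (umat u) * ((umat u - 1) * (A - 1)) = (umat u + 1) * (A - 1) := by
    rw [← Matrix.mul_assoc, h6]
  have h8 : (umat u + 1) * (A - 1) = (2 : E) • A := by
    rw [Matrix.add_mul, hu, Matrix.one_mul, two_smul]
    abel
  rw [sub_one_mul hu, h8, Matrix.mul_smul, Matrix.mul_one] at h7
  have h9 := congrArg (fun M => (2 : E)⁻¹ • M) h7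
  simp only [smul_smul, inv_mul_cancel₀ h2, one_smul] at h9
  exact h9

/-- `u` commutes with everything commuting with `A` -/
theorem comm_cay {A X : Matrix (Fin N) (Fin N) E} {u : unitary σ H} (h1 : IsUnit (A - 1))
    (hu : umat u * (A - 1) = A + 1) (hX : A * X = X * A) : umat u * X = X * umat u := by
  apply h1.mul_right_cancel
  have e1 : X * (A - 1) = (A - 1) * X := by
    rw [Matrix.mul_sub, Matrix.sub_mul, hX, Matrix.mul_one, Matrix.one_mul]
  have e2 : X * (A + 1) = (A + 1) * X := by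
    rw [Matrix.mul_add, Matrix.add_mul, hX, Matrix.mul_one, Matrix.one_mul]
  rw [Matrix.mul_assoc, e1, ← Matrix.mul_assoc, hu, Matrix.mul_assoc, hu, e2]

theorem inv_cay {A : Matrix (Fin N) (Fin N) E} {u v : unitary σ H} (h1 : IsUnit (A - 1))
    (hu : umat u * (A - 1) = A + 1) (hv : umat v * (-A - 1) = -A + 1) : u⁻¹ = v := by
  have h2 : umat v * (A + 1) = A - 1 := by
    have h3 : umat v * (-(A + 1)) = -(A - 1) := by
      rw [neg_add, ← sub_eq_add_neg, hv]
      abel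
    rw [Matrix.mul_neg, neg_inj] at h3
    exact h3
  have h4 : umat v * umat u = 1 := by
    apply h1.mul_right_cancel
    rw [Matrix.mul_assoc, hu, h2, Matrix.one_mul]
  rw [inv_eq_iff_mul_eq_one]
  have h5 : v * u = 1 := by
    apply Subtype.ext
    apply Units.ext
    exact h4
  exact mul_eq_one_comm.1 h5

end cay

section bdd

variable {F E : Type} [NontriviallyNormedField F] [ProperSpace F]
  [NontriviallyNormedField E] [NormedAlgebra F E] [IsUltrametricDist E] [ProperSpace E]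
  {σ : E ≃ₐ[F] E} {δ : E} {d : F} {N : ℕ} {H ξ e : Matrix (Fin N) (Fin N) E} {k : ℕ}

/-- `x ↦ M x` as an `F`-linear map -/
def mvL (F : Type) {E : Type} [Field F] [Field E] [Algebra F E] {N : ℕ}
    (M : Matrix (Fin N) (Fin N) E) : (Fin N → E) →ₗ[F] (Fin N → E) where
  toFun x := M.mulVec x
  map_add' _ _ := Matrix.mulVec_add _ _ _
  map_smul' _ _ := mulVec_fsmul _ _ _

/-- a quadratic map is bounded by a multiple of the square of the norm -/
theorem quad_upper {X Z : Type} [NormedAddCommGroup X] [NormedSpace F X] [FiniteDimensional F X]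
    [NormedAddCommGroup Z] [NormedSpace F Z] (Q : X → Z)
    (hQc : Continuous Q) (hQ2 : ∀ (a : F) x, Q (a • x) = (a ^ 2) • Q x) :
    ∃ c : ℝ, 0 ≤ c ∧ ∀ x, ‖Q x‖ ≤ c * ‖x‖ ^ 2 := by
  have i0 : ProperSpace X := FiniteDimensional.proper F X
  obtain ⟨ϖ, hϖ⟩ := NormedField.exists_one_lt_norm F
  have hϖ0 : 0 < ‖ϖ‖ := one_pos.trans hϖ
  have hϖne : ϖ ≠ 0 := norm_pos_iff.1 hϖ0
  obtain ⟨m, hm⟩ := (isCompact_closedBall (0 : X) ‖ϖ‖).exists_bound_of_continuousOn
    hQc.continuousOn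
  have hm0 : 0 ≤ m := (norm_nonneg _).trans (hm 0 (by simp [hϖ0.le]))
  refine ⟨m, hm0, fun x => ?_⟩
  by_cases hx : x = 0
  · have h1 := hQ2 0 x
    rw [zero_smul, zero_pow two_ne_zero, zero_smul] at h1
    rw [hx, h1, norm_zero, norm_zero]
    simp
  have hxn : 0 < ‖x‖ := norm_pos_iff.2 hx
  obtain ⟨n, hn1, hn2⟩ := exists_mem_Ico_zpow hxn hϖ
  set a : F := (ϖ ^ n)⁻¹ with ha
  have han : ‖a‖ = (‖ϖ‖ ^ n)⁻¹ := by rw [ha, norm_inv, norm_zpow]
  have hzp : 0 < ‖ϖ‖ ^ n := zpow_pos hϖ0 n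
  have h1 : a • x ∈ closedBall (0 : X) ‖ϖ‖ := by
    rw [mem_closedBall_zero_iff, norm_smul, han, inv_mul_le_iff₀ hzp]
    rw [zpow_add₀ hϖ0.ne', zpow_one] at hn2
    exact hn2.le
  have h2 := hm _ h1
  rw [hQ2, norm_smul, norm_pow, han, inv_pow, inv_mul_le_iff₀ (by positivity)] at h2
  have h3 : (‖ϖ‖ ^ n) ^ 2 ≤ ‖x‖ ^ 2 := pow_le_pow_left₀ hzp.le hn1 2
  calc ‖Q x‖ ≤ (‖ϖ‖ ^ n) ^ 2 * m := h2
    _ ≤ ‖x‖ ^ 2 * m := mul_le_mul_of_nonneg_right h3 hm0
    _ = m * ‖x‖ ^ 2 := mul_comm _ _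

/-- the quadratic map of the block -/
noncomputable def QQ (F : Type) {E : Type} [Field F] [Field E] [Algebra F E] (σ : E ≃ₐ[F] E)
    (δ : E) {N : ℕ} (H ξ e : Matrix (Fin N) (Fin N) E) (k : ℕ) (a : Fin N → E) : Fin k → F :=
  fun i => sympl F σ H (δ • (ξ ^ (i : ℕ) * e).mulVec a) a

omit [IsUltrametricDist E] in
theorem QQ_continuous (hq : QuadDatum σ δ d) : Continuous (QQ F σ δ H ξ e k) := by
  refine continuous_pi fun i => ?_
  have h0 : Continuous fun a : Fin N → E => (ξ ^ (i : ℕ) * e).mulVec a :=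
    Continuous.matrix_mulVec continuous_const continuous_id
  have h1 : Continuous fun a : Fin N → E => δ • (ξ ^ (i : ℕ) * e).mulVec a :=
    h0.const_smul δ
  have h2 : Continuous fun a : Fin N → E => (δ • (ξ ^ (i : ℕ) * e).mulVec a, a) :=
    h1.prodMk continuous_id
  have h3 := (sympl_continuous (H := H) hq).comp h2
  exact h3

omit [ProperSpace F] [IsUltrametricDist E] [ProperSpace E] in
theorem QQ_smul (c : F) (a : Fin N → E) : QQ F σ δ H ξ e k (c • a) =
    (c ^ 2) • QQ F σ δ H ξ e k a := by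
  funext i
  unfold QQ
  rw [Pi.smul_apply, mulVec_fsmul, smul_comm δ c, sympl_eq, sk_fsmul_left, sk_fsmul_right,
    ← mul_assoc, ← map_mul, ← Algebra.smul_def, map_smul, sympl_eq, sq]

omit [ProperSpace F] [IsUltrametricDist E] [ProperSpace E] in
theorem VBlk.QQ_e (hb : VBlk F σ δ H ξ e k) (a : Fin N → E) : QQ F σ δ H ξ e k (e.mulVec a) =
    QQ F σ δ H ξ e k a := by
  funext i
  unfold QQ
  have h2 : ξ ^ (i : ℕ) * e = e * ξ ^ (i : ℕ) := (Commute.pow_left hb.comm (i : ℕ)).eq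
  have h3 : e * (ξ ^ (i : ℕ) * e * e) = ξ ^ (i : ℕ) * e := by
    rw [Matrix.mul_assoc (ξ ^ (i : ℕ)), hb.idem, ← Matrix.mul_assoc, ← h2, Matrix.mul_assoc,
      hb.idem]
  rw [sympl_eq, sk_smul_left, Matrix.mulVec_mulVec, ← hb.adj, Matrix.mulVec_mulVec, h3, sympl_eq,
    sk_smul_left]

omit [ProperSpace F] [IsUltrametricDist E] [ProperSpace E] in
theorem VBlk.QQ_zero (hb : VBlk F σ δ H ξ e k) (a : Fin N → E) (h : QQ F σ δ H ξ e k a = 0) :
    e.mulVec a = 0 := by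
  refine (hb.aniso a 0 fun i hi => ?_).1
  have h1 := congrFun h ⟨i, hi⟩
  have h2 : sympl F σ H (δ • (ξ ^ i * e).mulVec a) a = 0 := h1
  rw [h2, Matrix.mulVec_zero, smul_zero, sympl_eq, sk_zero_left, map_zero]

/-- the elements of the torus are bounded -/
theorem VBlk.bdd (hb : VBlk F σ δ H ξ e k) (hq : QuadDatum σ δ d) :
    ∃ C : ℝ, ∀ (t : Fin k → F) (u : unitary σ H),
      umat u * (AA δ ξ e t - 1) = AA δ ξ e t + 1 → ∀ i j, ‖umat u i j‖ ≤ C := by
  have hfin := hq.finite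
  obtain ⟨c, hc, hlow⟩ := quad_lower (QQ F σ δ H ξ e k) (QQ_continuous hq) QQ_smul (mvL F e)
    (hb.QQ_e) hb.QQ_zero (fun x => by
      show e.mulVec (e.mulVec x) = e.mulVec x
      rw [Matrix.mulVec_mulVec, hb.idem])
  obtain ⟨C, hC, hup⟩ := quad_upper (QQ F σ δ H ξ e k) (QQ_continuous hq) QQ_smul
  set K : ℝ := ‖(mvL F e).toContinuousLinearMap‖ with hK
  have hKe : ∀ x : Fin N → E, ‖e.mulVec x‖ ≤ K * ‖x‖ := fun x =>
    (mvL F e).toContinuousLinearMap.le_opNorm x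
  have hK0 : 0 ≤ K := norm_nonneg _
  refine ⟨Real.sqrt (C / c) + 1 + K, fun t u hu i j => ?_⟩
  have h1 := hb.isUnit_sub hq t
  have huQ : ∀ x, QQ F σ δ H ξ e k ((umat u).mulVec x) = QQ F σ δ H ξ e k x := by
    intro x
    funext i
    unfold QQ
    have h2 : AA δ ξ e t * (ξ ^ (i : ℕ) * e) = (ξ ^ (i : ℕ) * e) * AA δ ξ e t := by
      refine AA_comm ?_ ?_ t
      · rw [← Matrix.mul_assoc, ← pow_succ', pow_succ, Matrix.mul_assoc, Matrix.mul_assoc, hb.comm]
      · have h2 : ξ ^ (i : ℕ) * e = e * ξ ^ (i : ℕ) := (Commute.pow_left hb.comm (i : ℕ)).eq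
        rw [h2, Matrix.mul_assoc, ← h2]
    have h3 := comm_cay h1 hu h2
    rw [Matrix.mulVec_mulVec, ← h3, ← Matrix.mulVec_mulVec, ← Matrix.mulVec_smul, sympl_unitary]
  have h4 : umat u - e * umat u = -(1 - e) := by
    apply h1.mul_right_cancel
    have h5 := hb.e_AA t
    have e1 : e * (AA δ ξ e t + 1) = AA δ ξ e t + e := by rw [Matrix.mul_add, h5, Matrix.mul_one]
    have e2 : e * (AA δ ξ e t - 1) = AA δ ξ e t - e := by rw [Matrix.mul_sub, h5, Matrix.mul_one]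
    rw [Matrix.sub_mul, Matrix.mul_assoc e, hu, Matrix.neg_mul, Matrix.sub_mul, e1, e2,
      Matrix.one_mul]
    abel
  have h6 : ∀ x : Fin N → E, ‖(umat u).mulVec x‖ ≤ (Real.sqrt (C / c) + 1 + K) * ‖x‖ := by
    intro x
    have h7 : (umat u).mulVec x = e.mulVec ((umat u).mulVec x) - (x - e.mulVec x) := by
      have h8 := congrArg (fun M : Matrix (Fin N) (Fin N) E => M.mulVec x) h4
      simp only [Matrix.sub_mulVec, Matrix.neg_mulVec, Matrix.one_mulVec] at h8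
      rw [Matrix.mulVec_mulVec, sub_eq_add_neg _ (x - e.mulVec x), ← h8]
      abel
    have h9 : ‖e.mulVec ((umat u).mulVec x)‖ ≤ Real.sqrt (C / c) * ‖x‖ := by
      have h10 := hlow ((umat u).mulVec x)
      rw [huQ] at h10
      have h11 : c * ‖e.mulVec ((umat u).mulVec x)‖ ^ 2 ≤ C * ‖x‖ ^ 2 := h10.trans (hup x)
      refine abs_le_of_sq_le_sq' ?_ (by positivity) |>.2
      rw [mul_pow, Real.sq_sqrt (by positivity), div_mul_eq_mul_div, le_div_iff₀ hc, mul_comm]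
      exact h11
    calc ‖(umat u).mulVec x‖ ≤ ‖e.mulVec ((umat u).mulVec x)‖ + ‖x - e.mulVec x‖ := by
          conv_lhs => rw [h7]
          exact norm_sub_le _ _
      _ ≤ Real.sqrt (C / c) * ‖x‖ + (‖x‖ + K * ‖x‖) :=
          add_le_add h9 ((norm_sub_le _ _).trans (add_le_add le_rfl (hKe x)))
      _ = (Real.sqrt (C / c) + 1 + K) * ‖x‖ := by ring
  have h7 := h6 (Pi.single j 1)
  have h8 : ‖(Pi.single j (1 : E) : Fin N → E)‖ ≤ 1 := by
    rw [Pi.norm_single, norm_one]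
  have h9 : umat u i j = (umat u).mulVec (Pi.single j 1) i := by
    rw [Matrix.mulVec_single_one]
    rfl
  rw [h9]
  refine (norm_le_pi_norm _ i).trans (h7.trans ?_)
  exact mul_le_of_le_one_right (by positivity) h8

end bdd

end SpW.Mo
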