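import Pool.Agent.Work.MP_3615d2_al.ThmA0
import Pool.Agent.Work.MP_3615d2_al.DualNorm
import Pool.Agent.Work.MP_3615d2_al.Hecke
import Pool.Agent.Work.MP_3615d2_al.Cartan

/-!
MP_3615d2_al, (MO), the vanishing case: smooth matrix coefficients of the Weil representation,
finiteness of bounded orbits, smooth dual bases.
-/

open MeasureTheory Measure Metric Set Filter Topology
open scoped NNReal ENNReal

namespace SpW.Mo

section coef

variable {F E : Type} [NontriviallyNormedField F] [IsUltrametricDist F] [ProperSpace F]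
  [NontriviallyNormedField E] [NormedAlgebra F E] [IsUltrametricDist E] [ProperSpace E]
  [MeasurableSpace E] [BorelSpace E]
  {σ : E ≃ₐ[F] E} {δ : E} {d : F} {N : ℕ} {H : Matrix (Fin N) (Fin N) E}
  {ψ : AddChar F Circle} {μ : Eˣ →* ℂˣ} {S : Type} [AddCommGroup S] [Module ℂ S]
  {ρ : (Fin N → E) → Module.End ℂ S} {ω : unitary σ H →* Module.End ℂ S}

theorem coefW_lc (hW : IsWeil σ H ψ μ ρ ω) (hq : QuadDatum σ δ d) (hH : IsSkew σ H)
    (hψ : Continuous ψ) (ξ : hDual ρ) (v : S) :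
    IsLocallyConstant fun w : Fin N → E => ξ.1 (ρ w v) := by
  have h1 : IsLocallyConstant fun w : Fin N → E => (rhoD hW hq hH hψ w ξ).1 v :=
    (rhoD_locConst hW hq hH hψ ξ).comp (fun η : hDual ρ => η.1 v)
  have h2 := h1.comp_continuous (continuous_neg (G := Fin N → E))
  have h3 : (fun w : Fin N → E => (rhoD hW hq hH hψ w ξ).1 v) ∘ (fun w => -w) =
      fun w : Fin N → E => ξ.1 (ρ w v) := by
    funext w
    show (rhoD hW hq hH hψ (-w) ξ).1 v = _
    rw [rhoD_apply, neg_neg]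
  rw [h3] at h2
  exact h2

omit [IsUltrametricDist F] [IsUltrametricDist E] in
theorem coef_cs (hW : IsWeil σ H ψ μ ρ ω) (hq : QuadDatum σ δ d) (hH : IsSkew σ H)
    (hψ1 : ψ ≠ 1) (ξ : hDual ρ) (v : S) :
    HasCompactSupport fun w : Fin N → E => ξ.1 (ρ w v) := by
  have hfin := hq.finite
  have h1 : ∀ᶠ x in 𝓝 (0 : Fin N → E), (∀ v, ξ.1 (ρ x v) = ξ.1 v) ∧ ρ x v = v :=
    Filter.Eventually.and ξ.2 (hW.rho_smooth v)
  obtain ⟨ε, hε, h2⟩ := Metric.eventually_nhds_iff.1 h1
  obtain ⟨r₀, hr₀⟩ := exists_far hψ1 (symplB F σ H) (fun w hw => sympl_nondeg hq hH hw)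
    (half_pos hε)
  refine HasCompactSupport.intro (isCompact_closedBall (0 : Fin N → E) r₀) fun w hw => ?_
  rw [mem_closedBall_zero_iff, not_le] at hw
  obtain ⟨x, hx1, hx2⟩ := hr₀ w hw
  obtain ⟨h3, h4⟩ := h2 (y := x) (by rw [dist_zero_right]; linarith)
  have h5 := Pool.Agent.SpehH.rho_comm hW.isHeis (symplB_alt hq hH) hq.two w x v
  have h6 := congrArg ξ.1 h5
  rw [h4, map_smul, h3, smul_eq_mul] at h6
  have h7 : (1 - ((ψ (symplB F σ H w x) : Circle) : ℂ)) * ξ.1 (ρ w v) = 0 := by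
    linear_combination h6
  rcases mul_eq_zero.1 h7 with h8 | h8
  · exfalso
    apply hx2
    apply Circle.ext
    rw [sub_eq_zero] at h8
    simpa using h8.symm
  · exact h8

/-- the Cayley formula for smooth coefficients -/
theorem exists_coef (hW : IsWeil σ H ψ μ ρ ω) (hq : QuadDatum σ δ d) (hH : IsSkew σ H)
    (hψ1 : ψ ≠ 1) :
    ∃ κ : ℂ, ∀ (g : unitary σ H) (d' : Eˣ), (d' : E) = (umat g - 1).det →
      ∀ (v : S) (ξ : hDual ρ), ξ.1 (ω g v) =
        κ * ((μ d' : ℂˣ) : ℂ) * (((absE d') ^ (-(1 / 2) : ℝ) : ℝ) : ℂ) *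
        ∫ w : Fin N → E,
          ((ψ ((4 : F)⁻¹ * sympl F σ H ((cayley (umat g)).mulVec w) w) : Circle) : ℂ)
            * ξ.1 (ρ w v) ∂(Measure.addHaar) := by
  obtain ⟨κ, hκ⟩ := hW.normalised
  refine ⟨κ, fun g d' hd v ξ => ?_⟩
  obtain ⟨r, hr⟩ := (coef_cs hW hq hH hψ1 ξ v).isBounded.subset_closedBall (0 : Fin N → E)
  have h1 := (hκ g d' hd v ξ.1).and (eventually_ge_atTop r)
  obtain ⟨r', h2, h3⟩ := h1.exists
  rw [h2]
  congr 1
  apply setIntegral_eq_integral_of_forall_compl_eq_zero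
  intro w hw
  have h4 : ξ.1 (ρ w v) = 0 := by
    by_contra h5
    exact hw (closedBall_subset_closedBall h3 (hr (subset_tsupport _ h5)))
  rw [h4, mul_zero]

end coef

section fin

/-- a locally constant map takes finitely many values on a compact set -/
theorem finite_of_lc {K W : Type} [TopologicalSpace K] {f : K → W} (hf : IsLocallyConstant f)
    {C : Set K} (hC : IsCompact C) : (f '' C).Finite := by
  let _ : TopologicalSpace W := ⊥
  have : DiscreteTopology W := ⟨rfl⟩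
  exact (hC.image hf.continuous).finite_of_discrete

/-- smooth dual bases -/
theorem exists_dual_basis {S : Type} [AddCommGroup S] [Module ℂ S] (D : Submodule ℂ (S →ₗ[ℂ] ℂ))
    (hD : ∀ v : S, (∀ ξ ∈ D, ξ v = 0) → v = 0) {C : Set S} (hC : C.Finite) :
    ∃ (n : ℕ) (η : Fin n → D) (c : Fin n → S), ∀ x ∈ C, x = ∑ i, (η i).1 x • c i := by
  let W : Submodule ℂ S := Submodule.span ℂ C
  have hfin : FiniteDimensional ℂ W := FiniteDimensional.span_of_finite ℂ hC
  let Φ : Submodule ℂ (Module.Dual ℂ W) := D.map (LinearMap.lcomp ℂ ℂ W.subtype)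
  have h1 : Φ.dualCoannihilator = ⊥ := by
    rw [Submodule.eq_bot_iff]
    intro w hw
    rw [Submodule.mem_dualCoannihilator] at hw
    apply Subtype.ext
    apply hD
    intro ξ hξ
    exact hw (LinearMap.lcomp ℂ ℂ W.subtype ξ) (Submodule.mem_map_of_mem hξ)
  have h2 : Φ = ⊤ := by
    rw [← Subspace.dualCoannihilator_dualAnnihilator_eq (W := Φ), h1,
      Submodule.dualAnnihilator_bot]
  let b := Module.finBasis ℂ W
  have h3 : ∀ i, ∃ η : D, LinearMap.lcomp ℂ ℂ W.subtype η.1 = b.coord i := by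
    intro i
    have h4 : b.coord i ∈ Φ := by rw [h2]; trivial
    obtain ⟨η, hη, h5⟩ := h4
    exact ⟨⟨η, hη⟩, h5⟩
  choose η hη using h3
  refine ⟨_, η, fun i => (b i : S), fun x hx => ?_⟩
  have hx' : x ∈ W := Submodule.subset_span hx
  have h4 := b.sum_repr ⟨x, hx'⟩
  have h5 := congrArg (fun w : W => (w : S)) h4
  simp only [Submodule.coe_sum, Submodule.coe_smul] at h5
  conv_lhs => rw [← h5]
  refine Finset.sum_congr rfl fun i _ => ?_
  have h6 := LinearMap.congr_fun (hη i) ⟨x, hx'⟩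
  have h7 : (η i).1 x = b.repr ⟨x, hx'⟩ i := h6
  rw [h7]

end fin

section cpt

variable {F E : Type} [NontriviallyNormedField F] [ProperSpace F]
  [NontriviallyNormedField E] [NormedAlgebra F E] [IsUltrametricDist E] [ProperSpace E]
  {σ : E ≃ₐ[F] E} {δ : E} {d : F} {N : ℕ} {H : Matrix (Fin N) (Fin N) E}

theorem isClosed_unitary (hq : QuadDatum σ δ d) (H : Matrix (Fin N) (Fin N) E) :
    IsClosed (unitary σ H : Set (GL (Fin N) E)) := by
  have h1 : (unitary σ H : Set (GL (Fin N) E)) = ⋂ (x : Fin N → E) (y : Fin N → E),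
      {g : GL (Fin N) E | sk σ H ((g : Matrix (Fin N) (Fin N) E).mulVec x)
        ((g : Matrix (Fin N) (Fin N) E).mulVec y) = sk σ H x y} := by
    ext g
    simp only [mem_iInter, mem_ofPred_eq]
    rfl
  rw [h1]
  refine isClosed_iInter fun x => isClosed_iInter fun y => isClosed_eq ?_ continuous_const
  have h2 : ∀ z : Fin N → E, Continuous fun g : GL (Fin N) E =>
      (g : Matrix (Fin N) (Fin N) E).mulVec z := fun z =>
    Units.continuous_val.matrix_mulVec continuous_const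
  exact (sk_continuous (H := H) hq).comp ((h2 x).prodMk (h2 y))

theorem isCompact_U_bdd (hq : QuadDatum σ δ d) (H : Matrix (Fin N) (Fin N) E) (R : ℝ) :
    IsCompact {u : unitary σ H | ∀ i j, ‖umat u i j‖ ≤ R ∧ ‖umat u⁻¹ i j‖ ≤ R} := by
  have h1 := isCompact_gl_bdd (E := E) (ι := Fin N) R
  have h2 : Topology.IsClosedEmbedding (Subtype.val : unitary σ H → GL (Fin N) E) :=
    (isClosed_unitary hq H).isClosedEmbedding_subtypeVal
  exact h2.isCompact_preimage h1

end cpt

end SpW.Mo
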