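import Pool.Agent.Work.MP_3615d2_al.Mo.VanCase
import Pool.Agent.Work.MP_3615d2_al.Mo.VanCay
import Pool.Agent.Work.MP_3615d2_al.Mo.VanCoef

/-!
MP_3615d2_al, (MO), the vanishing case: if `ξ = g†g` has separable characteristic polynomial and
is not a norm from `E[ξ]`, then a bilinear form on `S₂ × S₁` with the equivariance of the kernel
at `g` is zero.
-/

open MeasureTheory Measure Metric Set Filter Topology Polynomial
open scoped NNReal ENNReal

namespace SpW.Mo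

section alg

variable {F E : Type} [NontriviallyNormedField F] [NontriviallyNormedField E] [NormedAlgebra F E]
  {m : ℕ} {σ : E ≃ₐ[F] E} {δ : E} {d : F} {t₁ t₂ : Fin m → Eˣ}

/-- entrywise `σ` -/
def sgv (σ : E ≃ₐ[F] E) (x : Fin m → E) : Fin m → E := fun i => σ (x i)

theorem sgv_sgv (hq : QuadDatum σ δ d) (x : Fin m → E) : sgv σ (sgv σ x) = x := by
  funext i
  exact sig_sig hq (x i)

theorem map_mulVec_sgv (M : Matrix (Fin m) (Fin m) E) (x : Fin m → E) :
    (M.map σ).mulVec (sgv σ x) = sgv σ (M.mulVec x) := by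
  funext i
  simp only [Matrix.mulVec, dotProduct, sgv, Matrix.map_apply, _root_.map_sum, map_mul]

theorem sk_sgv (hq : QuadDatum σ δ d) (ht : SkT σ t₁) (x y : Fin m → E) :
    sk σ (Dg t₁) (sgv σ x) (sgv σ y) = - σ (sk σ (Dg t₁) x y) := by
  have h1 : ∀ i j, σ (Dg t₁ i j) = - Dg t₁ i j := by
    intro i j
    unfold Dg
    by_cases h : i = j
    · subst h
      rw [Matrix.diagonal_apply_eq, ht i]
    · rw [Matrix.diagonal_apply_ne _ h, map_zero, neg_zero]
  simp only [sk, sgv, _root_.map_sum, map_mul, h1, sig_sig hq, ← Finset.sum_neg_distrib]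
  refine Finset.sum_congr rfl fun i _ => Finset.sum_congr rfl fun j _ => ?_
  ring

/-- transfer of the form of `X₁` to `X₂` -/
theorem sympl_conj (hq : QuadDatum σ δ d) (ht₁ : SkT σ t₁) (g : GL (Fin m) E)
    (M : Matrix (Fin m) (Fin m) E) (w : Fin m → E) :
    sympl F σ (Dg t₁) (((g.1 * M * (g⁻¹).1).map σ).mulVec w) w =
      - sympl F σ (Dg t₂) ((xiM σ t₁ t₂ g * M).mulVec ((g⁻¹).1.mulVec (sgv σ w)))
        ((g⁻¹).1.mulVec (sgv σ w)) := by
  set w' := (g⁻¹).1.mulVec (sgv σ w) with hw'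
  have h1 : w = sgv σ (g.1.mulVec w') := by
    rw [hw', Matrix.mulVec_mulVec, ← Units.val_mul, mul_inv_cancel, Units.val_one,
      Matrix.one_mulVec, sgv_sgv hq]
  have h2 : ((g.1 * M * (g⁻¹).1).map σ).mulVec w = sgv σ (g.1.mulVec (M.mulVec w')) := by
    conv_lhs => rw [← sgv_sgv hq w, map_mulVec_sgv]
    rw [hw', Matrix.mulVec_mulVec, Matrix.mulVec_mulVec, Matrix.mul_assoc]
  have h3 : sk σ (Dg t₁) (((g.1 * M * (g⁻¹).1).map σ).mulVec w) w =
      - σ (sk σ (Dg t₂) ((xiM σ t₁ t₂ g * M).mulVec w') w') := by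
    rw [h2]
    conv_lhs => rw [h1]
    rw [sk_sgv hq ht₁, ← sk_xiM (t₂ := t₂), Matrix.mulVec_mulVec]
  rw [sympl_eq, h3, map_neg, trace_sig hq, sympl_eq]

/-- `(θ(v))⁻¹ = σ(v)` for `v ∈ U(H)` -/
theorem th_inv_val {v : GL (Fin m) E} (hv : v ∈ unitary σ (Dg t₁)) :
    ((th t₁ v)⁻¹ : GL (Fin m) E).1 = v.1.map σ := by
  have h1 := unitary_gram.1 hv
  have h2 : (th t₁ v).1 * v.1.map σ = 1 := by
    have e1 : (th t₁ v).1 = (((dgl t₁)⁻¹ : GL (Fin m) E) : Matrix (Fin m) (Fin m) E) *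
        v.1.transpose * Dg t₁ := rfl
    rw [e1, Matrix.mul_assoc, Matrix.mul_assoc, ← Matrix.mul_assoc v.1.transpose, h1, ← dgl_Dg,
      Units.inv_mul]
  have h3 : ((th t₁ v)⁻¹ : GL (Fin m) E).1 * ((th t₁ v).1 * v.1.map σ) = v.1.map σ := by
    rw [← Matrix.mul_assoc, ← Units.val_mul, inv_mul_cancel, Units.val_one, Matrix.one_mul]
  rw [← h3, h2, Matrix.mul_one]

end alg

section rank

variable {F E : Type} [NontriviallyNormedField F] [NontriviallyNormedField E] [NormedAlgebra F E]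
  {N : ℕ} {σ : E ≃ₐ[F] E} {δ : E} {d : F}

theorem finrank_mvL (hq : QuadDatum σ δ d) (e : Matrix (Fin N) (Fin N) E) :
    2 * e.rank ≤ Module.finrank F (LinearMap.range (mvL F e)) := by
  have hfin := hq.finite
  have h1 : Module.finrank F (LinearMap.range e.mulVecLin) = 2 * e.rank := by
    rw [← Module.finrank_mul_finrank F E (LinearMap.range e.mulVecLin), hq.rank]
    rfl
  rw [← h1]
  let φ : LinearMap.range e.mulVecLin →ₗ[F] LinearMap.range (mvL F e) :=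
    { toFun := fun x => ⟨x.1, x.2⟩
      map_add' := fun _ _ => rfl
      map_smul' := fun _ _ => rfl }
  refine LinearMap.finrank_le_finrank_of_injective (f := φ) fun x y hxy => ?_
  apply Subtype.ext
  exact congrArg (fun z => z.1) hxy

theorem finrank_prodMap {X Y : Type} [AddCommGroup X] [Module F X] [FiniteDimensional F X]
    [AddCommGroup Y] [Module F Y] [FiniteDimensional F Y] (f : X →ₗ[F] X) (g : Y →ₗ[F] Y)
    (hg : g ≠ 0) : Module.finrank F (LinearMap.range f) <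
      Module.finrank F (LinearMap.range (f.prodMap g)) := by
  let φ : (LinearMap.range f × LinearMap.range g) →ₗ[F] LinearMap.range (f.prodMap g) :=
    { toFun := fun x => ⟨(x.1.1, x.2.1), by
        obtain ⟨⟨_, a, rfl⟩, ⟨_, b, rfl⟩⟩ := x
        exact ⟨(a, b), rfl⟩⟩
      map_add' := fun _ _ => rfl
      map_smul' := fun _ _ => rfl }
  have h1 : Function.Injective φ := by
    intro x y hxy
    have h2 := congrArg (fun z => z.1) hxy
    have h3 : (x.1.1, x.2.1) = (y.1.1, y.2.1) := h2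
    exact Prod.ext (Subtype.ext (congrArg Prod.fst h3)) (Subtype.ext (congrArg Prod.snd h3))
  have h2 := LinearMap.finrank_le_finrank_of_injective h1
  rw [Module.finrank_prod] at h2
  have h3 : 0 < Module.finrank F (LinearMap.range g) := by
    rw [Module.finrank_pos_iff_exists_ne_zero]
    by_contra h
    push Not at h
    apply hg
    ext x
    exact congrArg Subtype.val (h ⟨g x, ⟨x, rfl⟩⟩)
  omega

end rank

section main

variable {F E : Type} [NontriviallyNormedField F] [IsUltrametricDist F] [ProperSpace F]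
  [NontriviallyNormedField E] [NormedAlgebra F E] [IsUltrametricDist E] [ProperSpace E]
  [MeasurableSpace E] [BorelSpace E]
  {m : ℕ} {σ : E ≃ₐ[F] E} {δ : E} {d : F} {t₁ t₂ : Fin m → Eˣ}

omit [IsUltrametricDist F] [MeasurableSpace E] [BorelSpace E] in
/-- the torus elements in both unitary groups -/
theorem exists_torus (hq : QuadDatum σ δ d) (ht₁ : SkT σ t₁) (g : GL (Fin m) E)
    {e : Matrix (Fin m) (Fin m) E} {k : ℕ}
    (hb : VBlk F σ δ (Dg t₂) (xiM σ t₁ t₂ g) e k) :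
    ∃ (u : (Fin k → F) → unitary σ (Dg t₂)) (u'' : (Fin k → F) → unitary σ (Dg t₁)) (C : ℝ),
      (∀ s, umat (u s) * (AA δ (xiM σ t₁ t₂ g) e s - 1) = AA δ (xiM σ t₁ t₂ g) e s + 1) ∧
      (∀ s, (u s).1.1 * xiM σ t₁ t₂ g = xiM σ t₁ t₂ g * (u s).1.1) ∧
      (∀ s, (u'' s).1 = (th t₁ (g * (u s).1 * g⁻¹))⁻¹) ∧
      (∀ s, umat (u'' s) = (g.1 * umat (u s) * (g⁻¹).1).map σ) ∧
      (∀ s, umat (u'' s) * ((g.1 * AA δ (xiM σ t₁ t₂ g) e s * (g⁻¹).1).map σ - 1) =
        (g.1 * AA δ (xiM σ t₁ t₂ g) e s * (g⁻¹).1).map σ + 1) ∧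
      (∀ s i j, ‖umat (u s) i j‖ ≤ C ∧ ‖umat (u s)⁻¹ i j‖ ≤ C) ∧
      (∀ s i j, ‖umat (u'' s) i j‖ ≤ C ∧ ‖umat (u'' s)⁻¹ i j‖ ≤ C) := by
  set ξ := xiM σ t₁ t₂ g with hξ
  have h1 : ∀ s : Fin k → F, ∃ u : unitary σ (Dg t₂),
      umat u * (AA δ ξ e s - 1) = AA δ ξ e s + 1 := fun s =>
    exists_cay (hb.sk_AA hq s) (hb.isUnit_sub hq s) (hb.isUnit_add hq s)
  choose u hu using h1
  have hcomm : ∀ s, (u s).1.1 * ξ = ξ * (u s).1.1 := fun s =>
    comm_cay (hb.isUnit_sub hq s) (hu s) (hb.xi_AA s)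
  have hmem : ∀ s, g * (u s).1 * g⁻¹ ∈ unitary σ (Dg t₁) := fun s => conj_mem (u s).2 (hcomm s)
  let u'' : (Fin k → F) → unitary σ (Dg t₁) := fun s =>
    ⟨(th t₁ (g * (u s).1 * g⁻¹))⁻¹, inv_mem (th_mem (sig_sig hq) ht₁ (hmem s))⟩
  have hu'' : ∀ s, umat (u'' s) = (g.1 * umat (u s) * (g⁻¹).1).map σ := fun s =>
    th_inv_val (hmem s)
  have hinv : ∀ s, (u s)⁻¹ = u (-s) := by
    intro s
    refine inv_cay (hb.isUnit_sub hq s) (hu s) ?_
    have h2 := hu (-s)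
    rw [AA_neg] at h2
    exact h2
  have hinv'' : ∀ s, (u'' s)⁻¹ = u'' (-s) := by
    intro s
    apply Subtype.ext
    show ((th t₁ (g * (u s).1 * g⁻¹))⁻¹)⁻¹ = (th t₁ (g * (u (-s)).1 * g⁻¹))⁻¹
    have e : g * (u (-s)).1 * g⁻¹ = (g * (u s).1 * g⁻¹)⁻¹ := by
      rw [← hinv s]
      show g * ((u s).1)⁻¹ * g⁻¹ = _
      group
    rw [e, th_inv]
  obtain ⟨C, hC⟩ := hb.bdd hq
  have hCu : ∀ s i j, ‖umat (u s) i j‖ ≤ C := fun s i j => hC s (u s) (hu s) i j
  -- bound for `u''`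
  obtain ⟨M, hM⟩ : ∃ M : ℝ, ∀ i j, ‖g.1 i j‖ ≤ M ∧ ‖(g⁻¹).1 i j‖ ≤ M := by
    refine ⟨(∑ i, ∑ j, ‖g.1 i j‖) + ∑ i, ∑ j, ‖(g⁻¹).1 i j‖, fun i j => ?_⟩
    have e1 : ∀ (X : Matrix (Fin m) (Fin m) E) (i j), ‖X i j‖ ≤ ∑ i, ∑ j, ‖X i j‖ := by
      intro X i j
      refine (Finset.single_le_sum (f := fun j => ‖X i j‖) (fun j _ => norm_nonneg _)
        (Finset.mem_univ j)).trans ?_
      exact Finset.single_le_sum (f := fun i => ∑ j, ‖X i j‖)
        (fun i _ => Finset.sum_nonneg fun j _ => norm_nonneg _) (Finset.mem_univ i)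
    have e2 : ∀ X : Matrix (Fin m) (Fin m) E, 0 ≤ ∑ i, ∑ j, ‖X i j‖ := fun X =>
      Finset.sum_nonneg fun i _ => Finset.sum_nonneg fun j _ => norm_nonneg _
    exact ⟨(e1 _ i j).trans (le_add_of_nonneg_right (e2 _)),
      (e1 _ i j).trans (le_add_of_nonneg_left (e2 _))⟩
  obtain ⟨K, hK⟩ : ∃ K : ℝ, ∀ x : E, ‖σ x‖ ≤ K * ‖x‖ := by
    have hfin := hq.finite
    exact ⟨_, fun x => (σ.toLinearMap.toContinuousLinearMap).le_opNorm x⟩
  have hK' : ∀ x : E, ‖σ x‖ ≤ |K| * ‖x‖ := fun x =>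
    (hK x).trans (mul_le_mul_of_nonneg_right (le_abs_self K) (norm_nonneg _))
  have hCu'' : ∀ s i j, ‖umat (u'' s) i j‖ ≤ |K| * (|M| * |C| * |M|) := by
    intro s i j
    rw [hu'', Matrix.map_apply]
    refine (hK' _).trans (mul_le_mul_of_nonneg_left ?_ (abs_nonneg _))
    have e1 := mul_entry_le g.1 (umat (u s)) (abs_nonneg M) (abs_nonneg C)
      (fun i j => (hM i j).1.trans (le_abs_self M)) (fun i j => (hCu s i j).trans (le_abs_self C))
    exact mul_entry_le (g.1 * umat (u s)) (g⁻¹).1 (by positivity) (abs_nonneg M) e1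
      (fun i j => (hM i j).2.trans (le_abs_self M)) i j
  refine ⟨u, u'', max C (|K| * (|M| * |C| * |M|)), hu, hcomm, fun s => rfl, hu'', ?_, ?_, ?_⟩
  · intro s
    have hgg : (g⁻¹).1 * g.1 = 1 := by rw [← Units.val_mul, inv_mul_cancel, Units.val_one]
    have hgg' : g.1 * (g⁻¹).1 = 1 := by rw [← Units.val_mul, mul_inv_cancel, Units.val_one]
    have h1σ : (1 : Matrix (Fin m) (Fin m) E).map σ = 1 :=
      Matrix.map_one σ (map_zero σ) (map_one σ)
    have e1 : ∀ X : Matrix (Fin m) (Fin m) E, (g.1 * X * (g⁻¹).1).map σ - 1 =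
        (g.1 * (X - 1) * (g⁻¹).1).map σ := by
      intro X
      rw [Matrix.mul_sub, Matrix.mul_one, Matrix.sub_mul, hgg', Matrix.map_sub σ (map_sub σ), h1σ]
    have e2 : ∀ X : Matrix (Fin m) (Fin m) E, (g.1 * X * (g⁻¹).1).map σ + 1 =
        (g.1 * (X + 1) * (g⁻¹).1).map σ := by
      intro X
      rw [Matrix.mul_add, Matrix.mul_one, Matrix.add_mul, hgg', Matrix.map_add σ (map_add σ), h1σ]
    rw [e1, e2, hu'', ← Matrix.map_mul]
    congr 1
    rw [← hu s]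
    simp only [Matrix.mul_assoc]
    rw [← Matrix.mul_assoc (g⁻¹).1 g.1, hgg, Matrix.one_mul]
  · intro s i j
    refine ⟨(hCu s i j).trans (le_max_left _ _), ?_⟩
    rw [hinv s]
    exact (hCu (-s) i j).trans (le_max_left _ _)
  · intro s i j
    refine ⟨(hCu'' s i j).trans (le_max_right _ _), ?_⟩
    rw [hinv'' s]
    exact (hCu'' (-s) i j).trans (le_max_right _ _)

/-- `h₂(δ ξ^j e b, b)` -/
noncomputable def qf (F : Type) {E : Type} [Field F] [Field E] [Algebra F E] (σ : E ≃ₐ[F] E)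
    (δ : E) {N : ℕ} (H ξ e : Matrix (Fin N) (Fin N) E) (j : ℕ) (b : Fin N → E) : F :=
  sympl F σ H (δ • (ξ ^ j * e).mulVec b) b

omit [IsUltrametricDist F] [IsUltrametricDist E] [MeasurableSpace E] [BorelSpace E] in
theorem qf_continuous (hq : QuadDatum σ δ d) {H ξ e : Matrix (Fin m) (Fin m) E} (j : ℕ) :
    Continuous (qf F σ δ H ξ e j) := by
  have h0 : Continuous fun a : Fin m → E => (ξ ^ j * e).mulVec a :=
    Continuous.matrix_mulVec continuous_const continuous_id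
  have h1 : Continuous fun a : Fin m → E => δ • (ξ ^ j * e).mulVec a := h0.const_smul δ
  have h2 : Continuous fun a : Fin m → E => (δ • (ξ ^ j * e).mulVec a, a) :=
    h1.prodMk continuous_id
  have h3 := (sympl_continuous (H := H) hq).comp h2
  exact h3

omit [IsUltrametricDist F] [ProperSpace F] [IsUltrametricDist E] [ProperSpace E]
  [MeasurableSpace E] [BorelSpace E] in
theorem qf_smul {H ξ e : Matrix (Fin m) (Fin m) E} (j : ℕ) (c : F) (a : Fin m → E) :
    qf F σ δ H ξ e j (c • a) = c ^ 2 * qf F σ δ H ξ e j a := by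
  unfold qf
  rw [mulVec_fsmul, smul_comm δ c, sympl_eq, sk_fsmul_left, sk_fsmul_right,
    ← mul_assoc, ← map_mul, ← Algebra.smul_def, map_smul, sympl_eq, sq, smul_eq_mul]

omit [IsUltrametricDist F] [ProperSpace F] [IsUltrametricDist E] [ProperSpace E]
  [MeasurableSpace E] [BorelSpace E] in
theorem qf_e {H ξ e : Matrix (Fin m) (Fin m) E} {k : ℕ} (hb : VBlk F σ δ H ξ e k) (j : ℕ)
    (a : Fin m → E) : qf F σ δ H ξ e j (e.mulVec a) = qf F σ δ H ξ e j a := by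
  unfold qf
  have h2 : ξ ^ j * e = e * ξ ^ j := (Commute.pow_left hb.comm j).eq
  have h3 : e * (ξ ^ j * e * e) = ξ ^ j * e := by
    rw [Matrix.mul_assoc (ξ ^ j), hb.idem, ← Matrix.mul_assoc, ← h2, Matrix.mul_assoc,
      hb.idem]
  rw [sympl_eq, sk_smul_left, Matrix.mulVec_mulVec, ← hb.adj, Matrix.mulVec_mulVec, h3, sympl_eq,
    sk_smul_left]

/-- `w ↦ g⁻¹ σ(w)` -/
def gs (σ : E ≃ₐ[F] E) (g : GL (Fin m) E) (w : Fin m → E) : Fin m → E :=
  (g⁻¹).1.mulVec (sgv σ w)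

/-- the quadratic map on `X₂ × X₁` -/
noncomputable def QT (σ : E ≃ₐ[F] E) (δ : E) (H : Matrix (Fin m) (Fin m) E)
    (ξ e : Matrix (Fin m) (Fin m) E) (g : GL (Fin m) E) (k : ℕ)
    (x : (Fin m → E) × (Fin m → E)) : Fin k → F := fun i =>
  (4 : F)⁻¹ * (qf F σ δ H ξ e i x.1 - qf F σ δ H ξ e (i + 1) (gs σ g x.2))

omit [IsUltrametricDist F] [IsUltrametricDist E] [MeasurableSpace E] [BorelSpace E] in
theorem QT_continuous (hq : QuadDatum σ δ d) {H ξ e : Matrix (Fin m) (Fin m) E}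
    (g : GL (Fin m) E) (k : ℕ) : Continuous (QT (F := F) σ δ H ξ e g k) := by
  refine continuous_pi fun i => ?_
  have h1 : Continuous (sgv σ : (Fin m → E) → (Fin m → E)) :=
    continuous_pi fun i => (sig_continuous hq).comp (continuous_apply i)
  have h2 : Continuous (gs σ g : (Fin m → E) → (Fin m → E)) := by
    unfold gs
    exact Continuous.matrix_mulVec continuous_const h1
  exact continuous_const.mul (((qf_continuous hq _).comp continuous_fst).sub
    ((qf_continuous hq _).comp (h2.comp continuous_snd)))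

omit [IsUltrametricDist F] [ProperSpace F] [IsUltrametricDist E] [ProperSpace E]
  [MeasurableSpace E] [BorelSpace E] in
theorem gs_smul (g : GL (Fin m) E) (c : F) (w : Fin m → E) :
    gs σ g (c • w) = c • gs σ g w := by
  unfold gs
  have h1 : sgv σ (c • w) = c • sgv σ w := by
    funext i
    simp only [sgv, Pi.smul_apply, Algebra.smul_def, map_mul, AlgEquiv.commutes]
  rw [h1, mulVec_fsmul]

omit [IsUltrametricDist F] [ProperSpace F] [IsUltrametricDist E] [ProperSpace E]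
  [MeasurableSpace E] [BorelSpace E] in
theorem QT_smul {H ξ e : Matrix (Fin m) (Fin m) E} (g : GL (Fin m) E) (k : ℕ) (c : F)
    (x : (Fin m → E) × (Fin m → E)) :
    QT (F := F) σ δ H ξ e g k (c • x) = (c ^ 2) • QT (F := F) σ δ H ξ e g k x := by
  funext i
  unfold QT
  rw [Pi.smul_apply, Prod.smul_fst, Prod.smul_snd, gs_smul, qf_smul, qf_smul, smul_eq_mul]
  ring

omit [IsUltrametricDist F] [ProperSpace F] [IsUltrametricDist E] [ProperSpace E]
  [MeasurableSpace E] [BorelSpace E] in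
theorem gs_e (hq : QuadDatum σ δ d) (g : GL (Fin m) E) (e : Matrix (Fin m) (Fin m) E)
    (w : Fin m → E) :
    gs σ g (((g.1 * e * (g⁻¹).1).map σ).mulVec w) = e.mulVec (gs σ g w) := by
  unfold gs
  conv_lhs => rw [← sgv_sgv hq w, map_mulVec_sgv, sgv_sgv hq]
  rw [Matrix.mulVec_mulVec, Matrix.mulVec_mulVec, ← Matrix.mul_assoc, ← Matrix.mul_assoc,
    ← Units.val_mul, inv_mul_cancel, Units.val_one, Matrix.one_mul]

omit [IsUltrametricDist F] [ProperSpace F] [IsUltrametricDist E] [ProperSpace E]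
  [MeasurableSpace E] [BorelSpace E] in
theorem gs_zero (hq : QuadDatum σ δ d) (g : GL (Fin m) E) {w : Fin m → E}
    (h : gs σ g w = 0) : w = 0 := by
  have h1 := congrArg (fun v => g.1.mulVec v) h
  simp only [gs, Matrix.mulVec_mulVec, Matrix.mulVec_zero] at h1
  rw [← Units.val_mul, mul_inv_cancel, Units.val_one, Matrix.one_mulVec] at h1
  rw [← sgv_sgv hq w, h1]
  funext i
  exact map_zero σ

omit [IsUltrametricDist F] [ProperSpace F] [IsUltrametricDist E] [ProperSpace E]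
  [MeasurableSpace E] [BorelSpace E] in
theorem QT_sum (hq : QuadDatum σ δ d) (ht₁ : SkT σ t₁) (g : GL (Fin m) E)
    {e : Matrix (Fin m) (Fin m) E} {k : ℕ} (s : Fin k → F) (x : (Fin m → E) × (Fin m → E)) :
    ∑ i, s i * QT (F := F) σ δ (Dg t₂) (xiM σ t₁ t₂ g) e g k x i =
      (4 : F)⁻¹ * sympl F σ (Dg t₂) ((AA δ (xiM σ t₁ t₂ g) e s).mulVec x.1) x.1 +
      (4 : F)⁻¹ * sympl F σ (Dg t₁)
        (((g.1 * AA δ (xiM σ t₁ t₂ g) e s * (g⁻¹).1).map σ).mulVec x.2) x.2 := by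
  have h1 : xiM σ t₁ t₂ g * AA δ (xiM σ t₁ t₂ g) e s =
      ∑ i, (algebraMap F E (s i) * δ) • (xiM σ t₁ t₂ g ^ ((i : ℕ) + 1) * e) := by
    unfold AA
    rw [Finset.mul_sum]
    refine Finset.sum_congr rfl fun i _ => ?_
    rw [Matrix.mul_smul, ← Matrix.mul_assoc, ← pow_succ']
  have h2 : ∀ b : Fin m → E, sympl F σ (Dg t₂)
      ((xiM σ t₁ t₂ g * AA δ (xiM σ t₁ t₂ g) e s).mulVec b) b =
      ∑ i, s i * qf F σ δ (Dg t₂) (xiM σ t₁ t₂ g) e ((i : ℕ) + 1) b := by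
    intro b
    rw [h1, Matrix.sum_mulVec, sympl_eq, sk_sum_left, _root_.map_sum]
    refine Finset.sum_congr rfl fun i _ => ?_
    rw [Matrix.smul_mulVec, ← smul_smul, sk_smul_left, ← Algebra.smul_def, map_smul, smul_eq_mul]
    rfl
  rw [sympl_conj (t₂ := t₂) hq ht₁, h2, sympl_AA, ← mul_add, ← sub_eq_add_neg,
    ← Finset.sum_sub_distrib, Finset.mul_sum]
  refine Finset.sum_congr rfl fun i _ => ?_
  unfold QT gs qf
  ring

omit [IsUltrametricDist F] [ProperSpace F] in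
theorem continuous_W (hq : QuadDatum σ δ d) {H ξ e : Matrix (Fin m) (Fin m) E} {k : ℕ}
    (hb : VBlk F σ δ H ξ e k) :
    Continuous fun s : Fin k → F => ((md ((2 : E) ^ m / (AA δ ξ e s - 1).det) : ℝ≥0) : ℝ) := by
  have h1 : Continuous fun s : Fin k → F => AA δ ξ e s := by
    unfold AA
    refine continuous_finsetSum _ fun i _ => ?_
    have h2 : Continuous fun s : Fin k → F => algebraMap F E (s i) * δ :=
      ((continuous_algebraMap F E).comp (continuous_apply i)).mul continuous_const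
    exact h2.smul continuous_const
  have h2 : Continuous fun s : Fin k → F => (AA δ ξ e s - 1).det :=
    (h1.sub continuous_const).matrix_det
  have h3 : ∀ s : Fin k → F, (AA δ ξ e s - 1).det ≠ 0 := fun s =>
    ((Matrix.isUnit_iff_isUnit_det _).1 (hb.isUnit_sub hq s)).ne_zero
  exact NNReal.continuous_coe.comp (continuous_md.comp (continuous_const.div h2 h3))

/-- **The abstract vanishing theorem.** -/
theorem vanAbs (hq : QuadDatum σ δ d) {ψ : AddChar F Circle} (hψ : Continuous ψ) (hψ1 : ψ ≠ 1)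
    {χμ : Eˣ →* ℂˣ} (hμ : ConjSymplectic F χμ) (ht₁ : SkT σ t₁) (ht₂ : SkT σ t₂)
    {S₁ S₂ : Type} [AddCommGroup S₁] [Module ℂ S₁] [AddCommGroup S₂] [Module ℂ S₂]
    {ρ₁ : (Fin m → E) → Module.End ℂ S₁} {ω₁ : unitary σ (Dg t₁) →* Module.End ℂ S₁}
    {ρ₂ : (Fin m → E) → Module.End ℂ S₂} {ω₂ : unitary σ (Dg t₂) →* Module.End ℂ S₂}
    (hW₁ : IsWeil σ (Dg t₁) ψ χμ ρ₁ ω₁) (hW₂ : IsWeil σ (Dg t₂) ψ χμ ρ₂ ω₂)
    (g : GL (Fin m) E) (hsep : (xiM σ t₁ t₂ g).charpoly.Separable)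
    (hno : ¬ ∃ f : E[X], aeval (xiM σ t₁ t₂ g) f *
      aeval (xiM σ t₁ t₂ g) (f.map (σ : E →+* E)) = xiM σ t₁ t₂ g) : VanAbs ω₁ ω₂ g := by
  intro Lam hLam c b
  have hfin := hq.finite
  obtain ⟨k, e, hk, he, hc, ha, hr, han⟩ :=
    exists_aniso hq ht₂.isSkew (xiM_adj hq ht₁ ht₂ g) hsep hno
  have hb : VBlk F σ δ (Dg t₂) (xiM σ t₁ t₂ g) e k :=
    ⟨hk, he, hc, xiM_adj hq ht₁ ht₂ g, ha, hr, han⟩
  obtain ⟨u, u'', C, hu, hcomm, hu1, hu2, hu3, hbd, hbd''⟩ := exists_torus hq ht₁ g hb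
  -- the orbits are finite
  have hf2 : (Set.range fun s => ω₂ (u s) c).Finite := by
    refine (finite_of_lc (Hk.orbit_lc (π := ω₂) hW₂.om_smooth c)
      (isCompact_U_bdd hq (Dg t₂) C)).subset ?_
    rintro _ ⟨s, rfl⟩
    exact ⟨u s, fun i j => hbd s i j, rfl⟩
  have hf1 : (Set.range fun s => ω₁ (u'' s) b).Finite := by
    refine (finite_of_lc (Hk.orbit_lc (π := ω₁) hW₁.om_smooth b)
      (isCompact_U_bdd hq (Dg t₁) C)).subset ?_
    rintro _ ⟨s, rfl⟩
    exact ⟨u'' s, fun i j => hbd'' s i j, rfl⟩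
  obtain ⟨n₂, η, cc, hη⟩ := exists_dual_basis (hDual ρ₂) (fun v hv =>
    hDual_separates hW₂ hq ht₂.isSkew hψ hψ1 (fun ξ => hv ξ.1 ξ.2)) hf2
  obtain ⟨n₁, ζ, bb, hζ⟩ := exists_dual_basis (hDual ρ₁) (fun v hv =>
    hDual_separates hW₁ hq ht₁.isSkew hψ hψ1 (fun ξ => hv ξ.1 ξ.2)) hf1
  obtain ⟨κ₂, hκ₂⟩ := exists_coef hW₂ hq ht₂.isSkew hψ1
  obtain ⟨κ₁, hκ₁⟩ := exists_coef hW₁ hq ht₁.isSkew hψ1
  -- the coefficients
  have hcη : ∀ i, Continuous fun w : Fin m → E => (η i).1 (ρ₂ w c) := fun i =>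
    (coefW_lc hW₂ hq ht₂.isSkew hψ (η i) c).continuous
  have hcζ : ∀ j, Continuous fun w : Fin m → E => (ζ j).1 (ρ₁ w b) := fun j =>
    (coefW_lc hW₁ hq ht₁.isSkew hψ (ζ j) b).continuous
  have hsη : ∀ i, HasCompactSupport fun w : Fin m → E => (η i).1 (ρ₂ w c) := fun i =>
    coef_cs hW₂ hq ht₂.isSkew hψ1 (η i) c
  have hsζ : ∀ j, HasCompactSupport fun w : Fin m → E => (ζ j).1 (ρ₁ w b) := fun j =>
    coef_cs hW₁ hq ht₁.isSkew hψ1 (ζ j) b
  let Φ : (Fin m → E) × (Fin m → E) → ℂ := fun x =>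
    ∑ i, ∑ j, (Lam (cc i) (bb j) * (κ₂ * κ₁)) * ((η i).1 (ρ₂ x.1 c) * (ζ j).1 (ρ₁ x.2 b))
  have hΦc : Continuous Φ := by
    refine continuous_finsetSum _ fun i _ => continuous_finsetSum _ fun j _ => ?_
    exact continuous_const.mul
      (((hcη i).comp continuous_fst).mul ((hcζ j).comp continuous_snd))
  have hΦs : HasCompactSupport Φ := by
    have hK₂ : IsCompact (⋃ i, tsupport fun w : Fin m → E => (η i).1 (ρ₂ w c)) :=
      isCompact_iUnion fun i => hsη i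
    have hK₁ : IsCompact (⋃ j, tsupport fun w : Fin m → E => (ζ j).1 (ρ₁ w b)) :=
      isCompact_iUnion fun j => hsζ j
    refine HasCompactSupport.intro (hK₂.prod hK₁) fun x hx => ?_
    refine Finset.sum_eq_zero fun i _ => Finset.sum_eq_zero fun j _ => ?_
    have h1 : (η i).1 (ρ₂ x.1 c) * (ζ j).1 (ρ₁ x.2 b) = 0 := by
      by_contra h2
      apply hx
      refine ⟨mem_iUnion.2 ⟨i, subset_tsupport _ ?_⟩, mem_iUnion.2 ⟨j, subset_tsupport _ ?_⟩⟩
      · exact left_ne_zero_of_mul h2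
      · exact right_ne_zero_of_mul h2
    rw [h1, mul_zero]
  -- the projection
  set e'' : Matrix (Fin m) (Fin m) E := (g.1 * e * (g⁻¹).1).map σ with he''
  let P : ((Fin m → E) × (Fin m → E)) →ₗ[F] ((Fin m → E) × (Fin m → E)) :=
    (mvL F e).prodMap (mvL F e'')
  have hee : e'' * e'' = e'' := by
    rw [he'', ← Matrix.map_mul]
    congr 1
    have hgg : (g⁻¹).1 * g.1 = 1 := by rw [← Units.val_mul, inv_mul_cancel, Units.val_one]
    simp only [Matrix.mul_assoc]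
    rw [← Matrix.mul_assoc (g⁻¹).1 g.1, hgg, Matrix.one_mul, ← Matrix.mul_assoc e, he]
  have hP : P ∘ₗ P = P := by
    apply LinearMap.ext
    intro x
    show (e.mulVec (e.mulVec x.1), e''.mulVec (e''.mulVec x.2)) = (e.mulVec x.1, e''.mulVec x.2)
    rw [Matrix.mulVec_mulVec, Matrix.mulVec_mulVec, he, hee]
  have hQP : ∀ x, QT (F := F) σ δ (Dg t₂) (xiM σ t₁ t₂ g) e g k (P x) =
      QT (F := F) σ δ (Dg t₂) (xiM σ t₁ t₂ g) e g k x := by
    intro x
    funext i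
    show (4 : F)⁻¹ * (qf F σ δ (Dg t₂) (xiM σ t₁ t₂ g) e i (e.mulVec x.1) -
      qf F σ δ (Dg t₂) (xiM σ t₁ t₂ g) e (i + 1) (gs σ g (e''.mulVec x.2))) = _
    rw [he'', gs_e hq, qf_e hb, qf_e hb]
    rfl
  have h4 : (4 : F) ≠ 0 := by
    have h5 : (4 : F) = 2 * 2 := by norm_num
    rw [h5]
    exact mul_ne_zero hq.two hq.two
  have hQ0 : ∀ x, QT (F := F) σ δ (Dg t₂) (xiM σ t₁ t₂ g) e g k x = 0 → P x = 0 := by
    intro x hx
    have h1 := han x.1 (gs σ g x.2) (fun i hi => by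
      have h2 := congrFun hx ⟨i, hi⟩
      have h3 : (4 : F)⁻¹ * (qf F σ δ (Dg t₂) (xiM σ t₁ t₂ g) e i x.1 -
        qf F σ δ (Dg t₂) (xiM σ t₁ t₂ g) e (i + 1) (gs σ g x.2)) = 0 := h2
      have h5 := (mul_eq_zero.1 h3).resolve_left (inv_ne_zero h4)
      exact sub_eq_zero.1 h5)
    have h2 : e''.mulVec x.2 = 0 := by
      apply gs_zero hq g
      rw [he'', gs_e hq]
      exact h1.2
    show (e.mulVec x.1, e''.mulVec x.2) = 0
    rw [h1.1, h2]
    rfl
  have hrank : 2 * k < Module.finrank F (LinearMap.range P) := by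
    refine lt_of_le_of_lt ?_ (finrank_prodMap (mvL F e) (mvL F e'') ?_)
    · rw [← hr]
      exact finrank_mvL hq e
    · intro h0
      have h1 : ∀ w, e.mulVec w = 0 := by
        intro w
        have h2 := LinearMap.congr_fun h0 (sgv σ (g.1.mulVec w))
        have h3 : e''.mulVec (sgv σ (g.1.mulVec w)) = 0 := h2
        have h4 := gs_e hq g e (sgv σ (g.1.mulVec w))
        rw [← he'', h3] at h4
        have h5 : gs σ g (sgv σ (g.1.mulVec w)) = w := by
          unfold gs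
          rw [sgv_sgv hq, Matrix.mulVec_mulVec, ← Units.val_mul, inv_mul_cancel, Units.val_one,
            Matrix.one_mulVec]
        rw [h5] at h4
        rw [← h4]
        unfold gs
        have h6 : sgv σ (0 : Fin m → E) = 0 := by
          funext i
          exact map_zero σ
        rw [h6, Matrix.mulVec_zero]
      have h2 : e = 0 := by
        ext i j
        have h3 := congrFun (h1 (Pi.single j 1)) i
        rw [Matrix.mulVec_single_one] at h3
        exact h3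
      rw [h2, Matrix.rank_zero] at hr
      omega
  -- the weight
  let W : (Fin k → F) → ℝ := fun s =>
    ((md ((2 : E) ^ m / (AA δ (xiM σ t₁ t₂ g) e s - 1).det) : ℝ≥0) : ℝ)
  have hdet0 : ∀ s : Fin k → F, (AA δ (xiM σ t₁ t₂ g) e s - 1).det ≠ 0 := fun s =>
    ((Matrix.isUnit_iff_isUnit_det _).1 (hb.isUnit_sub hq s)).ne_zero
  have h2m : (2 : E) ^ m ≠ 0 := pow_ne_zero m hq.two_E
  have hW0 : ∀ s, 0 < W s := fun s => NNReal.coe_pos.2 (md_pos (div_ne_zero h2m (hdet0 s)))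
  refine ball_zero hψ hψ1 ((addHaar : Measure (Fin m → E)).prod (addHaar : Measure (Fin m → E)))
    (QT (F := F) σ δ (Dg t₂) (xiM σ t₁ t₂ g) e g k) (QT_continuous hq g k)
    (fun a x => QT_smul g k a x) P hP hQP hQ0 hrank Φ hΦc hΦs W (continuous_W hq hb) hW0
    (Lam c b) fun s => ?_
  -- the determinants
  have hne : (umat (u s) - 1).det ≠ 0 := by
    intro h0
    have h1 := det_cay (hu s)
    rw [h0, zero_mul] at h1
    exact h2m h1.symm
  let D : Eˣ := Units.mk0 _ hne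
  have hD : (D : E) = (umat (u s) - 1).det := rfl
  have hgg' : g.1 * (g⁻¹).1 = 1 := by rw [← Units.val_mul, mul_inv_cancel, Units.val_one]
  have hD'' : (umat (u'' s) - 1).det = σ (D : E) := by
    have h1σ : (1 : Matrix (Fin m) (Fin m) E).map σ = 1 :=
      Matrix.map_one σ (map_zero σ) (map_one σ)
    have e1 : (g.1 * umat (u s) * (g⁻¹).1).map σ - 1 =
        (g.1 * (umat (u s) - 1) * (g⁻¹).1).map σ := by
      rw [Matrix.mul_sub, Matrix.mul_one, Matrix.sub_mul, hgg', Matrix.map_sub σ (map_sub σ), h1σ]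
    have e2 : g.1.det * (g⁻¹).1.det = 1 := by
      rw [← Matrix.det_mul, hgg', Matrix.det_one]
    rw [hu2 s, e1, HermC.det_map, Matrix.det_mul, Matrix.det_mul, hD]
    congr 1
    linear_combination (umat (u s) - 1).det * e2
  have hne'' : σ (D : E) ≠ 0 := (map_ne_zero σ).2 D.ne_zero
  let D'' : Eˣ := Units.mk0 _ hne''
  have hμD : ((χμ D : ℂˣ) : ℂ) * ((χμ D'' : ℂˣ) : ℂ) = 1 := by
    rw [mu_sig hq hμ D D'' rfl, MonoidHom.inv_apply, ← Units.val_mul, mul_inv_cancel,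
      Units.val_one]
  have habs : absE D'' = absE D := absE_sig hq D D'' rfl
  have hWs : W s = absE D := by
    have h1 : (2 : E) ^ m / (AA δ (xiM σ t₁ t₂ g) e s - 1).det = (D : E) := by
      rw [hD, div_eq_iff (hdet0 s), det_cay (hu s)]
    show ((md ((2 : E) ^ m / (AA δ (xiM σ t₁ t₂ g) e s - 1).det) : ℝ≥0) : ℝ) = absE D
    rw [h1, md_units]
    rfl
  have hWabs : ((W s : ℝ) : ℂ) * ((((absE D) ^ (-(1 / 2) : ℝ) : ℝ) : ℂ) *
      (((absE D'') ^ (-(1 / 2) : ℝ) : ℝ) : ℂ)) = 1 := by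
    rw [habs, ← Complex.ofReal_mul, ← Complex.ofReal_mul, hWs]
    have h1 : 0 < absE D := by
      rw [← hWs]
      exact hW0 s
    rw [← Real.rpow_add h1]
    have h2 : (-(1 / 2) : ℝ) + -(1 / 2) = -1 := by norm_num
    rw [h2, Real.rpow_neg_one, mul_inv_cancel₀ h1.ne', Complex.ofReal_one]
  -- the integrals
  set f : Fin n₂ → (Fin m → E) → ℂ := fun i w =>
    ((ψ ((4 : F)⁻¹ * sympl F σ (Dg t₂) ((AA δ (xiM σ t₁ t₂ g) e s).mulVec w) w) : Circle) : ℂ) *
      (η i).1 (ρ₂ w c) with hf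
  set h : Fin n₁ → (Fin m → E) → ℂ := fun j w =>
    ((ψ ((4 : F)⁻¹ * sympl F σ (Dg t₁)
      (((g.1 * AA δ (xiM σ t₁ t₂ g) e s * (g⁻¹).1).map σ).mulVec w) w) : Circle) : ℂ) *
      (ζ j).1 (ρ₁ w b) with hh
  have hfi : ∀ i, Integrable (f i) addHaar := fun i => by
    refine Continuous.integrable_of_hasCompactSupport ?_ (hsη i).mul_left
    refine Continuous.mul ?_ (hcη i)
    exact continuous_subtype_val.comp (hψ.comp
      (continuous_const.mul (sympl_cay_continuous (H := Dg t₂) hq _)))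
  have hhi : ∀ j, Integrable (h j) addHaar := fun j => by
    refine Continuous.integrable_of_hasCompactSupport ?_ (hsζ j).mul_left
    refine Continuous.mul ?_ (hcζ j)
    exact continuous_subtype_val.comp (hψ.comp
      (continuous_const.mul (sympl_cay_continuous (H := Dg t₁) hq _)))
  have hI : ∀ i, (η i).1 (ω₂ (u s) c) = κ₂ * ((χμ D : ℂˣ) : ℂ) *
      (((absE D) ^ (-(1 / 2) : ℝ) : ℝ) : ℂ) * ∫ w, f i w ∂addHaar := by
    intro i
    have h1 := hκ₂ (u s) D rfl c (η i)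
    rw [cayley_eq hq.two_E (hu s)] at h1
    exact h1
  have hJ : ∀ j, (ζ j).1 (ω₁ (u'' s) b) = κ₁ * ((χμ D'' : ℂˣ) : ℂ) *
      (((absE D'') ^ (-(1 / 2) : ℝ) : ℝ) : ℂ) * ∫ w, h j w ∂addHaar := by
    intro j
    have h1 := hκ₁ (u'' s) D'' hD''.symm b (ζ j)
    rw [cayley_eq hq.two_E (hu3 s)] at h1
    exact h1
  have hLs : Lam c b = ∑ i, ∑ j, Lam (cc i) (bb j) *
      ((η i).1 (ω₂ (u s) c) * (ζ j).1 (ω₁ (u'' s) b)) := by
    have hx := hη _ ⟨s, rfl⟩
    have hy := hζ _ ⟨s, rfl⟩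
    simp only at hx hy
    rw [← hLam (u s) (u'' s) (hcomm s) (hu1 s) c b]
    calc Lam (ω₂ (u s) c) (ω₁ (u'' s) b)
        = Lam (∑ i, (η i).1 (ω₂ (u s) c) • cc i) (∑ j, (ζ j).1 (ω₁ (u'' s) b) • bb j) := by
          rw [← hx, ← hy]
      _ = _ := by
          have e1 : Lam (∑ i, (η i).1 (ω₂ (u s) c) • cc i) =
              ∑ i, (η i).1 (ω₂ (u s) c) • Lam (cc i) := by
            rw [_root_.map_sum]
            exact Finset.sum_congr rfl fun i _ => map_smul _ _ _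
          rw [e1, LinearMap.sum_apply]
          refine Finset.sum_congr rfl fun i _ => ?_
          rw [_root_.map_sum]
          refine Finset.sum_congr rfl fun j _ => ?_
          rw [map_smul, LinearMap.smul_apply, smul_eq_mul, smul_eq_mul]
          ring
  have hint : ∫ x, ((ψ (∑ i, s i * QT (F := F) σ δ (Dg t₂) (xiM σ t₁ t₂ g) e g k x i) :
      Circle) : ℂ) * Φ x ∂((addHaar : Measure (Fin m → E)).prod (addHaar : Measure (Fin m → E))) =
      ∑ i, ∑ j, (Lam (cc i) (bb j) * (κ₂ * κ₁)) *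
        ((∫ w, f i w ∂addHaar) * ∫ w, h j w ∂addHaar) := by
    have h1 : ∀ x : (Fin m → E) × (Fin m → E),
        ((ψ (∑ i, s i * QT (F := F) σ δ (Dg t₂) (xiM σ t₁ t₂ g) e g k x i) : Circle) : ℂ) * Φ x =
        ∑ i, ∑ j, (Lam (cc i) (bb j) * (κ₂ * κ₁)) * (f i x.1 * h j x.2) := by
      intro x
      rw [QT_sum hq ht₁, AddChar.map_add_eq_mul, Circle.coe_mul, Finset.mul_sum]
      refine Finset.sum_congr rfl fun i _ => ?_
      rw [Finset.mul_sum]
      refine Finset.sum_congr rfl fun j _ => ?_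
      rw [hf, hh]
      ring
    have h2 : ∀ i j, Integrable (fun x : (Fin m → E) × (Fin m → E) => f i x.1 * h j x.2)
        ((addHaar : Measure (Fin m → E)).prod (addHaar : Measure (Fin m → E))) := fun i j =>
      (hfi i).mul_prod (hhi j)
    simp_rw [h1]
    rw [integral_finsetSum _ fun i _ => integrable_finsetSum _ fun j _ =>
      (h2 i j).const_mul _]
    refine Finset.sum_congr rfl fun i _ => ?_
    rw [integral_finsetSum _ fun j _ => (h2 i j).const_mul _]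
    refine Finset.sum_congr rfl fun j _ => ?_
    rw [integral_const_mul, integral_prod_mul]
  rw [hint, hLs, Finset.mul_sum]
  refine Finset.sum_congr rfl fun i _ => ?_
  rw [Finset.mul_sum]
  refine Finset.sum_congr rfl fun j _ => ?_
  rw [hI, hJ]
  linear_combination (Lam (cc i) (bb j) * (κ₂ * κ₁) * ((∫ w, f i w ∂addHaar) *
    ∫ w, h j w ∂addHaar)) * (((χμ D : ℂˣ) : ℂ) * ((χμ D'' : ℂˣ) : ℂ)) * hWabs +
    (Lam (cc i) (bb j) * (κ₂ * κ₁) * ((∫ w, f i w ∂addHaar) *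
    ∫ w, h j w ∂addHaar)) * hμD

end main

end SpW.Mo
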