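import Pool.Agent.Work.MP_3615d2_al.Mo.VanCase
import Pool.Agent.Work.MP_3615d2_al.Mo.Ker
import Pool.Agent.Work.MP_3615d2_al.Mo.Vanish

/-!
MP_3615d2_al, multiplicity one: the vanishing case (G8), given the abstract theorem.
-/

open MeasureTheory Filter Topology Matrix Polynomial

set_option linter.unusedSectionVars false
set_option linter.unusedVariables false

namespace SpW.Mo

variable {F E : Type} [NontriviallyNormedField F] [IsUltrametricDist F] [ProperSpace F]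
  [NontriviallyNormedField E] [NormedAlgebra F E] [IsUltrametricDist E] [ProperSpace E]
  [MeasurableSpace E] [BorelSpace E]
  {m : ℕ} {S₁ S₂ : Type} [AddCommGroup S₁] [Module ℂ S₁] [AddCommGroup S₂] [Module ℂ S₂]
  {σ : E ≃ₐ[F] E} {δ : E} {d : F} {t₁ t₂ : Fin m → Eˣ}
  [MeasurableSpace (GL (Fin m) E)] [BorelSpace (GL (Fin m) E)]
  (μ : Measure (GL (Fin m) E)) [μ.IsHaarMeasure]

/-- The vanishing case, given the abstract theorem. -/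
theorem van_case_abs (hq : QuadDatum σ δ d) (ht₁ : SkT σ t₁) (ht₂ : SkT σ t₂)
    (hiso : ¬ ∃ g : GL (Fin m) E, (g : Matrix (Fin m) (Fin m) E).transpose * Dg t₁ *
      (g : Matrix (Fin m) (Fin m) E).map σ = Dg t₂)
    {ρ₁ : (Fin m → E) → Module.End ℂ S₁} {ω₁ : unitary σ (Dg t₁) →* Module.End ℂ S₁}
    {ρ₂ : (Fin m → E) → Module.End ℂ S₂} {ω₂ : unitary σ (Dg t₂) →* Module.End ℂ S₂}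
    (habs : ∀ g : GL (Fin m) E, (xiM σ t₁ t₂ g).charpoly.Separable →
      (¬ ∃ f : E[X], aeval (xiM σ t₁ t₂ g) f *
        aeval (xiM σ t₁ t₂ g) (f.map (σ : E →+* E)) = xiM σ t₁ t₂ g) → VanAbs ω₁ ω₂ g)
    {β₁ : S₁ →ₗ[ℂ] S₁ →ₗ[ℂ] ℂ} {β₂ : S₂ →ₗ[ℂ] S₂ →ₗ[ℂ] ℂ}
    (hβ₁ : IsBeta σ t₁ ρ₁ ω₁ β₁) (hbd₁ : BetaBd σ t₁ ω₁ β₁)
    (hβ₂ : IsBeta σ t₂ ρ₂ ω₂ β₂) (hbd₂ : BetaBd σ t₂ ω₂ β₂)
    {χ : Eˣ → ℂ} {p : GL (Fin m) E → S₁} {r : GL (Fin m) E → S₂} (hp : IsP σ t₁ ω₁ χ p)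
    (hr : IsP σ t₂ ω₂ χ r) {ϖ : Eˣ} (hgood : ∀ᵐ g ∂μ, g ∈ GoodG μ σ t₁ t₂) :
    ∀ᵐ g ∂μ, ∀ c' b, Dker μ ϖ t₂ β₁ β₂ p r g c' b = 0 :=
  van_case_of hq ht₁ ht₂ hiso
    (fun g hg c' b => ker_integrable μ hq ht₁ ht₂ hp hr hbd₁ hbd₂ hg c' b)
    (fun u u' hu g c' b => Dker_left μ hq ht₁ hβ₁ hp u u' hu g c' b)
    (fun u g c' b => Dker_right μ hq ht₂ hβ₂ hr u g c' b) habs hgood

/-- G8: the vanishing case. -/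
theorem van_case {ψ : AddChar F Circle} {χμ : Eˣ →* ℂˣ}
    (hq : QuadDatum σ δ d) (hψ : Continuous ψ) (hψ1 : ψ ≠ 1)
    (hμ : ConjSymplectic F χμ) (ht₁ : SkT σ t₁) (ht₂ : SkT σ t₂)
    (hiso : ¬ ∃ g : GL (Fin m) E, (g : Matrix (Fin m) (Fin m) E).transpose * Dg t₁ *
      (g : Matrix (Fin m) (Fin m) E).map σ = Dg t₂)
    {ρ₁ : (Fin m → E) → Module.End ℂ S₁} {ω₁ : unitary σ (Dg t₁) →* Module.End ℂ S₁}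
    {ρ₂ : (Fin m → E) → Module.End ℂ S₂} {ω₂ : unitary σ (Dg t₂) →* Module.End ℂ S₂}
    (hW₁ : IsWeil σ (Dg t₁) ψ χμ ρ₁ ω₁) (hW₂ : IsWeil σ (Dg t₂) ψ χμ ρ₂ ω₂)
    {β₁ : S₁ →ₗ[ℂ] S₁ →ₗ[ℂ] ℂ} {β₂ : S₂ →ₗ[ℂ] S₂ →ₗ[ℂ] ℂ}
    (hβ₁ : IsBeta σ t₁ ρ₁ ω₁ β₁) (hbd₁ : BetaBd σ t₁ ω₁ β₁)
    (hβ₂ : IsBeta σ t₂ ρ₂ ω₂ β₂) (hbd₂ : BetaBd σ t₂ ω₂ β₂)
    {χ : Eˣ → ℂ} {p : GL (Fin m) E → S₁} {r : GL (Fin m) E → S₂} (hp : IsP σ t₁ ω₁ χ p)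
    (hr : IsP σ t₂ ω₂ χ r) (hm : 0 < m) {ϖ : Eˣ} (hϖ : ad (scl m ϖ) < 1)
    (hgood : ∀ᵐ g ∂μ, g ∈ GoodG μ σ t₁ t₂) :
    ∀ᵐ g ∂μ, ∀ c' b, Dker μ ϖ t₂ β₁ β₂ p r g c' b = 0 :=
  van_case_abs μ hq ht₁ ht₂ hiso
    (fun g hsep hno => vanAbs hq hψ hψ1 hμ ht₁ ht₂ hW₁ hW₂ g hsep hno)
    hβ₁ hbd₁ hβ₂ hbd₂ hp hr hgood

end SpW.Mo
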