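import Pool.Agent.Work.MP_3615d2_al.Mo.WeilHerm
import Pool.Agent.Work.MP_3615d2_al.Mo.Defs
import Pool.Agent.Work.MP_3615d2_al.ModDet

/-!
MP_3615d2_al, multiplicity one, G5a (part 2): the symmetric form `β` on the Weil representation of
`U(diag t)`, `β(x, y) = ∫ ξ(ρ(w)x) ξ(ρ(-σ(w))y) dw`, with `β(ρ(w)x, y) = β(x, ρ(σ(w))y)` and
`β(ω(u)x, y) = β(x, ω(θ(u))y)`.
-/

open MeasureTheory Metric Set Filter Topology Matrix
open scoped NNReal ComplexConjugate

set_option linter.unusedSectionVars false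

namespace SpW.Mo

open Pool.Agent.SpehH

section lin

variable {F E : Type} [Field F] [Field E] [Algebra F E] {σ : E ≃ₐ[F] E} {δ : E} {d : F} {m : ℕ}

/-- Coordinatewise conjugation. -/
def cjL (hσσ : ∀ x, σ (σ x) = x) (m : ℕ) : (Fin m → E) ≃ₗ[F] (Fin m → E) where
  toFun w := fun i => σ (w i)
  invFun w := fun i => σ (w i)
  map_add' w w' := by
    funext i
    exact map_add σ _ _
  map_smul' c w := by
    funext i
    show σ (c • w i) = c • σ (w i)
    exact map_smul σ c _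
  left_inv w := by
    funext i
    exact hσσ _
  right_inv w := by
    funext i
    exact hσσ _

theorem cjL_apply (hσσ : ∀ x, σ (σ x) = x) (w : Fin m → E) :
    cjL hσσ m w = fun i => σ (w i) := rfl

theorem cjL_cjL (hσσ : ∀ x, σ (σ x) = x) (w : Fin m → E) : cjL hσσ m (cjL hσσ m w) = w := by
  funext i
  exact hσσ _

theorem cj_mulVec (hσσ : ∀ x, σ (σ x) = x) (A : Matrix (Fin m) (Fin m) E) (w : Fin m → E) :
    (A.map σ).mulVec w = cjL hσσ m (A.mulVec (cjL hσσ m w)) := by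
  funext i
  rw [cjL_apply, cjL_apply]
  simp only [Matrix.mulVec, dotProduct, Matrix.map_apply, map_sum, map_mul, hσσ]

theorem sk_Dg (t : Fin m → Eˣ) (x y : Fin m → E) :
    sk σ (Dg t) x y = ∑ i, x i * (t i : E) * σ (y i) := by
  unfold sk Dg
  refine Finset.sum_congr rfl fun i _ => ?_
  rw [Finset.sum_eq_single i]
  · rw [Matrix.diagonal_apply_eq]
  · intro j _ hj
    rw [Matrix.diagonal_apply_ne _ (Ne.symm hj), mul_zero, zero_mul]
  · intro h
    exact absurd (Finset.mem_univ i) h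

theorem sympl_cj (hq : QuadDatum σ δ d) {t : Fin m → Eˣ} (ht : SkT σ t) (w w' : Fin m → E) :
    sympl F σ (Dg t) (cjL (sig_sig hq) m w) (cjL (sig_sig hq) m w') = -sympl F σ (Dg t) w w' := by
  rw [sympl_eq, sympl_eq, ← map_neg, ← trace_sig hq (sk σ (Dg t) _ _)]
  congr 1
  rw [sk_Dg, sk_Dg, map_sum, ← Finset.sum_neg_distrib]
  refine Finset.sum_congr rfl fun i _ => ?_
  rw [cjL_apply, cjL_apply]
  simp only [map_mul, sig_sig hq, ht i]
  ring

/-- The symplectic basis. -/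
def eB (m : ℕ) (E : Type) [Field E] (i : Fin m) : Fin m → E := Pi.single i 1

/-- The symplectic basis. -/
noncomputable def fB (t : Fin m → Eˣ) (i : Fin m) : Fin m → E := Pi.single i (-(2 * (t i : E))⁻¹)

theorem sympl_single (t : Fin m → Eˣ) (i j : Fin m) (a b : E) :
    sympl F σ (Dg t) (Pi.single i a) (Pi.single j b) =
      if i = j then Algebra.trace F E (a * (t i : E) * σ b) else 0 := by
  rw [sympl_eq, sk_Dg]
  split_ifs with h
  · subst h
    congr 1
    rw [Finset.sum_eq_single i]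
    · rw [Pi.single_eq_same, Pi.single_eq_same]
    · intro k _ hk
      rw [Pi.single_eq_of_ne hk, zero_mul, zero_mul]
    · intro h
      exact absurd (Finset.mem_univ i) h
  · rw [Finset.sum_eq_zero, map_zero]
    intro k _
    by_cases hk : k = i
    · subst hk
      rw [Pi.single_eq_of_ne h (M := fun _ => E) (x := b), map_zero, mul_zero]
    · rw [Pi.single_eq_of_ne hk, zero_mul, zero_mul]

theorem cj_eB (hq : QuadDatum σ δ d) (i : Fin m) : cjL (sig_sig hq) m (eB m E i) = eB m E i := by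
  funext j
  show σ (Pi.single (M := fun _ : Fin m => E) i (1 : E) j) = Pi.single (M := fun _ : Fin m => E) i (1 : E) j
  by_cases h : j = i
  · subst h
    rw [Pi.single_eq_same, map_one]
  · rw [Pi.single_eq_of_ne h, map_zero]

theorem sig_two_inv {t : Fin m → Eˣ} (ht : SkT σ t) (i : Fin m) :
    σ (-(2 * (t i : E))⁻¹) = (2 * (t i : E))⁻¹ := by
  rw [map_neg, map_inv₀, map_mul, ht i, map_ofNat, mul_neg, inv_neg, neg_neg]

theorem cj_fB (hq : QuadDatum σ δ d) {t : Fin m → Eˣ} (ht : SkT σ t) (i : Fin m) :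
    cjL (sig_sig hq) m (fB t i) = -fB t i := by
  funext j
  show σ (Pi.single (M := fun _ : Fin m => E) i (-(2 * (t i : E))⁻¹) j) =
    -(Pi.single (M := fun _ : Fin m => E) i (-(2 * (t i : E))⁻¹) j)
  by_cases h : j = i
  · subst h
    rw [Pi.single_eq_same, sig_two_inv ht, neg_neg]
  · rw [Pi.single_eq_of_ne h, map_zero, neg_zero]

theorem trace_skew (hq : QuadDatum σ δ d) {z : E} (hz : σ z = -z) : Algebra.trace F E z = 0 := by
  apply (algebraMap F E).injective
  rw [hq.trace_eq, hz, add_neg_cancel, map_zero]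

theorem sympl_single_right (t : Fin m → Eˣ) (w : Fin m → E) (j : Fin m) (b : E) :
    sympl F σ (Dg t) w (Pi.single j b) = Algebra.trace F E (w j * (t j : E) * σ b) := by
  rw [sympl_eq, sk_Dg, Finset.sum_eq_single j]
  · rw [Pi.single_eq_same]
  · intro k _ hk
    rw [Pi.single_eq_of_ne hk, map_zero, mul_zero]
  · intro h
    exact absurd (Finset.mem_univ j) h

end lin

section lin2

variable {F E : Type} [NontriviallyNormedField F] [NontriviallyNormedField E] [NormedAlgebra F E]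
  {σ : E ≃ₐ[F] E} {δ : E} {d : F} {m : ℕ}

theorem isSB_Dg (hq : QuadDatum σ δ d) {t : Fin m → Eˣ} (ht : SkT σ t) :
    IsSB (symplB F σ (Dg t)) ⊥ ⊥ (eB m E) (fB t) ∅ ∅ where
  sub := le_rfl
  ee i j := by
    rw [symplB_apply]
    unfold eB
    rw [sympl_single]
    split_ifs
    · apply trace_skew hq
      simp only [map_mul, map_one, ht i]
      ring
    · rfl
  ff i j := by
    rw [symplB_apply]
    unfold fB
    rw [sympl_single]
    split_ifs with h
    · subst h
      apply trace_skew hq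
      rw [sig_two_inv ht, map_mul, map_mul, sig_two_inv ht, ht i, map_inv₀, map_mul, ht i,
        map_ofNat]
      have hneg : (2 * -(t i : E))⁻¹ = -(2 * (t i : E))⁻¹ := by rw [mul_neg, inv_neg]
      rw [hneg]
      ring
    · rfl
  ef i j := by
    rw [symplB_apply]
    unfold eB fB
    rw [sympl_single]
    split_ifs with h
    · subst h
      apply (algebraMap F E).injective
      have h2 := hq.two_E
      have h3 : (1 : E) * (t i : E) * σ (-(2 * (t i : E))⁻¹) = 2⁻¹ := by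
        rw [sig_two_inv ht]
        have := (t i).ne_zero
        field_simp
      rw [h3, hq.trace_eq, map_inv₀, map_ofNat, map_one]
      field_simp
      norm_num
    · rfl
  expand w := by
    have h2 := hq.two_E
    funext j
    have e1 : (∑ i, symplB F σ (Dg t) w (fB t i) • eB m E i) j =
        algebraMap F E (symplB F σ (Dg t) w (fB t j)) := by
      rw [Finset.sum_apply, Finset.sum_eq_single j]
      · rw [Pi.smul_apply, Algebra.smul_def]
        unfold eB
        rw [Pi.single_eq_same, mul_one]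
      · intro k _ hk
        rw [Pi.smul_apply]
        unfold eB
        rw [Pi.single_eq_of_ne (Ne.symm hk), smul_zero]
      · intro h
        exact absurd (Finset.mem_univ j) h
    have e2 : (∑ i, symplB F σ (Dg t) w (eB m E i) • fB t i) j =
        algebraMap F E (symplB F σ (Dg t) w (eB m E j)) * (-(2 * (t j : E))⁻¹) := by
      rw [Finset.sum_apply, Finset.sum_eq_single j]
      · rw [Pi.smul_apply, Algebra.smul_def]
        unfold fB
        rw [Pi.single_eq_same]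
      · intro k _ hk
        rw [Pi.smul_apply]
        unfold fB
        rw [Pi.single_eq_of_ne (Ne.symm hk), smul_zero]
      · intro h
        exact absurd (Finset.mem_univ j) h
    rw [Pi.sub_apply, e1, e2, symplB_apply, symplB_apply]
    unfold eB fB
    rw [sympl_single_right, sympl_single_right, hq.trace_eq, hq.trace_eq, sig_two_inv ht]
    simp only [map_mul, map_one, mul_one, map_inv₀, map_ofNat, ht j]
    have := (t j).ne_zero
    have hneg : (2 * -(t j : E))⁻¹ = -(2 * (t j : E))⁻¹ := by rw [mul_neg (2 : E), inv_neg]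
    rw [hneg]
    field_simp
    ring
  Y₁ := by rw [Set.image_empty, Submodule.span_empty]
  Y := by rw [Set.image_empty, Submodule.span_empty]

end lin2

section meas

variable {F E : Type} [NontriviallyNormedField F] [IsUltrametricDist F] [ProperSpace F]
  [NontriviallyNormedField E] [NormedAlgebra F E] [IsUltrametricDist E] [ProperSpace E]
  [MeasurableSpace E] [BorelSpace E] {σ : E ≃ₐ[F] E} {δ : E} {d : F} {m : ℕ}

theorem md_one_of_sq {x : F} (hx : x * x = 1) : md x = 1 := by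
  have h1 : md x * md x = 1 := by rw [← md_mul, hx, md_one]
  have h2 : (md x) ^ 2 = 1 := by rw [pow_two]; exact h1
  exact sq_eq_one.mp h2

/-- Conjugation preserves the Haar measure. -/
theorem integral_cj (hq : QuadDatum σ δ d) (f : (Fin m → E) → ℂ) :
    ∫ w, f (cjL (sig_sig hq) m w) ∂(Measure.addHaar) = ∫ w, f w ∂(Measure.addHaar) := by
  have hfd := hq.finite
  have hcc : cjL (sig_sig hq) m * cjL (sig_sig hq) m = 1 := by
    ext w i
    exact congrFun (cjL_cjL (sig_sig hq) _) i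
  have h1 : LinearMap.det ((cjL (sig_sig hq) m : (Fin m → E) ≃ₗ[F] (Fin m → E)) :
      (Fin m → E) →ₗ[F] (Fin m → E)) * LinearMap.det
        ((cjL (sig_sig hq) m : (Fin m → E) ≃ₗ[F] (Fin m → E)) :
          (Fin m → E) →ₗ[F] (Fin m → E)) = 1 := by
    rw [← map_mul]
    have h2 : ((cjL (sig_sig hq) m : (Fin m → E) ≃ₗ[F] (Fin m → E)) :
        (Fin m → E) →ₗ[F] (Fin m → E)) * ((cjL (sig_sig hq) m : (Fin m → E) ≃ₗ[F] (Fin m → E)) :
          (Fin m → E) →ₗ[F] (Fin m → E)) = 1 := by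
      apply LinearMap.ext
      intro w
      exact cjL_cjL (sig_sig hq) w
    rw [h2, map_one]
  rw [integral_linearEquiv, md_one_of_sq h1]
  simp

theorem norm_cj (hq : QuadDatum σ δ d) (w : Fin m → E) : ‖cjL (sig_sig hq) m w‖ = ‖w‖ := by
  have h : ∀ w : Fin m → E, ‖cjL (sig_sig hq) m w‖ ≤ ‖w‖ := by
    intro w
    refine (pi_norm_le_iff_of_nonneg (norm_nonneg w)).2 fun i => ?_
    rw [cjL_apply, sg_norm hq]
    exact norm_le_pi_norm w i
  refine le_antisymm (h w) ?_
  have := h (cjL (sig_sig hq) m w)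
  rwa [cjL_cjL] at this

theorem continuous_cj (hq : QuadDatum σ δ d) : Continuous (cjL (sig_sig hq) m) := by
  refine continuous_pi fun i => ?_
  exact (sig_continuous hq).comp (continuous_apply i)

end meas

section form

variable {F E : Type} [NontriviallyNormedField F] [IsUltrametricDist F] [ProperSpace F]
  [NontriviallyNormedField E] [NormedAlgebra F E] [IsUltrametricDist E] [ProperSpace E]
  [MeasurableSpace E] [BorelSpace E] {σ : E ≃ₐ[F] E} {δ : E} {d : F} {m : ℕ}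
  {t : Fin m → Eˣ} {ψ : AddChar F Circle} {μ : Eˣ →* ℂˣ} {S : Type} [AddCommGroup S] [Module ℂ S]
  {ρ : (Fin m → E) → Module.End ℂ S} {ω : unitary σ (Dg t) →* Module.End ℂ S}

/-- The integrand of `β`. -/
noncomputable def bG (hσσ : ∀ x, σ (σ x) = x) (ρ : (Fin m → E) → Module.End ℂ S)
    (ξ : S →ₗ[ℂ] ℂ) (x y : S) (w : Fin m → E) : ℂ :=
  ξ (ρ w x) * ξ (ρ (-(cjL hσσ m w)) y)

theorem bG_cont (hW : IsWeil σ (Dg t) ψ μ ρ ω) (hq : QuadDatum σ δ d) (hψ : Continuous ψ)
    (ξ : S →ₗ[ℂ] ℂ) (x y : S) : Continuous (bG (sig_sig hq) ρ ξ x y) :=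
  (cf_cont hW hq hψ ξ x).mul ((cf_cont hW hq hψ ξ y).comp (continuous_cj hq).neg)

theorem bG_supp (hW : IsWeil σ (Dg t) ψ μ ρ ω) (hq : QuadDatum σ δ d) (hH : IsSkew σ (Dg t))
    (hψ1 : ψ ≠ 1) (ξ : hDual ρ) (x y : S) :
    HasCompactSupport (bG (sig_sig hq) ρ ξ.1 x y) :=
  (cf_compact hW hq hH hψ1 ξ x).mul_right

theorem bG_int (hW : IsWeil σ (Dg t) ψ μ ρ ω) (hq : QuadDatum σ δ d) (hH : IsSkew σ (Dg t))
    (hψ : Continuous ψ) (hψ1 : ψ ≠ 1) (ξ : hDual ρ) (x y : S) :
    Integrable (bG (sig_sig hq) ρ ξ.1 x y) Measure.addHaar :=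
  (bG_cont hW hq hψ ξ.1 x y).integrable_of_hasCompactSupport (bG_supp hW hq hH hψ1 ξ x y)

/-- The form `β`. -/
noncomputable def bF (hW : IsWeil σ (Dg t) ψ μ ρ ω) (hq : QuadDatum σ δ d)
    (hH : IsSkew σ (Dg t)) (hψ : Continuous ψ) (hψ1 : ψ ≠ 1) (ξ : hDual ρ) :
    S →ₗ[ℂ] S →ₗ[ℂ] ℂ :=
  LinearMap.mk₂ ℂ (fun x y => ∫ w, bG (sig_sig hq) ρ ξ.1 x y w ∂(Measure.addHaar))
    (fun x x' y => by
      rw [← integral_add (bG_int hW hq hH hψ hψ1 ξ x y) (bG_int hW hq hH hψ hψ1 ξ x' y)]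
      refine integral_congr_ae (Eventually.of_forall fun w => ?_)
      show bG _ _ _ _ _ _ = _
      unfold bG
      rw [map_add, map_add, add_mul])
    (fun c x y => by
      rw [smul_eq_mul, ← integral_const_mul]
      refine integral_congr_ae (Eventually.of_forall fun w => ?_)
      show bG _ _ _ _ _ _ = _
      unfold bG
      rw [map_smul, map_smul, smul_eq_mul, mul_assoc])
    (fun x y y' => by
      rw [← integral_add (bG_int hW hq hH hψ hψ1 ξ x y) (bG_int hW hq hH hψ hψ1 ξ x y')]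
      refine integral_congr_ae (Eventually.of_forall fun w => ?_)
      show bG _ _ _ _ _ _ = _
      unfold bG
      rw [map_add, map_add, mul_add])
    (fun c x y => by
      rw [smul_eq_mul, ← integral_const_mul]
      refine integral_congr_ae (Eventually.of_forall fun w => ?_)
      show bG _ _ _ _ _ _ = _
      unfold bG
      rw [map_smul, map_smul, smul_eq_mul]
      ring)

theorem bF_apply (hW : IsWeil σ (Dg t) ψ μ ρ ω) (hq : QuadDatum σ δ d)
    (hH : IsSkew σ (Dg t)) (hψ : Continuous ψ) (hψ1 : ψ ≠ 1) (ξ : hDual ρ) (x y : S) :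
    bF hW hq hH hψ hψ1 ξ x y = ∫ w, bG (sig_sig hq) ρ ξ.1 x y w ∂(Measure.addHaar) := rfl

theorem bF_symm (hW : IsWeil σ (Dg t) ψ μ ρ ω) (hq : QuadDatum σ δ d)
    (hH : IsSkew σ (Dg t)) (hψ : Continuous ψ) (hψ1 : ψ ≠ 1) (ξ : hDual ρ) (x y : S) :
    bF hW hq hH hψ hψ1 ξ x y = bF hW hq hH hψ hψ1 ξ y x := by
  rw [bF_apply, bF_apply, ← integral_cj hq, ← integral_neg_eq_self]
  refine integral_congr_ae (Eventually.of_forall fun w => ?_)
  show bG _ _ _ _ _ _ = bG _ _ _ _ _ _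
  unfold bG
  rw [map_neg, map_neg, cjL_cjL, neg_neg, mul_comm]

theorem bF_rho (hW : IsWeil σ (Dg t) ψ μ ρ ω) (hq : QuadDatum σ δ d) (ht : SkT σ t)
    (hH : IsSkew σ (Dg t)) (hψ : Continuous ψ) (hψ1 : ψ ≠ 1) (ξ : hDual ρ) (w' : Fin m → E)
    (x y : S) :
    bF hW hq hH hψ hψ1 ξ (ρ w' x) y = bF hW hq hH hψ hψ1 ξ x (ρ (cjL (sig_sig hq) m w') y) := by
  rw [bF_apply, bF_apply,
    ← integral_add_right_eq_self (bG (sig_sig hq) ρ ξ.1 x (ρ (cjL (sig_sig hq) m w') y)) w']
  refine integral_congr_ae (Eventually.of_forall fun w => ?_)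
  show bG _ _ _ _ _ _ = bG _ _ _ _ _ _
  unfold bG
  rw [rr hW w w' x, rr hW _ (cjL (sig_sig hq) m w') y, map_smul, map_smul, smul_eq_mul,
    smul_eq_mul]
  have e1 : -(cjL (sig_sig hq) m (w + w')) + cjL (sig_sig hq) m w' = -(cjL (sig_sig hq) m w) := by
    rw [map_add]
    abel
  have e2 : sympl F σ (Dg t) (-(cjL (sig_sig hq) m (w + w'))) (cjL (sig_sig hq) m w') =
      sympl F σ (Dg t) w w' := by
    rw [← map_neg, sympl_cj hq ht, sympl_eq, sk_neg_left, sk_add_left, map_neg, neg_neg, map_add,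
      ← sympl_eq, ← sympl_eq, sympl_self hq hH, add_zero]
  rw [e1, e2]
  ring

/-- On the self-dual lattice `bG v v` is `ξ(v)²`, elsewhere it is `0`. -/
theorem bG_val (hW : IsWeil σ (Dg t) ψ μ ρ ω) (hq : QuadDatum σ δ d) (ht : SkT σ t)
    (hH : IsSkew σ (Dg t)) {c : F} (hc : IsCond ψ c) {v : S}
    (hf : IsFix ρ (eB m E) (fB t) c (1 : F) v) {ξ : S →ₗ[ℂ] ℂ}
    (hξ : ∀ l ∈ latt (eB m E) (fB t) c (1 : F), ∀ x, ξ (ρ l x) = ξ x) (w : Fin m → E) :
    bG (sig_sig hq) ρ ξ v v w = 0 ∨ bG (sig_sig hq) ρ ξ v v w = ξ v * ξ v := by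
  have hB := symplB_alt hq hH
  have sb := isSB_Dg hq ht
  have hv' : ∀ l ∈ latt (eB m E) (fB t) c (1 : F), ρ l v = v := by
    rintro l (⟨a, ha, rfl⟩ | ⟨b, hb, rfl⟩)
    · exact hf.1 a ha
    · exact hf.2 b hb
  by_cases hw : ∀ l ∈ latt (eB m E) (fB t) c (1 : F), ψ (symplB F σ (Dg t) l w) = 1
  · right
    obtain ⟨a, b, ha, hb, rfl⟩ := sb.self_dual hc hB one_ne_zero
      (fun a ha => hw _ (Or.inl ⟨a, ha, rfl⟩)) fun b hb => hw _ (Or.inr ⟨b, hb, rfl⟩)
    have hce : cjL (sig_sig hq) m (lc (eB m E) a) = lc (eB m E) a := by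
      unfold lc
      rw [map_sum]
      refine Finset.sum_congr rfl fun i _ => ?_
      rw [map_smul, cj_eB hq]
    have hcf : cjL (sig_sig hq) m (lc (fB t) b) = -lc (fB t) b := by
      unfold lc
      rw [map_sum, ← Finset.sum_neg_distrib]
      refine Finset.sum_congr rfl fun i _ => ?_
      rw [map_smul, cj_fB hq ht, smul_neg]
    have e1 : -(cjL (sig_sig hq) m (lc (eB m E) a + lc (fB t) b)) =
        lc (eB m E) (-a) + lc (fB t) b := by
      rw [map_add, hce, hcf, lc_neg]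
      abel
    have ha' : ‖-a‖ ≤ ‖(1 : F)‖ := by rwa [norm_neg]
    unfold bG
    rw [e1, rho_add hW.isHeis, rho_add hW.isHeis, hf.2 b hb, hf.1 a ha, hf.1 (-a) ha', map_smul,
      map_smul, smul_eq_mul, smul_eq_mul]
    have e2 : symplB F σ (Dg t) (lc (eB m E) (-a)) (lc (fB t) b) =
        -symplB F σ (Dg t) (lc (eB m E) a) (lc (fB t) b) := by
      rw [lc_neg, map_neg, LinearMap.neg_apply]
    rw [e2]
    have e3 : ((ψ (-(symplB F σ (Dg t) (lc (eB m E) a) (lc (fB t) b) / 2)) : Circle) : ℂ) *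
        ((ψ (-(-symplB F σ (Dg t) (lc (eB m E) a) (lc (fB t) b) / 2)) : Circle) : ℂ) = 1 := by
      rw [← Circle.coe_mul, ← AddChar.map_add_eq_mul]
      have : -(symplB F σ (Dg t) (lc (eB m E) a) (lc (fB t) b) / 2) +
          -(-symplB F σ (Dg t) (lc (eB m E) a) (lc (fB t) b) / 2) = 0 := by ring
      rw [this, AddChar.map_zero_eq_one, Circle.coe_one]
    linear_combination (ξ v * ξ v) * e3
  · left
    push Not at hw
    obtain ⟨l, hl, hne⟩ := hw
    have h3 := hξ l hl (ρ w v)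
    rw [rho_comm hW.isHeis hB hq.two, hv' l hl, map_smul, smul_eq_mul] at h3
    have h5 : ξ (ρ w v) = 0 := by
      by_contra h4
      rw [mul_eq_right₀ h4] at h3
      apply hne
      rwa [← Circle.coe_one, Circle.coe_inj] at h3
    unfold bG
    rw [h5, zero_mul]

theorem bF_ne (hW : IsWeil σ (Dg t) ψ μ ρ ω) (hq : QuadDatum σ δ d) (ht : SkT σ t)
    (hH : IsSkew σ (Dg t)) (hψ : Continuous ψ) (hψ1 : ψ ≠ 1) {c : F} (hc : IsCond ψ c) {v : S}
    (hf : IsFix ρ (eB m E) (fB t) c (1 : F) v) (ξ : hDual ρ)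
    (hξ : ∀ l ∈ latt (eB m E) (fB t) c (1 : F), ∀ x, ξ.1 (ρ l x) = ξ.1 x) (h0 : ξ.1 v ≠ 0) :
    bF hW hq hH hψ hψ1 ξ v v ≠ 0 := by
  set g : (Fin m → E) → ℝ := fun w => (bG (sig_sig hq) ρ ξ.1 v v w / (ξ.1 v * ξ.1 v)).re with hg
  have hz : ξ.1 v * ξ.1 v ≠ 0 := mul_ne_zero h0 h0
  have hval : ∀ w, bG (sig_sig hq) ρ ξ.1 v v w = (ξ.1 v * ξ.1 v) * ((g w : ℝ) : ℂ) := by
    intro w
    rw [hg]
    rcases bG_val hW hq ht hH hc hf hξ w with h | h
    · simp [h]
    · simp [h, div_self hz]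
  have hgc : Continuous g :=
    Complex.continuous_re.comp ((bG_cont hW hq hψ ξ.1 v v).div_const _)
  have hgs : HasCompactSupport g :=
    (bG_supp hW hq hH hψ1 ξ v v).comp_left
      (g := fun z : ℂ => (z / (ξ.1 v * ξ.1 v)).re) (by simp)
  have hg0 : 0 ≤ g := by
    intro w
    rcases bG_val hW hq ht hH hc hf hξ w with h | h
    · simp [hg, h]
    · simp [hg, h, div_self hz]
  have hg1 : g 0 ≠ 0 := by
    have : bG (sig_sig hq) ρ ξ.1 v v 0 = ξ.1 v * ξ.1 v := by
      unfold bG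
      rw [map_zero, neg_zero, rzero hW]
    simp [hg, this, div_self hz]
  have hpos := hgc.integral_pos_of_hasCompactSupport_nonneg_nonzero (μ := Measure.addHaar)
    hgs hg0 hg1
  rw [bF_apply]
  have e1 : ∫ w, bG (sig_sig hq) ρ ξ.1 v v w ∂(Measure.addHaar) =
      (ξ.1 v * ξ.1 v) * ((∫ w, g w ∂(Measure.addHaar) : ℝ) : ℂ) := by
    rw [← integral_complex_ofReal, ← integral_const_mul]
    exact integral_congr_ae (Eventually.of_forall fun w => hval w)
  rw [e1]
  exact mul_ne_zero hz (Complex.ofReal_ne_zero.2 hpos.ne')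

theorem thU_umat (hq : QuadDatum σ δ d) (ht : SkT σ t) (u : unitary σ (Dg t)) :
    umat (thU (sig_sig hq) ht u) = (umat u⁻¹).map σ := by
  -- `θ(u) σ(u) = 1`
  have hD : (((dgl t)⁻¹ : GL (Fin m) E) : Matrix (Fin m) (Fin m) E) * Dg t = 1 := by
    rw [← dgl_Dg, Units.inv_mul]
  have h1 : umat (thU (sig_sig hq) ht u) =
      (((dgl t)⁻¹ : GL (Fin m) E) : Matrix (Fin m) (Fin m) E) * (umat u).transpose * Dg t := rfl
  have h2 : umat (thU (sig_sig hq) ht u) * (umat u).map σ = 1 := by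
    rw [h1, Matrix.mul_assoc, Matrix.mul_assoc, ← Matrix.mul_assoc _ (Dg t),
      unitary_gram.1 u.2, hD]
  have h3 : (umat u).map σ * (umat u⁻¹).map σ = 1 := by
    rw [← Matrix.map_mul, umat_mul_inv, Matrix.map_one σ (map_zero σ) (map_one σ)]
  calc umat (thU (sig_sig hq) ht u) =
        umat (thU (sig_sig hq) ht u) * ((umat u).map σ * (umat u⁻¹).map σ) := by
          rw [h3, Matrix.mul_one]
    _ = (umat u⁻¹).map σ := by rw [← Matrix.mul_assoc, h2, Matrix.one_mul]

theorem map_sub_one (A : Matrix (Fin m) (Fin m) E) : (A.map σ - 1) = (A - 1).map σ := by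
  ext i j
  simp only [Matrix.sub_apply, Matrix.map_apply, map_sub]
  by_cases h : i = j
  · subst h
    rw [Matrix.one_apply_eq, map_one]
  · rw [Matrix.one_apply_ne h, map_zero]

theorem map_add_one (A : Matrix (Fin m) (Fin m) E) : (A.map σ + 1) = (A + 1).map σ := by
  ext i j
  simp only [Matrix.add_apply, Matrix.map_apply, map_add]
  by_cases h : i = j
  · subst h
    rw [Matrix.one_apply_eq, map_one]
  · rw [Matrix.one_apply_ne h, map_zero]

theorem det_map (A : Matrix (Fin m) (Fin m) E) : (A.map σ).det = σ A.det := by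
  have := RingHom.map_det (σ : E →+* E) A
  rw [RingHom.coe_coe] at this
  rw [this]
  rfl

theorem det_thU (hq : QuadDatum σ δ d) (ht : SkT σ t) (hH : IsSkew σ (Dg t))
    (u : unitary σ (Dg t)) :
    (umat (thU (sig_sig hq) ht u) - 1).det = (umat u - 1).det := by
  rw [thU_umat hq ht, map_sub_one, det_map, det_inv_sub_one hH, sig_sig hq]

theorem cayley_thU (hq : QuadDatum σ δ d) (ht : SkT σ t) (hH : IsSkew σ (Dg t))
    (u : unitary σ (Dg t)) (hu : IsUnit (umat u - 1)) :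
    cayley (umat (thU (sig_sig hq) ht u)) = -(cayley (umat u)).map σ := by
  have hu' : IsUnit (umat u⁻¹ - 1) := by
    rw [Matrix.isUnit_iff_isUnit_det, det_inv_sub_one hH]
    exact ((Matrix.isUnit_iff_isUnit_det _).1 hu).map σ
  have hdu := (Matrix.isUnit_iff_isUnit_det _).1 hu'
  have e1 : cayley (umat (thU (sig_sig hq) ht u)) = (cayley (umat u⁻¹)).map σ := by
    unfold cayley
    rw [thU_umat hq ht, map_sub_one, map_add_one, Matrix.map_mul]
    congr 1
    apply Matrix.inv_eq_right_inv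
    rw [← Matrix.map_mul, Matrix.mul_nonsing_inv _ hdu,
      Matrix.map_one σ (map_zero σ) (map_one σ)]
  rw [e1, cayley_inv hu hu']
  ext i j
  simp

/-- The rule for `ω`, at regular elements. -/
theorem bF_om_reg (hW : IsWeil σ (Dg t) ψ μ ρ ω) (hq : QuadDatum σ δ d) (ht : SkT σ t)
    (hH : IsSkew σ (Dg t)) (β : S →ₗ[ℂ] S →ₗ[ℂ] ℂ)
    (hβ : ∀ w a b, β (ρ w a) b = β a (ρ (cjL (sig_sig hq) m w) b))
    (u : unitary σ (Dg t)) (hu : (umat u - 1).det ≠ 0) (a b : S) :
    β (ω u a) b = β a (ω (thU (sig_sig hq) ht u) b) := by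
  obtain ⟨κ, hκ⟩ := hW.normalised
  have hu' : IsUnit (umat u - 1) :=
    (Matrix.isUnit_iff_isUnit_det _).2 (isUnit_iff_ne_zero.2 hu)
  have hA := hκ u (Units.mk0 _ hu) rfl a (β.flip b)
  have hB := hκ (thU (sig_sig hq) ht u) (Units.mk0 _ hu)
    (by rw [Units.val_mk0, det_thU hq ht hH]) b (β a)
  obtain ⟨r, hA, hB⟩ := (hA.and hB).exists
  rw [LinearMap.flip_apply] at hA
  rw [hA, hB]
  congr 1
  rw [← integral_indicator isClosed_closedBall.measurableSet,
    ← integral_indicator isClosed_closedBall.measurableSet, ← integral_cj hq]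
  refine integral_congr_ae (Eventually.of_forall fun w => ?_)
  show indicator _ _ _ = indicator _ _ _
  by_cases hw : w ∈ closedBall (0 : Fin m → E) r
  · have hw' : cjL (sig_sig hq) m w ∈ closedBall (0 : Fin m → E) r := by
      rw [mem_closedBall_zero_iff, norm_cj hq]
      rwa [mem_closedBall_zero_iff] at hw
    rw [indicator_of_mem hw, indicator_of_mem hw', LinearMap.flip_apply, hβ, cjL_cjL,
      cayley_thU hq ht hH u hu']
    congr 4
    rw [Matrix.neg_mulVec, cj_mulVec (sig_sig hq), sympl_eq (F := F) (-_) w, sk_neg_left, map_neg,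
      ← sympl_eq]
    have e1 := sympl_cj hq ht ((cayley (umat u)).mulVec (cjL (sig_sig hq) m w))
      (cjL (sig_sig hq) m w)
    rw [cjL_cjL] at e1
    rw [e1, neg_neg]
  · have hw' : cjL (sig_sig hq) m w ∉ closedBall (0 : Fin m → E) r := by
      rw [mem_closedBall_zero_iff, norm_cj hq]
      rwa [mem_closedBall_zero_iff] at hw
    rw [indicator_of_notMem hw, indicator_of_notMem hw']

theorem thU_mul (hq : QuadDatum σ δ d) (ht : SkT σ t) (u v : unitary σ (Dg t)) :
    thU (sig_sig hq) ht (u * v) = thU (sig_sig hq) ht v * thU (sig_sig hq) ht u := by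
  apply Subtype.ext
  exact th_mul t u.1 v.1

theorem thU_inv (hq : QuadDatum σ δ d) (ht : SkT σ t) (u : unitary σ (Dg t)) :
    thU (sig_sig hq) ht u⁻¹ = (thU (sig_sig hq) ht u)⁻¹ := by
  apply Subtype.ext
  exact th_inv t u.1

/-- The rule for `ω`. -/
theorem bF_om (hW : IsWeil σ (Dg t) ψ μ ρ ω) (hq : QuadDatum σ δ d) (ht : SkT σ t)
    (hH : IsSkew σ (Dg t)) (β : S →ₗ[ℂ] S →ₗ[ℂ] ℂ)
    (hβ : ∀ w a b, β (ρ w a) b = β a (ρ (cjL (sig_sig hq) m w) b))
    (u : unitary σ (Dg t)) (a b : S) :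
    β (ω u a) b = β a (ω (thU (sig_sig hq) ht u) b) := by
  have hinf : Infinite F := NontriviallyNormedField.infinite F
  obtain ⟨h, hh, hgh⟩ := exists_regular hq {u}
  have hgh' := hgh u (Finset.mem_singleton_self u)
  have k1 : ∀ a b, β (ω h⁻¹ a) b = β a (ω (thU (sig_sig hq) ht h⁻¹) b) := by
    intro a b
    have e1 := bF_om_reg hW hq ht hH β hβ h hh (ω h⁻¹ a) (ω (thU (sig_sig hq) ht h⁻¹) b)
    have e2 : ω h (ω h⁻¹ a) = a := by
      rw [← Module.End.mul_apply, ← map_mul, mul_inv_cancel, map_one, Module.End.one_apply]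
    have e3 : ω (thU (sig_sig hq) ht h) (ω (thU (sig_sig hq) ht h⁻¹) b) = b := by
      rw [thU_inv hq ht, ← Module.End.mul_apply, ← map_mul, mul_inv_cancel, map_one,
        Module.End.one_apply]
    rw [e2, e3] at e1
    exact e1.symm
  have e1 : u = (u * h) * h⁻¹ := by group
  calc β (ω u a) b = β (ω (u * h) (ω h⁻¹ a)) b := by
        rw [← Module.End.mul_apply, ← map_mul, ← e1]
    _ = β a (ω (thU (sig_sig hq) ht h⁻¹) (ω (thU (sig_sig hq) ht (u * h)) b)) := by
        rw [bF_om_reg hW hq ht hH β hβ (u * h) hgh', k1]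
    _ = β a (ω (thU (sig_sig hq) ht u) b) := by
        rw [← Module.End.mul_apply, ← map_mul, ← thU_mul hq ht, ← e1]

/-- **G5a.** The invariant form on the Weil representation. -/
theorem exists_isBeta (hq : QuadDatum σ δ d) (hψ : Continuous ψ) (hψ1 : ψ ≠ 1)
    (ht : SkT σ t) (hW : IsWeil σ (Dg t) ψ μ ρ ω) :
    ∃ β : S →ₗ[ℂ] S →ₗ[ℂ] ℂ, IsBeta σ t ρ ω β := by
  have hH := ht.isSkew
  obtain ⟨c, hc⟩ := exists_cond hψ hψ1
  obtain ⟨v, hv, hf⟩ := Pool.Agent.SpehH.exists_fix hψ hc (symplB_alt hq hH) hq.two hW.isHeis hW.isIrr.1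
    (isSB_Dg hq ht) (one_ne_zero (α := F))
  obtain ⟨ξ₀, h0, hξ⟩ := exists_fun (symplB_alt hq hH) hq.two hW.isHeis hW.isIrr hv hf
  set ξ : hDual ρ := ⟨ξ₀, mem_hDual_of_fix hW hq hc (isSB_Dg hq ht) hξ⟩ with hξd
  have hne := bF_ne hW hq ht hH hψ hψ1 hc hf ξ hξ h0
  refine ⟨bF hW hq hH hψ hψ1 ξ, ?_, bF_symm hW hq hH hψ hψ1 ξ, ?_, ?_⟩
  · intro a ha
    by_contra hna
    let V : Submodule ℂ S := LinearMap.ker (bF hW hq hH hψ hψ1 ξ)
    have hV : ∀ w, ∀ v ∈ V, ρ w v ∈ V := by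
      intro w v hv
      rw [LinearMap.mem_ker] at hv ⊢
      apply LinearMap.ext
      intro b
      rw [bF_rho hW hq ht hH hψ hψ1 ξ, hv]
      rfl
    have haV : a ∈ V := by
      rw [LinearMap.mem_ker]
      apply LinearMap.ext
      intro b
      exact ha b
    rcases hW.rho_irr V hV with h | h
    · rw [h] at haV
      exact hna ((Submodule.mem_bot ℂ).1 haV)
    · have hvV : v ∈ V := by rw [h]; trivial
      rw [LinearMap.mem_ker] at hvV
      apply hne
      rw [hvV]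
      rfl
  · intro w a b
    exact bF_rho hW hq ht hH hψ hψ1 ξ w a b
  · intro u u' hu' a b
    have e1 : u' = thU (sig_sig hq) ht u := Subtype.ext hu'
    rw [e1]
    exact bF_om hW hq ht hH _ (bF_rho hW hq ht hH hψ hψ1 ξ) u a b

/-- `β(·, d)` is a smooth functional, so it is represented by the hermitian form. -/
theorem IsBeta.mem_hDual {β : S →ₗ[ℂ] S →ₗ[ℂ] ℂ} (hβ : IsBeta σ t ρ ω β)
    (hq : QuadDatum σ δ d) (hW : IsWeil σ (Dg t) ψ μ ρ ω) (b : S) : β.flip b ∈ hDual ρ := by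
  show ∀ᶠ w in nhds (0 : Fin m → E), ∀ v, β.flip b (ρ w v) = β.flip b v
  have h1 : Tendsto (cjL (sig_sig hq) m) (nhds 0) (nhds 0) := by
    have := (continuous_cj hq (m := m)).tendsto 0
    rwa [map_zero] at this
  filter_upwards [h1.eventually (hW.rho_smooth b)] with w hw v
  rw [LinearMap.flip_apply, LinearMap.flip_apply, hβ.rho]
  congr 1

end form

end SpW.Mo
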