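import Pool.Agent.Work.MP_3615d2_al.Mo.NuV
import Pool.Agent.Work.MP_3615d2_al.Mo.WeilForm

/-!
MP_3615d2_al, (MO), G5b: the `L²` bound for the operators `Op f = ∫ f(w) ρ(w) dw` of the Weil
representation and the bound of its matrix coefficients.

`|β(Op(f) ω(u) a, ω(u') b)| ≤ C ‖f‖₂ ν(u')^(1/2)`, `C` depends on `a`, `b` and the support of `f`.

The proof: the adjoint of `Op f` for the invariant hermitian form is `Op f*`, and
`‖Op(g) b‖² ≤ ∫∫ |g(w)| |g(x)| |⟨ρ(x-w)b, b⟩| dx dw ≤ ‖g‖₂² ∫ |⟨ρ(z)b, b⟩| dz` (Schur's test). For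
`b = ω(u)y` the coefficient `⟨ρ(z)b, b⟩` is supported in the image of a ball under `u`.
-/

open MeasureTheory Measure Filter Topology Metric Set Matrix
open scoped ComplexConjugate NNReal ENNReal

set_option linter.unusedSectionVars false

namespace SpW.Mo

section herm

variable {S : Type} [AddCommGroup S] [Module ℂ S]

/-- A positive semidefinite hermitian form, linear in the first variable. -/
structure IsHermForm (Hf : S → S → ℂ) : Prop where
  add_left : ∀ a b d, Hf (a + b) d = Hf a d + Hf b d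
  smul_left : ∀ (c : ℂ) a d, Hf (c • a) d = c * Hf a d
  symm : ∀ a b, Hf b a = conj (Hf a b)
  nonneg : ∀ a, 0 ≤ (Hf a a).re

variable {Hf : S → S → ℂ}

/-- the functional `x ↦ Hf x d` -/
def IsHermForm.lin (h : IsHermForm Hf) (d : S) : S →ₗ[ℂ] ℂ where
  toFun x := Hf x d
  map_add' a b := h.add_left a b d
  map_smul' c a := h.smul_left c a d

theorem IsHermForm.lin_apply (h : IsHermForm Hf) (d x : S) : h.lin d x = Hf x d := rfl

theorem IsHermForm.norm_symm (h : IsHermForm Hf) (a b : S) : ‖Hf b a‖ = ‖Hf a b‖ := by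
  rw [h.symm a b]
  exact RCLike.norm_conj _

/-- Cauchy-Schwarz -/
theorem IsHermForm.cs (h : IsHermForm Hf) (a b : S) :
    ‖Hf a b‖ ^ 2 ≤ (Hf a a).re * (Hf b b).re := by
  let core : PreInnerProductSpace.Core ℂ S :=
    { inner := fun x y => Hf y x
      conj_inner_symm := fun x y => (h.symm x y).symm
      re_inner_nonneg := fun x => h.nonneg x
      add_left := fun x y z => by
        change Hf z (x + y) = Hf z x + Hf z y
        rw [h.symm (x + y) z, h.add_left, map_add, ← h.symm, ← h.symm]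
      smul_left := fun x y r => by
        change Hf y (r • x) = conj r * Hf y x
        rw [h.symm (r • x) y, h.smul_left, map_mul, ← h.symm] }
  have h1 := @InnerProductSpace.Core.inner_mul_inner_self_le ℂ S _ _ _ core b a
  have h2 : ‖Hf a b‖ * ‖Hf b a‖ ≤ (Hf b b).re * (Hf a a).re := h1
  rw [h.norm_symm a b] at h2
  nlinarith

end herm

section schur

variable {X : Type} [NormedAddCommGroup X] [IsUltrametricDist X]

theorem add_mem_cball {R : ℝ} {z w : X} (hw : w ∈ closedBall (0 : X) R) :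
    z + w ∈ closedBall (0 : X) R ↔ z ∈ closedBall (0 : X) R := by
  rw [mem_closedBall_zero_iff] at hw
  simp only [mem_closedBall_zero_iff]
  constructor
  · intro h
    have h1 := IsUltrametricDist.norm_add_le_max (z + w) (-w)
    rw [add_neg_cancel_right, norm_neg] at h1
    exact h1.trans (max_le h hw)
  · intro h
    exact (IsUltrametricDist.norm_add_le_max z w).trans (max_le h hw)

theorem neg_mem_cball {R : ℝ} {z : X} :
    -z ∈ closedBall (0 : X) R ↔ z ∈ closedBall (0 : X) R := by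
  simp only [mem_closedBall_zero_iff, norm_neg]

variable [ProperSpace X] [MeasurableSpace X] [BorelSpace X] (μ : Measure X) [μ.IsAddHaarMeasure]

theorem int_cball_shift {R : ℝ} (Φ : X → ℝ) {w : X} (hw : w ∈ closedBall (0 : X) R) :
    ∫ x, (closedBall (0 : X) R).indicator (fun _ => 1) x * Φ (x - w) ∂μ =
      ∫ z in closedBall (0 : X) R, Φ z ∂μ := by
  rw [← integral_indicator isClosed_closedBall.measurableSet,
    ← integral_sub_right_eq_self (fun z => (closedBall (0 : X) R).indicator Φ z) w]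
  refine integral_congr_ae (Filter.Eventually.of_forall fun x => ?_)
  change (closedBall (0 : X) R).indicator (fun _ => (1 : ℝ)) x * Φ (x - w) =
    (closedBall (0 : X) R).indicator Φ (x - w)
  have h1 : x - w ∈ closedBall (0 : X) R ↔ x ∈ closedBall (0 : X) R := by
    rw [sub_eq_add_neg, add_mem_cball (neg_mem_cball.2 hw)]
  by_cases hx : x ∈ closedBall (0 : X) R
  · rw [indicator_of_mem hx, indicator_of_mem (h1.2 hx), one_mul]
  · rw [indicator_of_notMem hx, indicator_of_notMem (fun h => hx (h1.1 h)), zero_mul]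

/-- Schur's test on a ball which is a group. -/
theorem schur_test {R : ℝ} (hR : 0 < R) {g Φ : X → ℝ} (hg : Continuous g) (hg0 : ∀ x, 0 ≤ g x)
    (hgR : ∀ x, x ∉ closedBall (0 : X) R → g x = 0) (hΦ : Continuous Φ) (hΦ0 : ∀ x, 0 ≤ Φ x)
    (hΦs : ∀ x, Φ (-x) = Φ x) :
    ∫ w, g w * ∫ x, g x * Φ (x - w) ∂μ ∂μ ≤
      (∫ x, g x ^ 2 ∂μ) * ∫ z in closedBall (0 : X) R, Φ z ∂μ := by
  set b : X → ℝ := (closedBall (0 : X) R).indicator fun _ => 1 with hb
  set A : ℝ := ∫ z in closedBall (0 : X) R, Φ z ∂μ with hA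
  have hbo : IsClopen (closedBall (0 : X) R) := IsUltrametricDist.isClopen_closedBall _ hR.ne'
  have hbc : Continuous b := (IsLocallyConstant.const (1 : ℝ)).continuous.indicator
    (by simp [hbo.frontier_eq])
  have hb1 : ∀ x ∈ closedBall (0 : X) R, b x = 1 := fun x hx => indicator_of_mem hx _
  have hb0 : ∀ x, x ∉ closedBall (0 : X) R → b x = 0 := fun x hx => indicator_of_notMem hx _
  have hbn : ∀ x, 0 ≤ b x := fun x => indicator_nonneg (fun _ _ => zero_le_one) _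
  have hgb : ∀ x, g x = g x * b x := fun x => by
    by_cases hx : x ∈ closedBall (0 : X) R
    · rw [hb1 x hx, mul_one]
    · rw [hgR x hx, zero_mul]
  -- the kernel
  let k : X → X → ℝ := fun w x => g w ^ 2 * (b x * Φ (x - w))
  have hkc : Continuous (Function.uncurry k) := by
    refine ((hg.comp continuous_fst).pow 2).mul ((hbc.comp continuous_snd).mul ?_)
    exact hΦ.comp (continuous_snd.sub continuous_fst)
  have hks : HasCompactSupport (Function.uncurry k) := by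
    refine HasCompactSupport.intro ((isCompact_closedBall (0 : X) R).prod
      (isCompact_closedBall (0 : X) R)) ?_
    rintro ⟨w, x⟩ hwx
    change g w ^ 2 * (b x * Φ (x - w)) = 0
    by_cases hw : w ∈ closedBall (0 : X) R
    · have hx : x ∉ closedBall (0 : X) R := fun hx => hwx ⟨hw, hx⟩
      rw [hb0 x hx, zero_mul, mul_zero]
    · rw [hgR w hw, zero_pow two_ne_zero, zero_mul]
  have hki : Integrable (Function.uncurry k) (μ.prod μ) :=
    hkc.integrable_of_hasCompactSupport hks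
  have hk1 : ∀ w, ∫ x, k w x ∂μ = g w ^ 2 * A := fun w => by
    change ∫ x, g w ^ 2 * (b x * Φ (x - w)) ∂μ = _
    rw [integral_const_mul]
    by_cases hw : w ∈ closedBall (0 : X) R
    · rw [int_cball_shift μ Φ hw]
    · rw [hgR w hw, zero_pow two_ne_zero, zero_mul, zero_mul]
  have hk2 : ∫ w, ∫ x, k x w ∂μ ∂μ = (∫ x, g x ^ 2 ∂μ) * A := by
    rw [integral_integral_swap (f := fun w x => k x w) hki.swap]
    simp_rw [hk1]
    rw [integral_mul_const]
  have hk3 : ∫ w, ∫ x, k w x ∂μ ∂μ = (∫ x, g x ^ 2 ∂μ) * A := by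
    simp_rw [hk1]
    rw [integral_mul_const]
  have hi1 : Integrable (fun w => ∫ x, k w x ∂μ) μ := hki.integral_prod_left
  have hi2 : Integrable (fun w => ∫ x, k x w ∂μ) μ := hki.swap.integral_prod_left
  have hkx : ∀ w, Integrable (fun x => k w x) μ := fun w => by
    have h1 : Continuous (fun x => k w x) := hkc.comp (Continuous.prodMk_right w)
    refine h1.integrable_of_hasCompactSupport
      (HasCompactSupport.intro (isCompact_closedBall (0 : X) R) fun x hx => ?_)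
    change g w ^ 2 * (b x * Φ (x - w)) = 0
    rw [hb0 x hx, zero_mul, mul_zero]
  have hky : ∀ w, Integrable (fun x => k x w) μ := fun w => by
    have h1 : Continuous (fun x => k x w) := hkc.comp (Continuous.prodMk_left w)
    refine h1.integrable_of_hasCompactSupport
      (HasCompactSupport.intro (isCompact_closedBall (0 : X) R) fun x hx => ?_)
    change g x ^ 2 * (b w * Φ (w - x)) = 0
    rw [hgR x hx, zero_pow two_ne_zero, zero_mul]
  have hle : ∀ w, g w * ∫ x, g x * Φ (x - w) ∂μ ≤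
      (1 / 2) * (∫ x, k w x ∂μ + ∫ x, k x w ∂μ) := fun w => by
    rw [← integral_add (hkx w) (hky w), ← integral_const_mul, ← integral_const_mul]
    refine integral_mono_of_nonneg (Filter.Eventually.of_forall fun x => ?_)
      (((hkx w).add (hky w)).const_mul _) (Filter.Eventually.of_forall fun x => ?_)
    · exact mul_nonneg (hg0 w) (mul_nonneg (hg0 x) (hΦ0 _))
    · change g w * (g x * Φ (x - w)) ≤
        1 / 2 * (g w ^ 2 * (b x * Φ (x - w)) + g x ^ 2 * (b w * Φ (w - x)))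
      have h1 : Φ (w - x) = Φ (x - w) := by rw [← hΦs, neg_sub]
      rw [h1]
      have h2 : g w * g x ≤ 1 / 2 * (g w ^ 2 * b x + g x ^ 2 * b w) := by
        by_cases hw : w ∈ closedBall (0 : X) R
        · by_cases hx : x ∈ closedBall (0 : X) R
          · rw [hb1 w hw, hb1 x hx]
            nlinarith [sq_nonneg (g w - g x)]
          · rw [hgR x hx, mul_zero]
            have := mul_nonneg (sq_nonneg (g w)) (hbn x)
            nlinarith
        · rw [hgR w hw, zero_mul]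
          have := mul_nonneg (sq_nonneg (g x)) (hbn w)
          nlinarith
      have h3 := mul_le_mul_of_nonneg_right h2 (hΦ0 (x - w))
      linarith
  calc ∫ w, g w * ∫ x, g x * Φ (x - w) ∂μ ∂μ
      ≤ ∫ w, (1 / 2) * (∫ x, k w x ∂μ + ∫ x, k x w ∂μ) ∂μ := by
        refine integral_mono_of_nonneg (Filter.Eventually.of_forall fun w => ?_)
          ((hi1.add hi2).const_mul _) (Filter.Eventually.of_forall hle)
        exact mul_nonneg (hg0 w) (integral_nonneg fun x => mul_nonneg (hg0 x) (hΦ0 _))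
    _ = (∫ x, g x ^ 2 ∂μ) * A := by
        rw [integral_const_mul, integral_add hi1 hi2, hk2, hk3]
        ring

end schur

section op

variable {X : Type} [NormedAddCommGroup X] [ProperSpace X] [MeasurableSpace X] [BorelSpace X]
  {S : Type} [AddCommGroup S] [Module ℂ S]

/-- `w ↦ f(w) ρ(w) v` -/
def opS {ρ : X → Module.End ℂ S} (hlc : ∀ v, IsLocallyConstant fun w => ρ w v)
    (f : Sch X ℂ) (v : S) : Sch X S :=
  ⟨fun w => f.1 w • ρ w v, by
    obtain ⟨h1, K, hK, h2⟩ := f.2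
    refine ⟨h1.comp₂ (hlc v) (fun (z : ℂ) (x : S) => z • x), K, hK, fun x hx => ?_⟩
    change f.1 x • ρ x v = 0
    rw [h2 x hx, zero_smul]⟩

theorem opS_apply {ρ : X → Module.End ℂ S} (hlc : ∀ v, IsLocallyConstant fun w => ρ w v)
    (f : Sch X ℂ) (v : S) (w : X) : (opS hlc f v).1 w = f.1 w • ρ w v := rfl

/-- The operator `Op f = ∫ f(w) ρ(w) dw`. -/
noncomputable def Op (μ : Measure X) [IsFiniteMeasureOnCompacts μ]
    {ρ : X → Module.End ℂ S} (hlc : ∀ v, IsLocallyConstant fun w => ρ w v)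
    (f : Sch X ℂ) : Module.End ℂ S where
  toFun v := schI μ (opS hlc f v)
  map_add' a b := by
    have h1 : opS hlc f (a + b) = opS hlc f a + opS hlc f b :=
      Subtype.ext (funext fun w => by
        change f.1 w • ρ w (a + b) = f.1 w • ρ w a + f.1 w • ρ w b
        rw [map_add, smul_add])
    rw [h1, ← schIL_apply, ← schIL_apply, ← schIL_apply, map_add]
  map_smul' c a := by
    have h1 : opS hlc f (c • a) = c • opS hlc f a :=
      Subtype.ext (funext fun w => by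
        change f.1 w • ρ w (c • a) = c • (f.1 w • ρ w a)
        rw [map_smul, smul_comm])
    rw [RingHom.id_apply, h1, ← schIL_apply, ← schIL_apply, map_smul]

variable (μ : Measure X) [IsFiniteMeasureOnCompacts μ]
  {ρ : X → Module.End ℂ S} (hlc : ∀ v, IsLocallyConstant fun w => ρ w v)

theorem Op_apply (f : Sch X ℂ) (v : S) : Op μ hlc f v = schI μ (opS hlc f v) := rfl

theorem Op_dual (f : Sch X ℂ) (v : S) (ξ : S →ₗ[ℂ] ℂ) :
    ξ (Op μ hlc f v) = ∫ w, f.1 w * ξ (ρ w v) ∂μ := by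
  rw [Op_apply, schI_dual]
  refine integral_congr_ae (Filter.Eventually.of_forall fun w => ?_)
  change ξ (f.1 w • ρ w v) = f.1 w * ξ (ρ w v)
  rw [map_smul, smul_eq_mul]

include hlc in
theorem Op_integrable (f : Sch X ℂ) (v : S) (ξ : S →ₗ[ℂ] ℂ) :
    Integrable (fun w => f.1 w * ξ (ρ w v)) μ := by
  have h1 := sch_integrable μ (opS hlc f v) ξ
  refine h1.congr (Filter.Eventually.of_forall fun w => ?_)
  change ξ (f.1 w • ρ w v) = f.1 w * ξ (ρ w v)
  rw [map_smul, smul_eq_mul]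

theorem Op_add (f g : Sch X ℂ) : Op μ hlc (f + g) = Op μ hlc f + Op μ hlc g := by
  refine LinearMap.ext fun v => ?_
  have h1 : opS hlc (f + g) v = opS hlc f v + opS hlc g v :=
    Subtype.ext (funext fun w => add_smul (f.1 w) (g.1 w) (ρ w v))
  rw [LinearMap.add_apply, Op_apply, Op_apply, Op_apply, h1, ← schIL_apply, ← schIL_apply,
    ← schIL_apply, map_add]

theorem Op_smul (c : ℂ) (f : Sch X ℂ) : Op μ hlc (c • f) = c • Op μ hlc f := by
  refine LinearMap.ext fun v => ?_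
  have h1 : opS hlc (c • f) v = c • opS hlc f v :=
    Subtype.ext (funext fun w => mul_smul c (f.1 w) (ρ w v))
  rw [LinearMap.smul_apply, Op_apply, Op_apply, h1, ← schIL_apply, ← schIL_apply, map_smul]

/-- `Op` of the indicator function of a ball fixing `v`. -/
theorem Op_fix (f : Sch X ℂ) {U : Set X} (hU : IsOpen U) {v : S} {c : ℂ}
    (h1 : ∀ x ∈ U, f.1 x = c) (h2 : ∀ x, x ∉ U → f.1 x = 0) (h3 : ∀ x ∈ U, ρ x v = v) :
    Op μ hlc f v = ((μ.real U : ℝ) : ℂ) • c • v := by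
  rw [Op_apply]
  refine schI_indicator_const μ _ hU (fun x hx => ?_) (fun x hx => ?_)
  · rw [opS_apply, h1 x hx, h3 x hx]
  · rw [opS_apply, h2 x hx, zero_smul]

/-- conjugation -/
theorem Op_conj (f g : Sch X ℂ) (A : S →ₗ[ℂ] S) (T : X → X) (hT : MeasurePreserving T μ μ)
    (hA : ∀ w v, A (ρ w v) = ρ (T w) (A v)) (hfg : ∀ w, f.1 w = g.1 (T w)) (v : S) :
    A (Op μ hlc f v) = Op μ hlc g (A v) := by
  rw [Op_apply, Op_apply, schI_map]
  refine schI_congr_map μ _ _ T hT fun x => ?_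
  change A (f.1 x • ρ x v) = g.1 (T x) • ρ (T x) (A v)
  rw [map_smul, hA, hfg]

end op

section bound

variable {X : Type} [NormedAddCommGroup X] [IsUltrametricDist X] [ProperSpace X]
  [MeasurableSpace X] [BorelSpace X] (μ : Measure X) [μ.IsAddHaarMeasure]
  {S : Type} [AddCommGroup S] [Module ℂ S]

/-- A projective unitary smooth representation `ρ` of the group `X`, `c` its cocycle, with an
invariant hermitian form. -/
structure IsUH (c : X → X → ℂ) (ρ : X → Module.End ℂ S) (Hf : S → S → ℂ) : Prop where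
  herm : IsHermForm Hf
  lc : ∀ v, IsLocallyConstant fun w => ρ w v
  zero : ∀ v, ρ 0 v = v
  mul : ∀ w w' v, ρ w (ρ w' v) = c w w' • ρ (w + w') v
  norm_c : ∀ w w', ‖c w w'‖ = 1
  c_neg : ∀ w, c w (-w) = 1
  inv : ∀ w a b, Hf (ρ w a) (ρ w b) = Hf a b

variable {c : X → X → ℂ} {ρ : X → Module.End ℂ S} {Hf : S → S → ℂ}

theorem IsUH.right_inv (h : IsUH c ρ Hf) (w : X) (v : S) : ρ w (ρ (-w) v) = v := by
  rw [h.mul, h.c_neg, one_smul, add_neg_cancel, h.zero]

theorem IsUH.adj (h : IsUH c ρ Hf) (w : X) (a b : S) : Hf (ρ w a) b = Hf a (ρ (-w) b) := by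
  rw [← h.inv w a, h.right_inv]

theorem IsUH.adj' (h : IsUH c ρ Hf) (w : X) (a b : S) : Hf a (ρ w b) = Hf (ρ (-w) a) b := by
  rw [h.adj, neg_neg]

/-- `‖Hf(ρ(x)b, ρ(w)b)‖` depends on `x - w` only. -/
theorem IsUH.norm_sub (h : IsUH c ρ Hf) (x w : X) (b : S) :
    ‖Hf (ρ x b) (ρ w b)‖ = ‖Hf (ρ (x - w) b) b‖ := by
  rw [h.adj', h.mul, h.herm.smul_left, norm_mul, h.norm_c, one_mul, neg_add_eq_sub]

theorem IsUH.norm_neg (h : IsUH c ρ Hf) (z : X) (b : S) :
    ‖Hf (ρ (-z) b) b‖ = ‖Hf (ρ z b) b‖ := by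
  rw [← h.adj', h.herm.norm_symm]

/-- `w ↦ conj f(-w)` -/
noncomputable def cjS (f : Sch X ℂ) : Sch X ℂ :=
  ⟨fun w => conj (f.1 (-w)), by
    obtain ⟨h1, K, hK, h2⟩ := f.2
    refine ⟨(h1.comp_continuous continuous_neg).comp (fun z : ℂ => conj z), -K, hK.neg,
      fun x hx => ?_⟩
    change conj (f.1 (-x)) = 0
    rw [h2 (-x) (fun h => hx (by rwa [Set.mem_neg])), map_zero]⟩

theorem cjS_apply (f : Sch X ℂ) (w : X) : (cjS f).1 w = conj (f.1 (-w)) := rfl

theorem norm_cjS (f : Sch X ℂ) (w : X) : ‖(cjS f).1 w‖ = ‖f.1 (-w)‖ := by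
  rw [cjS_apply]
  exact RCLike.norm_conj _

theorem IsUH.op_adj (h : IsUH c ρ Hf) (f : Sch X ℂ) (a b : S) :
    Hf (Op μ h.lc f a) b = Hf a (Op μ h.lc (cjS f) b) := by
  have h1 : Hf (Op μ h.lc f a) b = ∫ w, f.1 w * Hf (ρ w a) b ∂μ :=
    Op_dual μ h.lc f a (h.herm.lin b)
  have h2 : Hf (Op μ h.lc (cjS f) b) a = ∫ w, (cjS f).1 w * Hf (ρ w b) a ∂μ :=
    Op_dual μ h.lc (cjS f) b (h.herm.lin a)
  rw [h.herm.symm (Op μ h.lc (cjS f) b) a, h2, h1, ← integral_conj,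
    ← integral_neg_eq_self (fun w => f.1 w * Hf (ρ w a) b) μ]
  refine integral_congr_ae (Filter.Eventually.of_forall fun w => ?_)
  change f.1 (-w) * Hf (ρ (-w) a) b = conj ((cjS f).1 w * Hf (ρ w b) a)
  rw [map_mul, cjS_apply, Complex.conj_conj, ← h.herm.symm, h.adj']

/-- The bound of `‖Op g b‖²`. -/
theorem IsUH.op_norm (h : IsUH c ρ Hf) {R : ℝ} (hR : 0 < R) (g : Sch X ℂ)
    (hg : ∀ x, x ∉ closedBall (0 : X) R → g.1 x = 0) (b : S) :
    ‖Hf (Op μ h.lc g b) (Op μ h.lc g b)‖ ≤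
      (∫ x, ‖g.1 x‖ ^ 2 ∂μ) * ∫ z in closedBall (0 : X) R, ‖Hf (ρ z b) b‖ ∂μ := by
  set y := Op μ h.lc g b with hy
  have hgc : Continuous g.1 := g.2.1.continuous
  have hlc : ∀ v d, Continuous fun w => Hf (ρ w v) d := fun v d =>
    ((h.lc v).comp fun x => Hf x d).continuous
  have h1 : ∀ d, Hf y d = ∫ w, g.1 w * Hf (ρ w b) d ∂μ := fun d =>
    Op_dual μ h.lc g b (h.herm.lin d)
  have h2 : ∀ w, ‖Hf (ρ w b) y‖ ≤ ∫ x, ‖g.1 x‖ * ‖Hf (ρ (x - w) b) b‖ ∂μ := fun w => by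
    rw [← h.herm.norm_symm, h1]
    refine (norm_integral_le_integral_norm _).trans (le_of_eq ?_)
    refine integral_congr_ae (Filter.Eventually.of_forall fun x => ?_)
    change ‖g.1 x * Hf (ρ x b) (ρ w b)‖ = ‖g.1 x‖ * ‖Hf (ρ (x - w) b) b‖
    rw [norm_mul, h.norm_sub]
  have hΦ : Continuous fun z => ‖Hf (ρ z b) b‖ := (hlc b b).norm
  have h3 := schur_test μ hR (g := fun x => ‖g.1 x‖) (Φ := fun z => ‖Hf (ρ z b) b‖) hgc.norm
    (fun x => norm_nonneg _) (fun x hx => by rw [hg x hx, norm_zero]) hΦ (fun x => norm_nonneg _)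
    (fun x => h.norm_neg x b)
  refine le_trans ?_ h3
  rw [h1]
  refine (norm_integral_le_integral_norm _).trans ?_
  have hk : Continuous (Function.uncurry fun w x => ‖g.1 w‖ * (‖g.1 x‖ * ‖Hf (ρ (x - w) b) b‖)) :=
    (hgc.norm.comp continuous_fst).mul ((hgc.norm.comp continuous_snd).mul
      (hΦ.comp (continuous_snd.sub continuous_fst)))
  have hks : HasCompactSupport
      (Function.uncurry fun w x => ‖g.1 w‖ * (‖g.1 x‖ * ‖Hf (ρ (x - w) b) b‖)) := by
    refine HasCompactSupport.intro ((isCompact_closedBall (0 : X) R).prod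
      (isCompact_closedBall (0 : X) R)) ?_
    rintro ⟨w, x⟩ hwx
    change ‖g.1 w‖ * (‖g.1 x‖ * ‖Hf (ρ (x - w) b) b‖) = 0
    by_cases hw : w ∈ closedBall (0 : X) R
    · have hx : x ∉ closedBall (0 : X) R := fun hx => hwx ⟨hw, hx⟩
      rw [hg x hx, norm_zero, zero_mul, mul_zero]
    · rw [hg w hw, norm_zero, zero_mul]
  have hki : Integrable (Function.uncurry fun w x =>
      ‖g.1 w‖ * (‖g.1 x‖ * ‖Hf (ρ (x - w) b) b‖)) (μ.prod μ) :=
    hk.integrable_of_hasCompactSupport hks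
  have hi : Integrable (fun w => ‖g.1 w‖ * ∫ x, ‖g.1 x‖ * ‖Hf (ρ (x - w) b) b‖ ∂μ) μ := by
    have h4 := hki.integral_prod_left
    refine h4.congr (Filter.Eventually.of_forall fun w => ?_)
    change ∫ x, ‖g.1 w‖ * (‖g.1 x‖ * ‖Hf (ρ (x - w) b) b‖) ∂μ = _
    rw [integral_const_mul]
  refine integral_mono_of_nonneg (Filter.Eventually.of_forall fun w => norm_nonneg _) hi
    (Filter.Eventually.of_forall fun w => ?_)
  change ‖g.1 w * Hf (ρ w b) y‖ ≤ ‖g.1 w‖ * ∫ x, ‖g.1 x‖ * ‖Hf (ρ (x - w) b) b‖ ∂μ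
  rw [norm_mul]
  exact mul_le_mul_of_nonneg_left (h2 w) (norm_nonneg _)

/-- The `L²` bound. -/
theorem IsUH.op_le (h : IsUH c ρ Hf) {R : ℝ} (hR : 0 < R) (f : Sch X ℂ)
    (hf : ∀ x, x ∉ closedBall (0 : X) R → f.1 x = 0) (a b : S) :
    ‖Hf (Op μ h.lc f a) b‖ ^ 2 ≤ (Hf a a).re * ((∫ x, ‖f.1 x‖ ^ 2 ∂μ) *
      ∫ z in closedBall (0 : X) R, ‖Hf (ρ z b) b‖ ∂μ) := by
  have h1 : ∀ x, x ∉ closedBall (0 : X) R → (cjS f).1 x = 0 := fun x hx => by
    rw [cjS_apply, hf (-x) (fun h => hx (neg_mem_cball.1 h)), map_zero]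
  have h2 := h.op_norm μ hR (cjS f) h1 b
  have h3 : ∫ x, ‖(cjS f).1 x‖ ^ 2 ∂μ = ∫ x, ‖f.1 x‖ ^ 2 ∂μ := by
    rw [← integral_neg_eq_self (fun x => ‖f.1 x‖ ^ 2) μ]
    refine integral_congr_ae (Filter.Eventually.of_forall fun x => ?_)
    change ‖(cjS f).1 x‖ ^ 2 = ‖f.1 (-x)‖ ^ 2
    rw [norm_cjS]
  rw [h3] at h2
  rw [h.op_adj μ f a b]
  refine (h.herm.cs _ _).trans (mul_le_mul_of_nonneg_left ?_ (h.herm.nonneg a))
  exact (Complex.re_le_norm _).trans h2

end bound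

section coef

variable {X : Type} [NormedAddCommGroup X] [IsUltrametricDist X] [ProperSpace X]
  [MeasurableSpace X] [BorelSpace X] (μ : Measure X) [μ.IsAddHaarMeasure]
  {S : Type} [AddCommGroup S] [Module ℂ S]
  {c : X → X → ℂ} {ρ : X → Module.End ℂ S} {Hf : S → S → ℂ}

theorem IsUH.coef_norm_le (h : IsUH c ρ Hf) (z : X) (b : S) :
    ‖Hf (ρ z b) b‖ ≤ (Hf b b).re := by
  have h1 := h.herm.cs (ρ z b) b
  rw [h.inv] at h1
  have h2 := h.herm.nonneg b
  nlinarith [norm_nonneg (Hf (ρ z b) b)]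

theorem IsUH.coef_int_le (h : IsUH c ρ Hf) (b : S) {R : ℝ} {s : Set X} (hs : MeasurableSet s)
    (h0 : ∀ z, z ∉ s → Hf (ρ z b) b = 0) :
    ∫ z in closedBall (0 : X) R, ‖Hf (ρ z b) b‖ ∂μ ≤
      (Hf b b).re * μ.real (closedBall (0 : X) R ∩ s) := by
  have hb : MeasurableSet (closedBall (0 : X) R) := isClosed_closedBall.measurableSet
  have h1 : ∫ z in closedBall (0 : X) R, ‖Hf (ρ z b) b‖ ∂μ =
      ∫ z in closedBall (0 : X) R ∩ s, ‖Hf (ρ z b) b‖ ∂μ := by
    refine setIntegral_eq_of_subset_of_forall_sdiff_eq_zero hb inter_subset_left fun z hz => ?_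
    rw [h0 z fun hzs => hz.2 ⟨hz.1, hzs⟩, norm_zero]
  have hfin : μ (closedBall (0 : X) R ∩ s) < ∞ :=
    (measure_mono inter_subset_left).trans_lt (isCompact_closedBall (0 : X) R).measure_lt_top
  have h2 := norm_setIntegral_le_of_norm_le_const (μ := μ) (f := fun z => ‖Hf (ρ z b) b‖)
    (C := (Hf b b).re) hfin (fun z _ => by
      rw [norm_norm]
      exact h.coef_norm_le z b)
  rw [h1]
  exact (le_abs_self _).trans h2

end coef

section vol

variable {E : Type} [NontriviallyNormedField E] [IsUltrametricDist E] [ProperSpace E]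
  [MeasurableSpace E] [BorelSpace E] {m : ℕ}

/-- Comparison of volumes. -/
theorem vol_le_nuV (R R₀ : ℝ) : ∃ C : ℝ≥0, ∀ k : GL (Fin m) E,
    (addHaar : Measure (Fin m → E)) {w | ‖w‖ ≤ R ∧ ‖vecL k⁻¹ w‖ ≤ R₀} ≤ C * nuV k := by
  obtain ⟨c, hc⟩ := NormedField.exists_lt_norm E (max (max R R₀) 0)
  have hcpos : 0 < ‖c‖ := (le_max_right _ _).trans_lt hc
  have hc0 : c ≠ 0 := norm_pos_iff.1 hcpos
  have hR : R ≤ ‖c‖ := ((le_max_left R R₀).trans (le_max_left _ _)).trans hc.le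
  have hR₀ : R₀ ≤ ‖c‖ := ((le_max_right R R₀).trans (le_max_left _ _)).trans hc.le
  let T : (Fin m → E) ≃ₗ[E] (Fin m → E) := LinearEquiv.smulOfNeZero E _ c hc0
  refine ⟨md (LinearMap.det (T : (Fin m → E) →ₗ[E] (Fin m → E))), fun k => ?_⟩
  rw [nuV_eq_nuK, nuK, ← image_linearEquiv]
  refine measure_mono fun w hw => ⟨c⁻¹ • w, ⟨?_, ?_⟩, smul_inv_smul₀ hc0 w⟩
  · rw [norm_smul, norm_inv, inv_mul_le_iff₀ hcpos, mul_one]
    exact hw.1.trans hR
  · rw [map_smul, norm_smul, norm_inv, inv_mul_le_iff₀ hcpos, mul_one]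
    exact hw.2.trans hR₀

variable {F : Type} [NontriviallyNormedField F] [ProperSpace F] [NormedAlgebra F E]
  [FiniteDimensional F E]

/-- coordinatewise `σ` -/
def sgV (σ : E ≃ₐ[F] E) (m : ℕ) : (Fin m → E) ≃ₗ[F] (Fin m → E) :=
  LinearEquiv.piCongrRight fun _ => σ.toLinearEquiv

theorem sgV_apply (σ : E ≃ₐ[F] E) (w : Fin m → E) (i : Fin m) : sgV σ m w i = σ (w i) := rfl

theorem sgV_norm {σ : E ≃ₐ[F] E} (hσ : ∀ x, ‖σ x‖ = ‖x‖) (w : Fin m → E) :
    ‖sgV σ m w‖ = ‖w‖ := by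
  refine le_antisymm ?_ ?_
  · refine (pi_norm_le_iff_of_nonneg (norm_nonneg _)).2 fun i => ?_
    rw [sgV_apply, hσ]
    exact norm_le_pi_norm w i
  · refine (pi_norm_le_iff_of_nonneg (norm_nonneg _)).2 fun i => ?_
    rw [← hσ, ← sgV_apply]
    exact norm_le_pi_norm _ i

theorem sgV_measure {σ : E ≃ₐ[F] E} (hσ : ∀ x, ‖σ x‖ = ‖x‖) (A : Set (Fin m → E)) :
    (addHaar : Measure (Fin m → E)) (sgV σ m '' A) = (addHaar : Measure (Fin m → E)) A := by
  refine image_of_pres addHaar (sgV σ m) (B := Metric.closedBall 0 1) ?_ ?_ ?_ A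
  · exact ((IsUltrametricDist.isOpen_closedBall (0 : Fin m → E) one_ne_zero).measure_ne_zero _
      ⟨0, by simp⟩)
  · exact (isCompact_closedBall (0 : Fin m → E) 1).measure_lt_top.ne
  · ext w
    constructor
    · rintro ⟨w, hw, rfl⟩
      rw [mem_closedBall_zero_iff] at hw ⊢
      rwa [sgV_norm hσ]
    · intro hw
      refine ⟨(sgV σ m).symm w, ?_, (sgV σ m).apply_symm_apply w⟩
      rw [mem_closedBall_zero_iff] at hw ⊢
      rw [← sgV_norm hσ, (sgV σ m).apply_symm_apply]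
      exact hw

/-- `ν(σ(k)) = ν(k)`. -/
theorem nuV_sg {σ : E ≃ₐ[F] E} (hσ : ∀ x, ‖σ x‖ = ‖x‖) (k l : GL (Fin m) E)
    (hkl : (l : Matrix (Fin m) (Fin m) E) = (k : Matrix (Fin m) (Fin m) E).map σ) :
    nuV l = nuV k := by
  unfold nuV
  rw [← sgV_measure hσ (Metric.closedBall 0 1 ∩
    (fun x => (k : Matrix (Fin m) (Fin m) E).mulVec x) '' Metric.closedBall 0 1)]
  have h1 : ∀ x, sgV σ m ((k : Matrix (Fin m) (Fin m) E).mulVec x) =
      (l : Matrix (Fin m) (Fin m) E).mulVec (sgV σ m x) := fun x => by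
    funext i
    rw [sgV_apply, hkl]
    simp only [Matrix.mulVec, dotProduct, _root_.map_sum, _root_.map_mul, Matrix.map_apply, sgV_apply]
  congr 1
  ext w
  constructor
  · rintro ⟨hw, x, hx, rfl⟩
    have hx' : (sgV σ m).symm x ∈ closedBall (0 : Fin m → E) 1 := by
      rw [mem_closedBall_zero_iff] at hx ⊢
      rwa [← sgV_norm hσ, LinearEquiv.apply_symm_apply]
    refine ⟨(k : Matrix (Fin m) (Fin m) E).mulVec ((sgV σ m).symm x), ⟨?_, _, hx', rfl⟩, ?_⟩
    · rw [mem_closedBall_zero_iff] at hw ⊢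
      rw [← sgV_norm hσ, h1, LinearEquiv.apply_symm_apply]
      exact hw
    · rw [h1, LinearEquiv.apply_symm_apply]
  · rintro ⟨w, ⟨hw, x, hx, rfl⟩, rfl⟩
    refine ⟨?_, sgV σ m x, ?_, (h1 x).symm⟩
    · rw [mem_closedBall_zero_iff] at hw ⊢
      rwa [sgV_norm hσ]
    · rw [mem_closedBall_zero_iff] at hx ⊢
      rwa [sgV_norm hσ]

end vol

section weil

variable {F E : Type} [NontriviallyNormedField F] [IsUltrametricDist F] [ProperSpace F]
  [NontriviallyNormedField E] [NormedAlgebra F E] [IsUltrametricDist E] [ProperSpace E]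
  [MeasurableSpace E] [BorelSpace E]
  {m : ℕ} {S : Type} [AddCommGroup S] [Module ℂ S]
  {σ : E ≃ₐ[F] E} {δ : E} {d : F} {H : Matrix (Fin m) (Fin m) E}
  {ψ : AddChar F Circle} {χμ : Eˣ →* ℂˣ}
  {ρ : (Fin m → E) → Module.End ℂ S} {ω : unitary σ H →* Module.End ℂ S}

theorem isUH_of (hW : IsWeil σ H ψ χμ ρ ω) (hq : QuadDatum σ δ d) (hH : IsSkew σ H)
    (hψ : Continuous ψ) {Hf : S → S → ℂ} (hf : IsHermForm Hf)
    (hr : ∀ w a b, Hf (ρ w a) (ρ w b) = Hf a b) :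
    IsUH (fun w w' => ((ψ ((2 : F)⁻¹ * sympl F σ H w w') : Circle) : ℂ)) ρ Hf where
  herm := hf
  lc := rv_locConst hW hq hψ
  zero := rzero hW
  mul := rr hW
  norm_c _ _ := Circle.norm_coe _
  c_neg w := by
    have h1 : sympl F σ H w (-w) = 0 := by
      rw [sympl_eq, sk_neg_right, map_neg, ← sympl_eq, sympl_self hq hH, neg_zero]
    show ((ψ ((2 : F)⁻¹ * sympl F σ H w (-w)) : Circle) : ℂ) = 1
    rw [h1, mul_zero, AddChar.map_zero_eq_one, Circle.coe_one]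
  inv := hr

/-- `‖f‖₂` -/
noncomputable def l2n (f : Sch (Fin m → E) ℂ) : ℝ≥0 :=
  Real.toNNReal (Real.sqrt (∫ x, ‖f.1 x‖ ^ 2 ∂(addHaar : Measure (Fin m → E))))

/-- The `L²` bound for the hermitian form. -/
theorem herm_bd {c : (Fin m → E) → (Fin m → E) → ℂ} {Hf : S → S → ℂ} (h : IsUH c ρ Hf)
    (hor : ∀ (g : unitary σ H) w x, ω g (ρ w x) = ρ ((umat g).mulVec w) (ω g x))
    (hom : ∀ (g : unitary σ H) a b, Hf (ω g a) (ω g b) = Hf a b)
    (hs : ∀ b, ∃ R₀ : ℝ, ∀ z, R₀ < ‖z‖ → Hf (ρ z b) b = 0) (a b : S) (R : ℝ) :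
    ∃ C : ℝ≥0, ∀ f : Sch (Fin m → E) ℂ, (∀ x, x ∉ closedBall (0 : Fin m → E) R → f.1 x = 0) →
      ∀ u u' : unitary σ H,
        ENNReal.ofReal ‖Hf (Op addHaar h.lc f (ω u a)) (ω u' b)‖ ≤
          C * l2n f * nuV u'.1 ^ (1 / 2 : ℝ) := by
  obtain ⟨R₀, hR₀⟩ := hs b
  set R' : ℝ := max R 1 with hR'
  have hR'0 : 0 < R' := zero_lt_one.trans_le (le_max_right _ _)
  obtain ⟨C₀, hC₀⟩ := vol_le_nuV (E := E) (m := m) R' R₀
  refine ⟨((Hf a a).re.toNNReal * (Hf b b).re.toNNReal * C₀) ^ (1 / 2 : ℝ),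
    fun f hf u u' => ?_⟩
  have hf' : ∀ x, x ∉ closedBall (0 : Fin m → E) R' → f.1 x = 0 := fun x hx =>
    hf x fun hx' => hx (closedBall_subset_closedBall (le_max_left _ _) hx')
  set s : Set (Fin m → E) := {w | ‖vecL u'.1⁻¹ w‖ ≤ R₀} with hsdef
  have hsm : MeasurableSet s := by
    refine (isClosed_le ?_ continuous_const).measurableSet
    exact ((vecL u'.1⁻¹).toLinearMap.continuous_of_finiteDimensional).norm
  have hz : ∀ z, Hf (ρ z (ω u' b)) (ω u' b) = Hf (ρ (vecL u'.1⁻¹ z) b) b := fun z => by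
    have h1 : (umat u').mulVec (vecL u'.1⁻¹ z) = z := by
      show vecL u'.1 (vecL u'.1⁻¹ z) = z
      rw [← vecL_mul, mul_inv_cancel, vecL_apply, Units.val_one, Matrix.one_mulVec]
    have h2 := hor u' (vecL u'.1⁻¹ z) b
    rw [h1] at h2
    rw [← h2, hom]
  have h0 : ∀ z, z ∉ s → Hf (ρ z (ω u' b)) (ω u' b) = 0 := fun z hzs => by
    rw [hz]
    exact hR₀ _ (not_le.1 hzs)
  have h1 := h.op_le addHaar hR'0 f hf' (ω u a) (ω u' b)
  have h2 := h.coef_int_le addHaar (ω u' b) (R := R') hsm h0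
  rw [hom] at h1 h2
  set A := (Hf a a).re with hA
  set B := (Hf b b).re with hB
  set I := ∫ x, ‖f.1 x‖ ^ 2 ∂(addHaar : Measure (Fin m → E)) with hI
  set V := (addHaar : Measure (Fin m → E)).real (closedBall (0 : Fin m → E) R' ∩ s) with hV
  have hA0 : 0 ≤ A := h.herm.nonneg a
  have hB0 : 0 ≤ B := h.herm.nonneg b
  have hI0 : 0 ≤ I := integral_nonneg fun x => by positivity
  have h3 : ‖Hf (Op addHaar h.lc f (ω u a)) (ω u' b)‖ ^ 2 ≤ A * (I * (B * V)) :=
    h1.trans (mul_le_mul_of_nonneg_left (mul_le_mul_of_nonneg_left h2 hI0) hA0)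
  have hVle : ENNReal.ofReal V ≤ C₀ * nuV u'.1 := by
    refine le_trans ?_ (hC₀ u'.1)
    rw [hV, Measure.real, ENNReal.ofReal_toReal
      ((measure_mono inter_subset_left).trans_lt
        (isCompact_closedBall (0 : Fin m → E) R').measure_lt_top).ne]
    refine measure_mono fun w hw => ⟨mem_closedBall_zero_iff.1 hw.1, hw.2⟩
  have h12 : (0 : ℝ) ≤ 1 / 2 := by norm_num
  have h4 : ENNReal.ofReal ‖Hf (Op addHaar h.lc f (ω u a)) (ω u' b)‖ =
      (ENNReal.ofReal (‖Hf (Op addHaar h.lc f (ω u a)) (ω u' b)‖ ^ 2)) ^ (1 / 2 : ℝ) := by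
    rw [ENNReal.ofReal_rpow_of_nonneg (by positivity) h12, ← Real.sqrt_eq_rpow,
      Real.sqrt_sq (norm_nonneg _)]
  have h5 : (l2n f : ℝ≥0∞) = (ENNReal.ofReal I) ^ (1 / 2 : ℝ) := by
    rw [ENNReal.ofReal_rpow_of_nonneg hI0 h12, ← Real.sqrt_eq_rpow]
    rfl
  rw [h4, h5, ENNReal.coe_rpow_of_nonneg _ h12, ← ENNReal.mul_rpow_of_nonneg _ _ h12,
    ← ENNReal.mul_rpow_of_nonneg _ _ h12]
  refine ENNReal.rpow_le_rpow ?_ h12
  refine (ENNReal.ofReal_le_ofReal h3).trans ?_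
  rw [ENNReal.ofReal_mul hA0, ENNReal.ofReal_mul hI0, ENNReal.ofReal_mul hB0, ENNReal.coe_mul,
    ENNReal.coe_mul]
  have h6 : (((Hf a a).re.toNNReal : ℝ≥0) : ℝ≥0∞) = ENNReal.ofReal A := rfl
  have h7 : (((Hf b b).re.toNNReal : ℝ≥0) : ℝ≥0∞) = ENNReal.ofReal B := rfl
  rw [h6, h7]
  calc ENNReal.ofReal A * (ENNReal.ofReal I * (ENNReal.ofReal B * ENNReal.ofReal V))
      ≤ ENNReal.ofReal A * (ENNReal.ofReal I * (ENNReal.ofReal B * (C₀ * nuV u'.1))) := by
        gcongr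
    _ = ENNReal.ofReal A * ENNReal.ofReal B * C₀ * ENNReal.ofReal I * nuV u'.1 := by ring

end weil

section beta

variable {F E : Type} [NontriviallyNormedField F] [IsUltrametricDist F] [ProperSpace F]
  [NontriviallyNormedField E] [NormedAlgebra F E] [IsUltrametricDist E] [ProperSpace E]
  [MeasurableSpace E] [BorelSpace E]
  {m : ℕ} {S : Type} [AddCommGroup S] [Module ℂ S]
  {σ : E ≃ₐ[F] E} {δ : E} {d : F} {t : Fin m → Eˣ}
  {ψ : AddChar F Circle} {χμ : Eˣ →* ℂˣ}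
  {ρ : (Fin m → E) → Module.End ℂ S} {ω : unitary σ (Dg t) →* Module.End ℂ S}

/-- `θ(u)⁻¹ = σ(u)` on `U(H)`. -/
theorem th_inv_eq {u : GL (Fin m) E} (hu : u ∈ unitary σ (Dg t)) :
    (((th t u)⁻¹ : GL (Fin m) E) : Matrix (Fin m) (Fin m) E) =
      (u : Matrix (Fin m) (Fin m) E).map σ := by
  rw [unitary_gram] at hu
  have h1 : ((th t u : GL (Fin m) E) : Matrix (Fin m) (Fin m) E) =
      (((dgl t)⁻¹ : GL (Fin m) E) : Matrix (Fin m) (Fin m) E) *
        (u : Matrix (Fin m) (Fin m) E).transpose * Dg t := rfl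
  have hD : (((dgl t)⁻¹ : GL (Fin m) E) : Matrix (Fin m) (Fin m) E) * Dg t = 1 := by
    rw [← dgl_Dg, Units.inv_mul]
  have h2 : ((th t u : GL (Fin m) E) : Matrix (Fin m) (Fin m) E) *
      (u : Matrix (Fin m) (Fin m) E).map σ = 1 := by
    rw [h1, Matrix.mul_assoc, Matrix.mul_assoc, ← Matrix.mul_assoc _ (Dg t), hu, hD]
  calc (((th t u)⁻¹ : GL (Fin m) E) : Matrix (Fin m) (Fin m) E)
      = (((th t u)⁻¹ : GL (Fin m) E) : Matrix (Fin m) (Fin m) E) *
        (((th t u : GL (Fin m) E) : Matrix (Fin m) (Fin m) E) *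
          (u : Matrix (Fin m) (Fin m) E).map σ) := by rw [h2, Matrix.mul_one]
    _ = (u : Matrix (Fin m) (Fin m) E).map σ := by
        rw [← Matrix.mul_assoc, Units.inv_mul, Matrix.one_mul]

/-- `ν(θ(u)⁻¹) = ν(u)` on `U(H)`. -/
theorem nuV_th_inv (hq : QuadDatum σ δ d) {u : GL (Fin m) E} (hu : u ∈ unitary σ (Dg t)) :
    nuV (th t u)⁻¹ = nuV u := by
  have := hq.finite
  exact nuV_sg (F := F) (sg_norm hq) u _ (th_inv_eq hu)

theorem tendsto_sg (hq : QuadDatum σ δ d) :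
    Tendsto (fun (w : Fin m → E) (i : Fin m) => σ (w i)) (𝓝 0) (𝓝 0) := by
  rw [tendsto_pi_nhds]
  intro i
  rw [Pi.zero_apply, tendsto_zero_iff_norm_tendsto_zero]
  simp only [sg_norm hq]
  have h1 : Tendsto (fun w : Fin m → E => ‖w i‖) (𝓝 0) (𝓝 ‖(0 : Fin m → E) i‖) :=
    ((continuous_apply i).norm).tendsto 0
  simpa using h1

variable {β : S →ₗ[ℂ] S →ₗ[ℂ] ℂ}

/-- `β(·, b)` is a smooth functional. -/
theorem IsBeta.flip_mem (hβ : IsBeta σ t ρ ω β) (hq : QuadDatum σ δ d)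
    (hs : ∀ v, ∀ᶠ w in 𝓝 (0 : Fin m → E), ρ w v = v) (b : S) : β.flip b ∈ hDual ρ := by
  show ∀ᶠ w in 𝓝 (0 : Fin m → E), ∀ v, β.flip b (ρ w v) = β.flip b v
  filter_upwards [(tendsto_sg hq).eventually (hs b)] with w hw v
  show β (ρ w v) b = β v b
  rw [hβ.rho, hw]

/-- **The `L²` bound.** -/
theorem IsBeta.opBd (hβ : IsBeta σ t ρ ω β) (hq : QuadDatum σ δ d) (hψ : Continuous ψ)
    (hψ1 : ψ ≠ 1) (hμ : ConjSymplectic F χμ) (ht : SkT σ t) (hW : IsWeil σ (Dg t) ψ χμ ρ ω)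
    (hlc : ∀ v, IsLocallyConstant fun w => ρ w v) (a b : S) (R : ℝ) :
    ∃ C : ℝ≥0, ∀ f : Sch (Fin m → E) ℂ, (∀ x, x ∉ closedBall (0 : Fin m → E) R → f.1 x = 0) →
      ∀ u u' : unitary σ (Dg t),
        ENNReal.ofReal ‖β (Op addHaar hlc f (ω u a)) (ω u' b)‖ ≤
          C * l2n f * nuV u'.1 ^ (1 / 2 : ℝ) := by
  have hH := ht.isSkew
  have hσσ : ∀ x, σ (σ x) = x := sig_sig hq
  obtain ⟨Hf, h1, h2, h3, h4, -, h5, h6, h7⟩ := exists_herm hW hq hH hψ hψ1 hμ
  have hf : IsHermForm Hf := ⟨h1, h2, h3, h4⟩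
  have hU := isUH_of hW hq hH hψ hf h5
  obtain ⟨y, hy⟩ := h7 ⟨β.flip b, hβ.flip_mem hq hW.rho_smooth b⟩
  have hy' : ∀ x, β x b = Hf x y := hy
  have hs : ∀ b, ∃ R₀ : ℝ, ∀ z, R₀ < ‖z‖ → Hf (ρ z b) b = 0 := fun b => by
    refine cf_supp hW hq hH hψ1 ⟨hf.lin b, ?_⟩ b
    show ∀ᶠ w in nhds (0 : Fin m → E), ∀ v, Hf (ρ w v) b = Hf v b
    filter_upwards [hW.rho_smooth b] with w hw v
    conv_lhs => rw [← hw]
    exact h5 w v b
  obtain ⟨C, hC⟩ := herm_bd hU (om_rho' hW) h6 hs a y R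
  refine ⟨C, fun f hf u u' => ?_⟩
  set v : unitary σ (Dg t) := thU hσσ ht u' with hv
  have h8 : ∀ x, β x (ω u' b) = Hf x (ω v⁻¹ y) := fun x => by
    rw [← hβ.om v u' (th_th t u'.1).symm, hy', ← h6 v x, ← Module.End.mul_apply (ω v),
      ← map_mul, mul_inv_cancel, map_one, Module.End.one_apply]
  have h9 := hC f hf u v⁻¹
  have h10 : nuV (v⁻¹ : unitary σ (Dg t)).1 = nuV u'.1 := nuV_th_inv hq u'.2
  rw [h10] at h9
  rw [h8]
  exact h9

/-- **The bound of the matrix coefficients.** -/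
theorem IsBeta.betaBd (hβ : IsBeta σ t ρ ω β) (hq : QuadDatum σ δ d) (hψ : Continuous ψ)
    (hψ1 : ψ ≠ 1) (hμ : ConjSymplectic F χμ) (ht : SkT σ t)
    (hW : IsWeil σ (Dg t) ψ χμ ρ ω) : BetaBd σ t ω β := by
  intro a b
  have hlc : ∀ v, IsLocallyConstant fun w => ρ w v := rv_locConst hW hq hψ
  -- a function with `Op f b = b`
  obtain ⟨ε, hε, hball⟩ := Metric.eventually_nhds_iff.1 (hW.rho_smooth b)
  have hε2 : 0 < ε / 2 := by positivity
  set U : Set (Fin m → E) := closedBall 0 (ε / 2) with hU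
  have hUo : IsOpen U := IsUltrametricDist.isOpen_closedBall _ hε2.ne'
  have hUc : IsClosed U := isClosed_closedBall
  have hvol : (addHaar : Measure (Fin m → E)).real U ≠ 0 := by
    have h1 : (addHaar : Measure (Fin m → E)) U ≠ 0 := hUo.measure_ne_zero _ ⟨0, by simp [hU, hε2.le]⟩
    have h2 : (addHaar : Measure (Fin m → E)) U ≠ ∞ := (isCompact_closedBall _ _).measure_lt_top.ne
    exact (ENNReal.toReal_pos h1 h2).ne'
  set c : ℂ := ((((addHaar : Measure (Fin m → E)).real U : ℝ) : ℂ))⁻¹ with hc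
  classical
  let f : Sch (Fin m → E) ℂ := ⟨fun x => if x ∈ U then c else 0, by
    refine ⟨?_, U, isCompact_closedBall _ _, fun x hx => if_neg hx⟩
    have h1 : IsLocallyConstant fun x : Fin m → E => (x ∈ U) := by
      rw [IsLocallyConstant.iff_eventually_eq]
      intro x
      by_cases hx : x ∈ U
      · filter_upwards [hUo.mem_nhds hx] with y hy
        exact propext ⟨fun _ => hx, fun _ => hy⟩
      · filter_upwards [hUc.isOpen_compl.mem_nhds hx] with y hy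
        exact propext ⟨fun h => absurd h hy, fun h => absurd h hx⟩
    exact h1.comp fun p : Prop => if p then c else 0⟩
  have hf1 : ∀ x ∈ U, f.1 x = c := fun x hx => if_pos hx
  have hf0 : ∀ x, x ∉ U → f.1 x = 0 := fun x hx => if_neg hx
  have hOp : Op addHaar hlc f b = b := by
    rw [Op_fix addHaar hlc f hUo hf1 hf0 fun x hx => (hball (y := x) (by
      rw [mem_closedBall] at hx
      linarith)), smul_smul, hc, mul_inv_cancel₀ (Complex.ofReal_ne_zero.2 hvol), one_smul]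
  obtain ⟨C, hC⟩ := hβ.opBd hq hψ hψ1 hμ ht hW hlc b a (ε / 2)
  refine ⟨C * l2n f, ENNReal.mul_ne_top ENNReal.coe_ne_top ENNReal.coe_ne_top, fun u => ?_⟩
  have h := hC f hf0 1 u
  rw [map_one, Module.End.one_apply, hOp, hβ.symm] at h
  exact h

/-- The bilinear form `Q_f(a,b) = β(Op(f) a, b)`. -/
noncomputable def opQ (hlc : ∀ v, IsLocallyConstant fun w => ρ w v) (β : S →ₗ[ℂ] S →ₗ[ℂ] ℂ)
    (f : Sch (Fin m → E) ℂ) : S →ₗ[ℂ] S →ₗ[ℂ] ℂ := β ∘ₗ Op addHaar hlc f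

theorem opQ_apply (hlc : ∀ v, IsLocallyConstant fun w => ρ w v) (f : Sch (Fin m → E) ℂ)
    (a b : S) : opQ hlc β f a b = β (Op addHaar hlc f a) b := rfl

/-- The `L²` bound for the family `Q_f`, `f` supported in a ball. -/
theorem IsBeta.opQ_bd (hβ : IsBeta σ t ρ ω β) (hq : QuadDatum σ δ d) (hψ : Continuous ψ)
    (hψ1 : ψ ≠ 1) (hμ : ConjSymplectic F χμ) (ht : SkT σ t) (hW : IsWeil σ (Dg t) ψ χμ ρ ω)
    (hlc : ∀ v, IsLocallyConstant fun w => ρ w v) (R : ℝ) (a b : S) :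
    ∃ C : ℝ≥0, ∀ (f : {f : Sch (Fin m → E) ℂ //
        ∀ x, x ∉ closedBall (0 : Fin m → E) R → f.1 x = 0}) (u u' : unitary σ (Dg t)),
      ‖opQ hlc β f.1 (ω u a) (ω u' b)‖ₑ ≤ C * l2n f.1 * nuV u'.1 ^ (1 / 2 : ℝ) := by
  obtain ⟨C, hC⟩ := hβ.opBd hq hψ hψ1 hμ ht hW hlc a b R
  refine ⟨C, fun f u u' => ?_⟩
  rw [← ofReal_norm]
  exact hC f.1 f.2 u u'

/-- `‖f‖₂` is the `L²` seminorm. -/
theorem l2n_eq (f : Sch (Fin m → E) ℂ) :
    (l2n f : ℝ≥0∞) = eLpNorm f.1 2 (addHaar : Measure (Fin m → E)) := by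
  have hm : MemLp f.1 2 (addHaar : Measure (Fin m → E)) := by
    obtain ⟨h1, K, hK, h2⟩ := f.2
    exact h1.continuous.memLp_of_hasCompactSupport (HasCompactSupport.intro hK h2)
  rw [hm.eLpNorm_eq_integral_rpow_norm two_ne_zero ENNReal.ofNat_ne_top, ENNReal.toReal_ofNat,
    ← one_div, ← Real.sqrt_eq_rpow]
  simp only [Real.rpow_ofNat]
  rfl

/-- **G5.** The invariant form on the Weil representation, with the bound of the coefficients. -/
theorem exists_beta (hq : QuadDatum σ δ d) (hψ : Continuous ψ) (hψ1 : ψ ≠ 1)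
    (hμ : ConjSymplectic F χμ) (ht : SkT σ t) (hW : IsWeil σ (Dg t) ψ χμ ρ ω) :
    ∃ β : S →ₗ[ℂ] S →ₗ[ℂ] ℂ, IsBeta σ t ρ ω β ∧ BetaBd σ t ω β := by
  obtain ⟨β, hβ⟩ := exists_isBeta hq hψ hψ1 ht hW
  exact ⟨β, hβ, hβ.betaBd hq hψ hψ1 hμ ht hW⟩

end beta

end SpW.Mo
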