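import Pool.Agent.Work.MP_3615d2_al.Mo.Sym
import Pool.Agent.Work.MP_3615d2_al.Mo.WeilBound
import Pool.Agent.Work.MP_3615d2_al.Mo.Schur
import Pool.Agent.Work.MP_3615d2_al.Mo.Tame
import Pool.Agent.Work.MP_3615d2_al.Mo.Ker
import Pool.Agent.Work.MP_3615d2_al.Mo.Conv
import Pool.Agent.Work.MP_3615d2_al.Mo.VanEnd
import Pool.Agent.Work.MP_3615d2_al.Mo.Transp
import Pool.Agent.Work.MP_3615d2_al.P1.MOForm

/-!
MP_3615d2_al, multiplicity one (note 6725), assembly.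
-/

open MeasureTheory Filter Topology Matrix

set_option linter.unusedSectionVars false

namespace SpW.Mo

variable {F E : Type} [NontriviallyNormedField F] [IsUltrametricDist F] [ProperSpace F]
  [NontriviallyNormedField E] [NormedAlgebra F E] [IsUltrametricDist E] [ProperSpace E]
  [MeasurableSpace E] [BorelSpace E]
  {m : ℕ} {V S S₁ S₂ : Type} [AddCommGroup V] [Module ℂ V] [AddCommGroup S] [Module ℂ S]
  [AddCommGroup S₁] [Module ℂ S₁] [AddCommGroup S₂] [Module ℂ S₂]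
  {σ : E ≃ₐ[F] E} {δ : E} {d : F} {t t₁ t₂ : Fin m → Eˣ}

/-- `f ∘ θ` in the Hecke algebra. -/
def thS (t : Fin m → Eˣ) (f : Sch (GL (Fin m) E) ℂ) : Sch (GL (Fin m) E) ℂ :=
  ⟨fun g => f.1 (th t g), f.2.1.comp_continuous (continuous_th t), by
    obtain ⟨K, hK, h2⟩ := f.2.2
    refine ⟨th t '' K, hK.image (continuous_th t), fun x hx => h2 _ fun hxK => hx ?_⟩
    exact ⟨th t x, hxK, th_th t x⟩⟩

theorem thS_apply (t : Fin m → Eˣ) (f : Sch (GL (Fin m) E) ℂ) (g : GL (Fin m) E) :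
    (thS t f).1 g = f.1 (th t g) := rfl

section

variable [MeasurableSpace (GL (Fin m) E)] [BorelSpace (GL (Fin m) E)]
  (μ : Measure (GL (Fin m) E)) [μ.IsHaarMeasure]

theorem hk_dual {π : GL (Fin m) E →* Module.End ℂ V} (hπ : IsSmoothRep π)
    (f : Sch (GL (Fin m) E) ℂ) (w : V) (ξ : V →ₗ[ℂ] ℂ) :
    ξ (Hk.hk μ hπ f w) = ∫ g, f.1 g * ξ (π g w) ∂μ := by
  rw [Hk.hk_apply, schI_dual]
  refine integral_congr_ae (Eventually.of_forall fun g => ?_)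
  show ξ (f.1 g • π g w) = _
  rw [map_smul, smul_eq_mul]

/-- `π(f ∘ θ) = ε B(·, w₁) v₂` if `π(f) = B(·, v₂) w₁`. -/
theorem hk_thS {π : GL (Fin m) E →* Module.End ℂ V} (hπ : IsSmoothRep π)
    {B : V →ₗ[ℂ] V →ₗ[ℂ] ℂ} {ε : ℂ} (hε : ∀ a b, B a b = ε * B b a)
    (hB1 : ∀ b, (∀ a, B a b = 0) → b = 0)
    (hB : ∀ g a b, B (π g a) b = B a (π (th t g) b)) {w₁ v₂ : V} {f : Sch (GL (Fin m) E) ℂ}
    (hf : ∀ w, Hk.hk μ hπ f w = B w v₂ • w₁) (w : V) :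
    Hk.hk μ hπ (thS t f) w = B w w₁ • (ε • v₂) := by
  rw [← sub_eq_zero]
  apply hB1
  intro a
  rw [map_sub, sub_eq_zero]
  have h1 : B a (Hk.hk μ hπ (thS t f) w) = B (Hk.hk μ hπ f a) w := by
    rw [hk_dual μ hπ (thS t f) w (B a)]
    have h2 : B (Hk.hk μ hπ f a) w = B.flip w (Hk.hk μ hπ f a) := rfl
    rw [h2, hk_dual μ hπ f a (B.flip w)]
    have h3 := (th_measurePreserving μ t).integral_comp
      ((Homeomorph.measurableEmbedding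
        (⟨⟨th t, th t, th_th t, th_th t⟩, continuous_th t, continuous_th t⟩ :
          GL (Fin m) E ≃ₜ GL (Fin m) E))) (fun g => f.1 g * (B.flip w) (π g a))
    rw [← h3]
    refine integral_congr_ae (Eventually.of_forall fun g => ?_)
    show f.1 (th t g) * B a (π g w) = f.1 (th t g) * B (π (th t g) a) w
    rw [hB, th_th]
  rw [h1, hf, map_smul, LinearMap.smul_apply, smul_eq_mul, map_smul, smul_eq_mul, map_smul,
    smul_eq_mul, hε w₁ w]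
  ring

include μ in
/-- The identity for two tame functionals. -/
theorem tame_identity (hq : QuadDatum σ δ d) {ψ : AddChar F Circle} {χμ : Eˣ →* ℂˣ}
    (hψ : Continuous ψ) (hψ1 : ψ ≠ 1) (hμ : ConjSymplectic F χμ) (ht : SkT σ t)
    {ρ : (Fin m → E) → Module.End ℂ S} {ω : unitary σ (Dg t) →* Module.End ℂ S}
    (hW : IsWeil σ (Dg t) ψ χμ ρ ω) {β : S →ₗ[ℂ] S →ₗ[ℂ] ℂ} (hβ : IsBeta σ t ρ ω β)
    (hbd : BetaBd σ t ω β)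
    {π : GL (Fin m) E →* Module.End ℂ V}
    (hπ : IsSmoothRep π) (hirr : IsIrrRep π) (hc : IsCusp π) (hu : UnitCentral π)
    {B : V →ₗ[ℂ] V →ₗ[ℂ] ℂ} {ε : ℂ} (hB0 : B ≠ 0) (hε : ∀ a b, B a b = ε * B b a)
    (hB1 : ∀ b, (∀ a, B a b = 0) → b = 0)
    (hB : ∀ g a b, B (π g a) b = B a (π (th t g) b)) (hm : 0 < m) {ϖ : Eˣ} (hϖ : absE ϖ < 1)
    {lam₁ lam₂ : V →ₗ[ℂ] S}
    (h₁ : ∀ (u : unitary σ (Dg t)) w, lam₁ (π u.1 w) = ω u (lam₁ w)) (hT₁ : IsTame σ t π lam₁)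
    (h₂ : ∀ (u : unitary σ (Dg t)) w, lam₂ (π u.1 w) = ω u (lam₂ w)) (hT₂ : IsTame σ t π lam₂)
    (w v : V) (c b : S) :
    β (lam₁ w) c * β (lam₂ v) b = ε * (β (lam₂ w) c * β (lam₁ v) b) := by
  obtain ⟨χ, hχ, hχc⟩ := hu
  obtain ⟨w', v₁, hS⟩ := exists_schur μ hm hπ hirr hc ⟨χ, hχ, hχc⟩ B hB0 hB ϖ hϖ
  have hp := IsTame.isP hπ hχ hχc ω lam₁ h₁ hT₁ w'
  have hr := IsTame.isP hπ hχ hχc ω lam₂ h₂ hT₂ v₁
  have hloc := MR_loc μ hm hq ht ht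
  have hgood := goodG_ae μ σ _ _ hloc
  obtain ⟨f, hf⟩ := exists_rank_one μ hπ hirr hc ⟨χ, hχ, hχc⟩ B hB w v
  have hf' := hk_thS μ hπ hε hB1 hB hf
  have h3 := ker_identity (β₁ := β) μ hq ht ht hπ B hB1 hB hS lam₁ lam₂ hp hr hbd hbd hloc w v f hf b c
  have h4 := ker_identity (β₁ := β) μ hq ht ht hπ B hB1 hB hS lam₁ lam₂ hp hr hbd hbd hloc (ε • v) w
    (thS t f) hf' c b
  have h5 := sym_case μ hq hψ hψ1 hμ ht hW hβ hbd hp hr hm (ad_scl_lt hm hϖ) hgood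
  rw [← h3]
  have h6 := (th_measurePreserving μ t).integral_comp
      ((Homeomorph.measurableEmbedding
        (⟨⟨th t, th t, th_th t, th_th t⟩, continuous_th t, continuous_th t⟩ :
          GL (Fin m) E ≃ₜ GL (Fin m) E))) (fun g => (thS t f).1 g *
            Dker μ ϖ t β β (fun g => lam₁ (π g w')) (fun g => lam₂ (π g v₁)) g c b)
  rw [← h6] at h4
  have h7 : ∫ g, f.1 g * Dker μ ϖ t β β (fun g => lam₁ (π g w')) (fun g => lam₂ (π g v₁)) g b c ∂μ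
      = ∫ g, (thS t f).1 (th t g) * Dker μ ϖ t β β (fun g => lam₁ (π g w'))
        (fun g => lam₂ (π g v₁)) (th t g) c b ∂μ := by
    refine integral_congr_ae ?_
    filter_upwards [h5] with g hg
    rw [thS_apply, th_th, hg]
  rw [h7]
  refine h4.trans ?_
  rw [map_smul, map_smul, LinearMap.smul_apply, smul_eq_mul]
  ring

end

section diag

variable {ψ : AddChar F Circle} {χμ : Eˣ →* ℂˣ}

/-- There is a uniformiser-like element. -/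
theorem exists_small : ∃ ϖ : Eˣ, absE ϖ < 1 := by
  obtain ⟨x, hx0, hx1⟩ := NormedField.exists_norm_lt_one E
  refine ⟨Units.mk0 x (norm_pos_iff.1 hx0), ?_⟩
  have h1 : absE (Units.mk0 x (norm_pos_iff.1 hx0)) = (md x : ℝ) := by
    show ((distribHaarChar E (Units.mk0 x (norm_pos_iff.1 hx0)) : NNReal) : ℝ) = _
    rw [← md_units]
    rfl
  rw [h1]
  exact_mod_cast md_lt_one hx1

/-- Two equivariant maps into the same Weil representation. -/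
theorem diag_identity (hm : 0 < m) (hq : QuadDatum σ δ d)
    (hψ : Continuous ψ) (hψ1 : ψ ≠ 1) (hμ : ConjSymplectic F χμ) (ht : SkT σ t)
    {ρ : (Fin m → E) → Module.End ℂ S} {ω : unitary σ (Dg t) →* Module.End ℂ S}
    (hW : IsWeil σ (Dg t) ψ χμ ρ ω)
    {π : GL (Fin m) E →* Module.End ℂ V}
    (hπ : IsSmoothRep π) (hirr : IsIrrRep π) (hc : IsCusp π) (hu : UnitCentral π) :
    ∃ (β : S →ₗ[ℂ] S →ₗ[ℂ] ℂ) (ε : ℂ), (∀ a, (∀ b, β a b = 0) → a = 0) ∧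
      ∀ lam₁ lam₂ : V →ₗ[ℂ] S,
        (∀ (u : unitary σ (Dg t)) w, lam₁ (π u.1 w) = ω u (lam₁ w)) →
        (∀ (u : unitary σ (Dg t)) w, lam₂ (π u.1 w) = ω u (lam₂ w)) →
        ∀ w v c b, β (lam₁ w) c * β (lam₂ v) b = ε * (β (lam₂ w) c * β (lam₁ v) b) := by
  borelize (GL (Fin m) E)
  obtain ⟨β, hβ, hbd⟩ := exists_beta hq hψ hψ1 hμ ht hW
  obtain ⟨B, ε, hB0, hε, hB1, hB⟩ := exists_form t hπ hirr hc hu
  obtain ⟨ϖ, hϖ⟩ := exists_small (E := E)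
  refine ⟨β, ε, hβ.nondeg, ?_⟩
  intro lam₁ lam₂ h₁ h₂ w v c b
  classical
  obtain ⟨l₁, hl₁, hT₁, he₁⟩ := exists_tame hq ht hπ hirr hc hu ω hW.om_smooth lam₁ h₁ {w, v}
  obtain ⟨l₂, hl₂, hT₂, he₂⟩ := exists_tame hq ht hπ hirr hc hu ω hW.om_smooth lam₂ h₂ {w, v}
  have h3 := tame_identity (Measure.haar : Measure (GL (Fin m) E)) hq hψ hψ1 hμ ht hW hβ hbd hπ
    hirr hc hu hB0 hε hB1 hB hm hϖ hl₁ hT₁ hl₂ hT₂ w v c b
  rw [he₁ w (by simp), he₁ v (by simp), he₂ w (by simp), he₂ v (by simp)] at h3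
  exact h3

theorem diag_unique (hm : 0 < m) (hq : QuadDatum σ δ d)
    (hψ : Continuous ψ) (hψ1 : ψ ≠ 1) (hμ : ConjSymplectic F χμ) (ht : SkT σ t)
    {ρ : (Fin m → E) → Module.End ℂ S} {ω : unitary σ (Dg t) →* Module.End ℂ S}
    (hW : IsWeil σ (Dg t) ψ χμ ρ ω)
    {π : GL (Fin m) E →* Module.End ℂ V}
    (hπ : IsSmoothRep π) (hirr : IsIrrRep π) (hc : IsCusp π) (hu : UnitCentral π)
    (lam₁ lam₂ : V →ₗ[ℂ] S)
    (h₁ : ∀ (u : unitary σ (Dg t)) w, lam₁ (π u.1 w) = ω u (lam₁ w))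
    (h₂ : ∀ (u : unitary σ (Dg t)) w, lam₂ (π u.1 w) = ω u (lam₂ w)) (h0 : lam₁ ≠ 0) :
    ∃ c : ℂ, lam₂ = c • lam₁ := by
  obtain ⟨β, ε, hβ, hid⟩ := diag_identity hm hq hψ hψ1 hμ ht hW hπ hirr hc hu
  obtain ⟨v, hv⟩ : ∃ v, lam₁ v ≠ 0 := by
    by_contra h
    push Not at h
    exact h0 (LinearMap.ext h)
  obtain ⟨b, hb⟩ : ∃ b, β (lam₁ v) b ≠ 0 := by
    by_contra h
    push Not at h
    exact hv (hβ _ h)
  have hε : ε = 1 := by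
    have h3 := hid lam₁ lam₁ h₁ h₁ v v b b
    have h4 : β (lam₁ v) b * β (lam₁ v) b ≠ 0 := mul_ne_zero hb hb
    exact mul_right_cancel₀ h4 (by rw [one_mul]; exact h3.symm)
  refine ⟨β (lam₂ v) b / β (lam₁ v) b, LinearMap.ext fun w => ?_⟩
  rw [← sub_eq_zero]
  apply hβ
  intro c
  rw [map_sub, LinearMap.sub_apply, LinearMap.smul_apply, map_smul, LinearMap.smul_apply,
    smul_eq_mul]
  have h5 := hid lam₁ lam₂ h₁ h₂ w v c b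
  rw [hε, one_mul] at h5
  field_simp
  linear_combination (-1 : ℂ) * h5

theorem diag_isom (hm : 0 < m) (hq : QuadDatum σ δ d)
    (hψ : Continuous ψ) (hψ1 : ψ ≠ 1) (hμ : ConjSymplectic F χμ) (ht₁ : SkT σ t₁) (ht₂ : SkT σ t₂)
    {ρ₁ : (Fin m → E) → Module.End ℂ S₁} {ω₁ : unitary σ (Dg t₁) →* Module.End ℂ S₁}
    {ρ₂ : (Fin m → E) → Module.End ℂ S₂} {ω₂ : unitary σ (Dg t₂) →* Module.End ℂ S₂}
    (hW₁ : IsWeil σ (Dg t₁) ψ χμ ρ₁ ω₁) (hW₂ : IsWeil σ (Dg t₂) ψ χμ ρ₂ ω₂)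
    {π : GL (Fin m) E →* Module.End ℂ V}
    (hπ : IsSmoothRep π) (hirr : IsIrrRep π) (hc : IsCusp π) (hu : UnitCentral π)
    (lam₁ : V →ₗ[ℂ] S₁) (lam₂ : V →ₗ[ℂ] S₂)
    (h₁ : ∀ (u : unitary σ (Dg t₁)) w, lam₁ (π u.1 w) = ω₁ u (lam₁ w))
    (h₂ : ∀ (u : unitary σ (Dg t₂)) w, lam₂ (π u.1 w) = ω₂ u (lam₂ w))
    (h0₁ : lam₁ ≠ 0) (h0₂ : lam₂ ≠ 0) :
    ∃ g : GL (Fin m) E, (g : Matrix (Fin m) (Fin m) E).transpose * Dg t₁ *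
      (g : Matrix (Fin m) (Fin m) E).map σ = Dg t₂ := by
  by_contra hiso
  borelize (GL (Fin m) E)
  obtain ⟨β₁, hβ₁, hbd₁⟩ := exists_beta hq hψ hψ1 hμ ht₁ hW₁
  obtain ⟨β₂, hβ₂, hbd₂⟩ := exists_beta hq hψ hψ1 hμ ht₂ hW₂
  obtain ⟨B, ε, hB0, hε, hB1, hB⟩ := exists_form t₂ hπ hirr hc hu
  obtain ⟨ϖ, hϖ⟩ := exists_small (E := E)
  obtain ⟨w, hw⟩ : ∃ w, lam₁ w ≠ 0 := by
    by_contra h
    push Not at h
    exact h0₁ (LinearMap.ext h)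
  obtain ⟨v, hv⟩ : ∃ v, lam₂ v ≠ 0 := by
    by_contra h
    push Not at h
    exact h0₂ (LinearMap.ext h)
  obtain ⟨b, hb⟩ : ∃ b, β₁ (lam₁ w) b ≠ 0 := by
    by_contra h
    push Not at h
    exact hw (hβ₁.nondeg _ h)
  obtain ⟨c, hc'⟩ : ∃ c, β₂ (lam₂ v) c ≠ 0 := by
    by_contra h
    push Not at h
    exact hv (hβ₂.nondeg _ h)
  let μ : Measure (GL (Fin m) E) := Measure.haar
  obtain ⟨l₁, hl₁, hT₁, he₁⟩ := exists_tame hq ht₁ hπ hirr hc hu ω₁ hW₁.om_smooth lam₁ h₁ {w}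
  obtain ⟨l₂, hl₂, hT₂, he₂⟩ := exists_tame hq ht₂ hπ hirr hc hu ω₂ hW₂.om_smooth lam₂ h₂ {v}
  obtain ⟨χ, hχ, hχc⟩ := hu
  obtain ⟨w', v₁, hS⟩ := exists_schur μ hm hπ hirr hc ⟨χ, hχ, hχc⟩ B hB0 hB ϖ hϖ
  have hp := IsTame.isP hπ hχ hχc ω₁ l₁ hl₁ hT₁ w'
  have hr := IsTame.isP hπ hχ hχc ω₂ l₂ hl₂ hT₂ v₁
  have hloc := MR_loc μ hm hq ht₁ ht₂
  have hgood := goodG_ae μ σ _ _ hloc
  obtain ⟨f, hf⟩ := exists_rank_one μ hπ hirr hc ⟨χ, hχ, hχc⟩ B hB w v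
  have h3 := ker_identity (β₁ := β₁) μ hq ht₁ ht₂ hπ B hB1 hB hS l₁ l₂ hp hr hbd₁ hbd₂ hloc w v f hf c b
  have h5 := van_case μ hq hψ hψ1 hμ ht₁ ht₂ hiso hW₁ hW₂ hβ₁ hbd₁ hβ₂ hbd₂ hp hr hm (ad_scl_lt hm hϖ) hgood
  rw [he₁ w (by simp), he₂ v (by simp)] at h3
  refine mul_ne_zero hb hc' (h3.symm.trans ?_)
  rw [integral_congr_ae (g := fun _ => (0 : ℂ)), integral_zero]
  filter_upwards [h5] with g hg
  rw [hg, mul_zero]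

end diag

section general

variable {ψ : AddChar F Circle} {χμ : Eˣ →* ℂˣ} {H H₁ H₂ : Matrix (Fin m) (Fin m) E}

theorem diag_unique' (hm : 0 < m) (hq : QuadDatum σ δ d)
    (hψ : Continuous ψ) (hψ1 : ψ ≠ 1) (hμ : ConjSymplectic F χμ) (ht : SkT σ t) (e : H = Dg t)
    {ρ : (Fin m → E) → Module.End ℂ S} {ω : unitary σ H →* Module.End ℂ S}
    (hW : IsWeil σ H ψ χμ ρ ω)
    {π : GL (Fin m) E →* Module.End ℂ V}
    (hπ : IsSmoothRep π) (hirr : IsIrrRep π) (hc : IsCusp π) (hu : UnitCentral π)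
    (lam₁ lam₂ : V →ₗ[ℂ] S)
    (h₁ : ∀ (u : unitary σ H) w, lam₁ (π u.1 w) = ω u (lam₁ w))
    (h₂ : ∀ (u : unitary σ H) w, lam₂ (π u.1 w) = ω u (lam₂ w)) (h0 : lam₁ ≠ 0) :
    ∃ c : ℂ, lam₂ = c • lam₁ := by
  subst e
  exact diag_unique hm hq hψ hψ1 hμ ht hW hπ hirr hc hu lam₁ lam₂ h₁ h₂ h0

theorem diag_isom' (hm : 0 < m) (hq : QuadDatum σ δ d)
    (hψ : Continuous ψ) (hψ1 : ψ ≠ 1) (hμ : ConjSymplectic F χμ) (ht₁ : SkT σ t₁) (ht₂ : SkT σ t₂)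
    (e₁ : H₁ = Dg t₁) (e₂ : H₂ = Dg t₂)
    {ρ₁ : (Fin m → E) → Module.End ℂ S₁} {ω₁ : unitary σ H₁ →* Module.End ℂ S₁}
    {ρ₂ : (Fin m → E) → Module.End ℂ S₂} {ω₂ : unitary σ H₂ →* Module.End ℂ S₂}
    (hW₁ : IsWeil σ H₁ ψ χμ ρ₁ ω₁) (hW₂ : IsWeil σ H₂ ψ χμ ρ₂ ω₂)
    {π : GL (Fin m) E →* Module.End ℂ V}
    (hπ : IsSmoothRep π) (hirr : IsIrrRep π) (hc : IsCusp π) (hu : UnitCentral π)
    (lam₁ : V →ₗ[ℂ] S₁) (lam₂ : V →ₗ[ℂ] S₂)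
    (h₁ : ∀ (u : unitary σ H₁) w, lam₁ (π u.1 w) = ω₁ u (lam₁ w))
    (h₂ : ∀ (u : unitary σ H₂) w, lam₂ (π u.1 w) = ω₂ u (lam₂ w))
    (h0₁ : lam₁ ≠ 0) (h0₂ : lam₂ ≠ 0) :
    ∃ g : GL (Fin m) E, (g : Matrix (Fin m) (Fin m) E).transpose * H₁ *
      (g : Matrix (Fin m) (Fin m) E).map σ = H₂ := by
  subst e₁ e₂
  exact diag_isom hm hq hψ hψ1 hμ ht₁ ht₂ hW₁ hW₂ hπ hirr hc hu lam₁ lam₂ h₁ h₂ h0₁ h0₂

theorem exists_dgT (hq : QuadDatum σ δ d) (hH : IsSkew σ H) :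
    ∃ (P : GL (Fin m) E) (t : Fin m → Eˣ), SkT σ t ∧ congH σ P H = Dg t := by
  obtain ⟨P, x, h1, h2, h3⟩ := exists_diagH hq hH
  exact ⟨P, fun i => Units.mk0 (x i) (h2 i), h3, h1⟩

theorem comp_ne_zero {π : GL (Fin m) E →* Module.End ℂ V} (P : GL (Fin m) E) {T : V →ₗ[ℂ] S}
    (h0 : T ≠ 0) : T.comp (π P) ≠ 0 := by
  intro h
  apply h0
  apply LinearMap.ext
  intro w
  have h1 := LinearMap.congr_fun h (π P⁻¹ w)
  rw [LinearMap.comp_apply, ← Module.End.mul_apply, ← map_mul, mul_inv_cancel, map_one,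
    Module.End.one_apply] at h1
  exact h1

/-- (MO)(b). -/
theorem mo_unique (hm : 0 < m) (hq : QuadDatum σ δ d) (hψ : Continuous ψ) (hψ1 : ψ ≠ 1)
    (hμ : ConjSymplectic F χμ) (h : IsSkew σ H)
    {ρ : (Fin m → E) → Module.End ℂ S} {ω : unitary σ H →* Module.End ℂ S}
    (hW : IsWeil σ H ψ χμ ρ ω)
    {π : GL (Fin m) E →* Module.End ℂ V}
    (hπ : IsSmoothRep π) (hirr : IsIrrRep π) (hc : IsCusp π) (hu : UnitCentral π)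
    (T₁ T₂ : V →ₗ[ℂ] S) (hT₁ : ∀ (u : unitary σ H) w, T₁ (π u.1 w) = ω u (T₁ w))
    (hT₂ : ∀ (u : unitary σ H) w, T₂ (π u.1 w) = ω u (T₂ w)) (h0 : T₁ ≠ 0) :
    ∃ c : ℂ, T₂ = c • T₁ := by
  obtain ⟨P, t, ht, e⟩ := exists_dgT hq h
  obtain ⟨c, hc'⟩ := diag_unique' hm hq hψ hψ1 hμ ht e (isWeil_congH hq h hψ hψ1 P hW) hπ hirr hc hu
    (T₁.comp (π P)) (T₂.comp (π P)) (fun u w => hom_congU P H ω π T₁ hT₁ u w)
    (fun u w => hom_congU P H ω π T₂ hT₂ u w) (comp_ne_zero P h0)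
  refine ⟨c, LinearMap.ext fun w => ?_⟩
  have h1 := LinearMap.congr_fun hc' (π P⁻¹ w)
  rw [LinearMap.comp_apply, LinearMap.smul_apply, LinearMap.comp_apply, ← Module.End.mul_apply,
    ← map_mul, mul_inv_cancel, map_one, Module.End.one_apply] at h1
  exact h1

/-- (MO)(a). -/
theorem mo_isom (hm : 0 < m) (hq : QuadDatum σ δ d) (hψ : Continuous ψ) (hψ1 : ψ ≠ 1)
    (hμ : ConjSymplectic F χμ) (h₁ : IsSkew σ H₁) (h₂ : IsSkew σ H₂)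
    {ρ₁ : (Fin m → E) → Module.End ℂ S₁} {ω₁ : unitary σ H₁ →* Module.End ℂ S₁}
    {ρ₂ : (Fin m → E) → Module.End ℂ S₂} {ω₂ : unitary σ H₂ →* Module.End ℂ S₂}
    (hW₁ : IsWeil σ H₁ ψ χμ ρ₁ ω₁) (hW₂ : IsWeil σ H₂ ψ χμ ρ₂ ω₂)
    {π : GL (Fin m) E →* Module.End ℂ V}
    (hπ : IsSmoothRep π) (hirr : IsIrrRep π) (hc : IsCusp π) (hu : UnitCentral π)
    (T₁ : V →ₗ[ℂ] S₁) (hT₁ : ∀ (u : unitary σ H₁) w, T₁ (π u.1 w) = ω₁ u (T₁ w)) (h0₁ : T₁ ≠ 0)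
    (T₂ : V →ₗ[ℂ] S₂) (hT₂ : ∀ (u : unitary σ H₂) w, T₂ (π u.1 w) = ω₂ u (T₂ w)) (h0₂ : T₂ ≠ 0) :
    ∃ g : GL (Fin m) E, (g : Matrix (Fin m) (Fin m) E).transpose * H₁ *
      (g : Matrix (Fin m) (Fin m) E).map σ = H₂ := by
  obtain ⟨P₁, t₁, ht₁, e₁⟩ := exists_dgT hq h₁
  obtain ⟨P₂, t₂, ht₂, e₂⟩ := exists_dgT hq h₂
  obtain ⟨g, hg⟩ := diag_isom' hm hq hψ hψ1 hμ ht₁ ht₂ e₁ e₂ (isWeil_congH hq h₁ hψ hψ1 P₁ hW₁)
    (isWeil_congH hq h₂ hψ hψ1 P₂ hW₂) hπ hirr hc hu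
    (T₁.comp (π P₁)) (T₂.comp (π P₂)) (fun u w => hom_congU P₁ H₁ ω₁ π T₁ hT₁ u w)
    (fun u w => hom_congU P₂ H₂ ω₂ π T₂ hT₂ u w) (comp_ne_zero P₁ h0₁) (comp_ne_zero P₂ h0₂)
  refine ⟨P₁ * g * P₂⁻¹, ?_⟩
  rw [congH, congH] at hg
  have hP : (P₂ : Matrix (Fin m) (Fin m) E) * ((P₂⁻¹ : GL (Fin m) E) : Matrix (Fin m) (Fin m) E) =
      1 := by rw [← Units.val_mul, mul_inv_cancel, Units.val_one]
  have hP1 : ((P₂⁻¹ : GL (Fin m) E) : Matrix (Fin m) (Fin m) E).transpose *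
      (P₂ : Matrix (Fin m) (Fin m) E).transpose = 1 := by
    rw [← Matrix.transpose_mul, hP, Matrix.transpose_one]
  have hP2 : (P₂ : Matrix (Fin m) (Fin m) E).map σ *
      ((P₂⁻¹ : GL (Fin m) E) : Matrix (Fin m) (Fin m) E).map σ = 1 := by
    rw [← Matrix.map_mul, hP, Matrix.map_one σ (map_zero σ) (map_one σ)]
  rw [Units.val_mul, Units.val_mul, Matrix.map_mul, Matrix.map_mul, Matrix.transpose_mul,
    Matrix.transpose_mul]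
  calc _ = ((P₂⁻¹ : GL (Fin m) E) : Matrix (Fin m) (Fin m) E).transpose *
      ((g : Matrix (Fin m) (Fin m) E).transpose * ((P₁ : Matrix (Fin m) (Fin m) E).transpose *
        H₁ * (P₁ : Matrix (Fin m) (Fin m) E).map σ) * (g : Matrix (Fin m) (Fin m) E).map σ) *
        ((P₂⁻¹ : GL (Fin m) E) : Matrix (Fin m) (Fin m) E).map σ := by
        simp only [Matrix.mul_assoc]
    _ = (((P₂⁻¹ : GL (Fin m) E) : Matrix (Fin m) (Fin m) E).transpose *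
      (P₂ : Matrix (Fin m) (Fin m) E).transpose) * H₂ * ((P₂ : Matrix (Fin m) (Fin m) E).map σ *
      ((P₂⁻¹ : GL (Fin m) E) : Matrix (Fin m) (Fin m) E).map σ) := by
        rw [hg]
        simp only [Matrix.mul_assoc]
    _ = H₂ := by rw [hP1, hP2, Matrix.one_mul, Matrix.mul_one]

end general

/-- (MO) in the Hom form. -/
theorem moHom (hm : 0 < m) (hq : QuadDatum σ δ d) {π : GL (Fin m) E →* Module.End ℂ V}
    (hπ : IsSmoothRep π) (hirr : IsIrrRep π) (hc : IsCusp π) (hu : UnitCentral π) :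
    MOHom F σ π := by
  intro ψ μ hψ hψ1 hμ
  refine ⟨?_, ?_⟩
  · intro H₁ H₂ S₁ S₂ _ _ _ _ ρ₁ ω₁ ρ₂ ω₂ h₁ h₂ hW₁ hW₂ T₁ T₂ hT₁ hT₂ h0₁ h0₂
    exact mo_isom hm hq hψ hψ1 hμ h₁ h₂ hW₁ hW₂ hπ hirr hc hu T₁ hT₁ h0₁ T₂ hT₂ h0₂
  · intro H S _ _ ρ ω h hW T₁ T₂ hT₁ hT₂ h0
    exact mo_unique hm hq hψ hψ1 hμ h hW hπ hirr hc hu T₁ T₂ hT₁ hT₂ h0

/-- (MO) for bilinear forms. -/
theorem moForm (hm : 0 < m) (hq : QuadDatum σ δ d) {π : GL (Fin m) E →* Module.End ℂ V}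
    (hπ : IsSmoothRep π) (hirr : IsIrrRep π) (hc : IsCusp π) (hu : UnitCentral π) :
    MOForm F σ π := moForm_of_moHom hq hπ (moHom hm hq hπ hirr hc hu)

end SpW.Mo
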