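import Pool.Agent.Work.MP_3615d2_al.WInt
import Pool.Agent.Work.MP_3615d2_al.HC

/-! MP_3615d2_al, multiplicity one (note 6684 (1)): the number of cosets in a Cartan cell. -/

open MeasureTheory Measure Filter Topology Matrix
open scoped NNReal ENNReal

set_option linter.unusedSectionVars false

namespace SpW.Mo

section small

variable {E : Type} [NontriviallyNormedField E] [IsUltrametricDist E]
  {ι : Type} [Fintype ι] [DecidableEq ι]

/-- `1 + y` is in the congruence subgroup when all entries of `y` are at most `ε < 1`. -/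
theorem exists_glK_of_small {ε : ℝ} (h0 : 0 ≤ ε) (h1 : ε < 1) {y : Matrix ι ι E}
    (hy : ∀ i j, ‖y i j‖ ≤ ε) :
    ∃ g ∈ glK ι E ε h0 h1.le, (g : Matrix ι ι E) = 1 + y := by
  have hdet : (1 + y).det ≠ 0 := by
    intro h
    obtain ⟨x, hx, hx0⟩ := Matrix.exists_mulVec_eq_zero_iff.2 h
    have h2 : ∀ i, ‖x i‖ ≤ ε * ‖x‖ := by
      intro i
      have h3 : x i = - (y.mulVec x) i := by
        have h4 := congrFun hx0 i
        rw [Matrix.add_mulVec, Matrix.one_mulVec, Pi.add_apply, Pi.zero_apply] at h4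
        exact eq_neg_of_add_eq_zero_left h4
      rw [h3, norm_neg]
      show ‖∑ j, y i j * x j‖ ≤ _
      refine IsUltrametricDist.norm_sum_le_of_forall_le_of_nonneg
        (mul_nonneg h0 (norm_nonneg _)) fun j _ => ?_
      rw [norm_mul]
      exact mul_le_mul (hy i j) (norm_le_pi_norm x j) (norm_nonneg _) h0
    have h3 : ‖x‖ ≤ ε * ‖x‖ := (pi_norm_le_iff_of_nonneg (mul_nonneg h0 (norm_nonneg _))).2 h2
    have h4 : 0 < ‖x‖ := norm_pos_iff.2 hx
    nlinarith
  set g : GL ι E := Matrix.GeneralLinearGroup.mkOfDetNeZero (1 + y) hdet with hg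
  have hgv : (g : Matrix ι ι E) = 1 + y := rfl
  set P : Matrix ι ι E := ((g⁻¹ : GL ι E) : Matrix ι ι E) with hP
  have hPe : P = 1 - y * P := by
    have h2 : (1 + y) * P = 1 := by
      rw [← hgv, hP, ← Units.val_mul, mul_inv_cancel, Units.val_one]
    rw [add_mul, one_mul] at h2
    exact eq_sub_of_add_eq h2
  have hP1 : ∀ i j, ‖P i j‖ ≤ 1 := by
    intro i j
    obtain ⟨⟨a, b⟩, -, hab⟩ := Finset.exists_max_image (Finset.univ : Finset (ι × ι))
      (fun p => ‖P p.1 p.2‖) ⟨(i, j), Finset.mem_univ _⟩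
    have hm : ∀ i j, ‖P i j‖ ≤ ‖P a b‖ := fun i j => hab (i, j) (Finset.mem_univ _)
    refine (hm i j).trans ?_
    have h2 : ‖P a b‖ ≤ max 1 (ε * ‖P a b‖) := by
      conv_lhs => rw [hPe]
      rw [Matrix.sub_apply, sub_eq_add_neg]
      refine (IsUltrametricDist.norm_add_le_max _ _).trans (max_le_max ?_ ?_)
      · exact norm_one_entry_le a b
      · rw [norm_neg]
        exact mul_entry_le y P h0 (norm_nonneg _) hy hm a b
    rcases le_max_iff.1 h2 with h3 | h3
    · exact h3
    · have h4 := norm_nonneg (P a b)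
      nlinarith
  refine ⟨g, mem_glK.2 ⟨fun i j => ?_, fun i j => ?_⟩, hgv⟩
  · rw [hgv]
    simpa using hy i j
  · show ‖(P - 1) i j‖ ≤ ε
    have h2 : P - 1 = - (y * P) := by
      conv_lhs => rw [hPe]
      abel
    rw [h2, Matrix.neg_apply, norm_neg]
    have h3 := mul_entry_le y P h0 zero_le_one hy hP1 i j
    rwa [mul_one] at h3

/-- The determinant of an integral matrix with integral inverse is a unit. -/
theorem norm_det_of_glK {ε : ℝ} {h0 : 0 ≤ ε} {h1 : ε ≤ 1} {g : GL ι E}
    (hg : g ∈ glK ι E ε h0 h1) : ‖(g : Matrix ι ι E).det‖ = 1 := by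
  have key : ∀ M : Matrix ι ι E, (∀ i j, ‖M i j‖ ≤ 1) → ‖M.det‖ ≤ 1 := by
    intro M hM
    rw [Matrix.det_apply]
    refine IsUltrametricDist.norm_sum_le_of_forall_le_of_nonneg zero_le_one fun p _ => ?_
    have h2 : ‖∏ i, M (p i) i‖ ≤ 1 := by
      rw [norm_prod]
      exact Finset.prod_le_one (fun _ _ => norm_nonneg _) fun i _ => hM _ _
    rcases Int.units_eq_one_or (Equiv.Perm.sign p) with h3 | h3 <;> rw [h3] <;> simpa using h2
  have h2 := key _ (fun i j => glK_entry hg i j)
  have h3 := key _ (fun i j => glK_entry_inv hg i j)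
  have h4 : (g : Matrix ι ι E).det * ((g⁻¹ : GL ι E) : Matrix ι ι E).det = 1 := by
    rw [← Matrix.det_mul, ← Units.val_mul, mul_inv_cancel, Units.val_one, Matrix.det_one]
  have h5 : ‖(g : Matrix ι ι E).det‖ * ‖((g⁻¹ : GL ι E) : Matrix ι ι E).det‖ = 1 := by
    rw [← norm_mul, h4, norm_one]
  have h6 := norm_nonneg (g : Matrix ι ι E).det
  nlinarith [norm_nonneg ((g⁻¹ : GL ι E) : Matrix ι ι E).det]

end small


section vol

variable {E : Type} [NontriviallyNormedField E] [IsUltrametricDist E] [ProperSpace E]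
  [MeasurableSpace E] [BorelSpace E] {n : ℕ}

omit [IsUltrametricDist E] in
theorem mdp {ι : Type} (s : Finset ι) (f : ι → E) : md (∏ i ∈ s, f i) = ∏ i ∈ s, md (f i) := by
  classical
  induction s using Finset.induction_on with
  | empty => rw [Finset.prod_empty, Finset.prod_empty, md_one]
  | insert a s ha ih => rw [Finset.prod_insert ha, Finset.prod_insert ha, md_mul, ih]

/-- The linear automorphism `x ↦ (c_ij x_ij)` of the space of matrices. -/
noncomputable def scaleL (c : Fin n → Fin n → E) (hc : ∀ i j, c i j ≠ 0) :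
    (Fin n → Fin n → E) ≃ₗ[E] (Fin n → Fin n → E) :=
  LinearEquiv.piCongrRight fun i => LinearEquiv.piCongrRight fun j =>
    LinearEquiv.smulOfNeZero E E (c i j) (hc i j)

omit [IsUltrametricDist E] [ProperSpace E] [MeasurableSpace E] [BorelSpace E] in
theorem scaleL_apply (c : Fin n → Fin n → E) (hc : ∀ i j, c i j ≠ 0) (x : Fin n → Fin n → E)
    (i j : Fin n) : scaleL c hc x i j = c i j * x i j := rfl

omit [IsUltrametricDist E] [ProperSpace E] [MeasurableSpace E] [BorelSpace E] in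
theorem det_scaleL (c : Fin n → Fin n → E) (hc : ∀ i j, c i j ≠ 0) :
    LinearMap.det ((scaleL c hc : (Fin n → Fin n → E) ≃ₗ[E] (Fin n → Fin n → E)) :
      (Fin n → Fin n → E) →ₗ[E] (Fin n → Fin n → E)) = ∏ i, ∏ j, c i j := by
  have h1 : ((scaleL c hc : (Fin n → Fin n → E) ≃ₗ[E] (Fin n → Fin n → E)) :
      (Fin n → Fin n → E) →ₗ[E] (Fin n → Fin n → E)) =
      LinearMap.pi (fun i => (LinearMap.pi (fun j =>
        ((c i j • LinearMap.id : E →ₗ[E] E)).comp (LinearMap.proj j)) :
          (Fin n → E) →ₗ[E] (Fin n → E)).comp (LinearMap.proj i)) := by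
    apply LinearMap.ext
    intro x
    funext i j
    rfl
  rw [h1, LinearMap.det_pi]
  refine Finset.prod_congr rfl fun i _ => ?_
  rw [LinearMap.det_pi]
  refine Finset.prod_congr rfl fun j _ => ?_
  rw [LinearMap.det_ring]
  simp

/-- The box of matrices `x` with `‖x i j‖ ≤ ‖c i j‖`. -/
def box (c : Fin n → Fin n → E) : Set (Fin n → Fin n → E) := {x | ∀ i j, ‖x i j‖ ≤ ‖c i j‖}

omit [IsUltrametricDist E] [ProperSpace E] [MeasurableSpace E] [BorelSpace E] in
theorem scaleL_image (c : Fin n → Fin n → E) (hc : ∀ i j, c i j ≠ 0) :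
    scaleL c hc '' (box fun _ _ => (1 : E)) = box c := by
  ext x
  constructor
  · rintro ⟨y, hy, rfl⟩ i j
    rw [scaleL_apply, norm_mul]
    have h1 := hy i j
    rw [norm_one] at h1
    exact mul_le_of_le_one_right (norm_nonneg _) h1
  · intro hx
    refine ⟨(scaleL c hc).symm x, fun i j => ?_, (scaleL c hc).apply_symm_apply x⟩
    have h1 : c i j * (scaleL c hc).symm x i j = x i j := by
      rw [← scaleL_apply c hc, (scaleL c hc).apply_symm_apply]
    have h2 := hx i j
    rw [← h1, norm_mul] at h2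
    rw [norm_one]
    exact le_of_mul_le_mul_left (by rwa [mul_one]) (norm_pos_iff.2 (hc i j))

omit [IsUltrametricDist E] in
/-- The volume of a box. -/
theorem mvol_box (c : Fin n → Fin n → E) (hc : ∀ i j, c i j ≠ 0) :
    mvol (box c : Set (Matrix (Fin n) (Fin n) E)) = (∏ i, ∏ j, ((md (c i j) : ℝ≥0) : ℝ)) *
      mvol (box (fun _ _ => (1 : E)) : Set (Matrix (Fin n) (Fin n) E)) := by
  let _ : MeasurableSpace (Fin n → Fin n → E) := borel _
  have : BorelSpace (Fin n → Fin n → E) := ⟨rfl⟩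
  have h1 := image_linearEquiv (addHaar : Measure (Fin n → Fin n → E)) (scaleL c hc)
    (box fun _ _ => (1 : E))
  rw [scaleL_image, det_scaleL] at h1
  have h2 : md (∏ i, ∏ j, c i j) = ∏ i, ∏ j, md (c i j) := by
    rw [mdp]
    exact Finset.prod_congr rfl fun i _ => mdp _ _
  have h3 : mvol (box c : Set (Matrix (Fin n) (Fin n) E)) =
      ((addHaar : Measure (Fin n → Fin n → E)) (box c)).toReal := rfl
  rw [h3, h1, ENNReal.toReal_mul, h2, ENNReal.coe_toReal]
  push_cast
  rfl

/-- The coset `k (1 + U)`, as a set of matrices. -/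
def cosetBox (k : GL (Fin n) E) (U : Set (Fin n → Fin n → E)) : Set (Fin n → Fin n → E) :=
  {z | (z + fun i j => -((k : Matrix (Fin n) (Fin n) E) i j)) ∈ mulBoth k 1 '' U}

/-- The translate of the image of a box under left multiplication. -/
theorem mvol_cosetBox {k : GL (Fin n) E} {ε : ℝ} {h0 : 0 ≤ ε} {h1 : ε ≤ 1}
    (hk : k ∈ glK (Fin n) E ε h0 h1) (U : Set (Fin n → Fin n → E)) :
    mvol (cosetBox k U : Set (Matrix (Fin n) (Fin n) E)) =
      mvol (U : Set (Matrix (Fin n) (Fin n) E)) := by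
  let _ : MeasurableSpace (Fin n → Fin n → E) := borel _
  have : BorelSpace (Fin n → Fin n → E) := ⟨rfl⟩
  have h5 : mvol (cosetBox k U : Set (Matrix (Fin n) (Fin n) E)) =
      mvol (mulBoth k 1 '' U : Set (Matrix (Fin n) (Fin n) E)) :=
    mvol_translate_aux (mulBoth k 1 '' U) _
  rw [h5]
  have h2 := image_linearEquiv (addHaar : Measure (Fin n → Fin n → E)) (mulBoth k 1) U
  have h3 : md (LinearMap.det ((mulBoth k 1 : (Fin n → Fin n → E) ≃ₗ[E] (Fin n → Fin n → E)) :
      (Fin n → Fin n → E) →ₗ[E] (Fin n → Fin n → E))) = 1 := by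
    rw [det_mulBoth, md_mul, md_pow, md_pow, Units.val_one, Matrix.det_one, md_one, one_pow,
      mul_one]
    have h4 : md (k : Matrix (Fin n) (Fin n) E).det = 1 := by
      rw [md_eq_of_norm_eq (y := (1 : E)) (by rw [norm_det_of_glK hk, norm_one]), md_one]
    rw [h4, one_pow]
  rw [h3, ENNReal.coe_one, one_mul] at h2
  show ((addHaar : Measure (Fin n → Fin n → E)) (mulBoth k 1 '' U)).toReal =
    ((addHaar : Measure (Fin n → Fin n → E)) U).toReal
  rw [h2]

omit [IsUltrametricDist E] [ProperSpace E] [MeasurableSpace E] [BorelSpace E] in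
theorem mem_cosetBox {k : GL (Fin n) E} {U : Set (Fin n → Fin n → E)} {z : Fin n → Fin n → E} :
    z ∈ cosetBox k U ↔ ∃ x ∈ U, (Matrix.of z : Matrix (Fin n) (Fin n) E) =
      (k : Matrix (Fin n) (Fin n) E) * (1 + Matrix.of x) := by
  have key : ∀ x : Fin n → Fin n → E, mulBoth k 1 x =
      ((k : Matrix (Fin n) (Fin n) E) * Matrix.of x : Matrix (Fin n) (Fin n) E) := by
    intro x
    show (k : Matrix (Fin n) (Fin n) E) * Matrix.of x * ((1 : GL (Fin n) E) : Matrix (Fin n) (Fin n) E)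
      = _
    rw [Units.val_one, mul_one]
  constructor
  · rintro ⟨x, hx, h⟩
    refine ⟨x, hx, ?_⟩
    rw [key] at h
    rw [mul_add, mul_one]
    ext i j
    have h1 : ((k : Matrix (Fin n) (Fin n) E) * Matrix.of x) i j =
        z i j + -((k : Matrix (Fin n) (Fin n) E) i j) := congrFun (congrFun h i) j
    rw [Matrix.add_apply, h1]
    show z i j = _
    ring
  · rintro ⟨x, hx, h⟩
    refine ⟨x, hx, ?_⟩
    rw [key]
    funext i j
    have h1 : z i j = ((k : Matrix (Fin n) (Fin n) E) * (1 + Matrix.of x)) i j := by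
      rw [← h]
      rfl
    rw [mul_add, mul_one, Matrix.add_apply] at h1
    show ((k : Matrix (Fin n) (Fin n) E) * Matrix.of x) i j =
      z i j + -((k : Matrix (Fin n) (Fin n) E) i j)
    rw [h1]
    ring

omit [IsUltrametricDist E] [ProperSpace E] [MeasurableSpace E] [BorelSpace E] in
theorem isClosed_box (c : Fin n → Fin n → E) : IsClosed (box c) := by
  have h1 : box c = ⋂ i, ⋂ j, {x : Fin n → Fin n → E | ‖x i j‖ ≤ ‖c i j‖} := by
    ext x
    simp [box]
  rw [h1]
  refine isClosed_iInter fun i => isClosed_iInter fun j => ?_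
  exact isClosed_le (continuous_norm.comp ((continuous_apply j).comp (continuous_apply i)))
    continuous_const

omit [IsUltrametricDist E] [MeasurableSpace E] [BorelSpace E] in
theorem isCompact_box (c : Fin n → Fin n → E) : IsCompact (box c) := by
  have h1 : IsCompact (Set.pi Set.univ fun i : Fin n =>
      Set.pi Set.univ fun j : Fin n => Metric.closedBall (0 : E) ‖c i j‖) :=
    isCompact_univ_pi fun _ => isCompact_univ_pi fun _ => isCompact_closedBall _ _
  refine h1.of_isClosed_subset (isClosed_box c) fun x hx i _ j _ => ?_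
  simpa using hx i j

omit [IsUltrametricDist E] [ProperSpace E] [MeasurableSpace E] [BorelSpace E] in
theorem isClosed_cosetBox [CompleteSpace E] (k : GL (Fin n) E) {U : Set (Fin n → Fin n → E)} (hU : IsClosed U) :
    IsClosed (cosetBox k U) := by
  have h1 : cosetBox k U = (fun z : Fin n → Fin n → E => (mulBoth k 1).symm
      (z + fun i j => -((k : Matrix (Fin n) (Fin n) E) i j))) ⁻¹' U := by
    ext z
    constructor
    · rintro ⟨x, hx, h⟩
      show (mulBoth k 1).symm (z + fun i j => -((k : Matrix (Fin n) (Fin n) E) i j)) ∈ U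
      rw [← h, LinearEquiv.symm_apply_apply]
      exact hx
    · intro h
      exact ⟨_, h, (mulBoth k 1).apply_symm_apply _⟩
  rw [h1]
  refine hU.preimage ?_
  have h2 : Continuous ((mulBoth k 1 : (Fin n → Fin n → E) ≃ₗ[E] (Fin n → Fin n → E)).symm :
      (Fin n → Fin n → E) → (Fin n → Fin n → E)) :=
    ((mulBoth k 1 : (Fin n → Fin n → E) ≃ₗ[E] (Fin n → Fin n → E)).symm :
      (Fin n → Fin n → E) →ₗ[E] (Fin n → Fin n → E)).continuous_of_finiteDimensional
  exact h2.comp (continuous_id.add continuous_const)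

/-- The number of cosets `k dgl(t) K`, `k` in `K`, in the Cartan cell of `dgl(t)`. -/
theorem card_cells_le {ε : ℝ} (h0 : 0 < ε) (h1 : ε ≤ 1) : ∃ C : ℝ, 0 < C ∧
    ∀ (t : Fin n → Eˣ) (s : Finset (GL (Fin n) E)),
      (∀ k ∈ s, k ∈ glK (Fin n) E ε h0.le h1) →
      (∀ k ∈ s, ∀ k' ∈ s, (dgl t)⁻¹ * (k⁻¹ * k') * dgl t ∈ glK (Fin n) E ε h0.le h1 → k = k') →
      (s.card : ℝ) ≤ C * ∏ i, ∏ j, max 1 ((md ((t j : E) / t i) : ℝ≥0) : ℝ) := by
  classical
  obtain ⟨e, he0, he1⟩ := NormedField.exists_norm_lt E h0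
  have he : e ≠ 0 := norm_pos_iff.1 he0
  have he1' : ‖e‖ < 1 := he1.trans_le h1
  have hmde : 0 < ((md e : ℝ≥0) : ℝ) := NNReal.coe_pos.2 (md_pos he)
  refine ⟨(((md e : ℝ≥0) : ℝ) ^ (n * n))⁻¹, inv_pos.2 (pow_pos hmde _), fun t s hs hinj => ?_⟩
  have ht0 : ∀ i, 0 < ‖(t i : E)‖ := fun i => norm_pos_iff.2 (t i).ne_zero
  set c : Fin n → Fin n → E := fun i j =>
    e * (if ‖(t i : E)‖ ≤ ‖(t j : E)‖ then (t i : E) / t j else 1) with hcdef
  have hc : ∀ i j, c i j ≠ 0 := by
    intro i j
    refine mul_ne_zero he ?_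
    split_ifs
    · exact div_ne_zero (t i).ne_zero (t j).ne_zero
    · exact one_ne_zero
  have hc1 : ∀ i j, ‖c i j‖ ≤ ‖e‖ := by
    intro i j
    simp only [hcdef]
    rw [norm_mul]
    refine mul_le_of_le_one_right (norm_nonneg _) ?_
    split_ifs with h
    · rw [norm_div]
      exact (div_le_one (ht0 j)).2 h
    · rw [norm_one]
  have hc2 : ∀ i j, ‖c i j‖ * ‖(t j : E)‖ ≤ ‖e‖ * ‖(t i : E)‖ := by
    intro i j
    simp only [hcdef]
    rw [norm_mul, mul_assoc]
    refine mul_le_mul_of_nonneg_left ?_ (norm_nonneg _)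
    split_ifs with h
    · rw [norm_div, div_mul_cancel₀ _ (ht0 j).ne']
    · rw [norm_one, one_mul]
      exact (not_le.1 h).le
  have hcmd : ∀ i j, ((md (c i j) : ℝ≥0) : ℝ) * max 1 ((md ((t j : E) / t i) : ℝ≥0) : ℝ) =
      ((md e : ℝ≥0) : ℝ) := by
    intro i j
    simp only [hcdef]
    rw [md_mul, NNReal.coe_mul, mul_assoc]
    have h5 : md ((t j : E) / t i) * md ((t i : E) / t j) = 1 := by
      rw [← md_mul, div_mul_div_comm, mul_comm (t j : E) (t i : E),
        div_self (mul_ne_zero (t i).ne_zero (t j).ne_zero), md_one]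
    split_ifs with h
    · have h6 : md ((t i : E) / t j) ≤ 1 := by
        refine md_le_one ?_
        rw [norm_div]
        exact (div_le_one (ht0 j)).2 h
      have h7 : (1 : ℝ≥0) ≤ md ((t j : E) / t i) := by
        by_contra h8
        have h9 := mul_lt_one_of_nonneg_of_lt_one_left (zero_le) (not_le.1 h8) h6
        exact absurd h5 h9.ne
      rw [max_eq_right (by exact_mod_cast h7), ← NNReal.coe_mul, mul_comm (md ((t i : E) / t j)),
        h5, NNReal.coe_one, mul_one]
    · have h6 : md ((t j : E) / t i) ≤ 1 := by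
        refine md_le_one ?_
        rw [norm_div]
        exact (div_le_one (ht0 i)).2 (not_le.1 h).le
      rw [md_one, NNReal.coe_one, one_mul, max_eq_left (by exact_mod_cast h6), mul_one]
  -- the elements `1 + x` and their conjugates
  have hu : ∀ x ∈ box c, ∃ u : GL (Fin n) E, (u : Matrix (Fin n) (Fin n) E) = 1 + Matrix.of x ∧
      (dgl t)⁻¹ * u * dgl t ∈ glK (Fin n) E ε h0.le h1 := by
    intro x hx
    obtain ⟨u, -, hu⟩ := exists_glK_of_small (norm_nonneg e) he1'
      (y := Matrix.of x) (fun i j => (hx i j).trans (hc1 i j))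
    obtain ⟨g, hg, hgv⟩ := exists_glK_of_small (norm_nonneg e) he1'
      (y := Matrix.of fun i j => (t i : E)⁻¹ * x i j * t j) (fun i j => by
        show ‖(t i : E)⁻¹ * x i j * t j‖ ≤ ‖e‖
        rw [norm_mul, norm_mul, norm_inv, mul_assoc, inv_mul_le_iff₀ (ht0 i),
          mul_comm ‖(t i : E)‖]
        exact (mul_le_mul_of_nonneg_right (hx i j) (norm_nonneg _)).trans (hc2 i j))
    refine ⟨u, hu, ?_⟩
    have h5 : (dgl t)⁻¹ * u * dgl t = g := by
      apply Units.ext
      rw [Units.val_mul, Units.val_mul, dgl_val, dgl_inv_val, hu, hgv, mul_add, mul_one, add_mul]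
      congr 1
      · rw [Matrix.diagonal_mul_diagonal, ← Matrix.diagonal_one]
        congr 1
        funext i
        rw [← Units.val_mul, inv_mul_cancel, Units.val_one]
      · ext i j
        rw [Matrix.mul_diagonal, Matrix.diagonal_mul, Units.val_inv_eq_inv_val]
        rfl
    rw [h5]
    exact ⟨fun i j => (hg.1 i j).trans he1.le, fun i j => (hg.2 i j).trans he1.le⟩
  have hdisj : (s : Set (GL (Fin n) E)).PairwiseDisjoint fun k => cosetBox k (box c) := by
    intro k hk k' hk' hne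
    rw [Function.onFun, Set.disjoint_left]
    intro z hz hz'
    refine hne (hinj k hk k' hk' ?_)
    obtain ⟨x, hx, h5⟩ := mem_cosetBox.1 hz
    obtain ⟨x', hx', h5'⟩ := mem_cosetBox.1 hz'
    obtain ⟨u, hu1, hu2⟩ := hu x hx
    obtain ⟨u', hu1', hu2'⟩ := hu x' hx'
    have h6 : k * u = k' * u' := by
      apply Units.ext
      rw [Units.val_mul, Units.val_mul, hu1, hu1', ← h5, ← h5']
    have h7 : k⁻¹ * k' = u * u'⁻¹ := by
      rw [eq_mul_inv_iff_mul_eq, mul_assoc, ← h6, inv_mul_cancel_left]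
    have h8 : (dgl t)⁻¹ * (k⁻¹ * k') * dgl t =
        ((dgl t)⁻¹ * u * dgl t) * ((dgl t)⁻¹ * u' * dgl t)⁻¹ := by
      rw [h7]
      group
    rw [h8]
    exact mul_mem hu2 (inv_mem hu2')
  have hsub : ∀ k ∈ s, cosetBox k (box c) ⊆ box fun _ _ => (1 : E) := by
    intro k hk z hz i j
    obtain ⟨x, hx, h5⟩ := mem_cosetBox.1 hz
    have h6 : z i j = ((k : Matrix (Fin n) (Fin n) E) * (1 + Matrix.of x)) i j := by
      rw [← h5]
      rfl
    rw [h6, norm_one]
    have h7 := mul_entry_le (k : Matrix (Fin n) (Fin n) E) (1 + Matrix.of x) zero_le_one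
      zero_le_one (fun i j => glK_entry (hs k hk) i j) (fun i j => by
        rw [Matrix.add_apply]
        exact (IsUltrametricDist.norm_add_le_max _ _).trans
          (max_le (norm_one_entry_le i j) (((hx i j).trans (hc1 i j)).trans he1'.le))) i j
    rwa [mul_one] at h7
  -- volumes
  let _ : MeasurableSpace (Fin n → Fin n → E) := borel _
  have : BorelSpace (Fin n → Fin n → E) := ⟨rfl⟩
  set V : ℝ := mvol (box (fun _ _ => (1 : E)) : Set (Matrix (Fin n) (Fin n) E)) with hV
  have hfin : ∀ c : Fin n → Fin n → E, (addHaar : Measure (Fin n → Fin n → E)) (box c) ≠ ∞ :=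
    fun c => (isCompact_box c).measure_lt_top.ne
  have hVpos : 0 < V := by
    refine ENNReal.toReal_pos ?_ (hfin _)
    refine (measure_pos_of_mem_nhds _ (x := 0) ?_).ne'
    have h5 : ∀ᶠ x : Fin n → Fin n → E in 𝓝 0, ∀ i j, ‖x i j‖ ≤ 1 :=
      Filter.eventually_all.2 fun i => Filter.eventually_all.2 fun j => by
        have h6 : Continuous fun x : Fin n → Fin n → E => ‖x i j‖ :=
          continuous_norm.comp ((continuous_apply j).comp (continuous_apply i))
        have h8 : ‖(0 : Fin n → Fin n → E) i j‖ < 1 := by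
          show ‖(0 : E)‖ < 1
          rw [norm_zero]
          exact zero_lt_one
        exact (h6.continuousAt.eventually_lt continuousAt_const h8).mono fun x hx => hx.le
    filter_upwards [h5] with x hx i j
    rw [norm_one]
    exact hx i j
  have hsum : (s.card : ℝ) * mvol (box c : Set (Matrix (Fin n) (Fin n) E)) ≤ V := by
    have h5 := measure_biUnion_finset (μ := (addHaar : Measure (Fin n → Fin n → E))) hdisj
      fun k _ => (isClosed_cosetBox k (isClosed_box c)).measurableSet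
    have h6 : (addHaar : Measure (Fin n → Fin n → E)) (⋃ k ∈ s, cosetBox k (box c)) ≤
        (addHaar : Measure (Fin n → Fin n → E)) (box fun _ _ => (1 : E)) :=
      measure_mono (Set.iUnion₂_subset hsub)
    rw [h5] at h6
    have h7 : ∀ k ∈ s, (addHaar : Measure (Fin n → Fin n → E)) (cosetBox k (box c)) ≠ ∞ :=
      fun k hk => ((measure_mono (hsub k hk)).trans_lt (isCompact_box _).measure_lt_top).ne
    have h8 := ENNReal.toReal_mono (hfin _) h6
    rw [ENNReal.toReal_sum h7] at h8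
    have h9 : ∀ k ∈ s, ((addHaar : Measure (Fin n → Fin n → E)) (cosetBox k (box c))).toReal =
        mvol (box c : Set (Matrix (Fin n) (Fin n) E)) := fun k hk => mvol_cosetBox (hs k hk) _
    rw [Finset.sum_congr rfl h9, Finset.sum_const, nsmul_eq_mul] at h8
    exact h8
  rw [mvol_box c hc, ← hV] at hsum
  have hP : (∏ i, ∏ j, ((md (c i j) : ℝ≥0) : ℝ)) *
      (∏ i, ∏ j, max 1 ((md ((t j : E) / t i) : ℝ≥0) : ℝ)) = ((md e : ℝ≥0) : ℝ) ^ (n * n) := by
    rw [← Finset.prod_mul_distrib]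
    have h5 : ∀ i ∈ (Finset.univ : Finset (Fin n)), (∏ j, ((md (c i j) : ℝ≥0) : ℝ)) *
        (∏ j, max 1 ((md ((t j : E) / t i) : ℝ≥0) : ℝ)) = ((md e : ℝ≥0) : ℝ) ^ n := by
      intro i _
      rw [← Finset.prod_mul_distrib, Finset.prod_congr rfl fun j _ => hcmd i j, Finset.prod_const,
        Finset.card_univ, Fintype.card_fin]
    rw [Finset.prod_congr rfl h5, Finset.prod_const, Finset.card_univ, Fintype.card_fin, ← pow_mul]
  have hP0 : 0 < ∏ i, ∏ j, max 1 ((md ((t j : E) / t i) : ℝ≥0) : ℝ) :=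
    Finset.prod_pos fun i _ => Finset.prod_pos fun j _ => lt_max_of_lt_left zero_lt_one
  have h5 : (s.card : ℝ) * (∏ i, ∏ j, ((md (c i j) : ℝ≥0) : ℝ)) ≤ 1 := by
    have h6 : ((s.card : ℝ) * (∏ i, ∏ j, ((md (c i j) : ℝ≥0) : ℝ))) * V ≤ 1 * V := by
      rw [one_mul, mul_assoc]
      exact hsum
    exact le_of_mul_le_mul_right h6 hVpos
  have h6 : (s.card : ℝ) * ((md e : ℝ≥0) : ℝ) ^ (n * n) ≤
      ∏ i, ∏ j, max 1 ((md ((t j : E) / t i) : ℝ≥0) : ℝ) := by
    rw [← hP, ← mul_assoc]
    exact mul_le_of_le_one_left hP0.le h5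
  rw [inv_mul_eq_div, le_div_iff₀ (pow_pos hmde _)]
  exact h6

end vol

end SpW.Mo
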