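import Mathlib

/-! MP_3615d2_al, multiplicity one: the inequality sum |a_i - a_j| <= sum |a_i + a_j| (note 6684 (1)). -/

namespace SpW.Mo

/-- Truncated sign. -/
def sg (t : ℕ) (x : ℤ) : ℤ := if (t : ℤ) < |x| then x.sign else 0

theorem abs_add_sub_abs_sub (x y : ℤ) :
    |x + y| - |x - y| = 2 * (x.sign * y.sign * min |x| |y|) := by
  rcases lt_trichotomy x 0 with hx | hx | hx <;> rcases lt_trichotomy y 0 with hy | hy | hy
  · rw [Int.sign_eq_neg_one_of_neg hx, Int.sign_eq_neg_one_of_neg hy, abs_of_neg hx, abs_of_neg hy,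
      abs_of_neg (add_neg hx hy)]
    rcases le_total x y with h | h
    · rw [abs_of_nonpos (sub_nonpos.2 h), min_eq_right (by omega)]; ring
    · rw [abs_of_nonneg (sub_nonneg.2 h), min_eq_left (by omega)]; ring
  · subst hy; simp
  · rw [Int.sign_eq_neg_one_of_neg hx, Int.sign_eq_one_of_pos hy, abs_of_neg hx, abs_of_pos hy,
      abs_of_neg (by omega : x - y < 0)]
    rcases le_total (-x) y with h | h
    · rw [abs_of_nonneg (by omega), min_eq_left h]; ring
    · rw [abs_of_nonpos (by omega), min_eq_right h]; ring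
  · subst hx; simp
  · subst hx; simp
  · subst hx; simp
  · rw [Int.sign_eq_one_of_pos hx, Int.sign_eq_neg_one_of_neg hy, abs_of_pos hx, abs_of_neg hy,
      abs_of_pos (by omega : 0 < x - y)]
    rcases le_total x (-y) with h | h
    · rw [abs_of_nonpos (by omega), min_eq_left h]; ring
    · rw [abs_of_nonneg (by omega), min_eq_right h]; ring
  · subst hy; simp
  · rw [Int.sign_eq_one_of_pos hx, Int.sign_eq_one_of_pos hy, abs_of_pos hx, abs_of_pos hy,
      abs_of_pos (by omega : 0 < x + y)]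
    rcases le_total x y with h | h
    · rw [abs_of_nonpos (sub_nonpos.2 h), min_eq_left h]; ring
    · rw [abs_of_nonneg (sub_nonneg.2 h), min_eq_right h]; ring

theorem sum_sg (N : ℕ) (x y : ℤ) (hx : |x| ≤ N) (_hy : |y| ≤ N) :
    ∑ t ∈ Finset.range N, sg t x * sg t y = x.sign * y.sign * min |x| |y| := by
  have h1 : ∀ t ∈ Finset.range N, sg t x * sg t y =
      if (t : ℤ) < min |x| |y| then x.sign * y.sign else 0 := by
    intro t _
    unfold sg
    by_cases h1 : (t : ℤ) < |x| <;> by_cases h2 : (t : ℤ) < |y|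
    · rw [if_pos h1, if_pos h2, if_pos (lt_min h1 h2)]
    · rw [if_neg h2, mul_zero, if_neg fun h => h2 (h.trans_le (min_le_right _ _))]
    · rw [if_neg h1, zero_mul, if_neg fun h => h1 (h.trans_le (min_le_left _ _))]
    · rw [if_neg h1, zero_mul, if_neg fun h => h1 (h.trans_le (min_le_left _ _))]
  rw [Finset.sum_congr rfl h1, ← Finset.sum_filter, Finset.sum_const, nsmul_eq_mul, mul_comm]
  congr 1
  obtain ⟨m, hm⟩ : ∃ m : ℕ, min |x| |y| = m :=
    ⟨(min |x| |y|).toNat, (Int.toNat_of_nonneg (le_min (abs_nonneg _) (abs_nonneg _))).symm⟩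
  rw [hm]
  have h2 : (Finset.range N).filter (fun t : ℕ => (t : ℤ) < m) = Finset.range m := by
    ext t
    have : (m : ℤ) ≤ N := hm ▸ (min_le_left _ _).trans hx
    simp only [Finset.mem_filter, Finset.mem_range]
    omega
  rw [h2, Finset.card_range]

theorem sum_abs_sub_le {ι : Type*} [Fintype ι] (a : ι → ℤ) :
    ∑ i, ∑ j, |a i - a j| ≤ ∑ i, ∑ j, |a i + a j| := by
  obtain ⟨N, hN⟩ : ∃ N : ℕ, ∀ i, |a i| ≤ N := by
    refine ⟨∑ i, (a i).natAbs, fun i => ?_⟩
    rw [Int.abs_eq_natAbs]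
    exact_mod_cast Finset.single_le_sum (f := fun i => (a i).natAbs) (fun _ _ => Nat.zero_le _)
      (Finset.mem_univ i)
  have h1 : ∑ i, ∑ j, |a i + a j| - ∑ i, ∑ j, |a i - a j| =
      2 * ∑ t ∈ Finset.range N, (∑ i, sg t (a i)) ^ 2 := by
    rw [← Finset.sum_sub_distrib, Finset.mul_sum]
    have h2 : ∀ t ∈ Finset.range N, 2 * (∑ i, sg t (a i)) ^ 2 =
        ∑ i, ∑ j, 2 * (sg t (a i) * sg t (a j)) := by
      intro t _
      rw [sq, Finset.sum_mul_sum, Finset.mul_sum]
      refine Finset.sum_congr rfl fun i _ => ?_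
      rw [Finset.mul_sum]
    rw [Finset.sum_congr rfl h2, Finset.sum_comm]
    refine Finset.sum_congr rfl fun i _ => ?_
    rw [← Finset.sum_sub_distrib, Finset.sum_comm]
    refine Finset.sum_congr rfl fun j _ => ?_
    rw [abs_add_sub_abs_sub, ← sum_sg N _ _ (hN i) (hN j), Finset.mul_sum]
  have h3 : 0 ≤ ∑ t ∈ Finset.range N, (∑ i, sg t (a i)) ^ 2 :=
    Finset.sum_nonneg fun _ _ => sq_nonneg _
  linarith

/-- The sum over the Cartan cells converges. -/
theorem summable_pow_sum_natAbs {ι : Type*} [Fintype ι] {r : ℝ} (h0 : 0 ≤ r) (h1 : r < 1) :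
    Summable fun a : ι → ℤ => r ^ (∑ i, (a i).natAbs) := by
  classical
  have hz : Summable fun k : ℤ => r ^ k.natAbs := by
    refine Summable.of_nat_of_neg ?_ ?_
    · simpa using summable_geometric_of_lt_one h0 h1
    · simpa using summable_geometric_of_lt_one h0 h1
  refine summable_of_sum_le (c := (∑' k : ℤ, r ^ k.natAbs) ^ Fintype.card ι)
    (fun a => pow_nonneg h0 _) fun s => ?_
  set t : Finset ℤ := s.biUnion fun a => Finset.univ.image a with ht
  have hst : s ⊆ Fintype.piFinset fun _ : ι => t := by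
    intro a ha
    rw [Fintype.mem_piFinset]
    intro i
    rw [ht, Finset.mem_biUnion]
    exact ⟨a, ha, Finset.mem_image_of_mem _ (Finset.mem_univ i)⟩
  calc ∑ a ∈ s, r ^ (∑ i, (a i).natAbs)
      ≤ ∑ a ∈ Fintype.piFinset fun _ : ι => t, r ^ (∑ i, (a i).natAbs) :=
        Finset.sum_le_sum_of_subset_of_nonneg hst fun _ _ _ => pow_nonneg h0 _
    _ = ∑ a ∈ Fintype.piFinset fun _ : ι => t, ∏ i, r ^ (a i).natAbs :=
        Finset.sum_congr rfl fun a _ => (Finset.prod_pow_eq_pow_sum _ _ _).symm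
    _ = ∏ _i : ι, ∑ k ∈ t, r ^ k.natAbs := (Finset.prod_univ_sum (fun _ => t)
        fun _ k => r ^ k.natAbs).symm
    _ ≤ ∏ _i : ι, ∑' k : ℤ, r ^ k.natAbs :=
        Finset.prod_le_prod (fun _ _ => Finset.sum_nonneg fun _ _ => pow_nonneg h0 _)
          fun _ _ => hz.sum_le_tsum _ fun _ _ => pow_nonneg h0 _
    _ = (∑' k : ℤ, r ^ k.natAbs) ^ Fintype.card ι := by
        rw [Finset.prod_const, Finset.card_univ]

end SpW.Mo
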