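import Pool.Agent.Work.MP_3615d2_al.Quad
import Pool.Agent.Work.MP_3615d2_al.ModDet
import Pool.Agent.Work.MP_3615d2_al.Cartan
import Pool.Agent.Work.MP_3615d2_al.Unimod

/-!
MP_3615d2_al, multiplicity one: the zero set of a nonzero polynomial over a locally compact field
is a null set; almost every `g` has a regular semisimple `g† g`.
-/

open MeasureTheory Measure Filter Topology
open scoped NNReal ENNReal

namespace SpW.Mo

section mv

variable {F : Type} [NontriviallyNormedField F] [ProperSpace F] [MeasurableSpace F] [BorelSpace F]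

/-- The zero set of a nonzero polynomial in `F^n` is null. -/
theorem mvpoly_null (μ : Measure F) [μ.IsAddHaarMeasure] : ∀ (n : ℕ)
    (p : MvPolynomial (Fin n) F), p ≠ 0 →
    (Measure.pi fun _ : Fin n => μ) {x | MvPolynomial.eval x p = 0} = 0 := by
  intro n
  induction n with
  | zero =>
    intro p hp
    have h1 : {x : Fin 0 → F | MvPolynomial.eval x p = 0} = ∅ := by
      ext x
      simp only [Set.mem_ofPred_eq, Set.mem_empty_iff_false, iff_false]
      intro hx
      apply hp
      have h2 := MvPolynomial.eq_C_of_isEmpty p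
      rw [h2, MvPolynomial.eval_C] at hx
      rw [h2, hx, map_zero]
    rw [h1, measure_empty]
  | succ n ih =>
    intro p hp
    have hq : MvPolynomial.finSuccEquiv F n p ≠ 0 := by
      intro h
      exact hp ((MvPolynomial.finSuccEquiv F n).injective (by rw [h, map_zero]))
    set P := MvPolynomial.finSuccEquiv F n p with hP
    have hlc : P.leadingCoeff ≠ 0 := Polynomial.leadingCoeff_ne_zero.2 hq
    have h1 := ih _ hlc
    have mp := measurePreserving_piFinSuccAbove (fun _ : Fin (n + 1) => μ) 0
    set A : Set (F × (Fin n → F)) := {y | MvPolynomial.eval (Fin.cons y.1 y.2 : Fin (n + 1) → F) p = 0}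
      with hA
    have hcl : IsClosed A := by
      refine isClosed_eq ((MvPolynomial.continuous_eval p).comp ?_) continuous_const
      refine continuous_pi fun i => ?_
      refine Fin.cases ?_ (fun j => ?_) i
      · simpa using continuous_fst
      · exact (continuous_apply j).comp continuous_snd
    have h2 : {x : Fin (n + 1) → F | MvPolynomial.eval x p = 0} =
        (MeasurableEquiv.piFinSuccAbove (fun _ => F) 0) ⁻¹' A := by
      ext x
      simp only [Set.mem_ofPred_eq, Set.mem_preimage, hA]
      have h3 : (Fin.cons ((MeasurableEquiv.piFinSuccAbove (fun _ => F) 0) x).1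
          ((MeasurableEquiv.piFinSuccAbove (fun _ => F) 0) x).2 : Fin (n + 1) → F) = x := by
        funext i
        refine Fin.cases ?_ (fun j => ?_) i
        · rfl
        · rfl
      rw [h3]
    rw [h2, mp.measure_preimage hcl.measurableSet.nullMeasurableSet]
    rw [Measure.prod_apply_symm hcl.measurableSet, lintegral_eq_zero_iff
      (measurable_measure_prodMk_right hcl.measurableSet)]
    have h4 : ∀ᵐ s ∂(Measure.pi fun _ : Fin n => μ), MvPolynomial.eval s P.leadingCoeff ≠ 0 := by
      rw [ae_iff]
      simpa using h1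
    classical
    filter_upwards [h4] with s hs
    show μ ((fun x => (x, s)) ⁻¹' A) = 0
    have h5 : (Polynomial.map (MvPolynomial.eval s) P) ≠ 0 := by
      intro h
      apply hs
      have h6 := congrArg (fun r => Polynomial.coeff r P.natDegree) h
      simpa using h6
    have h7 : ((fun x => (x, s)) ⁻¹' A) ⊆
        ((Polynomial.map (MvPolynomial.eval s) P).roots.toFinset : Set F) := by
      intro y hy
      simp only [Set.mem_preimage, hA, Set.mem_ofPred_eq] at hy
      rw [MvPolynomial.eval_eq_eval_mv_eval'] at hy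
      simp only [Finset.mem_coe, Multiset.mem_toFinset]
      rw [Polynomial.mem_roots h5]
      exact hy
    exact measure_mono_null h7 (Finset.measure_zero _ _)

end mv

section fd

variable {F : Type} [NontriviallyNormedField F] [ProperSpace F]
  {W : Type} [NormedAddCommGroup W] [NormedSpace F W] [FiniteDimensional F W] [MeasurableSpace W]
  [BorelSpace W]

/-- The zero set of a nonzero polynomial function on a finite dimensional space is null. -/
theorem poly_null (ν : Measure W) [ν.IsAddHaarMeasure] {n : ℕ} (e : W ≃ₗ[F] (Fin n → F))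
    (p : MvPolynomial (Fin n) F) (hp : p ≠ 0) : ν {w | MvPolynomial.eval (e w) p = 0} = 0 := by
  let _ : MeasurableSpace F := borel F
  have i2 : BorelSpace F := ⟨rfl⟩
  let μ : Measure F := addHaar
  have i0 : ProperSpace W := FiniteDimensional.proper F W
  let e' : W ≃L[F] (Fin n → F) := e.toContinuousLinearEquiv
  have i3 : (ν.map e').IsAddHaarMeasure := e'.isAddHaarMeasure_map ν
  have h1 := mvpoly_null μ n p hp
  have h0 : (Measure.pi fun _ : Fin n => μ) ≠ 0 := by
    intro h
    have h5 := (isOpen_univ (X := Fin n → F)).measure_pos (Measure.pi fun _ : Fin n => μ)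
      Set.univ_nonempty
    rw [h] at h5
    simp at h5
  have h2 : ν.map e' ≪ (Measure.pi fun _ : Fin n => μ) :=
    absolutelyContinuous_of_isAddLeftInvariant _ _ h0
  have h3 : (ν.map e') {x | MvPolynomial.eval x p = 0} = 0 := h2 h1
  have hcl : IsClosed {x : Fin n → F | MvPolynomial.eval x p = 0} :=
    isClosed_eq (MvPolynomial.continuous_eval p) continuous_const
  rw [Measure.map_apply e'.continuous.measurable hcl.measurableSet] at h3
  exact h3

end fd

/-! ### Polynomial functions with values in an extension -/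

section pol

variable {F E : Type} [Field F] [Field E] [Algebra F E] {W : Type} [AddCommGroup W] [Module F W]

/-- The polynomial functions on the `F`-vector space `W` with values in the extension `E`. -/
def PolF (F E W : Type) [Field F] [Field E] [Algebra F E] [AddCommGroup W] [Module F W] :
    Subalgebra E (W → E) :=
  Algebra.adjoin E (Set.range fun l : W →ₗ[F] E => (l : W → E))

theorem linear_mem_PolF (l : W →ₗ[F] E) : (l : W → E) ∈ PolF F E W :=
  Algebra.subset_adjoin ⟨l, rfl⟩

theorem const_mem_PolF (c : E) : (fun _ : W => c) ∈ PolF F E W := (PolF F E W).algebraMap_mem c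

theorem mul_mem_PolF {f g : W → E} (hf : f ∈ PolF F E W) (hg : g ∈ PolF F E W) :
    (fun w => f w * g w) ∈ PolF F E W := (PolF F E W).mul_mem hf hg

theorem sum_mem_PolF {ι : Type} (s : Finset ι) {f : ι → W → E} (hf : ∀ i ∈ s, f i ∈ PolF F E W) :
    (fun w => ∑ i ∈ s, f i w) ∈ PolF F E W := by
  have h : (fun w => ∑ i ∈ s, f i w) = ∑ i ∈ s, f i := by
    funext w
    rw [Finset.sum_apply]
  rw [h]
  exact (PolF F E W).sum_mem hf

theorem neg_mem_PolF {f : W → E} (hf : f ∈ PolF F E W) : (fun w => - f w) ∈ PolF F E W :=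
  (PolF F E W).neg_mem hf

theorem sig_mem_PolF (σ : E ≃ₐ[F] E) {f : W → E} (hf : f ∈ PolF F E W) :
    (fun w => σ (f w)) ∈ PolF F E W := by
  induction hf using Algebra.adjoin_induction with
  | mem x hx =>
    obtain ⟨l, rfl⟩ := hx
    exact linear_mem_PolF (σ.toLinearMap.comp l)
  | algebraMap r => exact const_mem_PolF (σ r)
  | add x y _ _ hx hy =>
    have h : (fun w => σ ((x + y) w)) = (fun w => σ (x w)) + fun w => σ (y w) := by
      funext w
      simp
    rw [h]
    exact (PolF F E W).add_mem hx hy
  | mul x y _ _ hx hy =>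
    have h : (fun w => σ ((x * y) w)) = (fun w => σ (x w)) * fun w => σ (y w) := by
      funext w
      simp
    rw [h]
    exact (PolF F E W).mul_mem hx hy

/-- A polynomial function is given by a polynomial in coordinates. -/
theorem PolF_exists {n : ℕ} (e : W ≃ₗ[F] (Fin n → F)) {f : W → E} (hf : f ∈ PolF F E W) :
    ∃ p : MvPolynomial (Fin n) E, ∀ w, f w = MvPolynomial.eval (fun i => algebraMap F E (e w i)) p := by
  induction hf using Algebra.adjoin_induction with
  | mem x hx =>
    obtain ⟨l, rfl⟩ := hx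
    refine ⟨∑ i, MvPolynomial.C (l (e.symm (Pi.single i 1))) * MvPolynomial.X i, fun w => ?_⟩
    have h1 : w = ∑ i, e w i • e.symm (Pi.single i 1) := by
      apply e.injective
      rw [_root_.map_sum]
      funext j
      rw [Finset.sum_apply, Finset.sum_eq_single j]
      · simp
      · intro b _ hb
        simp [Pi.single_eq_of_ne (Ne.symm hb)]
      · simp
    show l w = _
    conv_lhs => rw [h1]
    rw [_root_.map_sum, _root_.map_sum]
    refine Finset.sum_congr rfl fun i _ => ?_
    rw [map_smul, map_mul, MvPolynomial.eval_C, MvPolynomial.eval_X, Algebra.smul_def, mul_comm]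
  | algebraMap r => exact ⟨MvPolynomial.C r, fun w => by rw [MvPolynomial.eval_C]; rfl⟩
  | add x y _ _ hx hy =>
    obtain ⟨p, hp⟩ := hx
    obtain ⟨q, hq⟩ := hy
    exact ⟨p + q, fun w => by rw [map_add, ← hp, ← hq]; rfl⟩
  | mul x y _ _ hx hy =>
    obtain ⟨p, hp⟩ := hx
    obtain ⟨q, hq⟩ := hy
    exact ⟨p * q, fun w => by rw [map_mul, ← hp, ← hq]; rfl⟩

theorem exists_component {n : ℕ} (l : E →ₗ[F] F) (p : MvPolynomial (Fin n) E) :
    ∃ q : MvPolynomial (Fin n) F, ∀ x : Fin n → F,
      MvPolynomial.eval x q = l (MvPolynomial.eval (fun i => algebraMap F E (x i)) p) := by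
  induction p using MvPolynomial.induction_on' with
  | monomial u a =>
    refine ⟨MvPolynomial.monomial u (l a), fun x => ?_⟩
    rw [MvPolynomial.eval_monomial, MvPolynomial.eval_monomial]
    have h1 : (u.prod fun i k => algebraMap F E (x i) ^ k) =
        algebraMap F E (u.prod fun i k => x i ^ k) := by
      rw [Finsupp.prod, Finsupp.prod, map_prod]
      refine Finset.prod_congr rfl fun i _ => ?_
      rw [map_pow]
    rw [h1, mul_comm a, ← Algebra.smul_def, map_smul, smul_eq_mul, mul_comm]
  | add p q hp hq =>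
    obtain ⟨p', hp'⟩ := hp
    obtain ⟨q', hq'⟩ := hq
    exact ⟨p' + q', fun x => by rw [map_add, hp', hq', map_add, map_add]⟩

/-- Matrices of polynomial functions. -/
def PolM (F : Type) {E W : Type} [Field F] [Field E] [Algebra F E] [AddCommGroup W] [Module F W]
    {m : ℕ} (M : W → Matrix (Fin m) (Fin m) E) : Prop :=
  ∀ i j, (fun w => M w i j) ∈ PolF F E W

theorem PolM.mul {m : ℕ} {M N : W → Matrix (Fin m) (Fin m) E} (hM : PolM F M) (hN : PolM F N) :
    PolM F fun w => M w * N w := by
  intro i j
  have h : (fun w => (M w * N w) i j) = fun w => ∑ k, M w i k * N w k j := by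
    funext w
    rw [Matrix.mul_apply]
  rw [h]
  exact sum_mem_PolF _ fun k _ => mul_mem_PolF (hM i k) (hN k j)

theorem PolM.const {m : ℕ} (N : Matrix (Fin m) (Fin m) E) : PolM F (W := W) fun _ => N :=
  fun i j => const_mem_PolF (N i j)

theorem PolM.transpose {m : ℕ} {M : W → Matrix (Fin m) (Fin m) E} (hM : PolM F M) :
    PolM F fun w => (M w).transpose := fun i j => hM j i

theorem PolM.sig {m : ℕ} (σ : E ≃ₐ[F] E) {M : W → Matrix (Fin m) (Fin m) E} (hM : PolM F M) :
    PolM F fun w => (M w).map σ := fun i j => sig_mem_PolF σ (hM i j)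

theorem PolM.coord {m : ℕ} :
    PolM F fun w : Fin m → Fin m → E => (Matrix.of w : Matrix (Fin m) (Fin m) E) := by
  intro i j
  exact linear_mem_PolF (((LinearMap.proj j : (Fin m → E) →ₗ[F] E)).comp
    (LinearMap.proj i : (Fin m → Fin m → E) →ₗ[F] (Fin m → E)))

/-- The discriminant of the characteristic polynomial. -/
noncomputable def dsc {m : ℕ} {R : Type} [CommRing R] (M : Matrix (Fin m) (Fin m) R) : R :=
  Polynomial.resultant M.charpoly (Polynomial.derivative M.charpoly) m m

theorem dsc_map {m : ℕ} {R S : Type} [CommRing R] [CommRing S] (f : R →+* S)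
    (M : Matrix (Fin m) (Fin m) R) : dsc (M.map f) = f (dsc M) := by
  unfold dsc
  rw [Matrix.charpoly_map, Polynomial.derivative_map, Polynomial.resultant_map_map]

theorem dsc_ne_iff {m : ℕ} (M : Matrix (Fin m) (Fin m) E) :
    dsc M ≠ 0 ↔ M.charpoly.Separable := by
  unfold dsc
  have hm : M.charpoly.Monic := M.charpoly_monic
  have hd : M.charpoly.natDegree = m := by
    rw [M.charpoly_natDegree_eq_dim, Fintype.card_fin]
  have hle : (Polynomial.derivative M.charpoly).natDegree ≤ m :=
    (Polynomial.natDegree_derivative_le _).trans (by omega)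
  obtain ⟨k, hk⟩ := Nat.exists_eq_add_of_le hle
  have h1 := Polynomial.resultant_add_right_deg M.charpoly (Polynomial.derivative M.charpoly) m
    (Polynomial.derivative M.charpoly).natDegree k le_rfl
  rw [← hk] at h1
  have h2 : M.charpoly.coeff m = 1 := by
    have h3 := hm.coeff_natDegree
    rwa [hd] at h3
  rw [h1, h2, one_pow, one_mul]
  have h3 := Polynomial.isUnit_resultant_iff_isCoprime (g := Polynomial.derivative M.charpoly) hm
  rw [hd] at h3
  rw [← isUnit_iff_ne_zero, h3]
  rfl

theorem PolM.dsc_mem {m : ℕ} {M : W → Matrix (Fin m) (Fin m) E} (hM : PolM F M) :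
    (fun w => dsc (M w)) ∈ PolF F E W := by
  let M' : Matrix (Fin m) (Fin m) (PolF F E W) := fun i j => ⟨fun w => M w i j, hM i j⟩
  have h : (fun w => dsc (M w)) = ((dsc M' : PolF F E W) : W → E) := by
    funext w
    let ev : PolF F E W →+* E := (Pi.evalRingHom (fun _ : W => E) w).comp
      (PolF F E W).toSubring.subtype
    have h1 := dsc_map ev M'
    have h2 : M'.map ev = M w := by
      ext i j
      rfl
    rw [h2] at h1
    exact h1
  rw [h]
  exact (dsc M').2

end pol

section nul

variable {F E : Type} [NontriviallyNormedField F] [ProperSpace F] [Field E] [Algebra F E]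
  {W : Type} [NormedAddCommGroup W] [NormedSpace F W] [FiniteDimensional F W] [MeasurableSpace W]
  [BorelSpace W]

/-- The zero set of a polynomial function which is not identically zero is null. -/
theorem polF_null [FiniteDimensional F E] (ν : Measure W) [ν.IsAddHaarMeasure] {f : W → E}
    (hf : f ∈ PolF F E W) {w₀ : W} (h0 : f w₀ ≠ 0) : ν {w | f w = 0} = 0 := by
  let e : W ≃ₗ[F] (Fin (Module.finrank F W) → F) := (Module.finBasis F W).equivFun
  obtain ⟨p, hp⟩ := PolF_exists e hf
  obtain ⟨l, hl⟩ : ∃ l : E →ₗ[F] F, l (f w₀) ≠ 0 := by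
    by_contra hcon
    push Not at hcon
    exact h0 ((Module.forall_dual_apply_eq_zero_iff F (f w₀)).1 hcon)
  obtain ⟨q, hq⟩ := exists_component l p
  have hq' : ∀ w, MvPolynomial.eval (e w) q = l (f w) := by
    intro w
    rw [hq, hp]
  have hq0 : q ≠ 0 := by
    rintro rfl
    apply hl
    rw [← hq', map_zero]
  refine measure_mono_null (fun w hw => ?_) (poly_null ν e q hq0)
  show MvPolynomial.eval (e w) q = 0
  rw [hq', show f w = 0 from hw, map_zero]

/-- If the characteristic polynomial is separable at one point then it is separable outside a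
null set. -/
theorem sep_null [FiniteDimensional F E] (ν : Measure W) [ν.IsAddHaarMeasure] {m : ℕ}
    {M : W → Matrix (Fin m) (Fin m) E} (hM : PolM F M) {w₀ : W}
    (h0 : (M w₀).charpoly.Separable) : ν {w | ¬ (M w).charpoly.Separable} = 0 := by
  have h1 := polF_null ν hM.dsc_mem (w₀ := w₀) ((dsc_ne_iff _).2 h0)
  refine measure_mono_null (fun w hw => ?_) h1
  by_contra h2
  exact hw ((dsc_ne_iff _).1 h2)

end nul

/-! ### Haar measure on `GL_m(E)` -/

section gl

variable {E : Type} [NontriviallyNormedField E] [ProperSpace E] {m : ℕ}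

theorem secondCountable_mat : SecondCountableTopology (Matrix (Fin m) (Fin m) E) :=
  inferInstanceAs (SecondCountableTopology (Fin m → Fin m → E))

theorem secondCountable_gl : SecondCountableTopology (GL (Fin m) E) := by
  have i1 := secondCountable_mat (E := E) (m := m)
  have i2 : SecondCountableTopology (Matrix (Fin m) (Fin m) E)ᵐᵒᵖ :=
    MulOpposite.opHomeomorph.symm.isEmbedding.secondCountableTopology
  exact Units.isEmbedding_embedProduct.secondCountableTopology

variable [IsUltrametricDist E]

/-- A closed null set of matrices is null in `GL_m(E)`. -/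
theorem gl_null [MeasurableSpace (GL (Fin m) E)] [BorelSpace (GL (Fin m) E)]
    (μ : Measure (GL (Fin m) E)) [μ.IsHaarMeasure]
    [MeasurableSpace E] [BorelSpace E]
    (ν : Measure (Fin m → Fin m → E)) [ν.IsAddHaarMeasure] {Z : Set (Fin m → Fin m → E)}
    (hZ : IsClosed Z) (hZ0 : ν Z = 0) : μ {g | (fun i j => g.1 i j) ∈ Z} = 0 := by
  have i1 := secondCountable_gl (E := E) (m := m)
  have i2 : LocallyCompactSpace (GL (Fin m) E) := inferInstance
  -- the map `w ↦ g w` on matrices preserves null sets
  have h1 : ∀ g : GL (Fin m) E, ν {w | (fun i j => (g.1 * Matrix.of w) i j) ∈ Z} = 0 := by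
    intro g
    let T : (Fin m → Fin m → E) ≃ₗ[E] (Fin m → Fin m → E) :=
      { toFun := fun w i j => (g.1 * Matrix.of w) i j
        map_add' := fun a b => by
          funext i j
          have : (Matrix.of (a + b) : Matrix (Fin m) (Fin m) E) = Matrix.of a + Matrix.of b := rfl
          rw [this, Matrix.mul_add]
          rfl
        map_smul' := fun c a => by
          funext i j
          have : (Matrix.of (c • a) : Matrix (Fin m) (Fin m) E) = c • Matrix.of a := rfl
          rw [this, Matrix.mul_smul]
          rfl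
        invFun := fun w i j => ((g⁻¹).1 * Matrix.of w) i j
        left_inv := fun w => by
          funext i j
          have : (Matrix.of fun i j => (g.1 * Matrix.of w) i j : Matrix (Fin m) (Fin m) E) =
            g.1 * Matrix.of w := rfl
          show ((g⁻¹).1 * Matrix.of fun i j => (g.1 * Matrix.of w) i j) i j = w i j
          rw [this, ← Matrix.mul_assoc, ← Units.val_mul, inv_mul_cancel, Units.val_one,
            Matrix.one_mul]
          rfl
        right_inv := fun w => by
          funext i j
          have : (Matrix.of fun i j => ((g⁻¹).1 * Matrix.of w) i j : Matrix (Fin m) (Fin m) E) =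
            (g⁻¹).1 * Matrix.of w := rfl
          show (g.1 * Matrix.of fun i j => ((g⁻¹).1 * Matrix.of w) i j) i j = w i j
          rw [this, ← Matrix.mul_assoc, ← Units.val_mul, mul_inv_cancel, Units.val_one,
            Matrix.one_mul]
          rfl }
    have h2 : {w | (fun i j => (g.1 * Matrix.of w) i j) ∈ Z} = T ⁻¹' Z := rfl
    rw [h2, preimage_linearEquiv ν T, hZ0, mul_zero]
  set D : Set (GL (Fin m) E × (Fin m → Fin m → E)) :=
    {p | (fun i j => (p.1.1 * Matrix.of p.2) i j) ∈ Z} with hD
  have hcont : Continuous fun p : GL (Fin m) E × (Fin m → Fin m → E) =>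
      fun i j => (p.1.1 * (Matrix.of p.2 : Matrix (Fin m) (Fin m) E)) i j := by
    refine continuous_pi fun i => continuous_pi fun j => ?_
    show Continuous fun p : GL (Fin m) E × (Fin m → Fin m → E) =>
      (p.1.1 * (Matrix.of p.2 : Matrix (Fin m) (Fin m) E)) i j
    simp only [Matrix.mul_apply]
    refine continuous_finsetSum _ fun k _ => ?_
    refine ((continuous_gl_entry i k).comp continuous_fst).mul ?_
    exact (continuous_apply j).comp ((continuous_apply k).comp continuous_snd)
  have hDc : IsClosed D := hZ.preimage hcont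
  have h2 : (μ.prod ν) D = 0 := by
    rw [Measure.prod_apply hDc.measurableSet]
    have h3 : ∀ g, ν (Prod.mk g ⁻¹' D) = 0 := h1
    simp [h3]
  rw [Measure.prod_apply_symm hDc.measurableSet, lintegral_eq_zero_iff
    (measurable_measure_prodMk_right hDc.measurableSet)] at h2
  -- an invertible matrix outside the exceptional set
  have h3 : IsOpen {w : Fin m → Fin m → E | (Matrix.of w : Matrix (Fin m) (Fin m) E).det ≠ 0} := by
    refine isOpen_ne_fun ?_ continuous_const
    have h4 : Continuous fun w : Fin m → Fin m → E => (Matrix.of w : Matrix (Fin m) (Fin m) E) :=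
      continuous_id
    exact h4.matrix_det
  have h4 : ({w : Fin m → Fin m → E | (Matrix.of w : Matrix (Fin m) (Fin m) E).det ≠ 0}).Nonempty :=
    ⟨fun i j => (1 : Matrix (Fin m) (Fin m) E) i j, by
      show (Matrix.of fun i j => (1 : Matrix (Fin m) (Fin m) E) i j).det ≠ 0
      have : (Matrix.of fun i j => (1 : Matrix (Fin m) (Fin m) E) i j) =
        (1 : Matrix (Fin m) (Fin m) E) := rfl
      rw [this, Matrix.det_one]
      exact one_ne_zero⟩
  have h5 := h3.measure_pos ν h4
  obtain ⟨w, hw, hw'⟩ : ∃ w : Fin m → Fin m → E, (Matrix.of w : Matrix (Fin m) (Fin m) E).det ≠ 0 ∧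
      μ ((fun g => (g, w)) ⁻¹' D) = 0 := by
    by_contra hcon
    push Not at hcon
    have h6 : {w : Fin m → Fin m → E | (Matrix.of w : Matrix (Fin m) (Fin m) E).det ≠ 0} ⊆
        {w | ¬ (fun y => μ ((fun g => (g, y)) ⁻¹' D)) w = (0 : (Fin m → Fin m → E) → ENNReal) w} :=
      fun w hw => hcon w hw
    exact h5.ne' (measure_mono_null h6 h2)
  set g₀ : GL (Fin m) E := Matrix.GeneralLinearGroup.mkOfDetNeZero (Matrix.of w) hw with hg₀
  have h6 : (fun g => (g, w)) ⁻¹' D =
      (fun g => g * g₀) ⁻¹' {g : GL (Fin m) E | (fun i j => g.1 i j) ∈ Z} := rfl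
  rw [h6, measure_mul_right_null] at hw'
  exact hw'

end gl

section main

variable {F E : Type} [NontriviallyNormedField F] [NontriviallyNormedField E] [NormedAlgebra F E]
  [ProperSpace F] [FiniteDimensional F E] {m : ℕ}

theorem PolF_continuous {W : Type} [NormedAddCommGroup W] [NormedSpace F W]
    [FiniteDimensional F W] {f : W → E} (hf : f ∈ PolF F E W) : Continuous f := by
  induction hf using Algebra.adjoin_induction with
  | mem x hx =>
    obtain ⟨l, rfl⟩ := hx
    exact l.continuous_of_finiteDimensional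
  | algebraMap r => exact continuous_const
  | add x y _ _ hx hy => exact hx.add hy
  | mul x y _ _ hx hy => exact hx.mul hy

variable [ProperSpace E] [IsUltrametricDist E]

/-- If the characteristic polynomial of `M g`, `M` polynomial, is separable at one matrix then it
is separable for almost every `g` in `GL_m(E)`. -/
theorem ae_sep [MeasurableSpace (GL (Fin m) E)] [BorelSpace (GL (Fin m) E)]
    (μ : Measure (GL (Fin m) E)) [μ.IsHaarMeasure]
    {M : (Fin m → Fin m → E) → Matrix (Fin m) (Fin m) E} (hM : PolM F M)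
    {w₀ : Fin m → Fin m → E} (h0 : (M w₀).charpoly.Separable) :
    ∀ᵐ g ∂μ, (M fun i j => g.1 i j).charpoly.Separable := by
  let _ : MeasurableSpace E := borel E
  have i1 : BorelSpace E := ⟨rfl⟩
  let ν : Measure (Fin m → Fin m → E) := addHaar
  have h1 : ν {w | dsc (M w) = 0} = 0 :=
    polF_null (F := F) ν hM.dsc_mem (w₀ := w₀) ((dsc_ne_iff _).2 h0)
  have h2 : IsClosed {w : Fin m → Fin m → E | dsc (M w) = 0} :=
    isClosed_eq (PolF_continuous (F := F) hM.dsc_mem) continuous_const
  have h3 := gl_null μ ν h2 h1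
  rw [ae_iff]
  refine measure_mono_null (fun g hg => ?_) h3
  show dsc (M fun i j => g.1 i j) = 0
  by_contra h4
  exact hg ((dsc_ne_iff _).1 h4)

/-- The matrix `x₂⁻¹ g* x₁ g` as a function of `g`. -/
theorem polM_xi (σ : E ≃ₐ[F] E) (A B : Matrix (Fin m) (Fin m) E) :
    PolM F fun w : Fin m → Fin m → E =>
      A * ((Matrix.of w : Matrix (Fin m) (Fin m) E).map σ).transpose * B * Matrix.of w :=
  (((PolM.const A).mul (PolM.coord.sig σ).transpose).mul (PolM.const B)).mul PolM.coord

end main

/-! ### A regular point -/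

section pt

variable {F E : Type} [NontriviallyNormedField F] [NontriviallyNormedField E] [NormedAlgebra F E]
  {m : ℕ}

/-- There are `a i` in `F`, not zero, such that the `a_i ^ 2 c_i` are distinct. -/
theorem exists_distinct (c : Fin m → E) (hc : ∀ i, c i ≠ 0) :
    ∃ a : Fin m → F, (∀ i, a i ≠ 0) ∧
      Function.Injective fun i => algebraMap F E (a i) * algebraMap F E (a i) * c i := by
  obtain ⟨x, hx0, hx1⟩ := NormedField.exists_norm_lt_one F
  have hx : x ≠ 0 := norm_pos_iff.1 hx0
  have key : ∀ᶠ K : ℕ in atTop, ∀ i j : Fin m, i < j → ‖x‖ ^ K < ‖c i‖ / ‖c j‖ := by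
    refine Filter.eventually_all.2 fun i => Filter.eventually_all.2 fun j => ?_
    have h1 : Tendsto (fun K : ℕ => ‖x‖ ^ K) atTop (𝓝 0) :=
      tendsto_pow_atTop_nhds_zero_of_lt_one (norm_nonneg _) hx1
    have h2 : 0 < ‖c i‖ / ‖c j‖ := div_pos (norm_pos_iff.2 (hc i)) (norm_pos_iff.2 (hc j))
    filter_upwards [h1.eventually_lt_const h2] with K hK _
    exact hK
  obtain ⟨K, hK⟩ := key.exists
  refine ⟨fun i => x ^ (K * i.1), fun i => pow_ne_zero _ hx, ?_⟩
  -- the case `i < j`
  have h1 : ∀ i j : Fin m, i < j →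
      algebraMap F E (x ^ (K * i.1)) * algebraMap F E (x ^ (K * i.1)) * c i ≠
        algebraMap F E (x ^ (K * j.1)) * algebraMap F E (x ^ (K * j.1)) * c j := by
    intro i j hij h
    have h2 := congrArg norm h
    simp only [norm_mul, norm_algebraMap', norm_pow] at h2
    have h3 : j.1 = i.1 + (j.1 - i.1) := by
      have := hij
      rw [Fin.lt_def] at this
      omega
    have h4 : 0 < ‖x‖ ^ (K * i.1) := pow_pos hx0 _
    have h5 : ‖x‖ ^ (K * j.1) = ‖x‖ ^ (K * i.1) * ‖x‖ ^ (K * (j.1 - i.1)) := by
      rw [← pow_add]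
      congr 1
      conv_lhs => rw [h3]
      ring
    rw [h5] at h2
    have h6 : ‖c i‖ = ‖x‖ ^ (K * (j.1 - i.1)) * ‖x‖ ^ (K * (j.1 - i.1)) * ‖c j‖ := by
      have h7 : (‖x‖ ^ (K * i.1) * ‖x‖ ^ (K * i.1)) * ‖c i‖ =
          (‖x‖ ^ (K * i.1) * ‖x‖ ^ (K * i.1)) *
            (‖x‖ ^ (K * (j.1 - i.1)) * ‖x‖ ^ (K * (j.1 - i.1)) * ‖c j‖) := by
        rw [h2]
        ring
      exact mul_left_cancel₀ (mul_pos h4 h4).ne' h7
    have hcj : 0 < ‖c j‖ := norm_pos_iff.2 (hc j)
    have h8 : ‖c i‖ / ‖c j‖ = ‖x‖ ^ (K * (j.1 - i.1)) * ‖x‖ ^ (K * (j.1 - i.1)) := by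
      rw [h6]
      field_simp
    have h9 := hK i j hij
    rw [h8] at h9
    have h10 : ‖x‖ ^ (K * (j.1 - i.1)) ≤ ‖x‖ ^ K := by
      apply pow_le_pow_of_le_one (norm_nonneg _) hx1.le
      have : 1 ≤ j.1 - i.1 := by
        have := hij
        rw [Fin.lt_def] at this
        omega
      nlinarith
    have h11 : ‖x‖ ^ (K * (j.1 - i.1)) ≤ 1 := pow_le_one₀ (norm_nonneg _) hx1.le
    have h12 : 0 ≤ ‖x‖ ^ (K * (j.1 - i.1)) := pow_nonneg (norm_nonneg _) _
    nlinarith
  intro i j hij
  rcases lt_trichotomy i j with h | h | h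
  · exact absurd hij (h1 i j h)
  · exact h
  · exact absurd hij.symm (h1 j i h)

/-- A diagonal matrix `w` with `x₂⁻¹ w* x₁ w` separable. -/
theorem exists_sep_diag (σ : E ≃ₐ[F] E) (A B : Fin m → E) (hA : ∀ i, A i ≠ 0) (hB : ∀ i, B i ≠ 0) :
    ∃ a : Fin m → F, (∀ i, a i ≠ 0) ∧
      (Matrix.diagonal A * ((Matrix.diagonal fun i => algebraMap F E (a i)).map σ).transpose *
        Matrix.diagonal B * Matrix.diagonal fun i => algebraMap F E (a i)).charpoly.Separable := by
  obtain ⟨a, ha, hinj⟩ := exists_distinct (F := F) (fun i => A i * B i)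
    (fun i => mul_ne_zero (hA i) (hB i))
  refine ⟨a, ha, ?_⟩
  have h1 : Matrix.diagonal A * ((Matrix.diagonal fun i => algebraMap F E (a i)).map σ).transpose *
      Matrix.diagonal B * (Matrix.diagonal fun i => algebraMap F E (a i)) =
      Matrix.diagonal fun i => algebraMap F E (a i) * algebraMap F E (a i) * (A i * B i) := by
    rw [Matrix.diagonal_map (map_zero σ), Matrix.diagonal_transpose, Matrix.diagonal_mul_diagonal,
      Matrix.diagonal_mul_diagonal, Matrix.diagonal_mul_diagonal]
    congr 1
    funext i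
    show A i * σ (algebraMap F E (a i)) * B i * algebraMap F E (a i) = _
    rw [AlgEquiv.commutes]
    ring
  rw [h1, Matrix.charpoly_diagonal, Polynomial.separable_prod_X_sub_C_iff]
  exact hinj

end pt

/-! ### The anti-automorphism `θ` -/

section theta

variable {E : Type} [NontriviallyNormedField E] [ProperSpace E] [IsUltrametricDist E] {m : ℕ}
  [MeasurableSpace (GL (Fin m) E)] [BorelSpace (GL (Fin m) E)] (μ : Measure (GL (Fin m) E))
  [μ.IsHaarMeasure]

theorem qmp_trGL : QuasiMeasurePreserving (trGL : GL (Fin m) E → GL (Fin m) E) μ μ := by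
  have i1 := secondCountable_gl (E := E) (m := m)
  have i2 : LocallyCompactSpace (GL (Fin m) E) := inferInstance
  have hm : IsHaarMeasure (map (SpW.Hk.thGL (K := E) (n := Fin m)) μ) :=
    (SpW.Hk.thGL (K := E) (n := Fin m)).isHaarMeasure_map μ
  have h1 : QuasiMeasurePreserving (SpW.Hk.thGL (K := E) (n := Fin m)) μ μ := by
    refine ⟨(SpW.Hk.thGL (K := E) (n := Fin m)).continuous.measurable, ?_⟩
    refine absolutelyContinuous_of_isMulLeftInvariant _ _ ?_
    exact (inferInstance : NeZero μ).ne
  have h2 := (quasiMeasurePreserving_inv μ).comp h1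
  have h3 : (Inv.inv ∘ (SpW.Hk.thGL (K := E) (n := Fin m)) : GL (Fin m) E → GL (Fin m) E) = trGL := by
    funext g
    show (trGL g⁻¹)⁻¹ = trGL g
    rw [← trGL_inv, inv_inv]
  rwa [h3] at h2

/-- `θ(g) = x⁻¹ gᵀ x` maps null sets to null sets. -/
theorem qmp_theta (x y : GL (Fin m) E) :
    QuasiMeasurePreserving (fun g : GL (Fin m) E => x * trGL g * y) μ μ := by
  have i1 := secondCountable_gl (E := E) (m := m)
  have i2 : LocallyCompactSpace (GL (Fin m) E) := inferInstance
  have h1 : QuasiMeasurePreserving (fun g : GL (Fin m) E => x * g) μ μ :=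
    (measurePreserving_mul_left μ x).quasiMeasurePreserving
  have h2 : QuasiMeasurePreserving (fun g : GL (Fin m) E => g * y) μ μ :=
    quasiMeasurePreserving_mul_right μ y
  exact h2.comp (h1.comp (qmp_trGL μ))

theorem ae_theta (x y : GL (Fin m) E) {P : GL (Fin m) E → Prop} (h : ∀ᵐ g ∂μ, P g) :
    ∀ᵐ g ∂μ, P (x * trGL g * y) := (qmp_theta μ x y).ae h

end theta

/-! ### Almost every `g` is regular -/

section final

variable {F E : Type} [NontriviallyNormedField F] [NontriviallyNormedField E] [NormedAlgebra F E]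
  [ProperSpace F] [FiniteDimensional F E] [ProperSpace E] [IsUltrametricDist E] {m : ℕ}

/-- For almost every `g` the characteristic polynomial of `A g* B g` is separable, for diagonal
matrices `A`, `B` with nonzero entries (`A = x₂⁻¹`, `B = x₁`). -/
theorem ae_sep_xi [MeasurableSpace (GL (Fin m) E)] [BorelSpace (GL (Fin m) E)]
    (μ : Measure (GL (Fin m) E)) [μ.IsHaarMeasure] (σ : E ≃ₐ[F] E) (A B : Fin m → E)
    (hA : ∀ i, A i ≠ 0) (hB : ∀ i, B i ≠ 0) :
    ∀ᵐ g ∂μ, (Matrix.diagonal A * (g.1.map σ).transpose * Matrix.diagonal B *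
      g.1).charpoly.Separable := by
  obtain ⟨a, -, h⟩ := exists_sep_diag σ A B hA hB
  have h1 := polM_xi σ (Matrix.diagonal A) (Matrix.diagonal B)
  have e1 : ∀ N : Matrix (Fin m) (Fin m) E, (Matrix.of fun i j => N i j) = N := fun _ => rfl
  have h2 := ae_sep (F := F) μ h1
    (w₀ := fun i j => (Matrix.diagonal (fun i => algebraMap F E (a i)) :
      Matrix (Fin m) (Fin m) E) i j)
    (by
      rw [e1]
      exact h)
  filter_upwards [h2] with g hg
  rw [e1] at hg
  exact hg

end final

end SpW.Mo
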