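import Pool.Agent.Work.MP_3615d2_al.Mo.Defs
import Pool.Agent.Work.MP_3615d2_al.Mo.PolyNull

/-!
MP_3615d2_al, multiplicity one: almost every `g` is regular, in the notation of `Mo/Defs`.
-/

open MeasureTheory Measure Filter Topology

namespace SpW.Mo

section

variable {F E : Type} [NontriviallyNormedField F] [NontriviallyNormedField E] [NormedAlgebra F E]
  [ProperSpace F] [FiniteDimensional F E] [ProperSpace E] [IsUltrametricDist E] {m : ℕ}

/-- For almost every `g` the characteristic polynomial of `H₂⁻¹ σ(g)ᵀ H₁ g` is separable. -/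
theorem ae_sep_dg [MeasurableSpace (GL (Fin m) E)] [BorelSpace (GL (Fin m) E)]
    (μ : Measure (GL (Fin m) E)) [μ.IsHaarMeasure] (σ : E ≃ₐ[F] E) (t₁ t₂ : Fin m → Eˣ) :
    ∀ᵐ g ∂μ, ((Dg fun i => (t₂ i)⁻¹) * (g.1.map σ).transpose * Dg t₁ *
      g.1).charpoly.Separable := by
  have h := ae_sep_xi μ σ (fun i => (((t₂ i)⁻¹ : Eˣ) : E)) (fun i => (t₁ i : E))
    (fun i => Units.ne_zero _) (fun i => Units.ne_zero _)
  exact h

end

section

variable {E : Type} [NontriviallyNormedField E] [ProperSpace E] [IsUltrametricDist E] {m : ℕ}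

theorem qmp_th [MeasurableSpace (GL (Fin m) E)] [BorelSpace (GL (Fin m) E)]
    (μ : Measure (GL (Fin m) E)) [μ.IsHaarMeasure] (t : Fin m → Eˣ) :
    QuasiMeasurePreserving (th t : GL (Fin m) E → GL (Fin m) E) μ μ :=
  qmp_theta μ (dgl t)⁻¹ (dgl t)

/-- A property which holds for almost every `g` holds for `θ(g)`, for almost every `g`. -/
theorem ae_th [MeasurableSpace (GL (Fin m) E)] [BorelSpace (GL (Fin m) E)]
    (μ : Measure (GL (Fin m) E)) [μ.IsHaarMeasure] (t : Fin m → Eˣ) {P : GL (Fin m) E → Prop}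
    (h : ∀ᵐ g ∂μ, P g) : ∀ᵐ g ∂μ, P (th t g) := (qmp_th μ t).ae h

end

end SpW.Mo
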