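import Pool.Agent.Work.MP_3615d2_al.GKLin

/-!
MP_3615d2_al, multiplicity one: matrices with separable characteristic polynomial have cyclic
vectors.
-/

open Matrix Polynomial

namespace SpW.Mo

section cyc

variable {K : Type} [Field K] {n : Type} [Fintype n] [DecidableEq n]

/-- `q(x) v = q(a) v` for an eigenvector `v`. -/
theorem aeval_eigen {x : Matrix n n K} {v : n → K} {a : K} (hv : x.mulVec v = a • v) (q : K[X]) :
    (aeval x q).mulVec v = q.eval a • v := by
  induction q using Polynomial.induction_on' with
  | add p q hp hq => rw [map_add, Matrix.add_mulVec, hp, hq, eval_add, add_smul]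
  | monomial k c =>
    rw [aeval_monomial, eval_monomial, mul_smul]
    have h1 : ∀ k : ℕ, (x ^ k).mulVec v = a ^ k • v := by
      intro k
      induction k with
      | zero => simp
      | succ k ih =>
        rw [pow_succ, ← Matrix.mulVec_mulVec, hv, Matrix.mulVec_smul, ih, smul_smul, pow_succ']
    rw [← Matrix.mulVec_mulVec, h1, Algebra.algebraMap_eq_smul_one, Matrix.smul_mulVec,
      Matrix.one_mulVec]

/-- If the characteristic polynomial is separable it divides every annihilating polynomial. -/
theorem charpoly_dvd {x : Matrix n n K} (hs : x.charpoly.Separable) {p : K[X]}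
    (hp : aeval x p = 0) : x.charpoly ∣ p := by
  classical
  set L := AlgebraicClosure K with hL
  set i : K →+* L := algebraMap K L with hi
  rw [← Polynomial.map_dvd_map' i]
  set x' : Matrix n n L := x.map i with hx'
  have hc : x.charpoly.map i = x'.charpoly := (Matrix.charpoly_map x i).symm
  have hp' : aeval x' (p.map i) = 0 := by
    have h1 : aeval x' (p.map i) = (aeval x p).map i := by
      rw [aeval_map_algebraMap]
      exact (Polynomial.aeval_algHom_apply (AlgHom.mapMatrix (IsScalarTower.toAlgHom K K L)) x p)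
    rw [h1, hp, Matrix.map_zero _ (map_zero i)]
  by_cases hp0 : p.map i = 0
  · rw [hp0]
    exact dvd_zero _
  rw [hc]
  have hsep : x'.charpoly.Separable := by
    rw [← hc]
    exact hs.map
  have hmon : x'.charpoly.Monic := Matrix.charpoly_monic x'
  have hprod : x'.charpoly = (x'.charpoly.roots.map fun a => X - C a).prod := by
    exact (IsAlgClosed.splits x'.charpoly).eq_prod_roots_of_monic hmon
  rw [hprod, Multiset.prod_X_sub_C_dvd_iff_le_roots hp0,
    Multiset.le_iff_subset (nodup_roots hsep)]
  intro a ha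
  rw [mem_roots hp0, IsRoot.def]
  have h1 : (x'.charpoly).eval a = 0 := (mem_roots hmon.ne_zero).1 ha
  rw [Matrix.eval_charpoly] at h1
  obtain ⟨v, hv, hv0⟩ := Matrix.exists_mulVec_eq_zero_iff.2 h1
  have h2 : x'.mulVec v = a • v := by
    rw [Matrix.sub_mulVec, sub_eq_zero] at hv0
    rw [← hv0]
    simp [Matrix.scalar_apply, ← Matrix.smul_one_eq_diagonal, Matrix.smul_mulVec]
  have h3 := aeval_eigen h2 (p.map i)
  rw [hp', Matrix.zero_mulVec] at h3
  exact (smul_eq_zero.1 h3.symm).resolve_right hv

/-- A cyclic vector: `f ↦ f(x) e` is onto, with kernel the polynomials which annihilate `x`. -/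
theorem exists_cycS {x : Matrix n n K} (hs : x.charpoly.Separable) :
    ∃ e : n → K, (∀ f : K[X], (aeval x f).mulVec e = 0 → aeval x f = 0) ∧
      ∀ w, ∃ f : K[X], (aeval x f).mulVec e = w := by
  classical
  obtain ⟨ι, _, P, v, hP, h0, h1⟩ := exists_cyclic x
  set e : n → K := ∑ i, v i with he
  have hinj : ∀ f : K[X], (aeval x f).mulVec e = 0 → aeval x f = 0 := by
    intro f hf
    have h2 : ∀ i, P i ∣ f := by
      refine (h0 fun _ => f).1 ?_
      rw [← hf, he, Matrix.mulVec_sum]
    apply Matrix.toLin'.injective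
    apply LinearMap.ext
    intro w
    rw [Matrix.toLin'_apply, map_zero, LinearMap.zero_apply]
    obtain ⟨g, rfl⟩ := h1 w
    rw [Matrix.mulVec_sum]
    have h3 : ∀ i, (aeval x f).mulVec ((aeval x (g i)).mulVec (v i)) =
        (aeval x (f * g i)).mulVec (v i) := by
      intro i
      rw [Matrix.mulVec_mulVec, map_mul]
    simp_rw [h3]
    exact (h0 fun i => f * g i).2 fun i => (h2 i).mul_right _
  refine ⟨e, hinj, ?_⟩
  set N := Fintype.card n with hN
  have hdeg : x.charpoly.degree = N := by
    rw [Polynomial.degree_eq_natDegree (Matrix.charpoly_monic x).ne_zero,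
      Matrix.charpoly_natDegree_eq_dim]
  let Φ : K[X] →ₗ[K] (n → K) :=
    { toFun := fun f => (aeval x f).mulVec e
      map_add' := fun f g => by rw [map_add, Matrix.add_mulVec]
      map_smul' := fun c f => by rw [map_smul, Matrix.smul_mulVec, RingHom.id_apply] }
  let Ψ : degreeLT K N →ₗ[K] (n → K) := Φ.comp (degreeLT K N).subtype
  have hΨ : Function.Injective Ψ := by
    rw [← LinearMap.ker_eq_bot, LinearMap.ker_eq_bot']
    rintro ⟨f, hf⟩ hf0
    have h2 : x.charpoly ∣ f := charpoly_dvd hs (hinj f hf0)
    apply Subtype.ext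
    show f = 0
    by_contra hne
    have h3 := Polynomial.degree_le_of_dvd h2 hne
    rw [hdeg] at h3
    exact absurd (mem_degreeLT.1 hf) (not_lt.2 h3)
  have hfin : Module.finrank K (degreeLT K N) = Module.finrank K (n → K) := by
    rw [LinearEquiv.finrank_eq (degreeLTEquiv K N), Module.finrank_fin_fun,
      Module.finrank_fintype_fun_eq_card]
  have : FiniteDimensional K (degreeLT K N) :=
    LinearEquiv.finiteDimensional (degreeLTEquiv K N).symm
  have hsurj : Function.Surjective Ψ :=
    (LinearMap.injective_iff_surjective_of_finrank_eq_finrank hfin).1 hΨ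
  intro w
  obtain ⟨f, hf⟩ := hsurj w
  exact ⟨f.1, hf⟩

/-- The inverse of `a ↦ a e` for a cyclic vector `e`. -/
theorem exists_cyc_map {x : Matrix n n K} (hs : x.charpoly.Separable) :
    ∃ (e : n → K) (A : (n → K) →ₗ[K] Matrix n n K), (∀ w, ∃ f : K[X], A w = aeval x f) ∧
      (∀ w, (A w).mulVec e = w) ∧ ∀ f : K[X], A ((aeval x f).mulVec e) = aeval x f := by
  classical
  obtain ⟨e, h0, h1⟩ := exists_cycS hs
  choose f hf using h1
  have key : ∀ (w : n → K) (g : K[X]), (aeval x g).mulVec e = w → aeval x (f w) = aeval x g := by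
    intro w g hg
    rw [← sub_eq_zero, ← map_sub]
    apply h0
    rw [map_sub, Matrix.sub_mulVec, hf, hg, sub_self]
  refine ⟨e, { toFun := fun w => aeval x (f w), map_add' := ?_, map_smul' := ?_ },
    fun w => ⟨f w, rfl⟩, hf, fun g => key _ g rfl⟩
  · intro v w
    rw [key (v + w) (f v + f w) (by rw [map_add, Matrix.add_mulVec, hf, hf]), map_add]
  · intro c w
    rw [key (c • w) (c • f w) (by rw [map_smul, Matrix.smul_mulVec, hf]), map_smul,
      RingHom.id_apply]

end cyc

end SpW.Mo
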