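import Pool.Agent.Work.MP_3615d2_al.Mo.Defs
import Pool.Agent.Work.MP_3615d2_al.Mo.Cyc

/-!
MP_3615d2_al, multiplicity one: the linear algebra of `ξ = g† g` (note 6725, G6).

`dag σ H M` is the adjoint of `M`: `sk (M x) y = sk x (dag M y)`. `L = E[ξ]` is commutative and
stable under the adjoint; `e` is a cyclic vector and `A w` is the element of `L` with `A w e = w`.
In the case `ξ = h† h` with `h` in `L` one has `g = u h`, `u ∈ U(H)`, and the element `r` of `U(H)`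
with `r (a† e) = σ(a e)` for `a ∈ L` satisfies `θ(r) = r`, `θ(h) = r h r⁻¹`.
-/

open Matrix Polynomial

set_option linter.unusedSectionVars false

namespace SpW.Mo

section dag

variable {F E : Type} [Field F] [Field E] [Algebra F E] {σ : E ≃ₐ[F] E} {m : ℕ}

/-- The adjoint `M† = σ(H⁻¹ Mᵀ H)`. -/
noncomputable def dag (σ : E → E) (H M : Matrix (Fin m) (Fin m) E) : Matrix (Fin m) (Fin m) E :=
  (H⁻¹ * M.transpose * H).map σ

variable {H : Matrix (Fin m) (Fin m) E}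

theorem map_mul_sig (M N : Matrix (Fin m) (Fin m) E) : (M * N).map σ = M.map σ * N.map σ :=
  Matrix.map_mul (f := (σ : E →+* E)) (L := M) (M := N)

theorem map_sig_sig (hσσ : ∀ x, σ (σ x) = x) (M : Matrix (Fin m) (Fin m) E) :
    (M.map σ).map σ = M := by
  ext i j
  simp [hσσ]

theorem sk_dag (hH : H.det ≠ 0) (hσσ : ∀ x, σ (σ x) = x) (M : Matrix (Fin m) (Fin m) E)
    (x y : Fin m → E) : sk σ H (M.mulVec x) y = sk σ H x ((dag σ H M).mulVec y) := by
  have hu : IsUnit H.det := isUnit_iff_ne_zero.2 hH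
  rw [HermC.sk_dot, HermC.sk_dot]
  have h1 : (fun i => σ (((dag σ H M).mulVec y) i)) =
      (H⁻¹ * M.transpose * H).mulVec (fun i => σ (y i)) := by
    funext i
    simp [dag, mulVec, dotProduct, hσσ]
  rw [h1, Matrix.mulVec_mulVec, ← Matrix.mul_assoc, ← Matrix.mul_assoc,
    Matrix.mul_nonsing_inv H hu, Matrix.one_mul, ← Matrix.mulVec_mulVec,
    Matrix.dotProduct_mulVec x, Matrix.vecMul_transpose]

/-- The form is nondegenerate in the second variable. -/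
theorem sk_nondeg (hH : H.det ≠ 0) {y y' : Fin m → E} (h : ∀ x, sk σ H x y = sk σ H x y') :
    y = y' := by
  have hu : IsUnit H.det := isUnit_iff_ne_zero.2 hH
  have h1 : H.mulVec (fun i => σ (y i)) = H.mulVec (fun i => σ (y' i)) := by
    funext i
    have := h (Pi.single i 1)
    rwa [HermC.sk_dot, HermC.sk_dot, single_one_dotProduct, single_one_dotProduct] at this
  have h2 := congrArg (fun v => (H⁻¹).mulVec v) h1
  simp only [Matrix.mulVec_mulVec, Matrix.nonsing_inv_mul H hu, Matrix.one_mulVec] at h2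
  funext i
  exact σ.injective (congrFun h2 i)

theorem dag_unique (hH : H.det ≠ 0) (hσσ : ∀ x, σ (σ x) = x) {M N : Matrix (Fin m) (Fin m) E}
    (h : ∀ x y, sk σ H (M.mulVec x) y = sk σ H x (N.mulVec y)) : dag σ H M = N := by
  apply Matrix.toLin'.injective
  apply LinearMap.ext
  intro y
  rw [Matrix.toLin'_apply, Matrix.toLin'_apply]
  apply sk_nondeg (σ := σ) hH
  intro x
  rw [← sk_dag hH hσσ, h]

theorem dag_mul (hH : H.det ≠ 0) (hσσ : ∀ x, σ (σ x) = x) (M N : Matrix (Fin m) (Fin m) E) :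
    dag σ H (M * N) = dag σ H N * dag σ H M := by
  apply dag_unique hH hσσ
  intro x y
  rw [← Matrix.mulVec_mulVec, sk_dag hH hσσ, sk_dag hH hσσ, Matrix.mulVec_mulVec]

theorem dag_one (hH : H.det ≠ 0) (hσσ : ∀ x, σ (σ x) = x) :
    dag σ H (1 : Matrix (Fin m) (Fin m) E) = 1 := by
  apply dag_unique hH hσσ
  intro x y
  rw [Matrix.one_mulVec, Matrix.one_mulVec]

theorem dag_add (M N : Matrix (Fin m) (Fin m) E) :
    dag σ H (M + N) = dag σ H M + dag σ H N := by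
  unfold dag
  rw [Matrix.transpose_add, Matrix.mul_add, Matrix.add_mul, Matrix.map_add σ (map_add σ)]

theorem dag_smul (c : E) (M : Matrix (Fin m) (Fin m) E) :
    dag σ H (c • M) = σ c • dag σ H M := by
  unfold dag
  rw [Matrix.transpose_smul, Matrix.mul_smul, Matrix.smul_mul]
  ext i j
  simp only [Matrix.map_apply, Matrix.smul_apply, smul_eq_mul, map_mul]

/-- `sk y x = - σ (sk x y)`. -/
theorem sk_swap (hH : IsSkew σ H) (hσσ : ∀ x, σ (σ x) = x) (x y : Fin m → E) :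
    sk σ H y x = -σ (sk σ H x y) := by
  simp only [sk, map_sum, map_mul, hσσ]
  rw [Finset.sum_comm, ← Finset.sum_neg_distrib]
  refine Finset.sum_congr rfl fun i _ => ?_
  rw [← Finset.sum_neg_distrib]
  refine Finset.sum_congr rfl fun j _ => ?_
  rw [hH.skew i j]
  ring

theorem sk_dag' (hH : IsSkew σ H) (hσσ : ∀ x, σ (σ x) = x) (M : Matrix (Fin m) (Fin m) E)
    (x y : Fin m → E) : sk σ H ((dag σ H M).mulVec x) y = sk σ H x (M.mulVec y) := by
  rw [sk_swap hH hσσ, ← sk_dag hH.det_ne hσσ, sk_swap hH hσσ x, map_neg, neg_neg, hσσ]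

theorem dag_dag (hH : IsSkew σ H) (hσσ : ∀ x, σ (σ x) = x) (M : Matrix (Fin m) (Fin m) E) :
    dag σ H (dag σ H M) = M :=
  dag_unique hH.det_ne hσσ fun x y => sk_dag' hH hσσ M x y

theorem dag_pow (hH : H.det ≠ 0) (hσσ : ∀ x, σ (σ x) = x) {ξ : Matrix (Fin m) (Fin m) E}
    (hξ : dag σ H ξ = ξ) (k : ℕ) : dag σ H (ξ ^ k) = ξ ^ k := by
  induction k with
  | zero => rw [pow_zero, dag_one hH hσσ]
  | succ k ih => rw [pow_succ, dag_mul hH hσσ, ih, hξ, ← pow_succ', pow_succ]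

/-- `f(ξ)† = f^σ(ξ)` if `ξ† = ξ`. -/
theorem dag_aeval (hH : H.det ≠ 0) (hσσ : ∀ x, σ (σ x) = x) {ξ : Matrix (Fin m) (Fin m) E}
    (hξ : dag σ H ξ = ξ) (f : E[X]) :
    dag σ H (aeval ξ f) = aeval ξ (f.map (σ : E →+* E)) := by
  induction f using Polynomial.induction_on' with
  | add p q hp hq => rw [map_add, dag_add, hp, hq, Polynomial.map_add, map_add]
  | monomial k c =>
    rw [aeval_monomial, Polynomial.map_monomial, aeval_monomial,
      Algebra.algebraMap_eq_smul_one, Algebra.algebraMap_eq_smul_one, Matrix.smul_mul,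
      Matrix.smul_mul, Matrix.one_mul, dag_smul, dag_pow hH hσσ hξ]
    rfl

/-- `ξ` selfadjoint. -/
theorem dag_self (hH : H.det ≠ 0) (hσσ : ∀ x, σ (σ x) = x) {ξ : Matrix (Fin m) (Fin m) E}
    (hξ : ∀ x y, sk σ H (ξ.mulVec x) y = sk σ H x (ξ.mulVec y)) : dag σ H ξ = ξ :=
  dag_unique hH hσσ hξ

/-- If `h₁(gx,gy) = h₂(ξx,y)` then `ξ` is selfadjoint for `h₂`. -/
theorem selfadj_of {H₁ H₂ g ξ : Matrix (Fin m) (Fin m) E} (h₁ : IsSkew σ H₁) (h₂ : IsSkew σ H₂)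
    (hσσ : ∀ x, σ (σ x) = x)
    (hξ : ∀ x y, sk σ H₁ (g.mulVec x) (g.mulVec y) = sk σ H₂ (ξ.mulVec x) y)
    (x y : Fin m → E) : sk σ H₂ (ξ.mulVec x) y = sk σ H₂ x (ξ.mulVec y) := by
  rw [← hξ, sk_swap h₁ hσσ (g.mulVec y), hξ, sk_swap h₂ hσσ (ξ.mulVec y) x]

/-- The solution `ξ` of `h₁(gx,gy) = h₂(ξx,y)`. -/
noncomputable def xi (σ : E → E) (H₁ H₂ g : Matrix (Fin m) (Fin m) E) :
    Matrix (Fin m) (Fin m) E := (g.transpose * H₁ * g.map σ * H₂⁻¹).transpose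

theorem sk_xi {H₁ H₂ : Matrix (Fin m) (Fin m) E} (h₂ : H₂.det ≠ 0)
    (g : Matrix (Fin m) (Fin m) E) (x y : Fin m → E) :
    sk σ H₁ (g.mulVec x) (g.mulVec y) = sk σ H₂ ((xi σ H₁ H₂ g).mulVec x) y := by
  have hu : IsUnit H₂.det := isUnit_iff_ne_zero.2 h₂
  rw [HermC.sk_gram, HermC.sk_dot, HermC.sk_dot, xi, Matrix.dotProduct_mulVec _ H₂,
    Matrix.mulVec_transpose, Matrix.vecMul_vecMul, Matrix.mul_assoc _ (H₂⁻¹),
    Matrix.nonsing_inv_mul H₂ hu, Matrix.mul_one, ← Matrix.dotProduct_mulVec]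

/-- If `ξ = f(ξ) f^σ(ξ)` then the two forms are isometric. -/
theorem isom_of_normL {H₁ H₂ : Matrix (Fin m) (Fin m) E} {g : GL (Fin m) E}
    {ξ : Matrix (Fin m) (Fin m) E} (h₁ : IsSkew σ H₁) (h₂ : IsSkew σ H₂)
    (hσσ : ∀ x, σ (σ x) = x)
    (hξ : ∀ x y, sk σ H₁ (g.1.mulVec x) (g.1.mulVec y) = sk σ H₂ (ξ.mulVec x) y)
    (f : E[X]) (hf : aeval ξ f * aeval ξ (f.map (σ : E →+* E)) = ξ) :
    ∃ u h : GL (Fin m) E, (h : Matrix (Fin m) (Fin m) E) = aeval ξ f ∧ g = u * h ∧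
      ∀ x y, sk σ H₁ (u.1.mulVec x) (u.1.mulVec y) = sk σ H₂ x y := by
  have hadj := selfadj_of h₁ h₂ hσσ hξ
  have hd : dag σ H₂ ξ = ξ := dag_self h₂.det_ne hσσ hadj
  have hfd : aeval ξ (f.map (σ : E →+* E)) = dag σ H₂ (aeval ξ f) :=
    (dag_aeval h₂.det_ne hσσ hd f).symm
  have hcomm : aeval ξ f * aeval ξ (f.map (σ : E →+* E)) =
      aeval ξ (f.map (σ : E →+* E)) * aeval ξ f := by
    rw [← map_mul, mul_comm, map_mul]
  -- `ξ` is invertible
  have hξi : IsUnit ξ := by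
    rw [← Matrix.mulVec_injective_iff_isUnit]
    intro x x' hx
    have h1 : ∀ y, sk σ H₁ (g.1.mulVec x) (g.1.mulVec y) =
        sk σ H₁ (g.1.mulVec x') (g.1.mulVec y) := by
      intro y
      rw [hξ, hξ]
      exact congrArg (fun v => sk σ H₂ v y) hx
    have h2 : ∀ z, sk σ H₁ z (g.1.mulVec x) = sk σ H₁ z (g.1.mulVec x') := by
      intro z
      have h3 := h1 ((g⁻¹).1.mulVec z)
      rw [Matrix.mulVec_mulVec, ← Units.val_mul, mul_inv_cancel, Units.val_one,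
        Matrix.one_mulVec] at h3
      rw [sk_swap h₁ hσσ, sk_swap h₁ hσσ (g.1.mulVec x'), h3]
    have h4 := sk_nondeg h₁.det_ne h2
    have h5 := congrArg (fun v => (g⁻¹).1.mulVec v) h4
    simp only [Matrix.mulVec_mulVec] at h5
    rwa [← Units.val_mul, inv_mul_cancel, Units.val_one, Matrix.one_mulVec,
      Matrix.one_mulVec] at h5
  have hfu : IsUnit (aeval ξ f) := by
    rw [Matrix.isUnit_iff_isUnit_det] at hξi ⊢
    rw [← hf, Matrix.det_mul] at hξi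
    exact isUnit_of_mul_isUnit_left hξi
  obtain ⟨h, hh⟩ := hfu
  refine ⟨g * h⁻¹, h, hh, by group, fun x y => ?_⟩
  have h6 : ((g * h⁻¹ : GL (Fin m) E) : Matrix (Fin m) (Fin m) E) = g.1 * (h⁻¹).1 := rfl
  have h7 : ξ * (h⁻¹).1 = dag σ H₂ (aeval ξ f) := by
    have h8 : ξ = dag σ H₂ (aeval ξ f) * h.1 := by
      rw [hh, ← hfd, ← hcomm, hf]
    calc ξ * (h⁻¹).1 = dag σ H₂ (aeval ξ f) * h.1 * (h⁻¹).1 := by rw [← h8]
      _ = dag σ H₂ (aeval ξ f) := by
        rw [Matrix.mul_assoc, ← Units.val_mul, mul_inv_cancel, Units.val_one, Matrix.mul_one]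
  rw [h6, ← Matrix.mulVec_mulVec, ← Matrix.mulVec_mulVec, hξ, Matrix.mulVec_mulVec, h7,
    sk_dag' h₂ hσσ, Matrix.mulVec_mulVec, ← hh, ← Units.val_mul, mul_inv_cancel, Units.val_one,
    Matrix.one_mulVec]

end dag

end SpW.Mo
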