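import Pool.Agent.Work.MP_3615d2_al.Mo.AeSep
import Pool.Agent.Work.MP_3615d2_al.Mo.Lin

/-!
MP_3615d2_al, multiplicity one: for almost every `g` the matrix `ξ(g)` (`Mo/Lin`) has a separable
characteristic polynomial.
-/

open MeasureTheory Measure Filter Topology

namespace SpW.Mo

section

variable {F E : Type} [NontriviallyNormedField F] [NontriviallyNormedField E] [NormedAlgebra F E]
  {m : ℕ}

theorem Dg_inv (t : Fin m → Eˣ) : (Dg t)⁻¹ = Dg fun i => (t i)⁻¹ := by
  apply Matrix.inv_eq_right_inv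
  unfold Dg
  rw [Matrix.diagonal_mul_diagonal]
  have h : (fun i => (t i : E) * (((t i)⁻¹ : Eˣ) : E)) = fun _ => 1 := by
    funext i
    exact (t i).mul_inv
  rw [h, Matrix.diagonal_one]

theorem xi_diag (σ : E ≃ₐ[F] E) (t₁ t₂ : Fin m → Eˣ) (a : Fin m → F) :
    xi σ (Dg t₁) (Dg t₂) (Matrix.diagonal fun i => algebraMap F E (a i)) =
      Matrix.diagonal fun i => algebraMap F E (a i) * algebraMap F E (a i) *
        ((((t₂ i)⁻¹ : Eˣ) : E) * (t₁ i : E)) := by
  unfold xi
  rw [Dg_inv]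
  unfold Dg
  rw [Matrix.diagonal_transpose, Matrix.diagonal_map (map_zero σ), Matrix.diagonal_mul_diagonal,
    Matrix.diagonal_mul_diagonal, Matrix.diagonal_mul_diagonal, Matrix.diagonal_transpose]
  congr 1
  funext i
  show algebraMap F E (a i) * (t₁ i : E) * σ (algebraMap F E (a i)) * (((t₂ i)⁻¹ : Eˣ) : E) = _
  rw [AlgEquiv.commutes]
  ring

theorem polM_xi' (σ : E ≃ₐ[F] E) (A B : Matrix (Fin m) (Fin m) E) :
    PolM F fun w : Fin m → Fin m → E => xi σ A B (Matrix.of w) :=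
  (((PolM.coord.transpose.mul (PolM.const A)).mul (PolM.coord.sig σ)).mul
    (PolM.const B⁻¹)).transpose

variable [ProperSpace F] [FiniteDimensional F E] [ProperSpace E] [IsUltrametricDist E]

/-- Almost every `g` is regular. -/
theorem ae_sep_x [MeasurableSpace (GL (Fin m) E)] [BorelSpace (GL (Fin m) E)]
    (μ : Measure (GL (Fin m) E)) [μ.IsHaarMeasure] (σ : E ≃ₐ[F] E) (t₁ t₂ : Fin m → Eˣ) :
    ∀ᵐ g ∂μ, (xi σ (Dg t₁) (Dg t₂) g.1).charpoly.Separable := by
  obtain ⟨a, -, hinj⟩ := exists_distinct (F := F) (fun i => (((t₂ i)⁻¹ : Eˣ) : E) * (t₁ i : E))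
    (fun i => mul_ne_zero (Units.ne_zero _) (Units.ne_zero _))
  have e1 : ∀ N : Matrix (Fin m) (Fin m) E, (Matrix.of fun i j => N i j) = N := fun _ => rfl
  have h2 := ae_sep (F := F) μ (polM_xi' σ (Dg t₁) (Dg t₂))
    (w₀ := fun i j => (Matrix.diagonal (fun i => algebraMap F E (a i)) :
      Matrix (Fin m) (Fin m) E) i j)
    (by
      rw [e1, xi_diag, Matrix.charpoly_diagonal, Polynomial.separable_prod_X_sub_C_iff]
      exact hinj)
  filter_upwards [h2] with g hg
  rw [e1] at hg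
  exact hg

end

end SpW.Mo
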