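import Pool.Agent.Work.MP_3615d2_al.Mo.CartVol
import Pool.Agent.Work.MP_3615d2_al.LocVal

/-! MP_3615d2_al, multiplicity one (note 6684 (1)): measures of the Cartan cells. -/

open MeasureTheory Measure Filter Topology Matrix
open scoped NNReal ENNReal

set_option linter.unusedSectionVars false

namespace SpW.Mo

section cells

variable {E : Type} [NontriviallyNormedField E] [IsUltrametricDist E] {n : ℕ}

theorem dgl_mem_glK {u : Fin n → Eˣ} (hu : ∀ i, ‖(u i : E)‖ = 1) :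
    (dgl u : GL (Fin n) E) ∈ glK (Fin n) E 1 zero_le_one le_rfl := by
  refine mem_glK_one (fun i j => ?_) fun i j => ?_
  · rw [dgl_val, Matrix.diagonal_apply]
    split_ifs
    · exact (hu i).le
    · simp
  · rw [dgl_inv_val, Matrix.diagonal_apply]
    split_ifs
    · rw [Units.val_inv_eq_inv_val, norm_inv, hu i, inv_one]
    · simp

/-- **Cartan decomposition** with powers of a fixed element `π` whose norm generates the value
group (see `LocNorm.exists_unif`). -/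
theorem cartan_zpow {π : Eˣ} (hπ : ∀ x : E, x ≠ 0 → ∃ k : ℤ, ‖x‖ = ‖(π : E)‖ ^ k)
    (g : GL (Fin n) E) :
    ∃ k₁ ∈ glK (Fin n) E 1 zero_le_one le_rfl, ∃ k₂ ∈ glK (Fin n) E 1 zero_le_one le_rfl,
      ∃ a : Fin n → ℤ, g = k₁ * dgl (fun i => π ^ a i) * k₂ := by
  obtain ⟨k₁, h1, k₂, h2, t, -, rfl⟩ := cartan g
  choose a ha using fun i => hπ (t i) (t i).ne_zero
  have h3 : t = (fun i => π ^ a i) * fun i => t i * (π ^ a i)⁻¹ := by
    funext i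
    rw [Pi.mul_apply, mul_comm (t i), mul_inv_cancel_left]
  refine ⟨k₁, h1, dgl (fun i => t i * (π ^ a i)⁻¹) * k₂, mul_mem (dgl_mem_glK fun i => ?_) h2, a, ?_⟩
  · rw [Units.val_mul, Units.val_inv_eq_inv_val, Units.val_zpow_eq_zpow_val, norm_mul, norm_inv,
      norm_zpow, ha i, mul_inv_cancel₀ (zpow_ne_zero _ (norm_pos_iff.2 π.ne_zero).ne')]
  · conv_lhs => rw [h3, map_mul]
    group

/-- The Cartan cell `K dgl(t) K`. -/
def cell (ε : ℝ) (h0 : 0 ≤ ε) (h1 : ε ≤ 1) (t : Fin n → Eˣ) : Set (GL (Fin n) E) :=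
  {g | ∃ k₁ ∈ glK (Fin n) E ε h0 h1, ∃ k₂ ∈ glK (Fin n) E ε h0 h1, g = k₁ * dgl t * k₂}

theorem iUnion_cell {π : Eˣ} (hπ : ∀ x : E, x ≠ 0 → ∃ k : ℤ, ‖x‖ = ‖(π : E)‖ ^ k) :
    ⋃ a : Fin n → ℤ, cell 1 zero_le_one le_rfl (fun i => π ^ a i) =
      (Set.univ : Set (GL (Fin n) E)) := by
  refine Set.eq_univ_of_forall fun g => ?_
  obtain ⟨k₁, h1, k₂, h2, a, h⟩ := cartan_zpow hπ g
  exact Set.mem_iUnion.2 ⟨a, k₁, h1, k₂, h2, h⟩

theorem isOpen_cell {ε : ℝ} (h0 : 0 < ε) (h1 : ε ≤ 1) (t : Fin n → Eˣ) :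
    IsOpen (cell ε h0.le h1 t) := by
  have h : cell ε h0.le h1 t = ⋃ k₁ ∈ glK (Fin n) E ε h0.le h1,
      (fun g => k₁ * dgl t * g) '' (glK (Fin n) E ε h0.le h1 : Set (GL (Fin n) E)) := by
    ext g
    simp only [cell, Set.mem_iUnion, Set.mem_image, SetLike.mem_coe, exists_prop]
    constructor
    · rintro ⟨k₁, hk₁, k₂, hk₂, rfl⟩
      exact ⟨k₁, hk₁, k₂, hk₂, rfl⟩
    · rintro ⟨k₁, hk₁, k₂, hk₂, rfl⟩
      exact ⟨k₁, hk₁, k₂, hk₂, rfl⟩
  rw [h]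
  exact isOpen_biUnion fun k _ => isOpenMap_mul_left _ _ (glK_isOpen h0 h1)

/-- A maximal separated finite set. -/
theorem exists_cover {G : Type*} [Group G] (K : Subgroup G) (t : G) {N : ℝ}
    (hN : ∀ s : Finset G, (∀ k ∈ s, k ∈ K) →
      (∀ k ∈ s, ∀ k' ∈ s, t⁻¹ * (k⁻¹ * k') * t ∈ K → k = k') → (s.card : ℝ) ≤ N) :
    ∃ s : Finset G, (∀ k ∈ s, k ∈ K) ∧ (s.card : ℝ) ≤ N ∧
      (∀ k ∈ s, ∀ k' ∈ s, t⁻¹ * (k⁻¹ * k') * t ∈ K → k = k') ∧
      ∀ k ∈ K, ∃ k₀ ∈ s, t⁻¹ * (k₀⁻¹ * k) * t ∈ K := by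
  classical
  set S : Set ℕ := {m | ∃ s : Finset G, (∀ k ∈ s, k ∈ K) ∧
    (∀ k ∈ s, ∀ k' ∈ s, t⁻¹ * (k⁻¹ * k') * t ∈ K → k = k') ∧ s.card = m} with hS
  have hbdd : ∀ m ∈ S, m ≤ ⌊N⌋₊ := by
    rintro m ⟨s, h1, h2, rfl⟩
    exact Nat.le_floor (hN s h1 h2)
  have hne : S.Nonempty := ⟨0, ∅, by simp, by simp, rfl⟩
  have hmem := Nat.sSup_mem hne ⟨_, hbdd⟩
  obtain ⟨s, h1, h2, h3⟩ := hmem
  refine ⟨s, h1, hN s h1 h2, h2, fun k hk => ?_⟩
  by_contra hcon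
  push Not at hcon
  have hks : k ∉ s := by
    intro h
    refine hcon k h ?_
    rw [inv_mul_cancel, mul_one, inv_mul_cancel]
    exact one_mem K
  have h4 : (insert k s).card ∈ S := by
    refine ⟨insert k s, ?_, ?_, rfl⟩
    · intro k' hk'
      rcases Finset.mem_insert.1 hk' with rfl | h
      · exact hk
      · exact h1 k' h
    · intro a ha b hb hab
      rcases Finset.mem_insert.1 ha with rfl | ha' <;> rcases Finset.mem_insert.1 hb with rfl | hb'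
      · rfl
      · exfalso
        refine hcon b hb' ?_
        have h5 := inv_mem hab
        have h6 : (t⁻¹ * (a⁻¹ * b) * t)⁻¹ = t⁻¹ * (b⁻¹ * a) * t := by group
        rwa [h6] at h5
      · exact (hcon a ha' hab).elim
      · exact h2 a ha' b hb' hab
  have h5 := le_csSup ⟨_, hbdd⟩ h4
  rw [Finset.card_insert_of_notMem hks, h3] at h5
  omega

end cells

section meas

variable {E : Type} [NontriviallyNormedField E] [IsUltrametricDist E] [ProperSpace E]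
  [MeasurableSpace E] [BorelSpace E] {n : ℕ}

/-- Representatives of the cosets in a Cartan cell. -/
theorem exists_cells {ε : ℝ} (h0 : 0 < ε) (h1 : ε ≤ 1) : ∃ C : ℝ, 0 < C ∧
    ∀ t : Fin n → Eˣ, ∃ s : Finset (GL (Fin n) E),
      (∀ k ∈ s, k ∈ glK (Fin n) E ε h0.le h1) ∧
      (s.card : ℝ) ≤ C * ∏ i, ∏ j, max 1 ((md ((t j : E) / t i) : ℝ≥0) : ℝ) ∧
      (∀ k ∈ s, ∀ k' ∈ s, (dgl t)⁻¹ * (k⁻¹ * k') * dgl t ∈ glK (Fin n) E ε h0.le h1 → k = k') ∧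
      (cell ε h0.le h1 t ⊆ ⋃ k ∈ s, (fun g => k * dgl t * g) ''
        (glK (Fin n) E ε h0.le h1 : Set (GL (Fin n) E))) := by
  obtain ⟨C, hC, h⟩ := card_cells_le (E := E) (n := n) h0 h1
  refine ⟨C, hC, fun t => ?_⟩
  obtain ⟨s, hs, hc, hsep, hcov⟩ := exists_cover (glK (Fin n) E ε h0.le h1) (dgl t)
    (fun s hs hs' => h t s hs hs')
  refine ⟨s, hs, hc, hsep, ?_⟩
  rintro g ⟨k₁, hk₁, k₂, hk₂, rfl⟩
  obtain ⟨k₀, hk₀, hk⟩ := hcov k₁ hk₁
  have hm := mul_mem hk hk₂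
  refine Set.mem_iUnion₂.2 ⟨k₀, hk₀, (dgl t)⁻¹ * (k₀⁻¹ * k₁) * dgl t * k₂, hm, ?_⟩
  show k₀ * dgl t * ((dgl t)⁻¹ * (k₀⁻¹ * k₁) * dgl t * k₂) = _
  group

/-- The measure of a Cartan cell. -/
theorem measure_cell_le {ε : ℝ} (h0 : 0 < ε) (h1 : ε ≤ 1) : ∃ C : ℝ, 0 < C ∧
    ∀ [MeasurableSpace (GL (Fin n) E)] [BorelSpace (GL (Fin n) E)] (μ : Measure (GL (Fin n) E))
      [μ.IsMulLeftInvariant] (t : Fin n → Eˣ),
      μ (cell ε h0.le h1 t) ≤
        ENNReal.ofReal (C * ∏ i, ∏ j, max 1 ((md ((t j : E) / t i) : ℝ≥0) : ℝ)) *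
          μ (glK (Fin n) E ε h0.le h1 : Set (GL (Fin n) E)) := by
  obtain ⟨C, hC, h⟩ := exists_cells (E := E) (n := n) h0 h1
  refine ⟨C, hC, ?_⟩
  intro _ _ μ _ t
  obtain ⟨s, -, hc, -, hcov⟩ := h t
  have h2 : ∀ g : GL (Fin n) E, μ ((fun x => g * x) ''
      (glK (Fin n) E ε h0.le h1 : Set (GL (Fin n) E))) =
      μ (glK (Fin n) E ε h0.le h1 : Set (GL (Fin n) E)) := by
    intro g
    have h3 : (fun x => g * x) '' (glK (Fin n) E ε h0.le h1 : Set (GL (Fin n) E)) =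
        (fun x => g⁻¹ * x) ⁻¹' (glK (Fin n) E ε h0.le h1 : Set (GL (Fin n) E)) := by
      ext x
      constructor
      · rintro ⟨y, hy, rfl⟩
        show g⁻¹ * (g * y) ∈ (glK (Fin n) E ε h0.le h1 : Set (GL (Fin n) E))
        rwa [inv_mul_cancel_left]
      · intro hx
        exact ⟨g⁻¹ * x, hx, mul_inv_cancel_left _ _⟩
    rw [h3, measure_preimage_mul]
  calc μ (cell ε h0.le h1 t)
      ≤ μ (⋃ k ∈ s, (fun g => k * dgl t * g) ''
        (glK (Fin n) E ε h0.le h1 : Set (GL (Fin n) E))) := measure_mono hcov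
    _ ≤ ∑ k ∈ s, μ ((fun g => k * dgl t * g) ''
        (glK (Fin n) E ε h0.le h1 : Set (GL (Fin n) E))) := measure_biUnion_finset_le _ _
    _ = (s.card : ℝ≥0∞) * μ (glK (Fin n) E ε h0.le h1 : Set (GL (Fin n) E)) := by
        rw [Finset.sum_congr rfl fun k _ => h2 (k * dgl t), Finset.sum_const, nsmul_eq_mul]
    _ ≤ _ := by
        refine mul_le_mul_left ?_ _
        rw [← ENNReal.ofReal_natCast]
        exact ENNReal.ofReal_le_ofReal hc

/-- The integral over `GL_n(E)` is bounded by the sum over the Cartan cells. -/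
theorem lintegral_le_cells {π : Eˣ} (hπ : ∀ x : E, x ≠ 0 → ∃ k : ℤ, ‖x‖ = ‖(π : E)‖ ^ k) :
    ∃ C : ℝ, 0 < C ∧ ∀ [MeasurableSpace (GL (Fin n) E)] [BorelSpace (GL (Fin n) E)]
      (μ : Measure (GL (Fin n) E)) [μ.IsMulLeftInvariant] (f : GL (Fin n) E → ℝ≥0∞)
      (F : (Fin n → ℤ) → ℝ≥0∞)
      (_ : ∀ a, ∀ g ∈ cell (E := E) 1 zero_le_one le_rfl (fun i => π ^ a i), f g ≤ F a),
      ∫⁻ g, f g ∂μ ≤ μ (glK (Fin n) E 1 zero_le_one le_rfl : Set (GL (Fin n) E)) *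
        ∑' a : Fin n → ℤ, F a * ENNReal.ofReal
          (C * ∏ i, ∏ j, max 1 (((md (π : E) : ℝ≥0) : ℝ) ^ (a j - a i))) := by
  obtain ⟨C, hC, h⟩ := measure_cell_le (E := E) (n := n) one_pos le_rfl
  refine ⟨C, hC, ?_⟩
  intro _ _ μ _ f F hF
  have hmd : ∀ (a : Fin n → ℤ) (i j : Fin n),
      ((md ((((π ^ a j : Eˣ) : E)) / ((π ^ a i : Eˣ) : E)) : ℝ≥0) : ℝ) =
        ((md (π : E) : ℝ≥0) : ℝ) ^ (a j - a i) := by
    intro a i j
    rw [Units.val_zpow_eq_zpow_val, Units.val_zpow_eq_zpow_val, ← zpow_sub₀ π.ne_zero]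
    have h5 : ∀ k : ℤ, md ((π : E) ^ k) = md (π : E) ^ k := by
      intro k
      rcases k with m | m
      · rw [Int.ofNat_eq_natCast, zpow_natCast, zpow_natCast, md_pow]
      · rw [zpow_negSucc, zpow_negSucc]
        have h6 : md ((π : E) ^ (m + 1))⁻¹ * md ((π : E) ^ (m + 1)) = 1 := by
          rw [← md_mul, inv_mul_cancel₀ (pow_ne_zero _ π.ne_zero), md_one]
        rw [← md_pow]
        exact eq_inv_of_mul_eq_one_left h6
    rw [h5, NNReal.coe_zpow]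
  calc ∫⁻ g, f g ∂μ = ∫⁻ g in ⋃ a : Fin n → ℤ,
          cell (E := E) 1 zero_le_one le_rfl (fun i => π ^ a i), f g ∂μ := by
        rw [iUnion_cell hπ, Measure.restrict_univ]
    _ ≤ ∑' a : Fin n → ℤ, ∫⁻ g in cell (E := E) 1 zero_le_one le_rfl (fun i => π ^ a i), f g ∂μ :=
        lintegral_iUnion_le _ _
    _ ≤ ∑' a : Fin n → ℤ, F a * μ (cell (E := E) 1 zero_le_one le_rfl (fun i => π ^ a i)) := by
        refine ENNReal.tsum_le_tsum fun a => ?_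
        refine (setLIntegral_mono' (isOpen_cell one_pos le_rfl _).measurableSet (hF a)).trans ?_
        rw [setLIntegral_const]
    _ ≤ ∑' a : Fin n → ℤ, F a * (ENNReal.ofReal
          (C * ∏ i, ∏ j, max 1 (((md (π : E) : ℝ≥0) : ℝ) ^ (a j - a i))) *
          μ (glK (Fin n) E 1 zero_le_one le_rfl : Set (GL (Fin n) E))) := by
        refine ENNReal.tsum_le_tsum fun a => mul_le_mul_right ?_ _
        have h3 := h μ (fun i => π ^ a i)
        simp only [hmd] at h3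
        exact h3
    _ = _ := by
        rw [← ENNReal.tsum_mul_left]
        refine tsum_congr fun a => ?_
        ring

end meas

end SpW.Mo
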