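import Pool.Agent.Work.MP_3615d2_al.Mo.AbsSum

/-! MP_3615d2_al, multiplicity one (note 6684 (1)): exponents of the Cartan cells. -/

open scoped NNReal ENNReal

namespace SpW.Mo

variable {n : ℕ} {q : ℝ}

theorem max_one_zpow_mul (hq : 1 ≤ q) (k : ℤ) : max 1 (q ^ k) * max 1 (q ^ (-k)) = q ^ |k| := by
  have hq0 : 0 < q := one_pos.trans_le hq
  rcases le_total 0 k with h | h
  · rw [abs_of_nonneg h, max_eq_right (one_le_zpow₀ hq h),
      max_eq_left (zpow_le_one_of_nonpos₀ hq (neg_nonpos.2 h)), mul_one]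
  · rw [abs_of_nonpos h, max_eq_left (zpow_le_one_of_nonpos₀ hq h),
      max_eq_right (one_le_zpow₀ hq (neg_nonneg.2 h)), one_mul]

theorem min_one_zpow_sq (hq : 1 ≤ q) (k : ℤ) : min 1 (q ^ k) ^ 2 = q ^ (k - |k|) := by
  have hq0 : 0 < q := one_pos.trans_le hq
  rcases le_total 0 k with h | h
  · rw [abs_of_nonneg h, min_eq_left (one_le_zpow₀ hq h), sub_self, zpow_zero, one_pow]
  · rw [abs_of_nonpos h, min_eq_right (zpow_le_one_of_nonpos₀ hq h), sub_neg_eq_add, ← two_mul,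
      mul_comm, zpow_mul]
    norm_cast

theorem prod_zpow {ι : Type*} (hq : q ≠ 0) (s : Finset ι) (f : ι → ℤ) :
    ∏ i ∈ s, q ^ f i = q ^ ∑ i ∈ s, f i := by
  classical
  induction s using Finset.induction_on with
  | empty => simp
  | insert a s ha ih => rw [Finset.prod_insert ha, Finset.sum_insert ha, ih, zpow_add₀ hq]

/-- The number of cosets in a cell, squared. -/
theorem prod_max_sq (hq : 1 ≤ q) (a : Fin n → ℤ) :
    (∏ i, ∏ j, max 1 (q ^ (a j - a i))) ^ 2 = q ^ ∑ i, ∑ j, |a i - a j| := by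
  have hq0 : q ≠ 0 := (one_pos.trans_le hq).ne'
  rw [sq]
  nth_rewrite 2 [Finset.prod_comm]
  rw [← Finset.prod_mul_distrib]
  have h1 : ∀ i ∈ (Finset.univ : Finset (Fin n)), (∏ j, max 1 (q ^ (a j - a i))) *
      (∏ j, max 1 (q ^ (a i - a j))) = q ^ ∑ j, |a i - a j| := by
    intro i _
    rw [← Finset.prod_mul_distrib, ← prod_zpow hq0]
    refine Finset.prod_congr rfl fun j _ => ?_
    have h2 := max_one_zpow_mul hq (a j - a i)
    rw [neg_sub] at h2
    rw [h2, abs_sub_comm]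
  rw [Finset.prod_congr rfl h1, prod_zpow hq0]

/-- The volume of the box `‖x i j‖ ≤ min 1 ‖t_i t_j‖`, squared. -/
theorem prod_min_sq (hq : 1 ≤ q) (a : Fin n → ℤ) :
    (∏ i, ∏ j, min 1 (q ^ (a i + a j))) ^ 2 =
      q ^ (2 * (n * ∑ i, a i) - ∑ i, ∑ j, |a i + a j|) := by
  have hq0 : q ≠ 0 := (one_pos.trans_le hq).ne'
  rw [← Finset.prod_pow]
  have h1 : ∀ i ∈ (Finset.univ : Finset (Fin n)), (∏ j, min 1 (q ^ (a i + a j))) ^ 2 =
      q ^ ∑ j, ((a i + a j) - |a i + a j|) := by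
    intro i _
    rw [← Finset.prod_pow, ← prod_zpow hq0]
    exact Finset.prod_congr rfl fun j _ => min_one_zpow_sq hq _
  rw [Finset.prod_congr rfl h1, prod_zpow hq0]
  congr 1
  simp only [Finset.sum_sub_distrib, Finset.sum_add_distrib, Finset.sum_const, Finset.card_univ,
    Fintype.card_fin, nsmul_eq_mul]
  rw [← Finset.mul_sum]
  ring

/-- The number of cosets in a cell times the volume of the box. -/
theorem prod_max_mul_prod_min_le (hq : 1 ≤ q) (a : Fin n → ℤ) :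
    (∏ i, ∏ j, max 1 (q ^ (a j - a i))) * (∏ i, ∏ j, min 1 (q ^ (a i + a j))) ≤
      q ^ ((n : ℤ) * ∑ i, a i) := by
  have hq0 : 0 < q := one_pos.trans_le hq
  have hz : ∀ k : ℤ, 0 < q ^ k := fun k => zpow_pos hq0 k
  refine (pow_le_pow_iff_left₀ (mul_nonneg (Finset.prod_nonneg fun i _ => Finset.prod_nonneg
    fun j _ => zero_le_one.trans (le_max_left _ _)) (Finset.prod_nonneg fun i _ =>
    Finset.prod_nonneg fun j _ => le_min zero_le_one (hz _).le)) (hz _).le two_ne_zero).1 ?_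
  rw [mul_pow, prod_max_sq hq, prod_min_sq hq, ← zpow_add₀ hq0.ne']
  have h1 : (q ^ ((n : ℤ) * ∑ i, a i)) ^ 2 = q ^ (2 * ((n : ℤ) * ∑ i, a i)) := by
    rw [two_mul, zpow_add₀ hq0.ne', sq]
  rw [h1]
  refine zpow_le_zpow_right₀ hq ?_
  have := sum_abs_sub_le a
  linarith

/-- The volume of a lattice intersected with its image. -/
theorem prod_min_one_eq (hq : 1 ≤ q) (a : Fin n → ℤ) (h : ∑ i, a i = 0) :
    ∏ i, min 1 (q ^ a i) = (Real.sqrt q)⁻¹ ^ (∑ i, (a i).natAbs) := by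
  have hq0 : 0 < q := one_pos.trans_le hq
  refine (pow_left_inj₀ (Finset.prod_nonneg fun i _ => le_min zero_le_one (zpow_pos hq0 _).le)
    (pow_nonneg (inv_nonneg.2 (Real.sqrt_nonneg _)) _) two_ne_zero).1 ?_
  rw [← Finset.prod_pow, Finset.prod_congr rfl fun i _ => min_one_zpow_sq hq (a i),
    prod_zpow hq0.ne', Finset.sum_sub_distrib, h, zero_sub, ← pow_mul, mul_comm, pow_mul, inv_pow,
    Real.sq_sqrt hq0.le]
  have h2 : ∑ i, |a i| = ((∑ i, (a i).natAbs : ℕ) : ℤ) := by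
    push_cast
    rfl
  rw [h2, zpow_neg, zpow_natCast, inv_pow]

theorem prod_min_neg_eq (hq : 1 ≤ q) (a : Fin n → ℤ) (h : ∑ i, a i = 0) :
    ∏ i, min 1 (q ^ (-(a i))) = (Real.sqrt q)⁻¹ ^ (∑ i, (a i).natAbs) := by
  have h1 := prod_min_one_eq hq (fun i => -(a i)) (by rw [Finset.sum_neg_distrib, h, neg_zero])
  simpa using h1

/-- **The sum over the Cartan cells is finite.** -/
theorem tsum_cells_lt_top (hq : 1 < q) {C C' : ℝ} (hC : 0 ≤ C) (hC' : 0 ≤ C')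
    (F : (Fin n → ℤ) → ℝ≥0∞) (hF0 : ∀ a, ∑ i, a i ≠ 0 → F a = 0)
    (hF : ∀ a, ∑ i, a i = 0 → F a ≤ ENNReal.ofReal
      (C * (∏ i, ∏ j, min 1 (q ^ (a i + a j))) * ∏ i, min 1 (q ^ (a i)))) :
    ∑' a : Fin n → ℤ, F a * ENNReal.ofReal (C' * ∏ i, ∏ j, max 1 (q ^ (a j - a i))) < ∞ := by
  have hq0 : 0 < q := one_pos.trans hq
  have hs : 1 < Real.sqrt q := Real.lt_sqrt_of_sq_lt (by rwa [one_pow])
  have h1 := (summable_pow_sum_natAbs (ι := Fin n) (r := (Real.sqrt q)⁻¹)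
    (inv_nonneg.2 (Real.sqrt_nonneg _)) (inv_lt_one_of_one_lt₀ hs)).mul_left (C * C')
  refine lt_of_le_of_lt (ENNReal.tsum_le_tsum (g := fun a : Fin n → ℤ =>
    ENNReal.ofReal (C * C' * (Real.sqrt q)⁻¹ ^ (∑ i, (a i).natAbs))) fun a => ?_) ?_
  · by_cases ha : ∑ i, a i = 0
    · have hm : (0 : ℝ) ≤ ∏ i, ∏ j, min 1 (q ^ (a i + a j)) := Finset.prod_nonneg fun i _ =>
        Finset.prod_nonneg fun j _ => le_min zero_le_one (zpow_pos hq0 _).le
      have hm2 : (0 : ℝ) ≤ ∏ i, min 1 (q ^ a i) := Finset.prod_nonneg fun i _ =>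
        le_min zero_le_one (zpow_pos hq0 _).le
      refine (mul_le_mul_left (hF a ha) _).trans ?_
      rw [← ENNReal.ofReal_mul (mul_nonneg (mul_nonneg hC hm) hm2)]
      refine ENNReal.ofReal_le_ofReal ?_
      have h2 := prod_max_mul_prod_min_le hq.le a
      rw [ha, mul_zero, zpow_zero] at h2
      rw [← prod_min_one_eq hq.le a ha]
      calc C * (∏ i, ∏ j, min 1 (q ^ (a i + a j))) * (∏ i, min 1 (q ^ (a i))) *
            (C' * ∏ i, ∏ j, max 1 (q ^ (a j - a i)))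
          = C * C' * (∏ i, min 1 (q ^ (a i))) * ((∏ i, ∏ j, max 1 (q ^ (a j - a i))) *
            (∏ i, ∏ j, min 1 (q ^ (a i + a j)))) := by ring
        _ ≤ C * C' * (∏ i, min 1 (q ^ (a i))) * 1 :=
            mul_le_mul_of_nonneg_left h2 (mul_nonneg (mul_nonneg hC hC') hm2)
        _ = _ := mul_one _
    · rw [hF0 a ha, zero_mul]
      exact zero_le
  · have h2 : ∀ a : Fin n → ℤ, 0 ≤ C * C' * (Real.sqrt q)⁻¹ ^ (∑ i, (a i).natAbs) := fun a =>
      mul_nonneg (mul_nonneg hC hC') (pow_nonneg (inv_nonneg.2 (Real.sqrt_nonneg _)) _)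
    rw [← ENNReal.ofReal_tsum_of_nonneg h2 h1]
    exact ENNReal.ofReal_lt_top

end SpW.Mo
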