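import Pool.Agent.Work.MP_3615d2_al.CptOpen
import Pool.Agent.Work.MP_3615d2_al.Quad

/-!
# The Cayley chart of a unitary group near the identity

`Bd r X`: all entries of the matrix `X` have norm at most `r`. `cy X = (1 + X)(1 - X)⁻¹`.
`lieU σ H`: the Lie algebra `{X | Xᵗ H + H σ(X) = 0}` of the unitary group of `H`.
-/

open Filter Topology

namespace SpW.UH

section bd

variable {E : Type} [NontriviallyNormedField E] [IsUltrametricDist E] {N : ℕ}

/-- all entries have norm at most `r` -/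
def Bd (r : ℝ) (X : Matrix (Fin N) (Fin N) E) : Prop := ∀ i j, ‖X i j‖ ≤ r

omit [IsUltrametricDist E] in
theorem Bd.mono {r s : ℝ} {X : Matrix (Fin N) (Fin N) E} (h : Bd r X) (hrs : r ≤ s) : Bd s X :=
  fun i j => (h i j).trans hrs

omit [IsUltrametricDist E] in
theorem Bd.zero {r : ℝ} (hr : 0 ≤ r) : Bd r (0 : Matrix (Fin N) (Fin N) E) := fun i j => by
  rw [Matrix.zero_apply, norm_zero]
  exact hr

omit [IsUltrametricDist E] in
theorem Bd.neg {r : ℝ} {X : Matrix (Fin N) (Fin N) E} (h : Bd r X) : Bd r (-X) := fun i j => by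
  rw [Matrix.neg_apply, norm_neg]
  exact h i j

theorem Bd.add {r : ℝ} {X Y : Matrix (Fin N) (Fin N) E} (h : Bd r X) (h' : Bd r Y) :
    Bd r (X + Y) := fun i j => by
  rw [Matrix.add_apply]
  exact (IsUltrametricDist.norm_add_le_max _ _).trans (max_le (h i j) (h' i j))

theorem Bd.sub {r : ℝ} {X Y : Matrix (Fin N) (Fin N) E} (h : Bd r X) (h' : Bd r Y) :
    Bd r (X - Y) := by
  rw [sub_eq_add_neg]
  exact h.add h'.neg

omit [IsUltrametricDist E] in
theorem Bd.one : Bd 1 (1 : Matrix (Fin N) (Fin N) E) := fun i j => by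
  rw [Matrix.one_apply]
  split_ifs
  · rw [norm_one]
  · rw [norm_zero]
    exact zero_le_one

theorem Bd.mul {r s : ℝ} (hr : 0 ≤ r) (hs : 0 ≤ s) {X Y : Matrix (Fin N) (Fin N) E} (h : Bd r X)
    (h' : Bd s Y) : Bd (r * s) (X * Y) := fun i j => by
  rw [Matrix.mul_apply]
  refine IsUltrametricDist.norm_sum_le_of_forall_le_of_nonneg (mul_nonneg hr hs) fun k _ => ?_
  rw [norm_mul]
  exact mul_le_mul (h i k) (h' k j) (norm_nonneg _) hr

omit [IsUltrametricDist E] in
theorem Bd.smul {r : ℝ} {X : Matrix (Fin N) (Fin N) E} (a : E) (h : Bd r X) :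
    Bd (‖a‖ * r) (a • X) := fun i j => by
  rw [Matrix.smul_apply, smul_eq_mul, norm_mul]
  exact mul_le_mul_of_nonneg_left (h i j) (norm_nonneg _)

omit [IsUltrametricDist E] in
theorem Bd.of_smul {r : ℝ} {X : Matrix (Fin N) (Fin N) E} {a : E} (ha : a ≠ 0)
    (h : Bd (‖a‖ * r) (a • X)) : Bd r X := fun i j => by
  have h1 := h i j
  rw [Matrix.smul_apply, smul_eq_mul, norm_mul] at h1
  exact le_of_mul_le_mul_left h1 (norm_pos_iff.2 ha)

theorem Bd.mul_left {r : ℝ} (hr : 0 ≤ r) {X Y : Matrix (Fin N) (Fin N) E} (h : Bd 1 X)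
    (h' : Bd r Y) : Bd r (X * Y) := by
  have := h.mul zero_le_one hr h'
  rwa [one_mul] at this

theorem Bd.mul_right {r : ℝ} (hr : 0 ≤ r) {X Y : Matrix (Fin N) (Fin N) E} (h : Bd r X)
    (h' : Bd 1 Y) : Bd r (X * Y) := by
  have := h.mul hr zero_le_one h'
  rwa [mul_one] at this

/-- `1 - X` is invertible over the integers if `X` is small -/
theorem Bd.inv_one_sub {r : ℝ} (hr : 0 ≤ r) (hr1 : r < 1) {X : Matrix (Fin N) (Fin N) E}
    (h : Bd r X) : IsUnit (1 - X).det ∧ Bd 1 (1 - X)⁻¹ := by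
  have key : ∀ w v : Fin N → E, (1 - X).mulVec w = v → ∀ C : ℝ, 0 ≤ C → (∀ i, ‖v i‖ ≤ C) →
      ∀ i, ‖w i‖ ≤ C := by
    intro w v hw C hC hv
    -- `w = v + X w`
    have h1 : ∀ i, w i = v i + X.mulVec w i := by
      intro i
      rw [← hw, Matrix.sub_mulVec, Matrix.one_mulVec, Pi.sub_apply, sub_add_cancel]
    rcases isEmpty_or_nonempty (Fin N) with hN | hN
    · exact fun i => isEmptyElim i
    obtain ⟨i₀, hi₀⟩ := Finite.exists_max fun i => ‖w i‖
    have h2 : ‖X.mulVec w i₀‖ ≤ r * ‖w i₀‖ :=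
      cO_mulVec_norm_le X hr h w (norm_nonneg _) hi₀ i₀
    have h3 : ‖w i₀‖ ≤ C := by
      by_contra h4
      push Not at h4
      have h5 : ‖w i₀‖ ≤ max ‖v i₀‖ ‖X.mulVec w i₀‖ := by
        conv_lhs => rw [h1 i₀]
        exact IsUltrametricDist.norm_add_le_max _ _
      rcases le_max_iff.1 h5 with h6 | h6
      · exact absurd (h6.trans (hv i₀)) (not_le.2 h4)
      · have h7 : 0 < ‖w i₀‖ := lt_of_le_of_lt hC h4
        have h8 : r * ‖w i₀‖ < 1 * ‖w i₀‖ := mul_lt_mul_of_pos_right hr1 h7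
        rw [one_mul] at h8
        exact absurd (h6.trans h2) (not_le.2 h8)
    exact fun i => (hi₀ i).trans h3
  have hu : IsUnit (1 - X).det := by
    rw [← Matrix.isUnit_iff_isUnit_det, ← Matrix.mulVec_injective_iff_isUnit]
    intro w w' hww
    have h1 : (1 - X).mulVec (w - w') = 0 := by
      rw [Matrix.mulVec_sub, sub_eq_zero]
      exact hww
    have h2 := key _ _ h1 0 le_rfl (fun i => by rw [Pi.zero_apply, norm_zero])
    funext i
    have h3 := norm_le_zero_iff.1 (h2 i)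
    exact sub_eq_zero.1 h3
  refine ⟨hu, fun i j => ?_⟩
  have h1 : (1 - X).mulVec (fun i => (1 - X)⁻¹ i j) = fun i => (1 : Matrix (Fin N) (Fin N) E) i j := by
    funext k
    have h2 := congrFun (congrFun (Matrix.mul_nonsing_inv (1 - X) hu) k) j
    rw [← h2]
    rfl
  exact key _ _ h1 1 zero_le_one (fun i => Bd.one i j) i

end bd

section cy

variable {E : Type} [Field E] {N : ℕ}

/-- `(1 + X)(1 - X)⁻¹` -/
noncomputable def cy (X : Matrix (Fin N) (Fin N) E) : Matrix (Fin N) (Fin N) E :=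
  (1 + X) * (1 - X)⁻¹

theorem comm_inv {A B : Matrix (Fin N) (Fin N) E} (hA : IsUnit A.det) (h : A * B = B * A) :
    A⁻¹ * B = B * A⁻¹ := by
  calc A⁻¹ * B = A⁻¹ * (B * A) * A⁻¹ := by
        rw [← mul_assoc, Matrix.mul_nonsing_inv_cancel_right _ _ hA]
    _ = B * A⁻¹ := by
        rw [← h, ← mul_assoc, Matrix.nonsing_inv_mul _ hA, one_mul]

theorem cy_comm {X : Matrix (Fin N) (Fin N) E} (h : IsUnit (1 - X).det) :
    cy X = (1 - X)⁻¹ * (1 + X) := by
  unfold cy
  refine (comm_inv h ?_).symm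
  noncomm_ring

theorem cy_neg_mul {X : Matrix (Fin N) (Fin N) E} (h : IsUnit (1 - X).det)
    (h' : IsUnit (1 + X).det) : cy (-X) * cy X = 1 := by
  have h1 : cy (-X) = (1 + X)⁻¹ * (1 - X) := by
    rw [cy_comm (by rwa [sub_neg_eq_add]), sub_neg_eq_add, ← sub_eq_add_neg]
  rw [h1, cy_comm h, mul_assoc, ← mul_assoc (1 - X), Matrix.mul_nonsing_inv _ h, one_mul,
    Matrix.nonsing_inv_mul _ h']

/-- comparison of two points of the chart -/
theorem cy_neg_mul_cy {X Y : Matrix (Fin N) (Fin N) E} (hX' : IsUnit (1 + X).det)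
    (hY : IsUnit (1 - Y).det) :
    cy (-X) * cy Y - 1 = (2 : E) • ((1 + X)⁻¹ * (Y - X) * (1 - Y)⁻¹) := by
  have h1 : cy (-X) = (1 + X)⁻¹ * (1 - X) := by
    rw [cy_comm (by rwa [sub_neg_eq_add]), sub_neg_eq_add, ← sub_eq_add_neg]
  have h2 : (1 : Matrix (Fin N) (Fin N) E) = (1 + X)⁻¹ * ((1 + X) * (1 - Y)) * (1 - Y)⁻¹ := by
    rw [← mul_assoc, Matrix.nonsing_inv_mul _ hX', one_mul, Matrix.mul_nonsing_inv _ hY]
  have h3 : cy (-X) * cy Y = (1 + X)⁻¹ * ((1 - X) * (1 + Y)) * (1 - Y)⁻¹ := by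
    rw [h1, cy]
    simp only [mul_assoc]
  have h4 : (1 - X) * (1 + Y) - (1 + X) * (1 - Y) = (2 : E) • (Y - X) := by
    rw [two_smul]
    noncomm_ring
  calc cy (-X) * cy Y - 1 = (1 + X)⁻¹ * ((1 - X) * (1 + Y)) * (1 - Y)⁻¹ -
        (1 + X)⁻¹ * ((1 + X) * (1 - Y)) * (1 - Y)⁻¹ := by rw [h3, ← h2]
    _ = (2 : E) • ((1 + X)⁻¹ * (Y - X) * (1 - Y)⁻¹) := by
        rw [← sub_mul, ← mul_sub, h4, Matrix.mul_smul, Matrix.smul_mul]

end cy

section mat

open Matrix

variable {F E : Type} [Field F] [Field E] [Algebra F E] {σ : E ≃ₐ[F] E} {m : ℕ}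

theorem mo_sk_dot (H : Matrix (Fin m) (Fin m) E) (x y : Fin m → E) :
    sk σ H x y = x ⬝ᵥ (H *ᵥ (fun i => σ (y i))) := by
  simp only [sk, dotProduct, mulVec, Finset.mul_sum, mul_assoc]

theorem mo_sk_gram (H P : Matrix (Fin m) (Fin m) E) (x y : Fin m → E) :
    sk σ H (P.mulVec x) (P.mulVec y) = sk σ (Pᵀ * H * P.map σ) x y := by
  rw [mo_sk_dot, mo_sk_dot]
  have h1 : (fun i => σ ((P.mulVec y) i)) = (P.map σ).mulVec (fun i => σ (y i)) := by
    funext i
    simp [mulVec, dotProduct]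
  rw [h1, ← Matrix.mulVec_mulVec, ← Matrix.mulVec_mulVec, Matrix.dotProduct_mulVec (P.mulVec x),
    Matrix.dotProduct_mulVec x, Matrix.vecMul_transpose, ← Matrix.dotProduct_mulVec]

theorem mo_sk_single (H : Matrix (Fin m) (Fin m) E) (i j : Fin m) :
    sk σ H (Pi.single i 1) (Pi.single j 1) = H i j := by
  rw [mo_sk_dot, single_one_dotProduct]
  have h1 : (fun k => σ ((Pi.single j (1 : E) : Fin m → E) k)) = Pi.single j 1 := by
    funext k
    by_cases hk : k = j
    · subst hk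
      simp
    · simp [hk]
  rw [h1, mulVec_single_one]
  rfl

theorem mo_ext_sk {H H' : Matrix (Fin m) (Fin m) E} (h : ∀ x y, sk σ H x y = sk σ H' x y) :
    H = H' := by
  ext i j
  rw [← mo_sk_single (σ := σ) H, ← mo_sk_single (σ := σ) H', h]

theorem mo_det_map (P : Matrix (Fin m) (Fin m) E) : (P.map σ).det = σ P.det := by
  have := (σ : E →+* E).map_det P
  exact this.symm

end mat

section lie

variable {F E : Type} [Field F] [Field E] [Algebra F E] {N : ℕ}

/-- the Lie algebra of the unitary group of `H` -/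
def lieU (σ : E ≃ₐ[F] E) (H : Matrix (Fin N) (Fin N) E) :
    Submodule F (Matrix (Fin N) (Fin N) E) where
  carrier := {X | X.transpose * H + H * X.map σ = 0}
  add_mem' := by
    intro X Y hX hY
    have h1 : (X + Y).map σ = X.map σ + Y.map σ := by
      ext i j
      simp
    show (X + Y).transpose * H + H * (X + Y).map σ = 0
    rw [Matrix.transpose_add, h1, add_mul, mul_add]
    calc _ = (X.transpose * H + H * X.map σ) + (Y.transpose * H + H * Y.map σ) := by abel
      _ = 0 := by rw [show X.transpose * H + H * X.map σ = 0 from hX,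
        show Y.transpose * H + H * Y.map σ = 0 from hY, add_zero]
  zero_mem' := by
    have h1 : (0 : Matrix (Fin N) (Fin N) E).map σ = 0 := by
      ext i j
      simp
    show (0 : Matrix (Fin N) (Fin N) E).transpose * H + H * (0 : Matrix (Fin N) (Fin N) E).map σ = 0
    rw [h1, Matrix.transpose_zero, zero_mul, mul_zero, add_zero]
  smul_mem' := by
    intro a X hX
    have h1 : (a • X).map σ = a • X.map σ := by
      ext i j
      simp
    show (a • X).transpose * H + H * (a • X).map σ = 0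
    rw [Matrix.transpose_smul, h1, Matrix.smul_mul, Matrix.mul_smul, ← smul_add,
      show X.transpose * H + H * X.map σ = 0 from hX, smul_zero]

variable {σ : E ≃ₐ[F] E} {H : Matrix (Fin N) (Fin N) E}

theorem mem_lieU {X : Matrix (Fin N) (Fin N) E} :
    X ∈ lieU σ H ↔ X.transpose * H + H * X.map σ = 0 := Iff.rfl

theorem map_mul' (A B : Matrix (Fin N) (Fin N) E) : (A * B).map σ = A.map σ * B.map σ :=
  Matrix.map_mul (f := (σ : E →+* E))

theorem map_one' : (1 : Matrix (Fin N) (Fin N) E).map σ = 1 :=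
  Matrix.map_one _ (map_zero σ) (map_one σ)

theorem um_mul (g h : unitary σ H) : umat (g * h) = umat g * umat h := rfl

theorem um_one : umat (1 : unitary σ H) = 1 := rfl

theorem um_mul_inv (g : unitary σ H) : umat g * umat g⁻¹ = 1 := by
  rw [← um_mul, mul_inv_cancel, um_one]

theorem um_inv_mul (g : unitary σ H) : umat g⁻¹ * umat g = 1 := by
  rw [← um_mul, inv_mul_cancel, um_one]

/-- the matrix form of the isometry condition -/
theorem mem_unitary_iff {g : GL (Fin N) E} : g ∈ unitary σ H ↔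
    (g : Matrix (Fin N) (Fin N) E).transpose * H * (g : Matrix (Fin N) (Fin N) E).map σ = H := by
  constructor
  · intro h
    refine mo_ext_sk (σ := σ) fun x y => ?_
    rw [← mo_sk_gram]
    exact h x y
  · intro h x y
    rw [mo_sk_gram, h]

theorem umat_gram (g : unitary σ H) :
    (umat g).transpose * H * (umat g).map σ = H := mem_unitary_iff.1 g.2

/-- `H σ(g) = g⁻ᵗ H` -/
theorem umat_gram' (g : unitary σ H) :
    H * (umat g).map σ = (umat g⁻¹).transpose * H := by
  have h1 := umat_gram g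
  have h2 : (umat g⁻¹).transpose * (umat g).transpose = 1 := by
    rw [← Matrix.transpose_mul, um_mul_inv, Matrix.transpose_one]
  calc H * (umat g).map σ = ((umat g⁻¹).transpose * (umat g).transpose) * (H * (umat g).map σ) := by
        rw [h2, one_mul]
    _ = (umat g⁻¹).transpose * ((umat g).transpose * H * (umat g).map σ) := by
        simp only [mul_assoc]
    _ = (umat g⁻¹).transpose * H := by rw [h1]

theorem conj_mem_lieU (g : unitary σ H) {X : Matrix (Fin N) (Fin N) E} (hX : X ∈ lieU σ H) :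
    umat g * X * umat g⁻¹ ∈ lieU σ H := by
  rw [mem_lieU, Matrix.transpose_mul, Matrix.transpose_mul, map_mul', map_mul']
  have h1 := umat_gram' g
  have h2 := umat_gram' g⁻¹
  rw [inv_inv] at h2
  have h3 : (umat g⁻¹).transpose * (X.transpose * (umat g).transpose) * H =
      (umat g⁻¹).transpose * (X.transpose * H) * (umat g⁻¹).map σ := by
    rw [mul_assoc, mul_assoc, ← h2]
    simp only [mul_assoc]
  have h4 : H * ((umat g).map σ * X.map σ * (umat g⁻¹).map σ) =
      (umat g⁻¹).transpose * (H * X.map σ) * (umat g⁻¹).map σ := by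
    rw [← mul_assoc, ← mul_assoc, h1]
    simp only [mul_assoc]
  rw [h3, h4, ← add_mul, ← mul_add, show X.transpose * H + H * X.map σ = 0 from hX, mul_zero,
    zero_mul]

end lie

section dagger

variable {F E : Type} [Field F] [Field E] [Algebra F E] {N : ℕ} {σ : E ≃ₐ[F] E} {δ : E} {d : F}
  {H : Matrix (Fin N) (Fin N) E}

theorem map_map_sig (hq : QuadDatum σ δ d) (A : Matrix (Fin N) (Fin N) E) :
    (A.map σ).map σ = A := by
  ext i j
  exact sig_sig hq _

theorem skew_map (hH : IsSkew σ H) : H.map σ = -H.transpose := by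
  ext i j
  rw [Matrix.map_apply, Matrix.neg_apply, Matrix.transpose_apply, hH.skew i j, neg_neg]

theorem isUnit_det (hH : IsSkew σ H) : IsUnit H.det := isUnit_iff_ne_zero.2 hH.det_ne

/-- every matrix is the sum of an element of the Lie algebra and `δ` times another one -/
theorem exists_lie_add (hq : QuadDatum σ δ d) (hH : IsSkew σ H) (A : Matrix (Fin N) (Fin N) E) :
    ∃ X ∈ lieU σ H, ∃ Y ∈ lieU σ H, A = X + δ • Y := by
  have h2 := hq.two_E
  have hu := isUnit_det hH
  -- the adjoint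
  set D : Matrix (Fin N) (Fin N) E := (H⁻¹ * A.transpose * H).map σ with hD
  have hHt : H.transpose.map σ = -H := by
    have h := skew_map hH
    have h3 : H.transpose.map σ = (H.map σ).transpose := rfl
    rw [h3, h, Matrix.transpose_neg, Matrix.transpose_transpose]
  have h1 : H * D.map σ = A.transpose * H := by
    rw [hD, map_map_sig hq, ← mul_assoc, ← mul_assoc, Matrix.mul_nonsing_inv _ hu, one_mul]
  have h3 : D.transpose * H = H * A.map σ := by
    have h4 := congrArg (fun M : Matrix (Fin N) (Fin N) E => (M.transpose).map σ) h1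
    simp only [Matrix.transpose_mul, Matrix.transpose_transpose] at h4
    rw [map_mul', map_mul', hHt] at h4
    have h5 : ((D.map σ).transpose).map σ = D.transpose := by
      have : ((D.map σ).transpose).map σ = ((D.map σ).map σ).transpose := rfl
      rw [this, map_map_sig hq]
    rw [h5, mul_neg, neg_mul, neg_inj] at h4
    exact h4
  have hmA : ∀ (a : E) (M : Matrix (Fin N) (Fin N) E), (a • M).map σ = σ a • M.map σ := by
    intro a M
    ext i j
    simp
  have hadd : ∀ M M' : Matrix (Fin N) (Fin N) E, (M + M').map σ = M.map σ + M'.map σ := by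
    intro M M'
    ext i j
    simp
  have hsub : ∀ M M' : Matrix (Fin N) (Fin N) E, (M - M').map σ = M.map σ - M'.map σ := by
    intro M M'
    ext i j
    simp
  have h2' : σ (2 : E)⁻¹ = (2 : E)⁻¹ := by
    rw [map_inv₀, map_ofNat]
  refine ⟨(2 : E)⁻¹ • (A - D), ?_, δ⁻¹ • ((2 : E)⁻¹ • (A + D)), ?_, ?_⟩
  · rw [mem_lieU, Matrix.transpose_smul, hmA, h2', Matrix.smul_mul, Matrix.mul_smul, ← smul_add,
      Matrix.transpose_sub, hsub, sub_mul, mul_sub, h1, h3]
    rw [show A.transpose * H - H * A.map σ + (H * A.map σ - A.transpose * H) = 0 by abel, smul_zero]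
  · rw [mem_lieU, Matrix.transpose_smul, hmA, map_inv₀, hq.sig, Matrix.smul_mul, Matrix.mul_smul,
      Matrix.transpose_smul, hmA, h2', Matrix.smul_mul, Matrix.mul_smul, Matrix.transpose_add,
      hadd, add_mul, mul_add, h1, h3, inv_neg, neg_smul, ← sub_eq_add_neg, ← smul_sub, ← smul_sub]
    rw [show A.transpose * H + H * A.map σ - (H * A.map σ + A.transpose * H) = 0 by abel,
      smul_zero, smul_zero]
  · rw [smul_inv_smul₀ hq.ne, ← smul_add]
    rw [show A - D + (A + D) = (2 : E) • A by rw [two_smul]; abel, inv_smul_smul₀ h2]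

theorem lie_inter (hq : QuadDatum σ δ d) (hH : IsSkew σ H) {X Y : Matrix (Fin N) (Fin N) E}
    (hX : X ∈ lieU σ H) (hY : Y ∈ lieU σ H) (h : X + δ • Y = 0) : X = 0 ∧ Y = 0 := by
  have hX' : X = -(δ • Y) := eq_neg_of_add_eq_zero_left h
  have hY' := mem_lieU.1 hY
  have hmA : ((-(δ • Y)).map σ) = δ • Y.map σ := by
    ext i j
    simp [hq.sig]
  have h1 := mem_lieU.1 hX
  rw [hX', hmA, Matrix.transpose_neg, Matrix.transpose_smul, neg_mul, Matrix.smul_mul,
    Matrix.mul_smul, eq_neg_of_add_eq_zero_left hY', smul_neg, neg_neg, ← two_smul E,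
    smul_smul] at h1
  have h3 : H * Y.map σ = 0 := (smul_eq_zero.1 h1).resolve_left (mul_ne_zero hq.two_E hq.ne)
  have h4 : Y.map σ = 0 := by
    have h5 := congrArg (fun M => H⁻¹ * M) h3
    simp only [mul_zero, ← mul_assoc, Matrix.nonsing_inv_mul _ (isUnit_det hH), one_mul] at h5
    exact h5
  have h5 : Y = 0 := by
    rw [← map_map_sig hq Y, h4]
    ext i j
    simp
  exact ⟨by rw [hX', h5, smul_zero, neg_zero], h5⟩

end dagger

section chart

variable {F E : Type} [Field F] [NontriviallyNormedField E] [IsUltrametricDist E] [Algebra F E]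
  {N : ℕ} {σ : E ≃ₐ[F] E} {H : Matrix (Fin N) (Fin N) E}

theorem Bd.add_one {r : ℝ} (hr : 0 ≤ r) (hr1 : r < 1) {X : Matrix (Fin N) (Fin N) E}
    (h : Bd r X) : IsUnit (1 + X).det ∧ Bd 1 (1 + X)⁻¹ := by
  have h1 := h.neg.inv_one_sub hr hr1
  rwa [sub_neg_eq_add] at h1

omit [IsUltrametricDist E] in
/-- the matrix form of the isometry condition on the chart -/
theorem gram_iff (h2 : (2 : E) ≠ 0) {g X : Matrix (Fin N) (Fin N) E} (hX : IsUnit (1 - X).det)
    (hg : g * (1 - X) = 1 + X) :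
    g.transpose * H * g.map σ = H ↔ X ∈ lieU σ H := by
  have hmap : ∀ M : Matrix (Fin N) (Fin N) E, (1 - M).map σ = 1 - M.map σ := by
    intro M
    rw [Matrix.map_sub σ (fun a b => map_sub σ a b), map_one']
  have hmap' : ∀ M : Matrix (Fin N) (Fin N) E, (1 + M).map σ = 1 + M.map σ := by
    intro M
    rw [Matrix.map_add σ (fun a b => map_add σ a b), map_one']
  have e1 : (1 - X).transpose * (g.transpose * H * g.map σ) * (1 - X).map σ =
      (1 + X).transpose * H * (1 + X).map σ := by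
    rw [← hg, map_mul', Matrix.transpose_mul]
    simp only [mul_assoc]
  have e2 : (1 + X).transpose * H * (1 + X).map σ - (1 - X).transpose * H * (1 - X).map σ =
      (2 : E) • (X.transpose * H + H * X.map σ) := by
    rw [hmap, hmap', Matrix.transpose_add, Matrix.transpose_sub, Matrix.transpose_one, two_smul]
    noncomm_ring
  have u1 : IsUnit ((1 - X).transpose) := by
    rw [Matrix.isUnit_iff_isUnit_det, Matrix.det_transpose]
    exact hX
  have u2 : IsUnit ((1 - X).map σ) := by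
    rw [Matrix.isUnit_iff_isUnit_det, mo_det_map]
    exact hX.map σ
  constructor
  · intro h
    rw [h] at e1
    rw [← e1, sub_self] at e2
    exact mem_lieU.2 ((smul_eq_zero.1 e2.symm).resolve_left h2)
  · intro h
    rw [mem_lieU.1 h, smul_zero, sub_eq_zero] at e2
    rw [← e1] at e2
    exact u1.mul_left_cancel (u2.mul_right_cancel e2)

omit [IsUltrametricDist E] in
theorem cy_mul {X : Matrix (Fin N) (Fin N) E} (hX : IsUnit (1 - X).det) :
    cy X * (1 - X) = 1 + X := by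
  rw [cy, mul_assoc, Matrix.nonsing_inv_mul _ hX, mul_one]

theorem exists_chart (h2 : (2 : E) ≠ 0) {r : ℝ} (hr : 0 ≤ r) (hr1 : r < 1)
    {X : Matrix (Fin N) (Fin N) E} (hX : X ∈ lieU σ H) (hb : Bd r X) :
    ∃ g : unitary σ H, umat g = cy X := by
  have u1 := (hb.inv_one_sub hr hr1).1
  have u2 := (hb.add_one hr hr1).1
  have u3 : IsUnit (1 - -X).det := by rwa [sub_neg_eq_add]
  have u4 : IsUnit (1 + -X).det := by rwa [← sub_eq_add_neg]
  have h3 : cy X * cy (-X) = 1 := by
    have := cy_neg_mul u3 u4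
    rwa [neg_neg] at this
  refine ⟨⟨⟨cy X, cy (-X), h3, cy_neg_mul u1 u2⟩, ?_⟩, rfl⟩
  exact mem_unitary_iff.2 ((gram_iff h2 u1 (cy_mul u1)).2 hX)

theorem exists_log (h2 : (2 : E) ≠ 0) {r : ℝ} (hr : 0 ≤ r) (hr1 : r < 1) (g : unitary σ H)
    (hg : Bd (‖(2 : E)‖ * r) (umat g - 1)) :
    ∃ X ∈ lieU σ H, Bd r X ∧ umat g = cy X := by
  set Z : Matrix (Fin N) (Fin N) E := (2 : E)⁻¹ • (umat g - 1) with hZ
  have hZ2 : umat g = 1 + (2 : E) • Z := by
    rw [hZ, smul_inv_smul₀ h2]
    abel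
  have hZb : Bd r Z := by
    refine Bd.of_smul h2 ?_
    rw [hZ, smul_inv_smul₀ h2]
    exact hg
  obtain ⟨u1, b1⟩ := hZb.add_one hr hr1
  set X := Z * (1 + Z)⁻¹ with hX
  have h3 : 1 - X = (1 + Z)⁻¹ := by
    have h4 : (1 : Matrix (Fin N) (Fin N) E) = (1 + Z) * (1 + Z)⁻¹ := (Matrix.mul_nonsing_inv _ u1).symm
    calc 1 - X = (1 + Z) * (1 + Z)⁻¹ - Z * (1 + Z)⁻¹ := by rw [← h4]
      _ = (1 + Z)⁻¹ := by rw [← sub_mul, add_sub_cancel_right, one_mul]
  have u2 : IsUnit (1 - X).det := by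
    rw [h3]
    exact Matrix.isUnit_nonsing_inv_det _ u1
  have h5 : umat g * (1 - X) = 1 + X := by
    rw [h3, hZ2]
    have h4 : (1 : Matrix (Fin N) (Fin N) E) = (1 + Z) * (1 + Z)⁻¹ := (Matrix.mul_nonsing_inv _ u1).symm
    calc (1 + (2 : E) • Z) * (1 + Z)⁻¹ = (1 + Z) * (1 + Z)⁻¹ + Z * (1 + Z)⁻¹ := by
          rw [← add_mul, two_smul, add_assoc]
      _ = 1 + X := by rw [← h4]
  refine ⟨X, (gram_iff h2 u2 h5).1 (umat_gram g), ?_, ?_⟩
  · exact hZb.mul_right hr b1
  · rw [cy, ← h5, mul_assoc, Matrix.mul_nonsing_inv _ u2, mul_one]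

/-- the chart matches cosets -/
theorem chart_compare (h2 : (2 : E) ≠ 0) {r k : ℝ} (hr : 0 ≤ r) (hr1 : r < 1) (hk : 0 ≤ k)
    {X Y : Matrix (Fin N) (Fin N) E} (hX : Bd r X) (hY : Bd r Y) {g g' : unitary σ H}
    (hg : umat g = cy X) (hg' : umat g' = cy Y) :
    Bd (‖(2 : E)‖ * k) (umat (g⁻¹ * g') - 1) ↔ Bd k (Y - X) := by
  obtain ⟨u1, b1⟩ := hX.inv_one_sub hr hr1
  obtain ⟨u2, b2⟩ := hX.add_one hr hr1
  obtain ⟨u3, b3⟩ := hY.inv_one_sub hr hr1
  have h3 : umat g⁻¹ = cy (-X) := by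
    have h4 : umat g * umat g⁻¹ = 1 := um_mul_inv g
    rw [hg] at h4
    exact (left_inv_eq_right_inv (cy_neg_mul u1 u2) h4).symm
  have h5 : umat (g⁻¹ * g') - 1 = (2 : E) • ((1 + X)⁻¹ * (Y - X) * (1 - Y)⁻¹) := by
    rw [um_mul, h3, hg', cy_neg_mul_cy u2 u3]
  have bX : Bd 1 (1 + X) := Bd.one.add (hX.mono hr1.le)
  have bY : Bd 1 (1 - Y) := Bd.one.sub (hY.mono hr1.le)
  rw [h5]
  constructor
  · intro h
    have h6 := Bd.of_smul h2 h
    have h7 := (bX.mul_left hk h6).mul_right hk bY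
    rwa [mul_assoc, Matrix.nonsing_inv_mul_cancel_right _ _ u3, ← mul_assoc,
      Matrix.mul_nonsing_inv _ u2, one_mul] at h7
  · intro h
    exact ((b2.mul_left hk h).mul_right hk b3).smul 2

omit [IsUltrametricDist E] in
theorem cy_conj {X g g' : Matrix (Fin N) (Fin N) E} (hg : g * g' = 1) (hg' : g' * g = 1)
    (hX : IsUnit (1 - X).det) : cy (g * X * g') = g * cy X * g' := by
  have h1 : 1 - g * X * g' = g * (1 - X) * g' := by
    rw [mul_sub, mul_one, sub_mul, hg]
  have h2 : 1 + g * X * g' = g * (1 + X) * g' := by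
    rw [mul_add, mul_one, add_mul, hg]
  have h3 : (1 - g * X * g')⁻¹ = g * (1 - X)⁻¹ * g' := by
    rw [h1]
    refine Matrix.inv_eq_right_inv ?_
    calc g * (1 - X) * g' * (g * (1 - X)⁻¹ * g') =
        g * (1 - X) * (g' * g) * (1 - X)⁻¹ * g' := by simp only [mul_assoc]
      _ = 1 := by rw [hg', mul_one, Matrix.mul_nonsing_inv_cancel_right _ _ hX, hg]
  rw [cy, cy, h2, h3]
  calc g * (1 + X) * g' * (g * (1 - X)⁻¹ * g') =
      g * (1 + X) * (g' * g) * (1 - X)⁻¹ * g' := by simp only [mul_assoc]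
    _ = g * ((1 + X) * (1 - X)⁻¹) * g' := by rw [hg', mul_one]; simp only [mul_assoc]

end chart

end SpW.UH
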