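import Pool.Agent.Work.MP_3615d2_al.Mo.DensC
import Pool.Agent.Work.MP_3615d2_al.Mo.CartCell

/-!
MP_3615d2_al, multiplicity one, counting block 5: measures of the parts of the Cartan cells
where the Gram matrices are bounded.
-/

open MeasureTheory Measure Filter Topology Matrix
open scoped NNReal ENNReal Pointwise

set_option linter.unusedSectionVars false

namespace SpW.Mo.Cv

section box

variable {E : Type} [NontriviallyNormedField E] [IsUltrametricDist E] [ProperSpace E]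
  [MeasurableSpace E] [BorelSpace E] {m : ℕ}

/-- the volume of the box `‖M i j‖ ≤ R min 1 ‖u i j‖` -/
theorem bxS_min (ν : Measure (Fin m → Fin m → E)) [ν.IsAddHaarMeasure] (R : ℝ) :
    ∃ C : ℝ≥0∞, C ≠ ∞ ∧ ∀ u : Fin m → Fin m → Eˣ,
      ν (bxS E fun i j => R * min 1 ‖(u i j : E)‖) ≤
        C * ((∏ i, ∏ j, min 1 (md (u i j : E)) : ℝ≥0) : ℝ≥0∞) := by
  let _ : MeasurableSpace (GL (Fin m) E) := borel _
  have : BorelSpace (GL (Fin m) E) := ⟨rfl⟩
  obtain ⟨C, hC, h⟩ := bxS_scale ν R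
  refine ⟨C * ν (box fun _ _ => (1 : E)), ENNReal.mul_ne_top hC (isCompact_box _).measure_lt_top.ne,
    fun u => ?_⟩
  refine (h (fun i j => min 1 ‖(u i j : E)‖)
    fun i j => le_min zero_le_one (norm_nonneg _)).trans ?_
  set c : Fin m → Fin m → E := fun i j => if ‖(u i j : E)‖ ≤ 1 then (u i j : E) else 1 with hc
  have hc0 : ∀ i j, c i j ≠ 0 := by
    intro i j
    simp only [hc]
    split_ifs
    · exact (u i j).ne_zero
    · exact one_ne_zero
  have hcn : ∀ i j, ‖c i j‖ = min 1 ‖(u i j : E)‖ := by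
    intro i j
    simp only [hc]
    split_ifs with h
    · rw [min_eq_right h]
    · rw [min_eq_left (not_le.1 h).le, norm_one]
  have hcm : ∀ i j, md (c i j) = min 1 (md (u i j : E)) := by
    intro i j
    simp only [hc]
    split_ifs with h
    · rw [min_eq_right (md_le_one h)]
    · have h2 : (1 : ℝ≥0) ≤ md (u i j : E) := by
        have h3 := md_mono (F := E) (x := 1) (y := u i j) (by rw [norm_one]; exact (not_le.1 h).le)
        rwa [md_one] at h3
      rw [min_eq_left h2, md_one]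
  have h1 : (bxS E fun i j => min 1 ‖(u i j : E)‖) = box c := by
    ext M
    show (∀ i j, ‖M i j‖ ≤ min 1 ‖(u i j : E)‖) ↔ ∀ i j, ‖M i j‖ ≤ ‖c i j‖
    simp only [hcn]
  have h2 := image_linearEquiv ν (scaleL c hc0) (box fun _ _ => (1 : E))
  rw [scaleL_image, det_scaleL] at h2
  have h3 : md (∏ i, ∏ j, c i j) = ∏ i, ∏ j, min 1 (md (u i j : E)) := by
    rw [mdp]
    refine Finset.prod_congr rfl fun i _ => ?_
    rw [mdp]
    exact Finset.prod_congr rfl fun j _ => hcm i j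
  rw [h1, h2, h3]
  exact le_of_eq (by ring)

end box

section fac

variable {F E : Type} [NontriviallyNormedField F] [IsUltrametricDist F] [ProperSpace F]
  [NontriviallyNormedField E] [NormedAlgebra F E] [IsUltrametricDist E] [ProperSpace E]
  {σ : E ≃ₐ[F] E} {δ : E} {d : F} {m : ℕ}

theorem gram_dgl (M : Matrix (Fin m) (Fin m) E) (t : Fin m → Eˣ) (i j : Fin m) :
    gram σ M ((dgl t : GL (Fin m) E) : Matrix (Fin m) (Fin m) E) i j =
      (t i : E) * M i j * σ (t j : E) := by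
  have h1 : (Matrix.diagonal fun i => (t i : E)).map σ = Matrix.diagonal fun i => σ (t i : E) :=
    Matrix.diagonal_map (map_zero σ)
  rw [gram, dgl_val, Matrix.diagonal_transpose, h1, Matrix.mul_diagonal, Matrix.diagonal_mul]

theorem gram_dgl_norm (hq : QuadDatum σ δ d) (M : Matrix (Fin m) (Fin m) E) (t : Fin m → Eˣ)
    (i j : Fin m) :
    ‖gram σ M ((dgl t : GL (Fin m) E) : Matrix (Fin m) (Fin m) E) i j‖ =
      ‖(t i : E) * t j‖ * ‖M i j‖ := by
  rw [gram_dgl, norm_mul, norm_mul, norm_mul, sg_norm hq]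
  ring

/-- Gram matrices of `x` and `x k`, `k` integral. -/
theorem gram_right_le (hq : QuadDatum σ δ d) {H : Matrix (Fin m) (Fin m) E} {R : ℝ} (hR : 0 ≤ R)
    {x k : GL (Fin m) E} (hk : k ∈ glK (Fin m) E 1 zero_le_one le_rfl)
    (h : ∀ i j, ‖gram σ H ((x * k : GL (Fin m) E) : Matrix (Fin m) (Fin m) E) i j‖ ≤ R)
    (i j : Fin m) : ‖gram σ H (x : Matrix (Fin m) (Fin m) E) i j‖ ≤ R := by
  have h1 : gram σ H (x : Matrix (Fin m) (Fin m) E) =
      gram σ (gram σ H ((x * k : GL (Fin m) E) : Matrix (Fin m) (Fin m) E))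
        ((k⁻¹ : GL (Fin m) E) : Matrix (Fin m) (Fin m) E) := by
    rw [← gram_mul, ← Units.val_mul, mul_inv_cancel_right]
  rw [h1]
  exact gram_entry_le hq hR h (glK_entry_inv hk) i j

theorem exists_gram_bound (hq : QuadDatum σ δ d) (H : Matrix (Fin m) (Fin m) E)
    {Ω : Set (GL (Fin m) E)} (hΩ : IsCompact Ω) : ∃ R : ℝ, 0 < R ∧ ∀ g ∈ Ω, ∀ i j,
      ‖gram σ H (g : Matrix (Fin m) (Fin m) E) i j‖ ≤ R := by
  have h1 : ∀ i j, ∃ R : ℝ, ∀ g ∈ Ω, ‖gram σ H (g : Matrix (Fin m) (Fin m) E) i j‖ ≤ R := by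
    intro i j
    have h2 : Continuous fun g : GL (Fin m) E =>
        gram σ H (g : Matrix (Fin m) (Fin m) E) i j :=
      ((continuous_gram hq H).comp Units.continuous_val).matrix_elem i j
    obtain ⟨R, hR⟩ := (hΩ.image h2).isBounded.exists_norm_le
    exact ⟨R, fun g hg => hR _ ⟨g, hg, rfl⟩⟩
  choose R hR using h1
  refine ⟨1 + ∑ i, ∑ j, |R i j|, ?_, fun g hg i j => ?_⟩
  · have : 0 ≤ ∑ i, ∑ j, |R i j| :=
      Finset.sum_nonneg fun i _ => Finset.sum_nonneg fun j _ => abs_nonneg _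
    linarith
  · have h3 : |R i j| ≤ ∑ j, |R i j| :=
      Finset.single_le_sum (f := fun j => |R i j|) (fun j _ => abs_nonneg _) (Finset.mem_univ j)
    have h4 : ∑ j, |R i j| ≤ ∑ i, ∑ j, |R i j| :=
      Finset.single_le_sum (f := fun i => ∑ j, |R i j|)
        (fun i _ => Finset.sum_nonneg fun j _ => abs_nonneg _) (Finset.mem_univ i)
    have h5 := hR i j g hg
    have h6 := le_abs_self (R i j)
    linarith

/-- `‖a‖ ≤ R ‖u‖` and `‖a‖ ≤ R` -/
theorem le_mul_min {a R u : ℝ} (h1 : a ≤ R) (h2 : a ≤ R * u) : a ≤ R * min 1 u := by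
  rcases le_total 1 u with h | h
  · rwa [min_eq_left h, mul_one]
  · rwa [min_eq_right h]

variable [MeasurableSpace E] [BorelSpace E] [MeasurableSpace (GL (Fin m) E)]
  [BorelSpace (GL (Fin m) E)]

/-- The first factor: elements `g` of a compact set with `(g k⁻¹)ᵀ H σ(g k⁻¹)` bounded, for `k` in
the Cartan cell of `dgl t`. -/
theorem fac_one (hq : QuadDatum σ δ d) (μ : Measure (GL (Fin m) E)) [μ.IsHaarMeasure]
    [μ.IsMulRightInvariant] (H : Matrix (Fin m) (Fin m) E) (hH : cst σ H = -H) (hdet : IsUnit H)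
    {R : ℝ} (hR : 0 < R) {Ω : Set (GL (Fin m) E)} (hΩ : IsCompact Ω) :
    ∃ C : ℝ≥0∞, C ≠ ∞ ∧ ∀ (t : Fin m → Eˣ), ∀ k ∈ cell 1 zero_le_one le_rfl t,
      μ {g | g ∈ Ω ∧ ∀ i j,
        ‖gram σ H ((g * k⁻¹ : GL (Fin m) E) : Matrix (Fin m) (Fin m) E) i j‖ ≤ R} ≤
        C * ((∏ i, ∏ j, min 1 (md ((t i : E) * t j)) : ℝ≥0) : ℝ≥0∞) ^ (1 / 2 : ℝ) := by
  set K := glK (Fin m) E 1 zero_le_one le_rfl with hK
  have hΩ' : IsCompact (Ω * (K : Set (GL (Fin m) E))) := hΩ.mul (glK_isCompact one_pos le_rfl)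
  obtain ⟨R₁, hR₁, hΩR⟩ := exists_gram_bound hq H hΩ'
  set R₂ := max R R₁ with hR₂
  have hR₂0 : 0 < R₂ := lt_max_of_lt_left hR
  obtain ⟨C₁, hC₁, h1⟩ := dens_one hq μ addHaar H hH hdet _ hΩ'
  obtain ⟨C₂, hC₂, h2⟩ := bxS_min (addHaar : Measure (Fin m → Fin m → E)) R₂
  refine ⟨C₁ * C₂ ^ (1 / 2 : ℝ), ENNReal.mul_ne_top hC₁
    (ENNReal.rpow_ne_top_of_nonneg (by norm_num) hC₂), ?_⟩
  rintro t k ⟨k₁, hk₁, k₂, hk₂, rfl⟩
  set c : Fin m → Fin m → ℝ := fun i j => R₂ * min 1 ‖((t i * t j : Eˣ) : E)‖ with hc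
  have hc0 : ∀ i j, 0 < c i j := fun i j =>
    mul_pos hR₂0 (lt_min one_pos (norm_pos_iff.2 (t i * t j).ne_zero))
  have h3 : {g | g ∈ Ω ∧ ∀ i j, ‖gram σ H ((g * (k₁ * dgl t * k₂)⁻¹ : GL (Fin m) E) :
      Matrix (Fin m) (Fin m) E) i j‖ ≤ R} ⊆ (fun g => g * k₂⁻¹) ⁻¹'
      {x | x ∈ Ω * (K : Set (GL (Fin m) E)) ∧
        ∀ i j, ‖gram σ H (x : Matrix (Fin m) (Fin m) E) i j‖ ≤ c i j} := by
    rintro g ⟨hg, hgR⟩
    have h4 : g * k₂⁻¹ ∈ Ω * (K : Set (GL (Fin m) E)) := Set.mul_mem_mul hg (inv_mem hk₂)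
    refine ⟨h4, fun i j => ?_⟩
    have h5 : g * (k₁ * dgl t * k₂)⁻¹ = g * k₂⁻¹ * (dgl t)⁻¹ * k₁⁻¹ := by group
    rw [h5] at hgR
    have h6 := gram_right_le hq hR.le (inv_mem hk₁) hgR
    have h7 : gram σ H ((g * k₂⁻¹ : GL (Fin m) E) : Matrix (Fin m) (Fin m) E) =
        gram σ (gram σ H ((g * k₂⁻¹ * (dgl t)⁻¹ : GL (Fin m) E) : Matrix (Fin m) (Fin m) E))
          ((dgl t : GL (Fin m) E) : Matrix (Fin m) (Fin m) E) := by
      rw [← gram_mul, ← Units.val_mul, inv_mul_cancel_right]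
    refine le_mul_min ((hΩR _ h4 i j).trans (le_max_right _ _)) ?_
    show ‖gram σ H ((g * k₂⁻¹ : GL (Fin m) E) : Matrix (Fin m) (Fin m) E) i j‖ ≤ _
    rw [h7, gram_dgl_norm hq, Units.val_mul, mul_comm]
    exact mul_le_mul_of_nonneg_right ((h6 i j).trans (le_max_left _ _)) (norm_nonneg _)
  refine (measure_mono h3).trans ?_
  rw [measure_preimage_mul_right]
  refine (h1 c hc0).trans ?_
  rw [mul_assoc, ← ENNReal.mul_rpow_of_nonneg _ _ (by norm_num : (0 : ℝ) ≤ 1 / 2)]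
  refine mul_le_mul_right (ENNReal.rpow_le_rpow ?_ (by norm_num)) _
  exact h2 fun i j => t i * t j

/-- the image of Haar measure under the transpose -/
theorem haar_tr (μ : Measure (GL (Fin m) E)) [μ.IsHaarMeasure] [μ.IsMulRightInvariant] :
    (μ.map (trGL : GL (Fin m) E → GL (Fin m) E)).IsHaarMeasure ∧
      (μ.map (trGL : GL (Fin m) E → GL (Fin m) E)).IsMulRightInvariant := by
  have hm : Measurable (trGL : GL (Fin m) E → GL (Fin m) E) := continuous_trGL.measurable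
  have hL : (μ.map (trGL : GL (Fin m) E → GL (Fin m) E)).IsMulLeftInvariant := by
    refine ⟨fun g => ?_⟩
    rw [Measure.map_map (measurable_const_mul g) hm]
    have h1 : ((fun x => g * x) ∘ trGL : GL (Fin m) E → GL (Fin m) E) =
        trGL ∘ fun x => x * trGL g := by
      funext x
      show g * trGL x = trGL (x * trGL g)
      rw [trGL_mul, trGL_trGL]
    rw [h1, ← Measure.map_map hm (measurable_mul_const _), map_mul_right_eq_self]
  have hRi : (μ.map (trGL : GL (Fin m) E → GL (Fin m) E)).IsMulRightInvariant := by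
    refine ⟨fun g => ?_⟩
    rw [Measure.map_map (measurable_mul_const g) hm]
    have h1 : ((fun x => x * g) ∘ trGL : GL (Fin m) E → GL (Fin m) E) =
        trGL ∘ fun x => trGL g * x := by
      funext x
      show trGL x * g = trGL (trGL g * x)
      rw [trGL_mul, trGL_trGL]
    rw [h1, ← Measure.map_map hm (measurable_const_mul _), map_mul_left_eq_self]
  refine ⟨?_, hRi⟩
  have hf : IsFiniteMeasureOnCompacts (μ.map (trGL : GL (Fin m) E → GL (Fin m) E)) :=
    ⟨fun A hA => by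
      rw [Measure.map_apply hm hA.measurableSet]
      have h1 : (trGL : GL (Fin m) E → GL (Fin m) E) ⁻¹' A = trGL '' A := by
        ext x
        constructor
        · intro hx
          exact ⟨trGL x, hx, trGL_trGL x⟩
        · rintro ⟨y, hy, rfl⟩
          show trGL (trGL y) ∈ A
          rwa [trGL_trGL]
      rw [h1]
      exact (hA.image continuous_trGL).measure_lt_top⟩
  have ho : (μ.map (trGL : GL (Fin m) E → GL (Fin m) E)).IsOpenPosMeasure :=
    ⟨fun U hU hne => by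
      rw [Measure.map_apply hm hU.measurableSet]
      obtain ⟨x, hx⟩ := hne
      exact ((hU.preimage continuous_trGL).measure_pos μ ⟨trGL x, by
        show trGL (trGL x) ∈ U
        rwa [trGL_trGL]⟩).ne'⟩
  exact { toIsFiniteMeasureOnCompacts := hf, toIsMulLeftInvariant := hL, toIsOpenPosMeasure := ho }

end fac

end SpW.Mo.Cv
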