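import Pool.Agent.Work.MP_3615d2_al.Mo.CartCell
import Pool.Agent.Work.MP_3615d2_al.ModDet

/-! MP_3615d2_al, multiplicity one (notes 6684, 6725 G4b): the volume `nu(k)` of `O^n ∩ k O^n`. -/

open MeasureTheory Measure Filter Topology Matrix
open scoped NNReal ENNReal

set_option linter.unusedSectionVars false

namespace SpW.Mo

section gen

variable {F : Type} [NontriviallyNormedField F] [ProperSpace F] {V : Type} [NormedAddCommGroup V]
  [NormedSpace F V] [FiniteDimensional F V] [MeasurableSpace V] [BorelSpace V]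

/-- A linear automorphism which preserves a set of positive finite measure preserves Haar measure. -/
theorem image_of_pres (μ : Measure V) [μ.IsAddHaarMeasure] (T : V ≃ₗ[F] V) {B : Set V}
    (h0 : μ B ≠ 0) (h1 : μ B ≠ ∞) (hT : T '' B = B) (A : Set V) : μ (T '' A) = μ A := by
  have h2 := image_linearEquiv μ T B
  rw [hT] at h2
  have h3 : ((md (LinearMap.det (T : V →ₗ[F] V)) : ℝ≥0) : ℝ≥0∞) = 1 := by
    have h4 : ((md (LinearMap.det (T : V →ₗ[F] V)) : ℝ≥0) : ℝ≥0∞) * μ B = 1 * μ B := by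
      rw [one_mul]
      exact h2.symm
    exact (ENNReal.mul_left_inj h0 h1).1 h4
  rw [image_linearEquiv μ T A, h3, one_mul]

end gen

section vec

variable {E : Type} [NontriviallyNormedField E] [IsUltrametricDist E] [ProperSpace E]
  {n : Type} [Fintype n] [DecidableEq n]

/-- `w ↦ k w` -/
def vecL (k : GL n E) : (n → E) ≃ₗ[E] (n → E) :=
  LinearEquiv.ofLinearMap (Matrix.mulVecLin (k : Matrix n n E))
    (Matrix.mulVecLin ((k⁻¹ : GL n E) : Matrix n n E))
    (by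
      rw [← Matrix.mulVecLin_mul, ← Units.val_mul, mul_inv_cancel, Units.val_one,
        Matrix.mulVecLin_one])
    (by
      rw [← Matrix.mulVecLin_mul, ← Units.val_mul, inv_mul_cancel, Units.val_one,
        Matrix.mulVecLin_one])

theorem vecL_apply (k : GL n E) (w : n → E) : vecL k w = (k : Matrix n n E) *ᵥ w := rfl

theorem vecL_mul (k l : GL n E) (w : n → E) : vecL (k * l) w = vecL k (vecL l w) := by
  rw [vecL_apply, vecL_apply, vecL_apply, Units.val_mul, Matrix.mulVec_mulVec]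

theorem vecL_le {ε : ℝ} {h0 : 0 ≤ ε} {h1 : ε ≤ 1} {k : GL n E}
    (hk : k ∈ glK n E ε h0 h1) (w : n → E) : ‖vecL k w‖ ≤ ‖w‖ := by
  rw [pi_norm_le_iff_of_nonneg (norm_nonneg _)]
  intro i
  rw [vecL_apply]
  show ‖∑ j, (k : Matrix n n E) i j * w j‖ ≤ _
  refine IsUltrametricDist.norm_sum_le_of_forall_le_of_nonneg (norm_nonneg _) fun j _ => ?_
  rw [norm_mul]
  calc ‖(k : Matrix n n E) i j‖ * ‖w j‖ ≤ 1 * ‖w‖ :=
        mul_le_mul (glK_entry hk i j) (norm_le_pi_norm w j) (norm_nonneg _) zero_le_one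
    _ = ‖w‖ := one_mul _

theorem vecL_norm {ε : ℝ} {h0 : 0 ≤ ε} {h1 : ε ≤ 1} {k : GL n E}
    (hk : k ∈ glK n E ε h0 h1) (w : n → E) : ‖vecL k w‖ = ‖w‖ := by
  refine le_antisymm (vecL_le hk w) ?_
  have h2 := vecL_le (inv_mem hk) (vecL k w)
  have h3 : vecL k⁻¹ (vecL k w) = w := by
    rw [← vecL_mul, inv_mul_cancel, vecL_apply, Units.val_one, Matrix.one_mulVec]
  rwa [h3] at h2

variable [MeasurableSpace (n → E)] [BorelSpace (n → E)]
  (ω : Measure (n → E)) [ω.IsAddHaarMeasure]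

/-- `nu(k)`: the volume of `O^n ∩ k O^n`. -/
noncomputable def nuK (k : GL n E) : ℝ≥0∞ :=
  ω {w | ‖w‖ ≤ 1 ∧ ‖vecL k⁻¹ w‖ ≤ 1}

theorem vecL_measure {ε : ℝ} {h0 : 0 ≤ ε} {h1 : ε ≤ 1} {k : GL n E}
    (hk : k ∈ glK n E ε h0 h1) (A : Set (n → E)) : ω (vecL k '' A) = ω A := by
  refine image_of_pres ω (vecL k) (B := Metric.closedBall 0 1) ?_ ?_ ?_ A
  · exact ((IsUltrametricDist.isOpen_closedBall (0 : n → E) one_ne_zero).measure_ne_zero ω
      ⟨0, by simp⟩)
  · exact (isCompact_closedBall (0 : n → E) 1).measure_lt_top.ne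
  · ext w
    constructor
    · rintro ⟨w, hw, rfl⟩
      rw [mem_closedBall_zero_iff] at hw ⊢
      rwa [vecL_norm hk]
    · intro hw
      refine ⟨(vecL k).symm w, ?_, (vecL k).apply_symm_apply w⟩
      rw [mem_closedBall_zero_iff] at hw ⊢
      rw [← vecL_norm hk, (vecL k).apply_symm_apply]
      exact hw

theorem nuK_mul_right (k : GL n E) {ε : ℝ} {h0 : 0 ≤ ε} {h1 : ε ≤ 1}
    {l : GL n E} (hl : l ∈ glK n E ε h0 h1) : nuK ω (k * l) = nuK ω k := by
  unfold nuK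
  congr 1
  ext w
  show (_ ∧ _) ↔ (_ ∧ _)
  rw [_root_.mul_inv_rev, vecL_mul, vecL_norm (inv_mem hl)]

theorem nuK_mul_left (k : GL n E) {ε : ℝ} {h0 : 0 ≤ ε} {h1 : ε ≤ 1}
    {l : GL n E} (hl : l ∈ glK n E ε h0 h1) : nuK ω (l * k) = nuK ω k := by
  unfold nuK
  rw [← vecL_measure ω hl {w | ‖w‖ ≤ 1 ∧ ‖vecL k⁻¹ w‖ ≤ 1}]
  congr 1
  ext w
  constructor
  · rintro ⟨h1, h2⟩
    refine ⟨(vecL l).symm w, ⟨?_, ?_⟩, (vecL l).apply_symm_apply w⟩
    · rw [← vecL_norm hl, (vecL l).apply_symm_apply]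
      exact h1
    · have h3 : (vecL l).symm w = vecL l⁻¹ w := rfl
      rw [h3, ← vecL_mul, ← _root_.mul_inv_rev]
      exact h2
  · rintro ⟨w, ⟨h1, h2⟩, rfl⟩
    refine ⟨?_, ?_⟩
    · rwa [vecL_norm hl]
    · rw [← vecL_mul, _root_.mul_inv_rev, mul_assoc, inv_mul_cancel, mul_one]
      exact h2

theorem nuK_le (k : GL n E) : nuK ω k ≤ ω (Metric.closedBall 0 1) :=
  measure_mono fun _ hw => mem_closedBall_zero_iff.2 hw.1

/-- The value of `nu` at a diagonal matrix. -/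
theorem nuK_dgl (t : n → Eˣ) : nuK ω (dgl t) =
    ((∏ i, min 1 (md (t i : E)) : ℝ≥0) : ℝ≥0∞) * ω (Metric.closedBall 0 1) := by
  classical
  let _ : MeasurableSpace E := borel E
  have : BorelSpace E := ⟨rfl⟩
  set c : n → Eˣ := fun i => if ‖(t i : E)‖ ≤ 1 then t i else 1 with hc
  have hcn : ∀ i, ‖(c i : E)‖ = min 1 ‖(t i : E)‖ := by
    intro i
    simp only [hc]
    split_ifs with h
    · rw [min_eq_right h]
    · rw [min_eq_left (not_le.1 h).le, Units.val_one, norm_one]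
  have hcm : ∀ i, md (c i : E) = min 1 (md (t i : E)) := by
    intro i
    simp only [hc]
    split_ifs with h
    · rw [min_eq_right (md_le_one h)]
    · have h2 : (1 : ℝ≥0) ≤ md (t i : E) := by
        have h3 := md_mono (F := E) (x := 1) (y := t i) (by rw [norm_one]; exact (not_le.1 h).le)
        rwa [md_one] at h3
      rw [min_eq_left h2, Units.val_one, md_one]
  have h1 : ∀ (u : n → Eˣ) (w : n → E) (i : n), vecL (dgl u) w i = (u i : E) * w i := by
    intro u w i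
    show ((Matrix.diagonal fun i => (u i : E)) *ᵥ w) i = _
    rw [Matrix.mulVec_diagonal]
  have h2 : {w : n → E | ‖w‖ ≤ 1 ∧ ‖vecL (dgl t)⁻¹ w‖ ≤ 1} =
      vecL (dgl c) '' Metric.closedBall 0 1 := by
    have h3 : (dgl t : GL n E)⁻¹ = dgl t⁻¹ := (map_inv dgl t).symm
    have h4 : (dgl c : GL n E)⁻¹ = dgl c⁻¹ := (map_inv dgl c).symm
    have hpos : ∀ i, 0 < ‖(t i : E)‖ := fun i => norm_pos_iff.2 (t i).ne_zero
    have hpos' : ∀ i, 0 < ‖(c i : E)‖ := fun i => norm_pos_iff.2 (c i).ne_zero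
    have key : ∀ w : n → E, (‖w‖ ≤ 1 ∧ ‖vecL (dgl t)⁻¹ w‖ ≤ 1) ↔ ∀ i, ‖w i‖ ≤ ‖(c i : E)‖ := by
      intro w
      rw [pi_norm_le_iff_of_nonneg zero_le_one, pi_norm_le_iff_of_nonneg zero_le_one, h3]
      constructor
      · rintro ⟨h5, h6⟩ i
        have h7 := h6 i
        rw [h1, Pi.inv_apply, Units.val_inv_eq_inv_val, norm_mul, norm_inv,
          inv_mul_le_iff₀ (hpos i), mul_one] at h7
        rw [hcn]
        exact le_min (h5 i) h7
      · intro h5
        refine ⟨fun i => (h5 i).trans (by rw [hcn]; exact min_le_left _ _), fun i => ?_⟩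
        rw [h1, Pi.inv_apply, Units.val_inv_eq_inv_val, norm_mul, norm_inv,
          inv_mul_le_iff₀ (hpos i), mul_one]
        exact (h5 i).trans (by rw [hcn]; exact min_le_right _ _)
    ext w
    show (‖w‖ ≤ 1 ∧ ‖vecL (dgl t)⁻¹ w‖ ≤ 1) ↔ _
    rw [key]
    constructor
    · intro h5
      refine ⟨vecL (dgl c)⁻¹ w, ?_, ?_⟩
      · rw [mem_closedBall_zero_iff, pi_norm_le_iff_of_nonneg zero_le_one, h4]
        intro i
        rw [h1, Pi.inv_apply, Units.val_inv_eq_inv_val, norm_mul, norm_inv,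
          inv_mul_le_iff₀ (hpos' i), mul_one]
        exact h5 i
      · rw [← vecL_mul, mul_inv_cancel, vecL_apply, Units.val_one, Matrix.one_mulVec]
    · rintro ⟨w, hw, rfl⟩ i
      rw [mem_closedBall_zero_iff, pi_norm_le_iff_of_nonneg zero_le_one] at hw
      rw [h1, norm_mul]
      exact mul_le_of_le_one_right (norm_nonneg _) (hw i)
  have h3 : LinearMap.det (vecL (dgl c) : (n → E) →ₗ[E] (n → E)) = ∏ i, (c i : E) := by
    have h4 : (vecL (dgl c) : (n → E) →ₗ[E] (n → E)) =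
        Matrix.toLin' (Matrix.diagonal fun i => (c i : E)) := rfl
    rw [h4, LinearMap.det_toLin', Matrix.det_diagonal]
  unfold nuK
  rw [h2, image_linearEquiv ω (vecL (dgl c)) (Metric.closedBall 0 1), h3, mdp]
  congr 2
  exact Finset.prod_congr rfl fun i _ => hcm i

/-- The value of `nu` on the Cartan cell of `dgl(t)`. -/
theorem nuK_cell {m : ℕ} [MeasurableSpace (Fin m → E)] [BorelSpace (Fin m → E)]
    (ω : Measure (Fin m → E)) [ω.IsAddHaarMeasure] {ε : ℝ} {h0 : 0 ≤ ε} {h1 : ε ≤ 1}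
    (t : Fin m → Eˣ) {g : GL (Fin m) E} (hg : g ∈ cell ε h0 h1 t) : nuK ω g =
      ((∏ i, min 1 (md (t i : E)) : ℝ≥0) : ℝ≥0∞) * ω (Metric.closedBall 0 1) := by
  obtain ⟨k₁, hk₁, k₂, hk₂, rfl⟩ := hg
  rw [nuK_mul_right ω _ hk₂, nuK_mul_left ω _ hk₁, nuK_dgl]

end vec

end SpW.Mo
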