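import Pool.Agent.Work.MP_3615d2_al.Mo.CellSum

/-! MP_3615d2_al, multiplicity one: the sum over the Cartan cells with bounded determinant. -/

open scoped NNReal ENNReal

namespace SpW.Mo

variable {n : ℕ} {q : ℝ}

theorem prod_abs_eq (hq : 0 < q) (a : Fin n → ℤ) :
    ∏ i, ∏ j, q ^ (-|a i + a j|) = (q ^ ∑ i, ∑ j, |a i + a j|)⁻¹ := by
  have h1 : ∀ i ∈ (Finset.univ : Finset (Fin n)), ∏ j, q ^ (-|a i + a j|) =
      q ^ ∑ j, (-|a i + a j|) := fun i _ => prod_zpow hq.ne' _ _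
  rw [Finset.prod_congr rfl h1, prod_zpow hq.ne', ← zpow_neg]
  congr 1
  simp only [Finset.sum_neg_distrib]

theorem prod_max_sq_mul_prod_abs_le (hq : 1 ≤ q) (a : Fin n → ℤ) :
    (∏ i, ∏ j, max 1 (q ^ (a j - a i))) ^ 2 * ∏ i, ∏ j, q ^ (-|a i + a j|) ≤ 1 := by
  have hq0 : 0 < q := one_pos.trans_le hq
  rw [prod_max_sq hq, prod_abs_eq hq0, ← div_eq_mul_inv, div_le_one (zpow_pos hq0 _)]
  exact zpow_le_zpow_right₀ hq (sum_abs_sub_le a)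

theorem prod_min_neg_sq_le (hq : 1 ≤ q) (a : Fin n → ℤ) (N : ℕ) (h : |∑ i, a i| ≤ N) :
    (∏ i, min 1 (q ^ (-(a i)))) ^ 2 ≤ q ^ N * (q⁻¹) ^ (∑ i, (a i).natAbs) := by
  have hq0 : 0 < q := one_pos.trans_le hq
  rw [← Finset.prod_pow, Finset.prod_congr rfl fun i _ => min_one_zpow_sq hq (-(a i)),
    prod_zpow hq0.ne', inv_pow, ← zpow_natCast, ← zpow_natCast, ← zpow_neg, ← zpow_add₀ hq0.ne']
  refine zpow_le_zpow_right₀ hq ?_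
  have h2 : ∑ i, |a i| = ((∑ i, (a i).natAbs : ℕ) : ℤ) := by
    push_cast
    rfl
  rw [← h2, Finset.sum_sub_distrib, Finset.sum_neg_distrib]
  have h3 : ∑ i, |(-(a i))| = ∑ i, |a i| := Finset.sum_congr rfl fun i _ => abs_neg _
  rw [h3]
  have h4 := (abs_le.1 h).1
  linarith

/-- The term of a Cartan cell: `X ^ 4 ≤ q ^ (N - ∑ |a i|)`. -/
theorem cellN_le (hq : 1 ≤ q) (a : Fin n → ℤ) (N : ℕ) (h : |∑ i, a i| ≤ N) :
    (∏ i, ∏ j, max 1 (q ^ (a j - a i))) *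
      ((∏ i, ∏ j, q ^ (-|a i + a j|)) * ∏ i, min 1 (q ^ (-(a i)))) ^ (1 / 2 : ℝ) ≤
    Real.sqrt (Real.sqrt q) ^ N * (Real.sqrt (Real.sqrt q))⁻¹ ^ (∑ i, (a i).natAbs) := by
  have hq0 : 0 < q := one_pos.trans_le hq
  have hA : (0 : ℝ) ≤ ∏ i, ∏ j, max 1 (q ^ (a j - a i)) := Finset.prod_nonneg fun i _ =>
    Finset.prod_nonneg fun j _ => zero_le_one.trans (le_max_left _ _)
  have hB : (0 : ℝ) ≤ ∏ i, ∏ j, q ^ (-|a i + a j|) := Finset.prod_nonneg fun i _ =>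
    Finset.prod_nonneg fun j _ => (zpow_pos hq0 _).le
  have hM : (0 : ℝ) ≤ ∏ i, min 1 (q ^ (-(a i))) := Finset.prod_nonneg fun i _ =>
    le_min zero_le_one (zpow_pos hq0 _).le
  have hs : Real.sqrt (Real.sqrt q) ^ 4 = q := by
    rw [show (4 : ℕ) = 2 * 2 from rfl, pow_mul, Real.sq_sqrt (Real.sqrt_nonneg _),
      Real.sq_sqrt hq0.le]
  set s := Real.sqrt (Real.sqrt q) with hsd
  have hs0 : 0 ≤ s := Real.sqrt_nonneg _
  have hR : 0 ≤ s ^ N * s⁻¹ ^ (∑ i, (a i).natAbs) :=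
    mul_nonneg (pow_nonneg hs0 _) (pow_nonneg (inv_nonneg.2 hs0) _)
  set A := ∏ i, ∏ j, max 1 (q ^ (a j - a i)) with hAd
  set B := ∏ i, ∏ j, q ^ (-|a i + a j|) with hBd
  set M := ∏ i, min 1 (q ^ (-(a i))) with hMd
  have hL : 0 ≤ A * (B * M) ^ (1 / 2 : ℝ) :=
    mul_nonneg hA (Real.rpow_nonneg (mul_nonneg hB hM) _)
  refine (pow_le_pow_iff_left₀ hL hR (n := 4) (by norm_num)).1 ?_
  have h1 : (A * (B * M) ^ (1 / 2 : ℝ)) ^ 4 = (A ^ 2 * B) ^ 2 * M ^ 2 := by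
    have h2 : ((B * M) ^ (1 / 2 : ℝ)) ^ 2 = B * M := by
      rw [← Real.sqrt_eq_rpow, Real.sq_sqrt (mul_nonneg hB hM)]
    calc (A * (B * M) ^ (1 / 2 : ℝ)) ^ 4 = A ^ 4 * (((B * M) ^ (1 / 2 : ℝ)) ^ 2) ^ 2 := by ring
      _ = _ := by rw [h2]; ring
  have h3 : (s ^ N * s⁻¹ ^ (∑ i, (a i).natAbs)) ^ 4 = q ^ N * (q⁻¹) ^ (∑ i, (a i).natAbs) := by
    rw [mul_pow, ← pow_mul, ← pow_mul, mul_comm N 4, pow_mul, hs,
      mul_comm (∑ i, (a i).natAbs) 4, pow_mul, inv_pow s, hs]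
  rw [h1, h3]
  have h4 : (A ^ 2 * B) ^ 2 ≤ 1 :=
    pow_le_one₀ (mul_nonneg (pow_nonneg hA _) hB) (prod_max_sq_mul_prod_abs_le hq a)
  calc (A ^ 2 * B) ^ 2 * M ^ 2 ≤ 1 * M ^ 2 := mul_le_mul_of_nonneg_right h4 (sq_nonneg _)
    _ = M ^ 2 := one_mul _
    _ ≤ _ := prod_min_neg_sq_le hq a N h

/-- **The sum over the Cartan cells with bounded determinant is finite.** -/
theorem tsum_cellN_lt_top (hq : 1 < q) (N : ℕ) :
    ∑' a : Fin n → ℤ, (if |∑ i, a i| ≤ (N : ℤ) then ENNReal.ofReal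
      ((∏ i, ∏ j, max 1 (q ^ (a j - a i))) *
        ((∏ i, ∏ j, q ^ (-|a i + a j|)) * ∏ i, min 1 (q ^ (-(a i)))) ^ (1 / 2 : ℝ)) else 0) < ∞ := by
  have hs : 1 < Real.sqrt (Real.sqrt q) :=
    Real.lt_sqrt_of_sq_lt (by rw [one_pow]; exact Real.lt_sqrt_of_sq_lt (by rwa [one_pow]))
  set s := Real.sqrt (Real.sqrt q) with hsd
  have hs0 : 0 ≤ s := Real.sqrt_nonneg _
  have h1 := (summable_pow_sum_natAbs (ι := Fin n) (r := s⁻¹)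
    (inv_nonneg.2 hs0) (inv_lt_one_of_one_lt₀ hs)).mul_left (s ^ N)
  refine lt_of_le_of_lt (ENNReal.tsum_le_tsum (g := fun a : Fin n → ℤ =>
    ENNReal.ofReal (s ^ N * s⁻¹ ^ (∑ i, (a i).natAbs))) fun a => ?_) ?_
  · split_ifs with ha
    · exact ENNReal.ofReal_le_ofReal (cellN_le hq.le a N ha)
    · exact zero_le
  · have h2 : ∀ a : Fin n → ℤ, 0 ≤ s ^ N * s⁻¹ ^ (∑ i, (a i).natAbs) := fun a =>
      mul_nonneg (pow_nonneg hs0 _) (pow_nonneg (inv_nonneg.2 hs0) _)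
    rw [← ENNReal.ofReal_tsum_of_nonneg h2 h1]
    exact ENNReal.ofReal_lt_top

theorem prod_max_comm (a : Fin n → ℤ) :
    ∏ i, ∏ j, max 1 (q ^ (-(a j) - -(a i))) = ∏ i, ∏ j, max 1 (q ^ (a j - a i)) := by
  rw [Finset.prod_comm]
  refine Finset.prod_congr rfl fun i _ => Finset.prod_congr rfl fun j _ => ?_
  rw [neg_sub_neg]

theorem cellN_le' (hq : 1 ≤ q) (a : Fin n → ℤ) (N : ℕ) (h : |∑ i, a i| ≤ N) :
    (∏ i, ∏ j, max 1 (q ^ (a j - a i))) *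
      ((∏ i, ∏ j, q ^ (-|a i + a j|)) * ∏ i, min 1 (q ^ (a i))) ^ (1 / 2 : ℝ) ≤
    Real.sqrt (Real.sqrt q) ^ N * (Real.sqrt (Real.sqrt q))⁻¹ ^ (∑ i, (a i).natAbs) := by
  have h1 := cellN_le hq (fun i => -(a i)) N (by
    rw [Finset.sum_neg_distrib, abs_neg]
    exact h)
  have h2 : ∀ i j, |(-(a i)) + (-(a j))| = |a i + a j| := fun i j => by
    rw [← neg_add, abs_neg]
  simp only [prod_max_comm, h2, neg_neg, Int.natAbs_neg] at h1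
  exact h1

theorem tsum_cellN_lt_top' (hq : 1 < q) (N : ℕ) :
    ∑' a : Fin n → ℤ, (if |∑ i, a i| ≤ (N : ℤ) then ENNReal.ofReal
      ((∏ i, ∏ j, max 1 (q ^ (a j - a i))) *
        ((∏ i, ∏ j, q ^ (-|a i + a j|)) * ∏ i, min 1 (q ^ (a i))) ^ (1 / 2 : ℝ)) else 0) < ∞ := by
  have h1 := tsum_cellN_lt_top (n := n) hq N
  rw [← (Equiv.neg (Fin n → ℤ)).tsum_eq] at h1
  refine lt_of_le_of_lt (ENNReal.tsum_le_tsum fun a => ?_) h1
  have h2 : ∀ i j, |(-(a i)) + (-(a j))| = |a i + a j| := fun i j => by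
    rw [← neg_add, abs_neg]
  simp only [Equiv.neg_apply, Pi.neg_apply, Finset.sum_neg_distrib, abs_neg, prod_max_comm, h2,
    neg_neg]
  exact le_rfl

end SpW.Mo
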