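import Pool.Agent.Work.MP_3615d2_al.Mo.ConvA
import Pool.Agent.Work.MP_3615d2_al.Mo.SumN
import Pool.Agent.Work.MP_3615d2_al.Mo.NuK
import Pool.Agent.Work.MP_3615d2_al.Mo.Defs
import Pool.Agent.Work.MP_3615d2_al.RhoB

/-!
MP_3615d2_al, multiplicity one (note 6725 G4c): the dominating function `M_R(g)` is integrable
over compact sets.
-/

open MeasureTheory Measure Filter Topology Matrix
open scoped NNReal ENNReal Pointwise

set_option linter.unusedSectionVars false

namespace SpW.Mo.Cv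

section fac

variable {F E : Type} [NontriviallyNormedField F] [IsUltrametricDist F] [ProperSpace F]
  [NontriviallyNormedField E] [NormedAlgebra F E] [IsUltrametricDist E] [ProperSpace E]
  {σ : E ≃ₐ[F] E} {δ : E} {d : F} {m : ℕ}

theorem isClosed_gramLe (hq : QuadDatum σ δ d) (H : Matrix (Fin m) (Fin m) E) (R : ℝ)
    {X : Type} [TopologicalSpace X] {f : X → Matrix (Fin m) (Fin m) E} (hf : Continuous f) :
    IsClosed {x | ∀ i j, ‖gram σ H (f x) i j‖ ≤ R} := by
  have h1 : {x | ∀ i j, ‖gram σ H (f x) i j‖ ≤ R} = ⋂ i, ⋂ j, {x | ‖gram σ H (f x) i j‖ ≤ R} := by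
    ext x
    simp
  rw [h1]
  refine isClosed_iInter fun i => isClosed_iInter fun j => ?_
  exact isClosed_le (continuous_norm.comp
    (((continuous_gram hq H).comp hf).matrix_elem i j)) continuous_const

theorem trGL_val (x : GL (Fin m) E) : ((trGL x : GL (Fin m) E) : Matrix (Fin m) (Fin m) E) =
    (x : Matrix (Fin m) (Fin m) E).transpose := rfl

theorem trGL_mem {ε : ℝ} {h0 : 0 ≤ ε} {h1 : ε ≤ 1} {k : GL (Fin m) E}
    (hk : k ∈ glK (Fin m) E ε h0 h1) : trGL k ∈ glK (Fin m) E ε h0 h1 := by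
  have key : ∀ y : GL (Fin m) E, (∀ i j, ‖((y : Matrix (Fin m) (Fin m) E) - 1) i j‖ ≤ ε) →
      ∀ i j, ‖(((trGL y : GL (Fin m) E) : Matrix (Fin m) (Fin m) E) - 1) i j‖ ≤ ε := by
    intro y hy i j
    have h2 : ((trGL y : GL (Fin m) E) : Matrix (Fin m) (Fin m) E) - 1 =
        ((y : Matrix (Fin m) (Fin m) E) - 1).transpose := by
      rw [trGL_val, Matrix.transpose_sub, Matrix.transpose_one]
    rw [h2]
    exact hy j i
  refine ⟨key k hk.1, ?_⟩
  rw [← trGL_inv]
  exact key k⁻¹ hk.2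

variable [MeasurableSpace E] [BorelSpace E] [MeasurableSpace (GL (Fin m) E)]
  [BorelSpace (GL (Fin m) E)]

/-- The second factor: the part of the Cartan cell of `dgl t` where `k H σ(k)ᵀ` is bounded. -/
theorem fac_two (hq : QuadDatum σ δ d) (μ : Measure (GL (Fin m) E)) [μ.IsHaarMeasure]
    [μ.IsMulRightInvariant] (H : Matrix (Fin m) (Fin m) E) (hH : cst σ H = -H) (hdet : IsUnit H)
    {R : ℝ} (hR : 0 < R) :
    ∃ C : ℝ≥0∞, C ≠ ∞ ∧ ∀ t : Fin m → Eˣ,
      μ (cell 1 zero_le_one le_rfl t ∩ {k | ∀ i j,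
        ‖gram σ H ((k : GL (Fin m) E) : Matrix (Fin m) (Fin m) E).transpose i j‖ ≤ R}) ≤
        C * ((∏ i, ∏ j, min 1 (md (((t i * t j)⁻¹ : Eˣ) : E)) : ℝ≥0) : ℝ≥0∞) ^ (1 / 2 : ℝ) *
          μ (cell 1 zero_le_one le_rfl t) := by
  set K := glK (Fin m) E 1 zero_le_one le_rfl with hK
  have hKo : IsOpen (K : Set (GL (Fin m) E)) := glK_isOpen one_pos le_rfl
  have hKc : IsCompact (K : Set (GL (Fin m) E)) := glK_isCompact one_pos le_rfl
  obtain ⟨R₁, hR₁, hΩR⟩ := exists_gram_bound hq H hKc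
  set R₂ := max R R₁ with hR₂
  have hR₂0 : 0 < R₂ := lt_max_of_lt_left hR
  obtain ⟨iH, iR⟩ := haar_tr μ
  obtain ⟨C₁, hC₁, h1⟩ := dens_one hq (μ.map (trGL : GL (Fin m) E → GL (Fin m) E)) addHaar H hH
    hdet _ hKc
  obtain ⟨C₂, hC₂, h2⟩ := bxS_min (addHaar : Measure (Fin m → Fin m → E)) R₂
  have hK0 : μ (K : Set (GL (Fin m) E)) ≠ 0 := (hKo.measure_pos μ ⟨1, one_mem K⟩).ne'
  have hKt : μ (K : Set (GL (Fin m) E)) ≠ ∞ := hKc.measure_lt_top.ne
  refine ⟨(μ (K : Set (GL (Fin m) E)))⁻¹ * (C₁ * C₂ ^ (1 / 2 : ℝ)),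
    ENNReal.mul_ne_top (ENNReal.inv_ne_top.2 hK0) (ENNReal.mul_ne_top hC₁
    (ENNReal.rpow_ne_top_of_nonneg (by norm_num) hC₂)), fun t => ?_⟩
  set B : Set (GL (Fin m) E) := {k | ∀ i j,
        ‖gram σ H ((k : GL (Fin m) E) : Matrix (Fin m) (Fin m) E).transpose i j‖ ≤ R} with hB
  have hBm : MeasurableSet B :=
    (isClosed_gramLe hq H R (Units.continuous_val.matrix_transpose)).measurableSet
  have hcm : MeasurableSet (cell 1 zero_le_one le_rfl t : Set (GL (Fin m) E)) :=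
    (isOpen_cell one_pos le_rfl t).measurableSet
  have hBl : ∀ k ∈ K, ∀ x, k * x ∈ B → x ∈ B := by
    intro k hk x hx i j
    have h3 : (x : Matrix (Fin m) (Fin m) E).transpose =
        ((trGL x : GL (Fin m) E) : Matrix (Fin m) (Fin m) E) := rfl
    rw [h3]
    refine gram_right_le hq hR.le (trGL_mem hk) (fun i j => ?_) i j
    rw [← trGL_mul]
    exact hx i j
  set c : Fin m → Fin m → ℝ := fun i j => R₂ * min 1 ‖(((t i * t j)⁻¹ : Eˣ) : E)‖ with hc
  have hc0 : ∀ i j, 0 < c i j := fun i j =>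
    mul_pos hR₂0 (lt_min one_pos (norm_pos_iff.2 ((t i * t j)⁻¹).ne_zero))
  set A : Set (GL (Fin m) E) := {x | x ∈ K ∧
    ∀ i j, ‖gram σ H ((x : GL (Fin m) E) : Matrix (Fin m) (Fin m) E).transpose i j‖ ≤ c i j} with hA
  -- the measure of `A`
  have hAle : μ A ≤ C₁ * C₂ ^ (1 / 2 : ℝ) *
      ((∏ i, ∏ j, min 1 (md (((t i * t j)⁻¹ : Eˣ) : E)) : ℝ≥0) : ℝ≥0∞) ^ (1 / 2 : ℝ) := by
    have h3 : A ⊆ (trGL : GL (Fin m) E → GL (Fin m) E) ⁻¹' {x | x ∈ (K : Set (GL (Fin m) E)) ∧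
        ∀ i j, ‖gram σ H (x : Matrix (Fin m) (Fin m) E) i j‖ ≤ c i j} := fun x hx =>
      ⟨trGL_mem hx.1, hx.2⟩
    have hm : Measurable (trGL : GL (Fin m) E → GL (Fin m) E) := continuous_trGL.measurable
    refine (measure_mono h3).trans ((Measure.le_map_apply hm.aemeasurable _).trans ?_)
    refine (h1 c hc0).trans ?_
    rw [mul_assoc, ← ENNReal.mul_rpow_of_nonneg _ _ (by norm_num : (0 : ℝ) ≤ 1 / 2)]
    refine mul_le_mul_right (ENNReal.rpow_le_rpow ?_ (by norm_num)) _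
    exact h2 fun i j => (t i * t j)⁻¹
  -- averaging over `K`
  set S : Set (GL (Fin m) E × GL (Fin m) E) :=
    {p | p.1 ∈ cell 1 zero_le_one le_rfl t ∧ p.2 ∈ K ∧ p.1 * p.2 ∈ B} with hS
  have hSm : MeasurableSet S :=
    (measurable_fst hcm).inter ((measurable_snd hKo.measurableSet).inter
      ((measurable_fst.mul measurable_snd) hBm))
  have e1 : (μ.prod μ) S = μ (cell 1 zero_le_one le_rfl t ∩ B) *
      μ (K : Set (GL (Fin m) E)) := by
    rw [Measure.prod_apply_symm hSm]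
    have h3 : ∀ y, μ ((fun x => (x, y)) ⁻¹' S) = (K : Set (GL (Fin m) E)).indicator
        (fun _ => μ (cell 1 zero_le_one le_rfl t ∩ B)) y := by
      intro y
      by_cases hy : y ∈ K
      · rw [Set.indicator_of_mem hy, ← measure_preimage_mul_right μ y
          (cell 1 zero_le_one le_rfl t ∩ B)]
        congr 1
        ext x
        show (_ ∧ _ ∧ _) ↔ (_ ∧ _)
        constructor
        · rintro ⟨⟨k₁, hk₁, k₂, hk₂, hx⟩, -, h5⟩
          refine ⟨⟨k₁, hk₁, k₂ * y, mul_mem hk₂ hy, ?_⟩, h5⟩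
          rw [← mul_assoc, ← hx]
        · rintro ⟨⟨k₁, hk₁, k₂, hk₂, hx⟩, h5⟩
          refine ⟨⟨k₁, hk₁, k₂ * y⁻¹, mul_mem hk₂ (inv_mem hy), ?_⟩, hy, h5⟩
          rw [← mul_assoc, ← hx, mul_inv_cancel_right]
      · rw [Set.indicator_of_notMem hy]
        have h5 : (fun x => (x, y)) ⁻¹' S = (∅ : Set (GL (Fin m) E)) := by
          ext x
          constructor
          · intro hx
            exact (hy hx.2.1).elim
          · intro hx
            exact hx.elim
        rw [h5, measure_empty]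
    simp_rw [h3]
    rw [lintegral_indicator_const hKo.measurableSet]
  have e2 : (μ.prod μ) S ≤ μ A * μ (cell 1 zero_le_one le_rfl t) := by
    rw [Measure.prod_apply hSm]
    have h3 : ∀ x, μ (Prod.mk x ⁻¹' S) ≤ (cell 1 zero_le_one le_rfl t).indicator
        (fun _ => μ A) x := by
      intro x
      by_cases hx : x ∈ cell 1 zero_le_one le_rfl t
      · rw [Set.indicator_of_mem hx]
        obtain ⟨k₁, hk₁, k₂, hk₂, rfl⟩ := hx
        rw [← measure_preimage_mul μ k₂ A]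
        refine measure_mono ?_
        rintro y ⟨-, hy, hyB⟩
        have h4 : k₂ * y ∈ K := mul_mem hk₂ hy
        refine ⟨h4, fun i j => ?_⟩
        have h5 : dgl t * (k₂ * y) ∈ B := hBl k₁ hk₁ _ (by
          have h6 : k₁ * (dgl t * (k₂ * y)) = k₁ * dgl t * k₂ * y := by group
          rw [h6]
          exact hyB)
        have h7 := h5 i j
        have h8 : ((dgl t * (k₂ * y) : GL (Fin m) E) : Matrix (Fin m) (Fin m) E).transpose =
            (((k₂ * y : GL (Fin m) E) : Matrix (Fin m) (Fin m) E).transpose) *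
              ((dgl t : GL (Fin m) E) : Matrix (Fin m) (Fin m) E) := by
          rw [Units.val_mul, Matrix.transpose_mul, dgl_val, Matrix.diagonal_transpose]
        rw [h8, gram_mul, gram_dgl_norm hq] at h7
        have h9 : ‖gram σ H ((k₂ * y : GL (Fin m) E) : Matrix (Fin m) (Fin m) E).transpose i j‖ ≤
            R₁ := hΩR _ (trGL_mem h4) i j
        refine le_mul_min (h9.trans (le_max_right _ _)) ?_
        rw [Units.val_inv_eq_inv_val, norm_inv, ← div_eq_mul_inv,
          le_div_iff₀ (norm_pos_iff.2 (t i * t j).ne_zero), mul_comm]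
        exact h7.trans (le_max_left _ _)
      · rw [Set.indicator_of_notMem hx]
        have h5 : Prod.mk x ⁻¹' S = (∅ : Set (GL (Fin m) E)) := by
          ext y
          constructor
          · intro hy
            exact (hx hy.1).elim
          · intro hy
            exact hy.elim
        rw [h5, measure_empty]
    refine (lintegral_mono h3).trans ?_
    rw [lintegral_indicator_const hcm]
  have h3 : μ (cell 1 zero_le_one le_rfl t ∩ B) = (μ (K : Set (GL (Fin m) E)))⁻¹ *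
      (μ (cell 1 zero_le_one le_rfl t ∩ B) * μ (K : Set (GL (Fin m) E))) := by
    rw [mul_comm (μ (cell 1 zero_le_one le_rfl t ∩ B)), ← mul_assoc,
      ENNReal.inv_mul_cancel hK0 hKt, one_mul]
  rw [h3, ← e1, mul_assoc _ (C₁ * _), mul_assoc]
  refine mul_le_mul_right (e2.trans ?_) _
  rw [mul_assoc, ← mul_assoc]
  exact (mul_le_mul_left hAle _).trans (le_of_eq (by ring))

end fac

end SpW.Mo.Cv
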