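import Mathlib

/-!
MP_3615d2_al, multiplicity one, counting block 2: an abstract bound for the image of Haar measure
under an orbit map.
-/

open MeasureTheory Measure Filter Topology
open scoped ENNReal

set_option linter.unusedSectionVars false

namespace SpW

section abs

variable {Γ : Type} [Group Γ] [MeasurableSpace Γ] [MeasurableMul Γ] (μ : Measure Γ) [SFinite μ]
  [μ.IsMulRightInvariant]
  {Y : Type} [AddCommGroup Y] [MeasurableSpace Y] [MeasurableAdd₂ Y]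
  [MeasurableNeg Y] [MeasurableSub₂ Y] (ν : Measure Y) [SFinite ν]
  [ν.IsAddLeftInvariant]

theorem measure_sub_mem (B : AddSubgroup Y) (c : Y) : ν {z | c - z ∈ B} = ν (B : Set Y) := by
  have h1 : {z | c - z ∈ B} = (fun z => -c + z) ⁻¹' (B : Set Y) := by
    ext z
    constructor
    · intro h
      have h2 := B.neg_mem h
      rw [neg_sub] at h2
      show -c + z ∈ B
      rwa [neg_add_eq_sub]
    · intro h
      have h2 := B.neg_mem (show -c + z ∈ B from h)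
      show c - z ∈ B
      rwa [neg_add, neg_neg, ← sub_eq_add_neg] at h2
  rw [h1, measure_preimage_add]

/-- The abstract density bound. -/
theorem density_abs (K₁ Kr U₀ : Subgroup Γ) (hKr : Kr ≤ K₁) (hU : U₀ ≤ K₁)
    (hK₁ : MeasurableSet (K₁ : Set Γ))
    (hn : ∀ k ∈ K₁, ∀ y ∈ Kr, k * y * k⁻¹ ∈ Kr) (Φ : Γ → Y) (hΦ : Measurable Φ)
    (B B' : AddSubgroup Y) (hB : MeasurableSet (B : Set Y)) (hB' : MeasurableSet (B' : Set Y))
    (B₁ A : Set Y) (hB₁ : MeasurableSet B₁) (hA : MeasurableSet A)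
    (ha : ∀ k ∈ K₁, ∀ y ∈ Kr, Φ (k * y) - Φ k ∈ B')
    (hb : ∀ k ∈ K₁, ∀ k' ∈ K₁, Φ k' - Φ k ∈ B → ∃ u ∈ U₀, ∃ y ∈ Kr, k' = u * k * y)
    (hu : ∀ u ∈ U₀, ∀ g, Φ (u * g) = Φ g)
    (hc : ∀ z ∈ B₁, ∃ k ∈ K₁, Φ k = Φ 1 + z)
    (hAB : ∀ a ∈ A, ∀ b ∈ B, a - b ∈ A) :
    μ {k | k ∈ K₁ ∧ Φ k ∈ A} * ν (B : Set Y) * ν B₁ ≤ ν A * (μ (K₁ : Set Γ) * ν (B' : Set Y)) := by
  set W : Set Γ := {g | ∃ u ∈ U₀, ∃ y ∈ Kr, g = u * y} with hW
  -- the double cosets have the same measure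
  have hD : ∀ k ∈ K₁, μ {g | ∃ u ∈ U₀, ∃ y ∈ Kr, g = u * k * y} = μ W := by
    intro k hk
    have h1 : {g | ∃ u ∈ U₀, ∃ y ∈ Kr, g = u * k * y} = (fun g => g * k⁻¹) ⁻¹' W := by
      ext g
      constructor
      · rintro ⟨u, hu', y, hy, rfl⟩
        refine ⟨u, hu', k * y * k⁻¹, hn k hk y hy, ?_⟩
        group
      · rintro ⟨u, hu', y, hy, hg⟩
        refine ⟨u, hu', k⁻¹ * y * k⁻¹⁻¹, hn k⁻¹ (K₁.inv_mem hk) y hy, ?_⟩
        have h2 : g = u * y * k := by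
          rw [← hg]
          group
        rw [h2]
        group
    rw [h1, measure_preimage_mul_right]
  -- upper bound for the fibres
  have h1 : ∀ z, μ {k | k ∈ K₁ ∧ Φ k - z ∈ B} ≤ μ W := by
    intro z
    by_cases h : ∃ k₀ ∈ K₁, Φ k₀ - z ∈ B
    · obtain ⟨k₀, hk₀, hz⟩ := h
      rw [← hD k₀ hk₀]
      refine measure_mono fun k hk => ?_
      refine hb k₀ hk₀ k hk.1 ?_
      have h2 := B.sub_mem hk.2 hz
      rwa [sub_sub_sub_cancel_right] at h2
    · have h2 : {k | k ∈ K₁ ∧ Φ k - z ∈ B} = ∅ :=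
        Set.eq_empty_iff_forall_notMem.2 fun k hk => h ⟨k, hk.1, hk.2⟩
      rw [h2, measure_empty]
      exact zero_le
  -- lower bound for the fibres
  have h2 : ∀ z ∈ B₁, μ W ≤ μ {k | k ∈ K₁ ∧ Φ k - (Φ 1 + z) ∈ B'} := by
    intro z hz
    obtain ⟨k, hk, hkz⟩ := hc z hz
    rw [← hD k hk]
    refine measure_mono ?_
    rintro g ⟨u, hu', y, hy, rfl⟩
    refine ⟨K₁.mul_mem (K₁.mul_mem (hU hu') hk) (hKr hy), ?_⟩
    rw [mul_assoc, hu u hu', ← hkz]
    exact ha k hk y hy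
  -- first use of Tonelli
  have h3 : ν B₁ * μ W ≤ μ (K₁ : Set Γ) * ν (B' : Set Y) := by
    set T : Set (Y × Γ) := {p | p.1 ∈ B₁ ∧ p.2 ∈ K₁ ∧ Φ p.2 - (Φ 1 + p.1) ∈ B'} with hT
    have hTm : MeasurableSet T := (measurable_fst hB₁).inter ((measurable_snd hK₁).inter
      (((hΦ.comp measurable_snd).sub (measurable_const.add measurable_fst)) hB'))
    calc ν B₁ * μ W = ∫⁻ _ in B₁, μ W ∂ν := by
          rw [setLIntegral_const, mul_comm]
      _ ≤ ∫⁻ z in B₁, μ (Prod.mk z ⁻¹' T) ∂ν := by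
          refine setLIntegral_mono' hB₁ fun z hz => ?_
          exact (h2 z hz).trans (measure_mono fun k hk => ⟨hz, hk.1, hk.2⟩)
      _ ≤ ∫⁻ z, μ (Prod.mk z ⁻¹' T) ∂ν := setLIntegral_le_lintegral _ _
      _ = (ν.prod μ) T := (Measure.prod_apply hTm).symm
      _ = ∫⁻ k, ν ((fun z => (z, k)) ⁻¹' T) ∂μ := Measure.prod_apply_symm hTm
      _ ≤ ∫⁻ k, (K₁ : Set Γ).indicator (fun _ => ν (B' : Set Y)) k ∂μ := by
          refine lintegral_mono fun k => ?_
          by_cases hk : k ∈ (K₁ : Set Γ)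
          · rw [Set.indicator_of_mem hk]
            refine (measure_mono fun z hz => ?_).trans (measure_sub_mem ν B' (Φ k - Φ 1)).le
            have := hz.2.2
            show Φ k - Φ 1 - z ∈ B'
            rwa [← sub_sub] at this
          · have h4 : (fun z => (z, k)) ⁻¹' T = ∅ :=
              Set.eq_empty_iff_forall_notMem.2 fun z hz => hk hz.2.1
            show ν ((fun z => (z, k)) ⁻¹' T) ≤ _
            rw [h4, measure_empty]
            exact zero_le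
      _ = μ (K₁ : Set Γ) * ν (B' : Set Y) := by
          rw [lintegral_indicator hK₁, setLIntegral_const, mul_comm]
  -- second use of Tonelli
  have h4 : μ {k | k ∈ K₁ ∧ Φ k ∈ A} * ν (B : Set Y) ≤ ν A * μ W := by
    set T : Set (Y × Γ) := {p | p.1 ∈ A ∧ p.2 ∈ K₁ ∧ Φ p.2 - p.1 ∈ B} with hT
    have hTm : MeasurableSet T := (measurable_fst hA).inter ((measurable_snd hK₁).inter
      (((hΦ.comp measurable_snd).sub measurable_fst) hB))
    have hS : MeasurableSet {k | k ∈ K₁ ∧ Φ k ∈ A} := hK₁.inter (hΦ hA)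
    calc μ {k | k ∈ K₁ ∧ Φ k ∈ A} * ν (B : Set Y)
        = ∫⁻ _ in {k | k ∈ K₁ ∧ Φ k ∈ A}, ν (B : Set Y) ∂μ := by
          rw [setLIntegral_const, mul_comm]
      _ ≤ ∫⁻ k in {k | k ∈ K₁ ∧ Φ k ∈ A}, ν ((fun z => (z, k)) ⁻¹' T) ∂μ := by
          refine setLIntegral_mono' hS fun k hk => ?_
          rw [← measure_sub_mem ν B (Φ k)]
          refine measure_mono fun z hz => ⟨?_, hk.1, hz⟩
          have := hAB (Φ k) hk.2 (Φ k - z) hz
          rwa [sub_sub_cancel] at this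
      _ ≤ ∫⁻ k, ν ((fun z => (z, k)) ⁻¹' T) ∂μ := setLIntegral_le_lintegral _ _
      _ = (ν.prod μ) T := (Measure.prod_apply_symm hTm).symm
      _ = ∫⁻ z, μ (Prod.mk z ⁻¹' T) ∂ν := Measure.prod_apply hTm
      _ ≤ ∫⁻ z, A.indicator (fun _ => μ W) z ∂ν := by
          refine lintegral_mono fun z => ?_
          by_cases hz : z ∈ A
          · rw [Set.indicator_of_mem hz]
            have h5 : Prod.mk z ⁻¹' T ⊆ {k | k ∈ K₁ ∧ Φ k - z ∈ B} := fun k hk => ⟨hk.2.1, hk.2.2⟩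
            exact (measure_mono h5).trans (h1 z)
          · have h4 : Prod.mk z ⁻¹' T = ∅ :=
              Set.eq_empty_iff_forall_notMem.2 fun k hk => hz hk.1
            show μ (Prod.mk z ⁻¹' T) ≤ _
            rw [h4, measure_empty]
            exact zero_le
      _ = ν A * μ W := by
          rw [lintegral_indicator hA, setLIntegral_const, mul_comm]
  calc μ {k | k ∈ K₁ ∧ Φ k ∈ A} * ν (B : Set Y) * ν B₁ ≤ ν A * μ W * ν B₁ := by gcongr
    _ = ν A * (ν B₁ * μ W) := by ring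
    _ ≤ ν A * (μ (K₁ : Set Γ) * ν (B' : Set Y)) := by gcongr

end abs

end SpW
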