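import Pool.Agent.Work.MP_3615d2_al.Mo.DensB

/-!
MP_3615d2_al, multiplicity one, counting block 4: Haar measure of the elements of a compact set of
`GL_n(E)` whose Gram matrix lies in a box.
-/

open MeasureTheory Measure Filter Topology
open scoped ENNReal

set_option linter.unusedSectionVars false

namespace SpW

section one

variable {F E : Type} [NontriviallyNormedField F] [IsUltrametricDist F] [ProperSpace F]
  [NontriviallyNormedField E] [NormedAlgebra F E] [IsUltrametricDist E] [ProperSpace E]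
  {σ : E ≃ₐ[F] E} {δ : E} {d : F} {n : Type} [Fintype n] [DecidableEq n]
  [MeasurableSpace E] [BorelSpace E] [MeasurableSpace (GL n E)] [BorelSpace (GL n E)]

/-- proportional boxes have comparable volumes -/
theorem bxS_scale (ν : Measure (n → n → E)) [ν.IsAddHaarMeasure] (κ : ℝ) :
    ∃ C : ℝ≥0∞, C ≠ ∞ ∧ ∀ c : n → n → ℝ, (∀ i j, 0 ≤ c i j) →
      ν (bxS E fun i j => κ * c i j) ≤ C * ν (bxS E c) := by
  obtain ⟨a, ha⟩ := NormedField.exists_lt_norm E (max κ 0)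
  have ha0 : 0 < ‖a‖ := (le_max_right _ _).trans_lt ha
  obtain ⟨T, hT⟩ := det_smul_ne (n := n) a (norm_pos_iff.1 ha0)
  refine ⟨md (LinearMap.det (T : (n → n → E) →ₗ[E] (n → n → E))), ENNReal.coe_ne_top,
    fun c hc => ?_⟩
  rw [← image_linearEquiv ν T]
  refine measure_mono fun M hM => ⟨a⁻¹ • M, fun i j => ?_, ?_⟩
  · show ‖a⁻¹ * M i j‖ ≤ c i j
    rw [norm_mul, norm_inv, inv_mul_le_iff₀ ha0]
    exact (hM i j).trans (mul_le_mul_of_nonneg_right ((le_max_left _ _).trans ha.le) (hc i j))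
  · rw [hT, smul_smul, mul_inv_cancel₀ (norm_pos_iff.1 ha0), one_smul]

/-- The elements of a compact set whose Gram matrix is in a box. -/
theorem dens_one (hq : QuadDatum σ δ d) (μ : Measure (GL n E)) [μ.IsHaarMeasure]
    [μ.IsMulRightInvariant] (ν : Measure (n → n → E)) [ν.IsAddHaarMeasure]
    (H : Matrix n n E) (hH : cst σ H = -H) (hdet : IsUnit H) (Ω : Set (GL n E))
    (hΩ : IsCompact Ω) :
    ∃ C : ℝ≥0∞, C ≠ ∞ ∧ ∀ c : n → n → ℝ, (∀ i j, 0 < c i j) →
      μ {x | x ∈ Ω ∧ ∀ i j, ‖gram σ H (x : Matrix n n E) i j‖ ≤ c i j} ≤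
        C * (ν (bxS E c)) ^ (1 / 2 : ℝ) := by
  obtain ⟨K', hK'⟩ := hdet
  obtain ⟨C₂, hC₂, hC₂'⟩ := bxS_scale ν (max 1 ‖δ‖)
  set K := glK n E 1 zero_le_one le_rfl with hK
  -- one coset
  have key : ∀ x₀ : GL n E, ∃ C : ℝ≥0∞, C ≠ ∞ ∧ ∀ c : n → n → ℝ, (∀ i j, 0 < c i j) →
      μ {x | x ∈ (fun g => x₀ * g) '' (K : Set (GL n E)) ∧
        ∀ i j, ‖gram σ H (x : Matrix n n E) i j‖ ≤ c i j} ≤ C * (ν (bxS E c)) ^ (1 / 2 : ℝ) := by
    intro x₀
    set s : Matrix n n E := gram σ H (x₀ : Matrix n n E) with hs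
    have hss : cst σ s = -s := cst_gram hq hH _
    obtain ⟨t, ht⟩ : ∃ t, s * t = 1 := by
      have h1 : IsUnit s := by
        have h2 : IsUnit (x₀ : Matrix n n E).transpose :=
          (Matrix.isUnit_transpose (A := (x₀ : Matrix n n E))).2 x₀.isUnit
        have h3 : IsUnit ((x₀ : Matrix n n E).map σ) := by
          have h4 := x₀.isUnit.map ((σ : E →+* E).mapMatrix (m := n))
          exact h4
        exact (h2.mul (hK' ▸ K'.isUnit)).mul h3
      obtain ⟨u, hu⟩ := h1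
      exact ⟨((u⁻¹ : (Matrix n n E)ˣ) : Matrix n n E), by rw [← hu, Units.mul_inv]⟩
    obtain ⟨C, hC, h⟩ := dens_local hq μ ν s t s t hss ht hss ht
    refine ⟨(C * C₂) ^ (1 / 2 : ℝ), ENNReal.rpow_ne_top_of_nonneg (by norm_num)
      (ENNReal.mul_ne_top hC hC₂), fun c hc => ?_⟩
    set A : Set (GL n E) := {k | k ∈ K ∧ ∀ i j, ‖gram σ s (k : Matrix n n E) i j‖ ≤ c i j} with hA
    have h1 : {x | x ∈ (fun g => x₀ * g) '' (K : Set (GL n E)) ∧
        ∀ i j, ‖gram σ H (x : Matrix n n E) i j‖ ≤ c i j} = (fun g => x₀⁻¹ * g) ⁻¹' A := by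
      ext x
      constructor
      · rintro ⟨⟨k, hk, rfl⟩, hx⟩
        have h2 : x₀⁻¹ * (x₀ * k) = k := by group
        refine ⟨?_, fun i j => ?_⟩
        · show x₀⁻¹ * (x₀ * k) ∈ K
          rw [h2]
          exact hk
        · show ‖gram σ s ((x₀⁻¹ * (x₀ * k) : GL n E) : Matrix n n E) i j‖ ≤ c i j
          rw [h2, hs, ← gram_mul, ← Units.val_mul]
          exact hx i j
      · rintro ⟨hk, hx⟩
        refine ⟨⟨x₀⁻¹ * x, hk, by group⟩, fun i j => ?_⟩
        have h3 := hx i j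
        rw [hs, ← gram_mul, ← Units.val_mul, mul_inv_cancel_left] at h3
        exact h3
    rw [h1, measure_preimage_mul]
    have h2 : μ A * μ A ≤ C * C₂ * ν (bxS E c) := by
      calc μ A * μ A = (μ.prod μ) (A ×ˢ A) := (Measure.prod_prod A A).symm
        _ ≤ (μ.prod μ) {p | p ∈ K.prod K ∧ gram2 σ δ s s p ∈
            bxS E fun i j => max 1 ‖δ‖ * c i j} := by
            refine measure_mono ?_
            rintro ⟨x, y⟩ ⟨hx, hy⟩
            refine ⟨⟨hx.1, hy.1⟩, fun i j => ?_⟩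
            show ‖gram σ s (x : Matrix n n E) i j + δ * gram σ s (y : Matrix n n E) i j‖ ≤ _
            refine (IsUltrametricDist.norm_add_le_max _ _).trans (max_le ?_ ?_)
            · refine (hx.2 i j).trans ?_
              exact le_mul_of_one_le_left (hc i j).le (le_max_left _ _)
            · rw [norm_mul]
              exact mul_le_mul (le_max_right _ _) (hy.2 i j) (norm_nonneg _)
                (zero_le_one.trans (le_max_left _ _))
        _ ≤ C * ν (bxS E fun i j => max 1 ‖δ‖ * c i j) :=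
            h _ fun i j => mul_pos (lt_of_lt_of_le one_pos (le_max_left _ _)) (hc i j)
        _ ≤ C * (C₂ * ν (bxS E c)) := by
            gcongr
            exact hC₂' c fun i j => (hc i j).le
        _ = C * C₂ * ν (bxS E c) := (mul_assoc _ _ _).symm
    have h3 : μ A = (μ A * μ A) ^ (1 / 2 : ℝ) := by
      rw [← sq, ← ENNReal.rpow_natCast, ← ENNReal.rpow_mul]
      norm_num
    rw [h3, ← ENNReal.mul_rpow_of_nonneg _ _ (by norm_num)]
    exact ENNReal.rpow_le_rpow h2 (by norm_num)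
  choose C hC hC' using key
  obtain ⟨S, hS⟩ := hΩ.elim_finite_subcover (fun x₀ : GL n E => (fun g => x₀ * g) '' (K : Set (GL n E)))
    (fun x₀ => (Homeomorph.mulLeft x₀).isOpenMap _ (glK_isOpen one_pos le_rfl))
    (fun x _ => Set.mem_iUnion.2 ⟨x, 1, K.one_mem, mul_one x⟩)
  refine ⟨∑ x₀ ∈ S, C x₀, ENNReal.sum_ne_top.2 fun x₀ _ => hC x₀, fun c hc => ?_⟩
  calc μ {x | x ∈ Ω ∧ ∀ i j, ‖gram σ H (x : Matrix n n E) i j‖ ≤ c i j}
      ≤ μ (⋃ x₀ ∈ S, {x | x ∈ (fun g => x₀ * g) '' (K : Set (GL n E)) ∧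
        ∀ i j, ‖gram σ H (x : Matrix n n E) i j‖ ≤ c i j}) := by
        refine measure_mono fun x hx => ?_
        obtain ⟨x₀, hx₀, h⟩ := Set.mem_iUnion₂.1 (hS hx.1)
        exact Set.mem_iUnion₂.2 ⟨x₀, hx₀, h, hx.2⟩
    _ ≤ ∑ x₀ ∈ S, μ {x | x ∈ (fun g => x₀ * g) '' (K : Set (GL n E)) ∧
        ∀ i j, ‖gram σ H (x : Matrix n n E) i j‖ ≤ c i j} := measure_biUnion_finset_le _ _
    _ ≤ ∑ x₀ ∈ S, C x₀ * (ν (bxS E c)) ^ (1 / 2 : ℝ) := Finset.sum_le_sum fun x₀ _ => hC' x₀ c hc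
    _ = (∑ x₀ ∈ S, C x₀) * (ν (bxS E c)) ^ (1 / 2 : ℝ) := (Finset.sum_mul _ _ _).symm

end one

end SpW
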