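import Pool.Agent.Work.MP_3615d2_al.Mo.Defs
import Pool.Agent.Work.MP_3615d2_al.Mo.NuK

/-! MP_3615d2_al, multiplicity one (G4b): the function `nuV` of `Defs` on the Cartan cells. -/

open MeasureTheory Measure Filter Topology Matrix
open scoped NNReal ENNReal

set_option linter.unusedSectionVars false

namespace SpW.Mo

variable {E : Type} [NontriviallyNormedField E] [IsUltrametricDist E] [ProperSpace E]
  [MeasurableSpace E] [BorelSpace E] {m : ℕ}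

/-- `nuV` is `nuK` for the standard measure. -/
theorem nuV_eq_nuK (k : GL (Fin m) E) : nuV k = nuK (addHaar : Measure (Fin m → E)) k := by
  unfold nuV nuK
  congr 1
  ext w
  constructor
  · rintro ⟨h1, v, hv, rfl⟩
    refine ⟨mem_closedBall_zero_iff.1 h1, ?_⟩
    have h2 : vecL k⁻¹ ((k : Matrix (Fin m) (Fin m) E) *ᵥ v) = v := by
      rw [← vecL_apply, ← vecL_mul, inv_mul_cancel, vecL_apply, Units.val_one, Matrix.one_mulVec]
    show ‖vecL k⁻¹ ((k : Matrix (Fin m) (Fin m) E) *ᵥ v)‖ ≤ 1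
    rw [h2]
    exact mem_closedBall_zero_iff.1 hv
  · rintro ⟨h1, h2⟩
    refine ⟨mem_closedBall_zero_iff.2 h1, vecL k⁻¹ w, mem_closedBall_zero_iff.2 h2, ?_⟩
    show (k : Matrix (Fin m) (Fin m) E) *ᵥ (vecL k⁻¹ w) = w
    rw [← vecL_apply, ← vecL_mul, mul_inv_cancel, vecL_apply, Units.val_one, Matrix.one_mulVec]

/-- The value of `nuV` on the Cartan cell of `dgl(t)`. -/
theorem nuV_cell {ε : ℝ} {h0 : 0 ≤ ε} {h1 : ε ≤ 1} (t : Fin m → Eˣ) {g : GL (Fin m) E}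
    (hg : g ∈ cell ε h0 h1 t) : nuV g = ((∏ i, min 1 (md (t i : E)) : ℝ≥0) : ℝ≥0∞) *
      (addHaar : Measure (Fin m → E)) (Metric.closedBall 0 1) := by
  rw [nuV_eq_nuK]
  exact nuK_cell _ t hg

theorem nuV_mul_left (k : GL (Fin m) E) {ε : ℝ} {h0 : 0 ≤ ε} {h1 : ε ≤ 1}
    {l : GL (Fin m) E} (hl : l ∈ glK (Fin m) E ε h0 h1) : nuV (l * k) = nuV k := by
  rw [nuV_eq_nuK, nuV_eq_nuK, nuK_mul_left _ _ hl]

theorem nuV_mul_right (k : GL (Fin m) E) {ε : ℝ} {h0 : 0 ≤ ε} {h1 : ε ≤ 1}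
    {l : GL (Fin m) E} (hl : l ∈ glK (Fin m) E ε h0 h1) : nuV (k * l) = nuV k := by
  rw [nuV_eq_nuK, nuV_eq_nuK, nuK_mul_right _ _ hl]

/-- The form of the bound used for the integral over the cells. -/
theorem nuV_sqrt_cell : ∃ C : ℝ≥0∞, C < ∞ ∧ ∀ (ε : ℝ) (h0 : 0 ≤ ε) (h1 : ε ≤ 1) (t : Fin m → Eˣ)
    (g : GL (Fin m) E), g ∈ cell ε h0 h1 t → nuV g ^ (1 / 2 : ℝ) ≤
      C * ((∏ i, min 1 (md (t i : E)) : ℝ≥0) : ℝ≥0∞) ^ (1 / 2 : ℝ) := by
  refine ⟨(addHaar : Measure (Fin m → E)) (Metric.closedBall 0 1) ^ (1 / 2 : ℝ), ?_, ?_⟩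
  · exact ENNReal.rpow_lt_top_of_nonneg (by norm_num)
      (isCompact_closedBall (0 : Fin m → E) 1).measure_lt_top.ne
  · intro ε h0 h1 t g hg
    rw [nuV_cell t hg, ENNReal.mul_rpow_of_nonneg _ _ (by norm_num), mul_comm]

/-- `nuV` under right and left multiplication by a fixed element, up to a constant. -/
theorem nuV_le (k : GL (Fin m) E) : nuV k ≤ (addHaar : Measure (Fin m → E))
    (Metric.closedBall 0 1) := measure_mono Set.inter_subset_left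

end SpW.Mo
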