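import Pool.Agent.Work.MP_3615d2_al.Mo.Fin
import Pool.Agent.Work.MP_3615d2_al.Mo.NuV
import Pool.Agent.Work.MP_3615d2_al.Mo.DensC

/-!
MP_3615d2_al, multiplicity one (note 6725, G3b): the kernel integrand is dominated.

`nuV (a * k * b)` is comparable with `nuV k` for `a`, `b` in compact sets, and `nuV (kᵀ) = nuV k`.
For tame `p`, `r` the product of matrix coefficients of `p(h⁻¹)` and `r(θ(hg))` is dominated by the
majorant `kf R (g, h)`, uniformly for `g` in a compact set.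
-/

open MeasureTheory Filter Topology Matrix
open scoped ENNReal NNReal Pointwise

set_option linter.unusedSectionVars false

namespace SpW.Mo

namespace Dm

section nu

variable {E : Type} [NontriviallyNormedField E] [IsUltrametricDist E] [ProperSpace E]
  [MeasurableSpace E] [BorelSpace E] {m : ℕ}

theorem nuV_ne_top (k : GL (Fin m) E) : nuV k ≠ ⊤ :=
  ((nuV_le k).trans_lt (isCompact_closedBall (0 : Fin m → E) 1).measure_lt_top).ne

theorem trGL_mem_glK {k : GL (Fin m) E} (hk : k ∈ glK (Fin m) E 1 zero_le_one le_rfl) :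
    trGL k ∈ glK (Fin m) E 1 zero_le_one le_rfl :=
  mem_glK_one (fun i j => glK_entry hk j i) fun i j => glK_entry_inv hk j i

theorem nuV_trGL (k : GL (Fin m) E) : nuV (trGL k) = nuV k := by
  obtain ⟨k₁, h1, k₂, h2, t, -, rfl⟩ := cartan k
  rw [nuV_eq_nuK, nuV_eq_nuK, trGL_mul, trGL_mul, trGL_dgl, ← mul_assoc,
    nuK_mul_right _ _ (trGL_mem_glK h1), nuK_mul_left _ _ (trGL_mem_glK h2),
    nuK_mul_right _ _ h2, nuK_mul_left _ _ h1]

theorem isLocallyConstant_nuV : IsLocallyConstant (nuV : GL (Fin m) E → ℝ≥0∞) := by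
  rw [IsLocallyConstant.iff_eventually_eq]
  intro g
  have h1 : Tendsto (fun x : GL (Fin m) E => g⁻¹ * x) (𝓝 g) (𝓝 1) := by
    have h2 : Continuous fun x : GL (Fin m) E => g⁻¹ * x := continuous_const.mul continuous_id
    have h3 := h2.tendsto g
    simpa using h3
  have h4 : (glK (Fin m) E 1 zero_le_one le_rfl : Set (GL (Fin m) E)) ∈ 𝓝 (1 : GL (Fin m) E) :=
    (glK_isOpen zero_lt_one le_rfl).mem_nhds (one_mem _)
  filter_upwards [h1.eventually h4] with x hx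
  have hx' : g⁻¹ * x ∈ glK (Fin m) E 1 zero_le_one le_rfl := hx
  have h5 := nuK_mul_right (Measure.addHaar : Measure (Fin m → E)) g hx'
  rw [mul_inv_cancel_left] at h5
  rw [nuV_eq_nuK, nuV_eq_nuK, h5]

theorem nuV_mul_right_le (k b : GL (Fin m) E) {c : Eˣ} (hc : 1 ≤ ‖(c : E)‖)
    (hb : ∀ i j, ‖(b : Matrix (Fin m) (Fin m) E) i j‖ ≤ ‖(c : E)‖) :
    nuV (k * b) ≤ ((md (c : E) ^ m : ℝ≥0) : ℝ≥0∞) * nuV k := by
  rw [nuV_eq_nuK, nuV_eq_nuK]
  have hc0 : 0 < ‖(c : E)‖ := norm_pos_iff.2 c.ne_zero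
  have h3 : LinearMap.det (vecL (dgl fun _ : Fin m => c) : (Fin m → E) →ₗ[E] (Fin m → E)) =
      (c : E) ^ m := by
    have h4 : (vecL (dgl fun _ : Fin m => c) : (Fin m → E) →ₗ[E] (Fin m → E)) =
        Matrix.toLin' (Matrix.diagonal fun _ => (c : E)) := rfl
    rw [h4, LinearMap.det_toLin', Matrix.det_diagonal, Finset.prod_const, Finset.card_univ,
      Fintype.card_fin]
  have hs : ∀ v : Fin m → E, vecL (dgl fun _ : Fin m => c) v = (c : E) • v := by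
    intro v
    funext i
    show ((Matrix.diagonal fun _ => (c : E)) *ᵥ v) i = _
    rw [Matrix.mulVec_diagonal]
    rfl
  have h5 := image_linearEquiv (Measure.addHaar : Measure (Fin m → E))
    (vecL (dgl fun _ : Fin m => c)) {w | ‖w‖ ≤ 1 ∧ ‖vecL k⁻¹ w‖ ≤ 1}
  rw [h3, md_pow] at h5
  unfold nuK
  rw [← h5]
  refine measure_mono ?_
  rintro w ⟨hw1, hw2⟩
  refine ⟨(c : E)⁻¹ • w, ⟨?_, ?_⟩, ?_⟩
  · rw [norm_smul, norm_inv, inv_mul_le_iff₀ hc0, mul_one]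
    exact hw1.trans hc
  · rw [map_smul, norm_smul, norm_inv, inv_mul_le_iff₀ hc0, mul_one]
    have h6 : vecL k⁻¹ w = (b : Matrix (Fin m) (Fin m) E) *ᵥ vecL (k * b)⁻¹ w := by
      rw [← vecL_apply, ← vecL_mul, _root_.mul_inv_rev, mul_inv_cancel_left]
    rw [h6, pi_norm_le_iff_of_nonneg hc0.le]
    intro i
    show ‖∑ j, (b : Matrix (Fin m) (Fin m) E) i j * vecL (k * b)⁻¹ w j‖ ≤ _
    refine IsUltrametricDist.norm_sum_le_of_forall_le_of_nonneg hc0.le fun j _ => ?_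
    rw [norm_mul]
    calc ‖(b : Matrix (Fin m) (Fin m) E) i j‖ * ‖vecL (k * b)⁻¹ w j‖ ≤ ‖(c : E)‖ * 1 :=
          mul_le_mul (hb i j) ((norm_le_pi_norm _ j).trans hw2) (norm_nonneg _) hc0.le
      _ = ‖(c : E)‖ := mul_one _
  · rw [hs, smul_smul, mul_inv_cancel₀ c.ne_zero, one_smul]

theorem nuV_mul_left_le (k a : GL (Fin m) E) {c : Eˣ} (hc : 1 ≤ ‖(c : E)‖)
    (ha : ∀ i j, ‖(a : Matrix (Fin m) (Fin m) E) i j‖ ≤ ‖(c : E)‖) :
    nuV (a * k) ≤ ((md (c : E) ^ m : ℝ≥0) : ℝ≥0∞) * nuV k := by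
  rw [← nuV_trGL (a * k), ← nuV_trGL k, trGL_mul]
  exact nuV_mul_right_le _ _ hc fun i j => ha j i

omit [IsUltrametricDist E] [ProperSpace E] [MeasurableSpace E] [BorelSpace E] in
theorem exists_unit_ge (r : ℝ) : ∃ c : Eˣ, 1 ≤ ‖(c : E)‖ ∧ r ≤ ‖(c : E)‖ := by
  obtain ⟨x, hx⟩ := NormedField.exists_lt_norm E (max r 1)
  have h1 : x ≠ 0 := by
    rintro rfl
    rw [norm_zero] at hx
    exact absurd ((le_max_right r 1).trans_lt hx) (by norm_num)
  exact ⟨Units.mk0 x h1, ((le_max_right _ _).trans hx.le), ((le_max_left _ _).trans hx.le)⟩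

omit [IsUltrametricDist E] [ProperSpace E] [MeasurableSpace E] [BorelSpace E] in
theorem exists_entry_bound {B : Set (GL (Fin m) E)} (hB : IsCompact B) :
    ∃ r : ℝ, ∀ b ∈ B, ∀ i j, ‖(b : Matrix (Fin m) (Fin m) E) i j‖ ≤ r := by
  have h1 : ∀ i j : Fin m, ∃ r : ℝ, ∀ b ∈ B, ‖(b : Matrix (Fin m) (Fin m) E) i j‖ ≤ r := by
    intro i j
    exact hB.exists_bound_of_continuousOn
      ((Units.continuous_val.matrix_elem i j).continuousOn)
  choose r hr using h1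
  refine ⟨∑ i, ∑ j, |r i j|, fun b hb i j => ?_⟩
  calc ‖(b : Matrix (Fin m) (Fin m) E) i j‖ ≤ |r i j| := (hr i j b hb).trans (le_abs_self _)
    _ ≤ ∑ j, |r i j| := Finset.single_le_sum (f := fun j => |r i j|)
        (fun _ _ => abs_nonneg _) (Finset.mem_univ j)
    _ ≤ ∑ i, ∑ j, |r i j| := Finset.single_le_sum (f := fun i => ∑ j, |r i j|)
        (fun _ _ => Finset.sum_nonneg fun _ _ => abs_nonneg _) (Finset.mem_univ i)

/-- `nuV (a * k * b) ≤ C nuV k` for `a`, `b` in compact sets. -/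
theorem exists_nuV_bound {A B : Set (GL (Fin m) E)} (hA : IsCompact A) (hB : IsCompact B) :
    ∃ C : ℝ≥0, ∀ a ∈ A, ∀ b ∈ B, ∀ k, nuV (a * k * b) ≤ C * nuV k := by
  obtain ⟨r, hr⟩ := exists_entry_bound hA
  obtain ⟨s, hs⟩ := exists_entry_bound hB
  obtain ⟨c, hc1, hc2⟩ := exists_unit_ge (E := E) r
  obtain ⟨e, he1, he2⟩ := exists_unit_ge (E := E) s
  refine ⟨md (e : E) ^ m * md (c : E) ^ m, fun a ha b hb k => ?_⟩
  calc nuV (a * k * b) ≤ ((md (e : E) ^ m : ℝ≥0) : ℝ≥0∞) * nuV (a * k) :=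
        nuV_mul_right_le _ _ he1 fun i j => (hs b hb i j).trans he2
    _ ≤ ((md (e : E) ^ m : ℝ≥0) : ℝ≥0∞) * (((md (c : E) ^ m : ℝ≥0) : ℝ≥0∞) * nuV k) :=
        mul_le_mul_right (nuV_mul_left_le _ _ hc1 fun i j => (hr a ha i j).trans hc2) _
    _ = _ := by
        rw [ENNReal.coe_mul, mul_assoc]

end nu


section uni

variable {F E : Type} [NontriviallyNormedField F] [IsUltrametricDist F] [ProperSpace F]
  [NontriviallyNormedField E] [NormedAlgebra F E] [IsUltrametricDist E] [ProperSpace E]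
  [MeasurableSpace E] [BorelSpace E] {σ : E ≃ₐ[F] E} {δ : E} {d : F} {m : ℕ}

theorem sig_lt_one (hσ : Continuous (σ : E → E)) {x : E} (hx : ‖x‖ < 1) : ‖σ x‖ < 1 := by
  have h1 : Tendsto (fun n : ℕ => x ^ n) atTop (𝓝 0) := tendsto_pow_atTop_nhds_zero_of_norm_lt_one hx
  have h2 : Tendsto (fun n : ℕ => σ x ^ n) atTop (𝓝 0) := by
    have h3 := (hσ.tendsto 0).comp h1
    rw [map_zero] at h3
    exact h3.congr fun n => map_pow σ x n
  by_contra h
  push Not at h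
  have h4 := h2.norm
  rw [norm_zero] at h4
  obtain ⟨n, hn⟩ := (h4.eventually (Iio_mem_nhds one_pos)).exists
  rw [norm_pow] at hn
  exact absurd (one_le_pow₀ h) (not_le.2 hn)

theorem ad_of_unitary (hσ : Continuous (σ : E → E)) {H : Matrix (Fin m) (Fin m) E} (hH : H.det ≠ 0)
    {u : GL (Fin m) E} (hu : u ∈ unitary σ H) : ad u = 1 := by
  rw [unitary_gram] at hu
  have h1 := congrArg Matrix.det hu
  have h2 : ((u : Matrix (Fin m) (Fin m) E).map σ).det =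
      σ (u : Matrix (Fin m) (Fin m) E).det := (RingHom.map_det (σ : E →+* E) _).symm
  rw [Matrix.det_mul, Matrix.det_mul, Matrix.det_transpose, h2] at h1
  set D := (u : Matrix (Fin m) (Fin m) E).det with hD
  have h3 : D * σ D = 1 := by
    have h4 : (D * σ D) * H.det = 1 * H.det := by
      rw [one_mul]
      calc (D * σ D) * H.det = D * H.det * σ D := by ring
        _ = H.det := h1
    exact mul_right_cancel₀ hH h4
  have hD0 : D ≠ 0 := by
    intro h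
    rw [h, zero_mul] at h3
    exact zero_ne_one h3
  have h5 := congrArg norm h3
  rw [norm_mul, norm_one] at h5
  have h4 : ‖D‖ = 1 := by
    rcases lt_trichotomy ‖D‖ 1 with h | h | h
    · have h6 := sig_lt_one hσ h
      exfalso
      have h7 : ‖D‖ * ‖σ D‖ < 1 := mul_lt_one_of_nonneg_of_lt_one_left (norm_nonneg _) h h6.le
      linarith
    · exact h
    · have h6 : ‖D⁻¹‖ < 1 := by
        rw [norm_inv]
        exact inv_lt_one_of_one_lt₀ h
      have h7 := sig_lt_one hσ h6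
      rw [map_inv₀, norm_inv] at h7
      exfalso
      have h8 : 1 < ‖σ D‖ := by
        have h9 : 0 < ‖σ D‖ := norm_pos_iff.2 (by rwa [Ne, EmbeddingLike.map_eq_zero_iff])
        exact (inv_lt_one₀ h9).1 h7
      nlinarith
  rw [ad_eq_md, ← hD, md_eq_of_norm_eq (y := (1 : E)) (by rw [h4, norm_one]), md_one]
  rfl

theorem gram_unit {H : Matrix (Fin m) (Fin m) E} {u : GL (Fin m) E} (hu : u ∈ unitary σ H)
    (x : Matrix (Fin m) (Fin m) E) :
    gram σ H ((u : Matrix (Fin m) (Fin m) E) * x) = gram σ H x := by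
  rw [gram_mul]
  have h1 : gram σ H (u : Matrix (Fin m) (Fin m) E) = H := unitary_gram.1 hu
  rw [h1]

theorem gram_diag (M : Matrix (Fin m) (Fin m) E) (a : Fin m → E) (i j : Fin m) :
    gram σ M (Matrix.diagonal a) i j = a i * M i j * σ (a j) := by
  unfold gram
  rw [Matrix.diagonal_transpose, Matrix.diagonal_map (map_zero σ), Matrix.mul_diagonal,
    Matrix.diagonal_mul]

theorem gram_th {t : Fin m → Eˣ} (ht : SkT σ t) (k : GL (Fin m) E) (i j : Fin m) :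
    gram σ (Dg fun i => (t i)⁻¹) (k : Matrix (Fin m) (Fin m) E).transpose i j =
      -((((t i)⁻¹ : Eˣ) : E) *
        gram σ (Dg t) ((th t k : GL (Fin m) E) : Matrix (Fin m) (Fin m) E) i j *
          σ (((t j)⁻¹ : Eˣ) : E)) := by
  have h1 : (k : Matrix (Fin m) (Fin m) E).transpose =
      Dg t * ((th t k : GL (Fin m) E) : Matrix (Fin m) (Fin m) E) *
        Matrix.diagonal (fun i => (((t i)⁻¹ : Eˣ) : E)) := by
    have h2 : trGL k = dgl t * th t k * (dgl t)⁻¹ := by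
      unfold th
      group
    have h3 := congrArg Units.val h2
    rw [Units.val_mul, Units.val_mul, dgl_inv_val] at h3
    exact h3
  have h4 : gram σ (Dg fun i => (t i)⁻¹) (Dg t) = -Dg t := by
    ext i j
    have h5 := gram_diag (σ := σ) (Dg fun i => (t i)⁻¹) (fun i => (t i : E)) i j
    refine h5.trans ?_
    unfold Dg
    rw [Matrix.neg_apply]
    by_cases h : i = j
    · subst h
      rw [Matrix.diagonal_apply_eq, Matrix.diagonal_apply_eq, ht i, ← Units.val_mul,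
        mul_inv_cancel, Units.val_one, one_mul]
    · rw [Matrix.diagonal_apply_ne _ h, Matrix.diagonal_apply_ne _ h]
      simp
  have h6 : gram σ (-Dg t) ((th t k : GL (Fin m) E) : Matrix (Fin m) (Fin m) E) =
      -gram σ (Dg t) ((th t k : GL (Fin m) E) : Matrix (Fin m) (Fin m) E) := by
    unfold gram
    rw [mul_neg, neg_mul]
  rw [h1, gram_mul, gram_mul, h4, gram_diag, h6, Matrix.neg_apply]
  ring

omit [IsUltrametricDist F] [ProperSpace F] [IsUltrametricDist E] in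
theorem exists_sig_bound (hσ : Continuous (σ : E → E)) (R : ℝ) :
    ∃ B : ℝ, ∀ x : E, ‖x‖ ≤ R → ‖σ x‖ ≤ B := by
  obtain ⟨B, hB⟩ := (isCompact_closedBall (0 : E) R).exists_bound_of_continuousOn
    hσ.continuousOn
  exact ⟨B, fun x hx => hB x (mem_closedBall_zero_iff.2 hx)⟩

theorem exists_gram_bound (hq : QuadDatum σ δ d) (H : Matrix (Fin m) (Fin m) E)
    {Ω : Set (GL (Fin m) E)} (hΩ : IsCompact Ω) (R : ℝ) :
    ∃ B : ℝ, 0 ≤ B ∧ ∀ u ∈ unitary σ H, ∀ o ∈ Ω, ∀ z : Eˣ, ‖(z : E)‖ ≤ R → ∀ i j,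
      ‖gram σ H ((u * o * Matrix.GeneralLinearGroup.scalar (Fin m) z : GL (Fin m) E) :
        Matrix (Fin m) (Fin m) E) i j‖ ≤ B := by
  obtain ⟨B₁, hB₁⟩ := exists_sig_bound (continuous_sigD hq) R
  have h1 : ∀ i j : Fin m, ∃ r : ℝ, ∀ o ∈ Ω, ‖gram σ H (o : Matrix (Fin m) (Fin m) E) i j‖ ≤ r := by
    intro i j
    have h2 : Continuous fun o : GL (Fin m) E => gram σ H (o : Matrix (Fin m) (Fin m) E) :=
      (continuous_gram hq H).comp Units.continuous_val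
    exact hΩ.exists_bound_of_continuousOn (h2.matrix_elem i j).continuousOn
  choose r hr using h1
  refine ⟨|R| * (∑ i, ∑ j, |r i j|) * |B₁|, by positivity, ?_⟩
  intro u hu o ho z hz i j
  have h3 : ((u * o * Matrix.GeneralLinearGroup.scalar (Fin m) z : GL (Fin m) E) :
      Matrix (Fin m) (Fin m) E) = (u : Matrix (Fin m) (Fin m) E) *
        ((o : Matrix (Fin m) (Fin m) E) * Matrix.diagonal (fun _ => (z : E))) := by
    rw [Units.val_mul, Units.val_mul, mul_assoc]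
    rfl
  rw [h3, gram_unit hu, gram_mul, gram_diag, norm_mul, norm_mul]
  have h4 : ‖gram σ H (o : Matrix (Fin m) (Fin m) E) i j‖ ≤ ∑ i, ∑ j, |r i j| :=
    calc ‖gram σ H (o : Matrix (Fin m) (Fin m) E) i j‖ ≤ |r i j| :=
          (hr i j o ho).trans (le_abs_self _)
      _ ≤ ∑ j, |r i j| := Finset.single_le_sum (f := fun j => |r i j|)
          (fun _ _ => abs_nonneg _) (Finset.mem_univ j)
      _ ≤ ∑ i, ∑ j, |r i j| := Finset.single_le_sum (f := fun i => ∑ j, |r i j|)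
          (fun _ _ => Finset.sum_nonneg fun _ _ => abs_nonneg _) (Finset.mem_univ i)
  refine mul_le_mul (mul_le_mul (hz.trans (le_abs_self _)) h4 (norm_nonneg _) (abs_nonneg _))
    ((hB₁ _ hz).trans (le_abs_self _)) (norm_nonneg _) (by positivity)

theorem ad_th (t : Fin m → Eˣ) (g : GL (Fin m) E) : ad (th t g) = ad g := by
  have h1 : ad (trGL g) = ad g := by
    rw [ad_eq_md, ad_eq_md]
    have h2 : ((trGL g : GL (Fin m) E) : Matrix (Fin m) (Fin m) E) =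
        (g : Matrix (Fin m) (Fin m) E).transpose := rfl
    rw [h2, Matrix.det_transpose]
  unfold th
  rw [ad_mul, ad_mul, h1, ad_inv]
  field_simp [(ad_pos (dgl t : GL (Fin m) E)).ne']

theorem exists_ad_bound {Ω : Set (GL (Fin m) E)} (hΩ : IsCompact Ω) :
    ∃ M : ℝ, 0 ≤ M ∧ ∀ g ∈ Ω, ad g ≤ M ∧ (ad g)⁻¹ ≤ M := by
  have hc : Continuous (ad : GL (Fin m) E → ℝ) := ad_lc.continuous
  obtain ⟨M, hM⟩ := hΩ.exists_bound_of_continuousOn hc.continuousOn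
  obtain ⟨M', hM'⟩ := hΩ.exists_bound_of_continuousOn
    (hc.inv₀ fun g => (ad_pos g).ne').continuousOn
  refine ⟨max 0 (max M M'), le_max_left _ _, fun g hg => ⟨?_, ?_⟩⟩
  · exact ((le_abs_self _).trans (hM g hg)).trans ((le_max_left _ _).trans (le_max_right _ _))
  · exact ((le_abs_self _).trans (hM' g hg)).trans ((le_max_right _ _).trans (le_max_right _ _))

end uni

end Dm

open Dm

section isp

variable {F E : Type} [NontriviallyNormedField F] [IsUltrametricDist F] [ProperSpace F]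
  [NontriviallyNormedField E] [NormedAlgebra F E] [IsUltrametricDist E] [ProperSpace E]
  [MeasurableSpace E] [BorelSpace E] {σ : E ≃ₐ[F] E} {δ : E} {d : F} {m : ℕ}
  {S S₁ S₂ : Type} [AddCommGroup S] [Module ℂ S] [AddCommGroup S₁] [Module ℂ S₁]
  [AddCommGroup S₂] [Module ℂ S₂]

theorem IsP.lc {t : Fin m → Eˣ} {ω : unitary σ (Dg t) →* Module.End ℂ S} {χ : Eˣ → ℂ}
    {p : GL (Fin m) E → S} (hp : IsP σ t ω χ p) : IsLocallyConstant p := by
  rw [IsLocallyConstant.iff_eventually_eq]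
  intro g
  have h1 : Tendsto (fun x : GL (Fin m) E => g⁻¹ * x) (𝓝 g) (𝓝 1) := by
    have h2 : Continuous fun x : GL (Fin m) E => g⁻¹ * x := continuous_const.mul continuous_id
    have h3 := h2.tendsto g
    simpa using h3
  filter_upwards [h1.eventually hp.right] with x hx
  have h5 := hx g
  rwa [mul_inv_cancel_left] at h5

theorem IsP.finite_image {t : Fin m → Eˣ} {ω : unitary σ (Dg t) →* Module.End ℂ S} {χ : Eˣ → ℂ}
    {p : GL (Fin m) E → S} (hp : IsP σ t ω χ p) {Ω : Set (GL (Fin m) E)} (hΩ : IsCompact Ω) :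
    (p '' Ω).Finite := by
  let _ : TopologicalSpace S := ⊥
  have _ : DiscreteTopology S := ⟨rfl⟩
  exact isCompact_iff_finite.1 (hΩ.image hp.lc.continuous)

/-- the majorant on `G × G` -/
noncomputable def kf (σ : E ≃ₐ[F] E) (t₁ t₂ : Fin m → Eˣ) (R : ℕ)
    (q : GL (Fin m) E × GL (Fin m) E) : ℝ≥0∞ :=
  (MRset σ t₁ t₂ R q.1).indicator (fun h => nuV (h * q.1) ^ (1 / 2 : ℝ)) q.2

/-- Domination of the kernel integrand, uniformly on compact sets. -/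
theorem exists_dom (hq : QuadDatum σ δ d) {t₁ t₂ : Fin m → Eˣ}
    (ht₁ : SkT σ t₁) (ht₂ : SkT σ t₂)
    {ω₁ : unitary σ (Dg t₁) →* Module.End ℂ S₁} {ω₂ : unitary σ (Dg t₂) →* Module.End ℂ S₂}
    {χ₁ χ₂ : Eˣ → ℂ} {p : GL (Fin m) E → S₁} {r : GL (Fin m) E → S₂}
    (hp : IsP σ t₁ ω₁ χ₁ p) (hr : IsP σ t₂ ω₂ χ₂ r) (ϖ : Eˣ)
    {Ω : Set (GL (Fin m) E)} (hΩ : IsCompact Ω)
    {ι : Type*} (Q : ι → S₁ → S₂ → ℝ≥0∞) (N : ι → ℝ≥0∞)
    (hQ : ∀ a b, ∃ C : ℝ≥0, ∀ i (u : unitary σ (Dg t₁)) (u' : unitary σ (Dg t₂)),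
      Q i (ω₁ u a) (ω₂ u' b) ≤ C * N i * nuV u'.1 ^ (1 / 2 : ℝ))
    (hQs : ∀ i (c c' : ℂ) a b, ‖c‖ = 1 → ‖c'‖ = 1 → Q i (c • a) (c' • b) = Q i a b)
    (hQ0 : ∀ i b, Q i 0 b = 0) (hQ1 : ∀ i a, Q i a 0 = 0) :
    ∃ (R : ℕ) (C : ℝ≥0), ∀ i, ∀ g ∈ Ω, ∀ h ∈ Gfin m ϖ,
      Q i (p h⁻¹) (r (th t₂ (h * g))) ≤ C * N i * kf σ t₁ t₂ R (g, h) := by
  rcases Nat.eq_zero_or_pos m with hm | hm
  · subst hm
    refine ⟨0, 0, fun i g _ h hh => ?_⟩
    exfalso
    have h1 : ∀ k : GL (Fin 0) E, ad k = 1 := by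
      intro k
      rw [ad_eq_md, Matrix.det_isEmpty, md_one]
      rfl
    have h2 : ad (scl 0 ϖ : GL (Fin 0) E) < ad h := hh.1
    rw [h1, h1] at h2
    exact lt_irrefl _ h2
  have hσ := continuous_sigD hq
  obtain ⟨Ω₁, hΩ₁, hp1⟩ := hp.tame
  obtain ⟨Ω₂, hΩ₂, hr1⟩ := hr.tame
  choose C₀ hC₀ using hQ
  obtain ⟨C₁, hC₁⟩ := (((hp.finite_image hΩ₁).prod (hr.finite_image hΩ₂)).image
    (fun q : S₁ × S₂ => C₀ q.1 q.2)).bddAbove
  have hC₁' : ∀ a ∈ p '' Ω₁, ∀ b ∈ r '' Ω₂, C₀ a b ≤ C₁ :=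
    fun a ha b hb => hC₁ ⟨(a, b), ⟨ha, hb⟩, rfl⟩
  obtain ⟨M, hM0, hM⟩ := exists_ad_bound hΩ
  obtain ⟨M₁, hM₁0, hM₁⟩ := exists_ad_bound hΩ₁
  obtain ⟨M₂, hM₂0, hM₂⟩ := exists_ad_bound hΩ₂
  set P : ℝ := (ad (Matrix.GeneralLinearGroup.scalar (Fin m) ϖ : GL (Fin m) E))⁻¹ with hP
  have hP0 : 0 < P := inv_pos.2 (ad_pos _)
  obtain ⟨R₁, hR₁⟩ := exists_scl_bound (E := E) hm (P * M₁)
  obtain ⟨R₂, hR₂⟩ := exists_scl_bound (E := E) hm (M * M₂)
  obtain ⟨R₃, hR₃⟩ := exists_scl_bound (E := E) hm (P * M * M₂)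
  obtain ⟨B₁, hB₁0, hB₁⟩ := exists_gram_bound hq (Dg t₁) hΩ₁ R₁
  obtain ⟨B₂, hB₂0, hB₂⟩ := exists_gram_bound hq (Dg t₂) hΩ₂ R₂
  have hcpt : IsCompact ({dgl t₂} * (Ω₂ * {g : GL (Fin m) E | ∀ i j,
      ‖(g : Matrix (Fin m) (Fin m) E) i j‖ ≤ max R₂ R₃ ∧
      ‖((g⁻¹ : GL (Fin m) E) : Matrix (Fin m) (Fin m) E) i j‖ ≤ max R₂ R₃})⁻¹) :=
    isCompact_singleton.mul (hΩ₂.mul (isCompact_gl_bdd _)).inv
  obtain ⟨C₃, hC₃⟩ := exists_nuV_bound (isCompact_singleton (x := ((dgl t₂ : GL (Fin m) E))⁻¹)) hcpt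
  -- the bound for the second gram matrix
  set B₃ : ℝ := (∑ i, ‖(((t₂ i)⁻¹ : Eˣ) : E)‖) * B₂ * (∑ i, ‖σ (((t₂ i)⁻¹ : Eˣ) : E)‖) with hB₃
  obtain ⟨R, hR⟩ := exists_nat_ge (max (max P 1) (max B₁ B₃))
  have hRP : P ≤ R := ((le_max_left _ _).trans (le_max_left _ _)).trans hR
  have hR1 : (1 : ℝ) ≤ R := ((le_max_right _ _).trans (le_max_left _ _)).trans hR
  have hRB₁ : B₁ ≤ R := ((le_max_left _ _).trans (le_max_right _ _)).trans hR
  have hRB₃ : B₃ ≤ R := ((le_max_right _ _).trans (le_max_right _ _)).trans hR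
  refine ⟨R, C₁ * C₃ ^ (1 / 2 : ℝ), fun i g hg h hh => ?_⟩
  by_cases hp0 : p h⁻¹ = 0
  · rw [hp0, hQ0]
    exact zero_le
  by_cases hr0 : r (th t₂ (h * g)) = 0
  · rw [hr0, hQ1]
    exact zero_le
  obtain ⟨u, o, ho, z, hz⟩ := hp1 _ hp0
  obtain ⟨u', o', ho', z', hz'⟩ := hr1 _ hr0
  have hu : ad (u.1 : GL (Fin m) E) = 1 := ad_of_unitary hσ ht₁.isSkew.det_ne u.2
  have hu' : ad (u'.1 : GL (Fin m) E) = 1 := ad_of_unitary hσ ht₂.isSkew.det_ne u'.2
  have hadh : P⁻¹ < ad h ∧ ad h ≤ 1 := by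
    rw [hP, inv_inv]
    exact hh
  have hadh0 : 0 < ad h := ad_pos h
  -- the central elements are bounded
  have e1 : ad (Matrix.GeneralLinearGroup.scalar (Fin m) z : GL (Fin m) E) =
      (ad h)⁻¹ * (ad o)⁻¹ := by
    have h1 := congrArg ad hz
    rw [ad_mul, ad_mul, hu, one_mul, ad_inv] at h1
    rw [h1]
    field_simp [(ad_pos o).ne']
  have e2 : ad (Matrix.GeneralLinearGroup.scalar (Fin m) z' : GL (Fin m) E) =
      ad h * ad g * (ad o')⁻¹ := by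
    have h1 := congrArg ad hz'
    rw [ad_mul, ad_mul, hu', one_mul, ad_th, ad_mul] at h1
    rw [h1]
    field_simp [(ad_pos o').ne']
  have hhP : (ad h)⁻¹ ≤ P := by
    rw [inv_le_comm₀ hadh0 hP0]
    exact hadh.1.le
  have hzR : ‖(z : E)‖ ≤ R₁ := by
    refine hR₁ z ?_
    rw [e1]
    exact mul_le_mul hhP (hM₁ o ho).2 (inv_pos.2 (ad_pos o)).le hP0.le
  have hzR' : ‖(z' : E)‖ ≤ R₂ := by
    refine hR₂ z' ?_
    rw [e2]
    refine mul_le_mul ?_ (hM₂ o' ho').2 (inv_pos.2 (ad_pos o')).le hM0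
    calc ad h * ad g ≤ 1 * M := mul_le_mul hadh.2 (hM g hg).1 (ad_pos g).le zero_le_one
      _ = M := one_mul _
  have hzR'' : ‖((z'⁻¹ : Eˣ) : E)‖ ≤ R₃ := by
    refine hR₃ z'⁻¹ ?_
    have h1 : scl m z'⁻¹ =
        (Matrix.GeneralLinearGroup.scalar (Fin m) z' : GL (Fin m) E)⁻¹ := map_inv _ _
    rw [h1, ad_inv, e2, mul_inv, mul_inv, inv_inv]
    exact mul_le_mul (mul_le_mul hhP (hM g hg).2 (inv_pos.2 (ad_pos g)).le hP0.le)
      (hM₂ o' ho').1 (ad_pos o').le (mul_nonneg hP0.le hM0)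
  -- the set
  have hmem : h ∈ MRset σ t₁ t₂ R g := by
    refine ⟨?_, hadh.2.trans hR1, ?_, ?_⟩
    · rw [inv_le_comm₀ (by linarith) hadh0]
      exact hhP.trans hRP
    · intro i j
      rw [hz]
      exact (hB₁ u.1 u.2 o ho z hzR i j).trans hRB₁
    · intro i j
      rw [gram_th ht₂, norm_neg, norm_mul, norm_mul, hz']
      refine le_trans ?_ hRB₃
      refine mul_le_mul (mul_le_mul ?_ (hB₂ u'.1 u'.2 o' ho' z' hzR' i j) (norm_nonneg _)
        (Finset.sum_nonneg fun _ _ => norm_nonneg _)) ?_ (norm_nonneg _)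
        (mul_nonneg (Finset.sum_nonneg fun _ _ => norm_nonneg _) hB₂0)
      · exact Finset.single_le_sum (f := fun i => ‖(((t₂ i)⁻¹ : Eˣ) : E)‖)
          (fun _ _ => norm_nonneg _) (Finset.mem_univ i)
      · exact Finset.single_le_sum (f := fun i => ‖σ (((t₂ i)⁻¹ : Eˣ) : E)‖)
          (fun _ _ => norm_nonneg _) (Finset.mem_univ j)
  -- the value
  have hpv : p h⁻¹ = χ₁ z • ω₁ u (p o) := by
    rw [hz, ← scl_comm, hp.cent, hp.left]
  have hrv : r (th t₂ (h * g)) = χ₂ z' • ω₂ u' (r o') := by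
    rw [hz', ← scl_comm, hr.cent, hr.left]
  have hval : Q i (p h⁻¹) (r (th t₂ (h * g))) ≤ C₁ * N i * nuV u'.1 ^ (1 / 2 : ℝ) := by
    rw [hpv, hrv, hQs i _ _ _ _ (hp.unit z) (hr.unit z')]
    refine (hC₀ (p o) (r o') i u u').trans ?_
    have h1 : (C₀ (p o) (r o') : ℝ≥0∞) ≤ C₁ :=
      ENNReal.coe_le_coe.2 (hC₁' _ ⟨o, ho, rfl⟩ _ ⟨o', ho', rfl⟩)
    exact mul_le_mul' (mul_le_mul' h1 le_rfl) le_rfl
  -- the volume
  have hvol : nuV u'.1 ≤ C₃ * nuV (h * g) := by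
    have h1 : u'.1 = (dgl t₂ : GL (Fin m) E)⁻¹ * trGL (h * g) *
        (dgl t₂ * (o' * Matrix.GeneralLinearGroup.scalar (Fin m) z')⁻¹) := by
      have h2 : (dgl t₂ : GL (Fin m) E)⁻¹ * trGL (h * g) * dgl t₂ =
          u'.1 * o' * Matrix.GeneralLinearGroup.scalar (Fin m) z' := hz'
      rw [← mul_assoc, h2]
      group
    rw [h1, ← nuV_trGL (h * g)]
    refine hC₃ _ rfl _ ?_ _
    refine Set.mul_mem_mul rfl (Set.inv_mem_inv.2 (Set.mul_mem_mul ho' ?_))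
    intro i j
    have key : ∀ (w : Eˣ) (s : ℝ), ‖(w : E)‖ ≤ s → ∀ i j,
        ‖((Matrix.GeneralLinearGroup.scalar (Fin m) w : GL (Fin m) E) :
          Matrix (Fin m) (Fin m) E) i j‖ ≤ s := by
      intro w s hw i j
      show ‖(Matrix.scalar (Fin m) (w : E)) i j‖ ≤ s
      rw [Matrix.scalar_apply, Matrix.diagonal_apply]
      split_ifs
      · exact hw
      · rw [norm_zero]
        exact (norm_nonneg _).trans hw
    refine ⟨key z' _ (hzR'.trans (le_max_left _ _)) i j, ?_⟩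
    have h9 : (Matrix.GeneralLinearGroup.scalar (Fin m) z' : GL (Fin m) E)⁻¹ =
        Matrix.GeneralLinearGroup.scalar (Fin m) z'⁻¹ := (map_inv _ _).symm
    rw [h9]
    exact key z'⁻¹ _ (hzR''.trans (le_max_right _ _)) i j
  have hkf : kf σ t₁ t₂ R (g, h) = nuV (h * g) ^ (1 / 2 : ℝ) := Set.indicator_of_mem hmem _
  rw [hkf]
  calc Q i (p h⁻¹) (r (th t₂ (h * g))) ≤ C₁ * N i * nuV u'.1 ^ (1 / 2 : ℝ) := hval
    _ ≤ C₁ * N i * (C₃ * nuV (h * g)) ^ (1 / 2 : ℝ) :=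
        mul_le_mul' le_rfl (ENNReal.rpow_le_rpow hvol (by norm_num))
    _ = (C₁ * C₃ ^ (1 / 2 : ℝ) : ℝ≥0) * N i * nuV (h * g) ^ (1 / 2 : ℝ) := by
        rw [ENNReal.mul_rpow_of_nonneg _ _ (by norm_num), ENNReal.coe_mul,
          ENNReal.coe_rpow_of_nonneg _ (by norm_num)]
        ring

end isp

end SpW.Mo
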