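import Pool.Agent.Work.MP_3615d2_al.Mo.Lin

/-!
MP_3615d2_al, multiplicity one: the linear algebra of the symmetric case (note 6725, G6).
-/

open Matrix Polynomial

set_option linter.unusedSectionVars false

namespace SpW.Mo

section sym

variable {F E : Type} [NontriviallyNormedField F] [NontriviallyNormedField E] [NormedAlgebra F E]
  {σ : E ≃ₐ[F] E} {m : ℕ} {t : Fin m → Eˣ}

theorem th_val (hσσ : ∀ x, σ (σ x) = x) (t : Fin m → Eˣ) (g : GL (Fin m) E) :
    (th t g).1 = (dag σ (Dg t) g.1).map σ := by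
  have h1 : (th t g).1 = ((dgl t)⁻¹ : GL (Fin m) E).1 * g.1.transpose * Dg t := rfl
  have h2 : ((dgl t)⁻¹ : GL (Fin m) E).1 = (Dg t)⁻¹ := by
    rw [← dgl_Dg]
    exact Matrix.coe_units_inv _
  rw [h1, dag, map_sig_sig hσσ, h2]

theorem map_mulVec (M : Matrix (Fin m) (Fin m) E) (hσσ : ∀ x, σ (σ x) = x) (w : Fin m → E) :
    (M.map σ).mulVec w = fun i => σ (M.mulVec (fun i => σ (w i)) i) := by
  funext i
  simp [mulVec, dotProduct, hσσ]

theorem dag_unitary {H : Matrix (Fin m) (Fin m) E} (hH : H.det ≠ 0) (hσσ : ∀ x, σ (σ x) = x)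
    {r : GL (Fin m) E} (hr : r ∈ unitary σ H) : dag σ H r.1 = (r⁻¹).1 := by
  apply dag_unique hH hσσ
  intro x y
  have h1 := hr x ((r⁻¹).1.mulVec y)
  rw [Matrix.mulVec_mulVec, ← Units.val_mul, mul_inv_cancel, Units.val_one,
    Matrix.one_mulVec] at h1
  exact h1

theorem sk_sig (ht : SkT σ t) (hσσ : ∀ x, σ (σ x) = x) (x y : Fin m → E) :
    sk σ (Dg t) (fun i => σ (x i)) (fun i => σ (y i)) = -σ (sk σ (Dg t) x y) := by
  simp only [sk, map_sum, map_mul]
  rw [← Finset.sum_neg_distrib]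
  refine Finset.sum_congr rfl fun i _ => ?_
  rw [← Finset.sum_neg_distrib]
  refine Finset.sum_congr rfl fun j _ => ?_
  have h1 : σ (Dg t i j) = -Dg t i j := by
    unfold Dg
    by_cases h : i = j
    · subst h
      rw [Matrix.diagonal_apply_eq, ht i]
    · rw [Matrix.diagonal_apply_ne _ h, map_zero, neg_zero]
  rw [h1]
  ring

/-- The data of the symmetric case: `A w` is the element of `L = E[ξ]` with `A w e = w`. -/
theorem exists_sym (hσσ : ∀ x, σ (σ x) = x) (ht : SkT σ t) {g : GL (Fin m) E}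
    {ξ : Matrix (Fin m) (Fin m) E}
    (hξ : ∀ x y, sk σ (Dg t) (g.1.mulVec x) (g.1.mulVec y) = sk σ (Dg t) (ξ.mulVec x) y)
    (hsep : ξ.charpoly.Separable)
    (f : E[X]) (hf : aeval ξ f * aeval ξ (f.map (σ : E →+* E)) = ξ) :
    ∃ (e : Fin m → E) (A : (Fin m → E) →ₗ[E] Matrix (Fin m) (Fin m) E)
      (u h r : GL (Fin m) E),
      A e = 1 ∧ (∀ w, (A w).mulVec e = w) ∧ (∀ v w, A v * A w = A ((A v).mulVec w)) ∧
      (∀ v w, A v * A w = A w * A v) ∧
      (∀ w, dag σ (Dg t) (A w) = A ((r⁻¹).1.mulVec fun i => σ (w i))) ∧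
      h.1 = A (h.1.mulVec e) ∧ g = u * h ∧ u ∈ unitary σ (Dg t) ∧ r ∈ unitary σ (Dg t) ∧
      th t r = r ∧ th t h = r * h * r⁻¹ ∧
      ∀ w, (A w).det ≠ 0 → ∃ τ : GL (Fin m) E, τ ∈ unitary σ (Dg t) ∧ τ * h = h * τ ∧
        τ.1.mulVec w = (r⁻¹).1.mulVec (fun i => σ (w i)) ∧
        τ.1 = dag σ (Dg t) (A w) * (A w)⁻¹ := by
  classical
  have hH := ht.isSkew
  have hd : dag σ (Dg t) ξ = ξ := dag_self hH.det_ne hσσ (selfadj_of hH hH hσσ hξ)
  obtain ⟨e, A, hA1, hA2, hA3⟩ := exists_cyc_map hsep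
  obtain ⟨u, h, hh, hguh, hu⟩ := isom_of_normL hH hH hσσ hξ f hf
  have hAe : A e = 1 := by
    have := hA3 1
    rwa [map_one, Matrix.one_mulVec] at this
  have hAA : ∀ v w, A v * A w = A ((A v).mulVec w) := by
    intro v w
    obtain ⟨p, hp⟩ := hA1 v
    obtain ⟨q, hq⟩ := hA1 w
    have h1 : (A v).mulVec w = (aeval ξ (p * q)).mulVec e := by
      rw [map_mul, ← Matrix.mulVec_mulVec, ← hp, ← hq, hA2]
    rw [h1, hA3, map_mul, hp, hq]
  have hAc : ∀ v w, A v * A w = A w * A v := by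
    intro v w
    obtain ⟨p, hp⟩ := hA1 v
    obtain ⟨q, hq⟩ := hA1 w
    rw [hp, hq, ← map_mul, mul_comm, map_mul]
  have hAd : ∀ w, dag σ (Dg t) (A w) = A ((dag σ (Dg t) (A w)).mulVec e) := by
    intro w
    obtain ⟨p, hp⟩ := hA1 w
    rw [hp, dag_aeval hH.det_ne hσσ hd, hA3]
  have hAh : h.1 = A (h.1.mulVec e) := by
    rw [hh, hA3]
  -- the involution `δ_L`
  set dL : (Fin m → E) → (Fin m → E) := fun w => (dag σ (Dg t) (A w)).mulVec e with hdL
  have hAdL : ∀ w, A (dL w) = dag σ (Dg t) (A w) := fun w => (hAd w).symm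
  have hdLadd : ∀ v w, dL (v + w) = dL v + dL w := by
    intro v w
    simp only [hdL]
    rw [map_add, dag_add, Matrix.add_mulVec]
  have hdLsmul : ∀ (c : E) w, dL (c • w) = σ c • dL w := by
    intro c w
    simp only [hdL]
    rw [map_smul, dag_smul, Matrix.smul_mulVec]
  have hdLdL : ∀ w, dL (dL w) = w := by
    intro w
    show (dag σ (Dg t) (A (dL w))).mulVec e = w
    rw [hAdL, dag_dag hH hσσ, hA2]
  have hdLsk : ∀ x y, sk σ (Dg t) (dL x) (dL y) = -σ (sk σ (Dg t) x y) := by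
    intro x y
    simp only [hdL]
    rw [sk_dag' hH hσσ, Matrix.mulVec_mulVec]
    have h1 : A x * dag σ (Dg t) (A y) = dag σ (Dg t) (A y) * A x := by
      rw [hAd, hAc]
    rw [h1, ← Matrix.mulVec_mulVec, hA2, ← sk_dag hH.det_ne hσσ, hA2, sk_swap hH hσσ x y]
  -- the matrices of `r` and `r⁻¹`
  let R : (Fin m → E) →ₗ[E] (Fin m → E) :=
    { toFun := fun w i => σ (dL w i)
      map_add' := fun v w => by
        funext i
        rw [hdLadd]
        simp
      map_smul' := fun c w => by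
        funext i
        rw [hdLsmul]
        simp [hσσ] }
  let R' : (Fin m → E) →ₗ[E] (Fin m → E) :=
    { toFun := fun w => dL fun i => σ (w i)
      map_add' := fun v w => by
        rw [← hdLadd]
        congr 1
        funext i
        simp
      map_smul' := fun c w => by
        have h1 : (fun i => σ ((c • w) i)) = σ c • fun i => σ (w i) := by
          funext i
          simp
        rw [h1, hdLsmul, hσσ, RingHom.id_apply] }
  have hRR' : R.comp R' = LinearMap.id := by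
    apply LinearMap.ext
    intro w
    show (fun i => σ (dL (dL fun i => σ (w i)) i)) = w
    rw [hdLdL]
    funext i
    exact hσσ _
  have hR'R : R'.comp R = LinearMap.id := by
    apply LinearMap.ext
    intro w
    show dL (fun i => σ (σ (dL w i))) = w
    simp_rw [hσσ]
    exact hdLdL w
  have hm1 : LinearMap.toMatrix' R * LinearMap.toMatrix' R' = 1 := by
    rw [← LinearMap.toMatrix'_comp, hRR', LinearMap.toMatrix'_id]
  have hm2 : LinearMap.toMatrix' R' * LinearMap.toMatrix' R = 1 := by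
    rw [← LinearMap.toMatrix'_comp, hR'R, LinearMap.toMatrix'_id]
  set r : GL (Fin m) E := ⟨LinearMap.toMatrix' R, LinearMap.toMatrix' R', hm1, hm2⟩ with hr
  have hrv : ∀ w, r.1.mulVec w = fun i => σ (dL w i) := by
    intro w
    show (LinearMap.toMatrix' R).mulVec w = _
    rw [← Matrix.toLin'_apply, Matrix.toLin'_toMatrix']
    rfl
  have hrv' : ∀ w, (r⁻¹).1.mulVec w = dL fun i => σ (w i) := by
    intro w
    show (LinearMap.toMatrix' R').mulVec w = _
    rw [← Matrix.toLin'_apply, Matrix.toLin'_toMatrix']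
    rfl
  have hrU : r ∈ unitary σ (Dg t) := by
    intro x y
    show sk σ (Dg t) (r.1.mulVec x) (r.1.mulVec y) = _
    rw [hrv, hrv, sk_sig ht hσσ, hdLsk, map_neg, neg_neg, hσσ]
  have hdLw : ∀ w, (r⁻¹).1.mulVec (fun i => σ (w i)) = dL w := by
    intro w
    rw [hrv']
    simp_rw [hσσ]
  refine ⟨e, A, u, h, r, hAe, hA2, hAA, hAc, ?_, hAh, hguh, hu, hrU, ?_, ?_, ?_⟩
  · intro w
    rw [hdLw, hAdL]
  · apply Units.ext
    rw [th_val hσσ, dag_unitary hH.det_ne hσσ hrU]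
    apply Matrix.toLin'.injective
    apply LinearMap.ext
    intro w
    rw [Matrix.toLin'_apply, Matrix.toLin'_apply, map_mulVec _ hσσ, hrv, hdLw]
  · apply Units.ext
    rw [th_val hσσ]
    apply Matrix.toLin'.injective
    apply LinearMap.ext
    intro w
    have h1 : (r * h * r⁻¹ : GL (Fin m) E).1 = r.1 * h.1 * (r⁻¹).1 := rfl
    have h2 : dL (h.1.mulVec (dL fun i => σ (w i))) =
        (dag σ (Dg t) h.1).mulVec fun i => σ (w i) := by
      simp only [hdL]
      have h3 : ∀ z, A (h.1.mulVec z) = h.1 * A z := by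
        intro z
        rw [hAh, hAA, ← hAh]
      rw [h3, dag_mul hH.det_ne hσσ]
      have h4 : ∀ z, dag σ (Dg t) (A z) * dag σ (Dg t) h.1 =
          dag σ (Dg t) h.1 * dag σ (Dg t) (A z) := by
        intro z
        rw [← dag_mul hH.det_ne hσσ, ← dag_mul hH.det_ne hσσ, hAh, hAc]
      rw [h4, ← Matrix.mulVec_mulVec]
      congr 1
      exact hdLdL _
    rw [Matrix.toLin'_apply, Matrix.toLin'_apply, map_mulVec _ hσσ, h1, ← Matrix.mulVec_mulVec,
      ← Matrix.mulVec_mulVec, hrv', hrv, h2]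
  · intro w hw
    set M := A w with hM
    set N := dag σ (Dg t) M with hN
    have hMu : IsUnit M.det := isUnit_iff_ne_zero.2 hw
    have hMN : M * N = N * M := by
      rw [hN, hM, hAd, hAc]
    have hMh : M * h.1 = h.1 * M := by
      rw [hAh, hM, hAc]
    have hNh : N * h.1 = h.1 * N := by
      rw [hN, hM, hAd, hAh, hAc]
    have hdM : dag σ (Dg t) M⁻¹ * N = 1 := by
      rw [hN, ← dag_mul hH.det_ne hσσ, Matrix.mul_nonsing_inv M hMu, dag_one hH.det_ne hσσ]
    have hdM' : N * dag σ (Dg t) M⁻¹ = 1 := by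
      rw [hN, ← dag_mul hH.det_ne hσσ, Matrix.nonsing_inv_mul M hMu, dag_one hH.det_ne hσσ]
    have hMi : M⁻¹ * h.1 = h.1 * M⁻¹ := by
      calc M⁻¹ * h.1 = M⁻¹ * (h.1 * M) * M⁻¹ := by
            rw [Matrix.mul_assoc, Matrix.mul_assoc, Matrix.mul_nonsing_inv M hMu, Matrix.mul_one]
        _ = h.1 * M⁻¹ := by
            rw [← hMh, ← Matrix.mul_assoc, Matrix.nonsing_inv_mul M hMu, Matrix.one_mul]
    have e1 : N * M⁻¹ * (M * dag σ (Dg t) M⁻¹) = 1 := by
      rw [Matrix.mul_assoc, ← Matrix.mul_assoc M⁻¹, Matrix.nonsing_inv_mul M hMu, Matrix.one_mul,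
        hdM']
    have e2 : M * dag σ (Dg t) M⁻¹ * (N * M⁻¹) = 1 := by
      rw [Matrix.mul_assoc, ← Matrix.mul_assoc _ N, hdM, Matrix.one_mul,
        Matrix.mul_nonsing_inv M hMu]
    set τ : GL (Fin m) E := ⟨N * M⁻¹, M * dag σ (Dg t) M⁻¹, e1, e2⟩ with hτ
    have hτv : τ.1 = N * M⁻¹ := rfl
    refine ⟨τ, ?_, ?_, ?_, hτv⟩
    · intro x y
      show sk σ (Dg t) (τ.1.mulVec x) (τ.1.mulVec y) = _
      rw [sk_dag hH.det_ne hσσ, Matrix.mulVec_mulVec]
      have h5 : dag σ (Dg t) τ.1 * τ.1 = 1 := by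
        rw [hτv, dag_mul hH.det_ne hσσ, hN, dag_dag hH hσσ, ← hN]
        calc dag σ (Dg t) M⁻¹ * M * (N * M⁻¹) = dag σ (Dg t) M⁻¹ * (M * N) * M⁻¹ := by
              simp only [Matrix.mul_assoc]
          _ = (dag σ (Dg t) M⁻¹ * N) * (M * M⁻¹) := by
              rw [hMN]
              simp only [Matrix.mul_assoc]
          _ = 1 := by rw [hdM, Matrix.mul_nonsing_inv M hMu, Matrix.one_mul]
      rw [h5, Matrix.one_mulVec]
    · apply Units.ext
      show N * M⁻¹ * h.1 = h.1 * (N * M⁻¹)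
      rw [Matrix.mul_assoc, hMi, ← Matrix.mul_assoc, hNh, Matrix.mul_assoc]
    · rw [hτv, hdLw]
      simp only [hdL]
      rw [← hM, ← hN, ← Matrix.mulVec_mulVec]
      congr 1
      have h6 : M.mulVec e = w := hA2 w
      rw [← h6, Matrix.mulVec_mulVec, Matrix.nonsing_inv_mul M hMu, Matrix.one_mulVec]

end sym

end SpW.Mo
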