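import Pool.Agent.Work.MP_3615d2_al.Mo.WeilForm
import Pool.Agent.Work.MP_3615d2_al.SchInt

/-!
MP_3615d2_al, multiplicity one: operators of rank one.  For a smooth functional `η`,
`∫ η(ρ(-w)c) ρ(w)v dw = κ η(v) c` with a nonzero constant `κ` (Schur twice, and positivity), so
the operator `v ↦ β(v,b) c` is `∫ f(w) ρ(w) dw` for a locally constant `f` with compact support.
-/

open MeasureTheory Metric Set Filter Topology
open scoped NNReal ComplexConjugate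

set_option linter.unusedSectionVars false

namespace SpW.Mo

open Pool.Agent.SpehH

section rank

variable {F E : Type} [NontriviallyNormedField F] [IsUltrametricDist F] [ProperSpace F]
  [NontriviallyNormedField E] [NormedAlgebra F E] [IsUltrametricDist E]
  [ProperSpace E] [MeasurableSpace E] [BorelSpace E]
  {σ : E ≃ₐ[F] E} {δ : E} {d : F} {N : ℕ} {H : Matrix (Fin N) (Fin N) E}
  {ψ : AddChar F Circle} {μ : Eˣ →* ℂˣ} {S : Type} [AddCommGroup S] [Module ℂ S]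
  {ρ : (Fin N → E) → Module.End ℂ S} {ω : unitary σ H →* Module.End ℂ S}

theorem cfn_mem (hW : IsWeil σ H ψ μ ρ ω) (hq : QuadDatum σ δ d) (hH : IsSkew σ H)
    (hψ : Continuous ψ) (hψ1 : ψ ≠ 1) (η : hDual ρ) (c : S) :
    (fun w : Fin N → E => η.1 (ρ (-w) c)) ∈ Sch (Fin N → E) ℂ := by
  obtain ⟨R, hR⟩ := cf_supp hW hq hH hψ1 η c
  refine ⟨?_, closedBall 0 R, isCompact_closedBall 0 R, fun w hw => ?_⟩
  · have h1 := (rv_locConst hW hq hψ c).comp_continuous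
      (continuous_neg : Continuous fun w : Fin N → E => -w)
    exact h1.comp η.1
  · apply hR
    rw [norm_neg]
    simpa using hw

theorem phi_mem (hW : IsWeil σ H ψ μ ρ ω) (hq : QuadDatum σ δ d) (hH : IsSkew σ H)
    (hψ : Continuous ψ) (hψ1 : ψ ≠ 1) (η : hDual ρ) (c v : S) :
    (fun w : Fin N → E => η.1 (ρ (-w) c) • ρ w v) ∈ Sch (Fin N → E) S := by
  obtain ⟨h1, K, hK, h2⟩ := cfn_mem hW hq hH hψ hψ1 η c
  refine ⟨?_, K, hK, fun w hw => ?_⟩
  · rw [IsLocallyConstant.iff_eventually_eq] at h1 ⊢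
    intro w
    filter_upwards [h1 w, (IsLocallyConstant.iff_eventually_eq _).1
      (rv_locConst hW hq hψ v) w] with y hy hy'
    rw [hy, hy']
  · show η.1 (ρ (-w) c) • ρ w v = 0
    rw [show η.1 (ρ (-w) c) = 0 from h2 w hw, zero_smul]

/-- `w ↦ η(ρ(-w)c) ρ(w)v` -/
noncomputable def phiF (hW : IsWeil σ H ψ μ ρ ω) (hq : QuadDatum σ δ d) (hH : IsSkew σ H)
    (hψ : Continuous ψ) (hψ1 : ψ ≠ 1) (η : hDual ρ) (c v : S) : Sch (Fin N → E) S :=
  ⟨_, phi_mem hW hq hH hψ hψ1 η c v⟩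

/-- `∫ η(ρ(-w)c) ρ(w)v dw` -/
noncomputable def phiI (hW : IsWeil σ H ψ μ ρ ω) (hq : QuadDatum σ δ d) (hH : IsSkew σ H)
    (hψ : Continuous ψ) (hψ1 : ψ ≠ 1) (η : hDual ρ) (c v : S) : S :=
  schIL (Fin N → E) S Measure.addHaar (phiF hW hq hH hψ hψ1 η c v)

theorem phiI_dual (hW : IsWeil σ H ψ μ ρ ω) (hq : QuadDatum σ δ d) (hH : IsSkew σ H)
    (hψ : Continuous ψ) (hψ1 : ψ ≠ 1) (η : hDual ρ) (c v : S) (ξ : S →ₗ[ℂ] ℂ) :
    ξ (phiI hW hq hH hψ hψ1 η c v) =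
      ∫ w : Fin N → E, η.1 (ρ (-w) c) * ξ (ρ w v) ∂(Measure.addHaar) := by
  unfold phiI
  rw [schIL_apply, schI_dual]
  refine integral_congr_ae (Eventually.of_forall fun w => ?_)
  show ξ (η.1 (ρ (-w) c) • ρ w v) = _
  rw [map_smul, smul_eq_mul]

theorem phiI_addc (hW : IsWeil σ H ψ μ ρ ω) (hq : QuadDatum σ δ d) (hH : IsSkew σ H)
    (hψ : Continuous ψ) (hψ1 : ψ ≠ 1) (η : hDual ρ) (c c' v : S) :
    phiI hW hq hH hψ hψ1 η (c + c') v =
      phiI hW hq hH hψ hψ1 η c v + phiI hW hq hH hψ hψ1 η c' v := by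
  unfold phiI
  rw [← map_add]
  congr 1
  apply Subtype.ext
  funext w
  show η.1 (ρ (-w) (c + c')) • ρ w v = η.1 (ρ (-w) c) • ρ w v + η.1 (ρ (-w) c') • ρ w v
  rw [map_add, map_add, add_smul]

theorem phiI_smulc (hW : IsWeil σ H ψ μ ρ ω) (hq : QuadDatum σ δ d) (hH : IsSkew σ H)
    (hψ : Continuous ψ) (hψ1 : ψ ≠ 1) (η : hDual ρ) (a : ℂ) (c v : S) :
    phiI hW hq hH hψ hψ1 η (a • c) v = a • phiI hW hq hH hψ hψ1 η c v := by
  unfold phiI
  rw [← map_smul]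
  congr 1
  apply Subtype.ext
  funext w
  show η.1 (ρ (-w) (a • c)) • ρ w v = a • (η.1 (ρ (-w) c) • ρ w v)
  rw [map_smul, map_smul, smul_eq_mul, mul_smul]

theorem phiI_addv (hW : IsWeil σ H ψ μ ρ ω) (hq : QuadDatum σ δ d) (hH : IsSkew σ H)
    (hψ : Continuous ψ) (hψ1 : ψ ≠ 1) (η : hDual ρ) (c v v' : S) :
    phiI hW hq hH hψ hψ1 η c (v + v') =
      phiI hW hq hH hψ hψ1 η c v + phiI hW hq hH hψ hψ1 η c v' := by
  unfold phiI
  rw [← map_add]
  congr 1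
  apply Subtype.ext
  funext w
  show η.1 (ρ (-w) c) • ρ w (v + v') = η.1 (ρ (-w) c) • ρ w v + η.1 (ρ (-w) c) • ρ w v'
  rw [map_add, smul_add]

theorem phiI_smulv (hW : IsWeil σ H ψ μ ρ ω) (hq : QuadDatum σ δ d) (hH : IsSkew σ H)
    (hψ : Continuous ψ) (hψ1 : ψ ≠ 1) (η : hDual ρ) (a : ℂ) (c v : S) :
    phiI hW hq hH hψ hψ1 η c (a • v) = a • phiI hW hq hH hψ hψ1 η c v := by
  unfold phiI
  rw [← map_smul]
  congr 1
  apply Subtype.ext
  funext w
  show η.1 (ρ (-w) c) • ρ w (a • v) = a • (η.1 (ρ (-w) c) • ρ w v)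
  rw [map_smul, smul_comm]

theorem phiI_addn (hW : IsWeil σ H ψ μ ρ ω) (hq : QuadDatum σ δ d) (hH : IsSkew σ H)
    (hψ : Continuous ψ) (hψ1 : ψ ≠ 1) (η η' : hDual ρ) (c v : S) :
    phiI hW hq hH hψ hψ1 (η + η') c v =
      phiI hW hq hH hψ hψ1 η c v + phiI hW hq hH hψ hψ1 η' c v := by
  unfold phiI
  rw [← map_add]
  congr 1
  apply Subtype.ext
  funext w
  show (η + η').1 (ρ (-w) c) • ρ w v = η.1 (ρ (-w) c) • ρ w v + η'.1 (ρ (-w) c) • ρ w v
  rw [← add_smul]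
  rfl

theorem phiI_smuln (hW : IsWeil σ H ψ μ ρ ω) (hq : QuadDatum σ δ d) (hH : IsSkew σ H)
    (hψ : Continuous ψ) (hψ1 : ψ ≠ 1) (a : ℂ) (η : hDual ρ) (c v : S) :
    phiI hW hq hH hψ hψ1 (a • η) c v = a • phiI hW hq hH hψ hψ1 η c v := by
  unfold phiI
  rw [← map_smul]
  congr 1
  apply Subtype.ext
  funext w
  show (a • η).1 (ρ (-w) c) • ρ w v = a • (η.1 (ρ (-w) c) • ρ w v)
  rw [← mul_smul]
  rfl

/-- `Φ(η, ρ(x)c, v) = ρ(x) Φ(η, c, v)` -/
theorem phiI_rhoc (hW : IsWeil σ H ψ μ ρ ω) (hq : QuadDatum σ δ d) (hH : IsSkew σ H)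
    (hψ : Continuous ψ) (hψ1 : ψ ≠ 1) (η : hDual ρ) (x : Fin N → E) (c v : S) :
    phiI hW hq hH hψ hψ1 η (ρ x c) v = ρ x (phiI hW hq hH hψ hψ1 η c v) := by
  refine dual_ext fun ξ => ?_
  have h1 := phiI_dual hW hq hH hψ hψ1 η c v (ξ.comp (ρ x))
  rw [LinearMap.comp_apply] at h1
  rw [h1, phiI_dual, ← integral_add_left_eq_self
    (fun w : Fin N → E => η.1 (ρ (-w) (ρ x c)) * ξ (ρ w v)) x]
  refine integral_congr_ae (Eventually.of_forall fun w => ?_)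
  show η.1 (ρ (-(x + w)) (ρ x c)) * ξ (ρ (x + w) v) =
    η.1 (ρ (-w) c) * (ξ.comp (ρ x)) (ρ w v)
  rw [LinearMap.comp_apply, rr hW x w v, rr hW (-(x + w)) x c]
  have e1 : -(x + w) + x = -w := by abel
  have e2 : sympl F σ H (-(x + w)) x = sympl F σ H x w := by
    rw [sympl_eq, sk_neg_left, sk_add_left, map_neg, map_add, ← sympl_eq, ← sympl_eq,
      sympl_self hq hH, zero_add, sympl_swap hq hH x w, neg_neg]
  rw [e1, e2, map_smul, map_smul, smul_eq_mul, smul_eq_mul]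
  ring

/-- `Φ(η, c, ρ(-x)v) = Φ(rhoD(x)η, c, v)` -/
theorem phiI_rhov (hW : IsWeil σ H ψ μ ρ ω) (hq : QuadDatum σ δ d) (hH : IsSkew σ H)
    (hψ : Continuous ψ) (hψ1 : ψ ≠ 1) (η : hDual ρ) (x : Fin N → E) (c v : S) :
    phiI hW hq hH hψ hψ1 (rhoD hW hq hH hψ x η) c v =
      phiI hW hq hH hψ hψ1 η c (ρ (-x) v) := by
  refine dual_ext fun ξ => ?_
  rw [phiI_dual, phiI_dual, ← integral_add_left_eq_self
    (fun w : Fin N → E => η.1 (ρ (-w) c) * ξ (ρ w (ρ (-x) v))) x]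
  refine integral_congr_ae (Eventually.of_forall fun w => ?_)
  show (rhoD hW hq hH hψ x η).1 (ρ (-w) c) * ξ (ρ w v) =
    η.1 (ρ (-(x + w)) c) * ξ (ρ (x + w) (ρ (-x) v))
  rw [rhoD_apply, rr hW (-x) (-w) c, rr hW (x + w) (-x) v]
  have e1 : x + w + -x = w := by abel
  have e3 : -x + -w = -(x + w) := by abel
  have e2 : sympl F σ H (x + w) (-x) = sympl F σ H (-x) (-w) := by
    have h1 : sympl F σ H (x + w) (-x) = -sympl F σ H (-x) (x + w) := sympl_swap hq hH _ _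
    rw [h1, sympl_eq, sympl_eq, sk_neg_left, sk_neg_left, map_neg, map_neg, ← sympl_eq,
      ← sympl_eq, neg_neg]
    have h2 : sympl F σ H x (x + w) = symplB F σ H x (x + w) := rfl
    have h3 : sympl F σ H x (-w) = symplB F σ H x (-w) := rfl
    rw [h2, h3, map_add, map_neg, neg_neg, symplB_apply, sympl_self hq hH, zero_add]
  rw [e1, e2, e3, map_smul, map_smul, smul_eq_mul, smul_eq_mul]
  ring

/-- Schur in the variable `c`. -/
theorem exists_phiI (hW : IsWeil σ H ψ μ ρ ω) (hq : QuadDatum σ δ d) (hH : IsSkew σ H)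
    (hψ : Continuous ψ) (hψ1 : ψ ≠ 1) (η : hDual ρ) (v : S) :
    ∃ z : ℂ, ∀ c, phiI hW hq hH hψ hψ1 η c v = z • c := by
  have hfd := hq.finite
  let T : Module.End ℂ S :=
    { toFun := fun c => phiI hW hq hH hψ hψ1 η c v
      map_add' := fun c c' => phiI_addc hW hq hH hψ hψ1 η c c' v
      map_smul' := fun a c => phiI_smulc hW hq hH hψ hψ1 η a c v }
  obtain ⟨z, hz⟩ := schur hψ hψ1 (symplB_alt hq hH) (symplB_nondeg hq hH) hq.two hW.isHeis
    hW.isIrr (T := T) (by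
      intro x
      ext c
      exact phiI_rhoc hW hq hH hψ hψ1 η x c v)
  refine ⟨z, fun c => ?_⟩
  have := congrArg (fun R : Module.End ℂ S => R c) hz
  exact this

/-- Schur on both sides: `Φ(η, c, v) = κ η(v) c`. -/
theorem exists_phiK (hW : IsWeil σ H ψ μ ρ ω) (hq : QuadDatum σ δ d) (hH : IsSkew σ H)
    (hψ : Continuous ψ) (hψ1 : ψ ≠ 1) :
    ∃ κ : ℂ, ∀ (η : hDual ρ) (c v : S),
      phiI hW hq hH hψ hψ1 η c v = (κ * η.1 v) • c := by
  have hfd := hq.finite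
  have hn := hW.nontrivial
  obtain ⟨c₀, hc₀⟩ := exists_ne (0 : S)
  obtain ⟨l₀, hl₀⟩ : ∃ l : S →ₗ[ℂ] ℂ, l c₀ ≠ 0 := by
    by_contra hcon
    push Not at hcon
    exact hc₀ ((Module.forall_dual_apply_eq_zero_iff ℂ c₀).1 hcon)
  choose s hs using exists_phiI hW hq hH hψ hψ1
  have hs0 : ∀ η v, s η v = (l₀ c₀)⁻¹ * l₀ (phiI hW hq hH hψ hψ1 η c₀ v) := by
    intro η v
    rw [hs, map_smul, smul_eq_mul]
    field_simp
  have hsn : ∀ (x : Fin N → E) (η : hDual ρ) (v : S),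
      s (rhoD hW hq hH hψ x η) v = s η (ρ (-x) v) := by
    intro x η v
    rw [hs0, hs0, phiI_rhov]
  let T : Module.End ℂ (hDual ρ) :=
    { toFun := fun η => ⟨{ toFun := fun v => s η v
                           map_add' := fun v v' => by
                            rw [hs0, hs0, hs0, phiI_addv, map_add, mul_add]
                           map_smul' := fun a v => by
                            rw [hs0, hs0, phiI_smulv, map_smul, smul_eq_mul, smul_eq_mul,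
                              RingHom.id_apply]
                            ring }, by
        show ∀ᶠ w in nhds (0 : Fin N → E), ∀ v, s η (ρ w v) = s η v
        have h2 : Tendsto (fun x : Fin N → E => -x) (nhds 0) (nhds 0) := by
          have := (continuous_neg (G := Fin N → E)).tendsto 0
          rwa [neg_zero] at this
        filter_upwards [h2.eventually (rhoD_smooth hW hq hH hψ η)] with w hw v
        have h3 := hsn (-w) η v
        rw [hw, neg_neg] at h3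
        exact h3.symm⟩
      map_add' := fun η η' => by
        apply hDual_ext
        intro v
        show s (η + η') v = s η v + s η' v
        rw [hs0, hs0, hs0, phiI_addn, map_add, mul_add]
      map_smul' := fun a η => by
        apply hDual_ext
        intro v
        show s (a • η) v = a * s η v
        rw [hs0, hs0, phiI_smuln, map_smul, smul_eq_mul]
        ring }
  have hT : ∀ η v, (T η).1 v = s η v := fun _ _ => rfl
  obtain ⟨z, hz⟩ := schur (continuous_inv_char hψ) (inv_char_ne hψ1) (symplB_alt hq hH)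
    (symplB_nondeg hq hH) hq.two (rhoD_isHeis hW hq hH hψ) (rhoD_isIrr hW hq hH hψ hψ1) (T := T)
    (by
      intro x
      apply LinearMap.ext
      intro η
      apply hDual_ext
      intro v
      show (T (rhoD hW hq hH hψ x η)).1 v = (rhoD hW hq hH hψ x (T η)).1 v
      rw [hT, rhoD_apply, hT, hsn])
  refine ⟨z, fun η c v => ?_⟩
  have h1 : T η = z • η := by
    have := congrArg (fun R : Module.End ℂ (hDual ρ) => R η) hz
    exact this
  have h2 : s η v = z * η.1 v := by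
    rw [← hT, h1]
    rfl
  rw [hs, h2]

theorem phiK_ne (hW : IsWeil σ H ψ μ ρ ω) (hq : QuadDatum σ δ d) (hH : IsSkew σ H)
    (hψ : Continuous ψ) (hψ1 : ψ ≠ 1) {κ : ℂ} (hκ : ∀ (η : hDual ρ) (c v : S),
      phiI hW hq hH hψ hψ1 η c v = (κ * η.1 v) • c) : κ ≠ 0 := by
  rintro rfl
  have hn := hW.nontrivial
  have hn' := hDual_nontrivial hW hq hH hψ hψ1
  obtain ⟨v, hv⟩ := exists_ne (0 : S)
  obtain ⟨ξ, hξ⟩ := exists_ne (0 : hDual ρ)
  set η := ipD ξ hW hq hH hψ hψ1 v with hη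
  have hη0 : η ≠ 0 := by
    intro h
    apply hv
    apply ip_eq_zero ξ hW hq hH hψ hψ1 hξ
    rw [← ipD_apply ξ hW hq hH hψ hψ1, ← hη, h]
    rfl
  have h1 := ip_pos η hW hq hH hψ hψ1 hη0 hv
  have h2 := phiI_dual hW hq hH hψ hψ1 η v v η.1
  rw [hκ, zero_mul, zero_smul, map_zero] at h2
  have h3 : ∫ w : Fin N → E, η.1 (ρ (-w) v) * η.1 (ρ w v) ∂(Measure.addHaar) =
      ((∫ w : Fin N → E, ‖η.1 (ρ w v)‖ ^ 2 ∂(Measure.addHaar) : ℝ) : ℂ) := by
    rw [← integral_complex_ofReal]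
    refine integral_congr_ae (Eventually.of_forall fun w => ?_)
    show η.1 (ρ (-w) v) * η.1 (ρ w v) = ((‖η.1 (ρ w v)‖ ^ 2 : ℝ) : ℂ)
    have h4 : η.1 (ρ (-w) v) = conj (η.1 (ρ w v)) := by
      rw [hη, ipD_apply, ipD_apply, ← ip_conj, ← ip_rho ξ hW w (ρ (-w) v) v]
      have h5 := rneg hW hq hH (-w) v
      rw [neg_neg] at h5
      rw [h5]
    rw [h4, mul_comm, Complex.mul_conj, Complex.normSq_eq_norm_sq]
  rw [h3] at h2
  exact h1.ne (by exact_mod_cast h2)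

/-- Operators of rank one are integrals of `ρ`. -/
theorem exists_opR1 (hW : IsWeil σ H ψ μ ρ ω) (hq : QuadDatum σ δ d) (hH : IsSkew σ H)
    (hψ : Continuous ψ) (hψ1 : ψ ≠ 1) (η : hDual ρ) (c : S) :
    ∃ f : Sch (Fin N → E) ℂ, ∀ (v : S) (ξ : S →ₗ[ℂ] ℂ),
      ∫ w, f.1 w * ξ (ρ w v) ∂(Measure.addHaar) = η.1 v * ξ c := by
  obtain ⟨κ, hκ⟩ := exists_phiK hW hq hH hψ hψ1
  have hk := phiK_ne hW hq hH hψ hψ1 hκ
  refine ⟨κ⁻¹ • ⟨_, cfn_mem hW hq hH hψ hψ1 η c⟩, fun v ξ => ?_⟩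
  have h1 := phiI_dual hW hq hH hψ hψ1 η c v ξ
  rw [hκ, map_smul, smul_eq_mul] at h1
  have h2 : ∫ w : Fin N → E, (κ⁻¹ • (⟨_, cfn_mem hW hq hH hψ hψ1 η c⟩ :
      Sch (Fin N → E) ℂ)).1 w * ξ (ρ w v) ∂(Measure.addHaar) =
      κ⁻¹ * ∫ w : Fin N → E, η.1 (ρ (-w) c) * ξ (ρ w v) ∂(Measure.addHaar) := by
    rw [← integral_const_mul]
    refine integral_congr_ae (Eventually.of_forall fun w => ?_)
    show (κ⁻¹ * η.1 (ρ (-w) c)) * ξ (ρ w v) = _
    rw [mul_assoc]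
  rw [h2, ← h1]
  field_simp

end rank

section beta

variable {F E : Type} [NontriviallyNormedField F] [IsUltrametricDist F] [ProperSpace F]
  [NontriviallyNormedField E] [NormedAlgebra F E] [IsUltrametricDist E]
  [ProperSpace E] [MeasurableSpace E] [BorelSpace E]
  {σ : E ≃ₐ[F] E} {δ : E} {d : F} {m : ℕ} {t : Fin m → Eˣ}
  {ψ : AddChar F Circle} {χμ : Eˣ →* ℂˣ} {S : Type} [AddCommGroup S] [Module ℂ S]
  {ρ : (Fin m → E) → Module.End ℂ S} {ω : unitary σ (Dg t) →* Module.End ℂ S}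

/-- The operator `v ↦ β(v, b) c'` is the integral of `ρ` against a locally constant function with
compact support. -/
theorem exists_opRank (hq : QuadDatum σ δ d) (hψ : Continuous ψ) (hψ1 : ψ ≠ 1) (ht : SkT σ t)
    (hW : IsWeil σ (Dg t) ψ χμ ρ ω) {β : S →ₗ[ℂ] S →ₗ[ℂ] ℂ} (hβ : IsBeta σ t ρ ω β)
    (c' b : S) :
    ∃ f : Sch (Fin m → E) ℂ, ∀ (v : S) (ξ : S →ₗ[ℂ] ℂ),
      ∫ w, f.1 w * ξ (ρ w v) ∂(Measure.addHaar) = β v b * ξ c' :=
  exists_opR1 hW hq ht.isSkew hψ hψ1 ⟨β.flip b, hβ.mem_hDual hq hW b⟩ c'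

end beta

end SpW.Mo
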