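import Pool.Agent.Work.MP_3615d2_al.Mo.SymAe
import Pool.Agent.Work.MP_3615d2_al.Mo.WeilBound

/-!
MP_3615d2_al, multiplicity one (note 6725, G7): the symmetric case.
-/

open MeasureTheory Filter Topology Matrix
open scoped NNReal ENNReal

set_option linter.unusedSectionVars false

namespace SpW.Mo

section sym

variable {F E : Type} [NontriviallyNormedField F] [IsUltrametricDist F] [ProperSpace F]
  [NontriviallyNormedField E] [NormedAlgebra F E] [IsUltrametricDist E] [ProperSpace E]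
  [MeasurableSpace E] [BorelSpace E] {σ : E ≃ₐ[F] E} {δ : E} {d : F} {m : ℕ}
  {t : Fin m → Eˣ} {ψ : AddChar F Circle} {χμ : Eˣ →* ℂˣ} {S : Type} [AddCommGroup S] [Module ℂ S]
  [MeasurableSpace (GL (Fin m) E)] [BorelSpace (GL (Fin m) E)]
  (μ : Measure (GL (Fin m) E)) [μ.IsHaarMeasure]

/-- **G7.** The symmetric case. -/
theorem sym_case (hq : QuadDatum σ δ d) (hψ : Continuous ψ) (hψ1 : ψ ≠ 1)
    (hμ : ConjSymplectic F χμ) (ht : SkT σ t)
    {ρ : (Fin m → E) → Module.End ℂ S} {ω : unitary σ (Dg t) →* Module.End ℂ S}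
    (hW : IsWeil σ (Dg t) ψ χμ ρ ω) {β : S →ₗ[ℂ] S →ₗ[ℂ] ℂ} (hβ : IsBeta σ t ρ ω β)
    (hbd : BetaBd σ t ω β)
    {χ : Eˣ → ℂ} {p r : GL (Fin m) E → S} (hp : IsP σ t ω χ p) (hr : IsP σ t ω χ r)
    (_hm : 0 < m) {ϖ : Eˣ} (_hϖ : ad (scl m ϖ) < 1) (hgood : ∀ᵐ g ∂μ, g ∈ GoodG μ σ t t) :
    ∀ᵐ g ∂μ, ∀ c' b, Dker μ ϖ t β β p r (th t g) c' b = Dker μ ϖ t β β p r g b c' := by
  have hlc : ∀ v, IsLocallyConstant fun w => ρ w v := rv_locConst hW hq hψ
  let OpL : Sch (Fin m → E) ℂ →ₗ[ℂ] Module.End ℂ S :=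
    { toFun := fun f => Op Measure.addHaar hlc f
      map_add' := fun f g => Op_add _ hlc f g
      map_smul' := fun c f => Op_smul _ hlc c f }
  have hOp : IsOp ρ OpL := fun f v ξ => Op_dual _ hlc f v ξ
  have hbdO : OpBd σ t ω β OpL := fun a b R => by
    obtain ⟨C, hC⟩ := hβ.opBd hq hψ hψ1 hμ ht hW hlc a b R
    refine ⟨C, fun f hf u u' => hC f (fun x hx => hf x ?_) u u'⟩
    rwa [Metric.mem_closedBall, dist_zero_right, not_le] at hx
  exact sym_case_of μ hq hψ hψ1 hμ ht hW hβ hbd hOp hbdO hp hr hgood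

end sym

end SpW.Mo
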