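import Pool.Agent.Work.MP_3615d2_al.Mo.SymPt
import Pool.Agent.Work.MP_3615d2_al.Mo.OpRank
import Pool.Agent.Work.MP_3615d2_al.Mo.AeSep

/-!
MP_3615d2_al, multiplicity one (note 6725, G7): the symmetric case, for almost every `g`, given the
bounds of the coefficients.
-/

open MeasureTheory Filter Topology Matrix Polynomial
open scoped NNReal ENNReal

set_option linter.unusedSectionVars false

namespace SpW.Mo

section sym

variable {F E : Type} [NontriviallyNormedField F] [IsUltrametricDist F] [ProperSpace F]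
  [NontriviallyNormedField E] [NormedAlgebra F E] [IsUltrametricDist E] [ProperSpace E]
  [MeasurableSpace E] [BorelSpace E] {σ : E ≃ₐ[F] E} {δ : E} {d : F} {m : ℕ}
  {t : Fin m → Eˣ} {ψ : AddChar F Circle} {χμ : Eˣ →* ℂˣ} {S : Type} [AddCommGroup S] [Module ℂ S]
  {ρ : (Fin m → E) → Module.End ℂ S} {ω : unitary σ (Dg t) →* Module.End ℂ S}
  {β : S →ₗ[ℂ] S →ₗ[ℂ] ℂ}
  [MeasurableSpace (GL (Fin m) E)] [BorelSpace (GL (Fin m) E)]
  (μ : Measure (GL (Fin m) E)) [μ.IsHaarMeasure]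

/-- the symmetric case, given the bounds -/
theorem sym_case_of (hq : QuadDatum σ δ d) (hψ : Continuous ψ) (hψ1 : ψ ≠ 1)
    (hμ : ConjSymplectic F χμ) (ht : SkT σ t) (hW : IsWeil σ (Dg t) ψ χμ ρ ω)
    (hβ : IsBeta σ t ρ ω β) (hbd : BetaBd σ t ω β)
    {Op : Sch (Fin m → E) ℂ →ₗ[ℂ] Module.End ℂ S} (hOp : IsOp ρ Op) (hbdO : OpBd σ t ω β Op)
    {χ : Eˣ → ℂ} {p r : GL (Fin m) E → S} (hp : IsP σ t ω χ p) (hr : IsP σ t ω χ r)
    {ϖ : Eˣ} (hgood : ∀ᵐ g ∂μ, g ∈ GoodG μ σ t t) :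
    ∀ᵐ g ∂μ, ∀ c' b, Dker μ ϖ t β β p r (th t g) c' b = Dker μ ϖ t β β p r g b c' := by
  have hfd := hq.finite
  have hσσ := sig_sig hq
  have hrk : ∀ c b : S, ∃ f : Sch (Fin m → E) ℂ, Op f = ro β c b := by
    intro c b
    obtain ⟨f, hf⟩ := exists_opRank hq hψ hψ1 ht hW hβ c b
    refine ⟨f, ?_⟩
    apply LinearMap.ext
    intro v
    refine dual_ext fun ξ => ?_
    rw [hOp, hf, ro_apply, map_smul, smul_eq_mul]
  have hsep : ∀ᵐ g ∂μ, (xiM σ t t g).charpoly.Separable := ae_sep_dg μ σ t t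
  filter_upwards [hgood, ae_th μ t hgood, hsep, ae_th μ t hsep] with g h1 h2 h3 h4 c b
  by_cases hf : ∃ f : E[X], aeval (xiM σ t t g) f *
      aeval (xiM σ t t g) (f.map (σ : E →+* E)) = xiM σ t t g
  · obtain ⟨f, hf⟩ := hf
    have h5 := sym_pt μ hq ht hW hβ hOp hbdO hrk hp hr ϖ h1 h3 hf c b
    unfold ro at h5
    rwa [Dop_rank_one μ hβ.symm, Dop_rank_one μ hβ.symm] at h5
  · rw [Dker_zero μ hq hψ hψ1 hμ ht ht hW hW hβ hbd hβ hbd hp hr h1 h3 hf,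
      Dker_zero μ hq hψ hψ1 hμ ht ht hW hW hβ hbd hβ hbd hp hr h2 h4 (no_f_th hσσ ht g hf)]

end sym

end SpW.Mo
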