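import Pool.Agent.Work.MP_3615d2_al.SchExt
import Pool.Agent.Work.MP_3615d2_al.GaugeScalar
import Pool.Agent.Work.MP_3615d2_al.Mo.CartVol

/-!
# Functionals invariant under the torus of norm one elements

`L` is a commutative algebra of matrices, stable under the involution `dag`, with a cyclic vector
`e`. A functional on `C_c(E^m)` which is bounded in the `L²` norm on every ball and invariant under
the `τ ∈ L` with `τ dag(τ) = 1` is invariant under `a e ↦ dag(a) e`.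
-/

open MeasureTheory Filter Topology Set Matrix

set_option linter.unusedSectionVars false

namespace SpW.Mo

variable {E : Type} [NontriviallyNormedField E] [IsUltrametricDist E] [ProperSpace E] {m : ℕ}

/-- an involution of the matrices like the adjoint for a form -/
structure IsDag (dag : Matrix (Fin m) (Fin m) E → Matrix (Fin m) (Fin m) E) : Prop where
  mul : ∀ a b, dag (a * b) = dag b * dag a
  inv : ∀ a, dag (dag a) = a
  cont : Continuous dag
  det : ∀ a, ‖(dag a).det‖ = ‖a.det‖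

/-- a commutative algebra of matrices stable under `dag`, with the cyclic vector `e` -/
structure IsCyc (dag : Matrix (Fin m) (Fin m) E → Matrix (Fin m) (Fin m) E)
    (L : Subalgebra E (Matrix (Fin m) (Fin m) E)) (e : Fin m → E) : Prop where
  comm : ∀ a ∈ L, ∀ b ∈ L, a * b = b * a
  stab : ∀ a ∈ L, dag a ∈ L
  inj : ∀ a ∈ L, a.mulVec e = 0 → a = 0
  surj : ∀ w, ∃ a ∈ L, a.mulVec e = w

variable {dag : Matrix (Fin m) (Fin m) E → Matrix (Fin m) (Fin m) E}
  {L : Subalgebra E (Matrix (Fin m) (Fin m) E)} {e : Fin m → E}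

omit [IsUltrametricDist E] [ProperSpace E] in
theorem IsDag.one [IsUltrametricDist E] (hd : IsDag dag) : dag 1 = 1 := by
  have h1 := hd.mul 1 (dag 1)
  rw [one_mul, hd.inv, one_mul] at h1
  exact h1.symm

/-- the matrices of `L` and the vectors -/
noncomputable def cyE (h : IsCyc dag L e) : L ≃ₗ[E] (Fin m → E) :=
  LinearEquiv.ofBijective
    { toFun := fun a : L => a.1.mulVec e
      map_add' := fun a b => by
        show (a.1 + b.1).mulVec e = _
        rw [Matrix.add_mulVec]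
      map_smul' := fun c a => by
        show (c • a.1).mulVec e = _
        rw [Matrix.smul_mulVec]
        rfl }
    ⟨by
      rw [injective_iff_map_eq_zero]
      intro a ha
      exact Subtype.ext (h.inj a.1 a.2 ha), fun w => by
      obtain ⟨a, ha, h1⟩ := h.surj w
      exact ⟨⟨a, ha⟩, h1⟩⟩

/-- the matrix of `L` with `MM w e = w` -/
noncomputable def MM (h : IsCyc dag L e) : (Fin m → E) →ₗ[E] Matrix (Fin m) (Fin m) E :=
  (Subalgebra.toSubmodule L).subtype ∘ₗ (cyE h).symm.toLinearMap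

theorem MM_mem (h : IsCyc dag L e) (w : Fin m → E) : MM h w ∈ L := ((cyE h).symm w).2

theorem MM_e (h : IsCyc dag L e) (w : Fin m → E) : (MM h w).mulVec e = w :=
  (cyE h).apply_symm_apply w

theorem MM_of (h : IsCyc dag L e) {a : Matrix (Fin m) (Fin m) E} (ha : a ∈ L) :
    MM h (a.mulVec e) = a := by
  have h1 : (MM h (a.mulVec e) - a).mulVec e = 0 := by
    rw [Matrix.sub_mulVec, MM_e, sub_self]
  exact sub_eq_zero.1 (h.inj _ (sub_mem (MM_mem h _) ha) h1)

theorem MM_mul (h : IsCyc dag L e) {a : Matrix (Fin m) (Fin m) E} (ha : a ∈ L) (w : Fin m → E) :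
    MM h (a.mulVec w) = a * MM h w := by
  have h1 : a.mulVec w = (a * MM h w).mulVec e := by
    rw [← Matrix.mulVec_mulVec, MM_e]
  rw [h1, MM_of h (mul_mem ha (MM_mem h w))]

theorem continuous_MM (h : IsCyc dag L e) : Continuous (MM h) :=
  LinearMap.continuous_of_finiteDimensional _

/-- the conjugation `a e ↦ dag(a) e` -/
noncomputable def dl (h : IsCyc dag L e) (w : Fin m → E) : Fin m → E := (dag (MM h w)).mulVec e

theorem MM_dl (h : IsCyc dag L e) (w : Fin m → E) : MM h (dl h w) = dag (MM h w) :=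
  MM_of h (h.stab _ (MM_mem h w))

theorem dl_dl (hd : IsDag dag) (h : IsCyc dag L e) (w : Fin m → E) : dl h (dl h w) = w := by
  rw [dl, MM_dl, hd.inv, MM_e]

theorem continuous_dl (hd : IsDag dag) (h : IsCyc dag L e) : Continuous (dl h) := by
  have h1 : Continuous fun w => dag (MM h w) := hd.cont.comp (continuous_MM h)
  exact Continuous.matrix_mulVec h1 continuous_const

/-- the conjugation as a homeomorphism -/
noncomputable def dlH (hd : IsDag dag) (h : IsCyc dag L e) : (Fin m → E) ≃ₜ (Fin m → E) where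
  toFun := dl h
  invFun := dl h
  left_inv := dl_dl hd h
  right_inv := dl_dl hd h
  continuous_toFun := continuous_dl hd h
  continuous_invFun := continuous_dl hd h

/-- the vectors whose matrix has a determinant of absolute value at least `r` -/
def Zr (h : IsCyc dag L e) (r : ℝ) : Set (Fin m → E) := {w | r ≤ ‖(MM h w).det‖}

theorem continuous_detMM (h : IsCyc dag L e) : Continuous fun w => (MM h w).det :=
  (continuous_MM h).matrix_det

theorem Zr_isClopen (h : IsCyc dag L e) (r : ℝ) : IsClopen (Zr h r) := by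
  have h1 : Zr h r = ((fun w => (MM h w).det) ⁻¹' Metric.ball (0 : E) r)ᶜ := by
    ext w
    simp [Zr]
  rw [h1]
  exact ((IsUltrametricDist.isClopen_ball (0 : E) r).preimage (continuous_detMM h)).compl

theorem isUnit_MM (h : IsCyc dag L e) {r : ℝ} (hr : 0 < r) {w : Fin m → E} (hw : w ∈ Zr h r) :
    IsUnit (MM h w).det := by
  rw [isUnit_iff_ne_zero]
  intro h0
  have h1 : r ≤ ‖(MM h w).det‖ := hw
  rw [h0, norm_zero] at h1
  linarith

theorem inv_mem_L (h : IsCyc dag L e) {a : Matrix (Fin m) (Fin m) E} (ha : a ∈ L)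
    (hu : IsUnit a.det) : a⁻¹ ∈ L := by
  have h1 : a * MM h (a⁻¹.mulVec e) = 1 := by
    rw [← MM_mul h ha, Matrix.mulVec_mulVec, Matrix.mul_nonsing_inv a hu]
    exact MM_of h (one_mem L)
  have h2 : a⁻¹ = MM h (a⁻¹.mulVec e) := by
    calc a⁻¹ = a⁻¹ * (a * MM h (a⁻¹.mulVec e)) := by rw [h1, mul_one]
      _ = MM h (a⁻¹.mulVec e) := by rw [← mul_assoc, Matrix.nonsing_inv_mul a hu, one_mul]
  rw [h2]
  exact MM_mem h _

/-- the small matrices of `L` -/
def Gm (dag : Matrix (Fin m) (Fin m) E → Matrix (Fin m) (Fin m) E)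
    (L : Subalgebra E (Matrix (Fin m) (Fin m) E)) (ε : ℝ) (h0 : 0 ≤ ε) (h1 : ε ≤ 1) :
    Set (Matrix (Fin m) (Fin m) E) :=
  {a | a ∈ L ∧ (∃ g ∈ glK (Fin m) E ε h0 h1, (g : Matrix (Fin m) (Fin m) E) = a) ∧
    ∃ g ∈ glK (Fin m) E ε h0 h1, (g : Matrix (Fin m) (Fin m) E) = dag a}

variable {ε : ℝ} {h0 : 0 ≤ ε} {h1 : ε ≤ 1}

theorem Gm_one (hd : IsDag dag) : (1 : Matrix (Fin m) (Fin m) E) ∈ Gm dag L ε h0 h1 :=
  ⟨one_mem L, ⟨1, one_mem _, rfl⟩, ⟨1, one_mem _, by rw [hd.one]; rfl⟩⟩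

theorem Gm_mul (hd : IsDag dag) {a b : Matrix (Fin m) (Fin m) E} (ha : a ∈ Gm dag L ε h0 h1)
    (hb : b ∈ Gm dag L ε h0 h1) : a * b ∈ Gm dag L ε h0 h1 := by
  obtain ⟨ha, ⟨g, hg, rfl⟩, g', hg', hga⟩ := ha
  obtain ⟨hb, ⟨k, hk, rfl⟩, k', hk', hkb⟩ := hb
  exact ⟨mul_mem ha hb, ⟨g * k, mul_mem hg hk, rfl⟩,
    ⟨k' * g', mul_mem hk' hg', by rw [hd.mul, ← hga, ← hkb]; rfl⟩⟩

theorem Gm_dag (hd : IsDag dag) (h : IsCyc dag L e) {a : Matrix (Fin m) (Fin m) E}
    (ha : a ∈ Gm dag L ε h0 h1) : dag a ∈ Gm dag L ε h0 h1 := by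
  obtain ⟨ha, ⟨g, hg, hga⟩, g', hg', hga'⟩ := ha
  exact ⟨h.stab _ ha, ⟨g', hg', hga'⟩, ⟨g, hg, by rw [hd.inv, hga]⟩⟩

theorem Gm_inv (hd : IsDag dag) (h : IsCyc dag L e) {a : Matrix (Fin m) (Fin m) E}
    (ha : a ∈ Gm dag L ε h0 h1) : ∃ b ∈ Gm dag L ε h0 h1, a * b = 1 ∧ b * a = 1 := by
  obtain ⟨haL, ⟨g, hg, rfl⟩, g', hg', hga'⟩ := ha
  have e1 : (g : Matrix (Fin m) (Fin m) E) * ((g⁻¹ : GL (Fin m) E) : Matrix (Fin m) (Fin m) E) =
      1 := by rw [← Units.val_mul, mul_inv_cancel, Units.val_one]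
  have e2 : ((g⁻¹ : GL (Fin m) E) : Matrix (Fin m) (Fin m) E) * (g : Matrix (Fin m) (Fin m) E) =
      1 := by rw [← Units.val_mul, inv_mul_cancel, Units.val_one]
  have hL : ((g⁻¹ : GL (Fin m) E) : Matrix (Fin m) (Fin m) E) ∈ L := by
    have h2 : g.1 * MM h ((g⁻¹ : GL (Fin m) E).1.mulVec e) = 1 := by
      rw [← MM_mul h haL, Matrix.mulVec_mulVec, e1]
      exact MM_of h (one_mem L)
    have h3 : (g⁻¹ : GL (Fin m) E).1 = MM h ((g⁻¹ : GL (Fin m) E).1.mulVec e) := by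
      calc (g⁻¹ : GL (Fin m) E).1 = (g⁻¹ : GL (Fin m) E).1 *
            (g.1 * MM h ((g⁻¹ : GL (Fin m) E).1.mulVec e)) := by rw [h2, mul_one]
        _ = MM h ((g⁻¹ : GL (Fin m) E).1.mulVec e) := by rw [← mul_assoc, e2, one_mul]
    rw [h3]
    exact MM_mem h _
  refine ⟨_, ⟨hL, ⟨g⁻¹, inv_mem hg, rfl⟩, ⟨g'⁻¹, inv_mem hg', ?_⟩⟩, e1, e2⟩
  have h4 : dag ((g⁻¹ : GL (Fin m) E) : Matrix (Fin m) (Fin m) E) * (g' : Matrix _ _ E) = 1 := by
    rw [hga', ← hd.mul, e1, hd.one]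
  have h5 : (g' : Matrix (Fin m) (Fin m) E) * ((g'⁻¹ : GL (Fin m) E) : Matrix (Fin m) (Fin m) E) =
      1 := by rw [← Units.val_mul, mul_inv_cancel, Units.val_one]
  calc ((g'⁻¹ : GL (Fin m) E) : Matrix (Fin m) (Fin m) E) =
        (dag ((g⁻¹ : GL (Fin m) E) : Matrix (Fin m) (Fin m) E) * (g' : Matrix _ _ E)) *
          ((g'⁻¹ : GL (Fin m) E) : Matrix (Fin m) (Fin m) E) := by rw [h4, one_mul]
    _ = dag ((g⁻¹ : GL (Fin m) E) : Matrix (Fin m) (Fin m) E) := by rw [mul_assoc, h5, mul_one]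

/-- the orbit of a vector -/
def orb (dag : Matrix (Fin m) (Fin m) E → Matrix (Fin m) (Fin m) E)
    (L : Subalgebra E (Matrix (Fin m) (Fin m) E)) (ε : ℝ) (h0 : 0 ≤ ε) (h1 : ε ≤ 1)
    (w : Fin m → E) : Set (Fin m → E) := {w' | ∃ a ∈ Gm dag L ε h0 h1, a.mulVec w = w'}

theorem mem_orb_self (hd : IsDag dag) (w : Fin m → E) : w ∈ orb dag L ε h0 h1 w :=
  ⟨1, Gm_one hd, Matrix.one_mulVec w⟩

theorem orb_eq (hd : IsDag dag) (h : IsCyc dag L e) {w w' : Fin m → E}
    (hw : w' ∈ orb dag L ε h0 h1 w) : orb dag L ε h0 h1 w' = orb dag L ε h0 h1 w := by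
  obtain ⟨a, ha, rfl⟩ := hw
  obtain ⟨b, hb, e1, e2⟩ := Gm_inv hd h ha
  ext x
  constructor
  · rintro ⟨c, hc, rfl⟩
    exact ⟨c * a, Gm_mul hd hc ha, by rw [Matrix.mulVec_mulVec]⟩
  · rintro ⟨c, hc, rfl⟩
    refine ⟨c * b, Gm_mul hd hc hb, ?_⟩
    rw [Matrix.mulVec_mulVec, mul_assoc, e2, mul_one]

theorem det_of_Gm {a : Matrix (Fin m) (Fin m) E} (ha : a ∈ Gm dag L ε h0 h1) : ‖a.det‖ = 1 := by
  obtain ⟨-, ⟨g, hg, rfl⟩, -⟩ := ha
  exact norm_det_of_glK hg

theorem Zr_stable (h : IsCyc dag L e) {a : Matrix (Fin m) (Fin m) E}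
    (ha : a ∈ Gm dag L ε h0 h1) {r : ℝ} {w : Fin m → E} :
    a.mulVec w ∈ Zr h r ↔ w ∈ Zr h r := by
  show r ≤ ‖(MM h (a.mulVec w)).det‖ ↔ r ≤ ‖(MM h w).det‖
  rw [MM_mul h ha.1, Matrix.det_mul, norm_mul, det_of_Gm ha, one_mul]

/-- the vectors near a regular vector are in its orbit -/
theorem orb_nhds (hd : IsDag dag) (h : IsCyc dag L e) (hε : 0 < ε) (hε1 : ε < 1) {r : ℝ}
    (hr : 0 < r) {w : Fin m → E} (hw : w ∈ Zr h r) : orb dag L ε h0 h1 w ∈ 𝓝 w := by
  have hu := isUnit_MM h hr hw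
  have hc : Continuous fun w' => MM h w' * (MM h w)⁻¹ :=
    (continuous_MM h).matrix_mul continuous_const
  have hc' : Continuous fun w' => dag (MM h w' * (MM h w)⁻¹) := hd.cont.comp hc
  have h2 : MM h w * (MM h w)⁻¹ = 1 := Matrix.mul_nonsing_inv _ hu
  have key : ∀ (A : (Fin m → E) → Matrix (Fin m) (Fin m) E), Continuous A → A w = 1 →
      ∀ᶠ w' in 𝓝 w, ∀ i j, ‖(A w' - 1) i j‖ ≤ ε := by
    intro A hA hA1
    refine Filter.eventually_all.2 fun i => Filter.eventually_all.2 fun j => ?_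
    have h3 : Continuous fun w' => ‖(A w' - 1) i j‖ :=
      ((hA.sub continuous_const).matrix_elem i j).norm
    have h4 : ‖(A w - 1) i j‖ < ε := by rw [hA1]; simpa using hε
    filter_upwards [h3.continuousAt.eventually_lt continuousAt_const h4] with w' hw'
    exact hw'.le
  have k1 := key _ hc h2
  have k2 := key _ hc' (by show dag (MM h w * (MM h w)⁻¹) = 1; rw [h2, hd.one])
  filter_upwards [k1, k2] with w' h3 h4
  obtain ⟨g, hg, hg'⟩ := exists_glK_of_small h0 hε1 h3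
  obtain ⟨k, hk, hk'⟩ := exists_glK_of_small h0 hε1 h4
  refine ⟨MM h w' * (MM h w)⁻¹, ⟨mul_mem (MM_mem h _) (inv_mem_L h (MM_mem h _) hu),
    ⟨g, hg, by rw [hg']; abel⟩, ⟨k, hk, by rw [hk']; abel⟩⟩, ?_⟩
  have h5 : MM h w' * (MM h w)⁻¹ * MM h w = MM h w' := by
    rw [mul_assoc, Matrix.nonsing_inv_mul _ hu, mul_one]
  calc (MM h w' * (MM h w)⁻¹).mulVec w = (MM h w' * (MM h w)⁻¹).mulVec ((MM h w).mulVec e) := by
        rw [MM_e]
    _ = w' := by rw [Matrix.mulVec_mulVec, h5, MM_e]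

/-- the partition by the orbits -/
noncomputable def ptn (h : IsCyc dag L e) (ε : ℝ) (h0 : 0 ≤ ε) (h1 : ε ≤ 1) (r : ℝ)
    (w : Fin m → E) : Set (Fin m → E) := by
  classical
  exact if w ∈ Zr h r then orb dag L ε h0 h1 w else ∅

theorem ptn_lc (hd : IsDag dag) (h : IsCyc dag L e) (hε : 0 < ε) (hε1 : ε < 1) {r : ℝ}
    (hr : 0 < r) : IsLocallyConstant (ptn h ε h0 h1 r) := by
  classical
  rw [IsLocallyConstant.iff_eventually_eq]
  intro w
  by_cases hw : w ∈ Zr h r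
  · filter_upwards [orb_nhds (h0 := h0) (h1 := h1) hd h hε hε1 hr hw,
      (Zr_isClopen h r).isOpen.mem_nhds hw] with w' hw' hw''
    rw [ptn, ptn, if_pos hw, if_pos hw'', orb_eq hd h hw']
  · filter_upwards [(Zr_isClopen h r).compl.isOpen.mem_nhds hw] with w' hw'
    rw [ptn, ptn, if_neg hw, if_neg hw']

/-- the conjugate of an orbit is the image of the orbit under an element of norm one -/
theorem dl_mem_orb (hd : IsDag dag) (h : IsCyc dag L e) {w₁ : Fin m → E}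
    (hu : IsUnit (MM h w₁).det) (hu' : IsUnit (dag (MM h w₁)).det) (w : Fin m → E) :
    dl h w ∈ orb dag L ε h0 h1 w₁ ↔
      (MM h w₁ * (dag (MM h w₁))⁻¹).mulVec w ∈ orb dag L ε h0 h1 w₁ := by
  have key : ∀ x : Fin m → E, x ∈ orb dag L ε h0 h1 w₁ ↔
      ∃ a ∈ Gm dag L ε h0 h1, MM h x = a * MM h w₁ := by
    intro x
    constructor
    · rintro ⟨a, ha, rfl⟩
      exact ⟨a, ha, MM_mul h ha.1 w₁⟩
    · rintro ⟨a, ha, hx⟩
      refine ⟨a, ha, ?_⟩
      calc a.mulVec w₁ = a.mulVec ((MM h w₁).mulVec e) := by rw [MM_e]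
        _ = x := by rw [Matrix.mulVec_mulVec, ← hx, MM_e]
  have hτ : MM h w₁ * (dag (MM h w₁))⁻¹ ∈ L :=
    mul_mem (MM_mem h _) (inv_mem_L h (h.stab _ (MM_mem h _)) hu')
  rw [key, key, MM_dl, MM_mul h hτ]
  have c1 : (dag (MM h w₁))⁻¹ * dag (MM h w₁) = 1 := Matrix.nonsing_inv_mul _ hu'
  have c2 : (MM h w₁)⁻¹ * MM h w₁ = 1 := Matrix.nonsing_inv_mul _ hu
  have c2' : MM h w₁ * (MM h w₁)⁻¹ = 1 := Matrix.mul_nonsing_inv _ hu
  constructor
  · rintro ⟨a, ha, hx⟩
    refine ⟨dag a, Gm_dag hd h ha, ?_⟩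
    have h2 : MM h w = dag (MM h w₁) * dag a := by rw [← hd.mul, ← hx, hd.inv]
    rw [h2, h.comm _ (h.stab _ ha.1) _ (MM_mem h w₁)]
    calc MM h w₁ * (dag (MM h w₁))⁻¹ * (dag (MM h w₁) * dag a) =
          MM h w₁ * ((dag (MM h w₁))⁻¹ * dag (MM h w₁)) * dag a := by simp only [mul_assoc]
      _ = MM h w₁ * dag a := by rw [c1, mul_one]
  · rintro ⟨a, ha, hx⟩
    refine ⟨dag a, Gm_dag hd h ha, ?_⟩
    have h2 : MM h w = dag (MM h w₁) * a := by
      have h3 : (dag (MM h w₁))⁻¹ * MM h w = a := by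
        have h4 : MM h w₁ * ((dag (MM h w₁))⁻¹ * MM h w) = MM h w₁ * a := by
          rw [← mul_assoc, hx, h.comm _ ha.1 _ (MM_mem h w₁)]
        calc (dag (MM h w₁))⁻¹ * MM h w =
              (MM h w₁)⁻¹ * (MM h w₁ * ((dag (MM h w₁))⁻¹ * MM h w)) := by
                rw [← mul_assoc (MM h w₁)⁻¹, c2, one_mul]
          _ = a := by rw [h4, ← mul_assoc, c2, one_mul]
      rw [← h3, ← mul_assoc, Matrix.mul_nonsing_inv _ hu', one_mul]
    rw [h2, hd.mul, hd.inv]

theorem tau_norm (hd : IsDag dag) (h : IsCyc dag L e) {a : Matrix (Fin m) (Fin m) E} (ha : a ∈ L)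
    (hu : IsUnit a.det) (hu' : IsUnit (dag a).det) :
    (a * (dag a)⁻¹) * dag (a * (dag a)⁻¹) = 1 := by
  have h3 : dag ((dag a)⁻¹) * a = 1 := by
    have h4 : dag (dag a * (dag a)⁻¹) = dag ((dag a)⁻¹) * a := by rw [hd.mul, hd.inv]
    rw [← h4, Matrix.mul_nonsing_inv _ hu', hd.one]
  have h5 : dag ((dag a)⁻¹) = a⁻¹ := by
    calc dag ((dag a)⁻¹) = dag ((dag a)⁻¹) * (a * a⁻¹) := by
          rw [Matrix.mul_nonsing_inv _ hu, mul_one]
      _ = a⁻¹ := by rw [← mul_assoc, h3, one_mul]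
  rw [hd.mul, h5]
  calc a * (dag a)⁻¹ * (a⁻¹ * dag a) = a * ((dag a)⁻¹ * a⁻¹) * dag a := by
        simp only [mul_assoc]
    _ = a * (a⁻¹ * (dag a)⁻¹) * dag a := by
        rw [h.comm _ (inv_mem_L h (h.stab _ ha) hu') _ (inv_mem_L h ha hu)]
    _ = (a * a⁻¹) * ((dag a)⁻¹ * dag a) := by simp only [mul_assoc]
    _ = 1 := by rw [Matrix.mul_nonsing_inv _ hu, Matrix.nonsing_inv_mul _ hu', one_mul]

/-! ### The functional -/

/-- composition with the conjugation -/
noncomputable def dlS (hd : IsDag dag) (h : IsCyc dag L e) :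
    Sch (Fin m → E) ℂ →ₗ[ℂ] Sch (Fin m → E) ℂ where
  toFun f := ⟨f.1 ∘ dlH hd h, sch_comp f.2 _⟩
  map_add' f g := rfl
  map_smul' c f := rfl

theorem dlS_apply (hd : IsDag dag) (h : IsCyc dag L e) (f : Sch (Fin m → E) ℂ) (w : Fin m → E) :
    (dlS hd h f).1 w = f.1 (dl h w) := rfl

theorem norm_mulVec_sub_le {ε : ℝ} (h0 : 0 ≤ ε) {a : Matrix (Fin m) (Fin m) E}
    (ha : ∀ i j, ‖(a - 1) i j‖ ≤ ε) (w : Fin m → E) : ‖a.mulVec w - w‖ ≤ ε * ‖w‖ := by
  have h2 : a.mulVec w - w = (a - 1).mulVec w := by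
    rw [Matrix.sub_mulVec, Matrix.one_mulVec]
  rw [h2, pi_norm_le_iff_of_nonneg (mul_nonneg h0 (norm_nonneg _))]
  intro i
  show ‖∑ j, (a - 1) i j * w j‖ ≤ _
  refine IsUltrametricDist.norm_sum_le_of_forall_le_of_nonneg
    (mul_nonneg h0 (norm_nonneg _)) fun j _ => ?_
  rw [norm_mul]
  exact mul_le_mul (ha i j) (norm_le_pi_norm w j) (norm_nonneg _) h0

/-- a compact open set is stable under small matrices -/
theorem exists_stable {Q : Set (Fin m → E)} (hQ : IsClopen Q) (hK : IsCompact Q) :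
    ∃ (ε : ℝ) (_ : 0 < ε) (_ : ε < 1), ∀ a : Matrix (Fin m) (Fin m) E,
      (∀ i j, ‖(a - 1) i j‖ ≤ ε) → ∀ w ∈ Q, a.mulVec w ∈ Q := by
  obtain ⟨δ, hδ, h2⟩ := hK.exists_thickening_subset_open hQ.isOpen (subset_refl Q)
  obtain ⟨R, hR⟩ := hK.isBounded.exists_norm_le
  have hR0 : 0 < max R 0 + 1 := by positivity
  refine ⟨min (1 / 2) (δ / (2 * (max R 0 + 1))), by positivity,
    lt_of_le_of_lt (min_le_left _ _) (by norm_num), fun a ha w hw => h2 ?_⟩
  rw [Metric.mem_thickening_iff]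
  refine ⟨w, hw, ?_⟩
  rw [dist_eq_norm]
  have h3 := norm_mulVec_sub_le (le_min (by norm_num) (by positivity)) ha w
  have h4 : ‖w‖ ≤ max R 0 + 1 := ((hR w hw).trans (le_max_left _ _)).trans (by linarith)
  have h5 : min (1 / 2) (δ / (2 * (max R 0 + 1))) * ‖w‖ ≤
      δ / (2 * (max R 0 + 1)) * (max R 0 + 1) :=
    mul_le_mul (min_le_right _ _) h4 (norm_nonneg _) (by positivity)
  have h6 : δ / (2 * (max R 0 + 1)) * (max R 0 + 1) = δ / 2 := by
    field_simp
  linarith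

/-- the invariance for functions supported on regular vectors, at the level of sets -/
theorem ind_mem_ker (hd : IsDag dag) (h : IsCyc dag L e) (Λ : Sch (Fin m → E) ℂ →ₗ[ℂ] ℂ)
    (hT : ∀ τ ∈ L, τ * dag τ = 1 → ∀ f f' : Sch (Fin m → E) ℂ,
      (∀ w, f'.1 w = f.1 (τ.mulVec w)) → Λ f' = Λ f)
    {r : ℝ} (hr : 0 < r) {Q : Set (Fin m → E)} (hQ : IsClopen Q) (hK : IsCompact Q)
    (hQr : Q ⊆ Zr h r) (v : ℂ) : ind Q hQ hK v ∈ LinearMap.ker (Λ ∘ₗ dlS hd h - Λ) := by
  classical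
  obtain ⟨ε, hε, hε1, hst⟩ := exists_stable hQ hK
  refine mem_of_cut_fibre (ptn h ε hε.le hε1.le r) (ptn_lc hd h hε hε1 hr) _ _ fun i => ?_
  by_cases hi : ∃ w₁ ∈ Q, ptn h ε hε.le hε1.le r w₁ = i
  · obtain ⟨w₁, hw₁, hi⟩ := hi
    have hw₁r := hQr hw₁
    have hu := isUnit_MM h hr hw₁r
    have hu' : IsUnit (dag (MM h w₁)).det := by
      rw [isUnit_iff_ne_zero, ← norm_ne_zero_iff, hd.det, norm_ne_zero_iff]
      exact hu.ne_zero
    have hi' : orb dag L ε hε.le hε1.le w₁ = i := by rw [← hi, ptn, if_pos hw₁r]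
    have hval : ∀ x, (cut (ptn h ε hε.le hε1.le r ⁻¹' {i})
        ((ptn_lc hd h hε hε1 hr).isClopen_fiber i) (ind Q hQ hK v)).1 x =
        if x ∈ orb dag L ε hε.le hε1.le w₁ then v else 0 := by
      intro x
      by_cases hx : x ∈ orb dag L ε hε.le hε1.le w₁
      · rw [if_pos hx]
        obtain ⟨a, ha, hax⟩ := id hx
        have hxQ : x ∈ Q := by
          rw [← hax]
          obtain ⟨-, ⟨g, hg, hga⟩, -⟩ := ha
          exact hst a (by rw [← hga]; exact hg.1) w₁ hw₁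
        have hxi : x ∈ ptn h ε hε.le hε1.le r ⁻¹' {i} := by
          show ptn h ε hε.le hε1.le r x = i
          rw [ptn, if_pos (hQr hxQ), orb_eq hd h hx, hi']
        exact (cut_mem _ _ hxi).trans (ind_mem hQ hK v hxQ)
      · rw [if_neg hx]
        refine cut_notMem _ _ fun hxi => hx ?_
        have h3 : ptn h ε hε.le hε1.le r x = i := hxi
        by_cases hxr : x ∈ Zr h r
        · rw [ptn, if_pos hxr, ← hi'] at h3
          rw [← h3]
          exact mem_orb_self hd x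
        · rw [ptn, if_neg hxr, ← hi'] at h3
          have h4 := mem_orb_self (L := L) (h0 := hε.le) (h1 := hε1.le) hd w₁
          rw [← h3] at h4
          exact absurd h4 (Set.notMem_empty _)
    rw [LinearMap.mem_ker, LinearMap.sub_apply, LinearMap.comp_apply, sub_eq_zero]
    have hτL : MM h w₁ * (dag (MM h w₁))⁻¹ ∈ L :=
      mul_mem (MM_mem h _) (inv_mem_L h (h.stab _ (MM_mem h _)) hu')
    refine hT _ hτL (tau_norm hd h (MM_mem h _) hu hu') _ _ fun w => ?_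
    rw [dlS_apply, hval, hval, if_congr (dl_mem_orb hd h hu hu' w) rfl rfl]
  · have h3 : cut (ptn h ε hε.le hε1.le r ⁻¹' {i})
        ((ptn_lc hd h hε hε1 hr).isClopen_fiber i) (ind Q hQ hK v) = 0 := by
      apply Sch.ext'
      intro x
      by_cases hxi : x ∈ ptn h ε hε.le hε1.le r ⁻¹' {i}
      · rw [cut_mem _ _ hxi]
        exact ind_notMem hQ hK v fun hxQ => hi ⟨x, hxQ, hxi⟩
      · rw [cut_notMem _ _ hxi]
        rfl
    rw [h3]
    exact zero_mem _

theorem cut_mem_ker (hd : IsDag dag) (h : IsCyc dag L e) (Λ : Sch (Fin m → E) ℂ →ₗ[ℂ] ℂ)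
    (hT : ∀ τ ∈ L, τ * dag τ = 1 → ∀ f f' : Sch (Fin m → E) ℂ,
      (∀ w, f'.1 w = f.1 (τ.mulVec w)) → Λ f' = Λ f)
    {r : ℝ} (hr : 0 < r) (f : Sch (Fin m → E) ℂ) :
    cut (Zr h r) (Zr_isClopen h r) f ∈ LinearMap.ker (Λ ∘ₗ dlS hd h - Λ) := by
  refine Sch.mem_of_ind _ _ fun Q hQ hK v hv hv0 => ?_
  refine ind_mem_ker hd h Λ hT hr hQ hK (fun x hx => ?_) v
  by_contra hxr
  have h3 := hv x hx
  rw [cut_notMem _ _ hxr] at h3
  exact hv0 h3.symm

section meas

variable [MeasurableSpace E] [BorelSpace E]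

theorem ae_det (h : IsCyc dag L e) :
    ∀ᵐ w ∂(Measure.addHaar : Measure (Fin m → E)), (MM h w).det ≠ 0 := by
  classical
  haveI : SecondCountableTopology E := secondCountable_of_proper
  set μ : Measure (Fin m → E) := Measure.addHaar with hμ
  set lam : Measure E := Measure.addHaar with hlam
  set S : Set (Fin m → E) := {w | (MM h w).det = 0} with hS
  have hSc : IsClosed S := isClosed_eq (continuous_detMM h) continuous_const
  have hc : Continuous fun z : (Fin m → E) × E => z.1 + z.2 • e :=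
    continuous_fst.add (continuous_snd.smul continuous_const)
  have hP : MeasurableSet ((fun z : (Fin m → E) × E => z.1 + z.2 • e) ⁻¹' S) :=
    (hSc.preimage hc).measurableSet
  have h2 : (μ.prod lam) ((fun z : (Fin m → E) × E => z.1 + z.2 • e) ⁻¹' S) = 0 := by
    rw [Measure.measure_prod_null hP]
    refine Filter.Eventually.of_forall fun w => ?_
    show lam _ = 0
    refine Set.Finite.measure_zero ?_ _
    have h3 : (Prod.mk w ⁻¹' ((fun z : (Fin m → E) × E => z.1 + z.2 • e) ⁻¹' S)) ⊆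
        ((-MM h w).charpoly.roots.toFinset : Set E) := by
      intro t ht
      have h4 : (MM h (w + t • e)).det = 0 := ht
      have h5 : MM h e = 1 := by
        have := MM_of h (one_mem L)
        rwa [Matrix.one_mulVec] at this
      rw [map_add, map_smul, h5] at h4
      rw [Finset.mem_coe, Multiset.mem_toFinset, Polynomial.mem_roots
        (Matrix.charpoly_monic _).ne_zero, Polynomial.IsRoot, Matrix.eval_charpoly]
      rw [← h4]
      congr 1
      rw [sub_neg_eq_add, add_comm]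
      congr 1
      ext i j
      simp [Matrix.scalar_apply, Matrix.diagonal_apply, Matrix.one_apply]
    exact (Finset.finite_toSet _).subset h3
  rw [Measure.prod_apply_symm hP] at h2
  have h3 : ∀ t : E, μ ((fun w => (w, t)) ⁻¹' ((fun z : (Fin m → E) × E => z.1 + z.2 • e) ⁻¹' S)) =
      μ S := by
    intro t
    have h4 : (fun w => (w, t)) ⁻¹' ((fun z : (Fin m → E) × E => z.1 + z.2 • e) ⁻¹' S) =
        (fun w => w + t • e) ⁻¹' S := rfl
    rw [h4, measure_preimage_add_right]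
  simp_rw [h3] at h2
  rw [lintegral_const] at h2
  have h4 : lam univ ≠ 0 := by
    rw [Measure.measure_univ_ne_zero]
    exact NeZero.ne lam
  have h5 : μ S = 0 := (mul_eq_zero.1 h2).resolve_right h4
  rw [ae_iff]
  have h6 : {w : Fin m → E | ¬ (MM h w).det ≠ 0} = S := by
    ext w
    simp [hS]
  rw [h6]
  exact h5

/-- **A functional on `C_c(E^m)` bounded in the `L²` norm on every ball and invariant under the
elements of norm one of `L` is invariant under the conjugation.** -/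
theorem bar_invariant (hd : IsDag dag) (h : IsCyc dag L e) (Λ : Sch (Fin m → E) ℂ →ₗ[ℂ] ℂ)
    (hT : ∀ τ ∈ L, τ * dag τ = 1 → ∀ f f' : Sch (Fin m → E) ℂ,
      (∀ w, f'.1 w = f.1 (τ.mulVec w)) → Λ f' = Λ f)
    (hB : ∀ R : ℝ, ∃ C : ℝ, ∀ f : Sch (Fin m → E) ℂ, (∀ w, R < ‖w‖ → f.1 w = 0) →
      ‖Λ f‖ ≤ C * Real.sqrt (∫ w, ‖f.1 w‖ ^ 2 ∂(Measure.addHaar : Measure (Fin m → E))))
    (f : Sch (Fin m → E) ℂ) : Λ (dlS hd h f) = Λ f := by
  classical
  haveI : SecondCountableTopology E := secondCountable_of_proper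
  -- the parts supported near the singular vectors
  set g : ℕ → Sch (Fin m → E) ℂ := fun n =>
    f - cut (Zr h (1 / ((n : ℝ) + 1))) (Zr_isClopen h _) f with hg
  have hgv : ∀ n w, (g n).1 w = if w ∈ Zr h (1 / ((n : ℝ) + 1)) then 0 else f.1 w := by
    intro n w
    show f.1 w - (cut (Zr h (1 / ((n : ℝ) + 1))) (Zr_isClopen h _) f).1 w = _
    by_cases hw : w ∈ Zr h (1 / ((n : ℝ) + 1))
    · rw [if_pos hw]
      have := cut_mem (Zr_isClopen h (1 / ((n : ℝ) + 1))) f hw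
      rw [this, sub_self]
    · rw [if_neg hw]
      have := cut_notMem (Zr_isClopen h (1 / ((n : ℝ) + 1))) f hw
      rw [this, sub_zero]
  have hconst : ∀ n, Λ (dlS hd h f) - Λ f = Λ (dlS hd h (g n)) - Λ (g n) := by
    intro n
    have h2 := cut_mem_ker hd h Λ hT (r := 1 / ((n : ℝ) + 1)) (by positivity) f
    rw [LinearMap.mem_ker, LinearMap.sub_apply, LinearMap.comp_apply] at h2
    rw [hg, map_sub, map_sub, map_sub]
    linear_combination h2
  -- a general convergence statement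
  have key : ∀ F : ℕ → Sch (Fin m → E) ℂ, ∀ F₀ : Sch (Fin m → E) ℂ,
      (∀ n w, ‖(F n).1 w‖ ≤ ‖F₀.1 w‖) →
      (∀ w, (MM h w).det ≠ 0 → ∀ᶠ n in atTop, (F n).1 w = 0) →
      Tendsto (fun n => Λ (F n)) atTop (𝓝 0) := by
    intro F F₀ hF1 hF2
    obtain ⟨-, K, hK, hK0⟩ := F₀.2
    obtain ⟨R, hR⟩ := hK.isBounded.exists_norm_le
    obtain ⟨C, hC⟩ := hB R
    have h2 : Tendsto (fun n => ∫ w, ‖(F n).1 w‖ ^ 2 ∂(Measure.addHaar : Measure (Fin m → E)))
        atTop (𝓝 0) := by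
      have h3 : (0 : ℝ) = ∫ w, (0 : ℝ) ∂(Measure.addHaar : Measure (Fin m → E)) := by simp
      rw [h3]
      refine tendsto_integral_of_dominated_convergence (fun w => ‖F₀.1 w‖ ^ 2) ?_ ?_ ?_ ?_
      · intro n
        exact (((F n).2.1.continuous).norm.pow 2).aestronglyMeasurable
      · refine Continuous.integrable_of_hasCompactSupport (F₀.2.1.continuous.norm.pow 2) ?_
        refine HasCompactSupport.intro hK fun w hw => ?_
        rw [hK0 w hw]
        simp
      · intro n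
        refine Filter.Eventually.of_forall fun w => ?_
        rw [Real.norm_eq_abs, abs_of_nonneg (by positivity)]
        exact pow_le_pow_left₀ (norm_nonneg _) (hF1 n w) 2
      · filter_upwards [ae_det h] with w hw
        refine tendsto_const_nhds.congr' ?_
        filter_upwards [hF2 w hw] with n hn
        rw [hn]
        simp
    have h4 : Tendsto (fun n => C * Real.sqrt
        (∫ w, ‖(F n).1 w‖ ^ 2 ∂(Measure.addHaar : Measure (Fin m → E)))) atTop (𝓝 0) := by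
      have h5 := ((Real.continuous_sqrt.tendsto 0).comp h2).const_mul C
      rw [Real.sqrt_zero, mul_zero] at h5
      exact h5
    refine squeeze_zero_norm (fun n => hC (F n) fun w hw => ?_) h4
    have h6 : F₀.1 w = 0 := by
      refine hK0 w fun hwK => ?_
      exact absurd (hR w hwK) (not_le.2 hw)
    have h7 := hF1 n w
    rw [h6, norm_zero] at h7
    exact norm_le_zero_iff.1 h7
  have hev : ∀ w, (MM h w).det ≠ 0 → ∀ᶠ n : ℕ in atTop, w ∈ Zr h (1 / ((n : ℝ) + 1)) := by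
    intro w hw
    have h2 : Tendsto (fun n : ℕ => 1 / ((n : ℝ) + 1)) atTop (𝓝 0) :=
      tendsto_one_div_add_atTop_nhds_zero_nat
    filter_upwards [h2.eventually_le_const (norm_pos_iff.2 hw)] with n hn
    exact hn
  have k1 : Tendsto (fun n => Λ (g n)) atTop (𝓝 0) := by
    refine key g f (fun n w => ?_) fun w hw => ?_
    · rw [hgv]
      split_ifs
      · simp
      · exact le_rfl
    · filter_upwards [hev w hw] with n hn
      rw [hgv, if_pos hn]
  have k2 : Tendsto (fun n => Λ (dlS hd h (g n))) atTop (𝓝 0) := by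
    refine key (fun n => dlS hd h (g n)) (dlS hd h f) (fun n w => ?_) fun w hw => ?_
    · rw [dlS_apply, dlS_apply, hgv]
      split_ifs
      · simp
      · exact le_rfl
    · have hw' : (MM h (dl h w)).det ≠ 0 := by
        rw [MM_dl, ← norm_ne_zero_iff, hd.det, norm_ne_zero_iff]
        exact hw
      filter_upwards [hev _ hw'] with n hn
      rw [dlS_apply, hgv, if_pos hn]
  have k3 := k2.sub k1
  rw [sub_zero] at k3
  have k4 : Tendsto (fun _ : ℕ => Λ (dlS hd h f) - Λ f) atTop (𝓝 0) :=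
    k3.congr fun n => (hconst n).symm
  exact sub_eq_zero.1 (tendsto_nhds_unique tendsto_const_nhds k4)

end meas

end SpW.Mo
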