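import Pool.Agent.Work.MP_3615d2_al.Mo.Vanish
import Pool.Agent.Work.MP_3615d2_al.Mo.Ker
import Pool.Agent.Work.MP_3615d2_al.Mo.Fub

/-!
MP_3615d2_al, multiplicity one: the kernel vanishes at a good `g` for which `ξ` is separable and
not a norm (pointwise form).
-/

open MeasureTheory Filter Topology Polynomial

namespace SpW.Mo

section van

variable {F E : Type} [NontriviallyNormedField F] [IsUltrametricDist F] [ProperSpace F]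
  [NontriviallyNormedField E] [NormedAlgebra F E] [IsUltrametricDist E] [ProperSpace E]
  [MeasurableSpace E] [BorelSpace E]
  {m : ℕ} {S₁ S₂ : Type} [AddCommGroup S₁] [Module ℂ S₁] [AddCommGroup S₂] [Module ℂ S₂]
  {σ : E ≃ₐ[F] E} {δ : E} {d : F} {t₁ t₂ : Fin m → Eˣ}
  [MeasurableSpace (GL (Fin m) E)] [BorelSpace (GL (Fin m) E)]
  (μ : Measure (GL (Fin m) E)) [μ.IsHaarMeasure]
  {ψ : AddChar F Circle} {χμ : Eˣ →* ℂˣ}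

/-- the kernel vanishes at a good `g` for which `ξ` is separable and not a norm -/
theorem Dker_zero (hq : QuadDatum σ δ d) (hψ : Continuous ψ) (hψ1 : ψ ≠ 1)
    (hμ : ConjSymplectic F χμ) (ht₁ : SkT σ t₁) (ht₂ : SkT σ t₂)
    {ρ₁ : (Fin m → E) → Module.End ℂ S₁} {ω₁ : unitary σ (Dg t₁) →* Module.End ℂ S₁}
    {ρ₂ : (Fin m → E) → Module.End ℂ S₂} {ω₂ : unitary σ (Dg t₂) →* Module.End ℂ S₂}
    (hW₁ : IsWeil σ (Dg t₁) ψ χμ ρ₁ ω₁) (hW₂ : IsWeil σ (Dg t₂) ψ χμ ρ₂ ω₂)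
    {β₁ : S₁ →ₗ[ℂ] S₁ →ₗ[ℂ] ℂ} {β₂ : S₂ →ₗ[ℂ] S₂ →ₗ[ℂ] ℂ}
    (hβ₁ : IsBeta σ t₁ ρ₁ ω₁ β₁) (hbd₁ : BetaBd σ t₁ ω₁ β₁)
    (hβ₂ : IsBeta σ t₂ ρ₂ ω₂ β₂) (hbd₂ : BetaBd σ t₂ ω₂ β₂)
    {χ₁ χ₂ : Eˣ → ℂ} {p : GL (Fin m) E → S₁} {r : GL (Fin m) E → S₂}
    (hp : IsP σ t₁ ω₁ χ₁ p) (hr : IsP σ t₂ ω₂ χ₂ r) {ϖ : Eˣ}
    {g : GL (Fin m) E} (hg : g ∈ GoodG μ σ t₁ t₂)
    (hsep : (xiM σ t₁ t₂ g).charpoly.Separable)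
    (hno : ¬ ∃ f : E[X], aeval (xiM σ t₁ t₂ g) f *
      aeval (xiM σ t₁ t₂ g) (f.map (σ : E →+* E)) = xiM σ t₁ t₂ g) (c' : S₂) (b : S₁) :
    Dker μ ϖ t₂ β₁ β₂ p r g c' b = 0 := by
  obtain ⟨Lam, hLam⟩ := exists_Lam (μ := μ) (ϖ := ϖ) (t₂ := t₂) (g := g)
    (ker_integrable μ hq ht₁ ht₂ hp hr hbd₁ hbd₂ hg)
  have h1 := vanAbs hq hψ hψ1 hμ ht₁ ht₂ hW₁ hW₂ g hsep hno Lam (by
    intro u u'' hc hu'' c b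
    have hv : g * u.1 * g⁻¹ ∈ unitary σ (Dg t₁) := conj_mem u.2 hc
    have hgu : g * u.1 = (g * u.1 * g⁻¹) * g := by group
    have h2 := Dker_right μ (ϖ := ϖ) (β₁ := β₁) (p := p) hq ht₂ hβ₂ hr u g c (ω₁ u'' b)
    rw [hgu] at h2
    have hv' : th t₁ (g * u.1 * g⁻¹) ∈ unitary σ (Dg t₁) := th_mem (sig_sig hq) ht₁ hv
    have h3 := Dker_left μ (ϖ := ϖ) (t₂ := t₂) (β₂ := β₂) (r := r) hq ht₁ hβ₁ hp
      ⟨g * u.1 * g⁻¹, hv⟩ ⟨th t₁ (g * u.1 * g⁻¹), hv'⟩ rfl g c (ω₁ u'' b)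
    have h4 : (⟨th t₁ (g * u.1 * g⁻¹), hv'⟩ : unitary σ (Dg t₁)) * u'' = 1 := by
      apply Subtype.ext
      show th t₁ (g * u.1 * g⁻¹) * u''.1 = 1
      rw [hu'', mul_inv_cancel]
    rw [← Module.End.mul_apply, ← map_mul, h4, map_one, Module.End.one_apply] at h3
    rw [hLam, hLam, ← h2]
    exact h3)
  rw [← hLam]
  exact h1 c' b

end van

end SpW.Mo
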