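import Pool.Agent.Work.MP_3615d2_al.Mo.SymDens
import Pool.Agent.Work.MP_3615d2_al.Mo.LinSym
import Pool.Agent.Work.MP_3615d2_al.Mo.VanPt
import Pool.Agent.Work.MP_3615d2_al.Mo.WeilForm

/-!
MP_3615d2_al, multiplicity one (note 6725, G7): the operators `Op f = ∫ f(w) ρ(w) dw` and the
symmetric case of the kernel.
-/

open MeasureTheory Filter Topology Matrix Polynomial
open scoped NNReal ENNReal

set_option linter.unusedSectionVars false

namespace SpW.Mo

/-! ### The algebra of the symmetric case -/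

section alg

variable {F E : Type} [NontriviallyNormedField F] [IsUltrametricDist F] [ProperSpace F]
  [NontriviallyNormedField E] [NormedAlgebra F E] [IsUltrametricDist E] [ProperSpace E]
  [MeasurableSpace E] [BorelSpace E] {σ : E ≃ₐ[F] E} {δ : E} {d : F} {m : ℕ} {t : Fin m → Eˣ}

theorem isDag_dag (hq : QuadDatum σ δ d) {H : Matrix (Fin m) (Fin m) E} (hH : IsSkew σ H) :
    IsDag (dag σ H) where
  mul := dag_mul hH.det_ne (sig_sig hq)
  inv := dag_dag hH (sig_sig hq)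
  cont := by
    unfold dag
    have h1 : Continuous fun M : Matrix (Fin m) (Fin m) E => H⁻¹ * M.transpose * H :=
      (continuous_const.matrix_mul continuous_id.matrix_transpose).matrix_mul continuous_const
    exact h1.matrix_map (sig_continuous hq)
  det M := by
    have hu : IsUnit H.det := isUnit_iff_ne_zero.2 hH.det_ne
    unfold dag
    rw [det_map, sg_norm hq, Matrix.det_mul, Matrix.det_mul, Matrix.det_transpose,
      mul_right_comm, ← Matrix.det_mul, Matrix.nonsing_inv_mul H hu, Matrix.det_one, one_mul]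

/-- the algebra `L` -/
def cycL (A : (Fin m → E) →ₗ[E] Matrix (Fin m) (Fin m) E) {e : Fin m → E} (hAe : A e = 1)
    (hAA : ∀ v w, A v * A w = A ((A v).mulVec w)) :
    Subalgebra E (Matrix (Fin m) (Fin m) E) where
  carrier := {M | ∃ w, A w = M}
  mul_mem' := by
    rintro _ _ ⟨v, rfl⟩ ⟨w, rfl⟩
    exact ⟨_, (hAA v w).symm⟩
  add_mem' := by
    rintro _ _ ⟨v, rfl⟩ ⟨w, rfl⟩
    exact ⟨v + w, map_add A v w⟩
  algebraMap_mem' := fun c => ⟨c • e, by
    rw [map_smul, hAe, Algebra.algebraMap_eq_smul_one]⟩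

theorem mem_cycL (A : (Fin m → E) →ₗ[E] Matrix (Fin m) (Fin m) E) {e : Fin m → E} (hAe : A e = 1)
    (hAA : ∀ v w, A v * A w = A ((A v).mulVec w)) (M : Matrix (Fin m) (Fin m) E) :
    M ∈ cycL A hAe hAA ↔ ∃ w, A w = M := Iff.rfl

theorem isCyc_cycL {dg : Matrix (Fin m) (Fin m) E → Matrix (Fin m) (Fin m) E}
    (A : (Fin m → E) →ₗ[E] Matrix (Fin m) (Fin m) E) {e : Fin m → E} (hAe : A e = 1)
    (hA2 : ∀ w, (A w).mulVec e = w) (hAA : ∀ v w, A v * A w = A ((A v).mulVec w))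
    (hAc : ∀ v w, A v * A w = A w * A v) (hAd : ∀ w, ∃ w', dg (A w) = A w') :
    IsCyc dg (cycL A hAe hAA) e where
  comm := by
    rintro _ ⟨v, rfl⟩ _ ⟨w, rfl⟩
    exact hAc v w
  stab := by
    rintro _ ⟨v, rfl⟩
    obtain ⟨w, hw⟩ := hAd v
    exact ⟨w, hw.symm⟩
  inj := by
    rintro _ ⟨v, rfl⟩ h
    rw [hA2] at h
    rw [h, map_zero]
  surj w := ⟨A w, ⟨w, rfl⟩, hA2 w⟩

end alg

/-! ### The matrix `ξ` of `θ(g)` -/

section xi

variable {F E : Type} [NontriviallyNormedField F] [NontriviallyNormedField E] [NormedAlgebra F E]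
  {m : ℕ} {σ : E ≃ₐ[F] E} {δ : E} {d : F} {t : Fin m → Eˣ}

/-- the ring automorphism `X ↦ σ(g X g⁻¹)` -/
noncomputable def cjR (σ : E ≃ₐ[F] E) (g : GL (Fin m) E) :
    Matrix (Fin m) (Fin m) E →+* Matrix (Fin m) (Fin m) E where
  toFun X := (g.1 * X * (g⁻¹).1).map σ
  map_one' := by
    rw [Matrix.mul_one, ← Units.val_mul, mul_inv_cancel, Units.val_one,
      Matrix.map_one σ (map_zero σ) (map_one σ)]
  map_zero' := by
    rw [Matrix.mul_zero, Matrix.zero_mul, Matrix.map_zero σ (map_zero σ)]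
  map_mul' X Y := by
    rw [← map_mul_sig]
    congr 1
    have h1 : (g⁻¹).1 * g.1 = (1 : Matrix (Fin m) (Fin m) E) := by
      rw [← Units.val_mul, inv_mul_cancel, Units.val_one]
    calc g.1 * (X * Y) * (g⁻¹).1 = g.1 * X * (1 : Matrix (Fin m) (Fin m) E) * Y * (g⁻¹).1 := by
          simp only [Matrix.mul_assoc, Matrix.one_mul]
      _ = g.1 * X * (g⁻¹).1 * (g.1 * Y * (g⁻¹).1) := by
          rw [← h1]
          simp only [Matrix.mul_assoc]
  map_add' X Y := by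
    rw [Matrix.mul_add, Matrix.add_mul, Matrix.map_add σ (map_add σ)]

theorem cjR_apply (g : GL (Fin m) E) (X : Matrix (Fin m) (Fin m) E) :
    cjR σ g X = (g.1 * X * (g⁻¹).1).map σ := rfl

theorem cjR_inj (g : GL (Fin m) E) {X Y : Matrix (Fin m) (Fin m) E} (h : cjR σ g X = cjR σ g Y) :
    X = Y := by
  rw [cjR_apply, cjR_apply] at h
  have h1 : g.1 * X * (g⁻¹).1 = g.1 * Y * (g⁻¹).1 := by
    ext i j
    have h2 := congrFun (congrFun h i) j
    rw [Matrix.map_apply, Matrix.map_apply] at h2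
    exact σ.injective h2
  have h3 : (g⁻¹).1 * g.1 = (1 : Matrix (Fin m) (Fin m) E) := by
    rw [← Units.val_mul, inv_mul_cancel, Units.val_one]
  have h4 : ∀ Z : Matrix (Fin m) (Fin m) E, (g⁻¹).1 * (g.1 * Z * (g⁻¹).1) * g.1 = Z := by
    intro Z
    calc (g⁻¹).1 * (g.1 * Z * (g⁻¹).1) * g.1 = ((g⁻¹).1 * g.1) * Z * ((g⁻¹).1 * g.1) := by
          simp only [Matrix.mul_assoc]
      _ = Z := by rw [h3, Matrix.one_mul, Matrix.mul_one]
  rw [← h4 X, h1, h4]

theorem cjR_aeval (g : GL (Fin m) E) (X : Matrix (Fin m) (Fin m) E) (f : E[X]) :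
    cjR σ g (aeval X f) = aeval (cjR σ g X) (f.map (σ : E →+* E)) := by
  rw [aeval_def, aeval_def, Polynomial.hom_eval₂, Polynomial.eval₂_map]
  congr 1
  apply RingHom.ext
  intro c
  rw [RingHom.comp_apply, RingHom.comp_apply, cjR_apply, Algebra.algebraMap_eq_smul_one,
    Matrix.mul_smul, Matrix.mul_one, Matrix.smul_mul, ← Units.val_mul, mul_inv_cancel,
    Units.val_one, Algebra.algebraMap_eq_smul_one]
  ext i j
  simp only [Matrix.map_apply, Matrix.smul_apply, smul_eq_mul, map_mul]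
  by_cases h : i = j
  · subst h
    rw [Matrix.one_apply_eq, map_one]
    rfl
  · rw [Matrix.one_apply_ne h, map_zero, mul_zero, mul_zero]

theorem xiM_th (hσσ : ∀ x, σ (σ x) = x) (ht : SkT σ t) (g : GL (Fin m) E) :
    xiM σ t t (th t g) = cjR σ g (xiM σ t t g) := by
  have hH := ht.isSkew
  -- `ξ(g) = g† g`
  have key : ∀ g : GL (Fin m) E, xiM σ t t g = dag σ (Dg t) g.1 * g.1 := by
    intro g
    apply Matrix.toLin'.injective
    apply LinearMap.ext
    intro x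
    rw [Matrix.toLin'_apply, Matrix.toLin'_apply]
    have h1 : ∀ y, sk σ (Dg t) ((xiM σ t t g).mulVec x) y =
        sk σ (Dg t) ((dag σ (Dg t) g.1 * g.1).mulVec x) y := by
      intro y
      rw [sk_xiM, ← Matrix.mulVec_mulVec, sk_dag' hH hσσ]
    apply sk_nondeg (σ := σ) hH.det_ne
    intro y
    rw [sk_swap hH hσσ, h1, ← sk_swap hH hσσ]
  have h2 : (th t g).1 = (dag σ (Dg t) g.1).map σ := th_val hσσ t g
  -- `σ(M)† = σ(M†)`
  have h3 : dag σ (Dg t) (th t g).1 = g.1.map σ := by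
    have h4 : (th t (th t g)).1 = (dag σ (Dg t) (th t g).1).map σ := th_val hσσ t _
    rw [th_th] at h4
    rw [h4, map_sig_sig hσσ]
  rw [key, key, h3, h2, cjR_apply, ← map_mul_sig]
  congr 1
  have h5 : g.1 * (g⁻¹).1 = (1 : Matrix (Fin m) (Fin m) E) := by
    rw [← Units.val_mul, mul_inv_cancel, Units.val_one]
  calc g.1 * dag σ (Dg t) g.1 = g.1 * dag σ (Dg t) g.1 * (g.1 * (g⁻¹).1) := by
        rw [h5, Matrix.mul_one]
    _ = g.1 * (dag σ (Dg t) g.1 * g.1) * (g⁻¹).1 := by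
        simp only [Matrix.mul_assoc]

theorem no_f_th (hσσ : ∀ x, σ (σ x) = x) (ht : SkT σ t) (g : GL (Fin m) E)
    (hno : ¬ ∃ f : E[X], aeval (xiM σ t t g) f *
      aeval (xiM σ t t g) (f.map (σ : E →+* E)) = xiM σ t t g) :
    ¬ ∃ f : E[X], aeval (xiM σ t t (th t g)) f *
      aeval (xiM σ t t (th t g)) (f.map (σ : E →+* E)) = xiM σ t t (th t g) := by
  rintro ⟨f, hf⟩
  apply hno
  have hff : (f.map (σ : E →+* E)).map (σ : E →+* E) = f := by
    rw [Polynomial.map_map]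
    have h1 : (σ : E →+* E).comp (σ : E →+* E) = RingHom.id E := by
      apply RingHom.ext
      intro x
      exact hσσ x
    rw [h1, Polynomial.map_id]
  refine ⟨f.map (σ : E →+* E), cjR_inj (σ := σ) g ?_⟩
  rw [map_mul, cjR_aeval, cjR_aeval, hff, ← xiM_th hσσ ht]
  exact hf

end xi

/-! ### The operators -/

section op

variable {F E : Type} [NontriviallyNormedField F] [IsUltrametricDist F] [ProperSpace F]
  [NontriviallyNormedField E] [NormedAlgebra F E] [IsUltrametricDist E] [ProperSpace E]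
  [MeasurableSpace E] [BorelSpace E] {σ : E ≃ₐ[F] E} {δ : E} {d : F} {m : ℕ}
  {t : Fin m → Eˣ} {ψ : AddChar F Circle} {χμ : Eˣ →* ℂˣ} {S : Type} [AddCommGroup S] [Module ℂ S]
  {ρ : (Fin m → E) → Module.End ℂ S} {ω : unitary σ (Dg t) →* Module.End ℂ S}
  {β : S →ₗ[ℂ] S →ₗ[ℂ] ℂ}

/-- `Op f = ∫ f(w) ρ(w) dw` -/
def IsOp (ρ : (Fin m → E) → Module.End ℂ S)
    (Op : Sch (Fin m → E) ℂ →ₗ[ℂ] Module.End ℂ S) : Prop :=
  ∀ f v (ξ : S →ₗ[ℂ] ℂ), ξ (Op f v) = ∫ w, f.1 w * ξ (ρ w v) ∂(Measure.addHaar)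

/-- the rank one operator `v ↦ β(v, b) c` -/
noncomputable def ro (β : S →ₗ[ℂ] S →ₗ[ℂ] ℂ) (c b : S) : Module.End ℂ S :=
  (β.flip b).smulRight c

theorem ro_apply (c b v : S) : ro β c b v = β v b • c := rfl

theorem integral_unitary (hq : QuadDatum σ δ d) (ht : SkT σ t) (u : unitary σ (Dg t))
    (f : (Fin m → E) → ℂ) :
    ∫ w, f ((umat u).mulVec w) ∂(Measure.addHaar : Measure (Fin m → E)) =
      ∫ w, f w ∂(Measure.addHaar) := by
  have h := integral_linearEquiv (F := E) (Measure.addHaar : Measure (Fin m → E))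
    (vecL u.1) f
  have h1 : LinearMap.det ((vecL u.1 : (Fin m → E) ≃ₗ[E] (Fin m → E)) :
      (Fin m → E) →ₗ[E] (Fin m → E)) = (u.1 : Matrix (Fin m) (Fin m) E).det := by
    have h4 : ((vecL u.1 : (Fin m → E) ≃ₗ[E] (Fin m → E)) : (Fin m → E) →ₗ[E] (Fin m → E)) =
        Matrix.toLin' (u.1 : Matrix (Fin m) (Fin m) E) := rfl
    rw [h4, LinearMap.det_toLin']
  have h2 := ad_unitary hq ht.isSkew.det_ne u.2
  rw [ad_eq_md] at h2
  rw [h1, h2, Complex.ofReal_one, inv_one, one_mul] at h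
  exact h

theorem IsOp.conj {Op : Sch (Fin m → E) ℂ →ₗ[ℂ] Module.End ℂ S} (hOp : IsOp ρ Op)
    (hq : QuadDatum σ δ d) (ht : SkT σ t) (hW : IsWeil σ (Dg t) ψ χμ ρ ω) (u : unitary σ (Dg t))
    {f f' : Sch (Fin m → E) ℂ} (hf : ∀ w, f'.1 w = f.1 ((umat u).mulVec w)) :
    Op f * ω u = ω u * Op f' := by
  apply LinearMap.ext
  intro v
  refine dual_ext fun ξ => ?_
  show ξ (Op f (ω u v)) = ξ (ω u (Op f' v))
  have h1 := hOp f' v (ξ ∘ₗ ω u)
  rw [LinearMap.comp_apply] at h1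
  rw [hOp, h1, ← integral_unitary hq ht u]
  refine integral_congr_ae (Eventually.of_forall fun w => ?_)
  show f.1 ((umat u).mulVec w) * ξ (ρ ((umat u).mulVec w) (ω u v)) = f'.1 w * ξ (ω u (ρ w v))
  rw [hf, om_rho' hW]

theorem IsOp.adj {Op : Sch (Fin m → E) ℂ →ₗ[ℂ] Module.End ℂ S} (hOp : IsOp ρ Op)
    (hq : QuadDatum σ δ d) (hβ : IsBeta σ t ρ ω β)
    {f f' : Sch (Fin m → E) ℂ} (hf : ∀ w, f'.1 w = f.1 (cjL (sig_sig hq) m w)) (a b : S) :
    β (Op f a) b = β a (Op f' b) := by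
  have h1 := hOp f a (β.flip b)
  rw [LinearMap.flip_apply] at h1
  rw [h1, hOp, ← integral_cj hq]
  refine integral_congr_ae (Eventually.of_forall fun w => ?_)
  show f.1 (cjL (sig_sig hq) m w) * β (ρ (cjL (sig_sig hq) m w) a) b = f'.1 w * β a (ρ w b)
  rw [hf, hβ.rho]
  congr 3
  have : (fun i => σ (cjL (sig_sig hq) m w i)) = w := cjL_cjL (sig_sig hq) w
  rw [this]

end op

end SpW.Mo
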