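import Pool.Agent.Work.MP_3615d2_al.Mo.SymDens
import Pool.Agent.Work.MP_3615d2_al.Mo.LinSym

/-!
MP_3615d2_al, multiplicity one: the linear algebra of the symmetric case (note 6725, G6) in the form
used with the density argument of `SymDens`: `dag = dag σ H` satisfies `IsDag`, `L = E[ξ]` satisfies
`IsCyc`, and `r = σ ∘ δ_L`.
-/

open Matrix Polynomial Filter Topology

set_option linter.unusedSectionVars false

namespace SpW.Mo.SymOut

section norm

variable {F E : Type} [NontriviallyNormedField F] [NontriviallyNormedField E] [NormedAlgebra F E]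
  {σ : E ≃ₐ[F] E} {m : ℕ}

private theorem sig_lt (hσ : Continuous (σ : E → E)) {x : E} (hx : ‖x‖ < 1) : ‖σ x‖ < 1 := by
  have h1 : Tendsto (fun n : ℕ => x ^ n) atTop (𝓝 0) := tendsto_pow_atTop_nhds_zero_of_norm_lt_one hx
  have h2 : Tendsto (fun n : ℕ => σ x ^ n) atTop (𝓝 0) := by
    have h3 := (hσ.tendsto 0).comp h1
    rw [map_zero] at h3
    exact h3.congr fun n => map_pow σ x n
  by_contra h
  push Not at h
  have h4 := h2.norm
  rw [norm_zero] at h4
  obtain ⟨n, hn⟩ := (h4.eventually (Iio_mem_nhds one_pos)).exists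
  rw [norm_pow] at hn
  exact absurd (one_le_pow₀ h) (not_le.2 hn)

/-- A continuous involution of a normed field is an isometry. -/
theorem norm_sig_eq (hσ : Continuous (σ : E → E)) (hσσ : ∀ x, σ (σ x) = x) (x : E) :
    ‖σ x‖ = ‖x‖ := by
  by_cases hx : x = 0
  · rw [hx, map_zero]
  have hσx : σ x ≠ 0 := by rwa [Ne, EmbeddingLike.map_eq_zero_iff]
  have h1 : σ (x / σ x) = σ x / x := by rw [map_div₀, hσσ]
  have h2 : σ (σ x / x) = x / σ x := by rw [map_div₀, hσσ]
  have hx' : 0 < ‖x‖ := norm_pos_iff.2 hx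
  have hσx' : 0 < ‖σ x‖ := norm_pos_iff.2 hσx
  rcases lt_trichotomy ‖σ x‖ ‖x‖ with h | h | h
  · have h3 : ‖σ x / x‖ < 1 := by
      rw [norm_div, div_lt_one hx']
      exact h
    have h4 := sig_lt hσ h3
    rw [h2, norm_div, div_lt_one hσx'] at h4
    exact absurd h (not_lt.2 h4.le)
  · exact h
  · have h3 : ‖x / σ x‖ < 1 := by
      rw [norm_div, div_lt_one hσx']
      exact h
    have h4 := sig_lt hσ h3
    rw [h1, norm_div, div_lt_one hx'] at h4
    exact absurd h (not_lt.2 h4.le)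

theorem det_dag {H : Matrix (Fin m) (Fin m) E} (hH : H.det ≠ 0) (M : Matrix (Fin m) (Fin m) E) :
    (dag σ H M).det = σ M.det := by
  have h1 : (dag σ H M).det = σ (H⁻¹ * M.transpose * H).det :=
    (RingHom.map_det (σ : E →+* E) _).symm
  rw [h1, Matrix.det_mul, Matrix.det_mul, Matrix.det_transpose, Matrix.det_nonsing_inv,
    Ring.inverse_eq_inv']
  congr 1
  field_simp

theorem continuous_dag (hσ : Continuous (σ : E → E)) (H : Matrix (Fin m) (Fin m) E) :
    Continuous (dag σ H : Matrix (Fin m) (Fin m) E → Matrix (Fin m) (Fin m) E) := by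
  have h1 : Continuous fun M : Matrix (Fin m) (Fin m) E => H⁻¹ * M.transpose * H :=
    (continuous_const.matrix_mul continuous_id.matrix_transpose).matrix_mul continuous_const
  exact continuous_matrix fun i j => hσ.comp (h1.matrix_elem i j)

/-- The adjoint for a skew form satisfies `IsDag`. -/
theorem isDag_dag (hσ : Continuous (σ : E → E)) (hσσ : ∀ x, σ (σ x) = x)
    {H : Matrix (Fin m) (Fin m) E} (hH : IsSkew σ H) : IsDag (dag σ H) where
  mul := dag_mul hH.det_ne hσσ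
  inv := dag_dag hH hσσ
  cont := continuous_dag hσ H
  det M := by rw [det_dag hH.det_ne, norm_sig_eq hσ hσσ]

end norm

section sym

variable {F E : Type} [NontriviallyNormedField F] [NontriviallyNormedField E] [NormedAlgebra F E]
  [IsUltrametricDist E] [ProperSpace E]
  {σ : E ≃ₐ[F] E} {m : ℕ} {t : Fin m → Eˣ}

/-- The data of the symmetric case, with `L = E[ξ]`. -/
theorem exists_isCyc (hσσ : ∀ x, σ (σ x) = x) (ht : SkT σ t) {g : GL (Fin m) E}
    {ξ : Matrix (Fin m) (Fin m) E}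
    (hξ : ∀ x y, sk σ (Dg t) (g.1.mulVec x) (g.1.mulVec y) = sk σ (Dg t) (ξ.mulVec x) y)
    (hsep : ξ.charpoly.Separable)
    (f : E[X]) (hf : aeval ξ f * aeval ξ (f.map (σ : E →+* E)) = ξ) :
    ∃ (L : Subalgebra E (Matrix (Fin m) (Fin m) E)) (e : Fin m → E)
      (hc : IsCyc (dag σ (Dg t)) L e) (u h r : GL (Fin m) E),
      h.1 ∈ L ∧ g = u * h ∧ u ∈ unitary σ (Dg t) ∧ r ∈ unitary σ (Dg t) ∧
      th t r = r ∧ th t h = r * h * r⁻¹ ∧
      (∀ w, r.1.mulVec w = fun i => σ (dl hc w i)) ∧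
      (∀ a ∈ L, r.1.mulVec (a.mulVec e) = fun i => σ ((dag σ (Dg t) a).mulVec e i)) ∧
      ∀ k : GL (Fin m) E, k.1 ∈ L → th t k = r * k * r⁻¹ := by
  classical
  have hH := ht.isSkew
  obtain ⟨e, A, u, h, r, hAe, hA2, hAA, hAc, hAd, hAh, hguh, hu, hrU, hrr, hrh, -⟩ :=
    exists_sym hσσ ht hξ hsep f hf
  -- the algebra `L`
  let L : Subalgebra E (Matrix (Fin m) (Fin m) E) :=
    { carrier := Set.range A
      mul_mem' := by
        rintro _ _ ⟨v, rfl⟩ ⟨w, rfl⟩
        exact ⟨(A v).mulVec w, (hAA v w).symm⟩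
      one_mem' := ⟨e, hAe⟩
      add_mem' := by
        rintro _ _ ⟨v, rfl⟩ ⟨w, rfl⟩
        exact ⟨v + w, map_add A v w⟩
      zero_mem' := ⟨0, map_zero A⟩
      algebraMap_mem' := fun c => ⟨c • e, by
        rw [map_smul, hAe, Algebra.algebraMap_eq_smul_one]⟩ }
  have hL : ∀ {a : Matrix (Fin m) (Fin m) E}, a ∈ L → A (a.mulVec e) = a := by
    rintro _ ⟨w, rfl⟩
    rw [hA2]
  have hc : IsCyc (dag σ (Dg t)) L e :=
    { comm := by
        rintro _ ⟨v, rfl⟩ _ ⟨w, rfl⟩
        exact hAc v w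
      stab := by
        rintro _ ⟨w, rfl⟩
        exact ⟨_, (hAd w).symm⟩
      inj := by
        intro a ha h0
        rw [← hL ha, h0, map_zero]
      surj := fun w => ⟨A w, ⟨w, rfl⟩, hA2 w⟩ }
  have hMM : ∀ w, MM hc w = A w := by
    intro w
    have h1 := MM_of hc (a := A w) ⟨w, rfl⟩
    rwa [hA2] at h1
  -- `r = σ ∘ δ_L`
  have hdl : ∀ w, dl hc w = (r⁻¹).1.mulVec fun i => σ (w i) := by
    intro w
    rw [dl, hMM, hAd, hA2]
  have hrv : ∀ w, r.1.mulVec w = fun i => σ (dl hc w i) := by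
    intro w
    have h1 : w = dl hc (dl hc w) := by
      rw [dl, MM_dl, dag_dag hH hσσ, MM_e]
    conv_lhs => rw [h1, hdl (dl hc w), Matrix.mulVec_mulVec, ← Units.val_mul, mul_inv_cancel,
      Units.val_one, Matrix.one_mulVec]
  refine ⟨L, e, hc, u, h, r, ⟨_, hAh.symm⟩, hguh, hu, hrU, hrr, hrh, hrv, ?_, ?_⟩
  · intro a ha
    rw [hrv, dl, MM_of hc ha]
  · intro k hk
    apply Units.ext
    rw [th_val hσσ]
    apply Matrix.toLin'.injective
    apply LinearMap.ext
    intro w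
    have h1 : (r * k * r⁻¹ : GL (Fin m) E).1 = r.1 * k.1 * (r⁻¹).1 := rfl
    rw [Matrix.toLin'_apply, Matrix.toLin'_apply, map_mulVec _ hσσ, h1, ← Matrix.mulVec_mulVec,
      ← Matrix.mulVec_mulVec, hrv]
    funext i
    congr 1
    rw [dl, MM_mul hc hk, dag_mul hH.det_ne hσσ]
    have h2 : dag σ (Dg t) (MM hc ((r⁻¹).1.mulVec w)) * dag σ (Dg t) k.1 =
        dag σ (Dg t) k.1 * dag σ (Dg t) (MM hc ((r⁻¹).1.mulVec w)) :=
      hc.comm _ (hc.stab _ (MM_mem hc _)) _ (hc.stab _ hk)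
    rw [h2, ← Matrix.mulVec_mulVec]
    have h3 : (dag σ (Dg t) (MM hc ((r⁻¹).1.mulVec w))).mulVec e = fun i => σ (w i) := by
      have h4 : (dag σ (Dg t) (MM hc ((r⁻¹).1.mulVec w))).mulVec e = dl hc ((r⁻¹).1.mulVec w) := rfl
      rw [h4]
      have h5 := hrv ((r⁻¹).1.mulVec w)
      rw [Matrix.mulVec_mulVec, ← Units.val_mul, mul_inv_cancel, Units.val_one,
        Matrix.one_mulVec] at h5
      funext j
      have h6 := congrFun h5 j
      rw [h6, hσσ]
    rw [h3]

end sym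

end SpW.Mo.SymOut
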