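import Pool.Agent.Work.MP_3615d2_al.Mo.SymOp

/-!
MP_3615d2_al, multiplicity one (note 6725, G7): the symmetric case,
`D(θ(g))(c', b) = D(g)(b, c')` for almost every `g`.
-/

open MeasureTheory Filter Topology Matrix Polynomial
open scoped NNReal ENNReal

set_option linter.unusedSectionVars false

namespace SpW.Mo

section sym

variable {F E : Type} [NontriviallyNormedField F] [IsUltrametricDist F] [ProperSpace F]
  [NontriviallyNormedField E] [NormedAlgebra F E] [IsUltrametricDist E] [ProperSpace E]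
  [MeasurableSpace E] [BorelSpace E] {σ : E ≃ₐ[F] E} {δ : E} {d : F} {m : ℕ}
  {t : Fin m → Eˣ} {ψ : AddChar F Circle} {χμ : Eˣ →* ℂˣ} {S : Type} [AddCommGroup S] [Module ℂ S]
  {ρ : (Fin m → E) → Module.End ℂ S} {ω : unitary σ (Dg t) →* Module.End ℂ S}
  {β : S →ₗ[ℂ] S →ₗ[ℂ] ℂ}
  [MeasurableSpace (GL (Fin m) E)] [BorelSpace (GL (Fin m) E)]
  (μ : Measure (GL (Fin m) E)) [μ.IsHaarMeasure]

/-- the bound of the coefficients of `Op f` by the `L²` norm, uniform on balls -/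
def OpBd (σ : E ≃ₐ[F] E) (t : Fin m → Eˣ) (ω : unitary σ (Dg t) →* Module.End ℂ S)
    (β : S →ₗ[ℂ] S →ₗ[ℂ] ℂ) (Op : Sch (Fin m → E) ℂ →ₗ[ℂ] Module.End ℂ S) : Prop :=
  ∀ (a b : S) (R : ℝ), ∃ C : ℝ≥0, ∀ f : Sch (Fin m → E) ℂ, (∀ w, R < ‖w‖ → f.1 w = 0) →
    ∀ u u' : unitary σ (Dg t), ENNReal.ofReal ‖β (Op f (ω u a)) (ω u' b)‖ ≤
      C * ENNReal.ofReal (Real.sqrt (∫ w, ‖f.1 w‖ ^ 2 ∂(Measure.addHaar : Measure (Fin m → E)))) *
        nuV u'.1 ^ (1 / 2 : ℝ)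

/-- the functional `f ↦ D(g)(Op f)` at a good `g` -/
theorem exists_lam (hq : QuadDatum σ δ d) (ht : SkT σ t)
    {Op : Sch (Fin m → E) ℂ →ₗ[ℂ] Module.End ℂ S} (hbd : OpBd σ t ω β Op)
    {χ : Eˣ → ℂ} {p r : GL (Fin m) E → S} (hp : IsP σ t ω χ p) (hr : IsP σ t ω χ r) (ϖ : Eˣ)
    {g : GL (Fin m) E} (hg : g ∈ GoodG μ σ t t) :
    ∃ Λ : Sch (Fin m → E) ℂ →ₗ[ℂ] ℂ, (∀ f, Λ f = Dop μ ϖ t β p r g (Op f)) ∧
      ∀ R : ℝ, ∃ C : ℝ, ∀ f : Sch (Fin m → E) ℂ, (∀ w, R < ‖w‖ → f.1 w = 0) →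
        ‖Λ f‖ ≤ C * Real.sqrt (∫ w, ‖f.1 w‖ ^ 2 ∂(Measure.addHaar : Measure (Fin m → E))) := by
  have key : ∀ R : ℝ, (∀ f : Sch (Fin m → E) ℂ, (∀ w, R < ‖w‖ → f.1 w = 0) →
      IntegrableOn (fun h => β (Op f (p h⁻¹)) (r (th t (h * g)))) (Gfin m ϖ) μ) ∧
      ∃ C : ℝ, ∀ f : Sch (Fin m → E) ℂ, (∀ w, R < ‖w‖ → f.1 w = 0) →
        ‖Dop μ ϖ t β p r g (Op f)‖ ≤
          C * Real.sqrt (∫ w, ‖f.1 w‖ ^ 2 ∂(Measure.addHaar : Measure (Fin m → E))) := by
    intro R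
    have h1 := exists_int_bound μ hq ht ht hp hr ϖ
      (ι := {f : Sch (Fin m → E) ℂ // ∀ w, R < ‖w‖ → f.1 w = 0})
      (fun f => β ∘ₗ (Op f.1))
      (fun f => Real.toNNReal (Real.sqrt
        (∫ w, ‖f.1.1 w‖ ^ 2 ∂(Measure.addHaar : Measure (Fin m → E)))))
      (by
        intro a b
        obtain ⟨C, hC⟩ := hbd a b R
        refine ⟨C, fun f u u' => ?_⟩
        have h2 := hC f.1 f.2 u u'
        rw [ofReal_norm_eq_enorm] at h2
        exact h2) hg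
    obtain ⟨h2, C, hC0, h3⟩ := h1
    refine ⟨fun f hf => h2 ⟨f, hf⟩, C, fun f hf => ?_⟩
    have h4 := h3 ⟨f, hf⟩
    rw [Real.coe_toNNReal _ (Real.sqrt_nonneg _)] at h4
    exact h4
  have hint : ∀ f : Sch (Fin m → E) ℂ,
      IntegrableOn (fun h => β (Op f (p h⁻¹)) (r (th t (h * g)))) (Gfin m ϖ) μ := by
    intro f
    obtain ⟨-, K, hK, hK0⟩ := f.2
    obtain ⟨R, hR⟩ := hK.isBounded.exists_norm_le
    refine (key R).1 f fun w hw => hK0 w fun hwK => ?_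
    exact absurd (hR w hwK) (not_le.2 hw)
  refine ⟨{ toFun := fun f => Dop μ ϖ t β p r g (Op f)
            map_add' := fun f f' => ?_
            map_smul' := fun c f => ?_ }, fun f => rfl, fun R => (key R).2⟩
  · unfold Dop
    rw [← integral_add (hint f) (hint f')]
    refine integral_congr_ae (Eventually.of_forall fun h => ?_)
    show β (Op (f + f') (p h⁻¹)) (r (th t (h * g))) = _
    rw [map_add, LinearMap.add_apply, map_add, LinearMap.add_apply]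
  · unfold Dop
    rw [RingHom.id_apply, smul_eq_mul, ← integral_const_mul]
    refine integral_congr_ae (Eventually.of_forall fun h => ?_)
    show β (Op (c • f) (p h⁻¹)) (r (th t (h * g))) = _
    rw [map_smul, LinearMap.smul_apply, map_smul, LinearMap.smul_apply, smul_eq_mul]

/-- the symmetric case at a good regular `g` with `ξ` a norm -/
theorem sym_pt (hq : QuadDatum σ δ d) (ht : SkT σ t) (hW : IsWeil σ (Dg t) ψ χμ ρ ω)
    (hβ : IsBeta σ t ρ ω β)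
    {Op : Sch (Fin m → E) ℂ →ₗ[ℂ] Module.End ℂ S} (hOp : IsOp ρ Op) (hbd : OpBd σ t ω β Op)
    (hrk : ∀ c b : S, ∃ f : Sch (Fin m → E) ℂ, Op f = ro β c b)
    {χ : Eˣ → ℂ} {p r : GL (Fin m) E → S} (hp : IsP σ t ω χ p) (hr : IsP σ t ω χ r) (ϖ : Eˣ)
    {g : GL (Fin m) E} (hg : g ∈ GoodG μ σ t t)
    (hsep : (xiM σ t t g).charpoly.Separable)
    {f : E[X]} (hf : aeval (xiM σ t t g) f *
      aeval (xiM σ t t g) (f.map (σ : E →+* E)) = xiM σ t t g) (c b : S) :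
    Dop μ ϖ t β p r (th t g) (ro β c b) = Dop μ ϖ t β p r g (ro β b c) := by
  have hσσ := sig_sig hq
  have hH := ht.isSkew
  obtain ⟨e, A, u, h, s, hAe, hA2, hAA, hAc, hAd, hAh, hgu, hu, hs, hths, hthh, -⟩ :=
    exists_sym hσσ ht (g := g) (ξ := xiM σ t t g) (fun x y => (sk_xiM g x y).symm) hsep f hf
  set L := cycL A hAe hAA with hL
  have hcyc : IsCyc (dag σ (Dg t)) L e :=
    isCyc_cycL A hAe hA2 hAA hAc fun w => ⟨_, hAd w⟩
  have hdag := isDag_dag hq hH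
  have hMM : ∀ w, MM hcyc w = A w := by
    intro w
    have h1 : A w ∈ L := ⟨w, rfl⟩
    have h2 := MM_of hcyc h1
    rwa [hA2] at h2
  let sU : unitary σ (Dg t) := ⟨s, hs⟩
  let uU : unitary σ (Dg t) := ⟨u, hu⟩
  -- `h` is good
  have hhg : h ∈ GoodG μ σ t t := by
    have h1 : h = u⁻¹ * g := by rw [hgu]; group
    rw [h1]
    exact goodG_left μ ht uU⁻¹ hg
  obtain ⟨Λ, hΛ, hΛB⟩ := exists_lam μ hq ht hbd hp hr ϖ hhg
  -- invariance under the torus
  have hT : ∀ τ ∈ L, τ * dag σ (Dg t) τ = 1 → ∀ f f' : Sch (Fin m → E) ℂ,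
      (∀ w, f'.1 w = f.1 (τ.mulVec w)) → Λ f' = Λ f := by
    intro τ hτ hτ1 f f' hff
    have hτ2 : dag σ (Dg t) τ * τ = 1 := mul_eq_one_comm.1 hτ1
    let τG : GL (Fin m) E := ⟨τ, dag σ (Dg t) τ, hτ1, hτ2⟩
    have hτU : τG ∈ unitary σ (Dg t) := by
      intro x y
      show sk σ (Dg t) (τ.mulVec x) (τ.mulVec y) = _
      rw [sk_dag hH.det_ne hσσ, Matrix.mulVec_mulVec, hτ2, Matrix.one_mulVec]
    let v : unitary σ (Dg t) := ⟨τG, hτU⟩
    have hcm : τG * h = h * τG := by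
      apply Units.ext
      show τ * h.1 = h.1 * τ
      obtain ⟨w, rfl⟩ := hτ
      rw [hAh, hAc]
    have h1 : Op f * ω v = ω v * Op f' := hOp.conj hq ht hW v hff
    have h2 := Dop_left μ (ϖ := ϖ) (β := β) (r := r) hq ht hp v (v.1⁻¹ * h) (Op f)
    have h3 := Dop_right μ (ϖ := ϖ) (p := p) hq ht hβ hr v (v.1⁻¹ * h) (Op f')
    have h4 : v.1 * (v.1⁻¹ * h) = h := by group
    have h5 : v.1⁻¹ * h * v.1 = h := by
      show τG⁻¹ * h * τG = h
      rw [mul_assoc, ← hcm]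
      group
    rw [h4] at h2
    rw [h5] at h3
    rw [hΛ, hΛ, h2, h3, h1]
  have hinv := bar_invariant hdag hcyc Λ hT hΛB
  have ro_mul : ∀ (v v' : unitary σ (Dg t)), v'.1 = th t v.1 → ∀ c b : S,
      ro β c b * ω v = ro β c (ω v' b) := by
    intro v v' hv c b
    apply LinearMap.ext
    intro x
    show β (ω v x) b • c = β x (ω v' b) • c
    rw [hβ.om v v' hv]
  have mul_ro : ∀ (v : unitary σ (Dg t)) (c b : S), ω v * ro β c b = ro β (ω v c) b := by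
    intro v c b
    apply LinearMap.ext
    intro x
    show ω v (β x b • c) = β x b • ω v c
    rw [map_smul]
  have hinvω : ∀ (v : unitary σ (Dg t)) (x : S), ω v⁻¹ (ω v x) = x := by
    intro v x
    rw [← Module.End.mul_apply, ← map_mul, inv_mul_cancel, map_one, Module.End.one_apply]
  -- the bar of a rank one operator
  have hbar : ∀ c b : S, Dop μ ϖ t β p r h (ro β c b) =
      Dop μ ϖ t β p r h (ro β (ω sU⁻¹ b) (ω sU c)) := by
    intro c b
    obtain ⟨f₀, hf₀⟩ := hrk c b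
    let f₁ : Sch (Fin m → E) ℂ := ⟨fun w => f₀.1 (cjL hσσ m w), by
      have hc : Continuous (cjL hσσ m) := continuous_cj hq
      exact sch_comp f₀.2 (⟨(cjL hσσ m).toEquiv, hc, hc⟩ : (Fin m → E) ≃ₜ (Fin m → E))⟩
    have e1 : Op f₁ = ro β b c := by
      apply LinearMap.ext
      intro y
      have h1 : ∀ a, β a (Op f₁ y) = β a (ro β b c y) := by
        intro a
        rw [← hOp.adj hq hβ (f := f₀) (f' := f₁) (fun w => rfl) a y, hf₀, ro_apply, ro_apply,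
          map_smul, map_smul, LinearMap.smul_apply, smul_eq_mul, smul_eq_mul, hβ.symm c y, mul_comm]
      rw [← sub_eq_zero]
      refine hβ.nondeg _ fun a => ?_
      rw [hβ.symm, map_sub, h1, sub_self]
    have e2 : ∀ w, (dlS hdag hcyc f₀).1 w = f₁.1 ((umat sU).mulVec w) := by
      intro w
      rw [dlS_apply]
      have e0 : dl hcyc w = cjL hσσ m (s.1.mulVec w) := by
        unfold dl
        rw [hMM, hAd, hA2]
        -- `s⁻¹ σ(w) = σ(s w)`
        have h2 : s.1 = (dag σ (Dg t) s.1).map σ := by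
          conv_lhs => rw [← hths]
          exact th_val hσσ t s
        have h3 : dag σ (Dg t) s.1 = (s⁻¹).1 := dag_unitary hH.det_ne hσσ hs
        rw [h3] at h2
        have h4 : (s⁻¹).1 = s.1.map σ := by
          conv_rhs => rw [h2]
          rw [map_sig_sig hσσ]
        rw [h4, map_mulVec _ hσσ]
        funext i
        rw [cjL_apply]
        simp only [hσσ]
      show f₀.1 (dl hcyc w) = f₀.1 (cjL hσσ m (s.1.mulVec w))
      rw [e0]
    have e3 := hOp.conj hq ht hW sU (f := f₁) (f' := dlS hdag hcyc f₀) e2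
    have e4 : Op (dlS hdag hcyc f₀) = ro β (ω sU⁻¹ b) (ω sU c) := by
      have h1 : ω sU⁻¹ * (Op f₁ * ω sU) = Op (dlS hdag hcyc f₀) := by
        rw [e3, ← mul_assoc, ← map_mul, inv_mul_cancel, map_one, one_mul]
      rw [← h1, e1, ro_mul sU sU (by exact hths.symm), mul_ro]
    rw [← hf₀, ← hΛ, ← hinv f₀, hΛ, e4]
  -- the case of `h`
  have hh : ∀ c b : S, Dop μ ϖ t β p r (th t h) (ro β c b) =
      Dop μ ϖ t β p r h (ro β b c) := by
    intro c b
    have h1 : th t h = sU.1 * (h * (sU⁻¹).1) := by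
      rw [hthh]
      show s * h * s⁻¹ = s * (h * s⁻¹)
      rw [mul_assoc]
    rw [h1, Dop_left μ hq ht hp, Dop_right μ hq ht hβ hr, ro_mul sU sU (by exact hths.symm),
      mul_ro, ← hbar]
  -- the case of `g = u h`
  have h2 : th t g = th t h * (thU hσσ ht uU).1 := by
    rw [hgu, th_mul]
    rfl
  rw [h2, Dop_right μ hq ht hβ hr, mul_ro, hh, hgu]
  have h3 := Dop_left μ (ϖ := ϖ) (β := β) (r := r) hq ht hp uU h (ro β b c)
  have h4 : uU.1 * h = u * h := rfl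
  rw [h4] at h3
  rw [h3, ro_mul uU (thU hσσ ht uU) rfl]

end sym

end SpW.Mo
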