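import Pool.Agent.Work.MP_3615d2_al.Mo.Defs
import Pool.Agent.Work.MP_3615d2_al.HkPair
import Pool.Agent.Work.MP_3615d2_al.Mo.Fin

/-!
MP_3615d2_al, multiplicity one (note 6725): the exact statements of the modules.
NEVER import this file.
-/

open MeasureTheory Filter Topology Matrix

set_option linter.unusedSectionVars false
set_option linter.unusedVariables false

namespace SpW.MoTasks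

open SpW.Mo

variable {F E : Type} [NontriviallyNormedField F] [IsUltrametricDist F] [ProperSpace F]
  [NontriviallyNormedField E] [NormedAlgebra F E] [IsUltrametricDist E] [ProperSpace E]
  [MeasurableSpace E] [BorelSpace E]
  {m : ℕ} {V S S₁ S₂ : Type} [AddCommGroup V] [Module ℂ V] [AddCommGroup S] [Module ℂ S]
  [AddCommGroup S₁] [Module ℂ S₁] [AddCommGroup S₂] [Module ℂ S₂]
  {σ : E ≃ₐ[F] E} {δ : E} {d : F} {t t₁ t₂ : Fin m → Eˣ}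

/-! ### G1 (helper71), file Mo/Schur.lean -/

section G1

variable [MeasurableSpace (GL (Fin m) E)] [BorelSpace (GL (Fin m) E)]
  (μ : Measure (GL (Fin m) E)) [μ.IsHaarMeasure]

/-- The form `B(a,b) = l(a, π(H) b)`. -/
theorem exists_form (t : Fin m → Eˣ) {π : GL (Fin m) E →* Module.End ℂ V}
    (hπ : IsSmoothRep π) (hirr : IsIrrRep π) (hc : IsCusp π) (hu : UnitCentral π) :
    ∃ (B : V →ₗ[ℂ] V →ₗ[ℂ] ℂ) (ε : ℂ), B ≠ 0 ∧ (∀ a b, B a b = ε * B b a) ∧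
      (∀ b, (∀ a, B a b = 0) → b = 0) ∧
      ∀ g a b, B (π g a) b = B a (π (th t g) b) := sorry

/-- Schur orthogonality. -/
theorem exists_schur (ht : SkT σ t) {π : GL (Fin m) E →* Module.End ℂ V}
    (hπ : IsSmoothRep π) (hirr : IsIrrRep π) (hc : IsCusp π) (hu : UnitCentral π)
    (B : V →ₗ[ℂ] V →ₗ[ℂ] ℂ) (hB0 : B ≠ 0) (hB : ∀ g a b, B (π g a) b = B a (π (th t g) b))
    (hm : 0 < m) (ϖ : Eˣ) (hϖ : ad (scl m ϖ) < 1) :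
    ∃ (w' v₁ : V), ∀ w (ξ : V →ₗ[ℂ] ℂ),
      ∫ h in Gfin m ϖ, B (π h w) v₁ * ξ (π h⁻¹ w') ∂μ = ξ w := sorry

/-- `π(f) = B(·, v₂) w₁`. -/
theorem exists_rank_one {π : GL (Fin m) E →* Module.End ℂ V}
    (hπ : IsSmoothRep π) (hirr : IsIrrRep π) (hc : IsCusp π) (hu : UnitCentral π)
    (B : V →ₗ[ℂ] V →ₗ[ℂ] ℂ) (hB : ∀ g a b, B (π g a) b = B a (π (th t g) b)) (w₁ v₂ : V) :
    ∃ f : Sch (GL (Fin m) E) ℂ, ∀ w, Hk.hk μ hπ f w = B w v₂ • w₁ := sorry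

end G1

/-! ### G2 (helper25), file Mo/Tame.lean -/

section G2

theorem exists_tame (hm : 0 < m) (hq : QuadDatum σ δ d) (ht : SkT σ t) {π : GL (Fin m) E →* Module.End ℂ V}
    (hπ : IsSmoothRep π) (hirr : IsIrrRep π) (hc : IsCusp π) (hu : UnitCentral π)
    (ω : unitary σ (Dg t) →* Module.End ℂ S) (hω : ∀ v, ∀ᶠ g in 𝓝 (1 : unitary σ (Dg t)), ω g v = v)
    (lam : V →ₗ[ℂ] S) (hlam : ∀ (u : unitary σ (Dg t)) w, lam (π u.1 w) = ω u (lam w))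
    (s : Finset V) :
    ∃ lam' : V →ₗ[ℂ] S, (∀ (u : unitary σ (Dg t)) w, lam' (π u.1 w) = ω u (lam' w)) ∧
      IsTame σ t π lam' ∧ ∀ w ∈ s, lam' w = lam w := sorry

/-- A tame functional gives `IsP` functions. -/
theorem IsTame.isP {π : GL (Fin m) E →* Module.End ℂ V}
    (hπ : IsSmoothRep π) {χ : Eˣ → ℂ} (hχ : ∀ z, ‖χ z‖ = 1)
    (hχc : ∀ z v, π (Matrix.GeneralLinearGroup.scalar (Fin m) z) v = χ z • v)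
    (ω : unitary σ (Dg t) →* Module.End ℂ S)
    (lam : V →ₗ[ℂ] S) (hlam : ∀ (u : unitary σ (Dg t)) w, lam (π u.1 w) = ω u (lam w))
    (hT : IsTame σ t π lam) (w : V) : IsP σ t ω χ (fun g => lam (π g w)) := sorry

end G2

/-! ### G3 (helper71), file Mo/Ker.lean, and G3b (helper24), file Mo/Fub.lean -/

section G3

variable [MeasurableSpace (GL (Fin m) E)] [BorelSpace (GL (Fin m) E)]
  (μ : Measure (GL (Fin m) E)) [μ.IsHaarMeasure]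
  {ρ₁ : (Fin m → E) → Module.End ℂ S₁} {ω₁ : unitary σ (Dg t₁) →* Module.End ℂ S₁}
  {ρ₂ : (Fin m → E) → Module.End ℂ S₂} {ω₂ : unitary σ (Dg t₂) →* Module.End ℂ S₂}
  {β₁ : S₁ →ₗ[ℂ] S₁ →ₗ[ℂ] ℂ} {β₂ : S₂ →ₗ[ℂ] S₂ →ₗ[ℂ] ℂ} {χ : Eˣ → ℂ}
  {p : GL (Fin m) E → S₁} {r : GL (Fin m) E → S₂} {ϖ : Eˣ}

/-- The anti-automorphism `θ` preserves Haar measure. -/
theorem th_measurePreserving (t : Fin m → Eˣ) : MeasurePreserving (th t) μ μ := sorry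

theorem Dker_left (hϖ : ad (scl m ϖ) < 1) (hq : QuadDatum σ δ d) (ht₁ : SkT σ t₁) (hβ₁ : IsBeta σ t₁ ρ₁ ω₁ β₁)
    (hp : IsP σ t₁ ω₁ χ p) (u u' : unitary σ (Dg t₁)) (hu : u'.1 = th t₁ u.1)
    (g : GL (Fin m) E) (c' : S₂) (b : S₁) :
    Dker μ ϖ t₂ β₁ β₂ p r (u.1 * g) c' b = Dker μ ϖ t₂ β₁ β₂ p r g c' (ω₁ u' b) := sorry

theorem Dker_right (hq : QuadDatum σ δ d) (ht₂ : SkT σ t₂) (hβ₂ : IsBeta σ t₂ ρ₂ ω₂ β₂)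
    (hr : IsP σ t₂ ω₂ χ r) (u : unitary σ (Dg t₂))
    (g : GL (Fin m) E) (c' : S₂) (b : S₁) :
    Dker μ ϖ t₂ β₁ β₂ p r (g * u.1) c' b = Dker μ ϖ t₂ β₁ β₂ p r g (ω₂ u c') b := sorry

/-- G3b. Domination, uniform for `g` in a compact set. -/
theorem ker_dom (hm : 0 < m) (hϖ : ad (scl m ϖ) < 1) (hq : QuadDatum σ δ d) (ht₁ : SkT σ t₁) (ht₂ : SkT σ t₂)
    (hp : IsP σ t₁ ω₁ χ p) (hr : IsP σ t₂ ω₂ χ r)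
    (hβ₁ : IsBeta σ t₁ ρ₁ ω₁ β₁) (hbd₁ : BetaBd σ t₁ ω₁ β₁)
    (hβ₂ : IsBeta σ t₂ ρ₂ ω₂ β₂) (hbd₂ : BetaBd σ t₂ ω₂ β₂)
    (Ω : Set (GL (Fin m) E)) (hΩ : IsCompact Ω) (c' : S₂) (b : S₁) :
    ∃ (C : ENNReal) (R : ℝ), C ≠ ⊤ ∧ ∀ g ∈ Ω, ∀ h ∈ Gfin m ϖ,
      ENNReal.ofReal ‖β₁ (p h⁻¹) b * β₂ (r (th t₂ (h * g))) c'‖ ≤
        C * (MRset σ t₁ t₂ R g).indicator (fun h => nuV (h * g) ^ (1 / 2 : ℝ)) h := sorry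

/-- G3b. -/
theorem goodG_ae (hloc : ∀ (R : ℝ) (Ω : Set (GL (Fin m) E)), IsCompact Ω →
      ∫⁻ g in Ω, MR μ σ t₁ t₂ R g ∂μ < ⊤) : ∀ᵐ g ∂μ, g ∈ GoodG μ σ t₁ t₂ := sorry

/-- G3b. `h ↦ β₁(p(h⁻¹), b) β₂(r(θ₂(hg)), c')` is integrable on `Gfin` for good `g`. -/
theorem ker_integrable (hm : 0 < m) (hϖ : ad (scl m ϖ) < 1) (hq : QuadDatum σ δ d) (ht₁ : SkT σ t₁) (ht₂ : SkT σ t₂)
    (hp : IsP σ t₁ ω₁ χ p) (hr : IsP σ t₂ ω₂ χ r)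
    (hβ₁ : IsBeta σ t₁ ρ₁ ω₁ β₁) (hbd₁ : BetaBd σ t₁ ω₁ β₁)
    (hβ₂ : IsBeta σ t₂ ρ₂ ω₂ β₂) (hbd₂ : BetaBd σ t₂ ω₂ β₂)
    {g : GL (Fin m) E} (hg : g ∈ GoodG μ σ t₁ t₂) (c' : S₂) (b : S₁) :
    IntegrableOn (fun h => β₁ (p h⁻¹) b * β₂ (r (th t₂ (h * g))) c') (Gfin m ϖ) μ := sorry

/-- G3b. -/
theorem ker_fubini (hm : 0 < m) (hϖ : ad (scl m ϖ) < 1) (hq : QuadDatum σ δ d) (ht₁ : SkT σ t₁) (ht₂ : SkT σ t₂)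
    (hp : IsP σ t₁ ω₁ χ p) (hr : IsP σ t₂ ω₂ χ r)
    (hβ₁ : IsBeta σ t₁ ρ₁ ω₁ β₁) (hbd₁ : BetaBd σ t₁ ω₁ β₁)
    (hβ₂ : IsBeta σ t₂ ρ₂ ω₂ β₂) (hbd₂ : BetaBd σ t₂ ω₂ β₂)
    (hloc : ∀ (R : ℝ) (Ω : Set (GL (Fin m) E)), IsCompact Ω →
      ∫⁻ g in Ω, MR μ σ t₁ t₂ R g ∂μ < ⊤)
    (f : Sch (GL (Fin m) E) ℂ) (c' : S₂) (b : S₁) :
    ∫ g, f.1 g * Dker μ ϖ t₂ β₁ β₂ p r g c' b ∂μ =
      ∫ h in Gfin m ϖ, β₁ (p h⁻¹) b * ∫ g, f.1 g * β₂ (r (th t₂ (h * g))) c' ∂μ ∂μ := sorry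

/-- G3. The kernel identity. -/
theorem ker_identity (hm : 0 < m) (hϖ : ad (scl m ϖ) < 1) (hq : QuadDatum σ δ d) (ht₁ : SkT σ t₁) (ht₂ : SkT σ t₂)
    {π : GL (Fin m) E →* Module.End ℂ V} (hπ : IsSmoothRep π)
    (B : V →ₗ[ℂ] V →ₗ[ℂ] ℂ) (hB1 : ∀ b, (∀ a, B a b = 0) → b = 0)
    (hB : ∀ g a b, B (π g a) b = B a (π (th t₂ g) b))
    {w' v₁ : V} (hS : ∀ w (ξ : V →ₗ[ℂ] ℂ),
      ∫ h in Gfin m ϖ, B (π h w) v₁ * ξ (π h⁻¹ w') ∂μ = ξ w)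
    (lam₁ : V →ₗ[ℂ] S₁) (lam₂ : V →ₗ[ℂ] S₂)
    (hp : IsP σ t₁ ω₁ χ (fun g => lam₁ (π g w'))) (hr : IsP σ t₂ ω₂ χ (fun g => lam₂ (π g v₁)))
    (hβ₁ : IsBeta σ t₁ ρ₁ ω₁ β₁) (hbd₁ : BetaBd σ t₁ ω₁ β₁)
    (hβ₂ : IsBeta σ t₂ ρ₂ ω₂ β₂) (hbd₂ : BetaBd σ t₂ ω₂ β₂)
    (hloc : ∀ (R : ℝ) (Ω : Set (GL (Fin m) E)), IsCompact Ω →
      ∫⁻ g in Ω, MR μ σ t₁ t₂ R g ∂μ < ⊤)
    (w₁ v₂ : V) (f : Sch (GL (Fin m) E) ℂ) (hf : ∀ w, Hk.hk μ hπ f w = B w v₂ • w₁)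
    (c' : S₂) (b : S₁) :
    ∫ g, f.1 g * Dker μ ϖ t₂ β₁ β₂ (fun g => lam₁ (π g w')) (fun g => lam₂ (π g v₁)) g c' b ∂μ =
      β₁ (lam₁ w₁) b * β₂ (lam₂ v₂) c' := sorry

end G3

/-! ### G4 (helper22, helper26), file Mo/Conv.lean -/

section G4

variable [MeasurableSpace (GL (Fin m) E)] [BorelSpace (GL (Fin m) E)]
  (μ : Measure (GL (Fin m) E)) [μ.IsHaarMeasure]

theorem MR_loc (hm : 0 < m) (hq : QuadDatum σ δ d) (ht₁ : SkT σ t₁) (ht₂ : SkT σ t₂) (R : ℝ)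
    (Ω : Set (GL (Fin m) E)) (hΩ : IsCompact Ω) : ∫⁻ g in Ω, MR μ σ t₁ t₂ R g ∂μ < ⊤ := sorry

end G4

/-! ### G5 (helper69, helper9), files Mo/WeilForm.lean, Mo/WeilBound.lean -/

section G5

variable {ψ : AddChar F Circle} {χμ : Eˣ →* ℂˣ}
  {ρ : (Fin m → E) → Module.End ℂ S} {ω : unitary σ (Dg t) →* Module.End ℂ S}

theorem exists_beta (hm : 0 < m) (hq : QuadDatum σ δ d) (hψ : Continuous ψ) (hψ1 : ψ ≠ 1)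
    (hμ : ConjSymplectic F χμ) (ht : SkT σ t) (hW : IsWeil σ (Dg t) ψ χμ ρ ω) :
    ∃ β : S →ₗ[ℂ] S →ₗ[ℂ] ℂ, IsBeta σ t ρ ω β ∧ BetaBd σ t ω β := sorry

end G5

/-! ### G7 (helper29), file Mo/Sym.lean; G8 (helper98), file Mo/Vanish.lean -/

section G78

variable [MeasurableSpace (GL (Fin m) E)] [BorelSpace (GL (Fin m) E)]
  (μ : Measure (GL (Fin m) E)) [μ.IsHaarMeasure]
  {ψ : AddChar F Circle} {χμ : Eˣ →* ℂˣ}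

theorem sym_case (hq : QuadDatum σ δ d) (hψ : Continuous ψ) (hψ1 : ψ ≠ 1)
    (hμ : ConjSymplectic F χμ) (ht : SkT σ t)
    {ρ : (Fin m → E) → Module.End ℂ S} {ω : unitary σ (Dg t) →* Module.End ℂ S}
    (hW : IsWeil σ (Dg t) ψ χμ ρ ω) {β : S →ₗ[ℂ] S →ₗ[ℂ] ℂ} (hβ : IsBeta σ t ρ ω β)
    (hbd : BetaBd σ t ω β)
    {χ : Eˣ → ℂ} {p r : GL (Fin m) E → S} (hp : IsP σ t ω χ p) (hr : IsP σ t ω χ r)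
    (hm : 0 < m) {ϖ : Eˣ} (hϖ : ad (scl m ϖ) < 1) (hgood : ∀ᵐ g ∂μ, g ∈ GoodG μ σ t t) :
    ∀ᵐ g ∂μ, ∀ c' b, Dker μ ϖ t β β p r (th t g) c' b = Dker μ ϖ t β β p r g b c' := sorry

theorem van_case (hq : QuadDatum σ δ d) (hψ : Continuous ψ) (hψ1 : ψ ≠ 1)
    (hμ : ConjSymplectic F χμ) (ht₁ : SkT σ t₁) (ht₂ : SkT σ t₂)
    (hiso : ¬ ∃ g : GL (Fin m) E, (g : Matrix (Fin m) (Fin m) E).transpose * Dg t₁ *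
      (g : Matrix (Fin m) (Fin m) E).map σ = Dg t₂)
    {ρ₁ : (Fin m → E) → Module.End ℂ S₁} {ω₁ : unitary σ (Dg t₁) →* Module.End ℂ S₁}
    {ρ₂ : (Fin m → E) → Module.End ℂ S₂} {ω₂ : unitary σ (Dg t₂) →* Module.End ℂ S₂}
    (hW₁ : IsWeil σ (Dg t₁) ψ χμ ρ₁ ω₁) (hW₂ : IsWeil σ (Dg t₂) ψ χμ ρ₂ ω₂)
    {β₁ : S₁ →ₗ[ℂ] S₁ →ₗ[ℂ] ℂ} {β₂ : S₂ →ₗ[ℂ] S₂ →ₗ[ℂ] ℂ}
    (hβ₁ : IsBeta σ t₁ ρ₁ ω₁ β₁) (hbd₁ : BetaBd σ t₁ ω₁ β₁)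
    (hβ₂ : IsBeta σ t₂ ρ₂ ω₂ β₂) (hbd₂ : BetaBd σ t₂ ω₂ β₂)
    {χ : Eˣ → ℂ} {p : GL (Fin m) E → S₁} {r : GL (Fin m) E → S₂} (hp : IsP σ t₁ ω₁ χ p)
    (hr : IsP σ t₂ ω₂ χ r) (hm : 0 < m) {ϖ : Eˣ} (hϖ : ad (scl m ϖ) < 1)
    (hgood : ∀ᵐ g ∂μ, g ∈ GoodG μ σ t₁ t₂) :
    ∀ᵐ g ∂μ, ∀ c' b, Dker μ ϖ t₂ β₁ β₂ p r g c' b = 0 := sorry

end G78

/-! ### G9 (helper8), file Mo/Final.lean: the interface with Part 1 -/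

section G9

variable {ψ : AddChar F Circle} {χμ : Eˣ →* ℂˣ} {H H₁ H₂ : Matrix (Fin m) (Fin m) E}
  {ρ : (Fin m → E) → Module.End ℂ S} {ω : unitary σ H →* Module.End ℂ S}
  {ρ₁ : (Fin m → E) → Module.End ℂ S₁} {ω₁ : unitary σ H₁ →* Module.End ℂ S₁}
  {ρ₂ : (Fin m → E) → Module.End ℂ S₂} {ω₂ : unitary σ H₂ →* Module.End ℂ S₂}

/-- (MO)(a). -/
theorem mo_isom (hq : QuadDatum σ δ d) (hψ : Continuous ψ) (hψ1 : ψ ≠ 1)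
    (hμ : ConjSymplectic F χμ) (hm : 0 < m) (h₁ : IsSkew σ H₁) (h₂ : IsSkew σ H₂)
    (hW₁ : IsWeil σ H₁ ψ χμ ρ₁ ω₁) (hW₂ : IsWeil σ H₂ ψ χμ ρ₂ ω₂)
    {π : GL (Fin m) E →* Module.End ℂ V}
    (hπ : IsSmoothRep π) (hirr : IsIrrRep π) (hc : IsCusp π) (hu : UnitCentral π)
    (T₁ : V →ₗ[ℂ] S₁) (hT₁ : ∀ (u : unitary σ H₁) w, T₁ (π u.1 w) = ω₁ u (T₁ w)) (h0₁ : T₁ ≠ 0)
    (T₂ : V →ₗ[ℂ] S₂) (hT₂ : ∀ (u : unitary σ H₂) w, T₂ (π u.1 w) = ω₂ u (T₂ w)) (h0₂ : T₂ ≠ 0) :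
    ∃ g : GL (Fin m) E, (g : Matrix (Fin m) (Fin m) E).transpose * H₁ *
      (g : Matrix (Fin m) (Fin m) E).map σ = H₂ := sorry

/-- (MO)(b). -/
theorem mo_unique (hq : QuadDatum σ δ d) (hψ : Continuous ψ) (hψ1 : ψ ≠ 1)
    (hμ : ConjSymplectic F χμ) (hm : 0 < m) (h : IsSkew σ H) (hW : IsWeil σ H ψ χμ ρ ω)
    {π : GL (Fin m) E →* Module.End ℂ V}
    (hπ : IsSmoothRep π) (hirr : IsIrrRep π) (hc : IsCusp π) (hu : UnitCentral π)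
    (T₁ T₂ : V →ₗ[ℂ] S) (hT₁ : ∀ (u : unitary σ H) w, T₁ (π u.1 w) = ω u (T₁ w))
    (hT₂ : ∀ (u : unitary σ H) w, T₂ (π u.1 w) = ω u (T₂ w)) (h0 : T₁ ≠ 0) :
    ∃ c : ℂ, T₂ = c • T₁ := sorry

end G9

end SpW.MoTasks
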