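import Pool.Agent.Work.MP_3615d2_al.Mo.Transp
import Pool.Agent.Work.MP_3615d2_al.Mo.Defs

/-!
MP_3615d2_al, multiplicity one, G0b: reduction to diagonal Gram matrices.
-/

open MeasureTheory Metric Set Matrix

namespace SpW.Mo

variable {F E : Type} [NontriviallyNormedField F] [IsUltrametricDist F] [ProperSpace F]
  [NontriviallyNormedField E] [NormedAlgebra F E] [IsUltrametricDist E] [ProperSpace E]
  [MeasurableSpace E] [BorelSpace E]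
  {m : ℕ} {V S S₁ S₂ : Type} [AddCommGroup V] [Module ℂ V] [AddCommGroup S] [Module ℂ S]
  [AddCommGroup S₁] [Module ℂ S₁] [AddCommGroup S₂] [Module ℂ S₂]
  {σ : E ≃ₐ[F] E} {δ : E} {d : F} {ψ : AddChar F Circle} {χμ : Eˣ →* ℂˣ}
  {H H₁ H₂ : Matrix (Fin m) (Fin m) E}
  {ρ : (Fin m → E) → Module.End ℂ S} {ω : unitary σ H →* Module.End ℂ S}
  {ρ₁ : (Fin m → E) → Module.End ℂ S₁} {ω₁ : unitary σ H₁ →* Module.End ℂ S₁}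
  {ρ₂ : (Fin m → E) → Module.End ℂ S₂} {ω₂ : unitary σ H₂ →* Module.End ℂ S₂}
  {π : GL (Fin m) E →* Module.End ℂ V}

omit [MeasurableSpace E] [BorelSpace E] in
/-- Every form is diagonal in suitable coordinates. -/
theorem exists_Dg (hq : QuadDatum σ δ d) (hH : IsSkew σ H) :
    ∃ (P : GL (Fin m) E) (t : Fin m → Eˣ), SkT σ t ∧ congH σ P H = Dg t := by
  obtain ⟨P, x, h1, h2, h3⟩ := exists_diagH hq hH
  exact ⟨P, fun i => Units.mk0 (x i) (h2 i), h3, h1⟩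

omit [IsUltrametricDist F] [ProperSpace F] [IsUltrametricDist E] [ProperSpace E]
  [MeasurableSpace E] [BorelSpace E] in
theorem isom_of_congH (P : GL (Fin m) E) (Q : GL (Fin m) E)
    (h : ∃ g : GL (Fin m) E, (g : Matrix (Fin m) (Fin m) E).transpose * congH σ P H₁ *
      (g : Matrix (Fin m) (Fin m) E).map σ = congH σ Q H₂) :
    ∃ g : GL (Fin m) E, (g : Matrix (Fin m) (Fin m) E).transpose * H₁ *
      (g : Matrix (Fin m) (Fin m) E).map σ = H₂ := by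
  obtain ⟨g, hg⟩ := h
  have hQ : (Q : Matrix (Fin m) (Fin m) E) * ((Q⁻¹ : GL (Fin m) E) : Matrix (Fin m) (Fin m) E) =
      1 := by rw [← Units.val_mul, mul_inv_cancel, Units.val_one]
  have hQ1 : (((Q⁻¹ : GL (Fin m) E) : Matrix (Fin m) (Fin m) E)).transpose *
      (Q : Matrix (Fin m) (Fin m) E).transpose = 1 := by
    rw [← Matrix.transpose_mul, hQ, Matrix.transpose_one]
  have hQ2 : (Q : Matrix (Fin m) (Fin m) E).map σ *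
      (((Q⁻¹ : GL (Fin m) E) : Matrix (Fin m) (Fin m) E)).map σ = 1 := by
    rw [← Matrix.map_mul, hQ, Matrix.map_one σ (map_zero σ) (map_one σ)]
  refine ⟨P * g * Q⁻¹, ?_⟩
  rw [Units.val_mul, Units.val_mul, Matrix.map_mul, Matrix.map_mul, Matrix.transpose_mul,
    Matrix.transpose_mul]
  unfold congH at hg
  calc _ = (((Q⁻¹ : GL (Fin m) E) : Matrix (Fin m) (Fin m) E)).transpose *
        ((g : Matrix (Fin m) (Fin m) E).transpose *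
        ((P : Matrix (Fin m) (Fin m) E).transpose * H₁ * (P : Matrix (Fin m) (Fin m) E).map σ) *
        (g : Matrix (Fin m) (Fin m) E).map σ) *
        (((Q⁻¹ : GL (Fin m) E) : Matrix (Fin m) (Fin m) E)).map σ := by
        simp only [Matrix.mul_assoc]
    _ = ((((Q⁻¹ : GL (Fin m) E) : Matrix (Fin m) (Fin m) E)).transpose *
      (Q : Matrix (Fin m) (Fin m) E).transpose) * H₂ * ((Q : Matrix (Fin m) (Fin m) E).map σ *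
      (((Q⁻¹ : GL (Fin m) E) : Matrix (Fin m) (Fin m) E)).map σ) := by
        rw [hg]
        simp only [Matrix.mul_assoc]
    _ = H₂ := by rw [hQ1, hQ2, Matrix.one_mul, Matrix.mul_one]

/-- (MO)(a), reduction to diagonal forms. -/
theorem mo_isom_of_diag (hq : QuadDatum σ δ d) (hψ : Continuous ψ) (hψ1 : ψ ≠ 1)
    (h₁ : IsSkew σ H₁) (h₂ : IsSkew σ H₂)
    (hdiag : ∀ (t₁ t₂ : Fin m → Eˣ), SkT σ t₁ → SkT σ t₂ →
      ∀ (ρ₁ : (Fin m → E) → Module.End ℂ S₁) (ω₁ : unitary σ (Dg t₁) →* Module.End ℂ S₁)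
        (ρ₂ : (Fin m → E) → Module.End ℂ S₂) (ω₂ : unitary σ (Dg t₂) →* Module.End ℂ S₂),
        IsWeil σ (Dg t₁) ψ χμ ρ₁ ω₁ → IsWeil σ (Dg t₂) ψ χμ ρ₂ ω₂ →
        ∀ (T₁ : V →ₗ[ℂ] S₁), (∀ (u : unitary σ (Dg t₁)) w, T₁ (π u.1 w) = ω₁ u (T₁ w)) →
        T₁ ≠ 0 → ∀ (T₂ : V →ₗ[ℂ] S₂),
        (∀ (u : unitary σ (Dg t₂)) w, T₂ (π u.1 w) = ω₂ u (T₂ w)) → T₂ ≠ 0 →
        ∃ g : GL (Fin m) E, (g : Matrix (Fin m) (Fin m) E).transpose * Dg t₁ *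
          (g : Matrix (Fin m) (Fin m) E).map σ = Dg t₂)
    (hW₁ : IsWeil σ H₁ ψ χμ ρ₁ ω₁) (hW₂ : IsWeil σ H₂ ψ χμ ρ₂ ω₂)
    (T₁ : V →ₗ[ℂ] S₁) (hT₁ : ∀ (u : unitary σ H₁) w, T₁ (π u.1 w) = ω₁ u (T₁ w)) (h0₁ : T₁ ≠ 0)
    (T₂ : V →ₗ[ℂ] S₂) (hT₂ : ∀ (u : unitary σ H₂) w, T₂ (π u.1 w) = ω₂ u (T₂ w)) (h0₂ : T₂ ≠ 0) :
    ∃ g : GL (Fin m) E, (g : Matrix (Fin m) (Fin m) E).transpose * H₁ *
      (g : Matrix (Fin m) (Fin m) E).map σ = H₂ := by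
  have key : ∀ (K₁ K₂ : Matrix (Fin m) (Fin m) E) (t₁ t₂ : Fin m → Eˣ), K₁ = Dg t₁ →
      K₂ = Dg t₂ → SkT σ t₁ → SkT σ t₂ →
      ∀ (ρ₁ : (Fin m → E) → Module.End ℂ S₁) (ω₁ : unitary σ K₁ →* Module.End ℂ S₁)
        (ρ₂ : (Fin m → E) → Module.End ℂ S₂) (ω₂ : unitary σ K₂ →* Module.End ℂ S₂),
        IsWeil σ K₁ ψ χμ ρ₁ ω₁ → IsWeil σ K₂ ψ χμ ρ₂ ω₂ →
        ∀ (T₁ : V →ₗ[ℂ] S₁), (∀ (u : unitary σ K₁) w, T₁ (π u.1 w) = ω₁ u (T₁ w)) →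
        T₁ ≠ 0 → ∀ (T₂ : V →ₗ[ℂ] S₂),
        (∀ (u : unitary σ K₂) w, T₂ (π u.1 w) = ω₂ u (T₂ w)) → T₂ ≠ 0 →
        ∃ g : GL (Fin m) E, (g : Matrix (Fin m) (Fin m) E).transpose * K₁ *
          (g : Matrix (Fin m) (Fin m) E).map σ = K₂ := by
    rintro _ _ t₁ t₂ rfl rfl ht₁ ht₂ ρ₁ ω₁ ρ₂ ω₂ hW₁ hW₂ T₁ hT₁ h0₁ T₂ hT₂ h0₂
    exact hdiag t₁ t₂ ht₁ ht₂ ρ₁ ω₁ ρ₂ ω₂ hW₁ hW₂ T₁ hT₁ h0₁ T₂ hT₂ h0₂
  obtain ⟨P, t₁, ht₁, hP⟩ := exists_Dg hq h₁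
  obtain ⟨Q, t₂, ht₂, hQ⟩ := exists_Dg hq h₂
  have hne : ∀ (S : Type) [AddCommGroup S] [Module ℂ S] (T : V →ₗ[ℂ] S) (g : GL (Fin m) E),
      T ≠ 0 → T.comp (π g) ≠ 0 := by
    intro S _ _ T g hT h
    apply hT
    ext w
    have h1 := LinearMap.congr_fun h (π g⁻¹ w)
    rwa [LinearMap.comp_apply, ← Module.End.mul_apply, ← map_mul, mul_inv_cancel, map_one,
      Module.End.one_apply] at h1
  exact isom_of_congH P Q (key _ _ t₁ t₂ hP hQ ht₁ ht₂ _ _ _ _ (isWeil_congH hq h₁ hψ hψ1 P hW₁)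
    (isWeil_congH hq h₂ hψ hψ1 Q hW₂) (T₁.comp (π P)) (fun u w => hom_congU P H₁ ω₁ π T₁ hT₁ u w)
    (hne S₁ T₁ P h0₁) (T₂.comp (π Q)) (fun u w => hom_congU Q H₂ ω₂ π T₂ hT₂ u w)
    (hne S₂ T₂ Q h0₂))

/-- (MO)(b), reduction to diagonal forms. -/
theorem mo_unique_of_diag (hq : QuadDatum σ δ d) (hψ : Continuous ψ) (hψ1 : ψ ≠ 1)
    (h : IsSkew σ H)
    (hdiag : ∀ (t : Fin m → Eˣ), SkT σ t →
      ∀ (ρ : (Fin m → E) → Module.End ℂ S) (ω : unitary σ (Dg t) →* Module.End ℂ S),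
        IsWeil σ (Dg t) ψ χμ ρ ω →
        ∀ (T₁ T₂ : V →ₗ[ℂ] S), (∀ (u : unitary σ (Dg t)) w, T₁ (π u.1 w) = ω u (T₁ w)) →
        (∀ (u : unitary σ (Dg t)) w, T₂ (π u.1 w) = ω u (T₂ w)) → T₁ ≠ 0 →
        ∃ c : ℂ, T₂ = c • T₁)
    (hW : IsWeil σ H ψ χμ ρ ω)
    (T₁ T₂ : V →ₗ[ℂ] S) (hT₁ : ∀ (u : unitary σ H) w, T₁ (π u.1 w) = ω u (T₁ w))
    (hT₂ : ∀ (u : unitary σ H) w, T₂ (π u.1 w) = ω u (T₂ w)) (h0 : T₁ ≠ 0) :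
    ∃ c : ℂ, T₂ = c • T₁ := by
  have key : ∀ (K : Matrix (Fin m) (Fin m) E) (t : Fin m → Eˣ), K = Dg t → SkT σ t →
      ∀ (ρ : (Fin m → E) → Module.End ℂ S) (ω : unitary σ K →* Module.End ℂ S),
        IsWeil σ K ψ χμ ρ ω →
        ∀ (T₁ T₂ : V →ₗ[ℂ] S), (∀ (u : unitary σ K) w, T₁ (π u.1 w) = ω u (T₁ w)) →
        (∀ (u : unitary σ K) w, T₂ (π u.1 w) = ω u (T₂ w)) → T₁ ≠ 0 →
        ∃ c : ℂ, T₂ = c • T₁ := by
    rintro _ t rfl ht ρ ω hW T₁ T₂ hT₁ hT₂ h0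
    exact hdiag t ht ρ ω hW T₁ T₂ hT₁ hT₂ h0
  obtain ⟨P, t, ht, hP⟩ := exists_Dg hq h
  have hne : T₁.comp (π P) ≠ 0 := by
    intro h
    apply h0
    ext w
    have h1 := LinearMap.congr_fun h (π P⁻¹ w)
    rwa [LinearMap.comp_apply, ← Module.End.mul_apply, ← map_mul, mul_inv_cancel, map_one,
      Module.End.one_apply] at h1
  obtain ⟨c, hc⟩ := key _ t hP ht _ _ (isWeil_congH hq h hψ hψ1 P hW) (T₁.comp (π P))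
    (T₂.comp (π P)) (fun u w => hom_congU P H ω π T₁ hT₁ u w)
    (fun u w => hom_congU P H ω π T₂ hT₂ u w) hne
  refine ⟨c, ?_⟩
  ext w
  have h1 := LinearMap.congr_fun hc (π P⁻¹ w)
  rwa [LinearMap.comp_apply, LinearMap.smul_apply, LinearMap.comp_apply, ← Module.End.mul_apply,
    ← map_mul, mul_inv_cancel, map_one, Module.End.one_apply] at h1

end SpW.Mo
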