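import Mathlib

/-!
# Comparison of Haar measures through a chart which matches cosets

`A` additive group with an open subgroup `S`, `G` group with an open subgroup `L`, `c : A → G` with
`c(X)⁻¹c(Y) ∈ L ↔ Y - X ∈ S` on a compact set `B = B + S`: `c(B)L` and `B` have proportional
measures.
-/

open MeasureTheory MeasureTheory.Measure Filter Topology
open scoped NNReal ENNReal

namespace SpW.UH

section count

variable {A : Type} [AddCommGroup A] [TopologicalSpace A] [IsTopologicalAddGroup A]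
  [MeasurableSpace A] [BorelSpace A]
  {G : Type} [Group G] [TopologicalSpace G] [IsTopologicalGroup G] [MeasurableSpace G]
  [BorelSpace G]

theorem count_abs (μ : Measure A) [μ.IsAddLeftInvariant] (ν : Measure G) [ν.IsMulLeftInvariant]
    (S : AddSubgroup A) (hS : IsOpen (S : Set A)) (L : Subgroup G) (hL : IsOpen (L : Set G))
    (B : Set A) (hB : IsCompact B) (hsat : ∀ X ∈ B, ∀ Y ∈ S, X + Y ∈ B) (c : A → G)
    (hc : ∀ X ∈ B, ∀ Y ∈ B, (c X)⁻¹ * c Y ∈ L ↔ Y - X ∈ S) :
    ν {g | ∃ X ∈ B, (c X)⁻¹ * g ∈ L} * μ (S : Set A) = μ B * ν (L : Set G) := by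
  classical
  have hdisc : DiscreteTopology (A ⧸ S) := QuotientAddGroup.discreteTopology hS
  set QB : Set (A ⧸ S) := (fun X : A => (X : A ⧸ S)) '' B with hQB
  have hfin : QB.Finite := (hB.image QuotientAddGroup.continuous_mk).finite_of_discrete
  have hrep : ∀ q : A ⧸ S, ∃ X : A, q ∈ QB → X ∈ B ∧ (X : A ⧸ S) = q := by
    intro q
    by_cases hq : q ∈ QB
    · obtain ⟨X, hX, h⟩ := hq
      exact ⟨X, fun _ => ⟨hX, h⟩⟩
    · exact ⟨0, fun h => absurd h hq⟩
  choose s hs using hrep
  have hmk : ∀ X Y : A, ((X : A ⧸ S) = (Y : A ⧸ S)) ↔ Y - X ∈ S := by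
    intro X Y
    rw [QuotientAddGroup.eq, neg_add_eq_sub]
  -- additive side
  have h1 : B = ⋃ q ∈ hfin.toFinset, {X : A | (X : A ⧸ S) = q} := by
    ext X
    simp only [Set.mem_iUnion, Set.Finite.mem_toFinset, Set.mem_ofPred_eq, exists_prop]
    constructor
    · intro hX
      exact ⟨_, ⟨X, hX, rfl⟩, rfl⟩
    · rintro ⟨q, hq, hXq⟩
      have h2 := hs q hq
      have h3 : X - s q ∈ S := (hmk _ _).1 (h2.2.trans hXq.symm)
      have h4 := hsat _ h2.1 _ h3
      rwa [add_sub_cancel] at h4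
  have hmeasA : ∀ q, MeasurableSet {X : A | (X : A ⧸ S) = q} := by
    intro q
    have : IsOpen ((fun X : A => (X : A ⧸ S)) ⁻¹' {q}) :=
      (isOpen_discrete _).preimage QuotientAddGroup.continuous_mk
    exact this.measurableSet
  have h5 : ∀ q ∈ hfin.toFinset, μ {X : A | (X : A ⧸ S) = q} = μ (S : Set A) := by
    intro q hq
    have h2 := hs q (hfin.mem_toFinset.1 hq)
    have h3 : {X : A | (X : A ⧸ S) = q} = (fun X => -s q + X) ⁻¹' (S : Set A) := by
      ext X
      show (X : A ⧸ S) = q ↔ -s q + X ∈ S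
      rw [neg_add_eq_sub, ← hmk, h2.2]
      exact eq_comm
    rw [h3, measure_preimage_add]
  have h6 : μ B = (hfin.toFinset.card : ℝ≥0∞) * μ (S : Set A) := by
    conv_lhs => rw [h1]
    rw [measure_biUnion_finset]
    · rw [Finset.sum_congr rfl h5, Finset.sum_const, nsmul_eq_mul]
    · intro q _ q' _ hqq
      refine Set.disjoint_left.2 fun X hX hX' => hqq ?_
      exact (show (X : A ⧸ S) = q from hX).symm.trans hX'
    · exact fun q _ => hmeasA q
  -- multiplicative side
  have h7 : {g | ∃ X ∈ B, (c X)⁻¹ * g ∈ L} =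
      ⋃ q ∈ hfin.toFinset, {g : G | (c (s q))⁻¹ * g ∈ L} := by
    ext g
    simp only [Set.mem_iUnion, Set.Finite.mem_toFinset, Set.mem_ofPred_eq, exists_prop]
    constructor
    · rintro ⟨X, hX, hg⟩
      have hq : (X : A ⧸ S) ∈ QB := ⟨X, hX, rfl⟩
      refine ⟨_, hq, ?_⟩
      have h2 := hs _ hq
      have h3 : X - s (X : A ⧸ S) ∈ S := (hmk _ _).1 h2.2
      have h4 := (hc _ h2.1 _ hX).2 h3
      have h8 := L.mul_mem h4 hg
      rwa [mul_assoc, mul_inv_cancel_left] at h8
    · rintro ⟨q, hq, hg⟩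
      exact ⟨s q, (hs q hq).1, hg⟩
  have h8 : ∀ q ∈ hfin.toFinset, ν {g : G | (c (s q))⁻¹ * g ∈ L} = ν (L : Set G) := by
    intro q _
    have h3 : {g : G | (c (s q))⁻¹ * g ∈ L} = (fun g => (c (s q))⁻¹ * g) ⁻¹' (L : Set G) := rfl
    rw [h3, measure_preimage_mul]
  have h9 : ν {g | ∃ X ∈ B, (c X)⁻¹ * g ∈ L} = (hfin.toFinset.card : ℝ≥0∞) * ν (L : Set G) := by
    rw [h7, measure_biUnion_finset]
    · rw [Finset.sum_congr rfl h8, Finset.sum_const, nsmul_eq_mul]
    · intro q hq q' hq' hqq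
      refine Set.disjoint_left.2 fun g hg hg' => hqq ?_
      have hq1 := hs q (hfin.mem_toFinset.1 hq)
      have hq2 := hs q' (hfin.mem_toFinset.1 hq')
      have h10 : (c (s q))⁻¹ * c (s q') ∈ L := by
        have h11 := L.mul_mem (show (c (s q))⁻¹ * g ∈ L from hg)
          (L.inv_mem (show (c (s q'))⁻¹ * g ∈ L from hg'))
        rw [mul_inv_rev, inv_inv, mul_assoc, mul_inv_cancel_left] at h11
        exact h11
      have h12 := (hmk _ _).2 ((hc _ hq1.1 _ hq2.1).1 h10)
      rw [hq1.2, hq2.2] at h12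
      exact h12
    · intro q _
      have : IsOpen ((fun g : G => (c (s q))⁻¹ * g) ⁻¹' (L : Set G)) :=
        hL.preimage (continuous_const.mul continuous_id)
      exact this.measurableSet
  rw [h6, h9]
  ring

end count

section mod

variable {G : Type} [Group G] [TopologicalSpace G] [IsTopologicalGroup G] [LocallyCompactSpace G]
  [MeasurableSpace G] [BorelSpace G]

/-- the modular character is `1` at `u` if `u⁻¹` conjugation preserves the measure of some compact
open subgroup -/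
theorem modular_one_of_conj (ν : Measure G) [ν.IsHaarMeasure] {L : Subgroup G}
    (hL : IsOpen (L : Set G)) (hLc : IsCompact (L : Set G)) (u : G)
    (h : ν {g | u⁻¹ * g * u ∈ L} = ν (L : Set G)) : modularCharacterFun u = 1 := by
  have hpos : ν (L : Set G) ≠ 0 := (hL.measure_pos ν ⟨1, L.one_mem⟩).ne'
  have hfin : ν (L : Set G) ≠ ⊤ := hLc.measure_lt_top.ne
  have h2 := measure_isHaarMeasure_eq_smul_of_isOpen (map (· * u) ν) ν hL
  rw [← modularCharacterFun_eq_haarScalarFactor ν u,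
    Measure.map_apply (measurable_mul_const u) hL.measurableSet] at h2
  have h3 : ν {g | u⁻¹ * g * u ∈ L} = ν ((fun x => x * u) ⁻¹' (L : Set G)) := by
    have h4 : {g | u⁻¹ * g * u ∈ L} = (fun g => u⁻¹ * g) ⁻¹' ((fun x => x * u) ⁻¹' (L : Set G)) :=
      rfl
    rw [h4, measure_preimage_mul]
  have h5 : (modularCharacterFun u : ℝ≥0∞) * ν (L : Set G) = 1 * ν (L : Set G) := by
    have h6 := h3.symm.trans h
    rw [h2, ENNReal.smul_def, smul_eq_mul] at h6
    rw [one_mul, h6]
  exact_mod_cast (ENNReal.mul_left_inj hpos hfin).1 h5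

theorem right_of_modular (h : ∀ u : G, modularCharacterFun u = 1) (ν : Measure G)
    [ν.IsHaarMeasure] [ν.Regular] : ν.IsMulRightInvariant := by
  refine ⟨fun g => ?_⟩
  have h1 : Regular (map (· * g) ν) := Regular.map (Homeomorph.mulRight g)
  have h2 := isMulLeftInvariant_eq_smul_of_regular (map (· * g) ν) ν
  rwa [← modularCharacterFun_eq_haarScalarFactor ν g, h g, one_smul] at h2

theorem inv_of_right (ν : Measure G) [ν.IsHaarMeasure] [ν.Regular] [ν.IsMulRightInvariant]
    {L : Subgroup G} (hL : IsOpen (L : Set G)) (hLc : IsCompact (L : Set G)) :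
    ν.IsInvInvariant := by
  refine ⟨?_⟩
  have hpos : ν (L : Set G) ≠ 0 := (hL.measure_pos ν ⟨1, L.one_mem⟩).ne'
  have hfin : ν (L : Set G) ≠ ⊤ := hLc.measure_lt_top.ne
  have h1 : Regular ν.inv := Regular.map (Homeomorph.inv G)
  have h2 : ν.inv = haarScalarFactor ν.inv ν • ν := isMulLeftInvariant_eq_smul_of_regular ν.inv ν
  have h3 : ν.inv (L : Set G) = ν (L : Set G) := by
    rw [Measure.inv_apply]
    congr 1
    ext x
    rw [Set.mem_inv, SetLike.mem_coe, inv_mem_iff, SetLike.mem_coe]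
  have h4 : ((haarScalarFactor ν.inv ν : ℝ≥0) : ℝ≥0∞) * ν (L : Set G) = 1 * ν (L : Set G) := by
    rw [one_mul]
    conv_rhs => rw [← h3, h2]
    rw [Measure.smul_apply, ENNReal.smul_def, smul_eq_mul]
  have h5 : haarScalarFactor ν.inv ν = 1 := by
    exact_mod_cast (ENNReal.mul_left_inj hpos hfin).1 h4
  rw [h5, one_smul] at h2
  exact h2

end mod

end SpW.UH
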