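import Pool.Agent.Work.MP_3615d2_al.Mo.Chart
import Pool.Agent.Work.MP_3615d2_al.Mo.UCount
import Pool.Agent.Work.MP_3615d2_al.ModDet

/-!
# Haar measure of a unitary group is right invariant and inversion invariant
-/

open MeasureTheory MeasureTheory.Measure Filter Topology
open scoped NNReal ENNReal

namespace SpW.UH

section top

variable {F E : Type} [NontriviallyNormedField F] [NontriviallyNormedField E]
  [IsUltrametricDist E] [NormedAlgebra F E] {σ : E ≃ₐ[F] E} {N : ℕ}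
  {H : Matrix (Fin N) (Fin N) E}

theorem bd_umat {r : ℝ} (hr1 : r < 1) {g : unitary σ H} (h : Bd r (umat g - 1)) :
    Bd 1 (umat g) := by
  have h1 := (h.mono hr1.le).add Bd.one
  rwa [sub_add_cancel] at h1

theorem bd_umat_inv {r : ℝ} (hr : 0 ≤ r) (hr1 : r < 1) {g : unitary σ H}
    (h : Bd r (umat g - 1)) : Bd 1 (umat g⁻¹) := by
  have h1 := h.neg.inv_one_sub hr hr1
  rw [show 1 - -(umat g - 1) = umat g by abel] at h1
  have h2 : (umat g)⁻¹ = umat g⁻¹ := Matrix.inv_eq_right_inv (um_mul_inv g)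
  rw [← h2]
  exact h1.2

/-- the congruence subgroup of radius `r` -/
def Lu (σ : E ≃ₐ[F] E) (H : Matrix (Fin N) (Fin N) E) (r : ℝ) (hr : 0 ≤ r) (hr1 : r < 1) :
    Subgroup (unitary σ H) where
  carrier := {g | Bd r (umat g - 1)}
  one_mem' := by
    show Bd r (umat (1 : unitary σ H) - 1)
    rw [um_one, sub_self]
    exact Bd.zero hr
  mul_mem' := by
    intro g h hg hh
    show Bd r (umat (g * h) - 1)
    have h1 : umat (g * h) - 1 = (umat g - 1) * umat h + (umat h - 1) := by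
      rw [um_mul, sub_mul, one_mul]
      abel
    rw [h1]
    exact (Bd.mul_right hr hg (bd_umat hr1 hh)).add hh
  inv_mem' := by
    intro g hg
    show Bd r (umat g⁻¹ - 1)
    have h1 : umat g⁻¹ - 1 = -(umat g⁻¹ * (umat g - 1)) := by
      rw [mul_sub, um_inv_mul, mul_one]
      abel
    rw [h1]
    exact (Bd.mul_left hr (bd_umat_inv hr hr1 hg) hg).neg

theorem mem_Lu {r : ℝ} {hr : 0 ≤ r} {hr1 : r < 1} {g : unitary σ H} :
    g ∈ Lu σ H r hr hr1 ↔ Bd r (umat g - 1) := Iff.rfl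

theorem Lu_isClosed (r : ℝ) (hr : 0 ≤ r) (hr1 : r < 1) :
    IsClosed (Lu σ H r hr hr1 : Set (unitary σ H)) := by
  have h1 : (Lu σ H r hr hr1 : Set (unitary σ H)) =
      ⋂ i, ⋂ j, {g | ‖(umat g - 1) i j‖ ≤ r} := by
    ext g
    simp only [Set.mem_iInter, Set.mem_ofPred_eq, SetLike.mem_coe, mem_Lu, Bd]
  rw [h1]
  refine isClosed_iInter fun i => isClosed_iInter fun j => ?_
  refine isClosed_le (continuous_norm.comp ?_) continuous_const
  exact (continuous_apply j).comp ((continuous_apply i).comp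
    (cO_umat_continuous.sub continuous_const))

theorem Lu_isOpen (r : ℝ) (hr : 0 < r) (hr1 : r < 1) :
    IsOpen (Lu σ H r hr.le hr1 : Set (unitary σ H)) := by
  refine Subgroup.isOpen_of_mem_nhds _ (g := 1) ?_
  have h1 : Continuous fun g : unitary σ H => umat g - 1 :=
    cO_umat_continuous.sub continuous_const
  have h2 : ∀ i j, ∀ᶠ g in 𝓝 (1 : unitary σ H), ‖(umat g - 1) i j‖ ≤ r := by
    intro i j
    have h3 : Continuous fun g : unitary σ H => ‖(umat g - 1) i j‖ :=
      continuous_norm.comp ((continuous_apply j).comp ((continuous_apply i).comp h1))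
    have h4 : ‖(umat (1 : unitary σ H) - 1) i j‖ < r := by
      rw [um_one, sub_self, Matrix.zero_apply, norm_zero]
      exact hr
    exact (h3.continuousAt.eventually_lt continuousAt_const h4).mono fun _ h => h.le
  have h5 : ∀ᶠ g in 𝓝 (1 : unitary σ H), ∀ i j, ‖(umat g - 1) i j‖ ≤ r :=
    eventually_all.2 fun i => eventually_all.2 fun j => h2 i j
  exact h5

variable [ProperSpace F] [ProperSpace E]

theorem Lu_isCompact (r : ℝ) (hr : 0 ≤ r) (hr1 : r < 1) :
    IsCompact (Lu σ H r hr hr1 : Set (unitary σ H)) :=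
  cO_compact_of_bdd _ (Lu_isClosed r hr hr1) 1 fun _ hg i j =>
    ⟨bd_umat hr1 hg i j, bd_umat_inv hr hr1 hg i j⟩

/-- a compact open subgroup -/
noncomputable def Lh (σ : E ≃ₐ[F] E) (H : Matrix (Fin N) (Fin N) E) : Subgroup (unitary σ H) :=
  Lu σ H (1 / 2) (by norm_num) (by norm_num)

omit [ProperSpace F] [ProperSpace E] in
theorem Lh_isOpen : IsOpen (Lh σ H : Set (unitary σ H)) :=
  Lu_isOpen (1 / 2) (by norm_num) (by norm_num)

theorem Lh_isCompact : IsCompact (Lh σ H : Set (unitary σ H)) :=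
  Lu_isCompact (1 / 2) (by norm_num) (by norm_num)

instance lc_unitary : LocallyCompactSpace (unitary σ H) :=
  Lh_isCompact.locallyCompactSpace_of_mem_nhds_of_group
    (Lh_isOpen.mem_nhds (one_mem (Lh σ H)))

instance sc_unitary : SecondCountableTopology (unitary σ H) := by
  have h1 : SecondCountableTopology (Matrix (Fin N) (Fin N) E) :=
    (inferInstance : SecondCountableTopology (Fin N → Fin N → E))
  have h2 : SecondCountableTopology (Matrix (Fin N) (Fin N) E)ᵐᵒᵖ :=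
    MulOpposite.opHomeomorph.symm.isEmbedding.secondCountableTopology
  have h3 : SecondCountableTopology (GL (Fin N) E) :=
    Units.isEmbedding_embedProduct.secondCountableTopology
  exact Topology.IsEmbedding.subtypeVal.secondCountableTopology

end top

section dets

variable {F E : Type} [Field F] [Field E] [Algebra F E] {N : ℕ} {σ : E ≃ₐ[F] E} {δ : E} {d : F}
  {H : Matrix (Fin N) (Fin N) E}

theorem det_mulR (B : Matrix (Fin N) (Fin N) E) :
    LinearMap.det (LinearMap.mulRight E B) = B.det ^ N := by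
  have h1 : (LinearMap.mulRight E B : Matrix (Fin N) (Fin N) E →ₗ[E] Matrix (Fin N) (Fin N) E) =
      (LinearMap.pi (fun i : Fin N => (Matrix.toLin' B.transpose).comp (LinearMap.proj i)) :
        (Fin N → Fin N → E) →ₗ[E] (Fin N → Fin N → E)) := by
    apply LinearMap.ext
    intro X
    funext i j
    show (X * B) i j = (B.transpose).mulVec (X i) j
    rw [Matrix.mulVec_transpose]
    rfl
  rw [h1]
  refine (LinearMap.det_pi (fun _ : Fin N => Matrix.toLin' B.transpose)).trans ?_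
  rw [Finset.prod_const, Finset.card_univ, Fintype.card_fin, LinearMap.det_toLin',
    Matrix.det_transpose]

theorem det_mulL (A : Matrix (Fin N) (Fin N) E) :
    LinearMap.det (LinearMap.mulLeft E A) = A.det ^ N := by
  let e : Matrix (Fin N) (Fin N) E ≃ₗ[E] Matrix (Fin N) (Fin N) E :=
    Matrix.transposeLinearEquiv (Fin N) (Fin N) E E
  have h1 : (LinearMap.mulLeft E A : Matrix (Fin N) (Fin N) E →ₗ[E] Matrix (Fin N) (Fin N) E) =
      (e : Matrix (Fin N) (Fin N) E →ₗ[E] Matrix (Fin N) (Fin N) E) ∘ₗ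
        LinearMap.mulRight E A.transpose ∘ₗ
        (e.symm : Matrix (Fin N) (Fin N) E →ₗ[E] Matrix (Fin N) (Fin N) E) := by
    apply LinearMap.ext
    intro X
    show A * X = (X.transpose * A.transpose).transpose
    rw [Matrix.transpose_mul, Matrix.transpose_transpose, Matrix.transpose_transpose]
  rw [h1, LinearMap.det_conj, det_mulR, Matrix.det_transpose]

/-- conjugation on all matrices -/
noncomputable def adM (F : Type) [Field F] [Algebra F E] (g g' : Matrix (Fin N) (Fin N) E) :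
    Matrix (Fin N) (Fin N) E →ₗ[F] Matrix (Fin N) (Fin N) E :=
  ((LinearMap.mulLeft E g).comp (LinearMap.mulRight E g')).restrictScalars F

theorem adM_apply (g g' X : Matrix (Fin N) (Fin N) E) : adM F g g' X = g * X * g' := by
  show g * (X * g') = g * X * g'
  rw [mul_assoc]

theorem det_adM {g g' : Matrix (Fin N) (Fin N) E} (h : g * g' = 1) :
    LinearMap.det (adM F g g') = 1 := by
  rw [adM, LinearMap.det_restrictScalars, LinearMap.det_comp, det_mulL, det_mulR, ← mul_pow,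
    ← Matrix.det_mul, h, Matrix.det_one, one_pow, map_one]

/-- conjugation on the Lie algebra -/
def adU (g : unitary σ H) : lieU σ H ≃ₗ[F] lieU σ H where
  toFun X := ⟨umat g * X.1 * umat g⁻¹, conj_mem_lieU g X.2⟩
  invFun X := ⟨umat g⁻¹ * X.1 * umat g, by
    have h := conj_mem_lieU g⁻¹ X.2
    rwa [inv_inv] at h⟩
  left_inv X := by
    apply Subtype.ext
    show umat g⁻¹ * (umat g * X.1 * umat g⁻¹) * umat g = X.1
    calc umat g⁻¹ * (umat g * X.1 * umat g⁻¹) * umat g =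
        (umat g⁻¹ * umat g) * X.1 * (umat g⁻¹ * umat g) := by simp only [mul_assoc]
      _ = X.1 := by rw [um_inv_mul, one_mul, mul_one]
  right_inv X := by
    apply Subtype.ext
    show umat g * (umat g⁻¹ * X.1 * umat g) * umat g⁻¹ = X.1
    calc umat g * (umat g⁻¹ * X.1 * umat g) * umat g⁻¹ =
        (umat g * umat g⁻¹) * X.1 * (umat g * umat g⁻¹) := by simp only [mul_assoc]
      _ = X.1 := by rw [um_mul_inv, one_mul, mul_one]
  map_add' X Y := by
    apply Subtype.ext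
    show umat g * (X.1 + Y.1) * umat g⁻¹ = umat g * X.1 * umat g⁻¹ + umat g * Y.1 * umat g⁻¹
    rw [mul_add, add_mul]
  map_smul' a X := by
    apply Subtype.ext
    show umat g * (a • X.1) * umat g⁻¹ = a • (umat g * X.1 * umat g⁻¹)
    rw [Matrix.mul_smul, Matrix.smul_mul]

theorem adU_coe (g : unitary σ H) (X : lieU σ H) :
    ((adU g X : lieU σ H) : Matrix (Fin N) (Fin N) E) = umat g * X.1 * umat g⁻¹ := rfl

/-- `Lie × Lie ≃ M_N(E)`, `(X, Y) ↦ X + δ Y` -/
noncomputable def lieProd (hq : QuadDatum σ δ d) (hH : IsSkew σ H) :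
    (lieU σ H × lieU σ H) ≃ₗ[F] Matrix (Fin N) (Fin N) E :=
  LinearEquiv.ofBijective
    { toFun := fun p => p.1.1 + δ • p.2.1
      map_add' := fun p p' => by
        show p.1.1 + p'.1.1 + δ • (p.2.1 + p'.2.1) = _
        rw [smul_add]
        abel
      map_smul' := fun a p => by
        show a • p.1.1 + δ • (a • p.2.1) = a • (p.1.1 + δ • p.2.1)
        rw [smul_add, smul_comm] }
    (by
      constructor
      · rw [← LinearMap.ker_eq_bot, LinearMap.ker_eq_bot']
        intro p hp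
        have h1 := lie_inter hq hH p.1.2 p.2.2 hp
        exact Prod.ext (Subtype.ext h1.1) (Subtype.ext h1.2)
      · intro A
        obtain ⟨X, hX, Y, hY, h⟩ := exists_lie_add hq hH A
        exact ⟨(⟨X, hX⟩, ⟨Y, hY⟩), h.symm⟩)

theorem lieProd_apply (hq : QuadDatum σ δ d) (hH : IsSkew σ H) (p : lieU σ H × lieU σ H) :
    lieProd hq hH p = p.1.1 + δ • p.2.1 := rfl

/-- the adjoint action has determinant `± 1` -/
theorem det_adU_sq (hq : QuadDatum σ δ d) (hH : IsSkew σ H) (g : unitary σ H) :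
    LinearMap.det (adU g : lieU σ H →ₗ[F] lieU σ H) ^ 2 = 1 := by
  have hfin : FiniteDimensional F E := hq.finite
  have hfin2 : FiniteDimensional F (Matrix (Fin N) (Fin N) E) := FiniteDimensional.trans F E _
  let e := lieProd (F := F) hq hH
  have h1 : adM F (umat g) (umat g⁻¹) =
      (e : (lieU σ H × lieU σ H) →ₗ[F] Matrix (Fin N) (Fin N) E) ∘ₗ
        ((adU g : lieU σ H →ₗ[F] lieU σ H).prodMap (adU g : lieU σ H →ₗ[F] lieU σ H)) ∘ₗ
        (e.symm : Matrix (Fin N) (Fin N) E →ₗ[F] (lieU σ H × lieU σ H)) := by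
    apply LinearMap.ext
    intro A
    obtain ⟨p, rfl⟩ := e.surjective A
    show adM F (umat g) (umat g⁻¹) (e p) =
      e (((adU g : lieU σ H →ₗ[F] lieU σ H).prodMap (adU g : lieU σ H →ₗ[F] lieU σ H))
        (e.symm (e p)))
    rw [e.symm_apply_apply, adM_apply, lieProd_apply, LinearMap.prodMap_apply, lieProd_apply]
    show umat g * (p.1.1 + δ • p.2.1) * umat g⁻¹ =
      umat g * p.1.1 * umat g⁻¹ + δ • (umat g * p.2.1 * umat g⁻¹)
    rw [mul_add, add_mul, Matrix.mul_smul, Matrix.smul_mul]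
  have h2 := det_adM (F := F) (um_mul_inv g)
  rw [h1, LinearMap.det_conj, LinearMap.det_prodMap] at h2
  rw [sq]
  exact h2

end dets

section measure

variable {F E : Type} [NontriviallyNormedField F] [ProperSpace F] [NontriviallyNormedField E]
  [ProperSpace E] [IsUltrametricDist E] [NormedAlgebra F E] {σ : E ≃ₐ[F] E} {N : ℕ}
  {H : Matrix (Fin N) (Fin N) E} {δ : E} {d : F}

/-- the Lie algebra as a space of functions (this type carries the norm) -/
def lieP (σ : E ≃ₐ[F] E) (H : Matrix (Fin N) (Fin N) E) : Submodule F (Fin N → Fin N → E) :=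
  lieU σ H

/-- conjugation on the Lie algebra -/
def adP (g : unitary σ H) : lieP σ H ≃ₗ[F] lieP σ H := adU g

/-- the matrix of an element of the Lie algebra -/
def toM (X : lieP σ H) : Matrix (Fin N) (Fin N) E := X.1

theorem adP_coe (g : unitary σ H) (X : lieP σ H) :
    toM (adP g X) = umat g * toM X * umat g⁻¹ := rfl

/-- small elements of the Lie algebra -/
def Sa (σ : E ≃ₐ[F] E) (H : Matrix (Fin N) (Fin N) E) (r : ℝ) (hr : 0 ≤ r) :
    AddSubgroup (lieP σ H) where
  carrier := {X | Bd r (toM X)}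
  add_mem' := fun h h' => Bd.add h h'
  zero_mem' := Bd.zero hr
  neg_mem' := fun h => Bd.neg h

theorem mem_Sa {r : ℝ} {hr : 0 ≤ r} {X : lieP σ H} : X ∈ Sa σ H r hr ↔ Bd r (toM X) := Iff.rfl

theorem Sa_eq (r : ℝ) (hr : 0 ≤ r) :
    (Sa σ H r hr : Set (lieP σ H)) = Metric.closedBall 0 r := by
  ext X
  rw [Metric.mem_closedBall, dist_zero_right]
  show Bd r (toM X) ↔ ‖X.1‖ ≤ r
  rw [pi_norm_le_iff_of_nonneg hr]
  refine forall_congr' fun i => ?_
  rw [pi_norm_le_iff_of_nonneg hr]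
  rfl

theorem Sa_isOpen (r : ℝ) (hr : 0 < r) : IsOpen (Sa σ H r hr.le : Set (lieP σ H)) := by
  refine AddSubgroup.isOpen_of_mem_nhds _ (g := 0) ?_
  rw [Sa_eq]
  exact Metric.closedBall_mem_nhds _ hr

theorem md_eq_one_of_sq {x : F} (h : x ^ 2 = 1) : md x = 1 := by
  have h1 : md x ^ 2 = 1 := by rw [← md_pow, h, md_one]
  exact (pow_eq_one_iff_of_nonneg zero_le two_ne_zero).1 h1

theorem measure_adP [MeasurableSpace (lieP σ H)] [BorelSpace (lieP σ H)] (hq : QuadDatum σ δ d)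
    (hH : IsSkew σ H) (μ : Measure (lieP σ H)) [μ.IsAddHaarMeasure] (g : unitary σ H)
    (s : Set (lieP σ H)) : μ (adP g '' s) = μ s := by
  have hfin : FiniteDimensional F E := hq.finite
  have hfin2 : FiniteDimensional F (Fin N → Fin N → E) := FiniteDimensional.trans F E _
  have h1 : LinearMap.det (adP g : lieP σ H →ₗ[F] lieP σ H) ^ 2 = 1 := det_adU_sq hq hH g
  rw [image_linearEquiv μ (adP g) s, md_eq_one_of_sq h1, ENNReal.coe_one, one_mul]

end measure

section main

variable {F E : Type} [NontriviallyNormedField F] [NontriviallyNormedField E]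
  [IsUltrametricDist E] [NormedAlgebra F E] {σ : E ≃ₐ[F] E} {N : ℕ}
  {H : Matrix (Fin N) (Fin N) E} {δ : E} {d : F}

theorem cy_zero : cy (0 : Matrix (Fin N) (Fin N) E) = 1 := by
  rw [cy, add_zero, sub_zero, inv_one, mul_one]

theorem um_inj {g g' : unitary σ H} (h : umat g = umat g') : g = g' :=
  Subtype.ext (Units.ext h)

theorem bd_cy (h2 : (2 : E) ≠ 0) {s : ℝ} (hs : 0 ≤ s) (hs1 : s < 1) {g : unitary σ H}
    {X : Matrix (Fin N) (Fin N) E} (hg : umat g = cy X) (hX : Bd s X) :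
    Bd (‖(2 : E)‖ * s) (umat g - 1) := by
  have h1 : umat (1 : unitary σ H) = cy 0 := by rw [um_one, cy_zero]
  have h3 := (chart_compare h2 hs hs1 hs (Bd.zero hs) hX h1 hg).2 (by rwa [sub_zero])
  rwa [inv_one, one_mul] at h3

theorem norm_two_le : ‖(2 : E)‖ ≤ 1 := by
  rw [← one_add_one_eq_two]
  refine (IsUltrametricDist.norm_add_le_max _ _).trans ?_
  rw [norm_one, max_self]

theorem exists_bd (M : Matrix (Fin N) (Fin N) E) : ∃ C : ℝ, 1 ≤ C ∧ Bd C M := by
  refine ⟨1 + ∑ i, ∑ j, ‖M i j‖, ?_, fun i j => ?_⟩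
  · have : 0 ≤ ∑ i, ∑ j, ‖M i j‖ :=
      Finset.sum_nonneg fun i _ => Finset.sum_nonneg fun j _ => norm_nonneg _
    linarith
  · have h1 : ‖M i j‖ ≤ ∑ j, ‖M i j‖ :=
      Finset.single_le_sum (f := fun j => ‖M i j‖) (fun j _ => norm_nonneg _) (Finset.mem_univ j)
    have h2 : ∑ j, ‖M i j‖ ≤ ∑ i, ∑ j, ‖M i j‖ :=
      Finset.single_le_sum (f := fun i => ∑ j, ‖M i j‖)
        (fun i _ => Finset.sum_nonneg fun j _ => norm_nonneg _) (Finset.mem_univ i)
    linarith

variable [ProperSpace F] [ProperSpace E]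

/-- unitary groups are unimodular -/
theorem modular_one (hq : QuadDatum σ δ d) (hH : IsSkew σ H) (u : unitary σ H) :
    modularCharacterFun u = 1 := by
  have h2 := hq.two_E
  have hfin : FiniteDimensional F E := hq.finite
  have hfin2 : FiniteDimensional F (Fin N → Fin N → E) := FiniteDimensional.trans F E _
  have hprop : ProperSpace (lieP σ H) := FiniteDimensional.proper F (lieP σ H)
  let _ : MeasurableSpace (unitary σ H) := borel _
  have iU : BorelSpace (unitary σ H) := ⟨rfl⟩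
  let _ : MeasurableSpace (lieP σ H) := borel _
  have iL : BorelSpace (lieP σ H) := ⟨rfl⟩
  let ν : Measure (unitary σ H) := haar
  let μ : Measure (lieP σ H) := addHaar
  obtain ⟨C₁, hC₁, hb₁⟩ := exists_bd (umat u)
  obtain ⟨C₂, hC₂, hb₂⟩ := exists_bd (umat u⁻¹)
  -- radii
  set C : ℝ := C₁ * C₂ with hC
  have hC1 : 1 ≤ C := one_le_mul_of_one_le_of_one_le hC₁ hC₂
  have hC0 : 0 < C := lt_of_lt_of_le one_pos hC1
  set n : ℝ := 1 / 2 / C with hn
  set k : ℝ := n / C with hk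
  have hn0 : 0 < n := by positivity
  have hk0 : 0 < k := by positivity
  have hnr : n ≤ 1 / 2 := by
    rw [hn]
    exact div_le_self (by norm_num) hC1
  have hkn : k ≤ n := div_le_self hn0.le hC1
  have hn1 : n < 1 := lt_of_le_of_lt hnr (by norm_num)
  have hr0 : (0 : ℝ) ≤ 1 / 2 := by norm_num
  have hr1 : (1 / 2 : ℝ) < 1 := by norm_num
  have h2n : 0 < ‖(2 : E)‖ := norm_pos_iff.2 h2
  have hln1 : ‖(2 : E)‖ * n < 1 := by
    have := mul_le_of_le_one_left hn0.le (norm_two_le (E := E))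
    linarith
  have hlk1 : ‖(2 : E)‖ * k < 1 := by
    have := mul_le_of_le_one_left hk0.le (norm_two_le (E := E))
    linarith
  have hln0 : 0 < ‖(2 : E)‖ * n := by positivity
  have hlk0 : 0 < ‖(2 : E)‖ * k := by positivity
  have hCn : n * C = 1 / 2 := by
    rw [hn]
    field_simp
  have hCk : k * C = n := by
    rw [hk]
    field_simp
  -- the chart
  have hex : ∀ X : lieP σ H, ∃ g : unitary σ H, Bd (1 / 2) (toM X) → umat g = cy (toM X) := by
    intro X
    by_cases hX : Bd (1 / 2) (toM X)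
    · obtain ⟨g, hg⟩ := exists_chart h2 hr0 hr1 X.2 hX
      exact ⟨g, fun _ => hg⟩
    · exact ⟨1, fun h => absurd h hX⟩
  choose c hc using hex
  have hcmp : ∀ X Y : lieP σ H, Bd (1 / 2) (toM X) → Bd (1 / 2) (toM Y) →
      ((c X)⁻¹ * c Y ∈ Lu σ H (‖(2 : E)‖ * k) hlk0.le hlk1 ↔ Y - X ∈ Sa σ H k hk0.le) := by
    intro X Y hX hY
    exact chart_compare h2 hr0 hr1 hk0.le hX hY (hc X hX) (hc Y hY)
  -- conjugation
  have hconj : ∀ {s : ℝ} {X : Matrix (Fin N) (Fin N) E}, 0 ≤ s → Bd s X →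
      Bd (s * C) (umat u * X * umat u⁻¹) := by
    intro s X hs hX
    have h3 := (Bd.mul (zero_le_one.trans hC₁) hs hb₁ hX).mul (by positivity)
      (zero_le_one.trans hC₂) hb₂
    rwa [show C₁ * s * C₂ = s * C by rw [hC]; ring] at h3
  have hconj' : ∀ {s : ℝ} {X : Matrix (Fin N) (Fin N) E}, 0 ≤ s → Bd s X →
      Bd (s * C) (umat u⁻¹ * X * umat u) := by
    intro s X hs hX
    have h3 := (Bd.mul (zero_le_one.trans hC₂) hs hb₂ hX).mul (by positivity)
      (zero_le_one.trans hC₁) hb₁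
    rwa [show C₂ * s * C₁ = s * C by rw [hC]; ring] at h3
  have hB1 : ∀ X ∈ (Sa σ H n hn0.le : Set (lieP σ H)), Bd (1 / 2) (toM X) := fun X hX =>
    Bd.mono (mem_Sa.1 hX) hnr
  have hB2 : ∀ X ∈ adP u '' (Sa σ H n hn0.le : Set (lieP σ H)), Bd (1 / 2) (toM X) := by
    rintro X ⟨Y, hY, rfl⟩
    have h3 := hconj hn0.le (mem_Sa.1 hY)
    rw [hCn] at h3
    exact h3
  have hcomp : IsCompact (Sa σ H n hn0.le : Set (lieP σ H)) := by
    rw [Sa_eq]
    exact isCompact_closedBall _ _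
  have hcont : Continuous (adP u : lieP σ H → lieP σ H) :=
    (adP u : lieP σ H →ₗ[F] lieP σ H).continuous_of_finiteDimensional
  -- two counts
  have e1 := count_abs μ ν (Sa σ H k hk0.le) (Sa_isOpen k hk0)
    (Lu σ H (‖(2 : E)‖ * k) hlk0.le hlk1) (Lu_isOpen _ hlk0 hlk1) (Sa σ H n hn0.le) hcomp
    (fun X hX Y hY => (Sa σ H n hn0.le).add_mem hX (Bd.mono (mem_Sa.1 hY) hkn)) c
    (fun X hX Y hY => hcmp X Y (hB1 X hX) (hB1 Y hY))
  have e2 := count_abs μ ν (Sa σ H k hk0.le) (Sa_isOpen k hk0)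
    (Lu σ H (‖(2 : E)‖ * k) hlk0.le hlk1) (Lu_isOpen _ hlk0 hlk1)
    (adP u '' (Sa σ H n hn0.le : Set (lieP σ H))) (hcomp.image hcont)
    (by
      rintro _ ⟨X, hX, rfl⟩ Y hY
      refine ⟨X + (adP u).symm Y, (Sa σ H n hn0.le).add_mem hX ?_, ?_⟩
      · have h3 := hconj' hk0.le (mem_Sa.1 hY)
        rw [hCk] at h3
        exact h3
      · rw [map_add, LinearEquiv.apply_symm_apply]) c
    (fun X hX Y hY => hcmp X Y (hB2 X hX) (hB2 Y hY))
  have s1 : {g | ∃ X ∈ (Sa σ H n hn0.le : Set (lieP σ H)),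
      (c X)⁻¹ * g ∈ Lu σ H (‖(2 : E)‖ * k) hlk0.le hlk1} =
      (Lu σ H (‖(2 : E)‖ * n) hln0.le hln1 : Set (unitary σ H)) := by
    ext g
    constructor
    · rintro ⟨X, hX, hg⟩
      have h3 : c X ∈ Lu σ H (‖(2 : E)‖ * n) hln0.le hln1 :=
        bd_cy h2 hn0.le hn1 (hc X (hB1 X hX)) (mem_Sa.1 hX)
      have h4 : (c X)⁻¹ * g ∈ Lu σ H (‖(2 : E)‖ * n) hln0.le hln1 :=
        Bd.mono (mem_Lu.1 hg) (mul_le_mul_of_nonneg_left hkn h2n.le)
      have h5 := (Lu σ H (‖(2 : E)‖ * n) hln0.le hln1).mul_mem h3 h4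
      rwa [mul_inv_cancel_left] at h5
    · intro hg
      obtain ⟨X, hX, hXb, hgX⟩ := exists_log h2 hn0.le hn1 g (mem_Lu.1 hg)
      refine ⟨⟨X, hX⟩, hXb, ?_⟩
      have h3 : c ⟨X, hX⟩ = g := um_inj ((hc ⟨X, hX⟩ (hXb.mono hnr)).trans hgX.symm)
      rw [h3, inv_mul_cancel]
      exact one_mem _
  have s2 : {g | ∃ X ∈ adP u '' (Sa σ H n hn0.le : Set (lieP σ H)),
      (c X)⁻¹ * g ∈ Lu σ H (‖(2 : E)‖ * k) hlk0.le hlk1} =
      {g | u⁻¹ * g * u ∈ Lu σ H (‖(2 : E)‖ * n) hln0.le hln1} := by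
    ext g
    constructor
    · rintro ⟨_, ⟨X, hX, rfl⟩, hg⟩
      have h6 : IsUnit (1 - toM X).det :=
        (Bd.inv_one_sub hn0.le hn1 (mem_Sa.1 hX)).1
      have h3 : umat (u⁻¹ * c (adP u X) * u) = cy (toM X) := by
        rw [um_mul, um_mul, hc (adP u X) (hB2 _ ⟨X, hX, rfl⟩), adP_coe,
          cy_conj (um_mul_inv u) (um_inv_mul u) h6]
        calc umat u⁻¹ * (umat u * cy (toM X) * umat u⁻¹) * umat u =
            (umat u⁻¹ * umat u) * cy (toM X) * (umat u⁻¹ * umat u) := by simp only [mul_assoc]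
          _ = cy (toM X) := by rw [um_inv_mul, one_mul, mul_one]
      have h4 : u⁻¹ * c (adP u X) * u ∈ Lu σ H (‖(2 : E)‖ * n) hln0.le hln1 :=
        bd_cy h2 hn0.le hn1 h3 (mem_Sa.1 hX)
      have h5 : u⁻¹ * ((c (adP u X))⁻¹ * g) * u ∈ Lu σ H (‖(2 : E)‖ * n) hln0.le hln1 := by
        have h7 : umat (u⁻¹ * ((c (adP u X))⁻¹ * g) * u) - 1 =
            umat u⁻¹ * (umat ((c (adP u X))⁻¹ * g) - 1) * umat u := by
          rw [um_mul, um_mul, mul_sub, sub_mul, mul_one, um_inv_mul]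
        have h8 := hconj' hlk0.le (mem_Lu.1 hg)
        rw [← h7, mul_assoc, hCk] at h8
        exact h8
      have h9 := (Lu σ H (‖(2 : E)‖ * n) hln0.le hln1).mul_mem h4 h5
      have h10 : u⁻¹ * c (adP u X) * u * (u⁻¹ * ((c (adP u X))⁻¹ * g) * u) = u⁻¹ * g * u := by
        group
      rw [h10] at h9
      exact h9
    · intro hg
      have hg' : Bd (‖(2 : E)‖ * n) (umat (u⁻¹ * g * u) - 1) := hg
      obtain ⟨X, hX, hXb, hgX⟩ := exists_log h2 hn0.le hn1 (u⁻¹ * g * u) hg'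
      have h6 : IsUnit (1 - X).det := (Bd.inv_one_sub hn0.le hn1 hXb).1
      refine ⟨adP u ⟨X, hX⟩, ⟨⟨X, hX⟩, hXb, rfl⟩, ?_⟩
      have h3 : c (adP u ⟨X, hX⟩) = g := by
        apply um_inj
        have h7 : toM (⟨X, hX⟩ : lieP σ H) = X := rfl
        rw [hc (adP u ⟨X, hX⟩) (hB2 _ ⟨⟨X, hX⟩, hXb, rfl⟩), adP_coe, h7,
          cy_conj (um_mul_inv u) (um_inv_mul u) h6, ← hgX, um_mul, um_mul]
        calc umat u * (umat u⁻¹ * umat g * umat u) * umat u⁻¹ =
            (umat u * umat u⁻¹) * umat g * (umat u * umat u⁻¹) := by simp only [mul_assoc]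
          _ = umat g := by rw [um_mul_inv, one_mul, mul_one]
      rw [h3, inv_mul_cancel]
      exact one_mem _
  rw [s1] at e1
  rw [s2, measure_adP hq hH μ u] at e2
  have hp : μ (Sa σ H k hk0.le : Set (lieP σ H)) ≠ 0 :=
    ((Sa_isOpen k hk0).measure_pos μ ⟨0, zero_mem (Sa σ H k hk0.le)⟩).ne'
  have ht : μ (Sa σ H k hk0.le : Set (lieP σ H)) ≠ ⊤ := by
    rw [Sa_eq]
    exact (isCompact_closedBall _ _).measure_lt_top.ne
  have h3 := (ENNReal.mul_left_inj hp ht).1 (e2.trans e1.symm)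
  exact modular_one_of_conj ν (Lu_isOpen _ hln0 hln1) (Lu_isCompact _ hln0.le hln1) u h3

theorem haar_right (hq : QuadDatum σ δ d) (hH : IsSkew σ H) [MeasurableSpace (unitary σ H)]
    [BorelSpace (unitary σ H)] (ν : Measure (unitary σ H)) [ν.IsHaarMeasure] :
    ν.IsMulRightInvariant :=
  right_of_modular (modular_one hq hH) ν

theorem haar_inv (hq : QuadDatum σ δ d) (hH : IsSkew σ H) [MeasurableSpace (unitary σ H)]
    [BorelSpace (unitary σ H)] (ν : Measure (unitary σ H)) [ν.IsHaarMeasure] :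
    ν.IsInvInvariant := by
  have := haar_right hq hH ν
  exact inv_of_right ν Lh_isOpen Lh_isCompact

end main

end SpW.UH
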