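import Pool.Agent.Work.MP_3615d2_al.Bridge

/-!
MP_3615d2_al: (MO), the vanishing case, linear algebra.

`ξ` is selfadjoint, invertible, with separable characteristic polynomial, and not of the form
`f(ξ) f^σ(ξ)`.  Then there is an idempotent `e ≠ 0` in `F[ξ]` such that on `eX × eX` the form
`(a, b) ↦ h(s a, a) - h(s ξ b, b)`, `s ∈ F[ξ] e`, is anisotropic.
-/

open Polynomial

namespace SpW.Mo

section poly

variable {F : Type} [Field F]

/-- `(a + δ b)(a - δ b) = a² - d b²` -/
noncomputable def nrm (d : F) (a b : F[X]) : F[X] := a ^ 2 - C d * b ^ 2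

/-- `N(a) ≡ X N(b) mod p` only if `a ≡ b ≡ 0`. -/
def Good (d : F) (p : F[X]) : Prop :=
  ∀ a1 a2 b1 b2 : F[X], p ∣ nrm d a1 a2 - X * nrm d b1 b2 → p ∣ a1 ∧ p ∣ a2 ∧ p ∣ b1 ∧ p ∣ b2

theorem exists_of_not_good (h2 : (2 : F) ≠ 0) {d : F} (hd : d ≠ 0) {p : F[X]} (hp : Irreducible p)
    (hng : ¬ Good d p) : ∃ f1 f2 : F[X], p ∣ nrm d f1 f2 - X := by
  have hpr : Prime p := hp.prime
  by_cases han : ∀ a b : F[X], p ∣ nrm d a b → p ∣ a ∧ p ∣ b
  · unfold Good at hng
    push Not at hng
    obtain ⟨a1, a2, b1, b2, h1, h3⟩ := hng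
    have hβ : ¬ p ∣ nrm d b1 b2 := by
      intro h
      obtain ⟨hb1, hb2⟩ := han _ _ h
      have h4 : p ∣ nrm d a1 a2 := (dvd_sub_left (h.mul_left X)).1 h1
      obtain ⟨ha1, ha2⟩ := han _ _ h4
      exact h3 ha1 ha2 hb1 hb2
    obtain ⟨u, γ, hγ⟩ : IsCoprime p (nrm d b1 b2) := (hp.coprime_iff_not_dvd).2 hβ
    obtain ⟨t, ht⟩ := h1
    refine ⟨(a1 * b1 - C d * a2 * b2) * γ, (a2 * b1 - a1 * b2) * γ,
      X * (-2 * u + u ^ 2 * p) + t * nrm d b1 b2 * γ ^ 2, ?_⟩
    have e1 : nrm d ((a1 * b1 - C d * a2 * b2) * γ) ((a2 * b1 - a1 * b2) * γ) =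
        nrm d a1 a2 * nrm d b1 b2 * γ ^ 2 := by
      simp only [nrm]; ring
    rw [e1]
    linear_combination (nrm d b1 b2 * γ ^ 2) * ht +
      X * (γ * nrm d b1 b2 + (1 - u * p)) * hγ
  · push Not at han
    obtain ⟨a, b, h1, h3⟩ := han
    have hb : ¬ p ∣ b := by
      intro h
      have h4 : p ∣ a ^ 2 := by
        have : a ^ 2 = nrm d a b + C d * b ^ 2 := by simp only [nrm]; ring
        rw [this]
        exact dvd_add h1 ((h.pow two_ne_zero).mul_left _)
      exact h3 (hpr.dvd_of_dvd_pow h4) h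
    obtain ⟨u, γ, hγ⟩ : IsCoprime p b := (hp.coprime_iff_not_dvd).2 hb
    obtain ⟨t, ht⟩ := h1
    have hdd : C d * C d⁻¹ = (1 : F[X]) := by
      rw [← C_mul, mul_inv_cancel₀ hd, C_1]
    have h22 : (C (2 : F)⁻¹ : F[X]) * 2 = 1 := by
      have : (2 : F[X]) = C 2 := (map_ofNat C 2).symm
      rw [this, ← C_mul, inv_mul_cancel₀ h2, C_1]
    refine ⟨C (2 : F)⁻¹ * (X + 1), C (2 : F)⁻¹ * (C d⁻¹ * a * γ) * (X - 1),
      (C (2 : F)⁻¹ * (X - 1)) ^ 2 * (2 * u - u ^ 2 * p - C d⁻¹ * t * γ ^ 2), ?_⟩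
    have ht' : a ^ 2 = C d * b ^ 2 + p * t := by
      simp only [nrm] at ht
      linear_combination ht
    have e1 : nrm d (C (2 : F)⁻¹ * (X + 1)) (C (2 : F)⁻¹ * (C d⁻¹ * a * γ) * (X - 1)) - X =
        (C (2 : F)⁻¹ * (X - 1)) ^ 2 * (1 - C d * C d⁻¹ * (C d⁻¹ * a ^ 2 * γ ^ 2)) +
          X * ((C (2 : F)⁻¹ * 2) ^ 2 - 1) := by
      simp only [nrm]; ring
    rw [e1, h22, hdd, ht']
    have hγ' : b * γ = 1 - u * p := by linear_combination hγ
    have e2 : C d⁻¹ * (C d * b ^ 2 + p * t) * γ ^ 2 =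
        (1 - u * p) ^ 2 + C d⁻¹ * p * t * γ ^ 2 := by
      rw [← hγ']
      linear_combination (b * γ) ^ 2 * hdd
    rw [one_mul, e2]
    ring

theorem exists_crt {d : F} (m : F[X]) : Squarefree m →
    (∀ p, Irreducible p → p ∣ m → ∃ f1 f2 : F[X], p ∣ nrm d f1 f2 - X) →
    ∃ f1 f2 : F[X], m ∣ nrm d f1 f2 - X := by
  induction m using WfDvdMonoid.induction_on_irreducible with
  | zero => intro h; exact absurd h not_squarefree_zero
  | unit u hu => intro _ _; exact ⟨0, 0, hu.dvd⟩
  | mul a p ha hp ih =>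
    intro hsq H
    obtain ⟨hrel, -, hsa⟩ := squarefree_mul_iff.1 hsq
    obtain ⟨g1, g2, hg⟩ := ih hsa fun q hq hqa => H q hq (hqa.mul_left p)
    obtain ⟨f1, f2, hf⟩ := H p hp (dvd_mul_right p a)
    obtain ⟨u, w, huw⟩ := hrel.isCoprime
    refine ⟨g1 * (u * p) + f1 * (w * a), g2 * (u * p) + f2 * (w * a), ?_⟩
    apply IsCoprime.mul_dvd ⟨u, w, huw⟩
    · obtain ⟨s, hs⟩ := hf
      refine ⟨s + u * ((g1 - f1) * (2 * f1 + (g1 - f1) * (u * p)) -
        C d * (g2 - f2) * (2 * f2 + (g2 - f2) * (u * p))), ?_⟩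
      have e1 : g1 * (u * p) + f1 * (w * a) = f1 + (g1 - f1) * (u * p) := by
        linear_combination f1 * huw
      have e2 : g2 * (u * p) + f2 * (w * a) = f2 + (g2 - f2) * (u * p) := by
        linear_combination f2 * huw
      rw [e1, e2]
      simp only [nrm] at hs ⊢
      linear_combination hs
    · obtain ⟨s, hs⟩ := hg
      refine ⟨s + w * ((f1 - g1) * (2 * g1 + (f1 - g1) * (w * a)) -
        C d * (f2 - g2) * (2 * g2 + (f2 - g2) * (w * a))), ?_⟩
      have e1 : g1 * (u * p) + f1 * (w * a) = g1 + (f1 - g1) * (w * a) := by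
        linear_combination g1 * huw
      have e2 : g2 * (u * p) + f2 * (w * a) = g2 + (f2 - g2) * (w * a) := by
        linear_combination g2 * huw
      rw [e1, e2]
      simp only [nrm] at hs ⊢
      linear_combination hs

end poly

section cyc

variable {K : Type} [Field K] {N : ℕ}

theorem aeval_mulVec_eigen {L : Type} [Field L] (M : Matrix (Fin N) (Fin N) L) (l : L) (w : Fin N → L)
    (h : M.mulVec w = l • w) (q : L[X]) : (aeval M q).mulVec w = q.eval l • w := by
  induction q using Polynomial.induction_on' with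
  | add f g hf hg => rw [map_add, Matrix.add_mulVec, hf, hg, eval_add, add_smul]
  | monomial n a =>
    have hn : ∀ n : ℕ, (M ^ n).mulVec w = l ^ n • w := by
      intro n
      induction n with
      | zero => simp
      | succ n ih =>
        rw [pow_succ, ← Matrix.mulVec_mulVec, h, Matrix.mulVec_smul, ih, smul_smul, pow_succ,
          mul_comm]
    rw [aeval_monomial, eval_monomial, Algebra.algebraMap_eq_smul_one, Matrix.smul_mul,
      Matrix.one_mul, Matrix.smul_mulVec, hn, smul_smul]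

theorem aeval_map_matrix {L : Type} [Field L] (ξ : Matrix (Fin N) (Fin N) K) (φ : K →+* L)
    (q : K[X]) : aeval (ξ.map φ) (q.map φ) = (aeval ξ q).map φ := by
  have h : (algebraMap L (Matrix (Fin N) (Fin N) L)).comp φ =
      φ.mapMatrix.comp (algebraMap K (Matrix (Fin N) (Fin N) K)) := by
    ext a i j
    simp [Matrix.algebraMap_matrix_apply, apply_ite φ]
  rw [aeval_def, eval₂_map, h, aeval_def]
  exact (hom_eval₂ q (algebraMap K (Matrix (Fin N) (Fin N) K)) φ.mapMatrix ξ).symm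

theorem exists_ker (ξ : Matrix (Fin N) (Fin N) K) {q : K[X]} (hq : Irreducible q)
    (hd : q ∣ ξ.charpoly) : ∃ v : Fin N → K, v ≠ 0 ∧ (aeval ξ q).mulVec v = 0 := by
  rw [Matrix.exists_mulVec_eq_zero_iff]
  set L := AlgebraicClosure K
  set φ : K →+* L := algebraMap K L with hφ
  obtain ⟨l, hl⟩ := IsAlgClosed.exists_root (q.map φ) (by
    rw [degree_map]
    exact (degree_pos_of_irreducible hq).ne')
  have h1 : (ξ.map φ).charpoly.eval l = 0 := by
    rw [Matrix.charpoly_map]
    obtain ⟨m, hm⟩ := hd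
    rw [hm, Polynomial.map_mul, eval_mul, hl.eq_zero, zero_mul]
  rw [Matrix.eval_charpoly] at h1
  obtain ⟨w, hw, hw0⟩ := Matrix.exists_mulVec_eq_zero_iff.2 h1
  have h2 : (ξ.map φ).mulVec w = l • w := by
    rw [Matrix.sub_mulVec, sub_eq_zero] at hw0
    rw [← hw0]
    simp [Matrix.scalar_apply]
  have h3 := aeval_mulVec_eigen _ l w h2 (q.map φ)
  rw [hl.eq_zero, zero_smul] at h3
  have h4 : aeval (ξ.map φ) (q.map φ) = (aeval ξ q).map φ := aeval_map_matrix ξ φ q
  have h5 : ((aeval ξ q).map φ).det = 0 := by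
    rw [← h4]
    exact Matrix.exists_mulVec_eq_zero_iff.1 ⟨w, hw, h3⟩
  have h6 : φ (aeval ξ q).det = 0 := by
    rw [RingHom.map_det]
    exact h5
  exact (map_eq_zero φ).1 h6

theorem exists_vec (ξ : Matrix (Fin N) (Fin N) K) (m : K[X]) : m ∣ ξ.charpoly → Squarefree m →
    ∃ v : Fin N → K, ∀ f : K[X], (aeval ξ f).mulVec v = 0 ↔ m ∣ f := by
  induction m using WfDvdMonoid.induction_on_irreducible with
  | zero => intro _ h; exact absurd h not_squarefree_zero
  | unit u hu =>
    intro _ _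
    exact ⟨0, fun f => by simp [hu.dvd]⟩
  | mul a p ha hp ih =>
    intro hd hsq
    obtain ⟨hrel, -, hsa⟩ := squarefree_mul_iff.1 hsq
    obtain ⟨v, hv⟩ := ih (dvd_of_mul_left_dvd hd) hsa
    obtain ⟨w, hw0, hw⟩ := exists_ker ξ hp (dvd_of_mul_right_dvd hd)
    have hcop := hrel.isCoprime
    have key : ∀ f : K[X], (aeval ξ f).mulVec w = 0 ↔ p ∣ f := by
      intro f
      constructor
      · intro h
        by_contra hn
        obtain ⟨s, t, hst⟩ := (hp.coprime_iff_not_dvd).2 hn
        apply hw0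
        have h1 := congrArg (fun g => (aeval ξ g).mulVec w) hst
        simp only [map_add, map_mul, Matrix.add_mulVec, ← Matrix.mulVec_mulVec, hw, h,
          Matrix.mulVec_zero, add_zero, map_one, Matrix.one_mulVec] at h1
        exact h1.symm
      · rintro ⟨g, rfl⟩
        rw [mul_comm, map_mul, ← Matrix.mulVec_mulVec, hw, Matrix.mulVec_zero]
    refine ⟨w + v, fun f => ⟨fun h => ?_, fun h => ?_⟩⟩
    · rw [Matrix.mulVec_add] at h
      have h1 : p ∣ f := by
        have h2 : (aeval ξ (a * f)).mulVec w = 0 := by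
          have h3 := congrArg (aeval ξ a).mulVec h
          rw [Matrix.mulVec_add, Matrix.mulVec_mulVec, Matrix.mulVec_mulVec, Matrix.mulVec_zero,
            ← map_mul, (hv (a * f)).2 (dvd_mul_right _ _), add_zero] at h3
          exact h3
        exact hcop.dvd_of_dvd_mul_left ((key _).1 h2)
      refine hcop.mul_dvd h1 ?_
      rw [(key f).2 h1, zero_add] at h
      exact (hv f).1 h
    · rw [Matrix.mulVec_add, (key f).2 (dvd_of_mul_right_dvd h),
        (hv f).2 (dvd_of_mul_left_dvd h), add_zero]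

/-- a cyclic vector -/
theorem exists_cycV (ξ : Matrix (Fin N) (Fin N) K) (hsq : Squarefree ξ.charpoly) :
    ∃ v : Fin N → K, (∀ f : K[X], (aeval ξ f).mulVec v = 0 ↔ ξ.charpoly ∣ f) ∧
      ∀ w, ∃ f : K[X], (aeval ξ f).mulVec v = w := by
  obtain ⟨v, hv⟩ := exists_vec ξ ξ.charpoly dvd_rfl hsq
  refine ⟨v, hv, ?_⟩
  let Φ : K[X] →ₗ[K] (Fin N → K) :=
    { toFun := fun f => (aeval ξ f).mulVec v
      map_add' := fun f g => by rw [map_add, Matrix.add_mulVec]
      map_smul' := fun c f => by rw [map_smul, Matrix.smul_mulVec, RingHom.id_apply] }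
  let Ψ : (Fin N → K) →ₗ[K] (Fin N → K) :=
    Φ ∘ₗ (degreeLT K N).subtype ∘ₗ (degreeLTEquiv K N).symm.toLinearMap
  have hinj : Function.Injective Ψ := by
    rw [← LinearMap.ker_eq_bot, LinearMap.ker_eq_bot']
    intro c hc
    set f := (degreeLTEquiv K N).symm c with hf
    have h1 : ξ.charpoly ∣ (f : K[X]) := (hv _).1 hc
    have h2 : (f : K[X]) = 0 := by
      apply eq_zero_of_dvd_of_degree_lt h1
      rw [Matrix.charpoly_degree_eq_dim, Fintype.card_fin]
      exact mem_degreeLT.1 f.2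
    have h3 : f = 0 := Subtype.ext h2
    rw [← (degreeLTEquiv K N).apply_symm_apply c, ← hf, h3, map_zero]
  have hsurj : Function.Surjective Ψ := LinearMap.injective_iff_surjective.1 hinj
  intro w
  obtain ⟨c, hc⟩ := hsurj w
  exact ⟨_, hc⟩

end cyc

section form

variable {F E : Type} [Field F] [Field E] [Algebra F E] {σ : E ≃ₐ[F] E} {δ : E} {d : F} {N : ℕ}
  {H ξ : Matrix (Fin N) (Fin N) E}

theorem exists_coordX (hq : QuadDatum σ δ d) (f : E[X]) :
    ∃ a b : F[X], f = a.map (algebraMap F E) + C δ * b.map (algebraMap F E) := by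
  induction f using Polynomial.induction_on' with
  | add f g hf hg =>
    obtain ⟨a, b, rfl⟩ := hf
    obtain ⟨a', b', rfl⟩ := hg
    exact ⟨a + a', b + b', by rw [Polynomial.map_add, Polynomial.map_add]; ring⟩
  | monomial n c =>
    obtain ⟨a, b, rfl⟩ := hq.exists_coord c
    refine ⟨monomial n a, monomial n b, ?_⟩
    rw [map_monomial, map_monomial, C_mul_monomial, ← map_add, mul_comm δ]

theorem conj_map (a : F[X]) : (a.map (algebraMap F E)).map (σ : E →+* E) =
    a.map (algebraMap F E) := by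
  rw [Polynomial.map_map]
  congr 1
  ext x
  simp

theorem conj_coord (hq : QuadDatum σ δ d) (a b : F[X]) :
    (a.map (algebraMap F E) + C δ * b.map (algebraMap F E)).map (σ : E →+* E) =
      a.map (algebraMap F E) - C δ * b.map (algebraMap F E) := by
  rw [Polynomial.map_add, Polynomial.map_mul, conj_map, conj_map, map_C]
  have : (σ : E →+* E) δ = -δ := hq.sig
  rw [this, C_neg]
  ring

theorem mul_conj (hq : QuadDatum σ δ d) (a b : F[X]) :
    (a.map (algebraMap F E) + C δ * b.map (algebraMap F E)) *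
      (a.map (algebraMap F E) + C δ * b.map (algebraMap F E)).map (σ : E →+* E) =
      (nrm d a b).map (algebraMap F E) := by
  rw [conj_coord hq, nrm, Polynomial.map_sub, Polynomial.map_mul, Polynomial.map_pow,
    Polynomial.map_pow, map_C, ← hq.sq, C_mul]
  ring

theorem sk_aeval (hq : QuadDatum σ δ d)
    (hadj : ∀ x y, sk σ H (ξ.mulVec x) y = sk σ H x (ξ.mulVec y)) (f : E[X]) (x y : Fin N → E) :
    sk σ H ((aeval ξ f).mulVec x) y = sk σ H x ((aeval ξ (f.map (σ : E →+* E))).mulVec y) := by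
  induction f using Polynomial.induction_on' with
  | add f g hf hg =>
    rw [map_add, Matrix.add_mulVec, sk_add_left, hf, hg, Polynomial.map_add, map_add,
      Matrix.add_mulVec, sk_add_right]
  | monomial n c =>
    have hn : ∀ n : ℕ, ∀ x y, sk σ H ((ξ ^ n).mulVec x) y = sk σ H x ((ξ ^ n).mulVec y) := by
      intro n
      induction n with
      | zero => intro x y; simp
      | succ n ih =>
        intro x y
        rw [pow_succ, ← Matrix.mulVec_mulVec, ih, hadj, Matrix.mulVec_mulVec, ← pow_succ',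
          pow_succ]
    have h1 : ∀ (L : Type) [Field L] (M : Matrix (Fin N) (Fin N) L) (c : L) (n : ℕ)
        (x : Fin N → L), (aeval M (monomial n c)).mulVec x = c • (M ^ n).mulVec x := by
      intro L _ M c n x
      rw [aeval_monomial, Algebra.algebraMap_eq_smul_one, Matrix.smul_mul, Matrix.one_mul,
        Matrix.smul_mulVec]
    rw [map_monomial, h1, h1, sk_smul_left, sk_smul_right, hn]
    congr 1
    exact (sig_sig hq c).symm

/-- the characteristic polynomial of a selfadjoint matrix has coefficients in `F` -/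
theorem exists_charpoly (hq : QuadDatum σ δ d) (hH : IsSkew σ H)
    (hadj : ∀ x y, sk σ H (ξ.mulVec x) y = sk σ H x (ξ.mulVec y)) :
    ∃ c : F[X], c.map (algebraMap F E) = ξ.charpoly := by
  have h1 : ξ.transpose * H = H * ξ.map (σ : E →+* E) := by
    ext i j
    have h2 := hadj (Pi.single i 1) (Pi.single j 1)
    simp only [sk, Matrix.mulVec_single_one, Matrix.col_apply] at h2
    rw [Matrix.mul_apply, Matrix.mul_apply]
    have h3 : ∑ k, ∑ l, ξ k i * H k l * σ ((Pi.single j (1 : E) : Fin N → E) l) =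
        ∑ k, ξ.transpose i k * H k j := by
      refine Finset.sum_congr rfl fun k _ => ?_
      rw [Finset.sum_eq_single j]
      · simp
      · intro l _ hl
        simp [Pi.single_eq_of_ne hl]
      · simp
    have h4 : ∑ k, ∑ l, (Pi.single i (1 : E) : Fin N → E) k * H k l * σ (ξ l j) =
        ∑ l, H i l * (ξ.map (σ : E →+* E)) l j := by
      rw [Finset.sum_eq_single i]
      · simp
      · intro k _ hk
        simp [Pi.single_eq_of_ne hk]
      · simp
    rw [← h3, ← h4]
    exact h2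
  have hu : IsUnit H.det := isUnit_iff_ne_zero.2 hH.det_ne
  have h5 : ξ.map (σ : E →+* E) = H⁻¹ * ξ.transpose * H := by
    rw [mul_assoc, h1, ← mul_assoc, Matrix.nonsing_inv_mul _ hu, one_mul]
  have h6 : ξ.charpoly.map (σ : E →+* E) = ξ.charpoly := by
    rw [← Matrix.charpoly_map, h5]
    obtain ⟨U, hU⟩ := (Matrix.isUnit_iff_isUnit_det H).2 hu
    have h7 := Matrix.charpoly_units_conj' U ξ.transpose
    rw [Matrix.charpoly_transpose, hU] at h7
    exact h7
  obtain ⟨a, b, hab⟩ := exists_coordX hq ξ.charpoly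
  rw [hab, conj_coord hq] at h6
  refine ⟨a, ?_⟩
  have h8 : C (2 * δ) * b.map (algebraMap F E) = 0 := by
    rw [C_mul, show (C (2 : E) : E[X]) = 2 from map_ofNat C 2]
    linear_combination -h6
  rw [hab]
  have h9 : C δ * b.map (algebraMap F E) = 0 := by
    rcases mul_eq_zero.1 h8 with h | h
    · exact absurd (C_eq_zero.1 h) (mul_ne_zero hq.two_E hq.ne)
    · rw [h, mul_zero]
  rw [h9, add_zero]

/-- `g ↦ Tr (δ h(g(ξ) v, v))` -/
noncomputable def ell (σ : E ≃ₐ[F] E) (H ξ : Matrix (Fin N) (Fin N) E) (δ : E) (v : Fin N → E) :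
    F[X] →ₗ[F] F where
  toFun g := sympl F σ H (δ • (aeval ξ (g.map (algebraMap F E))).mulVec v) v
  map_add' g g' := by
    rw [Polynomial.map_add, map_add, Matrix.add_mulVec, smul_add, sympl_eq, sk_add_left, map_add]
    rfl
  map_smul' c g := by
    have h1 : (aeval ξ ((c • g).map (algebraMap F E))).mulVec v =
        algebraMap F E c • (aeval ξ (g.map (algebraMap F E))).mulVec v := by
      rw [Polynomial.smul_eq_C_mul, Polynomial.map_mul, map_C, map_mul, aeval_C,
        Algebra.algebraMap_eq_smul_one, Matrix.smul_mul, Matrix.one_mul, Matrix.smul_mulVec]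
    rw [h1, smul_comm δ, ← sk_algebraMap_smul c, sympl_eq, sympl_eq, sk_fsmul_left,
      ← Algebra.smul_def, map_smul, RingHom.id_apply]

theorem ell_apply (g : F[X]) (v : Fin N → E) : ell σ H ξ δ v g =
    sympl F σ H (δ • (aeval ξ (g.map (algebraMap F E))).mulVec v) v := rfl

theorem sk_eq_zero_of_ell (hq : QuadDatum σ δ d) (hH : IsSkew σ H)
    (hadj : ∀ x y, sk σ H (ξ.mulVec x) y = sk σ H x (ξ.mulVec y)) {v : Fin N → E} {g : F[X]}
    (h : ell σ H ξ δ v g = 0) :
    sk σ H ((aeval ξ (g.map (algebraMap F E))).mulVec v) v = 0 := by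
  set c := sk σ H ((aeval ξ (g.map (algebraMap F E))).mulVec v) v with hc
  have h1 : σ c = -c := by
    have h2 := sk_swap hq hH ((aeval ξ (g.map (algebraMap F E))).mulVec v) v
    rw [← hc] at h2
    have h3 : sk σ H v ((aeval ξ (g.map (algebraMap F E))).mulVec v) = c := by
      rw [hc, sk_aeval hq hadj, conj_map]
    rw [h3] at h2
    linear_combination h2
  rw [ell_apply, sympl_eq, sk_smul_left, ← hc] at h
  have h4 := hq.trace_eq (δ * c)
  rw [h, map_zero, map_mul, hq.sig, h1] at h4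
  have h5 : (2 * δ) * c = 0 := by linear_combination -h4
  exact (mul_eq_zero.1 h5).resolve_left (mul_ne_zero hq.two_E hq.ne)

theorem ell_nondeg (hq : QuadDatum σ δ d) (hH : IsSkew σ H)
    (hadj : ∀ x y, sk σ H (ξ.mulVec x) y = sk σ H x (ξ.mulVec y)) {v : Fin N → E}
    (hv : ∀ w, ∃ f : E[X], (aeval ξ f).mulVec v = w) {g : F[X]}
    (h : ∀ t, ell σ H ξ δ v (g * t) = 0) :
    (aeval ξ (g.map (algebraMap F E))).mulVec v = 0 := by
  apply sk_nondeg hH
  intro y
  obtain ⟨f, rfl⟩ := hv y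
  obtain ⟨f', hf'⟩ : ∃ f' : E[X], f'.map (σ : E →+* E) = f := by
    refine ⟨f.map (σ : E →+* E), ?_⟩
    rw [Polynomial.map_map]
    have : (σ : E →+* E).comp (σ : E →+* E) = RingHom.id E := by
      ext x
      exact sig_sig hq x
    rw [this, Polynomial.map_id]
  rw [← hf', ← sk_aeval hq hadj, Matrix.mulVec_mulVec, ← map_mul]
  obtain ⟨a, b, rfl⟩ := exists_coordX hq f'
  have e1 : (a.map (algebraMap F E) + C δ * b.map (algebraMap F E)) * g.map (algebraMap F E) =
      (g * a).map (algebraMap F E) + C δ * (g * b).map (algebraMap F E) := by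
    rw [Polynomial.map_mul, Polynomial.map_mul]
    ring
  rw [e1, map_add, Matrix.add_mulVec, sk_add_left, sk_eq_zero_of_ell hq hH hadj (h a), zero_add,
    map_mul, aeval_C, Algebra.algebraMap_eq_smul_one, Matrix.smul_mul, Matrix.one_mul,
    Matrix.smul_mulVec, sk_smul_left, sk_eq_zero_of_ell hq hH hadj (h b), mul_zero]

end form

section rank

variable {E : Type} [Field E] {N : ℕ} {ξ : Matrix (Fin N) (Fin N) E}

theorem rank_aeval {v : Fin N → E} (hv0 : ∀ f : E[X], (aeval ξ f).mulVec v = 0 ↔ ξ.charpoly ∣ f)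
    (hv : ∀ w, ∃ f : E[X], (aeval ξ f).mulVec v = w) {P Q : E[X]} (hPQ : ξ.charpoly ∣ P * Q)
    (hP : P ∣ ξ.charpoly) (hcop : IsCoprime P Q) (hP0 : P ≠ 0) :
    (aeval ξ Q).rank = P.natDegree := by
  let Φ : E[X] →ₗ[E] (Fin N → E) :=
    { toFun := fun f => (aeval ξ (Q * f)).mulVec v
      map_add' := fun f g => by rw [mul_add, map_add, Matrix.add_mulVec]
      map_smul' := fun c f => by rw [mul_smul_comm, map_smul, Matrix.smul_mulVec, RingHom.id_apply] }
  set k := P.natDegree with hk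
  let Ψ : (Fin k → E) →ₗ[E] (Fin N → E) :=
    Φ ∘ₗ (degreeLT E k).subtype ∘ₗ (degreeLTEquiv E k).symm.toLinearMap
  have hinj : Function.Injective Ψ := by
    rw [← LinearMap.ker_eq_bot, LinearMap.ker_eq_bot']
    intro c hc
    set f := (degreeLTEquiv E k).symm c with hf
    have h1 : ξ.charpoly ∣ Q * (f : E[X]) := (hv0 _).1 hc
    have h2 : P ∣ (f : E[X]) := hcop.dvd_of_dvd_mul_left (hP.trans h1)
    have h3 : (f : E[X]) = 0 := by
      apply eq_zero_of_dvd_of_degree_lt h2
      rw [degree_eq_natDegree hP0]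
      exact mem_degreeLT.1 f.2
    have h4 : f = 0 := Subtype.ext h3
    rw [← (degreeLTEquiv E k).apply_symm_apply c, ← hf, h4, map_zero]
  have hrange : LinearMap.range (aeval ξ Q).mulVecLin = LinearMap.range Ψ := by
    apply le_antisymm
    · rintro _ ⟨w, rfl⟩
      obtain ⟨g, rfl⟩ := hv w
      have hlt : g % P ∈ degreeLT E k := by
        rw [mem_degreeLT, ← degree_eq_natDegree hP0]
        exact EuclideanDomain.mod_lt g hP0
      refine ⟨degreeLTEquiv E k ⟨g % P, hlt⟩, ?_⟩
      have h1 : Ψ (degreeLTEquiv E k ⟨g % P, hlt⟩) = (aeval ξ (Q * (g % P))).mulVec v := by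
        simp [Ψ, Φ]
      rw [h1, Matrix.mulVecLin_apply, Matrix.mulVec_mulVec, ← map_mul]
      have h2 : (aeval ξ (Q * g)).mulVec v =
          (aeval ξ (Q * (g % P) + (P * Q) * (g / P))).mulVec v := by
        congr 2
        have h3 := EuclideanDomain.div_add_mod g P
        linear_combination -Q * h3
      rw [h2, map_add, Matrix.add_mulVec, (hv0 _).2 (hPQ.mul_right _), add_zero]
    · rintro _ ⟨c, rfl⟩
      refine ⟨(aeval ξ (((degreeLTEquiv E k).symm c : degreeLT E k) : E[X])).mulVec v, ?_⟩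
      rw [Matrix.mulVecLin_apply, Matrix.mulVec_mulVec, ← map_mul]
      rfl
  rw [Matrix.rank, hrange, LinearMap.finrank_range_of_inj hinj, Module.finrank_fin_fun]

end rank

section main

variable {F E : Type} [Field F] [Field E] [Algebra F E] {σ : E ≃ₐ[F] E} {δ : E} {d : F} {N : ℕ}
  {H ξ : Matrix (Fin N) (Fin N) E}

/-- (BETA): an idempotent on which the form is anisotropic. -/
theorem exists_aniso (hq : QuadDatum σ δ d) (hH : IsSkew σ H)
    (hadj : ∀ x y, sk σ H (ξ.mulVec x) y = sk σ H x (ξ.mulVec y))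
    (hsep : ξ.charpoly.Separable)
    (hno : ¬ ∃ f : E[X], aeval ξ f * aeval ξ (f.map (σ : E →+* E)) = ξ) :
    ∃ (k : ℕ) (e : Matrix (Fin N) (Fin N) E), 0 < k ∧ e * e = e ∧ ξ * e = e * ξ ∧
      (∀ x y, sk σ H (e.mulVec x) y = sk σ H x (e.mulVec y)) ∧ e.rank = k ∧
      ∀ a b : Fin N → E,
        (∀ i < k, sympl F σ H (δ • (ξ ^ i * e).mulVec a) a =
          sympl F σ H (δ • (ξ ^ (i + 1) * e).mulVec b) b) →
        e.mulVec a = 0 ∧ e.mulVec b = 0 := by
  set io : F[X] →+* E[X] := mapRingHom (algebraMap F E) with hio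
  have hio' : ∀ g, io g = g.map (algebraMap F E) := fun g => rfl
  obtain ⟨χ, hχ⟩ := exists_charpoly hq hH hadj
  have hsep' : χ.Separable := by
    rw [← hχ] at hsep
    exact (separable_map (algebraMap F E)).1 hsep
  have hχ0 : χ ≠ 0 := hsep'.ne_zero
  obtain ⟨v, hv0, hv⟩ := exists_cycV ξ hsep.squarefree
  have hvF : ∀ g : F[X], (aeval ξ (io g)).mulVec v = 0 ↔ χ ∣ g := by
    intro g
    rw [hv0, ← hχ, hio', map_dvd_map']
  have hCH : ∀ g : F[X], χ ∣ g → aeval ξ (io g) = 0 := by
    rintro g ⟨g', rfl⟩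
    rw [map_mul, map_mul, hio', hχ, Matrix.aeval_self_charpoly, zero_mul]
  have hdvd : ∀ f : E[X], ξ.charpoly ∣ f → aeval ξ f = 0 := by
    rintro f ⟨f', rfl⟩
    rw [map_mul, Matrix.aeval_self_charpoly, zero_mul]
  by_cases hall : ∀ p : F[X], Irreducible p → p ∣ χ → ¬ Good d p
  · exfalso
    obtain ⟨f1, f2, hf⟩ := exists_crt (d := d) χ hsep'.squarefree
      fun p hp hpχ => exists_of_not_good hq.two hq.d_ne hp (hall p hp hpχ)
    apply hno
    refine ⟨io f1 + C δ * io f2, ?_⟩
    rw [← map_mul, hio', hio', mul_conj hq]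
    have h1 := hCH _ hf
    rw [map_sub, map_sub, hio', hio', map_X, aeval_X, sub_eq_zero] at h1
    exact h1
  push Not at hall
  obtain ⟨p, hp, ⟨m, hm⟩, hgood⟩ := hall
  have hrel : IsCoprime p m := by
    have h1 := hsep'.squarefree
    rw [hm] at h1
    exact (squarefree_mul_iff.1 h1).1.isCoprime
  obtain ⟨u, w, huw⟩ := hrel
  set E1 : F[X] := w * m with hE1
  have hE1p : IsCoprime p E1 := ⟨u, 1, by rw [one_mul]; exact huw⟩
  have hpE : χ ∣ p * E1 := ⟨w, by rw [hm, hE1]; ring⟩
  have hidem : χ ∣ E1 * E1 - E1 := by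
    refine ⟨-(w * u), ?_⟩
    rw [hm, hE1]
    linear_combination w * m * huw
  set e := aeval ξ (io E1) with he
  have hrank : e.rank = p.natDegree := by
    have h1 := rank_aeval hv0 hv (P := io p) (Q := io E1)
      (by rw [← hχ, ← map_mul, ← hio' χ]; exact map_dvd io hpE)
      (by rw [← hχ, ← hio' χ]; exact map_dvd io ⟨m, hm⟩)
      (hE1p.map io) (by rw [hio', Ne, Polynomial.map_eq_zero]; exact hp.ne_zero)
    rw [← he, hio', natDegree_map] at h1
    exact h1
  refine ⟨p.natDegree, e, hp.natDegree_pos, ?_, ?_, ?_, hrank, ?_⟩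
  · have h1 := hCH _ hidem
    rw [map_sub, map_sub, map_mul, map_mul, sub_eq_zero] at h1
    exact h1
  · have h1 : aeval ξ (X * io E1) = aeval ξ (io E1 * X) := by rw [mul_comm]
    rw [map_mul (aeval ξ) X, map_mul (aeval ξ) (io E1) X, aeval_X] at h1
    exact h1
  · intro x y
    rw [he, sk_aeval hq hadj, hio', conj_map]
  intro a b hab
  obtain ⟨α, rfl⟩ := hv a
  obtain ⟨β, rfl⟩ := hv b
  obtain ⟨a1, a2, rfl⟩ := exists_coordX hq α
  obtain ⟨b1, b2, rfl⟩ := exists_coordX hq β
  have key : ∀ (j : ℕ) (a1 a2 : F[X]),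
      sympl F σ H (δ • (ξ ^ j * e).mulVec
        ((aeval ξ (a1.map (algebraMap F E) + C δ * a2.map (algebraMap F E))).mulVec v))
        ((aeval ξ (a1.map (algebraMap F E) + C δ * a2.map (algebraMap F E))).mulVec v) =
      ell σ H ξ δ v (X ^ j * E1 * nrm d a1 a2) := by
    intro j a1 a2
    rw [ell_apply, Matrix.mulVec_mulVec, sympl_eq, sympl_eq, sk_smul_left, sk_smul_left]
    congr 2
    obtain ⟨f', hf'⟩ : ∃ f' : E[X], f' =
      (a1.map (algebraMap F E) + C δ * a2.map (algebraMap F E)).map (σ : E →+* E) := ⟨_, rfl⟩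
    have h1 : f'.map (σ : E →+* E) =
        a1.map (algebraMap F E) + C δ * a2.map (algebraMap F E) := by
      rw [hf', Polynomial.map_map]
      have : (σ : E →+* E).comp (σ : E →+* E) = RingHom.id E := by
        ext x
        exact sig_sig hq x
      rw [this, Polynomial.map_id]
    have h2 : ξ ^ j * e * aeval ξ (a1.map (algebraMap F E) + C δ * a2.map (algebraMap F E)) =
        aeval ξ (X ^ j * io E1 *
          (a1.map (algebraMap F E) + C δ * a2.map (algebraMap F E))) := by
      rw [map_mul, map_mul, map_pow, aeval_X]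
    nth_rewrite 2 [← h1]
    rw [← sk_aeval hq hadj, Matrix.mulVec_mulVec, h2, ← map_mul, hf']
    have h3 : (a1.map (algebraMap F E) + C δ * a2.map (algebraMap F E)).map (σ : E →+* E) *
        (X ^ j * io E1 * (a1.map (algebraMap F E) + C δ * a2.map (algebraMap F E))) =
        (X ^ j * E1 * nrm d a1 a2).map (algebraMap F E) := by
      rw [Polynomial.map_mul, ← mul_conj hq, Polynomial.map_mul, Polynomial.map_pow, map_X,
        hio']
      ring
    rw [h3]
  set D := E1 * (nrm d a1 a2 - X * nrm d b1 b2) with hD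
  have h0 : ∀ i < p.natDegree, ell σ H ξ δ v (D * X ^ i) = 0 := by
    intro i hi
    have h1 := hab i hi
    rw [key, key, ← sub_eq_zero, ← map_sub] at h1
    rw [← h1]
    congr 1
    rw [hD]
    ring
  have hellz : ∀ g, χ ∣ g → ell σ H ξ δ v g = 0 := by
    intro g hg
    rw [ell_apply, ← hio', hCH g hg, Matrix.zero_mulVec, smul_zero, sympl_eq, sk_zero_left,
      map_zero]
  have h4 : ∀ t, ell σ H ξ δ v (D * t) = 0 := by
    intro t
    have h5 := EuclideanDomain.div_add_mod t p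
    rw [← h5, mul_add, map_add, hellz, zero_add]
    · have h6 : (t % p).natDegree < p.natDegree := by
        by_cases h7 : t % p = 0
        · rw [h7, natDegree_zero]; exact hp.natDegree_pos
        · exact natDegree_lt_natDegree h7 (EuclideanDomain.mod_lt t hp.ne_zero)
      rw [(t % p).as_sum_range' p.natDegree h6, Finset.mul_sum, map_sum]
      refine Finset.sum_eq_zero fun i hi => ?_
      have h8 : D * monomial i ((t % p).coeff i) = (t % p).coeff i • (D * X ^ i) := by
        rw [← C_mul_X_pow_eq_monomial, smul_eq_C_mul]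
        ring
      rw [h8, map_smul, h0 i (Finset.mem_range.1 hi), smul_zero]
    · have h9 : D * (p * (t / p)) = p * E1 * ((nrm d a1 a2 - X * nrm d b1 b2) * (t / p)) := by
        rw [hD]; ring
      rw [h9]
      exact hpE.mul_right _
  have h10 : χ ∣ D := (hvF D).1 (ell_nondeg hq hH hadj hv h4)
  have h11 : p ∣ nrm d a1 a2 - X * nrm d b1 b2 :=
    hE1p.dvd_of_dvd_mul_left ((Dvd.intro m hm.symm).trans h10)
  obtain ⟨h12, h13, h14, h15⟩ := hgood _ _ _ _ h11
  have fin : ∀ a1 a2 : F[X], p ∣ a1 → p ∣ a2 → e.mulVec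
      ((aeval ξ (a1.map (algebraMap F E) + C δ * a2.map (algebraMap F E))).mulVec v) = 0 := by
    rintro _ _ ⟨c1, rfl⟩ ⟨c2, rfl⟩
    rw [Matrix.mulVec_mulVec, he, ← map_mul, hdvd, Matrix.zero_mulVec]
    have h16 : io E1 * ((p * c1).map (algebraMap F E) + C δ * (p * c2).map (algebraMap F E)) =
        io (p * E1) * (io c1 + C δ * io c2) := by
      simp only [← hio', map_mul]
      ring
    rw [h16, ← hχ, ← hio']
    exact (map_dvd io hpE).mul_right _
  exact ⟨fin _ _ h12 h13, fin _ _ h14 h15⟩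

end main

end SpW.Mo
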