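import Pool.Agent.Work.MP_3615d2_al.Mo.Defs
import Pool.Agent.Work.MP_3615d2_al.Mo.AeSep
import Pool.Agent.Work.MP_3615d2_al.Mo.VanLin

/-!
MP_3615d2_al, multiplicity one: the vanishing case, from the abstract theorem to `Dker = 0`.
-/

open MeasureTheory Filter Topology Matrix Polynomial

namespace SpW.Mo

section alg

variable {F E : Type} [NontriviallyNormedField F] [NontriviallyNormedField E] [NormedAlgebra F E]
  {m : ℕ} {σ : E ≃ₐ[F] E} {δ : E} {d : F} {t₁ t₂ : Fin m → Eˣ}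

/-- `ξ = g† g = H₂⁻¹ σ(g)ᵀ H₁ g` -/
noncomputable def xiM (σ : E ≃ₐ[F] E) (t₁ t₂ : Fin m → Eˣ) (g : GL (Fin m) E) :
    Matrix (Fin m) (Fin m) E :=
  (Dg fun i => (t₂ i)⁻¹) * (g.1.map σ).transpose * Dg t₁ * g.1

theorem Dg_inv_mul (t : Fin m → Eˣ) : (Dg fun i => (t i)⁻¹) * Dg t = 1 := by
  unfold Dg
  rw [Matrix.diagonal_mul_diagonal]
  simp

theorem Dg_transpose (t : Fin m → Eˣ) : (Dg t)ᵀ = Dg t := Matrix.diagonal_transpose _

/-- `h₂(ξ x, y) = h₁(g x, g y)` -/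
theorem sk_xiM (g : GL (Fin m) E) (x y : Fin m → E) :
    sk σ (Dg t₂) ((xiM σ t₁ t₂ g).mulVec x) y = sk σ (Dg t₁) (g.1.mulVec x) (g.1.mulVec y) := by
  rw [HermC.sk_gram, HermC.sk_dot, HermC.sk_dot]
  rw [← Matrix.vecMul_transpose, ← Matrix.dotProduct_mulVec, Matrix.mulVec_mulVec]
  congr 2
  rw [xiM, Matrix.transpose_mul, Matrix.transpose_mul, Matrix.transpose_mul,
    Matrix.transpose_transpose, Dg_transpose, Dg_transpose, Matrix.mul_assoc, Matrix.mul_assoc,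
    Matrix.mul_assoc, Dg_inv_mul, Matrix.mul_one, ← Matrix.mul_assoc]

theorem xiM_adj (hq : QuadDatum σ δ d) (ht₁ : SkT σ t₁) (ht₂ : SkT σ t₂) (g : GL (Fin m) E)
    (x y : Fin m → E) :
    sk σ (Dg t₂) ((xiM σ t₁ t₂ g).mulVec x) y = sk σ (Dg t₂) x ((xiM σ t₁ t₂ g).mulVec y) := by
  rw [sk_xiM, sk_swap hq ht₂.isSkew ((xiM σ t₁ t₂ g).mulVec y) x, sk_xiM,
    ← sk_swap hq ht₁.isSkew]

/-- `g u g⁻¹ ∈ U(H₁)` if `u ∈ U(H₂)` commutes with `ξ`. -/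
theorem conj_mem {g : GL (Fin m) E} {u : GL (Fin m) E} (hu : u ∈ unitary σ (Dg t₂))
    (hc : u.1 * xiM σ t₁ t₂ g = xiM σ t₁ t₂ g * u.1) : g * u * g⁻¹ ∈ unitary σ (Dg t₁) := by
  intro x y
  have h1 : ∀ z : Fin m → E, ((g * u * g⁻¹ : GL (Fin m) E) : Matrix (Fin m) (Fin m) E).mulVec z =
      g.1.mulVec (u.1.mulVec ((g⁻¹ : GL (Fin m) E).1.mulVec z)) := by
    intro z
    rw [Matrix.mulVec_mulVec, Matrix.mulVec_mulVec]
    rfl
  have h2 : ∀ z : Fin m → E, g.1.mulVec ((g⁻¹ : GL (Fin m) E).1.mulVec z) = z := by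
    intro z
    rw [Matrix.mulVec_mulVec, ← Units.val_mul, mul_inv_cancel, Units.val_one, Matrix.one_mulVec]
  rw [h1, h1, ← sk_xiM (t₂ := t₂), Matrix.mulVec_mulVec, ← hc, ← Matrix.mulVec_mulVec, hu _ _,
    sk_xiM, h2, h2]

/-- If `ξ = f(ξ) f^σ(ξ)`, then the forms are isometric. -/
theorem isom_of_norm (hq : QuadDatum σ δ d) (ht₁ : SkT σ t₁) (ht₂ : SkT σ t₂) (g : GL (Fin m) E)
    {f : E[X]} (hf : aeval (xiM σ t₁ t₂ g) f *
      aeval (xiM σ t₁ t₂ g) (f.map (σ : E →+* E)) = xiM σ t₁ t₂ g) :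
    ∃ g : GL (Fin m) E, (g : Matrix (Fin m) (Fin m) E).transpose * Dg t₁ *
      (g : Matrix (Fin m) (Fin m) E).map σ = Dg t₂ := by
  set ξ := xiM σ t₁ t₂ g with hξ
  have hdet : IsUnit ξ.det := by
    rw [isUnit_iff_ne_zero]
    have e1 : ∀ t : Fin m → Eˣ, (Dg t).det ≠ 0 := by
      intro t
      unfold Dg
      rw [Matrix.det_diagonal]
      exact Finset.prod_ne_zero_iff.2 fun i _ => (t i).ne_zero
    have e2 : g.1.det ≠ 0 := ((Matrix.isUnit_iff_isUnit_det _).1 g.isUnit).ne_zero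
    rw [hξ, xiM, Matrix.det_mul, Matrix.det_mul, Matrix.det_mul, Matrix.det_transpose]
    refine mul_ne_zero (mul_ne_zero (mul_ne_zero (e1 _) ?_) (e1 _)) e2
    rw [HermC.det_map]
    exact (map_ne_zero_iff _ σ.injective).2 e2
  set h' := aeval ξ (f.map (σ : E →+* E)) with hh'
  have hu : IsUnit h'.det := by
    have h1 := congrArg Matrix.det hf
    rw [Matrix.det_mul] at h1
    rw [← h1] at hdet
    exact isUnit_of_mul_isUnit_right hdet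
  let U : GL (Fin m) E := Matrix.GeneralLinearGroup.mk'' h' hu
  refine ⟨g * U⁻¹, ?_⟩
  apply HermC.ext_sk (σ := σ)
  intro x y
  rw [← HermC.sk_gram]
  have h1 : ∀ z : Fin m → E, ((g * U⁻¹ : GL (Fin m) E) : Matrix (Fin m) (Fin m) E).mulVec z =
      g.1.mulVec ((U⁻¹ : GL (Fin m) E).1.mulVec z) := by
    intro z
    rw [Matrix.mulVec_mulVec]
    rfl
  have h2 : ∀ z : Fin m → E, h'.mulVec ((U⁻¹ : GL (Fin m) E).1.mulVec z) = z := by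
    intro z
    have : h' = U.1 := rfl
    rw [Matrix.mulVec_mulVec, this, ← Units.val_mul, mul_inv_cancel, Units.val_one,
      Matrix.one_mulVec]
  rw [h1, h1, ← sk_xiM (t₂ := t₂), ← hξ]
  nth_rewrite 1 [← hf]
  rw [← Matrix.mulVec_mulVec, h2, sk_aeval hq (xiM_adj hq ht₁ ht₂ g), ← hξ, ← hh', h2]

end alg

section main

variable {F E : Type} [NontriviallyNormedField F] [NontriviallyNormedField E] [NormedAlgebra F E]
  [ProperSpace F] [ProperSpace E] [IsUltrametricDist E] [MeasurableSpace E] [BorelSpace E]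
  {m : ℕ} {σ : E ≃ₐ[F] E} {δ : E} {d : F} {t₁ t₂ : Fin m → Eˣ}
  {S₁ S₂ : Type} [AddCommGroup S₁] [Module ℂ S₁] [AddCommGroup S₂] [Module ℂ S₂]
  [MeasurableSpace (GL (Fin m) E)] [BorelSpace (GL (Fin m) E)]
  {μ : Measure (GL (Fin m) E)} {ω₁ : unitary σ (Dg t₁) →* Module.End ℂ S₁}
  {ω₂ : unitary σ (Dg t₂) →* Module.End ℂ S₂} {β₁ : S₁ →ₗ[ℂ] S₁ →ₗ[ℂ] ℂ}
  {β₂ : S₂ →ₗ[ℂ] S₂ →ₗ[ℂ] ℂ} {p : GL (Fin m) E → S₁} {r : GL (Fin m) E → S₂} {ϖ : Eˣ}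

omit [ProperSpace F] [IsUltrametricDist E] [BorelSpace (GL (Fin m) E)] [NormedAlgebra F E] in
/-- `Dker` is bilinear where the integrals converge. -/
theorem exists_Lam {g : GL (Fin m) E}
    (hint : ∀ (c' : S₂) (b : S₁),
      IntegrableOn (fun h => β₁ (p h⁻¹) b * β₂ (r (th t₂ (h * g))) c') (Gfin m ϖ) μ) :
    ∃ Lam : S₂ →ₗ[ℂ] S₁ →ₗ[ℂ] ℂ, ∀ c' b, Lam c' b = Dker μ ϖ t₂ β₁ β₂ p r g c' b := by
  refine ⟨LinearMap.mk₂ ℂ (fun c' b => Dker μ ϖ t₂ β₁ β₂ p r g c' b) ?_ ?_ ?_ ?_, fun _ _ => rfl⟩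
  · intro c c' b
    unfold Dker
    rw [← integral_add (hint c b) (hint c' b)]
    congr 1
    funext h
    rw [map_add, mul_add]
  · intro z c b
    unfold Dker
    rw [smul_eq_mul, ← integral_const_mul]
    congr 1
    funext h
    rw [map_smul, smul_eq_mul]
    ring
  · intro c b b'
    unfold Dker
    rw [← integral_add (hint c b) (hint c b')]
    congr 1
    funext h
    rw [map_add, add_mul]
  · intro z c b
    unfold Dker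
    rw [smul_eq_mul, ← integral_const_mul]
    congr 1
    funext h
    rw [map_smul, smul_eq_mul]
    ring

/-- The abstract theorem of the vanishing case for one `g`. -/
def VanAbs (ω₁ : unitary σ (Dg t₁) →* Module.End ℂ S₁) (ω₂ : unitary σ (Dg t₂) →* Module.End ℂ S₂)
    (g : GL (Fin m) E) : Prop :=
  ∀ Lam : S₂ →ₗ[ℂ] S₁ →ₗ[ℂ] ℂ, (∀ (u : unitary σ (Dg t₂)) (u'' : unitary σ (Dg t₁)),
    u.1.1 * xiM σ t₁ t₂ g = xiM σ t₁ t₂ g * u.1.1 → u''.1 = (th t₁ (g * u.1 * g⁻¹))⁻¹ →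
    ∀ c b, Lam (ω₂ u c) (ω₁ u'' b) = Lam c b) → ∀ c b, Lam c b = 0

/-- The vanishing case from the abstract theorem. -/
theorem van_case_of [μ.IsHaarMeasure] (hq : QuadDatum σ δ d) (ht₁ : SkT σ t₁) (ht₂ : SkT σ t₂)
    (hiso : ¬ ∃ g : GL (Fin m) E, (g : Matrix (Fin m) (Fin m) E).transpose * Dg t₁ *
      (g : Matrix (Fin m) (Fin m) E).map σ = Dg t₂)
    (hint : ∀ g ∈ GoodG μ σ t₁ t₂, ∀ (c' : S₂) (b : S₁),
      IntegrableOn (fun h => β₁ (p h⁻¹) b * β₂ (r (th t₂ (h * g))) c') (Gfin m ϖ) μ)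
    (hleft : ∀ (u u' : unitary σ (Dg t₁)), u'.1 = th t₁ u.1 → ∀ (g : GL (Fin m) E) c' b,
      Dker μ ϖ t₂ β₁ β₂ p r (u.1 * g) c' b = Dker μ ϖ t₂ β₁ β₂ p r g c' (ω₁ u' b))
    (hright : ∀ (u : unitary σ (Dg t₂)) (g : GL (Fin m) E) c' b,
      Dker μ ϖ t₂ β₁ β₂ p r (g * u.1) c' b = Dker μ ϖ t₂ β₁ β₂ p r g (ω₂ u c') b)
    (habs : ∀ g : GL (Fin m) E, (xiM σ t₁ t₂ g).charpoly.Separable →
      (¬ ∃ f : E[X], aeval (xiM σ t₁ t₂ g) f *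
        aeval (xiM σ t₁ t₂ g) (f.map (σ : E →+* E)) = xiM σ t₁ t₂ g) → VanAbs ω₁ ω₂ g)
    (hgood : ∀ᵐ g ∂μ, g ∈ GoodG μ σ t₁ t₂) :
    ∀ᵐ g ∂μ, ∀ c' b, Dker μ ϖ t₂ β₁ β₂ p r g c' b = 0 := by
  have hfin : FiniteDimensional F E := hq.finite
  filter_upwards [hgood, ae_sep_dg μ σ t₁ t₂] with g hg hsep
  obtain ⟨Lam, hLam⟩ := exists_Lam (hint g hg)
  have h1 := habs g hsep (fun ⟨f, hf⟩ => hiso (isom_of_norm hq ht₁ ht₂ g hf)) Lam (by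
    intro u u'' hc hu'' c b
    have hv : g * u.1 * g⁻¹ ∈ unitary σ (Dg t₁) := conj_mem u.2 hc
    have hgu : g * u.1 = (g * u.1 * g⁻¹) * g := by group
    have h2 := hright u g c (ω₁ u'' b)
    rw [hgu] at h2
    have hv' : th t₁ (g * u.1 * g⁻¹) ∈ unitary σ (Dg t₁) := th_mem (sig_sig hq) ht₁ hv
    have h3 := hleft ⟨g * u.1 * g⁻¹, hv⟩ ⟨th t₁ (g * u.1 * g⁻¹), hv'⟩ rfl g c (ω₁ u'' b)
    have h4 : (⟨th t₁ (g * u.1 * g⁻¹), hv'⟩ : unitary σ (Dg t₁)) * u'' = 1 := by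
      apply Subtype.ext
      show th t₁ (g * u.1 * g⁻¹) * u''.1 = 1
      rw [hu'', mul_inv_cancel]
    rw [← Module.End.mul_apply, ← map_mul, h4, map_one, Module.End.one_apply] at h3
    rw [hLam, hLam, ← h2]
    exact h3)
  intro c' b
  rw [← hLam]
  exact h1 c' b

end main

end SpW.Mo
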