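import Pool.Agent.Work.MP_3615d2_al.WeilDual
import Pool.Agent.Work.MP_3615d2_al.WeExt
import Pool.Agent.Work.MP_3615d2_al.ThmA0
import Pool.Agent.Work.MP_3615d2_al.Integ1

/-!
MP_3615d2_al, multiplicity one, G5a (part 1): the positive hermitian form on the Weil
representation, `⟨x, y⟩ = ∫ ξ(ρ(w)x) conj(ξ(ρ(w)y)) dw` for a nonzero smooth functional `ξ`.
It is invariant under `ρ` and under `ω`.
-/

open MeasureTheory Metric Set Filter Topology
open scoped NNReal ComplexConjugate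

set_option linter.unusedSectionVars false

namespace SpW.Mo

open Pool.Agent.SpehH

section muu

variable {F E : Type} [NontriviallyNormedField F] [IsUltrametricDist F] [ProperSpace F]
  [NontriviallyNormedField E] [NormedAlgebra F E] [IsUltrametricDist E]
  [ProperSpace E] {σ : E ≃ₐ[F] E} {δ : E} {d : F} {μ : Eˣ →* ℂˣ}

theorem le_one_of_pow_le {a M : ℝ} (h : ∀ n : ℕ, a ^ n ≤ M) : a ≤ 1 := by
  by_contra h1
  push Not at h1
  obtain ⟨n, hn⟩ := pow_unbounded_of_one_lt M h1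
  exact absurd (h n) (not_le.2 hn)

theorem isCompact_unit_sphere (E : Type) [NontriviallyNormedField E] [ProperSpace E] :
    IsCompact {u : Eˣ | ‖(u : E)‖ = 1} := by
  rw [(Units.isEmbedding_val₀ (G₀ := E)).isCompact_iff]
  have : (Units.val '' {u : Eˣ | ‖(u : E)‖ = 1}) = sphere (0 : E) 1 := by
    ext x
    rw [mem_sphere_zero_iff_norm]
    constructor
    · rintro ⟨u, hu, rfl⟩
      exact hu
    · intro hx
      have hx0 : x ≠ 0 := by
        rintro rfl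
        rw [norm_zero] at hx
        exact zero_ne_one hx
      exact ⟨Units.mk0 x hx0, hx, rfl⟩
  rw [this]
  exact isCompact_sphere 0 1

/-- A conjugate-symplectic character is unitary. -/
theorem mu_norm_one (hq : QuadDatum σ δ d) (hμ : ConjSymplectic F μ) (z : Eˣ) :
    ‖((μ z : ℂˣ) : ℂ)‖ = 1 := by
  obtain ⟨M, hM⟩ := (isCompact_unit_sphere E).exists_bound_of_continuousOn
    (f := fun u : Eˣ => ((μ u : ℂˣ) : ℂ)) (Units.continuous_val.comp hμ.cont).continuousOn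
  have hle : ∀ u : Eˣ, ‖(u : E)‖ = 1 → ‖((μ u : ℂˣ) : ℂ)‖ ≤ 1 := by
    intro u hu
    refine le_one_of_pow_le (M := M) fun n => ?_
    have h1 := hM (u ^ n) (by
      show ‖((u ^ n : Eˣ) : E)‖ = 1
      rw [Units.val_pow_eq_pow_val, norm_pow, hu, one_pow])
    rwa [map_pow, Units.val_pow_eq_pow_val, norm_pow] at h1
  have hne : σ (z : E) ≠ 0 := fun h => z.ne_zero ((map_eq_zero σ).1 h)
  set z' : Eˣ := Units.mk0 _ hne with hz'
  have h1 : μ z' = (μ z)⁻¹ := mu_sig hq hμ z z' rfl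
  have h2 : ‖((z * z'⁻¹ : Eˣ) : E)‖ = 1 := by
    rw [Units.val_mul, Units.val_inv_eq_inv_val, norm_mul, norm_inv, hz', Units.val_mk0,
      sg_norm hq, mul_inv_cancel₀ (norm_ne_zero_iff.2 z.ne_zero)]
  have h3 : ‖((z * z'⁻¹ : Eˣ)⁻¹ : Eˣ).1‖ = 1 := by
    rw [Units.val_inv_eq_inv_val, norm_inv, h2, inv_one]
  have h4 := hle _ h2
  have h5 := hle _ h3
  rw [map_mul, map_inv, h1, inv_inv, Units.val_mul, norm_mul] at h4
  rw [map_inv, map_mul, map_inv, h1, inv_inv, Units.val_inv_eq_inv_val, norm_inv, Units.val_mul,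
    norm_mul] at h5
  have h6 : 0 < ‖((μ z : ℂˣ) : ℂ)‖ := norm_pos_iff.2 (Units.ne_zero _)
  have h7 : 1 ≤ ‖((μ z : ℂˣ) : ℂ)‖ * ‖((μ z : ℂˣ) : ℂ)‖ := (inv_le_one₀ (by positivity)).1 h5
  nlinarith

end muu

section herm

variable {F E : Type} [NontriviallyNormedField F] [IsUltrametricDist F] [ProperSpace F]
  [NontriviallyNormedField E] [NormedAlgebra F E] [IsUltrametricDist E]
  [ProperSpace E] [MeasurableSpace E] [BorelSpace E]
  {σ : E ≃ₐ[F] E} {δ : E} {d : F} {N : ℕ} {H : Matrix (Fin N) (Fin N) E}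
  {ψ : AddChar F Circle} {μ : Eˣ →* ℂˣ} {S : Type} [AddCommGroup S] [Module ℂ S]
  {ρ : (Fin N → E) → Module.End ℂ S} {ω : unitary σ H →* Module.End ℂ S}

theorem rr (hW : IsWeil σ H ψ μ ρ ω) (w w' : Fin N → E) (x : S) :
    ρ w (ρ w' x) = ((ψ ((2 : F)⁻¹ * sympl F σ H w w') : Circle) : ℂ) • ρ (w + w') x :=
  congrArg (fun f : Module.End ℂ S => f x) (hW.rho_mul w w')

theorem rzero (hW : IsWeil σ H ψ μ ρ ω) (x : S) : ρ 0 x = x :=
  congrArg (fun f : Module.End ℂ S => f x) hW.rho_zero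

theorem om_rho' (hW : IsWeil σ H ψ μ ρ ω) (g : unitary σ H) (w : Fin N → E) (x : S) :
    ω g (ρ w x) = ρ ((umat g).mulVec w) (ω g x) :=
  congrArg (fun f : Module.End ℂ S => f x) (hW.om_rho g w)

theorem rneg (hW : IsWeil σ H ψ μ ρ ω) (hq : QuadDatum σ δ d) (hH : IsSkew σ H)
    (w : Fin N → E) (x : S) : ρ (-w) (ρ w x) = x := by
  rw [rr hW, neg_add_cancel, rzero hW]
  have : sympl F σ H (-w) w = 0 := by
    rw [sympl_eq, sk_neg_left, map_neg, ← sympl_eq, sympl_self hq hH, neg_zero]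
  rw [this, mul_zero, AddChar.map_zero_eq_one, Circle.coe_one, one_smul]

theorem rv_locConst (hW : IsWeil σ H ψ μ ρ ω) (hq : QuadDatum σ δ d) (hψ : Continuous ψ)
    (x : S) : IsLocallyConstant (fun w : Fin N → E => ρ w x) := by
  rw [IsLocallyConstant.iff_eventually_eq]
  intro w
  have h1 : Tendsto (fun y : Fin N → E => y - w) (nhds w) (nhds 0) := by
    have h0 : Continuous fun y : Fin N → E => y - w := continuous_id.sub continuous_const
    simpa using h0.tendsto w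
  filter_upwards [h1.eventually (hW.rho_smooth x),
    h1.eventually (psi_sympl_eventually (H := H) hq hψ w (2 : F)⁻¹)] with y hy hy2
  have h3 := rr hW w (y - w) x
  rw [hy, hy2, Circle.coe_one, one_smul, add_sub_cancel] at h3
  exact h3.symm

theorem cf_cont (hW : IsWeil σ H ψ μ ρ ω) (hq : QuadDatum σ δ d) (hψ : Continuous ψ)
    (ξ : S →ₗ[ℂ] ℂ) (x : S) : Continuous (fun w : Fin N → E => ξ (ρ w x)) :=
  ((rv_locConst hW hq hψ x).comp ξ).continuous

/-- Matrix coefficients of `ρ` have compact support. -/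
theorem cf_supp (hW : IsWeil σ H ψ μ ρ ω) (hq : QuadDatum σ δ d) (hH : IsSkew σ H)
    (hψ1 : ψ ≠ 1) (ξ : hDual ρ) (x : S) :
    ∃ R : ℝ, ∀ w : Fin N → E, R < ‖w‖ → ξ.1 (ρ w x) = 0 := by
  have hfd := hq.finite
  have h1 : ∀ᶠ l in nhds (0 : Fin N → E), ∀ v, ξ.1 (ρ l v) = ξ.1 v := ξ.2
  obtain ⟨ε', hε', hball⟩ := Metric.eventually_nhds_iff.1 (h1.and (hW.rho_smooth x))
  obtain ⟨r₀, hr₀⟩ := exists_far hψ1 (symplB F σ H)
    (fun w hw => sympl_nondeg hq hH hw) (ε := ε' / 2) (by positivity)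
  refine ⟨r₀, fun w hw => ?_⟩
  obtain ⟨l, hl, hne⟩ := hr₀ w hw
  have h2 := hball (y := l) (by rw [dist_zero_right]; linarith)
  have h3 := rho_comm hW.isHeis (symplB_alt hq hH) hq.two w l x
  rw [h2.2] at h3
  have h4 := congrArg ξ.1 h3
  rw [map_smul, h2.1, smul_eq_mul] at h4
  by_contra h5
  apply hne
  have h6 : ((ψ (symplB F σ H w l) : Circle) : ℂ) = 1 := (mul_eq_right₀ h5).1 h4.symm
  rwa [← Circle.coe_one, Circle.coe_inj] at h6

theorem cf_compact (hW : IsWeil σ H ψ μ ρ ω) (hq : QuadDatum σ δ d) (hH : IsSkew σ H)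
    (hψ1 : ψ ≠ 1) (ξ : hDual ρ) (x : S) :
    HasCompactSupport (fun w : Fin N → E => ξ.1 (ρ w x)) := by
  obtain ⟨R, hR⟩ := cf_supp hW hq hH hψ1 ξ x
  refine HasCompactSupport.intro (isCompact_closedBall 0 R) fun w hw => hR w ?_
  simpa using hw

/-- The hermitian form. -/
noncomputable def ip (ρ : (Fin N → E) → Module.End ℂ S) (ξ : S →ₗ[ℂ] ℂ) (x y : S) : ℂ :=
  ∫ w : Fin N → E, ξ (ρ w x) * conj (ξ (ρ w y)) ∂(Measure.addHaar)

variable (ξ : hDual ρ)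

theorem ip_int (hW : IsWeil σ H ψ μ ρ ω) (hq : QuadDatum σ δ d) (hH : IsSkew σ H)
    (hψ : Continuous ψ) (hψ1 : ψ ≠ 1) (x y : S) :
    Integrable (fun w : Fin N → E => ξ.1 (ρ w x) * conj (ξ.1 (ρ w y))) Measure.addHaar := by
  refine Continuous.integrable_of_hasCompactSupport
    ((cf_cont hW hq hψ ξ.1 x).mul
      (Complex.continuous_conj.comp (cf_cont hW hq hψ ξ.1 y))) ?_
  exact (cf_compact hW hq hH hψ1 ξ x).mul_right

theorem ip_add (hW : IsWeil σ H ψ μ ρ ω) (hq : QuadDatum σ δ d) (hH : IsSkew σ H)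
    (hψ : Continuous ψ) (hψ1 : ψ ≠ 1) (x x' y : S) :
    ip ρ ξ.1 (x + x') y = ip ρ ξ.1 x y + ip ρ ξ.1 x' y := by
  unfold ip
  rw [← integral_add (ip_int ξ hW hq hH hψ hψ1 x y) (ip_int ξ hW hq hH hψ hψ1 x' y)]
  refine integral_congr_ae (Eventually.of_forall fun w => ?_)
  show ξ.1 (ρ w (x + x')) * conj (ξ.1 (ρ w y)) = _
  rw [map_add, map_add, add_mul]

theorem ip_smul (c : ℂ) (x y : S) : ip ρ ξ.1 (c • x) y = c * ip ρ ξ.1 x y := by
  unfold ip
  rw [← integral_const_mul]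
  refine integral_congr_ae (Eventually.of_forall fun w => ?_)
  show ξ.1 (ρ w (c • x)) * conj (ξ.1 (ρ w y)) = _
  rw [map_smul, map_smul, smul_eq_mul, mul_assoc]

theorem ip_conj (x y : S) : ip ρ ξ.1 y x = conj (ip ρ ξ.1 x y) := by
  unfold ip
  rw [← integral_conj]
  refine integral_congr_ae (Eventually.of_forall fun w => ?_)
  show ξ.1 (ρ w y) * conj (ξ.1 (ρ w x)) = conj (ξ.1 (ρ w x) * conj (ξ.1 (ρ w y)))
  rw [map_mul, Complex.conj_conj, mul_comm]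

theorem ip_rho (hW : IsWeil σ H ψ μ ρ ω) (w' : Fin N → E) (x y : S) :
    ip ρ ξ.1 (ρ w' x) (ρ w' y) = ip ρ ξ.1 x y := by
  unfold ip
  rw [← integral_add_right_eq_self (fun w : Fin N → E => ξ.1 (ρ w x) * conj (ξ.1 (ρ w y))) w']
  refine integral_congr_ae (Eventually.of_forall fun w => ?_)
  show ξ.1 (ρ w (ρ w' x)) * conj (ξ.1 (ρ w (ρ w' y))) = _
  rw [rr hW, rr hW]
  have h1 : ((ψ ((2 : F)⁻¹ * sympl F σ H w w') : Circle) : ℂ) *
      conj ((ψ ((2 : F)⁻¹ * sympl F σ H w w') : Circle) : ℂ) = 1 := by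
    rw [Complex.mul_conj, Complex.normSq_eq_norm_sq, Circle.norm_coe]
    norm_num
  generalize ((ψ ((2 : F)⁻¹ * sympl F σ H w w') : Circle) : ℂ) = z at h1 ⊢
  rw [map_smul, map_smul, smul_eq_mul, smul_eq_mul, RingHom.map_mul]
  linear_combination (ξ.1 (ρ (w + w') x) * conj (ξ.1 (ρ (w + w') y))) * h1

theorem exists_coef_ne (hW : IsWeil σ H ψ μ ρ ω) (hξ : ξ ≠ 0) {x : S} (hx : x ≠ 0) :
    ∃ w : Fin N → E, ξ.1 (ρ w x) ≠ 0 := by
  by_contra hcon
  push Not at hcon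
  let V : Submodule ℂ S :=
    { carrier := {v | ∀ w, ξ.1 (ρ w v) = 0}
      add_mem' := by
        intro a b ha hb w
        rw [map_add, map_add, ha w, hb w, add_zero]
      zero_mem' := by
        intro w
        rw [map_zero, map_zero]
      smul_mem' := by
        intro c a ha w
        rw [map_smul, map_smul, ha w, smul_zero] }
  have hV : ∀ w, ∀ v ∈ V, ρ w v ∈ V := by
    intro w v hv w'
    rw [rr hW, map_smul, hv (w' + w), smul_zero]
  rcases hW.rho_irr V hV with h | h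
  · apply hx
    have : x ∈ V := hcon
    rw [h] at this
    exact (Submodule.mem_bot ℂ).1 this
  · apply hξ
    refine hDual_ext fun v => ?_
    have hv : v ∈ V := by rw [h]; trivial
    have := hv 0
    rw [rzero hW] at this
    exact this

theorem ip_self (x : S) : ip ρ ξ.1 x x =
    ((∫ w : Fin N → E, ‖ξ.1 (ρ w x)‖ ^ 2 ∂(Measure.addHaar) : ℝ) : ℂ) := by
  unfold ip
  rw [← integral_complex_ofReal]
  refine integral_congr_ae (Eventually.of_forall fun w => ?_)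
  show ξ.1 (ρ w x) * conj (ξ.1 (ρ w x)) = _
  rw [Complex.mul_conj, Complex.normSq_eq_norm_sq]

theorem ip_pos (hW : IsWeil σ H ψ μ ρ ω) (hq : QuadDatum σ δ d) (hH : IsSkew σ H)
    (hψ : Continuous ψ) (hψ1 : ψ ≠ 1) (hξ : ξ ≠ 0) {x : S} (hx : x ≠ 0) :
    0 < ∫ w : Fin N → E, ‖ξ.1 (ρ w x)‖ ^ 2 ∂(Measure.addHaar) := by
  obtain ⟨w, hw⟩ := exists_coef_ne ξ hW hξ hx
  refine Continuous.integral_pos_of_hasCompactSupport_nonneg_nonzero (x := w)
    ((cf_cont hW hq hψ ξ.1 x).norm.pow 2) ?_ (fun _ => by positivity) ?_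
  · have h1 := (cf_compact hW hq hH hψ1 ξ x).norm
    exact h1.comp_left (g := fun t : ℝ => t ^ 2) (by norm_num)
  · simp only [ne_eq, OfNat.ofNat_ne_zero, not_false_eq_true, pow_eq_zero_iff, norm_eq_zero]
    exact hw

theorem ip_eq_zero (hW : IsWeil σ H ψ μ ρ ω) (hq : QuadDatum σ δ d) (hH : IsSkew σ H)
    (hψ : Continuous ψ) (hψ1 : ψ ≠ 1) (hξ : ξ ≠ 0) {x : S} (hx : ip ρ ξ.1 x x = 0) : x = 0 := by
  by_contra h
  have h1 := ip_pos ξ hW hq hH hψ hψ1 hξ h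
  rw [ip_self, Complex.ofReal_eq_zero] at hx
  exact absurd hx h1.ne'

/-- `⟨·, y⟩` as a smooth functional. -/
noncomputable def ipD (hW : IsWeil σ H ψ μ ρ ω) (hq : QuadDatum σ δ d) (hH : IsSkew σ H)
    (hψ : Continuous ψ) (hψ1 : ψ ≠ 1) (y : S) : hDual ρ :=
  ⟨{ toFun := fun x => ip ρ ξ.1 x y
     map_add' := fun x x' => ip_add ξ hW hq hH hψ hψ1 x x' y
     map_smul' := fun c x => ip_smul ξ c x y }, by
    show ∀ᶠ w in nhds (0 : Fin N → E), ∀ v, ip ρ ξ.1 (ρ w v) y = ip ρ ξ.1 v y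
    filter_upwards [hW.rho_smooth y] with w hw v
    conv_lhs => rw [← hw]
    exact ip_rho ξ hW w v y⟩

theorem ipD_apply (hW : IsWeil σ H ψ μ ρ ω) (hq : QuadDatum σ δ d) (hH : IsSkew σ H)
    (hψ : Continuous ψ) (hψ1 : ψ ≠ 1) (x y : S) :
    (ipD ξ hW hq hH hψ hψ1 y).1 x = ip ρ ξ.1 x y := rfl

/-- Riesz: every smooth functional is `⟨·, y⟩`. -/
theorem ip_riesz (hW : IsWeil σ H ψ μ ρ ω) (hq : QuadDatum σ δ d) (hH : IsSkew σ H)
    (hψ : Continuous ψ) (hψ1 : ψ ≠ 1) (hξ : ξ ≠ 0) (η : hDual ρ) :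
    ∃ y : S, ∀ x, η.1 x = ip ρ ξ.1 x y := by
  have hadd : ∀ x y y', ip ρ ξ.1 x (y + y') = ip ρ ξ.1 x y + ip ρ ξ.1 x y' := by
    intro x y y'
    rw [ip_conj ξ (y + y') x, ip_add ξ hW hq hH hψ hψ1, map_add, ← ip_conj, ← ip_conj]
  have hsm : ∀ (c : ℂ) x y, ip ρ ξ.1 x (c • y) = conj c * ip ρ ξ.1 x y := by
    intro c x y
    rw [ip_conj ξ (c • y) x, ip_smul, map_mul, ← ip_conj]
  let T : Submodule ℂ (hDual ρ) :=
    { carrier := {η | ∃ y : S, ∀ x, η.1 x = ip ρ ξ.1 x y}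
      add_mem' := by
        rintro a b ⟨y, hy⟩ ⟨y', hy'⟩
        refine ⟨y + y', fun x => ?_⟩
        rw [hadd, ← hy, ← hy']
        rfl
      zero_mem' := by
        refine ⟨0, fun x => ?_⟩
        have := hsm 0 x 0
        rw [zero_smul, map_zero, zero_mul] at this
        rw [this]
        rfl
      smul_mem' := by
        rintro c a ⟨y, hy⟩
        refine ⟨conj c • y, fun x => ?_⟩
        rw [hsm, Complex.conj_conj, ← hy]
        rfl }
  have hT : ∀ w, ∀ v ∈ T, rhoD hW hq hH hψ w v ∈ T := by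
    rintro w v ⟨y, hy⟩
    refine ⟨ρ w y, fun x => ?_⟩
    rw [rhoD_apply, hy, ← ip_rho ξ hW w]
    have h1 := rneg hW hq hH (-w) x
    rw [neg_neg] at h1
    rw [h1]
  rcases rhoD_irr hW hq hH hψ hψ1 T hT with h | h
  · exfalso
    have hn := hW.nontrivial
    obtain ⟨y, hy⟩ := exists_ne (0 : S)
    have h1 : ipD ξ hW hq hH hψ hψ1 y ∈ T := ⟨y, fun x => rfl⟩
    rw [h, Submodule.mem_bot] at h1
    apply hy
    apply ip_eq_zero ξ hW hq hH hψ hψ1 hξ
    rw [← ipD_apply ξ hW hq hH hψ hψ1, h1]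
    rfl
  · have h1 : η ∈ T := by rw [h]; trivial
    exact h1

theorem conj_inv_unit {z : ℂˣ} (hz : ‖(z : ℂ)‖ = 1) : conj ((z⁻¹ : ℂˣ) : ℂ) = (z : ℂ) := by
  have h1 : (z : ℂ) * conj (z : ℂ) = 1 := by
    rw [Complex.mul_conj, Complex.normSq_eq_norm_sq, hz]
    norm_num
  have h2 : ((z⁻¹ : ℂˣ) : ℂ) = conj (z : ℂ) := by
    rw [Units.val_inv_eq_inv_val]
    exact inv_eq_of_mul_eq_one_right h1
  rw [h2, Complex.conj_conj]

theorem circle_conj (a : F) : conj ((((ψ⁻¹) a : Circle)) : ℂ) = ((ψ a : Circle) : ℂ) := by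
  rw [AddChar.inv_apply, AddChar.map_neg_eq_inv, Circle.coe_inv_eq_conj, Complex.conj_conj]

/-- The adjoint of `ω(g)`, `g - 1` invertible, up to a constant which does not depend on `g`. -/
theorem om_adj_aux (hW : IsWeil σ H ψ μ ρ ω) (hq : QuadDatum σ δ d) (hH : IsSkew σ H)
    (hψ : Continuous ψ) (hψ1 : ψ ≠ 1) (hμ : ConjSymplectic F μ) :
    ∃ κ : ℂ, (∀ (g : unitary σ H), (umat g - 1).det ≠ 0 → ∀ x y,
      κ * ip ρ ξ.1 x (ω g⁻¹ y) = conj κ * ip ρ ξ.1 (ω g x) y) ∧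
      (κ = 0 → ∀ (g : unitary σ H), (umat g - 1).det ≠ 0 → ∀ x y, ip ρ ξ.1 (ω g x) y = 0) := by
  obtain ⟨κ, hκ⟩ := hW.normalised
  refine ⟨κ, fun g hg x y => ?_, fun h0 g hg x y => ?_⟩
  · set d' : Eˣ := Units.mk0 _ hg with hd'
    have hd : (d' : E) = (umat g - 1).det := rfl
    have hu : IsUnit (umat g - 1) := isUnit_sub_one hd
    have hd2 : (umat g⁻¹ - 1).det = σ d' := by rw [det_inv_sub_one hH, hd]
    have hdne : σ (d' : E) ≠ 0 := fun h => d'.ne_zero ((map_eq_zero σ).1 h)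
    have hu' : IsUnit (umat g⁻¹ - 1) := by
      rw [Matrix.isUnit_iff_isUnit_det, hd2]
      exact isUnit_iff_ne_zero.2 hdne
    set d'' : Eˣ := Units.mk0 _ hdne with hd''
    have hA := hκ g d' hd x (ipD ξ hW hq hH hψ hψ1 y).1
    have hB := hκ g⁻¹ d'' (by rw [hd'', Units.val_mk0, hd2]) y (ipD ξ hW hq hH hψ hψ1 x).1
    obtain ⟨r, hA, hB⟩ := (hA.and hB).exists
    rw [integral_inv_eq hq hu hu'] at hB
    simp only [ipD_apply] at hA
    have hB2 := congrArg conj hB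
    rw [ipD_apply, ← ip_conj, map_mul, map_mul, map_mul, ← integral_conj, Complex.conj_ofReal,
      mu_sig hq hμ d' d'' rfl, absE_sig hq d' d'' rfl, MonoidHom.inv_apply,
      conj_inv_unit (mu_norm_one hq hμ d')] at hB2
    have hI : ∫ w in closedBall (0 : Fin N → E) r,
        conj (fS ψ σ H (cayley (umat g)) ρ (ipD ξ hW hq hH hψ hψ1 x).1 y w)
          ∂(Measure.addHaar) =
        ∫ w in closedBall (0 : Fin N → E) r,
          ((ψ ((4 : F)⁻¹ * sympl F σ H ((cayley (umat g)).mulVec w) w) : Circle) : ℂ)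
            * ip ρ ξ.1 (ρ w x) y ∂(Measure.addHaar) := by
      refine integral_congr_ae (Eventually.of_forall fun w => ?_)
      show conj (fS ψ σ H (cayley (umat g)) ρ (ipD ξ hW hq hH hψ hψ1 x).1 y w) = _
      rw [fS, map_mul, circle_conj, ipD_apply, ← ip_conj, ← ip_rho ξ hW w x (ρ (-w) y)]
      have h1 := rneg hW hq hH (-w) y
      rw [neg_neg] at h1
      rw [h1]
    rw [hI] at hB2
    rw [hA, hB2]
    ring
  · obtain ⟨r, hA⟩ := (hκ g (Units.mk0 _ hg) rfl x (ipD ξ hW hq hH hψ hψ1 y).1).exists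
    rw [h0, zero_mul, zero_mul, zero_mul] at hA
    exact hA

theorem om_inv_om (g : unitary σ H) (x : S) : ω g⁻¹ (ω g x) = x := by
  rw [← Module.End.mul_apply, ← map_mul, inv_mul_cancel, map_one, Module.End.one_apply]

/-- `ω` preserves the hermitian form. -/
theorem ip_om (hW : IsWeil σ H ψ μ ρ ω) (hq : QuadDatum σ δ d) (hH : IsSkew σ H)
    (hψ : Continuous ψ) (hψ1 : ψ ≠ 1) (hμ : ConjSymplectic F μ) (hξ : ξ ≠ 0)
    (g : unitary σ H) (x y : S) : ip ρ ξ.1 (ω g x) (ω g y) = ip ρ ξ.1 x y := by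
  obtain ⟨κ, hκ, hκ0⟩ := om_adj_aux ξ hW hq hH hψ hψ1 hμ
  have hinf : Infinite F := NontriviallyNormedField.infinite F
  have hreg : ∀ (g : unitary σ H), (umat g - 1).det ≠ 0 → ∀ x y,
      ip ρ ξ.1 (ω g x) (ω g y) = ip ρ ξ.1 x y := by
    intro g hg x y
    have hn := hW.nontrivial
    obtain ⟨z, hz⟩ := exists_ne (0 : S)
    have h1 := hκ g hg z (ω g z)
    rw [om_inv_om, ip_self, ip_self] at h1
    have h2 := ip_pos ξ hW hq hH hψ hψ1 hξ hz
    have hgz : ω g z ≠ 0 := by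
      intro h
      apply hz
      rw [← om_inv_om (ω := ω) g z, h, map_zero]
    have h3 := ip_pos ξ hW hq hH hψ hψ1 hξ hgz
    set p := ∫ w : Fin N → E, ‖ξ.1 (ρ w z)‖ ^ 2 ∂(Measure.addHaar) with hp
    set q := ∫ w : Fin N → E, ‖ξ.1 (ρ w (ω g z))‖ ^ 2 ∂(Measure.addHaar) with hq'
    have hk0 : κ ≠ 0 := by
      intro h
      have h4 := hκ0 h g hg z (ω g z)
      rw [ip_self, Complex.ofReal_eq_zero] at h4
      exact h3.ne' h4
    have hn1 := congrArg norm h1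
    rw [norm_mul, norm_mul, RCLike.norm_conj, Complex.norm_real, Complex.norm_real,
      Real.norm_of_nonneg h2.le, Real.norm_of_nonneg h3.le] at hn1
    have hpq : p = q := mul_left_cancel₀ (norm_ne_zero_iff.2 hk0) hn1
    rw [hpq] at h1
    have hkk : κ = conj κ := mul_right_cancel₀ (Complex.ofReal_ne_zero.2 h3.ne') h1
    have h5 := hκ g hg x (ω g y)
    rw [om_inv_om, ← hkk] at h5
    exact (mul_left_cancel₀ hk0 h5).symm
  obtain ⟨h, hh, hgh⟩ := exists_regular hq {g}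
  have hgh' := hgh g (Finset.mem_singleton_self g)
  have e1 : ∀ x : S, ω g x = ω (g * h) (ω h⁻¹ x) := by
    intro x
    rw [← Module.End.mul_apply, ← map_mul, mul_assoc, mul_inv_cancel, mul_one]
  have e2 : ∀ x : S, ω h (ω h⁻¹ x) = x := by
    intro x
    rw [← Module.End.mul_apply, ← map_mul, mul_inv_cancel, map_one, Module.End.one_apply]
  rw [e1 x, e1 y, hreg _ hgh', ← hreg h hh, e2, e2]

/-- **G5a, hermitian form.** -/
theorem exists_herm (hW : IsWeil σ H ψ μ ρ ω) (hq : QuadDatum σ δ d) (hH : IsSkew σ H)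
    (hψ : Continuous ψ) (hψ1 : ψ ≠ 1) (hμ : ConjSymplectic F μ) :
    ∃ Hf : S → S → ℂ, (∀ a b d, Hf (a + b) d = Hf a d + Hf b d) ∧
      (∀ (c : ℂ) a d, Hf (c • a) d = c * Hf a d) ∧ (∀ a b, Hf b a = conj (Hf a b)) ∧
      (∀ a, 0 ≤ (Hf a a).re) ∧ (∀ a, a ≠ 0 → 0 < (Hf a a).re) ∧
      (∀ w a b, Hf (ρ w a) (ρ w b) = Hf a b) ∧
      (∀ (g : unitary σ H) a b, Hf (ω g a) (ω g b) = Hf a b) ∧
      ∀ η : hDual ρ, ∃ y : S, ∀ x, η.1 x = Hf x y := by
  have hn := hDual_nontrivial hW hq hH hψ hψ1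
  obtain ⟨ξ, hξ⟩ := exists_ne (0 : hDual ρ)
  have hpos : ∀ a, a ≠ 0 → 0 < (ip ρ ξ.1 a a).re := by
    intro a ha
    rw [ip_self, Complex.ofReal_re]
    exact ip_pos ξ hW hq hH hψ hψ1 hξ ha
  refine ⟨ip ρ ξ.1, ip_add ξ hW hq hH hψ hψ1, ip_smul ξ, ip_conj ξ, ?_, hpos,
    ip_rho ξ hW, ip_om ξ hW hq hH hψ hψ1 hμ hξ, ip_riesz ξ hW hq hH hψ hψ1 hξ⟩
  intro a
  rw [ip_self, Complex.ofReal_re]
  exact integral_nonneg fun _ => by positivity

end herm

end SpW.Mo
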